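import Pool.Agent.KTube.StretchMem
import Pool.Agent.MP_aea6d5_co.JoinTop

/-! T1: inserting straight levels changes neither being a polygon nor the knot type. -/

set_option autoImplicit false

open Set

namespace Pool.Agent.KTube

open Pool.Agent.LK

variable {E : Finset (Sym2 P3)} {k : ℤ} {h : ℕ}

/-- The vector of the inserted levels. -/
def hv (h : ℕ) : P3 := (0, 0, (h : ℤ))

/-! ### The polygon -/

theorem nbr_low (hE : ∀ u v, s(u, v) ∈ E → Adj u v) {u : P3} (hu : u.2.2 ≤ k) :
    {w | s(u, w) ∈ stretch E k h} = {w | s(u, w) ∈ E} := by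
  ext w
  simp only [mem_ofPred_eq]
  rw [mem_stretch]
  constructor
  · rintro (⟨h1, -, -⟩ | ⟨-, h2, -⟩ | ⟨a, b, i, hi, h2, h3⟩)
    · exact h1
    · omega
    · rw [Sym2.eq_iff] at h3
      rcases h3 with ⟨rfl, rfl⟩ | ⟨rfl, rfl⟩
      · simp only at hu
        have : (i : ℤ) = 0 := by omega
        rw [this]
        simpa using h2
      · simp only at hu
        omega
  · intro hw
    rcases adj_cases k (hE u w hw) with h2 | ⟨h2, -⟩ | ⟨a, b, h2⟩
    · exact Or.inl ⟨hw, h2.1, h2.2⟩
    · omega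
    · refine Or.inr (Or.inr ⟨a, b, 0, by omega, h2 ▸ hw, ?_⟩)
      rw [h2]
      simp

theorem nbr_high (hE : ∀ u v, s(u, v) ∈ E → Adj u v) {u : P3} (hu : k + 1 + h ≤ u.2.2) :
    {w | s(u, w) ∈ stretch E k h} = (fun w => w + hv h) '' {w | s(u - hv h, w) ∈ E} := by
  ext w
  constructor
  · intro hw
    change s(u, w) ∈ stretch E k h at hw
    rw [mem_stretch] at hw
    refine ⟨w - hv h, ?_, by simp⟩
    change s(u - hv h, w - hv h) ∈ E
    rcases hw with ⟨-, h1, -⟩ | ⟨h2, -, -⟩ | ⟨a, b, i, hi, h2, h3⟩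
    · omega
    · exact h2
    · rw [Sym2.eq_iff] at h3
      rcases h3 with ⟨rfl, rfl⟩ | ⟨rfl, rfl⟩
      · simp only at hu
        omega
      · simp only at hu
        have hi2 : (i : ℤ) = h := by omega
        have e1 : (((a, b, k + i + 1) : P3) - hv h) = (a, b, k + 1) := by
          simp only [hv, Prod.mk_sub_mk, sub_zero, Prod.mk.injEq, true_and]
          omega
        have e2 : (((a, b, k + i) : P3) - hv h) = (a, b, k) := by
          simp only [hv, Prod.mk_sub_mk, sub_zero, Prod.mk.injEq, true_and]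
          omega
        rw [e1, e2, Sym2.eq_swap]
        exact h2
  · rintro ⟨w, hw, rfl⟩
    change s(u - hv h, w) ∈ E at hw
    change s(u, w + hv h) ∈ stretch E k h
    rw [mem_stretch]
    have hz : (u - hv h).2.2 = u.2.2 - h := rfl
    have hz2 : (w + hv h).2.2 = w.2.2 + h := rfl
    rcases adj_cases k (hE _ _ hw) with ⟨h2, -⟩ | ⟨h2, h3⟩ | ⟨a, b, h2⟩
    · omega
    · refine Or.inr (Or.inl ⟨?_, hu, ?_⟩)
      · change s(u - hv h, w + hv h - hv h) ∈ E
        rw [add_sub_cancel_right]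
        exact hw
      · omega
    · refine Or.inr (Or.inr ⟨a, b, h, le_rfl, h2 ▸ hw, ?_⟩)
      rw [Sym2.eq_iff] at h2
      rcases h2 with ⟨h3, h4⟩ | ⟨h3, h4⟩
      · exfalso
        rw [h3] at hz
        simp only at hz
        omega
      · have h5 : u = (a, b, k + h + 1) := by
          rw [sub_eq_iff_eq_add] at h3
          rw [h3]
          simp only [hv, Prod.mk_add_mk, add_zero, Prod.mk.injEq, true_and]
          omega
        rw [h5, h4, Sym2.eq_swap]
        simp only [hv, Prod.mk_add_mk, add_zero]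

theorem nbr_mid {u : P3} (hu : k + 1 ≤ u.2.2) (hu' : u.2.2 ≤ k + h)
    (hc : (u.1, u.2.1) ∈ cross E k) :
    {w | s(u, w) ∈ stretch E k h} = {(u.1, u.2.1, u.2.2 - 1), (u.1, u.2.1, u.2.2 + 1)} := by
  obtain ⟨x, y, z⟩ := u
  simp only at hu hu' hc
  have hc' : s((x, y, k), (x, y, k + 1)) ∈ E := hc
  ext w
  simp only [mem_ofPred_eq, mem_insert_iff, mem_singleton_iff]
  rw [mem_stretch]
  constructor
  · rintro (⟨-, h1, -⟩ | ⟨-, h2, -⟩ | ⟨a, b, i, hi, h2, h3⟩)
    · simp only at h1
      omega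
    · simp only at h2
      omega
    · rw [Sym2.eq_iff] at h3
      rcases h3 with ⟨h3, rfl⟩ | ⟨h3, rfl⟩
      · simp only [Prod.mk.injEq] at h3
        right
        simp only [Prod.mk.injEq]
        omega
      · simp only [Prod.mk.injEq] at h3
        left
        simp only [Prod.mk.injEq]
        omega
  · rintro (rfl | rfl)
    · refine Or.inr (Or.inr ⟨x, y, (z - 1 - k).toNat, by omega, hc', ?_⟩)
      have e1 : (((z - 1 - k).toNat : ℕ) : ℤ) = z - 1 - k := by omega
      rw [e1, Sym2.eq_swap]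
      congr 1 <;> · simp only [Prod.mk.injEq, true_and]; omega
    · refine Or.inr (Or.inr ⟨x, y, (z - k).toNat, by omega, hc', ?_⟩)
      have e1 : (((z - k).toNat : ℕ) : ℤ) = z - k := by omega
      rw [e1]
      congr 1 <;> · simp only [Prod.mk.injEq, true_and]; omega

/-- Going up along an inserted column. -/
theorem column_walk {x y : ℤ} (hc : s((x, y, k), (x, y, k + 1)) ∈ E) (i : ℕ) (hi : i ≤ h + 1) :
    Relation.ReflTransGen (fun a b => s(a, b) ∈ stretch E k h) (x, y, k) (x, y, k + i) := by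
  induction i with
  | zero => simpa using Relation.ReflTransGen.refl
  | succ i ih =>
    refine (ih (by omega)).tail ?_
    rw [mem_stretch]
    refine Or.inr (Or.inr ⟨x, y, i, by omega, hc, ?_⟩)
    push_cast
    rw [add_assoc]

theorem rtg_symm {F : Finset (Sym2 P3)} {a b : P3}
    (hab : Relation.ReflTransGen (fun a b => s(a, b) ∈ F) a b) :
    Relation.ReflTransGen (fun a b => s(a, b) ∈ F) b a := by
  induction hab with
  | refl => exact Relation.ReflTransGen.refl
  | tail _ h2 ih => exact Relation.ReflTransGen.head (by rw [Sym2.eq_swap]; exact h2) ih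

open Classical in
/-- The new place of a vertex. -/
noncomputable def gmap (k : ℤ) (h : ℕ) (u : P3) : P3 := if u.2.2 ≤ k then u else u + hv h

theorem gmap_edge (hE : ∀ u v, s(u, v) ∈ E → Adj u v) {a b : P3} (hab : s(a, b) ∈ E) :
    Relation.ReflTransGen (fun a b => s(a, b) ∈ stretch E k h) (gmap k h a) (gmap k h b) := by
  rcases adj_cases k (hE a b hab) with ⟨h1, h2⟩ | ⟨h1, h2⟩ | ⟨x, y, h1⟩
  · rw [gmap, gmap, if_pos h1, if_pos h2]
    exact Relation.ReflTransGen.single (mem_stretch.2 (Or.inl ⟨hab, h1, h2⟩))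
  · rw [gmap, gmap, if_neg (by omega), if_neg (by omega)]
    refine Relation.ReflTransGen.single (mem_stretch.2 (Or.inr (Or.inl ⟨?_, ?_, ?_⟩)))
    · change s(a + hv h - hv h, b + hv h - hv h) ∈ E
      rw [add_sub_cancel_right, add_sub_cancel_right]
      exact hab
    · change k + 1 + h ≤ a.2.2 + h
      omega
    · change k + 1 + h ≤ b.2.2 + h
      omega
  · have key : Relation.ReflTransGen (fun a b => s(a, b) ∈ stretch E k h) (gmap k h (x, y, k))
        (gmap k h (x, y, k + 1)) := by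
      rw [gmap, gmap, if_pos (by simp), if_neg (by simp)]
      have h3 := column_walk (h := h) (E := E) (k := k) (x := x) (y := y) (h1 ▸ hab) (h + 1) le_rfl
      have e : ((x, y, k + 1) : P3) + hv h = (x, y, k + ((h + 1 : ℕ) : ℤ)) := by
        simp only [hv, Prod.mk_add_mk, add_zero, Prod.mk.injEq, true_and]
        push_cast
        ring
      rw [e]
      exact h3
    rw [Sym2.eq_iff] at h1
    rcases h1 with ⟨rfl, rfl⟩ | ⟨rfl, rfl⟩
    · exact key
    · exact rtg_symm key

theorem gmap_vert {u : P3} (hu : u ∈ verts (stretch E k h)) :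
    ∃ a ∈ verts E, Relation.ReflTransGen (fun a b => s(a, b) ∈ stretch E k h) (gmap k h a) u := by
  rcases verts_stretch hu with ⟨h1, h2⟩ | ⟨h1, h2⟩ | ⟨h1, h2, h3⟩
  · refine ⟨u, h1, ?_⟩
    rw [gmap, if_pos h2]
  · refine ⟨u - hv h, h1, ?_⟩
    rw [gmap, if_neg, sub_add_cancel]
    change ¬ u.2.2 - h ≤ k
    omega
  · refine ⟨(u.1, u.2.1, k), ⟨_, h1⟩, ?_⟩
    rw [gmap, if_pos (by simp)]
    have h4 := column_walk (h := h) (E := E) (k := k) (x := u.1) (y := u.2.1) h1
      (u.2.2 - k).toNat (by omega)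
    have e : (((u.2.2 - k).toNat : ℕ) : ℤ) = u.2.2 - k := by omega
    rw [e] at h4
    have e2 : ((u.1, u.2.1, k + (u.2.2 - k)) : P3) = u := by
      rw [add_sub_cancel]
    rw [e2] at h4
    exact h4

theorem isPolygon_stretch (hE : IsPolygon E) : IsPolygon (stretch E k h) := by
  have hadj := hE.adj
  refine ⟨?_, ?_, ?_, ?_⟩
  · obtain ⟨e, he⟩ := hE.nonempty
    induction e using Sym2.ind with
    | _ a b =>
      rcases adj_cases k (hadj a b he) with ⟨h1, h2⟩ | ⟨h1, h2⟩ | ⟨x, y, h1⟩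
      · exact ⟨s(a, b), mem_stretch.2 (Or.inl ⟨he, h1, h2⟩)⟩
      · refine ⟨s(a + hv h, b + hv h), mem_stretch.2 (Or.inr (Or.inl ⟨?_, ?_, ?_⟩))⟩
        · change s(a + hv h - hv h, b + hv h - hv h) ∈ E
          rw [add_sub_cancel_right, add_sub_cancel_right]
          exact he
        · change k + 1 + h ≤ a.2.2 + h
          omega
        · change k + 1 + h ≤ b.2.2 + h
          omega
      · refine ⟨s((x, y, k), (x, y, k + 1)), mem_stretch.2
          (Or.inr (Or.inr ⟨x, y, 0, by omega, h1 ▸ he, by simp⟩))⟩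
  · intro u v huv
    rw [mem_stretch] at huv
    rcases huv with ⟨h1, -, -⟩ | ⟨h2, -, -⟩ | ⟨a, b, i, hi, h2, h3⟩
    · exact hadj _ _ h1
    · have := hadj _ _ h2
      simpa [Adj] using this
    · rw [Sym2.eq_iff] at h3
      rcases h3 with ⟨rfl, rfl⟩ | ⟨rfl, rfl⟩ <;> simp [Adj]
  · intro u hu
    rcases verts_stretch hu with ⟨h1, h2⟩ | ⟨h1, h2⟩ | ⟨h1, h2, h3⟩
    · rw [nbr_low hadj h2]
      exact hE.deg u h1
    · rw [nbr_high hadj h2, ncard_image_of_injective _ (add_left_injective _)]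
      exact hE.deg _ h1
    · rcases h2.lt_or_eq with h4 | h4
      · rcases h3.lt_or_eq with h5 | h5
        · rw [nbr_mid (by omega) (by omega) h1]
          rw [ncard_pair]
          simp only [ne_eq, Prod.mk.injEq, true_and]
          omega
        · rw [nbr_high hadj (by omega), ncard_image_of_injective _ (add_left_injective _)]
          refine hE.deg _ ?_
          have e : u - hv h = (u.1, u.2.1, k + 1) := by
            obtain ⟨x, y, z⟩ := u
            simp only at h5
            simp only [hv, Prod.mk_sub_mk, sub_zero, Prod.mk.injEq, true_and]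
            omega
          rw [e]
          exact ⟨(u.1, u.2.1, k), by rw [Sym2.eq_swap]; exact h1⟩
      · rw [nbr_low hadj h4.ge]
        refine hE.deg _ ?_
        have e : u = (u.1, u.2.1, k) := by
          rw [h4]
        rw [e]
        exact ⟨(u.1, u.2.1, k + 1), h1⟩
  · intro u hu v hv'
    obtain ⟨a, ha, h1⟩ := gmap_vert hu
    obtain ⟨b, hb, h2⟩ := gmap_vert hv'
    refine (rtg_symm h1).trans (Relation.ReflTransGen.trans ?_ h2)
    have h3 := hE.conn a ha b hb
    clear h1 h2 hu hv' hb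
    induction h3 with
    | refl => exact Relation.ReflTransGen.refl
    | tail _ h5 ih => exact ih.trans (gmap_edge hadj h5)

/-! ### The homeomorphism -/

/-- The stretching of the line. -/
noncomputable def psi (k : ℤ) (h : ℕ) (z : ℝ) : ℝ := z + h * max 0 (min 1 (z - k))

theorem psi_low {z : ℝ} (hz : z ≤ k) : psi k h z = z := by
  rw [psi, min_eq_right (by linarith), max_eq_left (by linarith)]
  ring

theorem psi_high {z : ℝ} (hz : (k : ℝ) + 1 ≤ z) : psi k h z = z + h := by
  rw [psi, min_eq_left (by linarith), max_eq_right (by linarith)]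
  ring

theorem psi_mid {z : ℝ} (hz : (k : ℝ) ≤ z) (hz' : z ≤ k + 1) :
    psi k h z = k + (h + 1) * (z - k) := by
  rw [psi, min_eq_right (by linarith), max_eq_right (by linarith)]
  ring

theorem strictMono_psi (k : ℤ) (h : ℕ) : StrictMono (psi k h) := by
  intro a b hab
  have h1 : max 0 (min 1 (a - k)) ≤ max 0 (min 1 (b - k)) :=
    max_le_max le_rfl (min_le_min le_rfl (by linarith))
  have h2 : (h : ℝ) * max 0 (min 1 (a - k)) ≤ h * max 0 (min 1 (b - k)) :=
    mul_le_mul_of_nonneg_left h1 (Nat.cast_nonneg h)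
  unfold psi
  linarith

theorem surjective_psi (k : ℤ) (h : ℕ) : Function.Surjective (psi k h) := by
  intro z
  rcases le_or_gt z k with h1 | h1
  · exact ⟨z, psi_low h1⟩
  · rcases le_or_gt z (k + (h + 1)) with h2 | h2
    · have hpos : (0 : ℝ) < h + 1 := by positivity
      refine ⟨k + (z - k) / (h + 1), ?_⟩
      rw [psi_mid]
      · field_simp
        ring
      · have : 0 ≤ (z - k) / ((h : ℝ) + 1) := div_nonneg (by linarith) hpos.le
        linarith
      · have : (z - k) / ((h : ℝ) + 1) ≤ 1 := by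
          rw [div_le_one hpos]
          linarith
        linarith
    · exact ⟨z - h, by rw [psi_high (by linarith)]; ring⟩

/-- The stretching of space. -/
noncomputable def strH (k : ℤ) (h : ℕ) : R3 ≃ₜ R3 :=
  (Homeomorph.refl ℝ).prodCongr ((Homeomorph.refl ℝ).prodCongr
    (homeoOf (psi k h) (strictMono_psi k h) (surjective_psi k h)))

theorem strH_apply (p : R3) : strH k h p = (p.1, p.2.1, psi k h p.2.2) := rfl

theorem mem_vseg {a b c : ℤ} {x : R3} :
    x ∈ segment ℝ (toR (a, b, c)) (toR (a, b, c + 1)) ↔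
      x.1 = a ∧ x.2.1 = b ∧ (c : ℝ) ≤ x.2.2 ∧ x.2.2 ≤ c + 1 := by
  rw [segment_eq_image']
  constructor
  · rintro ⟨t, ⟨h0, h1⟩, rfl⟩
    simp only [toR]
    push_cast
    simp only [Prod.mk_sub_mk, sub_self, Prod.smul_mk, smul_eq_mul, mul_zero, Prod.mk_add_mk,
      add_zero, true_and]
    constructor <;> linarith
  · rintro ⟨h1, h2, h3, h4⟩
    refine ⟨x.2.2 - c, ⟨by linarith, by linarith⟩, ?_⟩
    obtain ⟨x1, x2, x3⟩ := x
    simp only at h1 h2
    subst h1 h2
    simp only [toR]
    push_cast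
    simp only [Prod.mk_sub_mk, sub_self, Prod.smul_mk, smul_eq_mul, mul_zero, Prod.mk_add_mk,
      add_zero, Prod.mk.injEq, true_and]
    ring

theorem seg_bounds {u v : P3} {x : R3} (hx : x ∈ segment ℝ (toR u) (toR v)) {c : ℝ}
    (hu : (u.2.2 : ℝ) ≤ c) (hv : (v.2.2 : ℝ) ≤ c) : x.2.2 ≤ c := by
  rw [segment_eq_image'] at hx
  obtain ⟨t, ⟨h0, h1⟩, rfl⟩ := hx
  change (u.2.2 : ℝ) + t * ((v.2.2 : ℝ) - u.2.2) ≤ c
  nlinarith

theorem seg_bounds' {u v : P3} {x : R3} (hx : x ∈ segment ℝ (toR u) (toR v)) {c : ℝ}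
    (hu : c ≤ (u.2.2 : ℝ)) (hv : c ≤ (v.2.2 : ℝ)) : c ≤ x.2.2 := by
  rw [segment_eq_image'] at hx
  obtain ⟨t, ⟨h0, h1⟩, rfl⟩ := hx
  change c ≤ (u.2.2 : ℝ) + t * ((v.2.2 : ℝ) - u.2.2)
  nlinarith

theorem toR_add (u v : P3) : toR (u + v) = toR u + toR v := by
  simp [toR]

theorem seg_shift {u v : P3} {x : R3} (hx : x ∈ segment ℝ (toR u) (toR v)) (t : P3) :
    x + toR t ∈ segment ℝ (toR (u + t)) (toR (v + t)) := by
  rw [toR_add, toR_add, add_comm x, add_comm (toR u), add_comm (toR v)]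
  exact mem_segment_translate ℝ (toR t) |>.2 hx

theorem body_stretch (hE : ∀ u v, s(u, v) ∈ E → Adj u v) :
    strH k h '' body E = body (stretch E k h) := by
  have hpos : (0 : ℝ) < h + 1 := by positivity
  ext y
  constructor
  · rintro ⟨x, ⟨u, v, huv, hx⟩, rfl⟩
    rw [strH_apply]
    rcases adj_cases k (hE u v huv) with ⟨h1, h2⟩ | ⟨h1, h2⟩ | ⟨a, b, h1⟩
    · have h3 : x.2.2 ≤ k := seg_bounds hx (by exact_mod_cast h1) (by exact_mod_cast h2)
      rw [psi_low h3]
      exact ⟨u, v, mem_stretch.2 (Or.inl ⟨huv, h1, h2⟩), hx⟩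
    · have h3 : (k : ℝ) + 1 ≤ x.2.2 := seg_bounds' hx (by exact_mod_cast h1) (by exact_mod_cast h2)
      rw [psi_high h3]
      refine ⟨u + hv h, v + hv h, mem_stretch.2 (Or.inr (Or.inl ⟨?_, ?_, ?_⟩)), ?_⟩
      · change s(u + hv h - hv h, v + hv h - hv h) ∈ E
        rw [add_sub_cancel_right, add_sub_cancel_right]
        exact huv
      · change k + 1 + h ≤ u.2.2 + h
        omega
      · change k + 1 + h ≤ v.2.2 + h
        omega
      · have h4 := seg_shift hx (hv h)
        have e : x + toR (hv h) = (x.1, x.2.1, x.2.2 + (h : ℝ)) := by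
          obtain ⟨x1, x2, x3⟩ := x
          simp [toR, hv]
        rw [e] at h4
        exact h4
    · have hx' : x ∈ segment ℝ (toR (a, b, k)) (toR (a, b, k + 1)) := by
        rw [Sym2.eq_iff] at h1
        rcases h1 with ⟨rfl, rfl⟩ | ⟨rfl, rfl⟩
        · exact hx
        · rwa [segment_symm]
      rw [mem_vseg] at hx'
      obtain ⟨h2, h3, h4, h5⟩ := hx'
      rw [psi_mid h4 h5]
      set t := ((h : ℝ) + 1) * (x.2.2 - k) with ht
      have ht0 : 0 ≤ t := mul_nonneg hpos.le (by linarith)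
      have ht1 : t ≤ h + 1 := by nlinarith
      have key : ∃ i : ℕ, i ≤ h ∧ (i : ℝ) ≤ t ∧ t ≤ i + 1 := by
        rcases ht1.lt_or_eq with h6 | h6
        · refine ⟨⌊t⌋₊, ?_, Nat.floor_le ht0, (Nat.lt_floor_add_one t).le⟩
          have : ⌊t⌋₊ < h + 1 := (Nat.floor_lt ht0).2 (by push_cast; exact h6)
          omega
        · exact ⟨h, le_rfl, by linarith, h6.le⟩
      obtain ⟨i, hi, hi1, hi2⟩ := key
      refine ⟨(a, b, k + i), (a, b, k + i + 1), mem_stretch.2
        (Or.inr (Or.inr ⟨a, b, i, hi, h1 ▸ huv, rfl⟩)), ?_⟩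
      rw [mem_vseg]
      refine ⟨h2, h3, ?_, ?_⟩
      · push_cast
        linarith
      · push_cast
        linarith
  · rintro ⟨u, v, huv, hy⟩
    rw [mem_stretch] at huv
    rcases huv with ⟨h1, h2, h3⟩ | ⟨h1, h2, h3⟩ | ⟨a, b, i, hi, h2, h3⟩
    · refine ⟨y, ⟨u, v, h1, hy⟩, ?_⟩
      rw [strH_apply, psi_low (seg_bounds hy (by exact_mod_cast h2) (by exact_mod_cast h3))]
    · have h4 := seg_shift hy (-(hv h))
      rw [← sub_eq_add_neg, ← sub_eq_add_neg] at h4
      have e : y + toR (-(hv h)) = (y.1, y.2.1, y.2.2 - (h : ℝ)) := by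
        obtain ⟨x1, x2, x3⟩ := y
        simp [toR, hv, sub_eq_add_neg]
      rw [e] at h4
      refine ⟨(y.1, y.2.1, y.2.2 - (h : ℝ)), ⟨_, _, h1, h4⟩, ?_⟩
      have h5 : (k : ℝ) + 1 + h ≤ y.2.2 :=
        seg_bounds' hy (by exact_mod_cast h2) (by exact_mod_cast h3)
      rw [strH_apply]
      simp only
      rw [psi_high (by linarith)]
      simp
    · have hy' : y ∈ segment ℝ (toR (a, b, k + i)) (toR (a, b, k + i + 1)) := by
        rw [Sym2.eq_iff] at h3
        rcases h3 with ⟨rfl, rfl⟩ | ⟨rfl, rfl⟩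
        · exact hy
        · rwa [segment_symm]
      rw [mem_vseg] at hy'
      obtain ⟨h4, h5, h6, h7⟩ := hy'
      push_cast at h6 h7
      have hih : (i : ℝ) ≤ h := by exact_mod_cast hi
      have hi0 : (0 : ℝ) ≤ i := Nat.cast_nonneg i
      refine ⟨(a, b, k + (y.2.2 - k) / (h + 1)), ⟨(a, b, k), (a, b, k + 1), h2, ?_⟩, ?_⟩
      · rw [mem_vseg]
        refine ⟨rfl, rfl, ?_, ?_⟩
        · have : 0 ≤ (y.2.2 - k) / ((h : ℝ) + 1) := div_nonneg (by linarith) hpos.le
          change (k : ℝ) ≤ k + (y.2.2 - k) / (h + 1)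
          linarith
        · have : (y.2.2 - k) / ((h : ℝ) + 1) ≤ 1 := by
            rw [div_le_one hpos]
            linarith
          change (k : ℝ) + (y.2.2 - k) / (h + 1) ≤ k + 1
          linarith
      · rw [strH_apply]
        simp only
        rw [psi_mid]
        · obtain ⟨y1, y2, y3⟩ := y
          simp only at h4 h5
          subst h4 h5
          simp only [Prod.mk.injEq, true_and]
          field_simp
          ring
        · have : 0 ≤ (y.2.2 - k) / ((h : ℝ) + 1) := div_nonneg (by linarith) hpos.le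
          linarith
        · have : (y.2.2 - k) / ((h : ℝ) + 1) ≤ 1 := by
            rw [div_le_one hpos]
            linarith
          linarith

/-- (T1) Stretching does not change the type. -/
theorem stretchStatement : StretchStatement := fun _ _ _ hE =>
  ⟨isPolygon_stretch hE, _, body_stretch hE.adj⟩

end Pool.Agent.KTube
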