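import Pool.Agent.KTube.StretchMem
import Pool.Agent.MP_aea6d5_co.KFinal
import Pool.Agent.MP_aea6d5_co.CDefs

/-! Knot types with respect to a group of homeomorphisms: reduction by the reflection of the
tube. -/

set_option autoImplicit false

namespace Pool.Agent.KTube

open Pool.Agent.LK

/-- The reflection `(x, y, z) ↦ (x, -y, z)` of space. -/
def negY : R3 ≃ₜ R3 where
  toFun p := (p.1, -p.2.1, p.2.2)
  invFun p := (p.1, -p.2.1, p.2.2)
  left_inv p := by simp
  right_inv p := by simp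
  continuous_toFun := by fun_prop
  continuous_invFun := by fun_prop

/-- The reflection of the tube, as a map of the lattice. -/
def flipY (M : ℕ) (u : P3) : P3 := (u.1, M - u.2.1, u.2.2)

/-- The reflection of the tube. -/
noncomputable def flipYR (M : ℕ) : R3 ≃ₜ R3 := Homeomorph.addRight ((0, (M : ℝ), 0) : R3) * negY

theorem flipYR_apply (M : ℕ) (p : R3) : flipYR M p = (p.1, M - p.2.1, p.2.2) := by
  change (p.1, -p.2.1, p.2.2) + ((0, (M : ℝ), 0) : R3) = _
  refine Prod.ext ?_ (Prod.ext ?_ ?_)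
  · simp
  · simp only [Prod.snd_add, Prod.fst_add]; ring
  · simp

theorem frame_negY : Frame (1, 0, 0) (0, -1, 0) (0, 0, 1) :=
  ⟨by simp [dot3], by simp [dot3], by simp [dot3], by simp [dot3], by simp [dot3], by simp [dot3]⟩

theorem flipY_eq (M : ℕ) : flipY M = latIso (0, (M : ℤ), 0) (1, 0, 0) (0, -1, 0) (0, 0, 1) := by
  funext u
  refine Prod.ext ?_ (Prod.ext ?_ ?_) <;> simp [latIso, flipY, sub_eq_add_neg]

theorem body_flipY (M : ℕ) (E : Finset (Sym2 P3)) :
    body (mapE (flipY M) E) = flipYR M '' body E := by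
  obtain ⟨G, hf, hG, hseg⟩ := exists_latHomeo frame_negY (0, (M : ℤ), 0)
  have hGe : G = flipYR M := by
    ext1 p
    rw [hf, flipYR_apply]
    refine Prod.ext ?_ (Prod.ext ?_ ?_) <;> simp [toR, sub_eq_add_neg]
  rw [flipY_eq, ← hGe]
  exact body_mapE G _ hG hseg E

theorem isPolygon_flipY (M : ℕ) {E : Finset (Sym2 P3)} (hE : IsPolygon E) :
    IsPolygon (mapE (flipY M) E) := by
  rw [flipY_eq]
  exact isPolygon_latIso frame_negY _ hE

theorem flipY_flipY (M : ℕ) (u : P3) : flipY M (flipY M u) = u := by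
  refine Prod.ext rfl (Prod.ext ?_ rfl)
  simp [flipY]

theorem flipY_inj (M : ℕ) : Function.Injective (flipY M) := fun u v h => by
  have := congrArg (flipY M) h
  rwa [flipY_flipY, flipY_flipY] at this

theorem mem_flipY {M : ℕ} {E : Finset (Sym2 P3)} {u v : P3} :
    s(u, v) ∈ mapE (flipY M) E ↔ s(flipY M u, flipY M v) ∈ E := by
  have := mem_mapE (flipY_inj M) (E := E) (u := flipY M u) (v := flipY M v)
  rwa [flipY_flipY, flipY_flipY] at this

theorem mapE_flipY_flipY (M : ℕ) (E : Finset (Sym2 P3)) :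
    mapE (flipY M) (mapE (flipY M) E) = E := by
  apply edge_ext
  intro u v
  rw [mem_flipY, mem_flipY, flipY_flipY, flipY_flipY]

theorem negY_mul_self : negY * negY = 1 := by
  ext1 p
  change ((p.1, - -p.2.1, p.2.2) : R3) = p
  simp

theorem negY_inv : negY⁻¹ = negY := inv_eq_of_mul_eq_one_left negY_mul_self

section Group

variable {G : Subgroup (R3 ≃ₜ R3)}

theorem mul_negY_iff (hG : ∀ φ : R3 ≃ₜ R3, φ ∈ G ∨ φ * negY ∈ G) (hn : negY ∉ G) (φ : R3 ≃ₜ R3) :
    φ * negY ∈ G ↔ φ ∉ G := by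
  constructor
  · intro h1 h2
    apply hn
    have := G.mul_mem (G.inv_mem h2) h1
    rwa [inv_mul_cancel_left] at this
  · intro h1
    exact (hG φ).resolve_left h1

theorem negY_mul_iff (hG : ∀ φ : R3 ≃ₜ R3, φ ∈ G ∨ φ * negY ∈ G) (hn : negY ∉ G) (φ : R3 ≃ₜ R3) :
    negY * φ ∈ G ↔ φ ∉ G := by
  have h1 := mul_negY_iff hG hn φ⁻¹
  have h2 : (negY * φ)⁻¹ = φ⁻¹ * negY := by rw [mul_inv_rev, negY_inv]
  rw [← h2, G.inv_mem_iff, G.inv_mem_iff] at h1
  exact h1

theorem flipYR_mul_iff (hT : ∀ t : R3, Homeomorph.addRight t ∈ G)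
    (hG : ∀ φ : R3 ≃ₜ R3, φ ∈ G ∨ φ * negY ∈ G) (hn : negY ∉ G) (M : ℕ) (φ : R3 ≃ₜ R3) :
    flipYR M * φ ∈ G ↔ φ ∉ G := by
  rw [← negY_mul_iff hG hn φ]
  unfold flipYR
  rw [mul_assoc]
  exact G.mul_mem_cancel_left (hT _)

theorem mul_mem_of_notMem (hG : ∀ φ : R3 ≃ₜ R3, φ ∈ G ∨ φ * negY ∈ G) (hn : negY ∉ G)
    {φ ψ : R3 ≃ₜ R3} (h1 : φ ∉ G) (h2 : ψ ∉ G) : φ * ψ ∈ G := by
  have h3 := (mul_negY_iff hG hn φ).2 h1
  have h4 := (negY_mul_iff hG hn ψ).2 h2
  have h5 := G.mul_mem h3 h4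
  have h6 : φ * negY * (negY * ψ) = φ * ψ := by
    rw [mul_assoc, ← mul_assoc negY negY, negY_mul_self, one_mul]
  rwa [h6] at h5

theorem image_mul (φ ψ : R3 ≃ₜ R3) (X : Set R3) : (φ * ψ : R3 ≃ₜ R3) '' X = φ '' (ψ '' X) := by
  change (φ ∘ ψ) '' X = _
  rw [Set.image_comp]

/-- The polygons of the type of `K` up to mirror images, and the polygons of the type of `K`. -/
theorem class_dichotomy (hT : ∀ t : R3, Homeomorph.addRight t ∈ G)
    (hG : ∀ φ : R3 ≃ₜ R3, φ ∈ G ∨ φ * negY ∈ G) (K : Finset (Sym2 P3)) :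
    (∀ E, KClass K E ↔ GClass G K E) ∨
    ∀ M : ℕ, (∀ E, KClass K E ↔ GClass G K E ∨ GClass G K (mapE (flipY M) E)) ∧
      ∀ E, ¬ (GClass G K E ∧ GClass G K (mapE (flipY M) E)) := by
  by_cases hn : negY ∈ G
  · left
    have hall : ∀ φ : R3 ≃ₜ R3, φ ∈ G := by
      intro φ
      rcases hG φ with h | h
      · exact h
      · exact (G.mul_mem_cancel_right hn).1 h
    intro E
    constructor
    · rintro ⟨h1, φ, h2⟩
      exact ⟨h1, φ, hall φ, h2⟩
    · rintro ⟨h1, φ, -, h2⟩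
      exact ⟨h1, φ, h2⟩
  · by_cases hκ : ∃ κ : R3 ≃ₜ R3, κ ∉ G ∧ κ '' body K = body K
    · left
      obtain ⟨κ, hκ1, hκ2⟩ := hκ
      intro E
      constructor
      · rintro ⟨h1, φ, h2⟩
        by_cases h3 : φ ∈ G
        · exact ⟨h1, φ, h3, h2⟩
        · exact ⟨h1, φ * κ, mul_mem_of_notMem hG hn h3 hκ1, by rw [image_mul, hκ2, h2]⟩
      · rintro ⟨h1, φ, -, h2⟩
        exact ⟨h1, φ, h2⟩
    · right
      intro M
      have hself : flipYR M * flipYR M = 1 := by
        ext1 p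
        change flipYR M (flipYR M p) = p
        rw [flipYR_apply, flipYR_apply]
        simp
      refine ⟨?_, ?_⟩
      · intro E
        constructor
        · rintro ⟨h1, φ, h2⟩
          by_cases h3 : φ ∈ G
          · exact Or.inl ⟨h1, φ, h3, h2⟩
          · refine Or.inr ⟨isPolygon_flipY M h1, flipYR M * φ,
              (flipYR_mul_iff hT hG hn M φ).2 h3, ?_⟩
            rw [image_mul, h2, body_flipY]
        · rintro (⟨h1, φ, -, h2⟩ | ⟨h1, φ, -, h2⟩)
          · exact ⟨h1, φ, h2⟩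
          · have h3 := isPolygon_flipY M h1
            rw [mapE_flipY_flipY] at h3
            refine ⟨h3, flipYR M * φ, ?_⟩
            rw [image_mul, h2, body_flipY, ← image_mul, hself]
            exact Set.image_id _
      · rintro E ⟨⟨-, g, hg, h1⟩, -, g', hg', h2⟩
        apply hκ
        refine ⟨g⁻¹ * (flipYR M * g'), ?_, ?_⟩
        · intro h3
          have h4 := (G.mul_mem_cancel_left (G.inv_mem hg)).1 h3
          exact (flipYR_mul_iff hT hG hn M g').1 h4 hg'
        · have h5 : flipYR M '' (flipYR M '' body E) = body E := by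
            rw [← image_mul, hself]
            exact Set.image_id _
          rw [image_mul, image_mul, h2, body_flipY, h5, ← h1, ← image_mul, inv_mul_cancel]
          exact Set.image_id _

end Group

/-! ### Partition functions -/

theorem tubeSet_finite (L M : ℕ) (C : Finset (Sym2 P3) → Prop) (n : ℕ) :
    (TubeSet L M C n).Finite := by
  classical
  set B : Finset P3 := Finset.Icc (0 : ℤ) L ×ˢ (Finset.Icc (0 : ℤ) M ×ˢ Finset.Icc (0 : ℤ) n)
    with hB
  refine Set.Finite.subset (Finset.finite_toSet ((B.sym2).powerset)) ?_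
  rintro E ⟨hE, -, hT, hG, hn⟩
  rw [Finset.mem_coe, Finset.mem_powerset]
  intro e he
  rw [Finset.mem_sym2_iff]
  intro u hu
  have huE : u ∈ verts E := by
    induction e using Sym2.ind with
    | _ x y =>
      rw [Sym2.mem_iff] at hu
      rcases hu with rfl | rfl
      · exact left_mem_verts he
      · exact right_mem_verts he
  obtain ⟨w, hw, hw0⟩ := hG.2
  have h1 := (diam_le hE huE hw).2.2
  have h2 := hT u huE
  have h3 := hG.1 u huE
  simp only [Prod.snd_sub, hw0, sub_zero] at h1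
  rw [hn] at h1
  have h4 := le_abs_self u.2.2
  rw [hB]
  simp only [Finset.mem_product, Finset.mem_Icc]
  exact ⟨⟨h2.1, h2.2.1⟩, ⟨h2.2.2.1, h2.2.2.2⟩, h3, by omega⟩

theorem cross_flipY {M : ℕ} {E : Finset (Sym2 P3)} {k : ℤ} {c : ℤ × ℤ} :
    c ∈ cross (mapE (flipY M) E) k ↔ (c.1, (M : ℤ) - c.2) ∈ cross E k := by
  rw [mem_cross, mem_cross, mem_flipY]
  rfl

theorem span_flipY (M : ℕ) (E : Finset (Sym2 P3)) : span (mapE (flipY M) E) = span E := by
  unfold span
  congr 1
  ext k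
  constructor
  · rintro ⟨c, hc⟩
    exact ⟨_, cross_flipY.1 hc⟩
  · rintro ⟨⟨a, b⟩, hc⟩
    refine ⟨(a, M - b), cross_flipY.2 ?_⟩
    simpa using hc

theorem tubeSet_flipY {L M n : ℕ} {C : Finset (Sym2 P3) → Prop} {E : Finset (Sym2 P3)}
    (hE : E ∈ TubeSet L M C n) : mapE (flipY M) E ∈ TubeSet L M (fun F => C (mapE (flipY M) F)) n := by
  obtain ⟨h1, h2, h3, h4, h5⟩ := hE
  refine ⟨isPolygon_flipY M h1, ?_, ?_, ⟨?_, ?_⟩, ?_⟩
  · change C (mapE (flipY M) (mapE (flipY M) E))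
    rw [mapE_flipY_flipY]; exact h2
  · rintro u ⟨v, hv⟩
    rw [mem_flipY] at hv
    have := h3 (flipY M u) (left_mem_verts hv)
    simp only [flipY] at this
    omega
  · rintro u ⟨v, hv⟩
    rw [mem_flipY] at hv
    exact h4.1 (flipY M u) (left_mem_verts hv)
  · obtain ⟨u, ⟨v, hv⟩, hu⟩ := h4.2
    refine ⟨flipY M u, ⟨flipY M v, ?_⟩, hu⟩
    rw [mem_flipY, flipY_flipY, flipY_flipY]
    exact hv
  · rw [← h5]
    exact Finset.card_image_of_injective _ (Sym2.map.injective (flipY_inj M))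

theorem Z_flipY (L M : ℕ) (y : ℝ) (C : Finset (Sym2 P3) → Prop) (n : ℕ) :
    Z L M y (fun F => C (mapE (flipY M) F)) n = Z L M y C n := by
  unfold Z
  have himg : TubeSet L M (fun F => C (mapE (flipY M) F)) n =
      mapE (flipY M) '' TubeSet L M C n := by
    ext E
    constructor
    · intro hE
      refine ⟨mapE (flipY M) E, ?_, mapE_flipY_flipY M E⟩
      have := tubeSet_flipY hE
      simpa [mapE_flipY_flipY] using this
    · rintro ⟨F, hF, rfl⟩
      exact tubeSet_flipY hF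
  have hinj : Set.InjOn (mapE (flipY M)) (TubeSet L M C n) := by
    intro E _ F _ h
    have := congrArg (mapE (flipY M)) h
    rwa [mapE_flipY_flipY, mapE_flipY_flipY] at this
  rw [himg, finsum_mem_image hinj]
  exact finsum_mem_congr rfl fun E _ => by rw [span_flipY]

/-- The partition function of the `G`-type of `K` is the one of the type of `K` up to mirror
images, or one half of it. -/
theorem Z_gclass {G : Subgroup (R3 ≃ₜ R3)} (hT : ∀ t : R3, Homeomorph.addRight t ∈ G)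
    (hG : ∀ φ : R3 ≃ₜ R3, φ ∈ G ∨ φ * negY ∈ G) (K : Finset (Sym2 P3)) :
    (∀ L M y n, Z L M y (GClass G K) n = Z L M y (KClass K) n) ∨
    ∀ L M y n, 2 * Z L M y (GClass G K) n = Z L M y (KClass K) n := by
  rcases class_dichotomy hT hG K with h | h
  · left
    intro L M y n
    have : KClass K = GClass G K := funext fun E => propext (h E)
    rw [this]
  · right
    intro L M y n
    obtain ⟨h1, h2⟩ := h M
    have e1 : TubeSet L M (KClass K) n = TubeSet L M (GClass G K) n ∪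
        TubeSet L M (fun F => GClass G K (mapE (flipY M) F)) n := by
      ext E
      constructor
      · rintro ⟨p1, p2, p3⟩
        rcases (h1 E).1 p2 with p4 | p4
        · exact Or.inl ⟨p1, p4, p3⟩
        · exact Or.inr ⟨p1, p4, p3⟩
      · rintro (⟨p1, p2, p3⟩ | ⟨p1, p2, p3⟩)
        · exact ⟨p1, (h1 E).2 (Or.inl p2), p3⟩
        · exact ⟨p1, (h1 E).2 (Or.inr p2), p3⟩
    have e2 : Disjoint (TubeSet L M (GClass G K) n)
        (TubeSet L M (fun F => GClass G K (mapE (flipY M) F)) n) := by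
      rw [Set.disjoint_left]
      rintro E ⟨-, p2, -⟩ ⟨-, q2, -⟩
      exact h2 E ⟨p2, q2⟩
    have e3 := Z_flipY L M y (GClass G K) n
    unfold Z at e3 ⊢
    rw [e1, finsum_mem_union e2 (tubeSet_finite _ _ _ _) (tubeSet_finite _ _ _ _), e3]
    ring

end Pool.Agent.KTube
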