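import Pool.Agent.KTube.Glue
import Pool.Agent.MP_aea6d5_co.SumInv
import Pool.Agent.MP_aea6d5_co.KMoves
import Pool.Agent.MP_aea6d5_co.KPair
import Pool.Agent.MP_aea6d5_co.JoinDone

/-! Types of compositions. -/

set_option autoImplicit false

namespace Pool.Agent.KTube

open Pool.Agent.LK

variable {E F A B : Finset (Sym2 P3)} {k : ℤ}

theorem mem_joinZ'' {x y h : ℤ} {e : Sym2 P3} :
    e ∈ joinZ E F x y h ↔ (e ∈ E ∧ e ≠ s((x, y, h), (x + 1, y, h))) ∨
      (e ∈ F ∧ e ≠ s((x, y, h + 1), (x + 1, y, h + 1))) ∨ e = s((x, y, h), (x, y, h + 1)) ∨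
      e = s((x + 1, y, h), (x + 1, y, h + 1)) := by
  unfold joinZ
  simp only [Finset.mem_union, Finset.mem_sdiff, Finset.mem_singleton, Finset.mem_insert]
  tauto

theorem neg_edge_iff {u v p q : P3} : s(-u, -v) = s(p, q) ↔ s(u, v) = s(-p, -q) := by
  rw [Sym2.eq_iff, Sym2.eq_iff, neg_eq_iff_eq_neg, neg_eq_iff_eq_neg, neg_eq_iff_eq_neg,
    neg_eq_iff_eq_neg]

theorem negE_joinZ (E F : Finset (Sym2 P3)) (x y h : ℤ) :
    negE (joinZ E F x y h) = joinZ (negE F) (negE E) (-(x + 1)) (-y) (-(h + 1)) := by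
  refine edge_ext fun u v => ?_
  have e1 : -(x + 1) + 1 = -x := by ring
  have e2 : -(h + 1) + 1 = -h := by ring
  rw [mem_negE, mem_joinZ'', mem_joinZ'', mem_negE, mem_negE, e1, e2]
  simp only [ne_eq, neg_edge_iff, Prod.neg_mk]
  have w1 : s(((-x, -y, -h) : P3), (-(x + 1), -y, -h)) = s((-(x + 1), -y, -h), (-x, -y, -h)) :=
    Sym2.eq_swap
  have w2 : s(((-x, -y, -(h + 1)) : P3), (-(x + 1), -y, -(h + 1))) =
      s((-(x + 1), -y, -(h + 1)), (-x, -y, -(h + 1))) := Sym2.eq_swap
  have w3 : s(((-x, -y, -h) : P3), (-x, -y, -(h + 1))) = s((-x, -y, -(h + 1)), (-x, -y, -h)) :=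
    Sym2.eq_swap
  have w4 : s(((-(x + 1), -y, -h) : P3), (-(x + 1), -y, -(h + 1))) =
      s((-(x + 1), -y, -(h + 1)), (-(x + 1), -y, -h)) := Sym2.eq_swap
  rw [w1, w2, w3, w4]
  tauto

theorem below_negE (h : Below E F) : Below (negE F) (negE E) := by
  intro u hu v hv h1 h2
  rw [mem_verts_negE] at hu hv
  have := h (-v) hv (-u) hu (by simp [h1]) (by simp [h2])
  simpa using this

theorem neg_edges {x y h : ℤ} (he : s((x, y, h), (x + 1, y, h)) ∈ E) :
    s((-(x + 1), -y, -h), (-(x + 1) + 1, -y, -h)) ∈ negE E := by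
  have e1 : -(x + 1) + 1 = -x := by ring
  rw [mem_negE, e1, Sym2.eq_swap]
  simpa using he

/-- Joining an unknotted polygon on top does not change the type. -/
theorem b1_upper {x y h : ℤ} (hE : IsPolygon E) (hF : IsPolygon F) (hU : Unknotted F)
    (hB : Below E F) (he : s((x, y, h), (x + 1, y, h)) ∈ E)
    (hf : s((x, y, h + 1), (x + 1, y, h + 1)) ∈ F) : SameType E (joinZ E F x y h) := by
  have h1 := b1Statement (negE F) (negE E) (-(x + 1)) (-y) (-(h + 1)) (isPolygon_negE hF)
    ((moveFacts.neg F).symm.unknotted hU) (isPolygon_negE hE) (below_negE hB)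
    (neg_edges hf) (by
      have e2 : -(h + 1) + 1 = -h := by ring
      rw [e2]
      exact neg_edges he)
  rw [← negE_joinZ] at h1
  exact ((moveFacts.neg E).trans h1).trans (moveFacts.neg _).symm

/-- If a join is unknotted then so is the lower part. -/
theorem nc_lower {x y h : ℤ} (hE : IsPolygon E) (hF : IsPolygon F)
    (hB : Below E F) (he : s((x, y, h), (x + 1, y, h)) ∈ E)
    (hf : s((x, y, h + 1), (x + 1, y, h + 1)) ∈ F) (hU : Unknotted (joinZ E F x y h)) :
    Unknotted E := by
  have h1 := ncStatement (negE F) (negE E) (-(x + 1)) (-y) (-(h + 1)) (isPolygon_negE hF)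
    (isPolygon_negE hE) (below_negE hB) (neg_edges hf) (by
      have e2 : -(h + 1) + 1 = -h := by ring
      rw [e2]
      exact neg_edges he) (by
      rw [← negE_joinZ]
      exact (moveFacts.neg _).symm.unknotted hU)
  exact (moveFacts.neg E).unknotted h1

/-- The join of the two parts is the stretched composition. -/
theorem joinZ_eq_stretch (hA : IsLow A k) (hB : IsUpp B k) :
    joinZ A (shift (0, 0, 2) B) 0 0 (k + 1) = stretch (glue A B k) k 2 := by
  refine edge_ext fun u v => ?_
  rw [mem_joinZ'', mem_stretch, mem_shift]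
  have l0 := hA.2.1.leg0_mem
  have l1 := hA.2.1.leg1_mem
  have m0 := hB.2.1.leg0_mem
  have m1 := hB.2.1.leg1_mem
  have hub : ∀ {u v : P3}, s(u, v) ∈ B → k ≤ u.2.2 := fun h => hB.2.2.2 _ ⟨_, h⟩
  have hua : ∀ {u v : P3}, s(u, v) ∈ A → u.2.2 ≤ k + 1 := fun h => hA.2.2.2 _ ⟨_, h⟩
  have cg : ∀ a b : ℤ, s((a, b, k), (a, b, k + 1)) ∈ glue A B k ↔
      (a = 0 ∧ b = 0) ∨ (a = 1 ∧ b = 0) := isV0_iff.1 (isV0_glue hA hB)
  constructor
  · rintro (⟨h1, h2⟩ | ⟨h1, h2⟩ | h1 | h1)
    · rcases hA.cases h1 with h3 | h3 | h3 | h3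
      · exact Or.inl ⟨(mem_glue_low hA hB h3.1).2 h1, h3⟩
      · exact Or.inr (Or.inr ⟨0, 0, 0, by norm_num, (cg 0 0).2 (by simp), by
          rw [h3]; simp [leg0]⟩)
      · exact Or.inr (Or.inr ⟨1, 0, 0, by norm_num, (cg 1 0).2 (by simp), by
          rw [h3]; simp [leg1]⟩)
      · exact absurd h3 (by simpa [cap] using h2)
    · rcases hB.cases h1 with h3 | h3 | h3 | h3
      · refine Or.inr (Or.inl ⟨?_, ?_, ?_⟩)
        · exact (mem_glue_upp hA hB h3.1).2 h1
        · have := h3.1
          simp only [Prod.snd_sub] at this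
          push_cast
          omega
        · have := h3.2
          simp only [Prod.snd_sub] at this
          push_cast
          omega
      · refine Or.inr (Or.inr ⟨0, 0, 2, le_rfl, (cg 0 0).2 (by simp), ?_⟩)
        rcases leg0_levels h3 with ⟨h4, h5⟩ | ⟨h4, h5⟩
        · rw [sub_eq_iff_eq_add] at h4 h5
          rw [h4, h5]
          congr 1
          simp
          ring
        · rw [sub_eq_iff_eq_add] at h4 h5
          rw [h4, h5, Sym2.eq_swap]
          congr 1
          simp
          ring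
      · refine Or.inr (Or.inr ⟨1, 0, 2, le_rfl, (cg 1 0).2 (by simp), ?_⟩)
        rcases leg1_levels h3 with ⟨h4, h5⟩ | ⟨h4, h5⟩
        · rw [sub_eq_iff_eq_add] at h4 h5
          rw [h4, h5]
          congr 1
          simp
          ring
        · rw [sub_eq_iff_eq_add] at h4 h5
          rw [h4, h5, Sym2.eq_swap]
          congr 1
          simp
          ring
      · exfalso
        apply h2
        rcases cap_levels h3 with ⟨h4, h5⟩ | ⟨h4, h5⟩
        · rw [sub_eq_iff_eq_add] at h4 h5
          rw [h4, h5]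
          simp
          ring
        · rw [sub_eq_iff_eq_add] at h4 h5
          rw [h4, h5, Sym2.eq_swap]
          simp
          ring
    · refine Or.inr (Or.inr ⟨0, 0, 1, by norm_num, (cg 0 0).2 (by simp), ?_⟩)
      rw [h1]
      simp
    · refine Or.inr (Or.inr ⟨1, 0, 1, by norm_num, (cg 1 0).2 (by simp), ?_⟩)
      rw [h1]
      simp
  · rintro (⟨h1, h2, h3⟩ | ⟨h1, h2, h3⟩ | ⟨a, b, i, hi, h1, h2⟩)
    · have h4 := (mem_glue_low hA hB h2).1 h1
      refine Or.inl ⟨h4, fun h => ?_⟩
      rw [Sym2.eq_iff] at h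
      rcases h with ⟨rfl, -⟩ | ⟨rfl, -⟩ <;> simp only at h2 <;> omega
    · have h5 : k + 1 ≤ (u - (0, 0, ((2 : ℕ) : ℤ))).2.2 := by
        simp only [Prod.snd_sub]
        push_cast at h2 ⊢
        omega
      have h4 := (mem_glue_upp hA hB h5).1 h1
      refine Or.inr (Or.inl ⟨h4, fun h => ?_⟩)
      rw [Sym2.eq_iff] at h
      push_cast at h2
      rcases h with ⟨rfl, -⟩ | ⟨rfl, -⟩ <;> simp only at h2 <;> omega
    · rw [cg] at h1
      have hi' : i = 0 ∨ i = 1 ∨ i = 2 := by omega
      rcases h1 with ⟨rfl, rfl⟩ | ⟨rfl, rfl⟩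
      · rcases hi' with rfl | rfl | rfl
        · refine Or.inl ?_
          rw [h2]
          refine ⟨by simpa [leg0] using l0, ?_⟩
          simp
        · refine Or.inr (Or.inr (Or.inl ?_))
          rw [h2]
          simp
        · refine Or.inr (Or.inl ?_)
          rw [← mem_shift, h2]
          refine ⟨?_, ?_⟩
          · rw [mem_shift]
            convert m0 using 1
            unfold leg0
            simp
            ring
          · simp
      · rcases hi' with rfl | rfl | rfl
        · refine Or.inl ?_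
          rw [h2]
          refine ⟨by simpa [leg1] using l1, ?_⟩
          simp
        · refine Or.inr (Or.inr (Or.inr ?_))
          rw [h2]
          simp
        · refine Or.inr (Or.inl ?_)
          rw [← mem_shift, h2]
          refine ⟨?_, ?_⟩
          · rw [mem_shift]
            convert m1 using 1
            unfold leg1
            simp
            ring
          · simp

/-- The join of the two parts satisfies the hypotheses of the join theorems. -/
theorem join_data (hA : IsLow A k) (hB : IsUpp B k) :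
    Below A (shift (0, 0, 2) B) ∧ s((0, 0, k + 1), (0 + 1, 0, k + 1)) ∈ A ∧
      s((0, 0, k + 1 + 1), (0 + 1, 0, k + 1 + 1)) ∈ shift (0, 0, 2) B := by
  refine ⟨?_, hA.2.2.1, ?_⟩
  · intro u hu v hv _ _
    have h1 := hA.2.2.2 u hu
    rw [mem_verts_shift] at hv
    have h2 := hB.2.2.2 _ hv
    simp only [Prod.snd_sub] at h2
    omega
  · rw [mem_shift]
    have h1 := hB.2.2.1
    unfold cap at h1
    convert h1 using 1
    simp
    ring

/-- The type of a composition is the type of the join. -/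
theorem sameType_glue_join (hT1 : StretchStatement) (hA : IsLow A k) (hB : IsUpp B k) :
    SameType (glue A B k) (joinZ A (shift (0, 0, 2) B) 0 0 (k + 1)) := by
  rw [joinZ_eq_stretch hA hB]
  exact (hT1 _ k 2 (isPolygon_glue hA hB)).2

/-- (T4) -/
theorem typeStatement (hT1 : StretchStatement) : TypeStatement := by
  intro A B k hA hB
  obtain ⟨hBel, he, hf⟩ := join_data hA hB
  have hS := sameType_glue_join hT1 hA hB
  have hPB : IsPolygon (shift (0, 0, 2) B) := isPolygon_shift hB.1 _
  have hTB : SameType B (shift (0, 0, 2) B) := moveFacts.trans _ B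
  have b1 : Unknotted A → SameType B (glue A B k) := fun hU =>
    (hTB.trans (b1Statement A _ 0 0 (k + 1) hA.1 hU hPB hBel he hf)).trans hS.symm
  have b2 : Unknotted B → SameType A (glue A B k) := fun hU =>
    (b1_upper hA.1 hPB (hTB.symm.unknotted hU) hBel he hf).trans hS.symm
  refine ⟨⟨fun hU => ?_, fun ⟨hU, hU'⟩ => ?_⟩, b1, b2, ?_⟩
  · have hJ := hS.symm.unknotted hU
    exact ⟨nc_lower hA.1 hPB hBel he hf hJ,
      hTB.unknotted (ncStatement A _ 0 0 (k + 1) hA.1 hPB hBel he hf hJ)⟩
  · exact (b1 hU).symm.unknotted hU'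
  · intro K hK hKG
    rcases hK.2.2 A _ 0 0 (k + 1) hA.1 hPB hBel he hf (hKG.trans hS) with h | h
    · exact Or.inl ⟨h, hKG.trans (b1 h).symm⟩
    · have h' := hTB.unknotted h
      exact Or.inr ⟨h', hKG.trans (b2 h').symm⟩

end Pool.Agent.KTube
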