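import Pool.Agent.KTube.Stretch
import Mathlib.Topology.Maps.Proper.Basic
import Mathlib.Topology.Maps.Proper.CompactlyGenerated

/-! Homeomorphisms of space that change one coordinate, monotonically. -/

set_option autoImplicit false

open Set Topology

namespace Pool.Agent.KTube

open Pool.Agent.LK

/-- A continuous bijection of space with bounded displacement is a homeomorphism. -/
theorem exists_homeo_of_disp (F : R3 → R3) (hc : Continuous F) (hb : Function.Bijective F) (C : ℝ)
    (hC : ∀ x, ‖F x - x‖ ≤ C) : ∃ φ : R3 ≃ₜ R3, ∀ x, φ x = F x := by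
  have hp : IsProperMap F := by
    rw [isProperMap_iff_isCompact_preimage]
    refine ⟨hc, fun {K} hK => ?_⟩
    refine Metric.isCompact_of_isClosed_isBounded (hK.isClosed.preimage hc) ?_
    obtain ⟨R, hR⟩ := hK.isBounded.exists_norm_le
    rw [isBounded_iff_forall_norm_le]
    refine ⟨R + C, fun x hx => ?_⟩
    have h1 := hR (F x) hx
    have h2 := hC x
    have h3 : ‖x‖ ≤ ‖F x‖ + ‖F x - x‖ := by
      have h4 := norm_sub_norm_le x (F x)
      rw [norm_sub_rev] at h4
      linarith
    linarith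
  let e := Equiv.ofBijective F hb
  refine ⟨e.toHomeomorphOfContinuousClosed hc hp.isClosedMap, fun x => rfl⟩

/-- Changing the first coordinate. -/
theorem exists_elemX (g : ℝ × ℝ → ℝ) (hg : Continuous g) (T : ℝ → ℝ) (hT : Continuous T)
    (hm : ∀ q, StrictMono fun x => x + g q * T x) (C : ℝ) (hC : ∀ q x, |g q * T x| ≤ C) :
    ∃ φ : R3 ≃ₜ R3, ∀ p, φ p = (p.1 + g p.2 * T p.1, p.2) := by
  have hC0 : 0 ≤ C := (abs_nonneg _).trans (hC (0, 0) 0)
  refine exists_homeo_of_disp (fun p => (p.1 + g p.2 * T p.1, p.2)) (by fun_prop) ⟨?_, ?_⟩ C ?_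
  · rintro ⟨x, q⟩ ⟨x', q'⟩ h
    simp only [Prod.mk.injEq] at h
    obtain ⟨h1, rfl⟩ := h
    have := (hm q).injective h1
    rw [this]
  · rintro ⟨y, q⟩
    have hcont : Continuous fun x => x + g q * T x := by fun_prop
    have h1 : Filter.Tendsto (fun x => x + g q * T x) Filter.atTop Filter.atTop :=
      Filter.tendsto_atTop_mono (fun x => by
        have := (abs_le.1 (hC q x)).1
        show x - C ≤ x + g q * T x
        linarith) (Filter.tendsto_atTop_add_const_right _ (-C) Filter.tendsto_id)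
    have h2 : Filter.Tendsto (fun x => x + g q * T x) Filter.atBot Filter.atBot :=
      Filter.tendsto_atBot_mono (fun x => by
        have := (abs_le.1 (hC q x)).2
        show x + g q * T x ≤ x + C
        linarith) (Filter.tendsto_atBot_add_const_right _ C Filter.tendsto_id)
    obtain ⟨x, hx⟩ := hcont.surjective h1 h2 y
    exact ⟨(x, q), Prod.ext hx rfl⟩
  · rintro ⟨x, q⟩
    have h1 : ((x + g q * T x, q) : R3) - (x, q) = (g q * T x, 0) := by
      simp
    simp only
    rw [h1, Prod.norm_def]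
    simp only [norm_zero]
    exact max_le (by rw [Real.norm_eq_abs]; exact hC q x) hC0

/-- Cyclic permutation of the coordinates. -/
def cyc3 : R3 ≃ₜ R3 where
  toFun p := (p.2.1, p.2.2, p.1)
  invFun p := (p.2.2, p.1, p.2.1)
  left_inv _ := rfl
  right_inv _ := rfl
  continuous_toFun := by fun_prop
  continuous_invFun := by fun_prop

theorem cyc3_apply (p : R3) : cyc3 p = (p.2.1, p.2.2, p.1) := rfl

theorem cyc3_symm_apply (p : R3) : cyc3.symm p = (p.2.2, p.1, p.2.1) := rfl

/-- Changing the second coordinate. -/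
theorem exists_elemY (g : ℝ × ℝ → ℝ) (hg : Continuous g) (T : ℝ → ℝ) (hT : Continuous T)
    (hm : ∀ q, StrictMono fun x => x + g q * T x) (C : ℝ) (hC : ∀ q x, |g q * T x| ≤ C) :
    ∃ φ : R3 ≃ₜ R3, ∀ p, φ p = (p.1, p.2.1 + g (p.2.2, p.1) * T p.2.1, p.2.2) := by
  obtain ⟨φ, hφ⟩ := exists_elemX g hg T hT hm C hC
  refine ⟨(cyc3.trans φ).trans cyc3.symm, fun p => ?_⟩
  change cyc3.symm (φ (cyc3 p)) = _
  rw [hφ]
  rfl

/-- Changing the third coordinate. -/
theorem exists_elemZ (g : ℝ × ℝ → ℝ) (hg : Continuous g) (T : ℝ → ℝ) (hT : Continuous T)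
    (hm : ∀ q, StrictMono fun x => x + g q * T x) (C : ℝ) (hC : ∀ q x, |g q * T x| ≤ C) :
    ∃ φ : R3 ≃ₜ R3, ∀ p, φ p = (p.1, p.2.1, p.2.2 + g (p.1, p.2.1) * T p.2.2) := by
  obtain ⟨φ, hφ⟩ := exists_elemX g hg T hT hm C hC
  refine ⟨(cyc3.symm.trans φ).trans cyc3, fun p => ?_⟩
  change cyc3 (φ (cyc3.symm p)) = _
  rw [hφ]
  rfl

/-- A perturbation of the identity by a Lipschitz function is strictly increasing. -/
theorem strictMono_add_mul {T : ℝ → ℝ} {l c : ℝ} (hl : ∀ x y, x ≤ y → |T y - T x| ≤ l * (y - x))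
    (hc : |c| * l < 1) : StrictMono fun x => x + c * T x := by
  intro x y hxy
  have h1 := hl x y hxy.le
  have h2 : |c * (T y - T x)| ≤ |c| * (l * (y - x)) := by
    rw [abs_mul]
    exact mul_le_mul_of_nonneg_left h1 (abs_nonneg c)
  have h3 := (abs_le.1 h2).1
  have h4 : |c| * (l * (y - x)) < y - x := by
    have h5 : 0 < y - x := by linarith
    calc |c| * (l * (y - x)) = (|c| * l) * (y - x) := by ring
      _ < 1 * (y - x) := by exact mul_lt_mul_of_pos_right hc h5
      _ = y - x := one_mul _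
  have h6 : c * (T y - T x) = c * T y - c * T x := by ring
  simp only
  linarith

end Pool.Agent.KTube
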