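import Pool.Agent.KTube.StretchMem
import Pool.Agent.MP_aea6d5_co.PolyClosed

/-! Gluing a lower part and an upper part at a plane with the reference section. -/

set_option autoImplicit false

namespace Pool.Agent.KTube

open Pool.Agent.LK

variable {E A B : Finset (Sym2 P3)} {k : ℤ}

/-- The first edge over the reference columns. -/
def leg0 (k : ℤ) : Sym2 P3 := s((0, 0, k), (0, 0, k + 1))

/-- The second edge over the reference columns. -/
def leg1 (k : ℤ) : Sym2 P3 := s((1, 0, k), (1, 0, k + 1))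

theorem isV0_iff : IsV0 E k ↔ ∀ a b : ℤ, s((a, b, k), (a, b, k + 1)) ∈ E ↔
    (a = 0 ∧ b = 0) ∨ (a = 1 ∧ b = 0) := by
  unfold IsV0 V0
  rw [Set.ext_iff]
  constructor
  · intro h a b
    have := h (a, b)
    simpa [mem_cross] using this
  · rintro h ⟨a, b⟩
    have := h a b
    simpa [mem_cross] using this

theorem IsV0.leg0_mem (h : IsV0 E k) : leg0 k ∈ E := (isV0_iff.1 h 0 0).2 (by simp)

theorem IsV0.leg1_mem (h : IsV0 E k) : leg1 k ∈ E := (isV0_iff.1 h 1 0).2 (by simp)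

/-- If two edges lead from the side `S` to the other side and their ends in `S` are joined by an
edge then nothing else of the polygon lies in `S`. -/
theorem side_unique (hE : IsPolygon E) {a b a' b' : P3} (S : P3 → Prop) (hab : s(a, b) ∈ E)
    (haa : s(a, a') ∈ E) (hbb : s(b, b') ∈ E) (ha : S a) (hb : S b) (ha' : ¬ S a') (hb' : ¬ S b')
    (hcross : ∀ u v, s(u, v) ∈ E → S u → ¬ S v → u = a ∨ u = b) :
    ∀ u ∈ verts E, S u → u = a ∨ u = b := by
  intro u hu hSu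
  by_contra hne
  rw [not_or] at hne
  have hab' : a' ≠ b := fun h => ha' (h ▸ hb)
  have hba' : b' ≠ a := fun h => hb' (h ▸ ha)
  have key : ∀ v, Relation.ReflTransGen (fun p q => s(p, q) ∈ E) u v → S v ∧ v ≠ a ∧ v ≠ b := by
    intro v hv
    induction hv with
    | refl => exact ⟨hSu, hne.1, hne.2⟩
    | @tail p q _ hpq ih =>
      have hq1 : q ≠ a := by
        rintro rfl
        rw [Sym2.eq_swap] at hpq
        rcases nbr_eq' hE haa hab hab' hpq with h | h
        · exact ha' (h ▸ ih.1)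
        · exact ih.2.2 h
      have hq2 : q ≠ b := by
        rintro rfl
        rw [Sym2.eq_swap] at hpq
        have hba : s(q, a) ∈ E := by rwa [Sym2.eq_swap]
        rcases nbr_eq' hE hbb hba hba' hpq with h | h
        · exact hb' (h ▸ ih.1)
        · exact ih.2.1 h
      refine ⟨?_, hq1, hq2⟩
      by_contra hSq
      rcases hcross p q hpq ih.1 hSq with h | h
      · exact ih.2.1 h
      · exact ih.2.2 h
  exact (key a (hE.conn u hu a (mem_verts_left hab))).2.1 rfl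

theorem IsLow.top (h : IsLow A k) {u : P3} (hu : u ∈ verts A) (hk : k + 1 ≤ u.2.2) :
    u = (0, 0, k + 1) ∨ u = (1, 0, k + 1) := by
  obtain ⟨hP, hV, hc, hz⟩ := h
  have h0 := hV.leg0_mem
  have h1 := hV.leg1_mem
  unfold leg0 at h0
  unfold leg1 at h1
  rw [Sym2.eq_swap] at h0 h1
  refine side_unique hP (fun u => k + 1 ≤ u.2.2) hc h0 h1 le_rfl le_rfl (by simp)
    (by simp) ?_ u hu hk
  intro p q hpq hp hq
  rcases adj_cases k (hP.adj p q hpq) with ⟨h2, -⟩ | ⟨-, h2⟩ | ⟨x, y, h2⟩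
  · omega
  · exact absurd h2 hq
  · rw [h2] at hpq
    rw [Sym2.eq_iff] at h2
    rcases h2 with ⟨rfl, rfl⟩ | ⟨rfl, rfl⟩
    · simp only at hp; omega
    · rcases (isV0_iff.1 hV x y).1 hpq with ⟨rfl, rfl⟩ | ⟨rfl, rfl⟩
      · exact Or.inl rfl
      · exact Or.inr rfl

theorem IsUpp.bot (h : IsUpp B k) {u : P3} (hu : u ∈ verts B) (hk : u.2.2 ≤ k) :
    u = (0, 0, k) ∨ u = (1, 0, k) := by
  obtain ⟨hP, hV, hc, hz⟩ := h
  have h0 := hV.leg0_mem
  have h1 := hV.leg1_mem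
  unfold leg0 at h0
  unfold leg1 at h1
  refine side_unique hP (fun u => u.2.2 ≤ k) hc h0 h1 le_rfl le_rfl (by simp)
    (by simp) ?_ u hu hk
  intro p q hpq hp hq
  rcases adj_cases k (hP.adj p q hpq) with ⟨-, h2⟩ | ⟨h2, -⟩ | ⟨x, y, h2⟩
  · exact absurd h2 hq
  · omega
  · rw [h2] at hpq
    rw [Sym2.eq_iff] at h2
    rcases h2 with ⟨rfl, rfl⟩ | ⟨rfl, rfl⟩
    · rcases (isV0_iff.1 hV x y).1 hpq with ⟨rfl, rfl⟩ | ⟨rfl, rfl⟩
      · exact Or.inl rfl
      · exact Or.inr rfl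
    · simp only at hp; omega

theorem leg0_ne_leg1 (k : ℤ) : leg0 k ≠ leg1 k := by
  simp [leg0, leg1]

theorem cap_ne_leg0 (k j : ℤ) : cap j ≠ leg0 k := by
  simp [leg0, cap]

theorem cap_ne_leg1 (k j : ℤ) : cap j ≠ leg1 k := by
  simp [leg1, cap]

/-- The edges of a closed lower part. -/
theorem IsLow.cases (h : IsLow A k) {u v : P3} (huv : s(u, v) ∈ A) :
    (u.2.2 ≤ k ∧ v.2.2 ≤ k) ∨ s(u, v) = leg0 k ∨ s(u, v) = leg1 k ∨ s(u, v) = cap (k + 1) := by
  have hP := h.1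
  have hV := h.2.1
  rcases adj_cases k (hP.adj u v huv) with h2 | ⟨h2, h3⟩ | ⟨x, y, h2⟩
  · exact Or.inl h2
  · right; right; right
    have hne := (hP.adj u v huv).ne
    rcases h.top (mem_verts_left huv) h2 with rfl | rfl
    · rcases h.top (mem_verts_right huv) h3 with rfl | rfl
      · exact absurd rfl hne
      · rfl
    · rcases h.top (mem_verts_right huv) h3 with rfl | rfl
      · rw [Sym2.eq_swap]; rfl
      · exact absurd rfl hne
  · rw [h2] at huv
    rcases (isV0_iff.1 hV x y).1 huv with ⟨rfl, rfl⟩ | ⟨rfl, rfl⟩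
    · exact Or.inr (Or.inl h2)
    · exact Or.inr (Or.inr (Or.inl h2))

/-- The edges of a closed upper part. -/
theorem IsUpp.cases (h : IsUpp B k) {u v : P3} (huv : s(u, v) ∈ B) :
    (k + 1 ≤ u.2.2 ∧ k + 1 ≤ v.2.2) ∨ s(u, v) = leg0 k ∨ s(u, v) = leg1 k ∨ s(u, v) = cap k := by
  have hP := h.1
  have hV := h.2.1
  rcases adj_cases k (hP.adj u v huv) with ⟨h2, h3⟩ | h2 | ⟨x, y, h2⟩
  · right; right; right
    have hne := (hP.adj u v huv).ne
    rcases h.bot (mem_verts_left huv) h2 with rfl | rfl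
    · rcases h.bot (mem_verts_right huv) h3 with rfl | rfl
      · exact absurd rfl hne
      · rfl
    · rcases h.bot (mem_verts_right huv) h3 with rfl | rfl
      · rw [Sym2.eq_swap]; rfl
      · exact absurd rfl hne
  · exact Or.inl h2
  · rw [h2] at huv
    rcases (isV0_iff.1 hV x y).1 huv with ⟨rfl, rfl⟩ | ⟨rfl, rfl⟩
    · exact Or.inr (Or.inl h2)
    · exact Or.inr (Or.inr (Or.inl h2))

theorem leg0_levels {u v : P3} (h : s(u, v) = leg0 k) :
    (u = (0, 0, k) ∧ v = (0, 0, k + 1)) ∨ (u = (0, 0, k + 1) ∧ v = (0, 0, k)) := by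
  unfold leg0 at h
  rwa [Sym2.eq_iff] at h

theorem leg1_levels {u v : P3} (h : s(u, v) = leg1 k) :
    (u = (1, 0, k) ∧ v = (1, 0, k + 1)) ∨ (u = (1, 0, k + 1) ∧ v = (1, 0, k)) := by
  unfold leg1 at h
  rwa [Sym2.eq_iff] at h

theorem cap_levels {u v : P3} (h : s(u, v) = cap k) :
    (u = (0, 0, k) ∧ v = (1, 0, k)) ∨ (u = (1, 0, k) ∧ v = (0, 0, k)) := by
  unfold cap at h
  rwa [Sym2.eq_iff] at h

theorem mem_glue' {e : Sym2 P3} :
    e ∈ glue A B k ↔ (e ∈ A ∧ e ≠ cap (k + 1)) ∨ (e ∈ B ∧ e ≠ cap k) := by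
  unfold glue
  rw [Finset.mem_union, Finset.mem_sdiff, Finset.mem_sdiff, Finset.mem_singleton,
    Finset.mem_singleton]

/-- The edges of the composition. -/
theorem mem_glue (hA : IsLow A k) (hB : IsUpp B k) {u v : P3} :
    s(u, v) ∈ glue A B k ↔ (s(u, v) ∈ A ∧ u.2.2 ≤ k ∧ v.2.2 ≤ k) ∨
      (s(u, v) ∈ B ∧ k + 1 ≤ u.2.2 ∧ k + 1 ≤ v.2.2) ∨ s(u, v) = leg0 k ∨ s(u, v) = leg1 k := by
  rw [mem_glue']
  constructor
  · rintro (⟨h1, h2⟩ | ⟨h1, h2⟩)
    · rcases hA.cases h1 with h3 | h3 | h3 | h3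
      · exact Or.inl ⟨h1, h3⟩
      · exact Or.inr (Or.inr (Or.inl h3))
      · exact Or.inr (Or.inr (Or.inr h3))
      · exact absurd h3 h2
    · rcases hB.cases h1 with h3 | h3 | h3 | h3
      · exact Or.inr (Or.inl ⟨h1, h3⟩)
      · exact Or.inr (Or.inr (Or.inl h3))
      · exact Or.inr (Or.inr (Or.inr h3))
      · exact absurd h3 h2
  · rintro (⟨h1, h2, h3⟩ | ⟨h1, h2, h3⟩ | h1 | h1)
    · refine Or.inl ⟨h1, fun h => ?_⟩
      rcases cap_levels h with ⟨rfl, -⟩ | ⟨rfl, -⟩ <;> simp only at h2 <;> omega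
    · refine Or.inr ⟨h1, fun h => ?_⟩
      rcases cap_levels h with ⟨rfl, -⟩ | ⟨rfl, -⟩ <;> simp only at h2 <;> omega
    · rw [h1]
      exact Or.inl ⟨hA.2.1.leg0_mem, (cap_ne_leg0 _ _).symm⟩
    · rw [h1]
      exact Or.inl ⟨hA.2.1.leg1_mem, (cap_ne_leg1 _ _).symm⟩

theorem mem_glue_low (hA : IsLow A k) (hB : IsUpp B k) {u v : P3} (hu : u.2.2 ≤ k) :
    s(u, v) ∈ glue A B k ↔ s(u, v) ∈ A := by
  rw [mem_glue hA hB]
  constructor
  · rintro (⟨h1, h2, h3⟩ | ⟨h1, h2, h3⟩ | h1 | h1)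
    · exact h1
    · omega
    · rw [h1]; exact hA.2.1.leg0_mem
    · rw [h1]; exact hA.2.1.leg1_mem
  · intro h1
    rcases hA.cases h1 with h3 | h3 | h3 | h3
    · exact Or.inl ⟨h1, h3⟩
    · exact Or.inr (Or.inr (Or.inl h3))
    · exact Or.inr (Or.inr (Or.inr h3))
    · rcases cap_levels h3 with ⟨rfl, -⟩ | ⟨rfl, -⟩ <;> simp only at hu <;> omega

theorem mem_glue_upp (hA : IsLow A k) (hB : IsUpp B k) {u v : P3} (hu : k + 1 ≤ u.2.2) :
    s(u, v) ∈ glue A B k ↔ s(u, v) ∈ B := by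
  rw [mem_glue hA hB]
  constructor
  · rintro (⟨h1, h2, h3⟩ | ⟨h1, h2, h3⟩ | h1 | h1)
    · omega
    · exact h1
    · rw [h1]; exact hB.2.1.leg0_mem
    · rw [h1]; exact hB.2.1.leg1_mem
  · intro h1
    rcases hB.cases h1 with h3 | h3 | h3 | h3
    · exact Or.inr (Or.inl ⟨h1, h3⟩)
    · exact Or.inr (Or.inr (Or.inl h3))
    · exact Or.inr (Or.inr (Or.inr h3))
    · rcases cap_levels h3 with ⟨rfl, -⟩ | ⟨rfl, -⟩ <;> simp only at hu <;> omega

theorem isPolygon_glue (hA : IsLow A k) (hB : IsUpp B k) : IsPolygon (glue A B k) := by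
  have hl : leg0 k ∈ glue A B k := (mem_glue hA hB).2 (Or.inr (Or.inr (Or.inl rfl)))
  refine ⟨⟨_, hl⟩, ?_, ?_, ?_⟩
  · intro u v huv
    rw [mem_glue'] at huv
    rcases huv with h | h
    · exact hA.1.adj u v h.1
    · exact hB.1.adj u v h.1
  · intro u hu
    obtain ⟨v, hv⟩ := hu
    rcases le_or_gt u.2.2 k with h | h
    · have h1 : {w | s(u, w) ∈ glue A B k} = {w | s(u, w) ∈ A} := by
        ext w
        exact mem_glue_low hA hB h
      rw [h1]
      exact hA.1.deg u ⟨v, (mem_glue_low hA hB h).1 hv⟩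
    · have h1 : {w | s(u, w) ∈ glue A B k} = {w | s(u, w) ∈ B} := by
        ext w
        exact mem_glue_upp hA hB (by omega)
      rw [h1]
      exact hB.1.deg u ⟨v, (mem_glue_upp hA hB (by omega)).1 hv⟩
  · have hsymm : ∀ p q, s(p, q) ∈ glue A B k → s(q, p) ∈ glue A B k :=
      fun p q h => by rwa [Sym2.eq_swap]
    have h0A : ((0, 0, k) : P3) ∈ verts A := ⟨_, hA.2.1.leg0_mem⟩
    have h0B : ((0, 0, k) : P3) ∈ verts B := ⟨_, hB.2.1.leg0_mem⟩
    have hall : ∀ u ∈ verts (glue A B k),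
        Relation.ReflTransGen (fun p q => s(p, q) ∈ glue A B k) (0, 0, k) u := by
      rintro u ⟨v, hv⟩
      rw [mem_glue'] at hv
      rcases hv with h | h
      · exact rtg_mono (fun p q h => mem_glue'.2 (Or.inl h))
          (arcStatement A hA.1 _ _ hA.2.2.1 _ h0A u ⟨v, h.1⟩)
      · exact rtg_mono (fun p q h => mem_glue'.2 (Or.inr h))
          (arcStatement B hB.1 _ _ hB.2.2.1 _ h0B u ⟨v, h.1⟩)
    intro u hu v hv
    exact (reflTransGen_symm_of_symm hsymm (hall u hu)).trans (hall v hv)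

theorem mem_low {e : Sym2 P3} :
    e ∈ low E k ↔ e = cap (k + 1) ∨ (e ∈ E ∧ ∃ u ∈ e, u.2.2 ≤ k) := by
  classical
  unfold low
  rw [Finset.mem_insert, Finset.mem_filter]

theorem mem_upp {e : Sym2 P3} :
    e ∈ upp E k ↔ e = cap k ∨ (e ∈ E ∧ ∃ u ∈ e, k + 1 ≤ u.2.2) := by
  classical
  unfold upp
  rw [Finset.mem_insert, Finset.mem_filter]

theorem isV0_glue (hA : IsLow A k) (hB : IsUpp B k) : IsV0 (glue A B k) k := by
  have hV := hA.2.1
  rw [isV0_iff] at hV ⊢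
  intro a b
  rw [← hV a b]
  exact mem_glue_low hA hB le_rfl

theorem low_glue (hA : IsLow A k) (hB : IsUpp B k) : low (glue A B k) k = A := by
  refine edge_ext fun u v => ?_
  rw [mem_low]
  constructor
  · rintro (h | ⟨h, w, hw, hk⟩)
    · rw [h]; exact hA.2.2.1
    · rw [Sym2.mem_iff] at hw
      rcases hw with rfl | rfl
      · exact (mem_glue_low hA hB hk).1 h
      · rw [Sym2.eq_swap] at h ⊢
        exact (mem_glue_low hA hB hk).1 h
  · intro h
    rcases hA.cases h with h3 | h3 | h3 | h3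
    · exact Or.inr ⟨(mem_glue_low hA hB h3.1).2 h, u, by simp, h3.1⟩
    · refine Or.inr ⟨(mem_glue hA hB).2 (Or.inr (Or.inr (Or.inl h3))), (0, 0, k), ?_, le_rfl⟩
      rw [h3]; simp [leg0]
    · refine Or.inr ⟨(mem_glue hA hB).2 (Or.inr (Or.inr (Or.inr h3))), (1, 0, k), ?_, le_rfl⟩
      rw [h3]; simp [leg1]
    · exact Or.inl h3

theorem upp_glue (hA : IsLow A k) (hB : IsUpp B k) : upp (glue A B k) k = B := by
  refine edge_ext fun u v => ?_
  rw [mem_upp]
  constructor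
  · rintro (h | ⟨h, w, hw, hk⟩)
    · rw [h]; exact hB.2.2.1
    · rw [Sym2.mem_iff] at hw
      rcases hw with rfl | rfl
      · exact (mem_glue_upp hA hB hk).1 h
      · rw [Sym2.eq_swap] at h ⊢
        exact (mem_glue_upp hA hB hk).1 h
  · intro h
    rcases hB.cases h with h3 | h3 | h3 | h3
    · exact Or.inr ⟨(mem_glue_upp hA hB h3.1).2 h, u, by simp, h3.1⟩
    · refine Or.inr ⟨(mem_glue hA hB).2 (Or.inr (Or.inr (Or.inl h3))), (0, 0, k + 1), ?_, le_rfl⟩
      rw [h3]; simp [leg0]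
    · refine Or.inr ⟨(mem_glue hA hB).2 (Or.inr (Or.inr (Or.inr h3))), (1, 0, k + 1), ?_, le_rfl⟩
      rw [h3]; simp [leg1]
    · exact Or.inl h3

theorem card_glue (hA : IsLow A k) (hB : IsUpp B k) :
    (glue A B k).card + 4 = A.card + B.card := by
  have h1 : (A \ {cap (k + 1)}) ∩ (B \ {cap k}) = {leg0 k, leg1 k} := by
    refine edge_ext fun u v => ?_
    simp only [Finset.mem_inter, Finset.mem_sdiff, Finset.mem_singleton, Finset.mem_insert]
    constructor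
    · rintro ⟨⟨a1, a2⟩, b1, b2⟩
      rcases hA.cases a1 with h3 | h3 | h3 | h3
      · rcases hB.cases b1 with h4 | h4 | h4 | h4
        · omega
        · exact Or.inl h4
        · exact Or.inr h4
        · exact absurd h4 b2
      · exact Or.inl h3
      · exact Or.inr h3
      · exact absurd h3 a2
    · rintro (h3 | h3) <;> rw [h3]
      · exact ⟨⟨hA.2.1.leg0_mem, (cap_ne_leg0 _ _).symm⟩, hB.2.1.leg0_mem, (cap_ne_leg0 _ _).symm⟩
      · exact ⟨⟨hA.2.1.leg1_mem, (cap_ne_leg1 _ _).symm⟩, hB.2.1.leg1_mem, (cap_ne_leg1 _ _).symm⟩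
  have h2 := Finset.card_union_add_card_inter (A \ {cap (k + 1)}) (B \ {cap k})
  rw [h1, Finset.card_pair (leg0_ne_leg1 k)] at h2
  have h3 : (A \ {cap (k + 1)}).card + 1 = A.card := by
    rw [Finset.sdiff_singleton_eq_erase]
    exact Finset.card_erase_add_one hA.2.2.1
  have h4 : (B \ {cap k}).card + 1 = B.card := by
    rw [Finset.sdiff_singleton_eq_erase]
    exact Finset.card_erase_add_one hB.2.2.1
  unfold glue
  omega

/-- (T3) -/
theorem glueStatement : GlueStatement := fun _ _ _ hA hB =>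
  ⟨isPolygon_glue hA hB, isV0_glue hA hB, low_glue hA hB, upp_glue hA hB, card_glue hA hB⟩

end Pool.Agent.KTube
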