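import Pool.Agent.KTube.Stretch
import Pool.Agent.KTube.Glue

/-! T2: cutting a polygon at a reference section. -/

set_option autoImplicit false

open Set

namespace Pool.Agent.KTube

open Pool.Agent.LK

variable {E : Finset (Sym2 P3)} {k : ℤ}

theorem cap_mem_level {u v : P3} (h : s(u, v) = cap k) : u.2.2 = k ∧ v.2.2 = k := by
  rcases cap_levels h with ⟨rfl, rfl⟩ | ⟨rfl, rfl⟩ <;> simp

theorem mem_low' {u v : P3} :
    s(u, v) ∈ low E k ↔ s(u, v) = cap (k + 1) ∨ (s(u, v) ∈ E ∧ (u.2.2 ≤ k ∨ v.2.2 ≤ k)) := by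
  rw [mem_low]
  simp only [Sym2.mem_iff, exists_eq_or_imp, exists_eq_left]

theorem mem_upp' {u v : P3} :
    s(u, v) ∈ upp E k ↔ s(u, v) = cap k ∨ (s(u, v) ∈ E ∧ (k + 1 ≤ u.2.2 ∨ k + 1 ≤ v.2.2)) := by
  rw [mem_upp]
  simp only [Sym2.mem_iff, exists_eq_or_imp, exists_eq_left]

/-- An edge that crosses the plane is one of the two legs. -/
theorem crossing (hE : ∀ u v, s(u, v) ∈ E → Adj u v) (hV : IsV0 E k) {u v : P3}
    (huv : s(u, v) ∈ E) (hu : u.2.2 ≤ k) (hv : k + 1 ≤ v.2.2) :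
    (u = (0, 0, k) ∧ v = (0, 0, k + 1)) ∨ (u = (1, 0, k) ∧ v = (1, 0, k + 1)) := by
  rcases adj_cases k (hE u v huv) with ⟨h1, h2⟩ | ⟨h1, h2⟩ | ⟨a, b, h1⟩
  · omega
  · omega
  · have h2 : s((a, b, k), (a, b, k + 1)) ∈ E := h1 ▸ huv
    have h3 := (isV0_iff.1 hV a b).1 h2
    rw [Sym2.eq_iff] at h1
    rcases h1 with ⟨rfl, rfl⟩ | ⟨rfl, rfl⟩
    · rcases h3 with ⟨rfl, rfl⟩ | ⟨rfl, rfl⟩
      · exact Or.inl ⟨rfl, rfl⟩
      · exact Or.inr ⟨rfl, rfl⟩
    · simp only at hu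
      omega

theorem leg0_mem_low (hV : IsV0 E k) : s((0, 0, k), (0, 0, k + 1)) ∈ low E k := by
  rw [mem_low']
  exact Or.inr ⟨hV.leg0_mem, Or.inl le_rfl⟩

theorem leg1_mem_low (hV : IsV0 E k) : s((1, 0, k), (1, 0, k + 1)) ∈ low E k := by
  rw [mem_low']
  exact Or.inr ⟨hV.leg1_mem, Or.inl le_rfl⟩

theorem leg0_mem_upp (hV : IsV0 E k) : s((0, 0, k), (0, 0, k + 1)) ∈ upp E k := by
  rw [mem_upp']
  exact Or.inr ⟨hV.leg0_mem, Or.inr le_rfl⟩

theorem leg1_mem_upp (hV : IsV0 E k) : s((1, 0, k), (1, 0, k + 1)) ∈ upp E k := by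
  rw [mem_upp']
  exact Or.inr ⟨hV.leg1_mem, Or.inr le_rfl⟩

theorem cap_mem_low : s((0, 0, k + 1), (1, 0, k + 1)) ∈ low E k := by
  rw [mem_low']
  exact Or.inl rfl

theorem cap_mem_upp : s((0, 0, k), (1, 0, k)) ∈ upp E k := by
  rw [mem_upp']
  exact Or.inl rfl

/-- The vertices of the lower part. -/
theorem verts_low (hE : ∀ u v, s(u, v) ∈ E → Adj u v) (hV : IsV0 E k) {u : P3}
    (hu : u ∈ verts (low E k)) :
    (u ∈ verts E ∧ u.2.2 ≤ k) ∨ u = (0, 0, k + 1) ∨ u = (1, 0, k + 1) := by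
  obtain ⟨v, hv⟩ := hu
  rw [mem_low'] at hv
  rcases hv with h1 | ⟨h1, h2⟩
  · rcases cap_levels h1 with ⟨rfl, rfl⟩ | ⟨rfl, rfl⟩
    · exact Or.inr (Or.inl rfl)
    · exact Or.inr (Or.inr rfl)
  · rcases le_or_gt u.2.2 k with h3 | h3
    · exact Or.inl ⟨⟨v, h1⟩, h3⟩
    · rw [Sym2.eq_swap] at h1
      rcases crossing hE hV h1 (by omega) (by omega) with ⟨-, h4⟩ | ⟨-, h4⟩
      · exact Or.inr (Or.inl h4)
      · exact Or.inr (Or.inr h4)

/-- The vertices of the upper part. -/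
theorem verts_upp (hE : ∀ u v, s(u, v) ∈ E → Adj u v) (hV : IsV0 E k) {u : P3}
    (hu : u ∈ verts (upp E k)) :
    (u ∈ verts E ∧ k + 1 ≤ u.2.2) ∨ u = (0, 0, k) ∨ u = (1, 0, k) := by
  obtain ⟨v, hv⟩ := hu
  rw [mem_upp'] at hv
  rcases hv with h1 | ⟨h1, h2⟩
  · rcases cap_levels h1 with ⟨rfl, rfl⟩ | ⟨rfl, rfl⟩
    · exact Or.inr (Or.inl rfl)
    · exact Or.inr (Or.inr rfl)
  · rcases le_or_gt (k + 1) u.2.2 with h3 | h3
    · exact Or.inl ⟨⟨v, h1⟩, h3⟩
    · rcases crossing hE hV h1 (by omega) (by omega) with ⟨h4, -⟩ | ⟨h4, -⟩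
      · exact Or.inr (Or.inl h4)
      · exact Or.inr (Or.inr h4)

theorem nbr_low_part (hE : ∀ u v, s(u, v) ∈ E → Adj u v) {u : P3} (hu : u.2.2 ≤ k) :
    {w | s(u, w) ∈ low E k} = {w | s(u, w) ∈ E} := by
  ext w
  simp only [mem_ofPred_eq]
  rw [mem_low']
  constructor
  · rintro (h1 | ⟨h1, -⟩)
    · have := (cap_mem_level h1).1
      omega
    · exact h1
  · exact fun h1 => Or.inr ⟨h1, Or.inl hu⟩

theorem nbr_upp_part (hE : ∀ u v, s(u, v) ∈ E → Adj u v) {u : P3} (hu : k + 1 ≤ u.2.2) :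
    {w | s(u, w) ∈ upp E k} = {w | s(u, w) ∈ E} := by
  ext w
  simp only [mem_ofPred_eq]
  rw [mem_upp']
  constructor
  · rintro (h1 | ⟨h1, -⟩)
    · have := (cap_mem_level h1).1
      omega
    · exact h1
  · exact fun h1 => Or.inr ⟨h1, Or.inl hu⟩

theorem nbr_low_top0 (hE : ∀ u v, s(u, v) ∈ E → Adj u v) (hV : IsV0 E k) :
    {w | s((0, 0, k + 1), w) ∈ low E k} = {((0, 0, k) : P3), (1, 0, k + 1)} := by
  ext w
  simp only [mem_ofPred_eq, mem_insert_iff, mem_singleton_iff]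
  constructor
  · intro h
    rw [mem_low'] at h
    rcases h with h1 | ⟨h1, h2⟩
    · rcases cap_levels h1 with ⟨h3, h4⟩ | ⟨h3, h4⟩
      · exact Or.inr h4
      · simp at h3
    · have h3 : w.2.2 ≤ k := by
        rcases h2 with h2 | h2
        · simp only at h2
          omega
        · exact h2
      rw [Sym2.eq_swap] at h1
      rcases crossing hE hV h1 h3 le_rfl with ⟨h4, -⟩ | ⟨-, h4⟩
      · exact Or.inl h4
      · simp at h4
  · rintro (rfl | rfl)
    · rw [Sym2.eq_swap]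
      exact leg0_mem_low hV
    · exact cap_mem_low

theorem nbr_low_top1 (hE : ∀ u v, s(u, v) ∈ E → Adj u v) (hV : IsV0 E k) :
    {w | s((1, 0, k + 1), w) ∈ low E k} = {((1, 0, k) : P3), (0, 0, k + 1)} := by
  ext w
  simp only [mem_ofPred_eq, mem_insert_iff, mem_singleton_iff]
  constructor
  · intro h
    rw [mem_low'] at h
    rcases h with h1 | ⟨h1, h2⟩
    · rcases cap_levels h1 with ⟨h3, h4⟩ | ⟨h3, h4⟩
      · simp at h3
      · exact Or.inr h4
    · have h3 : w.2.2 ≤ k := by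
        rcases h2 with h2 | h2
        · simp only at h2
          omega
        · exact h2
      rw [Sym2.eq_swap] at h1
      rcases crossing hE hV h1 h3 le_rfl with ⟨-, h4⟩ | ⟨h4, -⟩
      · simp at h4
      · exact Or.inl h4
  · rintro (rfl | rfl)
    · rw [Sym2.eq_swap]
      exact leg1_mem_low hV
    · rw [Sym2.eq_swap]
      exact cap_mem_low

theorem nbr_upp_bot0 (hE : ∀ u v, s(u, v) ∈ E → Adj u v) (hV : IsV0 E k) :
    {w | s((0, 0, k), w) ∈ upp E k} = {((0, 0, k + 1) : P3), (1, 0, k)} := by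
  ext w
  simp only [mem_ofPred_eq, mem_insert_iff, mem_singleton_iff]
  constructor
  · intro h
    rw [mem_upp'] at h
    rcases h with h1 | ⟨h1, h2⟩
    · rcases cap_levels h1 with ⟨h3, h4⟩ | ⟨h3, h4⟩
      · exact Or.inr h4
      · simp at h3
    · have h3 : k + 1 ≤ w.2.2 := by
        rcases h2 with h2 | h2
        · simp only at h2
          omega
        · exact h2
      rcases crossing hE hV h1 le_rfl h3 with ⟨-, h4⟩ | ⟨h4, -⟩
      · exact Or.inl h4
      · simp at h4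
  · rintro (rfl | rfl)
    · exact leg0_mem_upp hV
    · exact cap_mem_upp

theorem nbr_upp_bot1 (hE : ∀ u v, s(u, v) ∈ E → Adj u v) (hV : IsV0 E k) :
    {w | s((1, 0, k), w) ∈ upp E k} = {((1, 0, k + 1) : P3), (0, 0, k)} := by
  ext w
  simp only [mem_ofPred_eq, mem_insert_iff, mem_singleton_iff]
  constructor
  · intro h
    rw [mem_upp'] at h
    rcases h with h1 | ⟨h1, h2⟩
    · rcases cap_levels h1 with ⟨h3, h4⟩ | ⟨h3, h4⟩
      · simp at h3
      · exact Or.inr h4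
    · have h3 : k + 1 ≤ w.2.2 := by
        rcases h2 with h2 | h2
        · simp only at h2
          omega
        · exact h2
      rcases crossing hE hV h1 le_rfl h3 with ⟨h4, -⟩ | ⟨-, h4⟩
      · simp at h4
      · exact Or.inl h4
  · rintro (rfl | rfl)
    · exact leg1_mem_upp hV
    · rw [Sym2.eq_swap]
      exact cap_mem_upp

theorem reach_low (hE : IsPolygon E) (hV : IsV0 E k) {u : P3} (hu : u ∈ verts (low E k)) :
    Relation.ReflTransGen (fun a b => s(a, b) ∈ low E k) u (0, 0, k + 1) := by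
  rcases verts_low hE.adj hV hu with ⟨h1, h2⟩ | rfl | rfl
  · have h3 : ((0, 0, k + 1) : P3) ∈ verts E := ⟨(0, 0, k), by
      rw [Sym2.eq_swap]; exact hV.leg0_mem⟩
    have h4 := hE.conn u h1 _ h3
    have key : ∀ w, Relation.ReflTransGen (fun a b => s(a, b) ∈ E) u w →
        (Relation.ReflTransGen (fun a b => s(a, b) ∈ low E k) u w ∧ w.2.2 ≤ k) ∨
        Relation.ReflTransGen (fun a b => s(a, b) ∈ low E k) u (0, 0, k + 1) := by
      intro w hw
      induction hw with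
      | refl => exact Or.inl ⟨Relation.ReflTransGen.refl, h2⟩
      | @tail w w' _ h5 ih =>
        rcases ih with ⟨h6, h7⟩ | h6
        · have h8 : s(w, w') ∈ low E k := mem_low'.2 (Or.inr ⟨h5, Or.inl h7⟩)
          rcases le_or_gt w'.2.2 k with h9 | h9
          · exact Or.inl ⟨h6.tail h8, h9⟩
          · right
            rcases crossing hE.adj hV h5 h7 (by omega) with ⟨-, rfl⟩ | ⟨-, rfl⟩
            · exact h6.tail h8
            · exact (h6.tail h8).tail (by rw [Sym2.eq_swap]; exact cap_mem_low)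
        · exact Or.inr h6
    rcases key _ h4 with ⟨-, h5⟩ | h5
    · simp only at h5
      omega
    · exact h5
  · exact Relation.ReflTransGen.refl
  · exact Relation.ReflTransGen.single (by rw [Sym2.eq_swap]; exact cap_mem_low)

theorem reach_upp (hE : IsPolygon E) (hV : IsV0 E k) {u : P3} (hu : u ∈ verts (upp E k)) :
    Relation.ReflTransGen (fun a b => s(a, b) ∈ upp E k) u (0, 0, k) := by
  rcases verts_upp hE.adj hV hu with ⟨h1, h2⟩ | rfl | rfl
  · have h3 : ((0, 0, k) : P3) ∈ verts E := ⟨(0, 0, k + 1), hV.leg0_mem⟩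
    have h4 := hE.conn u h1 _ h3
    have key : ∀ w, Relation.ReflTransGen (fun a b => s(a, b) ∈ E) u w →
        (Relation.ReflTransGen (fun a b => s(a, b) ∈ upp E k) u w ∧ k + 1 ≤ w.2.2) ∨
        Relation.ReflTransGen (fun a b => s(a, b) ∈ upp E k) u (0, 0, k) := by
      intro w hw
      induction hw with
      | refl => exact Or.inl ⟨Relation.ReflTransGen.refl, h2⟩
      | @tail w w' _ h5 ih =>
        rcases ih with ⟨h6, h7⟩ | h6
        · have h8 : s(w, w') ∈ upp E k := mem_upp'.2 (Or.inr ⟨h5, Or.inl h7⟩)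
          rcases le_or_gt (k + 1) w'.2.2 with h9 | h9
          · exact Or.inl ⟨h6.tail h8, h9⟩
          · right
            have h10 : s(w', w) ∈ E := by rw [Sym2.eq_swap]; exact h5
            rcases crossing hE.adj hV h10 (by omega) h7 with ⟨rfl, -⟩ | ⟨rfl, -⟩
            · exact h6.tail h8
            · exact (h6.tail h8).tail (by rw [Sym2.eq_swap]; exact cap_mem_upp)
        · exact Or.inr h6
    rcases key _ h4 with ⟨-, h5⟩ | h5
    · simp only at h5
      omega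
    · exact h5
  · exact Relation.ReflTransGen.refl
  · exact Relation.ReflTransGen.single (by rw [Sym2.eq_swap]; exact cap_mem_upp)

theorem isLow_low (hE : IsPolygon E) (hV : IsV0 E k) : IsLow (low E k) k := by
  refine ⟨⟨⟨_, cap_mem_low⟩, ?_, ?_, ?_⟩, ?_, cap_mem_low, ?_⟩
  · intro u v huv
    rw [mem_low'] at huv
    rcases huv with h1 | ⟨h1, -⟩
    · rcases cap_levels h1 with ⟨rfl, rfl⟩ | ⟨rfl, rfl⟩ <;> simp [Adj]
    · exact hE.adj u v h1
  · intro u hu
    rcases verts_low hE.adj hV hu with ⟨h1, h2⟩ | rfl | rfl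
    · rw [nbr_low_part hE.adj h2]
      exact hE.deg u h1
    · rw [nbr_low_top0 hE.adj hV, ncard_pair]
      simp
    · rw [nbr_low_top1 hE.adj hV, ncard_pair]
      simp
  · intro u hu v hv
    exact (reach_low hE hV hu).trans (rtg_symm (reach_low hE hV hv))
  · rw [isV0_iff]
    intro a b
    rw [← isV0_iff.1 hV a b, mem_low']
    constructor
    · rintro (h1 | ⟨h1, -⟩)
      · have := (cap_mem_level h1).1
        simp only at this
        omega
      · exact h1
    · exact fun h1 => Or.inr ⟨h1, Or.inl le_rfl⟩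
  · intro u hu
    rcases verts_low hE.adj hV hu with ⟨h1, h2⟩ | rfl | rfl
    · omega
    · exact le_rfl
    · exact le_rfl

theorem isUpp_upp (hE : IsPolygon E) (hV : IsV0 E k) : IsUpp (upp E k) k := by
  refine ⟨⟨⟨_, cap_mem_upp⟩, ?_, ?_, ?_⟩, ?_, cap_mem_upp, ?_⟩
  · intro u v huv
    rw [mem_upp'] at huv
    rcases huv with h1 | ⟨h1, -⟩
    · rcases cap_levels h1 with ⟨rfl, rfl⟩ | ⟨rfl, rfl⟩ <;> simp [Adj]
    · exact hE.adj u v h1
  · intro u hu
    rcases verts_upp hE.adj hV hu with ⟨h1, h2⟩ | rfl | rfl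
    · rw [nbr_upp_part hE.adj h2]
      exact hE.deg u h1
    · rw [nbr_upp_bot0 hE.adj hV, ncard_pair]
      simp
    · rw [nbr_upp_bot1 hE.adj hV, ncard_pair]
      simp
  · intro u hu v hv
    exact (reach_upp hE hV hu).trans (rtg_symm (reach_upp hE hV hv))
  · rw [isV0_iff]
    intro a b
    rw [← isV0_iff.1 hV a b, mem_upp']
    constructor
    · rintro (h1 | ⟨h1, -⟩)
      · have := (cap_mem_level h1).2
        simp only at this
        omega
      · exact h1
    · exact fun h1 => Or.inr ⟨h1, Or.inr le_rfl⟩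
  · intro u hu
    rcases verts_upp hE.adj hV hu with ⟨h1, h2⟩ | rfl | rfl
    · omega
    · exact le_rfl
    · exact le_rfl

theorem glue_low_upp (E : Finset (Sym2 P3)) (k : ℤ) : glue (low E k) (upp E k) k = E := by
  refine edge_ext fun u v => ?_
  rw [mem_glue', mem_low', mem_upp']
  constructor
  · rintro (⟨h1 | ⟨h1, -⟩, h2⟩ | ⟨h1 | ⟨h1, -⟩, h2⟩)
    · exact absurd h1 h2
    · exact h1
    · exact absurd h1 h2
    · exact h1
  · intro h
    rcases le_or_gt u.2.2 k with h1 | h1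
    · refine Or.inl ⟨Or.inr ⟨h, Or.inl h1⟩, fun h2 => ?_⟩
      have := (cap_mem_level h2).1
      omega
    · refine Or.inr ⟨Or.inr ⟨h, Or.inl (by omega)⟩, fun h2 => ?_⟩
      have := (cap_mem_level h2).1
      omega

/-- (T2) Cutting at a `V0` section. -/
theorem cutStatement : CutStatement := fun E k hE hV =>
  ⟨isLow_low hE hV, isUpp_upp hE hV, glue_low_upp E k⟩

end Pool.Agent.KTube
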