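import Pool.Agent.KTube.Remove

/-! The type of a composition depends only on the parity of an unknotted middle block. -/

set_option autoImplicit false

open Set Topology

namespace Pool.Agent.KTube

open Pool.Agent.LK

variable {A B X M : Finset (Sym2 P3)} {k m : ℤ}

/-! ### Stretching a composition -/

theorem isUpp_stretch (hB : IsUpp B k) (hkm : k ≤ m) (h : ℕ) : IsUpp (stretch B m h) k := by
  refine ⟨isPolygon_stretch hB.1, ?_, ?_, ?_⟩
  · unfold IsV0
    rw [cross_stretch_low hkm]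
    exact hB.2.1
  · exact mem_stretch.2 (Or.inl ⟨hB.2.2.1, hkm, hkm⟩)
  · intro u hu
    rcases verts_stretch hu with ⟨h1, -⟩ | ⟨-, h2⟩ | ⟨-, h2, -⟩
    · exact hB.2.2.2 u h1
    · omega
    · omega

theorem stretch_glue (hA : IsLow A k) (hX : IsUpp X k) (hkm : k ≤ m) (h : ℕ) :
    stretch (glue A X k) m h = glue A (stretch X m h) k := by
  have hX' := isUpp_stretch hX hkm h
  refine edge_ext fun u v => ?_
  rw [mem_stretch, mem_glue hA hX', mem_glue hA hX, mem_glue hA hX]
  have z1 : ∀ w : P3, (w - (0, 0, (h : ℤ))).2.2 = w.2.2 - h := fun w => rfl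
  rw [z1, z1]
  constructor
  · rintro (⟨h1, h2, h3⟩ | ⟨h1, h2, h3⟩ | ⟨a, b, i, hi, h1, h2⟩)
    · rcases h1 with h1 | ⟨h1, h4, h5⟩ | h1 | h1
      · exact Or.inl h1
      · exact Or.inr (Or.inl ⟨mem_stretch.2 (Or.inl ⟨h1, h2, h3⟩), h4, h5⟩)
      · exact Or.inr (Or.inr (Or.inl h1))
      · exact Or.inr (Or.inr (Or.inr h1))
    · rcases h1 with ⟨-, h4, h5⟩ | ⟨h1, h4, h5⟩ | h1 | h1
      · omega
      · refine Or.inr (Or.inl ⟨mem_stretch.2 (Or.inr (Or.inl ⟨h1, h2, h3⟩)), ?_, ?_⟩) <;> omega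
      · exfalso
        rcases leg0_levels h1 with ⟨h4, -⟩ | ⟨-, h4⟩
        · have := congrArg (fun p : P3 => p.2.2) h4
          simp only [z1] at this
          omega
        · have := congrArg (fun p : P3 => p.2.2) h4
          simp only [z1] at this
          omega
      · exfalso
        rcases leg1_levels h1 with ⟨h4, -⟩ | ⟨-, h4⟩
        · have := congrArg (fun p : P3 => p.2.2) h4
          simp only [z1] at this
          omega
        · have := congrArg (fun p : P3 => p.2.2) h4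
          simp only [z1] at this
          omega
    · rcases (mem_glue hA hX).1 h1 with ⟨-, -, h5⟩ | ⟨h1, h4, h5⟩ | h1 | h1
      · simp only at h5
        omega
      · simp only at h4
        refine Or.inr (Or.inl ⟨mem_stretch.2 (Or.inr (Or.inr ⟨a, b, i, hi, h1, h2⟩)), ?_⟩)
        rw [Sym2.eq_iff] at h2
        rcases h2 with ⟨rfl, rfl⟩ | ⟨rfl, rfl⟩ <;> constructor <;> simp only <;> omega
      · unfold leg0 at h1
        simp only [Sym2.eq_iff, Prod.mk.injEq] at h1
        have h6 : a = 0 ∧ b = 0 ∧ m = k := by omega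
        obtain ⟨rfl, rfl, rfl⟩ := h6
        rcases Nat.eq_zero_or_pos i with rfl | hpos
        · right; right; left
          rw [h2]
          simp [leg0]
        · refine Or.inr (Or.inl ⟨mem_stretch.2 (Or.inr (Or.inr ⟨0, 0, i, hi, ?_, h2⟩)), ?_⟩)
          · exact hX.2.1.leg0_mem
          · rw [Sym2.eq_iff] at h2
            rcases h2 with ⟨rfl, rfl⟩ | ⟨rfl, rfl⟩ <;> constructor <;> simp only <;> omega
      · unfold leg1 at h1
        simp only [Sym2.eq_iff, Prod.mk.injEq] at h1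
        have h6 : a = 1 ∧ b = 0 ∧ m = k := by omega
        obtain ⟨rfl, rfl, rfl⟩ := h6
        rcases Nat.eq_zero_or_pos i with rfl | hpos
        · right; right; right
          rw [h2]
          simp [leg1]
        · refine Or.inr (Or.inl ⟨mem_stretch.2 (Or.inr (Or.inr ⟨1, 0, i, hi, ?_, h2⟩)), ?_⟩)
          · exact hX.2.1.leg1_mem
          · rw [Sym2.eq_iff] at h2
            rcases h2 with ⟨rfl, rfl⟩ | ⟨rfl, rfl⟩ <;> constructor <;> simp only <;> omega
  · rintro (⟨h1, h2, h3⟩ | ⟨h1, h2, h3⟩ | h1 | h1)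
    · exact Or.inl ⟨Or.inl ⟨h1, h2, h3⟩, by omega, by omega⟩
    · rcases mem_stretch.1 h1 with ⟨h4, h5, h6⟩ | ⟨h4, h5, h6⟩ | ⟨a, b, i, hi, h4, h5⟩
      · exact Or.inl ⟨Or.inr (Or.inl ⟨h4, h2, h3⟩), h5, h6⟩
      · refine Or.inr (Or.inl ⟨Or.inr (Or.inl ⟨h4, ?_, ?_⟩), h5, h6⟩) <;> omega
      · refine Or.inr (Or.inr ⟨a, b, i, hi, (mem_glue hA hX).2 ?_, h5⟩)
        rcases hX.cases h4 with ⟨h6, h7⟩ | h6 | h6 | h6
        · exact Or.inr (Or.inl ⟨h4, h6, h7⟩)
        · exact Or.inr (Or.inr (Or.inl h6))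
        · exact Or.inr (Or.inr (Or.inr h6))
        · exfalso
          have h7 := cap_mem_level h6
          simp only at h7
          omega
    · rcases hkm.lt_or_eq with hlt | rfl
      · refine Or.inl ⟨Or.inr (Or.inr (Or.inl h1)), ?_⟩
        rcases leg0_levels h1 with ⟨rfl, rfl⟩ | ⟨rfl, rfl⟩ <;> constructor <;> simp only <;> omega
      · refine Or.inr (Or.inr ⟨0, 0, 0, by omega,
          (mem_glue hA hX).2 (Or.inr (Or.inr (Or.inl rfl))), ?_⟩)
        rw [h1]
        simp [leg0]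
    · rcases hkm.lt_or_eq with hlt | rfl
      · refine Or.inl ⟨Or.inr (Or.inr (Or.inr h1)), ?_⟩
        rcases leg1_levels h1 with ⟨rfl, rfl⟩ | ⟨rfl, rfl⟩ <;> constructor <;> simp only <;> omega
      · refine Or.inr (Or.inr ⟨1, 0, 0, by omega,
          (mem_glue hA hX).2 (Or.inr (Or.inr (Or.inr rfl))), ?_⟩)
        rw [h1]
        simp [leg1]

/-- The edges of an upper part whose legs have been stretched by two levels. -/
theorem stretch2_cases (hB : IsUpp B m) {u v : P3} (huv : s(u, v) ∈ stretch B m 2) :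
    s(u, v) = cap m ∨ (∃ j : ℤ, m ≤ j ∧ j ≤ m + 2 ∧ (s(u, v) = leg0 j ∨ s(u, v) = leg1 j)) ∨
      (m + 3 ≤ u.2.2 ∧ m + 3 ≤ v.2.2) := by
  rcases mem_stretch.1 huv with ⟨h1, h2, h3⟩ | ⟨-, h2, h3⟩ | ⟨a, b, i, hi, h1, h2⟩
  · rcases hB.cases h1 with ⟨h4, -⟩ | h4 | h4 | h4
    · omega
    · exact Or.inr (Or.inl ⟨m, le_rfl, by omega, Or.inl h4⟩)
    · exact Or.inr (Or.inl ⟨m, le_rfl, by omega, Or.inr h4⟩)
    · exact Or.inl h4
  · right; right
    push_cast at h2 h3
    constructor <;> omega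
  · right; left
    refine ⟨m + i, by omega, by omega, ?_⟩
    rcases (isV0_iff.1 hB.2.1 a b).1 h1 with ⟨rfl, rfl⟩ | ⟨rfl, rfl⟩
    · left; rw [h2]; rfl
    · right; rw [h2]; rfl

theorem legs_mem_stretch2 (hB : IsUpp B m) {j : ℤ} (h1 : m ≤ j) (h2 : j ≤ m + 2) :
    leg0 j ∈ stretch B m 2 ∧ leg1 j ∈ stretch B m 2 := by
  have e : ((j - m).toNat : ℤ) = j - m := by omega
  have e2 : m + ((j - m).toNat : ℤ) = j := by omega
  constructor
  · refine mem_stretch.2 (Or.inr (Or.inr ⟨0, 0, (j - m).toNat, by omega, hB.2.1.leg0_mem, ?_⟩))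
    rw [e2]
  · refine mem_stretch.2 (Or.inr (Or.inr ⟨1, 0, (j - m).toNat, by omega, hB.2.1.leg1_mem, ?_⟩))
    rw [e2]

theorem mem_leg_levels {j : ℤ} {u v : P3} {x : R3} (h : s(u, v) = leg0 j ∨ s(u, v) = leg1 j)
    (hx : x ∈ segment ℝ (toR u) (toR v)) : x ∈ legR j := by
  rcases h with h | h
  · exact mem_legR.2 (Or.inl (seg_of_eq h hx))
  · exact mem_legR.2 (Or.inr (seg_of_eq h hx))

/-! ### The body of a composition whose legs are long -/

/-- The part above the level `m + 2`. -/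
def topR (B : Finset (Sym2 P3)) (m : ℤ) : Set R3 := {p | p ∈ body B ∧ (m : ℝ) + 2 ≤ p.2.2}

theorem body_long (hM : IsLow M m) (hB : IsUpp B m) :
    body (glue M (stretch B m 2) m) =
      (lowR M m ∪ legR m) ∪ topR (stretch B m 2) m ∪ legR (m + 1) := by
  rw [body_glue hM (isUpp_stretch hB le_rfl 2)]
  ext x
  constructor
  · rintro (hx | ⟨⟨u, v, huv, hx⟩, hz⟩)
    · exact Or.inl (Or.inl hx)
    · rcases stretch2_cases hB huv with h1 | ⟨j, h1, h2, h3⟩ | ⟨h1, h2⟩
      · exfalso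
        have := (mem_capR.1 (seg_of_eq h1 hx)).2.2.2
        linarith
      · have h4 := mem_leg_levels h3 hx
        rcases h1.lt_or_eq with h5 | rfl
        · rcases h2.lt_or_eq with h6 | rfl
          · have : j = m + 1 := by omega
            rw [this] at h4
            exact Or.inr h4
          · refine Or.inl (Or.inr ⟨⟨u, v, huv, hx⟩, ?_⟩)
            have := h4.2.2.1
            push_cast at this
            linarith
        · right
          have h5 := h4.2.2.2
          refine ⟨h4.1, h4.2.1, ?_, ?_⟩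
          · push_cast
            linarith
          · push_cast
            linarith
      · refine Or.inl (Or.inr ⟨⟨u, v, huv, hx⟩, ?_⟩)
        have h3 : ((m + 3 : ℤ) : ℝ) ≤ x.2.2 :=
          seg_bounds' hx (by exact_mod_cast h1) (by exact_mod_cast h2)
        push_cast at h3
        linarith
  · rintro ((hx | hx) | hx)
    · exact Or.inl hx
    · right
      refine ⟨hx.1, ?_⟩
      have := hx.2
      linarith
    · right
      obtain ⟨h1, h2⟩ := legs_mem_stretch2 hB (j := m + 1) (by omega) (by omega)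
      have hz := hx.2.2.1
      push_cast at hz
      refine ⟨?_, by linarith⟩
      rcases mem_legR.1 hx with h | h
      · exact ⟨_, _, h1, h⟩
      · exact ⟨_, _, h2, h⟩

theorem body_sdiff_cap (hM : IsLow M m) :
    body (M \ {s((0, 0, m + 1), (0 + 1, 0, m + 1))}) = lowR M m ∪ legR m := by
  have hc : s(((0, 0, m + 1) : P3), (0 + 1, 0, m + 1)) = cap (m + 1) := rfl
  rw [hc]
  ext x
  constructor
  · rintro ⟨u, v, huv, hx⟩
    rw [Finset.mem_sdiff, Finset.mem_singleton] at huv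
    rcases hM.cases huv.1 with ⟨h1, h2⟩ | h1 | h1 | h1
    · exact Or.inl ⟨⟨u, v, huv.1, hx⟩, seg_bounds hx (by exact_mod_cast h1)
        (by exact_mod_cast h2)⟩
    · exact Or.inr (mem_leg_levels (Or.inl h1) hx)
    · exact Or.inr (mem_leg_levels (Or.inr h1) hx)
    · exact absurd h1 huv.2
  · rintro (⟨⟨u, v, huv, hx⟩, hz⟩ | hx)
    · refine ⟨u, v, ?_, hx⟩
      rw [Finset.mem_sdiff, Finset.mem_singleton]
      refine ⟨huv, fun h1 => ?_⟩
      have := (mem_capR.1 (seg_of_eq h1 hx)).2.2.2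
      push_cast at this
      linarith
    · rcases mem_legR.1 hx with h | h
      · refine ⟨_, _, ?_, h⟩
        rw [Finset.mem_sdiff, Finset.mem_singleton]
        exact ⟨hM.2.1.leg0_mem, fun h1 => by simp [cap] at h1⟩
      · refine ⟨_, _, ?_, h⟩
        rw [Finset.mem_sdiff, Finset.mem_singleton]
        exact ⟨hM.2.1.leg1_mem, fun h1 => by simp [cap] at h1⟩

theorem strands_eq_legR (m : ℤ) : strands 0 0 ((m : ℝ) + 1) = legR (m + 1) := by
  ext p
  simp only [strands, legR, mem_ofPred_eq]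
  push_cast
  constructor
  · rintro ⟨h1, h2, h3, h4⟩
    refine ⟨?_, h1, h3, h4⟩
    rcases eq_or_eq_neg_of_abs_eq h2 with h | h
    · right; linarith
    · left; linarith
  · rintro ⟨h1, h2, h3, h4⟩
    refine ⟨h2, ?_, h3, h4⟩
    rcases h1 with h | h <;> rw [h] <;> norm_num

/-- An unknotted lower part with the tent above its legs is unknotted. -/
theorem unk_tent (hM : IsLow M m) (hU : Unknotted M) :
    Unk ((lowR M m ∪ legR m) ∪ tent 0 0 ((m : ℝ) + 1)) := by
  have htop : ∀ a : ℤ, ((a, 0, m + 1 + 1) : P3) ∉ verts M := by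
    intro a h
    have := hM.2.2.2 _ h
    simp only at this
    omega
  obtain ⟨φ, hφ⟩ := exists_tent_homeo M 0 0 (m + 1) 1 hM.1.adj (Or.inl rfl) hM.2.2.1
    (htop 0) (htop (0 + 1))
  rw [body_sdiff_cap hM] at hφ
  have t1 : toR (0, 0, m + 1) = (((0 : ℝ), (0 : ℝ), (m : ℝ) + 1) : R3) := by simp [toR]
  have t2 : toR (0 + 1, 0, m + 1) = (((0 : ℝ) + 1, (0 : ℝ), (m : ℝ) + 1) : R3) := by simp [toR]
  have t3 : ((((0 : ℤ) : ℝ) + 1 / 2, ((0 : ℤ) : ℝ), ((m + 1 : ℤ) : ℝ) + ((1 : ℤ) : ℝ) / 2) : R3) =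
      ((0 : ℝ) + 1 / 2, (0 : ℝ), (m : ℝ) + 1 + 1 / 2) := by simp
  rw [t1, t2, t3, tent_eq] at hφ
  rw [← hφ, unk_homeo_iff]
  exact hU

/-! ### Removing the block -/

/-- What remains when the block has been removed. -/
noncomputable def restR (B : Finset (Sym2 P3)) (m c : ℤ) (J : Set R3) : Set R3 :=
  refl3 '' ((topR (stretch B m 2) m \ cht (c, 0, m + 2) (0, 0, 1) (1, 0, 0) '' Bx) ∪
    cht (c, 0, m + 2) (0, 0, 1) (1, 0, 0) '' J) ∪ tent 0 0 (-((m : ℝ) + 1 + 1))

theorem cht_up (c m : ℤ) (p : R3) : cht (c, 0, m + 2) (0, 0, 1) (1, 0, 0) p =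
    (c + p.2.1 / 32, p.2.2 / 32, m + 2 + (1 / 2 + p.1 / 32)) := by
  simp [cht, crs]

theorem remove_block (hM : IsLow M m) (hB : IsUpp B m) (hU : Unknotted M) (c : ℤ) {J : Set R3}
    (hJ : J ⊆ Bx) :
    EqvS (insr (body (glue M (stretch B m 2) m)) (cht (c, 0, m + 2) (0, 0, 1) (1, 0, 0)) J)
      (restR B m c J) := by
  set σ := cht (c, 0, m + 2) (0, 0, 1) (1, 0, 0) with hσ
  have hbox : ∀ p ∈ σ '' Bx, (m : ℝ) + 2 + 15 / 32 ≤ p.2.2 := by
    rintro _ ⟨q, hq, rfl⟩
    rw [hσ, cht_up]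
    have := (abs_le.1 hq.1).1
    simp only
    linarith
  have e1 : insr (body (glue M (stretch B m 2) m)) σ J = (lowR M m ∪ legR m) ∪
      ((topR (stretch B m 2) m \ σ '' Bx) ∪ σ '' J) ∪ strands 0 0 ((m : ℝ) + 1) := by
    unfold insr
    rw [body_long hM hB, strands_eq_legR, union_sdiff_distrib, union_sdiff_distrib]
    have e2 : (lowR M m ∪ legR m) \ σ '' Bx = lowR M m ∪ legR m := by
      rw [sdiff_eq_left, Set.disjoint_left]
      rintro p hp hb
      have h1 := hbox p hb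
      rcases hp with hp | hp
      · have := hp.2
        linarith
      · have := hp.2.2.2
        linarith
    have e3 : legR (m + 1) \ σ '' Bx = legR (m + 1) := by
      rw [sdiff_eq_left, Set.disjoint_left]
      rintro p hp hb
      have h1 := hbox p hb
      have := hp.2.2.2
      push_cast at this
      linarith
    rw [e2, e3]
    ext p
    simp only [mem_union]
    tauto
  rw [e1]
  unfold restR
  refine remove ?_ ?_ ?_ (unk_tent hM hU)
  · obtain ⟨N, hN⟩ := (isCompact_body M).isBounded.exists_norm_le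
    refine ⟨N, fun p hp => hN p ?_⟩
    rw [body_low hM]
    exact Or.inl hp
  · rintro p (hp | hp)
    · have := hp.2
      linarith
    · exact hp.2.2.2
  · rintro p (hp | hp)
    · have := hp.1.2
      linarith
    · have := hbox p (image_mono hJ hp)
      linarith

/-! ### Sliding the pattern through the block -/

theorem Sld.refl (X : Set R3) (σ : R3 → R3) : Sld X σ σ :=
  ⟨Homeomorph.refl _, by simp, fun _ _ => rfl⟩

theorem Sld.trans {X : Set R3} {σ τ υ : R3 → R3} (h : Sld X σ τ) (h' : Sld X τ υ) :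
    Sld X σ υ := by
  obtain ⟨φ, h1, h2⟩ := h
  obtain ⟨ψ, h3, h4⟩ := h'
  refine ⟨φ.trans ψ, ?_, fun p hp => ?_⟩
  · have : (φ.trans ψ) '' X = ψ '' (φ '' X) := by rw [image_image]; rfl
    rw [this, h1, h3]
  · change ψ (φ (σ p)) = υ p
    rw [h2 p hp, h4 p hp]

theorem Sld.eqv {X : Set R3} {σ τ : R3 → R3} (h : Sld X σ τ) {J : Set R3} (hJ : J ⊆ Bx) :
    Eqv (insr X σ J) (insr X τ J) := by
  obtain ⟨φ, h1, h2⟩ := h
  have h3 : ∀ S ⊆ Bx, φ '' (σ '' S) = τ '' S := by
    intro S hS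
    rw [image_image]
    exact image_congr fun p hp => h2 p (hS hp)
  refine ⟨φ, ?_⟩
  unfold insr
  rw [image_union, image_sdiff φ.injective, h1, h3 _ le_rfl, h3 _ hJ]

/-- The pattern can be brought to the directed edge `u, v`. -/
def At (Q : Finset (Sym2 P3)) (σ : R3 → R3) (u v : P3) : Prop :=
  ∃ b, Frm (v - u) b (crs (v - u) b) ∧ Sld (body Q) σ (cht u (v - u) b)

theorem At.step (hS : SlideStatement) {Q : Finset (Sym2 P3)} (hQ : IsPolygon Q) {σ : R3 → R3}
    {u v w : P3} (h : At Q σ u v) (huv : s(u, v) ∈ Q) (hvw : s(v, w) ∈ Q) (huw : u ≠ w) :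
    At Q σ v w := by
  obtain ⟨b, h1, h2⟩ := h
  obtain ⟨b', h3, h4⟩ := hS Q u v w b hQ huv hvw huw h1
  exact ⟨b', h3, h2.trans h4⟩

/-- A shortest walk. -/
theorem exists_short {r : P3 → P3 → Prop} {x y : P3} (h : Relation.ReflTransGen r x y) :
    ∃ (n : ℕ) (p : ℕ → P3), p 0 = x ∧ p n = y ∧ (∀ i < n, r (p i) (p (i + 1))) ∧
      ∀ i, i + 2 ≤ n → p i ≠ p (i + 2) := by
  classical
  have hex : ∃ n, ∃ p : ℕ → P3, p 0 = x ∧ p n = y ∧ ∀ i < n, r (p i) (p (i + 1)) := by
    induction h with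
    | refl => exact ⟨0, fun _ => x, rfl, rfl, by simp⟩
    | @tail b c _ hbc ih =>
      obtain ⟨n, p, h1, h2, h3⟩ := ih
      refine ⟨n + 1, fun i => if i ≤ n then p i else c, by simp [h1], by simp, ?_⟩
      intro i hi
      rcases Nat.lt_succ_iff_lt_or_eq.1 hi with h4 | rfl
      · simp only [if_pos h4.le, if_pos (Nat.succ_le_of_lt h4)]
        exact h3 i h4
      · simp only [le_refl, if_true, Nat.not_succ_le_self, if_false, h2]
        exact hbc
  obtain ⟨p, h1, h2, h3⟩ := Nat.find_spec hex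
  refine ⟨Nat.find hex, p, h1, h2, h3, ?_⟩
  intro i hi heq
  set n := Nat.find hex with hn
  refine Nat.find_min hex (m := n - 2) (by omega)
    ⟨fun j => if j ≤ i then p j else p (j + 2), by simp [h1], ?_, ?_⟩
  · rcases Nat.lt_or_ge i (n - 2) with h4 | h4
    · simp only [if_neg (by omega : ¬ n - 2 ≤ i)]
      have : n - 2 + 2 = n := by omega
      rw [this, h2]
    · have h5 : n - 2 = i := by omega
      simp only [h5, le_refl, if_true]
      rw [heq]
      have : i + 2 = n := by omega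
      rw [this, h2]
  · intro j hj
    rcases Nat.lt_trichotomy j i with h4 | rfl | h4
    · simp only [if_pos h4.le, if_pos (Nat.succ_le_of_lt h4)]
      exact h3 j (by omega)
    · simp only [le_refl, if_true, Nat.not_succ_le_self, if_false]
      rw [heq]
      exact h3 (j + 2) (by omega)
    · simp only [if_neg (by omega : ¬ j ≤ i), if_neg (by omega : ¬ j + 1 ≤ i)]
      exact h3 (j + 2) (by omega)

/-- The strand of the block that starts in the column `1` ends in the column `c`. -/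
def Rch (M : Finset (Sym2 P3)) (k m c : ℤ) : Prop :=
  Relation.ReflTransGen (fun a b => s(a, b) ∈ M ∧ s(a, b) ≠ cap k ∧ s(a, b) ≠ cap (m + 1))
    (1, 0, k) (c, 0, m + 1)

theorem even_iff_rch : Even M k m ↔ Rch M k m 1 := Iff.rfl

/-- The pattern slides from the cap at the bottom to the leg above the block. -/
theorem slide_through (hS : SlideStatement) (hT : TurnStatement) {c : ℤ}
    (hM : IsBlock M k m) (hB : IsUpp B m) (hc : c = 0 ∨ c = 1) (hR : Rch M k m c) :
    Sld (body (glue M (stretch B m 2) m)) (cht (0, 0, k) (1, 0, 0) (0, 1, 0))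
      (cht (c, 0, m + 2) (0, 0, 1) (1, 0, 0)) := by
  obtain ⟨hkm, hMu, hMl⟩ := hM
  set Q := glue M (stretch B m 2) m with hQ
  have hB2 : IsUpp (stretch B m 2) m := isUpp_stretch hB le_rfl 2
  have hP : IsPolygon Q := isPolygon_glue hMl hB2
  set σ := cht (0, 0, k) (1, 0, 0) (0, 1, 0) with hσ
  have memM : ∀ {e : Sym2 P3}, e ∈ M → e ≠ cap (m + 1) → e ∈ Q := by
    intro e h1 h2
    exact mem_glue'.2 (Or.inl ⟨h1, h2⟩)
  have memB : ∀ {e : Sym2 P3}, e ∈ stretch B m 2 → e ≠ cap m → e ∈ Q := by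
    intro e h1 h2
    exact mem_glue'.2 (Or.inr ⟨h1, h2⟩)
  have hstart : At Q σ (0, 0, k) (1, 0, k) := by
    refine ⟨(0, 1, 0), ?_, ?_⟩
    · have : ((1, 0, k) : P3) - (0, 0, k) = (1, 0, 0) := by
        refine Prod.ext ?_ (Prod.ext ?_ ?_) <;> simp
      rw [this]
      decide
    · have : ((1, 0, k) : P3) - (0, 0, k) = (1, 0, 0) := by
        refine Prod.ext ?_ (Prod.ext ?_ ?_) <;> simp
      rw [this]
      exact Sld.refl _ _
  have hcap : s(((0, 0, k) : P3), (1, 0, k)) ∈ Q := by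
    refine memM hMu.2.2.1 ?_
    intro h
    have := (cap_mem_level h).1
    simp only at this
    omega
  obtain ⟨n, p, hp0, hpn, hpe, hpb⟩ := exists_short hR
  have hn : 0 < n := by
    rcases Nat.eq_zero_or_pos n with rfl | h
    · rw [hp0] at hpn
      simp only [Prod.mk.injEq] at hpn
      omega
    · exact h
  have hedge : ∀ i < n, s(p i, p (i + 1)) ∈ Q := fun i hi => memM (hpe i hi).1 (hpe i hi).2.2
  -- walk along the block
  have hwalk : ∀ i, i < n → At Q σ (p i) (p (i + 1)) := by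
    intro i
    induction i with
    | zero =>
      intro hi
      have h1 := hedge 0 hi
      rw [hp0] at h1 ⊢
      refine hstart.step hS hP hcap h1 ?_
      intro h2
      have h3 := (hpe 0 hi).2.1
      rw [hp0, ← h2, Sym2.eq_swap] at h3
      exact h3 rfl
    | succ i ih =>
      intro hi
      exact (ih (by omega)).step hS hP (hedge i (by omega)) (hedge (i + 1) hi)
        (hpb i (by omega))
  have hvM : ∀ i < n, p i ∈ verts M := fun i hi => ⟨_, (hpe i hi).1⟩
  -- the last edge in the block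
  obtain ⟨n', rfl⟩ : ∃ n', n = n' + 1 := ⟨n - 1, by omega⟩
  have h1 := hwalk n' (by omega)
  rw [hpn] at h1
  have e1 := hedge n' (by omega)
  rw [hpn] at e1
  have hleg : ∀ j : ℤ, m ≤ j → j ≤ m + 2 → s(((c, 0, j) : P3), (c, 0, j + 1)) ∈ Q := by
    intro j hj hj'
    obtain ⟨h2, h3⟩ := legs_mem_stretch2 hB hj hj'
    rcases hc with rfl | rfl
    · exact memB h2 fun h => absurd h.symm (cap_ne_leg0 _ _)
    · exact memB h3 fun h => absurd h.symm (cap_ne_leg1 _ _)
  have e2 := hleg (m + 1) (by omega) (by omega)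
  have h2 : At Q σ (c, 0, m + 1) (c, 0, m + 1 + 1) := by
    refine h1.step hS hP e1 e2 ?_
    intro h3
    have h4 := hMl.2.2.2 _ (hvM n' (by omega))
    rw [h3] at h4
    simp only at h4
    omega
  have e3 := hleg (m + 1 + 1) (by omega) (by omega)
  have h3 : At Q σ (c, 0, m + 1 + 1) (c, 0, m + 1 + 1 + 1) := by
    refine h2.step hS hP e2 e3 ?_
    simp only [ne_eq, Prod.mk.injEq, true_and]
    omega
  obtain ⟨b, hb, hsl⟩ := h3
  have e4 : ((c, 0, m + 1 + 1 + 1) : P3) - (c, 0, m + 1 + 1) = (0, 0, 1) := by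
    simp
  have e5 : ((c, 0, m + 1 + 1) : P3) = (c, 0, m + 2) := by
    simp only [Prod.mk.injEq, true_and]
    omega
  rw [e4] at hb
  rw [e4, e5] at hsl
  refine hsl.trans (hT Q _ _ _ _ hP ?_ hb (by decide))
  have h4 := hleg (m + 2) (by omega) (by omega)
  have e6 : ((c, 0, m + 2) : P3) + (0, 0, 1) = (c, 0, m + 2 + 1) := by simp
  rw [e6]
  exact h4

/-! ### The parity of a block -/

theorem exists_rch (hM : IsBlock M k m) : Rch M k m 0 ∨ Rch M k m 1 := by
  obtain ⟨hkm, hMu, hMl⟩ := hM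
  obtain ⟨n, g, hc, hg0, hg1⟩ := exists_cyc hMu.1 hMu.2.2.1
  obtain ⟨j, hj, hje⟩ := (hc.edge _ _).1 hMl.2.2.1
  have hj0 : j ≠ 0 := by
    rintro rfl
    rw [hg0] at hje
    have hje' : s(((0, 0, m + 1) : P3), (1, 0, m + 1)) = s((0, 0, k), (1, 0, k)) := by
      rw [hje, zero_add, hg1]
    have := (cap_mem_level (k := k) hje').1
    simp only at this
    omega
  have hreach : ∀ i, i + 1 ≤ j → Relation.ReflTransGen
      (fun a b => s(a, b) ∈ M ∧ s(a, b) ≠ cap k ∧ s(a, b) ≠ cap (m + 1)) (1, 0, k) (g (i + 1)) := by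
    intro i
    induction i with
    | zero =>
      intro _
      rw [zero_add, hg1]
    | succ i ih =>
      intro hi
      refine (ih (by omega)).tail ⟨hc.mem_edge (by omega), ?_, ?_⟩
      · intro h
        have h2 : s(g (i + 1), g (i + 1 + 1)) = s(g 0, g (0 + 1)) := by
          rw [h, hg0, zero_add, hg1]
          rfl
        have := hc.edge_inj (by omega) (by omega) h2
        omega
      · intro h
        have h2 : s(g (i + 1), g (i + 1 + 1)) = s(g j, g (j + 1)) := by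
          rw [h, ← hje]
          rfl
        have := hc.edge_inj (by omega) hj h2
        omega
  obtain ⟨j', rfl⟩ : ∃ j', j = j' + 1 := ⟨j - 1, by omega⟩
  have h1 := hreach j' le_rfl
  rw [Sym2.eq_iff] at hje
  rcases hje with ⟨h2, -⟩ | ⟨-, h2⟩
  · left
    unfold Rch
    rw [h2]
    exact h1
  · right
    unfold Rch
    rw [h2]
    exact h1

/-- **The type of a composition depends only on the parity of an unknotted middle block.** -/
theorem middleStatement (hS : SlideStatement) (hT : TurnStatement) : MiddleStatement := by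
  intro A B M M' k k' m hA hM hM' hB hU hU' hpar
  obtain ⟨J, hJ, hang'⟩ := hang A k
  obtain ⟨c, hc, hR, hR'⟩ : ∃ c : ℤ, (c = 0 ∨ c = 1) ∧ Rch M k m c ∧ Rch M' k' m c := by
    by_cases h : Even M k m
    · exact ⟨1, Or.inr rfl, h, hpar.1 h⟩
    · refine ⟨0, Or.inl rfl, ?_, ?_⟩
      · exact (exists_rch hM).resolve_right h
      · exact (exists_rch hM').resolve_right fun h' => h (hpar.2 h')
  have key : ∀ (M₁ : Finset (Sym2 P3)) (k₁ : ℤ), IsBlock M₁ k₁ m → Unknotted M₁ →
      Rch M₁ k₁ m c → IsLow (shift (0, 0, k₁ - k) A) k₁ →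
      EqvS (body (glue (shift (0, 0, k₁ - k) A) (glue M₁ B m) k₁)) (restR B m c J) ∧
      IsPolygon (glue (shift (0, 0, k₁ - k) A) (glue M₁ B m) k₁) := by
    intro M₁ k₁ hM₁ hU₁ hR₁ hA₁
    have hX : IsUpp (glue M₁ B m) k₁ := (isUpp_glue hM₁.2.2 hB hM₁.1).2 hM₁.2.1
    have hP := isPolygon_glue hA₁ hX
    refine ⟨?_, hP⟩
    obtain ⟨hP2, φ, hφ⟩ := stretchStatement _ m 2 hP
    rw [stretch_glue hA₁ hX hM₁.1.le, stretch_glue hM₁.2.2 hB le_rfl] at hφ
    have hX2 : IsUpp (glue M₁ (stretch B m 2) m) k₁ :=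
      (isUpp_glue hM₁.2.2 (isUpp_stretch hB le_rfl 2) hM₁.1).2 hM₁.2.1
    have e1 : EqvS (body (glue (shift (0, 0, k₁ - k) A) (glue M₁ B m) k₁))
        (body (glue (shift (0, 0, k₁ - k) A) (glue M₁ (stretch B m 2) m) k₁)) :=
      Eqv.toS ⟨φ, hφ⟩
    have hk : k + (k₁ - k) = k₁ := by ring
    have e2 := hang' (k₁ - k) (glue M₁ (stretch B m 2) m) (by rw [hk]; exact hA₁)
      (by rw [hk]; exact hX2)
    rw [hk] at e2
    have e3 := (slide_through hS hT hM₁ hB hc hR₁).eqv hJ
    exact ((e1.trans (Eqv.toS e2)).trans (Eqv.toS e3)).trans (remove_block hM₁.2.2 hB hU₁ c hJ)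
  have hA' : IsLow (shift (0, 0, k' - k) A) k' := by
    rw [isLow_shift]
    have : k' - (k' - k) = k := by ring
    rw [this]
    exact hA
  have h0 : shift (0, 0, k - k) A = A := by
    rw [sub_self]
    exact shift_zero A
  obtain ⟨e1, -⟩ := key M k hM hU hR (by rw [h0]; exact hA)
  obtain ⟨e2, hP2⟩ := key M' k' hM' hU' hR' hA'
  rw [h0] at e1
  obtain ⟨Φ, hΦ⟩ := e1.trans e2.symm
  exact restrict_homeo Φ hΦ

end Pool.Agent.KTube
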