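import Pool.Agent.KTube.SlideDefs
import Pool.Agent.KTube.Elem
import Pool.Agent.MP_aea6d5_co.PolyCyc

/-! Sliding a small box along a polygon over one vertex, and turning it around an edge. -/

set_option autoImplicit false

open Set

namespace Pool.Agent.KTube

open Pool.Agent.LK

/-! ### Cutoffs -/

/-- `1` for `|t| ≤ 1/8`, `0` for `|t| ≥ 3/16`. -/
noncomputable def cut (t : ℝ) : ℝ := max 0 (min 1 (3 - 16 * |t|))

/-- `1` for `|t| ≤ 1/4`, `0` for `|t| ≥ 1/2`. -/
noncomputable def wid (t : ℝ) : ℝ := max 0 (min 1 (2 - 4 * |t|))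

/-- `1` on `[-5/8, -3/8]`, `0` outside `(-7/8, 7/8)`, decreasing slowly. -/
noncomputable def tri (p : ℝ) : ℝ :=
  max 0 (min 1 (min (4 * (p + 7 / 8)) (4 / 5 * (7 / 8 - p))))

theorem cut_nonneg (t : ℝ) : 0 ≤ cut t := le_max_left _ _

theorem cut_le_one (t : ℝ) : cut t ≤ 1 := max_le zero_le_one (min_le_left _ _)

theorem cut_eq_one {t : ℝ} (h : |t| ≤ 1 / 8) : cut t = 1 := by
  rw [cut, min_eq_left (by linarith), max_eq_right zero_le_one]

theorem cut_eq_zero {t : ℝ} (h : 3 / 16 ≤ |t|) : cut t = 0 := by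
  rw [cut, max_eq_left]
  exact (min_le_right _ _).trans (by linarith)

theorem continuous_cut : Continuous cut := by
  unfold cut
  fun_prop

theorem wid_nonneg (t : ℝ) : 0 ≤ wid t := le_max_left _ _

theorem wid_le_one (t : ℝ) : wid t ≤ 1 := max_le zero_le_one (min_le_left _ _)

theorem wid_eq_one {t : ℝ} (h : |t| ≤ 1 / 4) : wid t = 1 := by
  rw [wid, min_eq_left (by linarith), max_eq_right zero_le_one]

theorem wid_eq_zero {t : ℝ} (h : 1 / 2 ≤ |t|) : wid t = 0 := by
  rw [wid, max_eq_left]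
  exact (min_le_right _ _).trans (by linarith)

theorem continuous_wid : Continuous wid := by
  unfold wid
  fun_prop

theorem wid_lip (x y : ℝ) (h : x ≤ y) : |wid y - wid x| ≤ 4 * (y - x) := by
  have h1 : |(|y| - |x|)| ≤ |y - x| := abs_abs_sub_abs_le y x
  rw [abs_of_nonneg (show 0 ≤ y - x by linarith)] at h1
  rw [abs_le] at h1
  unfold wid
  rw [abs_le]
  generalize |x| = s at *
  generalize |y| = t at *
  obtain ⟨h2, h3⟩ := h1
  simp only [max_def, min_def]
  split_ifs <;> constructor <;> linarith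

theorem tri_nonneg (t : ℝ) : 0 ≤ tri t := le_max_left _ _

theorem tri_le_one (t : ℝ) : tri t ≤ 1 := max_le zero_le_one (min_le_left _ _)

theorem tri_eq_one {t : ℝ} (h : |t + 1 / 2| ≤ 1 / 8) : tri t = 1 := by
  rw [abs_le] at h
  rw [tri, min_eq_left (le_min (by linarith) (by linarith)), max_eq_right zero_le_one]

theorem tri_eq_zero {t : ℝ} (h : 7 / 8 ≤ |t|) : tri t = 0 := by
  rw [tri, max_eq_left]
  rcases le_abs'.1 h with h1 | h1
  · exact (min_le_right _ _).trans ((min_le_left _ _).trans (by linarith))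
  · exact (min_le_right _ _).trans ((min_le_right _ _).trans (by linarith))

theorem continuous_tri : Continuous tri := by
  unfold tri
  fun_prop

theorem tri_slope (x y : ℝ) (h : x ≤ y) : tri x - 4 / 5 * (y - x) ≤ tri y := by
  unfold tri
  simp only [max_def, min_def]
  split_ifs <;> linarith

/-! ### The elementary slide -/

theorem gfac_bounds {lam : ℝ} (h0 : 0 ≤ lam) (h1 : lam ≤ 1) (q : ℝ × ℝ) :
    0 ≤ cut q.1 * cut q.2 * (1 - lam * q.1) ∧ cut q.1 * cut q.2 * (1 - lam * q.1) ≤ 19 / 16 := by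
  rcases lt_or_ge |q.1| (3 / 16) with h | h
  · rw [abs_lt] at h
    have h2 : 0 ≤ cut q.1 * cut q.2 := mul_nonneg (cut_nonneg _) (cut_nonneg _)
    have h3 : cut q.1 * cut q.2 ≤ 1 := mul_le_one₀ (cut_le_one _) (cut_nonneg _) (cut_le_one _)
    have h4 : 0 ≤ 1 - lam * q.1 := by nlinarith
    have h5 : 1 - lam * q.1 ≤ 19 / 16 := by nlinarith
    refine ⟨mul_nonneg h2 h4, ?_⟩
    calc cut q.1 * cut q.2 * (1 - lam * q.1) ≤ 1 * (1 - lam * q.1) :=
          mul_le_mul_of_nonneg_right h3 h4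
      _ ≤ 19 / 16 := by linarith
  · rw [cut_eq_zero h, zero_mul, zero_mul]
    norm_num

theorem exists_slideS (lam : ℝ) (h0 : 0 ≤ lam) (h1 : lam ≤ 1) : ∃ φ : R3 ≃ₜ R3, ∀ p : R3,
    φ p = (p.1 + cut p.2.1 * cut p.2.2 * (1 - lam * p.2.1) * tri p.1, p.2) := by
  refine exists_elemX (fun q => cut q.1 * cut q.2 * (1 - lam * q.1)) ?_ tri continuous_tri ?_ 2 ?_
  · have := continuous_cut
    fun_prop
  · intro q x y hxy
    have h2 := gfac_bounds h0 h1 q
    set c := cut q.1 * cut q.2 * (1 - lam * q.1) with hc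
    have h3 := tri_slope x y hxy.le
    simp only
    nlinarith [mul_le_mul_of_nonneg_left h3 h2.1]
  · intro q x
    have h2 := gfac_bounds h0 h1 q
    rw [abs_of_nonneg (mul_nonneg h2.1 (tri_nonneg _))]
    calc cut q.1 * cut q.2 * (1 - lam * q.1) * tri x
        ≤ cut q.1 * cut q.2 * (1 - lam * q.1) * 1 :=
          mul_le_mul_of_nonneg_left (tri_le_one _) h2.1
      _ ≤ 2 := by linarith

/-- A homeomorphism that moves only points of `W` and preserves `L` preserves each set that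
agrees with `L` in `W`. -/
theorem image_eq_of_local (h : R3 ≃ₜ R3) (X W L : Set R3) (h1 : ∀ p, h p ≠ p → p ∈ W)
    (h2 : ∀ p, h p ∈ L ↔ p ∈ L) (h3 : ∀ p ∈ W, (p ∈ X ↔ p ∈ L)) : h '' X = X := by
  have key : ∀ p, h p ∈ X ↔ p ∈ X := by
    intro p
    by_cases hp : h p = p
    · rw [hp]
    · have hp' : h (h p) ≠ h p := fun h' => hp (h.injective h')
      rw [h3 _ (h1 _ hp'), h2, h3 _ (h1 _ hp)]
  ext y
  constructor
  · rintro ⟨x, hx, rfl⟩
    exact (key x).2 hx
  · intro hy
    refine ⟨h.symm y, ?_, h.apply_symm_apply y⟩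
    rw [← key, h.apply_symm_apply]
    exact hy

theorem slide_core (N : R3 ≃ₜ R3) (lam : ℝ) (h0 : 0 ≤ lam) (h1 : lam ≤ 1) (X : Set R3)
    (hX : ∀ p : R3, |(N p).1| < 7 / 8 → |(N p).2.1| < 3 / 16 → |(N p).2.2| < 3 / 16 →
      (p ∈ X ↔ (N p).2 = 0)) :
    ∃ h : R3 ≃ₜ R3, h '' X = X ∧ ∀ p, N (h p) =
      ((N p).1 + cut (N p).2.1 * cut (N p).2.2 * (1 - lam * (N p).2.1) * tri (N p).1, (N p).2) := by
  obtain ⟨S, hS⟩ := exists_slideS lam h0 h1
  have hN : ∀ p, N (((N.trans S).trans N.symm) p) = S (N p) := fun p =>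
    N.apply_symm_apply (S (N p))
  refine ⟨(N.trans S).trans N.symm, ?_, fun p => ?_⟩
  · refine image_eq_of_local _ X
      {p | |(N p).1| < 7 / 8 ∧ |(N p).2.1| < 3 / 16 ∧ |(N p).2.2| < 3 / 16} {p | (N p).2 = 0}
      ?_ ?_ ?_
    · intro p hp
      by_contra hcon
      apply hp
      apply N.injective
      rw [hN, hS]
      have hz : cut (N p).2.1 * cut (N p).2.2 * (1 - lam * (N p).2.1) * tri (N p).1 = 0 := by
        simp only [mem_ofPred_eq, not_and_or, not_lt] at hcon
        rcases hcon with h | h | h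
        · rw [tri_eq_zero h, mul_zero]
        · rw [cut_eq_zero h, zero_mul, zero_mul, zero_mul]
        · rw [cut_eq_zero h, mul_zero, zero_mul, zero_mul]
      rw [hz, add_zero]
    · intro p
      simp only [mem_ofPred_eq]
      rw [hN, hS]
    · rintro p ⟨h2, h3, h4⟩
      exact hX p h2 h3 h4
  · rw [hN, hS]

/-- Straightening the corner. -/
noncomputable def Nh : R3 ≃ₜ R3 where
  toFun p := (p.1 + p.2.1, p.2.1 - p.1 - |p.1 + p.2.1|, p.2.2)
  invFun p := ((p.1 - (p.2.1 + |p.1|)) / 2, (p.1 + (p.2.1 + |p.1|)) / 2, p.2.2)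
  left_inv p := by
    refine Prod.ext ?_ (Prod.ext ?_ rfl) <;> simp only <;> ring
  right_inv p := by
    have e : (p.1 - (p.2.1 + |p.1|)) / 2 + (p.1 + (p.2.1 + |p.1|)) / 2 = p.1 := by ring
    refine Prod.ext e (Prod.ext ?_ rfl)
    simp only [e]
    ring
  continuous_toFun := by fun_prop
  continuous_invFun := by fun_prop

theorem Nh_apply (p : R3) : Nh p = (p.1 + p.2.1, p.2.1 - p.1 - |p.1 + p.2.1|, p.2.2) := rfl

/-! ### The polygon near a vertex and near the middle of an edge -/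

theorem coord_aux {a b : ℤ} {t : ℝ} (h0 : 0 ≤ t) (h1 : t ≤ 1) (h : |(a : ℝ) + t * (b - a)| < 1) :
    (a ≤ 0 ∨ b ≤ 0) ∧ (0 ≤ a ∨ 0 ≤ b) := by
  rw [abs_lt] at h
  constructor
  · by_contra hcon
    push Not at hcon
    have h2 : (1 : ℝ) ≤ a := by exact_mod_cast hcon.1
    have h3 : (1 : ℝ) ≤ b := by exact_mod_cast hcon.2
    nlinarith
  · by_contra hcon
    push Not at hcon
    have h2 : (a : ℝ) ≤ -1 := by exact_mod_cast (by omega : a ≤ -1)
    have h3 : (b : ℝ) ≤ -1 := by exact_mod_cast (by omega : b ≤ -1)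
    nlinarith

theorem body_near_zero {E : Finset (Sym2 P3)} (hE : ∀ u v, s(u, v) ∈ E → Adj u v) {P : R3}
    (hP : P ∈ body E) (h1 : |P.1| < 1) (h2 : |P.2.1| < 1) (h3 : |P.2.2| < 1) :
    ∃ t, s((0, 0, 0), t) ∈ E ∧ P ∈ segment ℝ (toR (0, 0, 0)) (toR t) := by
  obtain ⟨u, v, huv, hx⟩ := hP
  have hadj := hE u v huv
  have hx' := hx
  rw [segment_eq_image'] at hx'
  obtain ⟨t, ⟨t0, t1⟩, rfl⟩ := hx'
  have c1 := coord_aux (a := u.1) (b := v.1) t0 t1 h1
  have c2 := coord_aux (a := u.2.1) (b := v.2.1) t0 t1 h2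
  have c3 := coord_aux (a := u.2.2) (b := v.2.2) t0 t1 h3
  have key : u = (0, 0, 0) ∨ v = (0, 0, 0) := by
    obtain ⟨u1, u2, u3⟩ := u
    obtain ⟨v1, v2, v3⟩ := v
    simp only [Adj] at hadj
    simp only [Prod.mk.injEq]
    simp only at c1 c2 c3
    clear hx huv h1 h2 h3
    rcases abs_cases (u1 - v1) with h4 | h4 <;> rcases abs_cases (u2 - v2) with h5 | h5 <;>
      rcases abs_cases (u3 - v3) with h6 | h6 <;> omega
  rcases key with rfl | rfl
  · exact ⟨v, huv, hx⟩
  · exact ⟨u, by rwa [Sym2.eq_swap], by rwa [segment_symm]⟩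

theorem body_near_mid {E : Finset (Sym2 P3)} (hE : ∀ u v, s(u, v) ∈ E → Adj u v) {P : R3}
    (hP : P ∈ body E) (h0 : 0 < P.1) (h1 : P.1 < 1) (h2 : |P.2.1| < 1) (h3 : |P.2.2| < 1) :
    P.2 = 0 := by
  obtain ⟨u, v, huv, hx⟩ := hP
  have hadj := hE u v huv
  rw [segment_eq_image'] at hx
  obtain ⟨t, ⟨t0, t1⟩, rfl⟩ := hx
  have e1 : (toR u + t • (toR v - toR u)).1 = (u.1 : ℝ) + t * (v.1 - u.1) := rfl
  have e2 : (toR u + t • (toR v - toR u)).2.1 = (u.2.1 : ℝ) + t * (v.2.1 - u.2.1) := rfl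
  have e3 : (toR u + t • (toR v - toR u)).2.2 = (u.2.2 : ℝ) + t * (v.2.2 - u.2.2) := rfl
  have c2 := coord_aux (a := u.2.1) (b := v.2.1) t0 t1 h2
  have c3 := coord_aux (a := u.2.2) (b := v.2.2) t0 t1 h3
  rw [e1] at h0 h1
  refine Prod.ext (e2.trans ?_) (e3.trans ?_)
  all_goals
    have hne : u.1 ≠ v.1 := by
      intro h
      rw [h] at h0 h1
      simp only [sub_self, mul_zero, add_zero] at h0 h1
      have h4 : 0 < v.1 := by exact_mod_cast h0
      have h5 : v.1 < 1 := by exact_mod_cast h1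
      omega
    have key : u.2.1 = 0 ∧ v.2.1 = 0 ∧ u.2.2 = 0 ∧ v.2.2 = 0 := by
      clear e1 e2 e3 h0 h1 h2 h3 huv
      obtain ⟨u1, u2, u3⟩ := u
      obtain ⟨v1, v2, v3⟩ := v
      simp only [Adj] at hadj
      simp only at c2 c3 hne ⊢
      rcases abs_cases (u1 - v1) with h4 | h4 <;> rcases abs_cases (u2 - v2) with h5 | h5 <;>
        rcases abs_cases (u3 - v3) with h6 | h6 <;> omega
    obtain ⟨k1, k2, k3, k4⟩ := key
    simp [k1, k2, k3, k4]

theorem mem_seg_zero {P : R3} {t : P3} :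
    P ∈ segment ℝ (toR (0, 0, 0)) (toR t) ↔ ∃ s : ℝ, 0 ≤ s ∧ s ≤ 1 ∧
      P = (s * t.1, s * t.2.1, s * t.2.2) := by
  rw [segment_eq_image']
  constructor
  · rintro ⟨s, ⟨h0, h1⟩, rfl⟩
    refine ⟨s, h0, h1, ?_⟩
    simp [toR]
  · rintro ⟨s, h0, h1, rfl⟩
    refine ⟨s, ⟨h0, h1⟩, ?_⟩
    simp [toR]

/-- The straight slide and the corner slide in standard position. -/
theorem slide_straight_std {E : Finset (Sym2 P3)} (hP : IsPolygon E)
    (h1 : s(((0, 0, 0) : P3), ((-1, 0, 0) : P3)) ∈ E)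
    (h2 : s(((0, 0, 0) : P3), ((1, 0, 0) : P3)) ∈ E) :
    ∃ h : R3 ≃ₜ R3, h '' body E = body E ∧ ∀ p : R3, |p.1 + 1 / 2| ≤ 1 / 16 → |p.2.1| ≤ 1 / 16 →
      |p.2.2| ≤ 1 / 16 → h p = (p.1 + 1, p.2.1, p.2.2) := by
  obtain ⟨h, hh, hf⟩ := slide_core (Homeomorph.refl R3) 0 le_rfl zero_le_one (body E) (by
    intro p k1 k2 k3
    simp only [Homeomorph.refl_apply, id_eq] at k1 k2 k3 ⊢
    constructor
    · intro hp
      obtain ⟨t, ht, hpt⟩ := body_near_zero hP.adj hp (by linarith) (by linarith) (by linarith)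
      rw [mem_seg_zero] at hpt
      obtain ⟨s, s0, s1, rfl⟩ := hpt
      rcases nbr_eq' hP h1 h2 (by decide) ht with rfl | rfl <;> simp
    · intro hp
      obtain ⟨x, q⟩ := p
      simp only at hp k1
      subst hp
      rw [abs_lt] at k1
      rcases le_total x 0 with hx | hx
      · refine ⟨_, _, h1, mem_seg_zero.2 ⟨-x, by linarith, by linarith, ?_⟩⟩
        simp
        rfl
      · refine ⟨_, _, h2, mem_seg_zero.2 ⟨x, by linarith, by linarith, ?_⟩⟩
        simp
        rfl)
  refine ⟨h, hh, fun p k1 k2 k3 => ?_⟩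
  have h3 := hf p
  simp only [Homeomorph.refl_apply, id_eq] at h3
  rw [h3, cut_eq_one (by linarith), cut_eq_one (by linarith), tri_eq_one (by linarith)]
  refine Prod.ext ?_ rfl
  simp only
  ring

theorem slide_corner_std {E : Finset (Sym2 P3)} (hP : IsPolygon E)
    (h1 : s(((0, 0, 0) : P3), ((-1, 0, 0) : P3)) ∈ E)
    (h2 : s(((0, 0, 0) : P3), ((0, 1, 0) : P3)) ∈ E) :
    ∃ h : R3 ≃ₜ R3, h '' body E = body E ∧ ∀ p : R3, |p.1 + 1 / 2| ≤ 1 / 16 → |p.2.1| ≤ 1 / 16 →
      |p.2.2| ≤ 1 / 16 → h p = (-p.2.1, p.1 + 1, p.2.2) := by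
  obtain ⟨h, hh, hf⟩ := slide_core Nh 1 zero_le_one le_rfl (body E) (by
    intro p k1 k2 k3
    simp only [Nh_apply] at k1 k2 k3 ⊢
    constructor
    · intro hp
      have b1 : |p.1| < 1 := by
        rw [abs_lt] at k1 k2 ⊢
        rcases abs_cases (p.1 + p.2.1) with h | h <;> constructor <;> linarith [h.1, h.2]
      have b2 : |p.2.1| < 1 := by
        rw [abs_lt] at k1 k2 ⊢
        rcases abs_cases (p.1 + p.2.1) with h | h <;> constructor <;> linarith [h.1, h.2]
      obtain ⟨t, ht, hpt⟩ := body_near_zero hP.adj hp b1 b2 (by linarith)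
      rw [mem_seg_zero] at hpt
      obtain ⟨s, s0, s1, rfl⟩ := hpt
      rcases nbr_eq' hP h1 h2 (by decide) ht with rfl | rfl
      · simp [abs_of_nonneg s0]
      · simp [abs_of_nonneg s0]
    · intro hp
      obtain ⟨x, y, z⟩ := p
      simp only [Prod.mk_eq_zero] at hp k1 k2 k3
      obtain ⟨hp1, rfl⟩ := hp
      rw [abs_lt] at k1
      rcases le_total (x + y) 0 with hx | hx
      · rw [abs_of_nonpos hx] at hp1
        have hy : y = 0 := by linarith
        subst hy
        refine ⟨_, _, h1, mem_seg_zero.2 ⟨-x, by linarith, by linarith, ?_⟩⟩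
        simp
      · rw [abs_of_nonneg hx] at hp1
        have hy : x = 0 := by linarith
        subst hy
        refine ⟨_, _, h2, mem_seg_zero.2 ⟨y, by linarith, by linarith, ?_⟩⟩
        simp)
  refine ⟨h, hh, fun p k1 k2 k3 => ?_⟩
  apply Nh.injective
  rw [hf]
  obtain ⟨x, y, z⟩ := p
  simp only [Nh_apply] at k1 k2 k3 ⊢
  rw [abs_le] at k1 k2
  have e1 : |x + y| = -(x + y) := abs_of_nonpos (by linarith)
  have e2 : |-y + (x + 1)| = -y + (x + 1) := abs_of_nonneg (by linarith)
  have e3 : y - x - -(x + y) = 2 * y := by ring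
  rw [e1, e2, e3, cut_eq_one (by rw [abs_le]; constructor <;> linarith),
    cut_eq_one (by linarith), tri_eq_one (by rw [abs_le]; constructor <;> linarith)]
  refine Prod.ext ?_ (Prod.ext ?_ rfl)
  · simp only
    ring
  · simp only
    ring

/-! ### The quarter turn -/

theorem cwl_bound (q : ℝ × ℝ) : |(-(q.1 * cut q.1 * cut q.2))| ≤ 3 / 16 := by
  rw [abs_neg, abs_mul, abs_mul, abs_of_nonneg (cut_nonneg _), abs_of_nonneg (cut_nonneg _)]
  rcases lt_or_ge |q.1| (3 / 16) with h | h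
  · have h3 := cut_le_one q.1
    have h4 := cut_le_one q.2
    have h5 := cut_nonneg q.1
    have h6 := cut_nonneg q.2
    have h7 := abs_nonneg q.1
    calc |q.1| * cut q.1 * cut q.2 ≤ |q.1| * 1 * 1 := by gcongr
      _ ≤ 3 / 16 := by linarith
  · rw [cut_eq_zero h]
    norm_num

/-- The maps `y ↦ y - z` and `z ↦ z + y` near the middle of the edge, cut off. -/
theorem turn_core {E : Finset (Sym2 P3)} (hP : IsPolygon E)
    (h1 : s(((0, 0, 0) : P3), ((1, 0, 0) : P3)) ∈ E) (h : R3 ≃ₜ R3)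
    (hm : ∀ p : R3, h p ≠ p → |p.1 - 1 / 2| < 1 / 2 ∧ |p.2.1| < 1 / 2 ∧ |p.2.2| < 1 / 2)
    (hL : ∀ p : R3, (h p).2 = 0 ↔ p.2 = 0) : h '' body E = body E := by
  refine image_eq_of_local h (body E)
    {p | |p.1 - 1 / 2| < 1 / 2 ∧ |p.2.1| < 1 / 2 ∧ |p.2.2| < 1 / 2} {p | p.2 = 0} hm hL ?_
  rintro p ⟨k1, k2, k3⟩
  rw [abs_lt] at k1
  constructor
  · intro hp
    exact body_near_mid hP.adj hp (by linarith) (by linarith) (by linarith) (by linarith)
  · intro hp
    obtain ⟨x, q⟩ := p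
    simp only [mem_ofPred_eq] at hp k1
    subst hp
    refine ⟨_, _, h1, mem_seg_zero.2 ⟨x, by linarith, by linarith, ?_⟩⟩
    simp
    rfl

theorem turn_std {E : Finset (Sym2 P3)} (hP : IsPolygon E)
    (h1 : s(((0, 0, 0) : P3), ((1, 0, 0) : P3)) ∈ E) :
    ∃ h : R3 ≃ₜ R3, h '' body E = body E ∧ ∀ p : R3, |p.1 - 1 / 2| ≤ 1 / 16 → |p.2.1| ≤ 1 / 16 →
      |p.2.2| ≤ 1 / 16 → h p = (p.1, -p.2.2, p.2.1) := by
  have hc := continuous_cut
  obtain ⟨f, hf⟩ := exists_elemY (fun q => -(q.1 * cut q.1 * cut (q.2 - 1 / 2))) (by fun_prop) wid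
    continuous_wid (fun q => strictMono_add_mul wid_lip (by
      have := cwl_bound (q.1, q.2 - 1 / 2)
      simp only at this
      linarith)) 1 (fun q x => by
      have := cwl_bound (q.1, q.2 - 1 / 2)
      simp only at this
      rw [abs_mul, abs_of_nonneg (wid_nonneg x)]
      have h2 := wid_le_one x
      have h3 := wid_nonneg x
      nlinarith)
  obtain ⟨g, hg⟩ := exists_elemZ (fun q => q.2 * cut q.2 * cut (q.1 - 1 / 2)) (by fun_prop) wid
    continuous_wid (fun q => strictMono_add_mul wid_lip (by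
      have := cwl_bound (q.2, q.1 - 1 / 2)
      simp only [abs_neg] at this
      linarith)) 1 (fun q x => by
      have := cwl_bound (q.2, q.1 - 1 / 2)
      simp only [abs_neg] at this
      rw [abs_mul, abs_of_nonneg (wid_nonneg x)]
      have h2 := wid_le_one x
      have h3 := wid_nonneg x
      nlinarith)
  have imf : f '' body E = body E := by
    refine turn_core hP h1 f (fun p hp => ?_) (fun p => ?_)
    · by_contra hcon
      apply hp
      rw [hf]
      have hz : -(p.2.2 * cut p.2.2 * cut (p.1 - 1 / 2)) * wid p.2.1 = 0 := by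
        simp only [not_and_or, not_lt] at hcon
        rcases hcon with h | h | h
        · rw [cut_eq_zero (t := p.1 - 1 / 2) (by linarith)]
          ring
        · rw [wid_eq_zero h, mul_zero]
        · rw [cut_eq_zero (t := p.2.2) (by linarith)]
          ring
      simp only [hz, add_zero]
    · rw [hf]
      obtain ⟨x, y, z⟩ := p
      simp only [Prod.mk_eq_zero]
      constructor
      · rintro ⟨h2, rfl⟩
        simpa using h2
      · rintro ⟨rfl, rfl⟩
        simp
  have img : g '' body E = body E := by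
    refine turn_core hP h1 g (fun p hp => ?_) (fun p => ?_)
    · by_contra hcon
      apply hp
      rw [hg]
      have hz : (p.2.1 * cut p.2.1 * cut (p.1 - 1 / 2)) * wid p.2.2 = 0 := by
        simp only [not_and_or, not_lt] at hcon
        rcases hcon with h | h | h
        · rw [cut_eq_zero (t := p.1 - 1 / 2) (by linarith)]
          ring
        · rw [cut_eq_zero (t := p.2.1) (by linarith)]
          ring
        · rw [wid_eq_zero h, mul_zero]
      simp only [hz, add_zero]
    · rw [hg]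
      obtain ⟨x, y, z⟩ := p
      simp only [Prod.mk_eq_zero]
      constructor
      · rintro ⟨rfl, h2⟩
        simpa using h2
      · rintro ⟨rfl, rfl⟩
        simp
  refine ⟨(f.trans g).trans f, ?_, ?_⟩
  · have : ∀ A : Set R3, ((f.trans g).trans f) '' A = f '' (g '' (f '' A)) := by
      intro A
      rw [image_image, image_image]
      rfl
    rw [this, imf, img, imf]
  · rintro ⟨x, y, z⟩ k1 k2 k3
    simp only at k1 k2 k3
    have e1 : f (x, y, z) = (x, y - z, z) := by
      rw [hf]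
      simp only
      rw [cut_eq_one (by linarith), cut_eq_one (by linarith), wid_eq_one (by linarith)]
      refine Prod.ext rfl (Prod.ext ?_ rfl)
      simp only
      ring
    have k4 : |y - z| ≤ 1 / 8 := (abs_sub _ _).trans (by linarith)
    have e2 : g (x, y - z, z) = (x, y - z, y) := by
      rw [hg]
      simp only
      rw [cut_eq_one (by linarith), cut_eq_one (by linarith), wid_eq_one (by linarith)]
      refine Prod.ext rfl (Prod.ext rfl ?_)
      simp only
      ring
    have e3 : f (x, y - z, y) = (x, -z, y) := by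
      rw [hf]
      simp only
      rw [cut_eq_one (by linarith), cut_eq_one (by linarith), wid_eq_one (by linarith)]
      refine Prod.ext rfl (Prod.ext ?_ rfl)
      simp only
      ring
    change f (g (f (x, y, z))) = _
    rw [e1, e2, e3]

/-! ### General position -/

theorem sld_refl (X : Set R3) (σ : R3 → R3) : Sld X σ σ :=
  ⟨Homeomorph.refl R3, by simp, fun p _ => rfl⟩

theorem Sld.trans' {X : Set R3} {σ τ ρ : R3 → R3} (h1 : Sld X σ τ) (h2 : Sld X τ ρ) :
    Sld X σ ρ := by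
  obtain ⟨f, hf, kf⟩ := h1
  obtain ⟨g, hg, kg⟩ := h2
  refine ⟨f.trans g, ?_, fun p hp => ?_⟩
  · have : (f.trans g) '' X = g '' (f '' X) := by
      rw [image_image]
      rfl
    rw [this, hf, hg]
  · change g (f (σ p)) = ρ p
    rw [kf p hp, kg p hp]

/-- Transport by a frame. -/
theorem sld_frame {x a b c : P3} (hF : Frm a b c) {X : Set R3} {σ τ : R3 → R3} {σ₀ τ₀ : R3 → R3}
    (h : R3 ≃ₜ R3) (hX : h '' X = X) (h1 : ∀ p ∈ Bx, h (σ₀ p) = τ₀ p)
    (h2 : ∀ p ∈ Bx, fhomeo x hF (σ₀ p) = σ p) (h3 : ∀ p ∈ Bx, fhomeo x hF (τ₀ p) = τ p) :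
    Sld (fhomeo x hF '' X) σ τ := by
  refine ⟨((fhomeo x hF).symm.trans h).trans (fhomeo x hF), ?_, fun p hp => ?_⟩
  · have : ∀ A : Set R3, (((fhomeo x hF).symm.trans h).trans (fhomeo x hF)) ''
        (fhomeo x hF '' A) = fhomeo x hF '' (h '' A) := by
      intro A
      rw [image_image, image_image]
      congr 1
      ext1 z
      change fhomeo x hF (h ((fhomeo x hF).symm (fhomeo x hF z))) = _
      rw [(fhomeo x hF).symm_apply_apply]
    rw [this, hX]
  · change fhomeo x hF (h ((fhomeo x hF).symm (σ p))) = τ p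
    rw [← h2 p hp, (fhomeo x hF).symm_apply_apply, h1 p hp, h3 p hp]

theorem isPolygon_of_fmap {x a b c : P3} (hF : Frm a b c) {E : Finset (Sym2 P3)}
    (hP : IsPolygon (mapE (fmap x a b c) E)) : IsPolygon E := by
  have hinj : Function.Injective (fmap x a b c) := fmap_injective hF
  refine ⟨?_, fun u v huv => (adj_fmap (x := x) hF).1 (hP.adj _ _ ((mem_mapE_fmap hF).2 huv)),
    fun u hu => ?_, fun u hu v hv => ?_⟩
  · have := hP.nonempty
    rw [mapE, Finset.image_nonempty] at this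
    exact this
  · have h1 := hP.deg _ ((mem_verts_fmap (x := x) hF).2 hu)
    have h2 : {w | s(fmap x a b c u, w) ∈ mapE (fmap x a b c) E} =
        fmap x a b c '' {w | s(u, w) ∈ E} := by
      ext w
      constructor
      · intro hw
        refine ⟨finv x a b c w, ?_, fmap_finv hF w⟩
        have hw' : s(fmap x a b c u, fmap x a b c (finv x a b c w)) ∈
            mapE (fmap x a b c) E := by
          rw [fmap_finv hF]
          exact hw
        exact (mem_mapE_fmap hF).1 hw'
      · rintro ⟨w, hw, rfl⟩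
        exact (mem_mapE_fmap hF).2 hw
    rw [h2, ncard_image_of_injective _ hinj] at h1
    exact h1
  · have h1 := hP.conn _ ((mem_verts_fmap (x := x) hF).2 hu) _
      ((mem_verts_fmap (x := x) hF).2 hv)
    have h2 := h1.lift (finv x a b c) (p := fun a b => s(a, b) ∈ E) (by
      intro p q hpq
      rw [← fmap_finv (x := x) hF p, ← fmap_finv (x := x) hF q] at hpq
      exact (mem_mapE_fmap hF).1 hpq)
    simp only [Function.onFun, finv_fmap hF] at h2
    exact h2

theorem isUnit3_of_frm {a b c : P3} (h : Frm a b c) : IsUnit3 a := by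
  have := h.aa
  rw [IsUnit3, adj_iff_sq2]
  simpa using this

theorem isUnit3_of_frm' {a b c : P3} (h : Frm a b c) : IsUnit3 b := by
  have := h.bb
  rw [IsUnit3, adj_iff_sq2]
  simpa using this

theorem turn90 {Q : Finset (Sym2 P3)} {u a b : P3} (hQ : IsPolygon Q) (he : s(u, u + a) ∈ Q)
    (hF : Frm a b (crs a b)) : Sld (body Q) (cht u a b) (cht u a (crs a b)) := by
  obtain ⟨E₀, rfl⟩ := exists_mapE u hF Q
  have hP := isPolygon_of_fmap hF hQ
  have f0 : fmap u a b (crs a b) (0, 0, 0) = u := by simp [fmap]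
  have f1 : fmap u a b (crs a b) (1, 0, 0) = u + a := by
    simp [fmap]
    rfl
  have h1 : s(((0, 0, 0) : P3), ((1, 0, 0) : P3)) ∈ E₀ := by
    rw [← mem_mapE_fmap (x := u) hF, f0, f1]
    exact he
  obtain ⟨h, hX, hh⟩ := turn_std hP h1
  rw [body_fmap hF]
  refine sld_frame hF (σ₀ := fun p => (1 / 2 + p.1 / 32, p.2.1 / 32, p.2.2 / 32))
    (τ₀ := fun p => (1 / 2 + p.1 / 32, -(p.2.2 / 32), p.2.1 / 32)) h hX ?_ ?_ ?_
  · rintro p ⟨k1, k2, k3⟩
    rw [abs_le] at k1 k2 k3
    rw [hh]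
    · rw [abs_le]
      constructor <;> simp only <;> linarith
    · rw [abs_le]
      constructor <;> simp only <;> linarith
    · rw [abs_le]
      constructor <;> simp only <;> linarith
  · intro p _
    rw [fhomeo_apply]
    rfl
  · intro p _
    rw [fhomeo_apply]
    have e : crs a (crs a b) = -b := by
      rcases unit_cases (isUnit3_of_frm hF) with rfl | rfl | rfl | rfl | rfl | rfl <;>
        rcases unit_cases (isUnit3_of_frm' hF) with rfl | rfl | rfl | rfl | rfl | rfl <;>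
        first
        | decide
        | exact absurd hF (by decide)
    unfold cht
    rw [e]
    obtain ⟨b1, b2, b3⟩ := b
    refine Prod.ext ?_ (Prod.ext ?_ ?_) <;>
    · simp only [Prod.neg_mk]
      push_cast
      ring

theorem turnStatement : TurnStatement := by
  intro Q u a b b' hQ he hF hF'
  have hF2 : Frm a (crs a b) (crs a (crs a b)) := by
    rcases unit_cases (isUnit3_of_frm hF) with rfl | rfl | rfl | rfl | rfl | rfl <;>
      rcases unit_cases (isUnit3_of_frm' hF) with rfl | rfl | rfl | rfl | rfl | rfl <;>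
      first
      | decide
      | exact absurd hF (by decide)
  have hF3 : Frm a (crs a (crs a b)) (crs a (crs a (crs a b))) := by
    rcases unit_cases (isUnit3_of_frm hF) with rfl | rfl | rfl | rfl | rfl | rfl <;>
      rcases unit_cases (isUnit3_of_frm' hF) with rfl | rfl | rfl | rfl | rfl | rfl <;>
      first
      | decide
      | exact absurd hF (by decide)
  have hb : b' = b ∨ b' = crs a b ∨ b' = crs a (crs a b) ∨ b' = crs a (crs a (crs a b)) := by
    have i1 := isUnit3_of_frm hF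
    have i2 := isUnit3_of_frm' hF
    have i3 := isUnit3_of_frm' hF'
    clear hF2 hF3 he hQ
    rcases unit_cases i1 with rfl | rfl | rfl | rfl | rfl | rfl <;>
      rcases unit_cases i2 with rfl | rfl | rfl | rfl | rfl | rfl <;>
      first
      | exact absurd hF (by decide)
      | (rcases unit_cases i3 with rfl | rfl | rfl | rfl | rfl | rfl <;>
        first
        | exact absurd hF' (by decide)
        | decide)
  have t1 := turn90 hQ he hF
  have t2 := turn90 hQ he hF2
  have t3 := turn90 hQ he hF3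
  rcases hb with rfl | rfl | rfl | rfl
  · exact sld_refl _ _
  · exact t1
  · exact t1.trans' t2
  · exact (t1.trans' t2).trans' t3

/-- The straight slide. -/
theorem slide_straight {Q : Finset (Sym2 P3)} {v a b : P3} (hQ : IsPolygon Q)
    (he : s(v, v - a) ∈ Q) (he' : s(v, v + a) ∈ Q) (hF : Frm a b (crs a b)) :
    Sld (body Q) (cht (v - a) a b) (cht v a b) := by
  obtain ⟨E₀, rfl⟩ := exists_mapE v hF Q
  have hP := isPolygon_of_fmap hF hQ
  have f0 : fmap v a b (crs a b) (0, 0, 0) = v := by simp [fmap]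
  have f1 : fmap v a b (crs a b) (1, 0, 0) = v + a := by
    simp [fmap]
    rfl
  have f2 : fmap v a b (crs a b) (-1, 0, 0) = v - a := by
    simp [fmap, ← sub_eq_add_neg]
    rfl
  have h1 : s(((0, 0, 0) : P3), ((-1, 0, 0) : P3)) ∈ E₀ := by
    rw [← mem_mapE_fmap (x := v) hF, f0, f2]
    exact he
  have h2 : s(((0, 0, 0) : P3), ((1, 0, 0) : P3)) ∈ E₀ := by
    rw [← mem_mapE_fmap (x := v) hF, f0, f1]
    exact he'
  obtain ⟨h, hX, hh⟩ := slide_straight_std hP h1 h2
  rw [body_fmap hF]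
  refine sld_frame hF (σ₀ := fun p => (-1 / 2 + p.1 / 32, p.2.1 / 32, p.2.2 / 32))
    (τ₀ := fun p => (1 / 2 + p.1 / 32, p.2.1 / 32, p.2.2 / 32)) h hX ?_ ?_ ?_
  · rintro p ⟨k1, k2, k3⟩
    rw [abs_le] at k1 k2 k3
    rw [hh]
    · refine Prod.ext ?_ rfl
      simp only
      ring
    · rw [abs_le]
      constructor <;> simp only <;> linarith
    · rw [abs_le]
      constructor <;> simp only <;> linarith
    · rw [abs_le]
      constructor <;> simp only <;> linarith
  · intro p _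
    rw [fhomeo_apply]
    obtain ⟨v1, v2, v3⟩ := v
    obtain ⟨a1, a2, a3⟩ := a
    refine Prod.ext ?_ (Prod.ext ?_ ?_) <;>
    · simp only [cht, Prod.mk_sub_mk]
      push_cast
      ring
  · intro p _
    rw [fhomeo_apply]
    rfl

/-- The frames at a corner. -/
theorem corner_frames {a a' b : P3} (hF : Frm a a' (crs a a')) (hb : Frm a b (crs a b)) :
    ∃ r s : ℤ, |r| ≤ 1 ∧ |s| ≤ 1 ∧ |r| + |s| = 1 ∧
      b = (r * a'.1 + s * (crs a a').1, r * a'.2.1 + s * (crs a a').2.1,
        r * a'.2.2 + s * (crs a a').2.2) ∧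
      crs a b = (-s * a'.1 + r * (crs a a').1, -s * a'.2.1 + r * (crs a a').2.1,
        -s * a'.2.2 + r * (crs a a').2.2) ∧
      Frm a' (-r * a.1 + s * (crs a a').1, -r * a.2.1 + s * (crs a a').2.1,
        -r * a.2.2 + s * (crs a a').2.2)
        (crs a' (-r * a.1 + s * (crs a a').1, -r * a.2.1 + s * (crs a a').2.1,
        -r * a.2.2 + s * (crs a a').2.2)) ∧
      crs a' (-r * a.1 + s * (crs a a').1, -r * a.2.1 + s * (crs a a').2.1,
        -r * a.2.2 + s * (crs a a').2.2) = (s * a.1 + r * (crs a a').1,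
          s * a.2.1 + r * (crs a a').2.1, s * a.2.2 + r * (crs a a').2.2) := by
  refine ⟨b.1 * a'.1 + b.2.1 * a'.2.1 + b.2.2 * a'.2.2,
    b.1 * (crs a a').1 + b.2.1 * (crs a a').2.1 + b.2.2 * (crs a a').2.2, ?_⟩
  have i1 := isUnit3_of_frm hF
  have i2 := isUnit3_of_frm' hF
  have i3 := isUnit3_of_frm' hb
  rcases unit_cases i1 with rfl | rfl | rfl | rfl | rfl | rfl <;>
    rcases unit_cases i2 with rfl | rfl | rfl | rfl | rfl | rfl <;>
    first
    | exact absurd hF (by decide)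
    | (rcases unit_cases i3 with rfl | rfl | rfl | rfl | rfl | rfl <;>
      first
      | exact absurd hb (by decide)
      | decide)

/-- The corner slide. -/
theorem slide_corner {Q : Finset (Sym2 P3)} {v a a' b : P3} (hQ : IsPolygon Q)
    (he : s(v, v - a) ∈ Q) (he' : s(v, v + a') ∈ Q) (hF : Frm a a' (crs a a'))
    (hb : Frm a b (crs a b)) :
    ∃ b', Frm a' b' (crs a' b') ∧ Sld (body Q) (cht (v - a) a b) (cht v a' b') := by
  obtain ⟨r, s, hr, hs, hrs, e1, e2, e3, e4⟩ := corner_frames hF hb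
  refine ⟨_, e3, ?_⟩
  obtain ⟨E₀, rfl⟩ := exists_mapE v hF Q
  have hP := isPolygon_of_fmap hF hQ
  have f0 : fmap v a a' (crs a a') (0, 0, 0) = v := by simp [fmap]
  have f1 : fmap v a a' (crs a a') (0, 1, 0) = v + a' := by
    simp [fmap]
    rfl
  have f2 : fmap v a a' (crs a a') (-1, 0, 0) = v - a := by
    simp [fmap, ← sub_eq_add_neg]
    rfl
  have h1 : s(((0, 0, 0) : P3), ((-1, 0, 0) : P3)) ∈ E₀ := by
    rw [← mem_mapE_fmap (x := v) hF, f0, f2]
    exact he
  have h2 : s(((0, 0, 0) : P3), ((0, 1, 0) : P3)) ∈ E₀ := by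
    rw [← mem_mapE_fmap (x := v) hF, f0, f1]
    exact he'
  obtain ⟨h, hX, hh⟩ := slide_corner_std hP h1 h2
  rw [body_fmap hF]
  have hr' : |(r : ℝ)| ≤ 1 := by exact_mod_cast hr
  have hs' : |(s : ℝ)| ≤ 1 := by exact_mod_cast hs
  refine sld_frame hF
    (σ₀ := fun p => (-1 / 2 + p.1 / 32, (r * p.2.1 - s * p.2.2) / 32,
      (s * p.2.1 + r * p.2.2) / 32))
    (τ₀ := fun p => (-((r * p.2.1 - s * p.2.2) / 32), 1 / 2 + p.1 / 32,
      (s * p.2.1 + r * p.2.2) / 32)) h hX ?_ ?_ ?_
  · rintro p ⟨k1, k2, k3⟩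
    have b1 : |(r : ℝ) * p.2.1| ≤ 1 := by
      rw [abs_mul]
      exact mul_le_one₀ hr' (abs_nonneg _) k2
    have b2 : |(s : ℝ) * p.2.2| ≤ 1 := by
      rw [abs_mul]
      exact mul_le_one₀ hs' (abs_nonneg _) k3
    have b3 : |(s : ℝ) * p.2.1| ≤ 1 := by
      rw [abs_mul]
      exact mul_le_one₀ hs' (abs_nonneg _) k2
    have b4 : |(r : ℝ) * p.2.2| ≤ 1 := by
      rw [abs_mul]
      exact mul_le_one₀ hr' (abs_nonneg _) k3
    rw [abs_le] at k1 b1 b2 b3 b4
    rw [hh]
    · refine Prod.ext rfl (Prod.ext ?_ rfl)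
      simp only
      ring
    · rw [abs_le]
      constructor <;> simp only <;> linarith
    · rw [abs_le]
      constructor <;> simp only <;> linarith
    · rw [abs_le]
      constructor <;> simp only <;> linarith
  · intro p _
    rw [fhomeo_apply]
    unfold cht
    rw [e2]
    generalize hn : crs a a' = n at *
    subst e1
    obtain ⟨v1, v2, v3⟩ := v
    obtain ⟨a1, a2, a3⟩ := a
    refine Prod.ext ?_ (Prod.ext ?_ ?_) <;>
    · simp only [Prod.mk_sub_mk]
      push_cast
      ring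
  · intro p _
    rw [fhomeo_apply]
    unfold cht
    rw [e4]
    generalize hn : crs a a' = n at *
    refine Prod.ext ?_ (Prod.ext ?_ ?_) <;>
    · simp only
      push_cast
      ring

theorem slideStatement : SlideStatement := by
  intro Q u v w b hQ he he' huw hF
  obtain ⟨a, ha⟩ : ∃ a, a = v - u := ⟨_, rfl⟩
  obtain ⟨a', ha'⟩ : ∃ a', a' = w - v := ⟨_, rfl⟩
  have hu : u = v - a := by rw [ha]; abel
  have hw : w = v + a' := by rw [ha']; abel
  rw [← ha] at hF ⊢
  rw [← ha']
  rw [hu, Sym2.eq_swap] at he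
  rw [hw] at he'
  have i1 := isUnit3_of_frm hF
  have i2 : IsUnit3 a' := by
    have := isUnit3_of_adj (hQ.adj _ _ he')
    rwa [add_sub_cancel_left] at this
  have hne : a' ≠ -a := by
    intro h
    apply huw
    rw [hu, hw, h, sub_eq_add_neg]
  rw [hu]
  by_cases haa : a' = a
  · subst haa
    exact ⟨b, hF, slide_straight hQ he he' hF⟩
  · have hF' : Frm a a' (crs a a') := by
      clear hF he he' hu hw ha ha' huw
      rcases unit_cases i1 with rfl | rfl | rfl | rfl | rfl | rfl <;>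
        rcases unit_cases i2 with rfl | rfl | rfl | rfl | rfl | rfl <;>
        first
        | decide
        | exact absurd rfl haa
        | exact absurd (by decide) hne
    exact slide_corner hQ he he' hF' hF

end Pool.Agent.KTube
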