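import Pool.Agent.KTube.Types
import Pool.Agent.KTube.CutV0
import Pool.Agent.MP_aea6d5_co.FrameMoves

/-! Inserting a pattern in a small box on an edge; sliding; the statements for the middle lemma. -/

set_option autoImplicit false

open Set

namespace Pool.Agent.KTube

open Pool.Agent.LK

/-- The vector product. -/
def crs (a b : P3) : P3 :=
  (a.2.1 * b.2.2 - a.2.2 * b.2.1, a.2.2 * b.1 - a.1 * b.2.2, a.1 * b.2.1 - a.2.1 * b.1)

/-- The closed box. -/
def Bx : Set R3 := {p | |p.1| ≤ 1 ∧ |p.2.1| ≤ 1 ∧ |p.2.2| ≤ 1}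

/-- The pattern `J` inserted in `X` in the place `σ`. -/
def insr (X : Set R3) (σ : R3 → R3) (J : Set R3) : Set R3 := (X \ σ '' Bx) ∪ σ '' J

/-- The place `σ` can be moved to the place `τ` by a homeomorphism of space that preserves `X`. -/
def Sld (X : Set R3) (σ τ : R3 → R3) : Prop :=
  ∃ h : R3 ≃ₜ R3, h '' X = X ∧ ∀ p ∈ Bx, h (σ p) = τ p

/-- The box of radius `1/32` at the middle of the edge `u, u + a`, with the frame
`a, b, crs a b`. -/
noncomputable def cht (u a b : P3) (p : R3) : R3 :=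
  ((u.1 : ℝ) + (1 / 2 + p.1 / 32) * a.1 + p.2.1 / 32 * b.1 + p.2.2 / 32 * (crs a b).1,
    (u.2.1 : ℝ) + (1 / 2 + p.1 / 32) * a.2.1 + p.2.1 / 32 * b.2.1 + p.2.2 / 32 * (crs a b).2.1,
    (u.2.2 : ℝ) + (1 / 2 + p.1 / 32) * a.2.2 + p.2.1 / 32 * b.2.2 + p.2.2 / 32 * (crs a b).2.2)

/-- (S1) Sliding over one vertex. -/
def SlideStatement : Prop := ∀ (Q : Finset (Sym2 P3)) (u v w b : P3), IsPolygon Q →
  s(u, v) ∈ Q → s(v, w) ∈ Q → u ≠ w → Frm (v - u) b (crs (v - u) b) →
  ∃ b', Frm (w - v) b' (crs (w - v) b') ∧ Sld (body Q) (cht u (v - u) b) (cht v (w - v) b')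

/-- (S2) Turning around an edge. -/
def TurnStatement : Prop := ∀ (Q : Finset (Sym2 P3)) (u a b b' : P3), IsPolygon Q →
  s(u, u + a) ∈ Q → Frm a b (crs a b) → Frm a b' (crs a b') →
  Sld (body Q) (cht u a b) (cht u a b')

/-- A block between the planes `k + 1/2` and `m + 1/2`. -/
def IsBlock (M : Finset (Sym2 P3)) (k m : ℤ) : Prop := k < m ∧ IsUpp M k ∧ IsLow M m

/-- The strand of the block `M` that starts in the column `1` at the bottom ends in the column
`1` at the top. -/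
def Even (M : Finset (Sym2 P3)) (k m : ℤ) : Prop :=
  Relation.ReflTransGen (fun a b => s(a, b) ∈ M ∧ s(a, b) ≠ cap k ∧ s(a, b) ≠ cap (m + 1))
    (1, 0, k) (1, 0, m + 1)

/-- (M2) The type of a composition depends only on the parity of an unknotted middle block. -/
def MiddleStatement : Prop := ∀ (A B M M' : Finset (Sym2 P3)) (k k' m : ℤ),
  IsLow A k → IsBlock M k m → IsBlock M' k' m → IsUpp B m → Unknotted M → Unknotted M' →
  (Even M k m ↔ Even M' k' m) →
  SameType (glue A (glue M B m) k) (glue (shift (0, 0, k' - k) A) (glue M' B m) k')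

end Pool.Agent.KTube
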