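import Pool.Agent.KTube.Defs
import Pool.Agent.MP_aea6d5_co.Basic

/-! Moving two strands to the reference columns: walks in the graph of pairs of columns. -/

set_option autoImplicit false

namespace Pool.Agent.KTube

open Pool.Agent.LK

/-- The columns of the tube. -/
def InBox (L M : ℕ) (c : ℤ × ℤ) : Prop := 0 ≤ c.1 ∧ c.1 ≤ L ∧ 0 ≤ c.2 ∧ c.2 ≤ M

/-- One strand of the pair `s` moves from the column `a` to the free adjacent column `a'`. -/
structure Move (L M : ℕ) (s : Set (ℤ × ℤ)) (a a' : ℤ × ℤ) : Prop where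
  mem : a ∈ s
  notMem : a' ∉ s
  adj : Adj2 a a'
  box : InBox L M a'

/-- The pair after the move. -/
def moved (s : Set (ℤ × ℤ)) (a a' : ℤ × ℤ) : Set (ℤ × ℤ) := insert a' (s \ {a})

/-- The pair `s` reaches the reference pair in `d` moves, and not earlier on the way. -/
inductive Reach (L M : ℕ) : ℕ → Set (ℤ × ℤ) → Prop
  | zero : Reach L M 0 V0
  | succ {d : ℕ} {s : Set (ℤ × ℤ)} {a a' : ℤ × ℤ} : s ≠ V0 → Move L M s a a' →
      Reach L M d (moved s a a') → Reach L M (d + 1) s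

theorem pair_comm' (a b : ℤ × ℤ) : ({a, b} : Set (ℤ × ℤ)) = {b, a} := Set.pair_comm a b

theorem moved_pair {a b a' : ℤ × ℤ} (hab : a ≠ b) : moved {a, b} a a' = {a', b} := by
  unfold moved
  congr 1
  ext c
  simp only [Set.mem_diff, Set.mem_insert_iff, Set.mem_singleton_iff]
  constructor
  · rintro ⟨rfl | rfl, h2⟩
    · exact absurd rfl h2
    · rfl
  · rintro rfl
    exact ⟨Or.inr rfl, fun h => hab h.symm⟩

/-- A pair other than the reference pair and `{(0,0), (0,1)}` has a move to the left or down. -/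
theorem exists_down {L M : ℕ} {a b : ℤ × ℤ} (ha : InBox L M a) (hb : InBox L M b) (hab : a ≠ b)
    (h1 : ({a, b} : Set (ℤ × ℤ)) ≠ V0) (h2 : ({a, b} : Set (ℤ × ℤ)) ≠ {(0, 0), (0, 1)}) :
    (∃ a', Move L M {a, b} a a' ∧ a'.1 + a'.2 + 1 = a.1 + a.2) ∨
    (∃ b', Move L M {a, b} b b' ∧ b'.1 + b'.2 + 1 = b.1 + b.2) := by
  -- one strand, the other one is not smaller
  have key : ∀ a b : ℤ × ℤ, InBox L M a → InBox L M b → a ≠ b → a ≠ (0, 0) →
      a.1 + a.2 ≤ b.1 + b.2 → ∃ a', Move L M {a, b} a a' ∧ a'.1 + a'.2 + 1 = a.1 + a.2 := by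
    rintro ⟨a1, a2⟩ ⟨b1, b2⟩ ⟨p1, p2, p3, p4⟩ - hne hz hle
    simp only at p1 p2 p3 p4 hle
    rcases eq_or_lt_of_le p1 with h | h
    · have h0 : 0 < a2 := by
        rcases eq_or_lt_of_le p3 with h' | h'
        · exact absurd (by rw [← h, ← h']) hz
        · exact h'
      refine ⟨(a1, a2 - 1), ⟨by simp, ?_, by simp [Adj2], ⟨p1, p2, by simp only; omega,
        by simp only; omega⟩⟩, by simp only; omega⟩
      simp only [Set.mem_insert_iff, Set.mem_singleton_iff, Prod.mk.injEq]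
      rintro (⟨-, h5⟩ | ⟨h5, h6⟩) <;> omega
    · refine ⟨(a1 - 1, a2), ⟨by simp, ?_, by simp [Adj2], ⟨by simp only; omega,
        by simp only; omega, p3, p4⟩⟩, by simp only; omega⟩
      simp only [Set.mem_insert_iff, Set.mem_singleton_iff, Prod.mk.injEq]
      rintro (⟨h5, -⟩ | ⟨h5, h6⟩) <;> omega
  -- one strand at the origin
  have key0 : ∀ b : ℤ × ℤ, InBox L M b → (0, 0) ≠ b → ({(0, 0), b} : Set (ℤ × ℤ)) ≠ V0 →
      ({(0, 0), b} : Set (ℤ × ℤ)) ≠ {(0, 0), (0, 1)} →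
      ∃ b', Move L M {(0, 0), b} b b' ∧ b'.1 + b'.2 + 1 = b.1 + b.2 := by
    rintro ⟨b1, b2⟩ ⟨p1, p2, p3, p4⟩ hne h1 h2
    simp only at p1 p2 p3 p4
    have hne1 : ¬ (b1 = 1 ∧ b2 = 0) := by
      rintro ⟨rfl, rfl⟩; exact h1 rfl
    have hne2 : ¬ (b1 = 0 ∧ b2 = 1) := by
      rintro ⟨rfl, rfl⟩; exact h2 rfl
    have hne3 : ¬ (b1 = 0 ∧ b2 = 0) := by
      rintro ⟨rfl, rfl⟩; exact hne rfl
    by_cases h : 0 < b1 ∧ ¬ (b1 = 1 ∧ b2 = 0)
    · refine ⟨(b1 - 1, b2), ⟨by simp, ?_, by simp [Adj2], ⟨by simp only; omega,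
        by simp only; omega, p3, p4⟩⟩, by simp only; omega⟩
      simp only [Set.mem_insert_iff, Set.mem_singleton_iff, Prod.mk.injEq]
      rintro (⟨h5, h6⟩ | ⟨h5, h6⟩) <;> omega
    · refine ⟨(b1, b2 - 1), ⟨by simp, ?_, by simp [Adj2], ⟨p1, p2, by simp only; omega,
        by simp only; omega⟩⟩, by simp only; omega⟩
      simp only [Set.mem_insert_iff, Set.mem_singleton_iff, Prod.mk.injEq]
      rintro (⟨h5, h6⟩ | ⟨h5, h6⟩) <;> omega
  rcases le_total (a.1 + a.2) (b.1 + b.2) with hle | hle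
  · by_cases hz : a = (0, 0)
    · right
      subst hz
      exact key0 b hb hab h1 h2
    · exact Or.inl (key a b ha hb hab hz hle)
  · by_cases hz : b = (0, 0)
    · left
      subst hz
      rw [Set.pair_comm] at h1 h2
      obtain ⟨a', h3, h4⟩ := key0 a ha hab.symm h1 h2
      rw [Set.pair_comm] at h3
      exact ⟨a', h3, h4⟩
    · right
      obtain ⟨b', h3, h4⟩ := key b a hb ha hab.symm hz hle
      rw [Set.pair_comm] at h3
      exact ⟨b', h3, h4⟩

theorem reach_side {L M : ℕ} (hL : 1 ≤ L) : Reach L M 2 {(0, 0), (0, 1)} := by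
  have hL' : (1 : ℤ) ≤ L := by exact_mod_cast hL
  refine Reach.succ (a := (0, 0)) (a' := (1, 0)) ?_ ⟨by simp, by simp, by simp [Adj2],
    ⟨by simp, by simpa using hL', by simp, by simp⟩⟩ ?_
  · intro h
    have : ((0, 1) : ℤ × ℤ) ∈ V0 := by rw [← h]; simp
    simp [V0] at this
  · rw [moved_pair (by simp)]
    refine Reach.succ (a := (0, 1)) (a' := (0, 0)) ?_ ⟨by simp, by simp, by simp [Adj2],
      ⟨by simp, by simp, by simp, by simp⟩⟩ ?_
    · intro h
      have : ((0, 1) : ℤ × ℤ) ∈ V0 := by rw [← h]; simp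
      simp [V0] at this
    · rw [Set.pair_comm, moved_pair (by simp)]
      exact Reach.zero

/-- Every pair of columns of the tube reaches the reference pair. -/
theorem exists_reach {L M : ℕ} (hL : 1 ≤ L) {s : Set (ℤ × ℤ)} (hs : s.ncard = 2)
    (hbox : ∀ c ∈ s, InBox L M c) : ∃ d, d ≤ 2 * (L + M) + 2 ∧ Reach L M d s := by
  have main : ∀ (n : ℕ) (a b : ℤ × ℤ), InBox L M a → InBox L M b → a ≠ b →
      a.1 + a.2 + (b.1 + b.2) = n → ∃ d, d ≤ n + 2 ∧ Reach L M d {a, b} := by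
    intro n
    induction n with
    | zero =>
      rintro ⟨a1, a2⟩ ⟨b1, b2⟩ ⟨p1, p2, p3, p4⟩ ⟨q1, q2, q3, q4⟩ hab hn
      simp only at p1 p2 p3 p4 q1 q2 q3 q4 hn
      exfalso
      refine hab (Prod.ext ?_ ?_) <;> simp only <;> push_cast at hn <;> omega
    | succ n ih =>
      intro a b ha hb hab hn
      by_cases h1 : ({a, b} : Set (ℤ × ℤ)) = V0
      · exact ⟨0, by omega, by rw [h1]; exact Reach.zero⟩
      by_cases h2 : ({a, b} : Set (ℤ × ℤ)) = {(0, 0), (0, 1)}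
      · exact ⟨2, by omega, by rw [h2]; exact reach_side hL⟩
      rcases exists_down ha hb hab h1 h2 with ⟨a', h3, h4⟩ | ⟨b', h3, h4⟩
      · have hne : a' ≠ b := fun h => h3.notMem (by rw [h]; simp)
        obtain ⟨d, hd, hr⟩ := ih a' b h3.box hb hne (by push_cast at hn; omega)
        refine ⟨d + 1, by omega, Reach.succ h1 h3 ?_⟩
        rwa [moved_pair hab]
      · have hne : b' ≠ a := fun h => h3.notMem (by rw [h]; simp)
        obtain ⟨d, hd, hr⟩ := ih b' a h3.box ha hne (by push_cast at hn; omega)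
        refine ⟨d + 1, by omega, Reach.succ h1 h3 ?_⟩
        rw [Set.pair_comm, moved_pair hab.symm]
        exact hr
  obtain ⟨a, b, hab, rfl⟩ := Set.ncard_eq_two.1 hs
  have ha := hbox a (by simp)
  have hb := hbox b (by simp)
  obtain ⟨p1, p2, p3, p4⟩ := ha
  obtain ⟨q1, q2, q3, q4⟩ := hb
  obtain ⟨d, hd, hr⟩ := main (a.1 + a.2 + (b.1 + b.2)).toNat a b ⟨p1, p2, p3, p4⟩
    ⟨q1, q2, q3, q4⟩ hab (by omega)
  exact ⟨d, by omega, hr⟩

end Pool.Agent.KTube
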