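import Pool.Agent.KTube.StretchMem
import Pool.Agent.KTube.Reach
import Pool.Agent.MP_aea6d5_co.KMoves
import Pool.Agent.MP_aea6d5_co.PolyClosed

/-! Detours: at a section with two edges both strands walk to the reference columns and back. -/

set_option autoImplicit false

namespace Pool.Agent.KTube

open Pool.Agent.LK

variable {E F : Finset (Sym2 P3)} {L M : ℕ}

/-! ### One step -/

/-- Two straight levels are inserted at the plane `z = k + 1/2`, and between them the strand over
`a` is moved to `a'`. -/
noncomputable def step (E : Finset (Sym2 P3)) (k : ℤ) (a a' : ℤ × ℤ) : Finset (Sym2 P3) :=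
  bump (stretch E k 2) (a.1, a.2, k + 1) (a.1, a.2, k + 1 + 1) (a'.1 - a.1, a'.2 - a.2, 0)

theorem step_e1 (k : ℤ) (a a' : ℤ × ℤ) :
    (((a.1, a.2, k) : P3) + (a'.1 - a.1, a'.2 - a.2, 0)) = (a'.1, a'.2, k) := by
  refine Prod.ext ?_ (Prod.ext ?_ ?_) <;> simp

theorem mem_step {k : ℤ} {a a' : ℤ × ℤ} {f : Sym2 P3} : f ∈ step E k a a' ↔
    (f ∈ stretch E k 2 ∧ f ≠ s((a.1, a.2, k + 1), (a.1, a.2, k + 1 + 1))) ∨
    f = s((a.1, a.2, k + 1), (a'.1, a'.2, k + 1)) ∨
    f = s((a'.1, a'.2, k + 1), (a'.1, a'.2, k + 1 + 1)) ∨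
    f = s((a'.1, a'.2, k + 1 + 1), (a.1, a.2, k + 1 + 1)) := by
  unfold step
  rw [mem_bump, step_e1, step_e1]

/-- The situation in which a step is made. -/
structure StepOk (L M : ℕ) (E : Finset (Sym2 P3)) (k : ℤ) (a a' : ℤ × ℤ) : Prop where
  poly : IsPolygon E
  tube : InTube L M E
  move : Move L M (cross E k) a a'

namespace StepOk

variable {k : ℤ} {a a' : ℤ × ℤ}

theorem edge (h : StepOk L M E k a a') :
    s((a.1, a.2, k + 1), (a.1, a.2, k + 1 + 1)) ∈ stretch E k 2 := by
  rw [mem_stretch]
  refine Or.inr (Or.inr ⟨a.1, a.2, 1, by norm_num, h.move.mem, by simp⟩)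

theorem free (h : StepOk L M E k a a') {z : ℤ} (h1 : k + 1 ≤ z) (h2 : z ≤ k + 2) :
    ((a'.1, a'.2, z) : P3) ∉ verts (stretch E k 2) := by
  intro hu
  rcases verts_stretch hu with ⟨-, h3⟩ | ⟨-, h3⟩ | ⟨h3, -, -⟩
  · simp only at h3; omega
  · simp only at h3; push_cast at h3; omega
  · exact h.move.notMem h3

theorem unit (h : StepOk L M E k a a') : IsUnit3 (a'.1 - a.1, a'.2 - a.2, 0) := by
  have := h.move.adj
  unfold Adj2 at this
  simp only [IsUnit3, Adj, Prod.fst_zero, Prod.snd_zero, sub_zero, abs_zero, add_zero]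
  rw [abs_sub_comm a'.1, abs_sub_comm a'.2]
  exact this

theorem ne (h : StepOk L M E k a a') : a ≠ a' := fun he => h.move.notMem (he ▸ h.move.mem)

theorem isPolygon (hS : StretchStatement) (h : StepOk L M E k a a') :
    IsPolygon (step E k a a') := by
  refine isPolygon_bump (hS E k 2 h.poly).1 h.edge h.unit ?_ ?_
  · rw [step_e1]; exact h.free le_rfl (by omega)
  · rw [step_e1]; exact h.free (by omega) (by omega)

theorem sameType (hS : StretchStatement) (h : StepOk L M E k a a') :
    SameType E (step E k a a') := by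
  refine (hS E k 2 h.poly).2.trans (moveFacts.bump _ _ _ _ (hS E k 2 h.poly).1 h.edge h.unit ?_ ?_)
  · rw [step_e1]; exact h.free le_rfl (by omega)
  · rw [step_e1]; exact h.free (by omega) (by omega)

theorem verts_step (h : StepOk L M E k a a') {u : P3} (hu : u ∈ verts (step E k a a')) :
    u ∈ verts (stretch E k 2) ∨ u = (a'.1, a'.2, k + 1) ∨ u = (a'.1, a'.2, k + 1 + 1) := by
  have := verts_bump h.edge hu
  rwa [step_e1, step_e1] at this

theorem inTube (h : StepOk L M E k a a') : InTube L M (step E k a a') := by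
  intro u hu
  rcases h.verts_step hu with h1 | rfl | rfl
  · exact inTube_stretch h.tube u h1
  · exact h.move.box
  · exact h.move.box

theorem grounded (h : StepOk L M E k a a') (hG : Grounded E) : Grounded (step E k a a') := by
  have hk0 : 0 ≤ k := hG.1 _ (left_mem_verts h.move.mem)
  have hS := grounded_stretch (h := 2) h.poly.adj hG ⟨a, h.move.mem⟩
  refine ⟨?_, ?_⟩
  · intro u hu
    rcases h.verts_step hu with h1 | rfl | rfl
    · exact hS.1 u h1
    · simp only; omega
    · simp only; omega
  · obtain ⟨u, ⟨v, huv⟩, hu⟩ := hS.2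
    refine ⟨u, ⟨v, ?_⟩, hu⟩
    rw [mem_step]
    refine Or.inl ⟨huv, ?_⟩
    intro he
    rw [Sym2.eq_iff] at he
    rcases he with ⟨rfl, -⟩ | ⟨rfl, -⟩ <;> simp only at hu <;> omega

theorem card_le (h : StepOk L M E k a a') (h2 : (cross E k).ncard = 2) :
    (step E k a a').card ≤ E.card + 6 := by
  have h1 := card_stretch_le E k 2
  rw [h2] at h1
  have h3 : (step E k a a').card ≤ ((stretch E k 2).card - 1) + 3 := by
    unfold step bump
    refine (Finset.card_union_le _ _).trans (add_le_add ?_ ?_)
    · rw [Finset.sdiff_singleton_eq_erase, Finset.card_erase_of_mem h.edge]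
    · exact Finset.card_le_three
  have h4 : 1 ≤ (stretch E k 2).card := Finset.card_pos.2 ⟨_, h.edge⟩
  omega

theorem cross_low (h : StepOk L M E k a a') {j : ℤ} (hj : j ≤ k) :
    cross (step E k a a') j = cross E j := by
  rw [← cross_stretch_low (E := E) (h := 2) hj]
  ext ⟨b1, b2⟩
  simp only [mem_cross]
  rw [mem_step]
  constructor
  · rintro (⟨h1, -⟩ | h1 | h1 | h1)
    · exact h1
    all_goals
      rw [Sym2.eq_iff] at h1
      simp only [Prod.mk.injEq] at h1
      omega
  · intro h1
    refine Or.inl ⟨h1, ?_⟩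
    intro h2
    rw [Sym2.eq_iff] at h2
    simp only [Prod.mk.injEq] at h2
    omega

theorem cross_high (h : StepOk L M E k a a') {j : ℤ} (hj : k + 2 ≤ j) :
    cross (step E k a a') j = cross E (j - 2) := by
  have := cross_stretch_high (E := E) (k := k) (h := 2) (j := j) (by push_cast; omega)
  push_cast at this
  rw [← this]
  ext ⟨b1, b2⟩
  simp only [mem_cross]
  rw [mem_step]
  constructor
  · rintro (⟨h1, -⟩ | h1 | h1 | h1)
    · exact h1
    all_goals
      rw [Sym2.eq_iff] at h1
      simp only [Prod.mk.injEq] at h1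
      omega
  · intro h1
    refine Or.inl ⟨h1, ?_⟩
    intro h2
    rw [Sym2.eq_iff] at h2
    simp only [Prod.mk.injEq] at h2
    omega

theorem cross_mid (h : StepOk L M E k a a') :
    cross (step E k a a') (k + 1) = moved (cross E k) a a' := by
  have hc := cross_stretch_mid (E := E) (k := k) (h := 2) (j := k + 1) (by omega)
    (by push_cast; omega)
  ext ⟨b1, b2⟩
  have hb : ((b1, b2) : ℤ × ℤ) ∈ cross (stretch E k 2) (k + 1) ↔ (b1, b2) ∈ cross E k := by
    rw [hc]
  rw [mem_cross] at hb
  simp only at hb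
  simp only [mem_cross, moved, Set.mem_insert_iff, Set.mem_sdiff, Set.mem_singleton_iff]
  rw [mem_step, hb]
  simp only [mem_cross]
  constructor
  · rintro (⟨h1, h2⟩ | h1 | h1 | h1)
    · refine Or.inr ⟨h1, ?_⟩
      rintro rfl
      exact h2 rfl
    · rw [Sym2.eq_iff] at h1
      simp only [Prod.mk.injEq] at h1
      omega
    · rw [Sym2.eq_iff] at h1
      simp only [Prod.mk.injEq] at h1
      rcases h1 with ⟨⟨rfl, rfl, -⟩, -⟩ | ⟨⟨-, -, h2⟩, -⟩
      · exact Or.inl rfl
      · omega
    · rw [Sym2.eq_iff] at h1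
      simp only [Prod.mk.injEq] at h1
      omega
  · rintro (h1 | ⟨h1, h2⟩)
    · refine Or.inr (Or.inr (Or.inl ?_))
      rw [← h1]
    · refine Or.inl ⟨h1, ?_⟩
      intro h3
      rw [Sym2.eq_iff] at h3
      simp only [Prod.mk.injEq] at h3
      rcases h3 with ⟨⟨rfl, rfl, -⟩, -⟩ | ⟨⟨-, -, h3⟩, -⟩
      · exact h2 rfl
      · omega

theorem inj (h : StepOk L M E k a a') (h' : StepOk L M F k a a')
    (heq : step E k a a' = step F k a a') : E = F := by
  refine stretch_injective h.poly.adj h'.poly.adj (k := k) (h := 2) ?_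
  have key : ∀ {E F : Finset (Sym2 P3)}, StepOk L M E k a a' → StepOk L M F k a a' →
      step E k a a' = step F k a a' → ∀ u v, s(u, v) ∈ stretch E k 2 → s(u, v) ∈ stretch F k 2 := by
    intro E F h h' heq u v huv
    by_cases he : s(u, v) = s((a.1, a.2, k + 1), (a.1, a.2, k + 1 + 1))
    · rw [he]; exact h'.edge
    · have h1 : s(u, v) ∈ step F k a a' := by
        rw [← heq, mem_step]
        exact Or.inl ⟨huv, he⟩
      rw [mem_step] at h1
      have hf1 := h.free (z := k + 1) le_rfl (by omega)
      have hf2 := h.free (z := k + 1 + 1) (by omega) (by omega)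
      have hu := left_mem_verts huv
      have hv := right_mem_verts huv
      rcases h1 with ⟨h1, -⟩ | h1 | h1 | h1
      · exact h1
      all_goals
        exfalso
        rw [Sym2.eq_iff] at h1
        rcases h1 with ⟨rfl, rfl⟩ | ⟨rfl, rfl⟩ <;> tauto
  exact edge_ext fun u v => ⟨key h h' heq u v, key h' h heq.symm u v⟩

end StepOk

/-! ### A walk to the reference pair and back -/

open Classical in
/-- The chosen move. -/
noncomputable def nxt (L M d : ℕ) (s : Set (ℤ × ℤ)) : (ℤ × ℤ) × (ℤ × ℤ) :=
  if h : ∃ p : (ℤ × ℤ) × (ℤ × ℤ), Move L M s p.1 p.2 ∧ Reach L M d (moved s p.1 p.2) then h.choose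
  else ((0, 0), (0, 0))

theorem nxt_spec {d : ℕ} {s : Set (ℤ × ℤ)} (h : Reach L M (d + 1) s) :
    s ≠ V0 ∧ Move L M s (nxt L M d s).1 (nxt L M d s).2 ∧
      Reach L M d (moved s (nxt L M d s).1 (nxt L M d s).2) := by
  cases h with
  | succ h1 h2 h3 =>
    have hex : ∃ p : (ℤ × ℤ) × (ℤ × ℤ), Move L M s p.1 p.2 ∧ Reach L M d (moved s p.1 p.2) :=
      ⟨(_, _), h2, h3⟩
    refine ⟨h1, ?_⟩
    unfold nxt
    rw [dif_pos hex]
    exact hex.choose_spec

/-- The walk with `d` moves, starting at the plane `z = k + 1/2`. -/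
noncomputable def run (L M : ℕ) : ℕ → Finset (Sym2 P3) → ℤ → Finset (Sym2 P3)
  | 0, E, _ => E
  | d + 1, E, k => run L M d (step E k (nxt L M d (cross E k)).1 (nxt L M d (cross E k)).2) (k + 1)

theorem ncard_moved {s : Set (ℤ × ℤ)} {a a' : ℤ × ℤ} (h : Move L M s a a') (hs : s.ncard = 2) :
    (moved s a a').ncard = 2 := by
  obtain ⟨b, c, hbc, rfl⟩ := Set.ncard_eq_two.1 hs
  rcases h.mem with rfl | h1
  · rw [moved_pair hbc]
    exact Set.ncard_pair fun he => h.notMem (by rw [he]; simp)
  · rw [Set.mem_singleton_iff] at h1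
    subst h1
    rw [Set.pair_comm, moved_pair hbc.symm]
    exact Set.ncard_pair fun he => h.notMem (by rw [he]; simp)

/-- The properties of the walk. -/
structure RunFacts (L M d : ℕ) (E F : Finset (Sym2 P3)) (k : ℤ) : Prop where
  poly : IsPolygon F
  tube : InTube L M F
  type : SameType E F
  ground : Grounded E → Grounded F
  card : F.card ≤ E.card + 6 * d
  low : ∀ j ≤ k, cross F j = cross E j
  high : ∀ j, k + 2 * d ≤ j → cross F j = cross E (j - 2 * d)
  mid : ∀ j, k ≤ j → j ≤ k + 2 * d → (IsV0 F j ↔ j = k + d)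

theorem run_facts (hS : StretchStatement) : ∀ (d : ℕ) (E : Finset (Sym2 P3)) (k : ℤ),
    IsPolygon E → InTube L M E → (cross E k).ncard = 2 → Reach L M d (cross E k) →
    RunFacts L M d E (run L M d E k) k := by
  intro d
  induction d with
  | zero =>
    intro E k hE hT h2 hr
    refine ⟨hE, hT, SameType.refl E, id, by simp [run], fun j _ => rfl, fun j _ => by simp [run], ?_⟩
    intro j h3 h4
    have : j = k := by push_cast at h4; omega
    subst this
    simp only [run, Nat.cast_zero, add_zero, iff_true]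
    generalize hs : cross E j = s at hr
    cases hr
    exact hs
  | succ d ih =>
    intro E k hE hT h2 hr
    obtain ⟨h3, h4, h5⟩ := nxt_spec hr
    set a := (nxt L M d (cross E k)).1 with ha
    set a' := (nxt L M d (cross E k)).2 with ha'
    have hok : StepOk L M E k a a' := ⟨hE, hT, h4⟩
    have hrun : run L M (d + 1) E k = run L M d (step E k a a') (k + 1) := rfl
    have hcm := hok.cross_mid
    have hR := ih (step E k a a') (k + 1) (hok.isPolygon hS) hok.inTube
      (by rw [hcm]; exact ncard_moved h4 h2) (by rw [hcm]; exact h5)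
    rw [hrun]
    refine ⟨hR.poly, hR.tube, (hok.sameType hS).trans hR.type, fun hG => hR.ground (hok.grounded hG),
      ?_, ?_, ?_, ?_⟩
    · have := hR.card
      have := hok.card_le h2
      omega
    · intro j hj
      rw [hR.low j (by omega), hok.cross_low hj]
    · intro j hj
      push_cast at hj ⊢
      rw [hR.high j (by omega), hok.cross_high (by omega)]
      congr 1
      ring
    · intro j hj1 hj2
      push_cast at hj2 ⊢
      have hV : ∀ i, (cross (run L M d (step E k a a') (k + 1)) i = cross E k) →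
          ¬ IsV0 (run L M d (step E k a a') (k + 1)) i := by
        intro i hi h6
        exact h3 (hi ▸ h6)
      rcases eq_or_lt_of_le hj1 with rfl | hj1
      · constructor
        · intro h6
          exact absurd h6 (hV _ (by rw [hR.low k (by omega), hok.cross_low le_rfl]))
        · intro h6; omega
      rcases eq_or_lt_of_le hj2 with rfl | hj2
      · constructor
        · intro h6
          refine absurd h6 (hV _ ?_)
          rw [hR.high _ (by omega), hok.cross_high (by omega)]
          congr 1
          ring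
        · intro h6; omega
      rw [hR.mid j (by omega) (by omega)]
      constructor <;> intro h6 <;> omega

theorem run_inj (hS : StretchStatement) : ∀ (d : ℕ) (E F : Finset (Sym2 P3)) (k : ℤ),
    IsPolygon E → InTube L M E → (cross E k).ncard = 2 → Reach L M d (cross E k) →
    IsPolygon F → InTube L M F → (cross F k).ncard = 2 → Reach L M d (cross F k) →
    run L M d E k = run L M d F k → E = F := by
  intro d
  induction d with
  | zero => intro E F k _ _ _ _ _ _ _ _ h; exact h
  | succ d ih =>
    intro E F k hE hT h2 hr hE' hT' h2' hr' heq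
    have hc : cross E k = cross F k := by
      rw [← (run_facts hS (d + 1) E k hE hT h2 hr).low k le_rfl,
        ← (run_facts hS (d + 1) F k hE' hT' h2' hr').low k le_rfl, heq]
    obtain ⟨h3, h4, h5⟩ := nxt_spec hr
    have heq' : run L M d (step E k (nxt L M d (cross E k)).1 (nxt L M d (cross E k)).2) (k + 1) =
        run L M d (step F k (nxt L M d (cross F k)).1 (nxt L M d (cross F k)).2) (k + 1) := heq
    rw [← hc] at heq'
    set a := (nxt L M d (cross E k)).1 with ha
    set a' := (nxt L M d (cross E k)).2 with ha'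
    have hok : StepOk L M E k a a' := ⟨hE, hT, h4⟩
    have hok' : StepOk L M F k a a' := ⟨hE', hT', by rw [← hc]; exact h4⟩
    have hcm := hok.cross_mid
    have hcm' := hok'.cross_mid
    refine hok.inj hok' (ih _ _ (k + 1) (hok.isPolygon hS) hok.inTube
      (by rw [hcm]; exact ncard_moved h4 h2) (by rw [hcm]; exact h5) (hok'.isPolygon hS)
      hok'.inTube (by rw [hcm', ← hc]; exact ncard_moved h4 h2) (by rw [hcm', ← hc]; exact h5) heq')

/-! ### Insertion of a detour of fixed height -/

/-- The height parameter: a detour consists of `2 * hgt` new planes. -/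
def hgt (L M : ℕ) : ℕ := 2 * (L + M) + 2

open Classical in
/-- The number of moves of the detour for the pair `s`. -/
noncomputable def dst (L M : ℕ) (s : Set (ℤ × ℤ)) : ℕ :=
  if h : ∃ d, d ≤ hgt L M ∧ Reach L M d s then h.choose else 0

theorem dst_spec (hL : 1 ≤ L) {s : Set (ℤ × ℤ)} (hs : s.ncard = 2)
    (hbox : ∀ c ∈ s, InBox L M c) : dst L M s ≤ hgt L M ∧ Reach L M (dst L M s) s := by
  have h : ∃ d, d ≤ hgt L M ∧ Reach L M d s := exists_reach hL hs hbox
  unfold dst
  rw [dif_pos h]
  exact h.choose_spec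

/-- `E` with a detour inserted at the plane `z = k + 1/2`. -/
noncomputable def ins (L M : ℕ) (E : Finset (Sym2 P3)) (k : ℤ) : Finset (Sym2 P3) :=
  run L M (dst L M (cross E k)) (stretch E k (2 * (hgt L M - dst L M (cross E k))))
    (k + (hgt L M - dst L M (cross E k) : ℕ))

theorem box_cross {k : ℤ} (hT : InTube L M E) : ∀ c ∈ cross E k, InBox L M c :=
  fun c hc => hT (c.1, c.2, k) (left_mem_verts (mem_cross.1 hc))

/-- The properties of the insertion. -/
structure InsFacts (L M : ℕ) (E F : Finset (Sym2 P3)) (k : ℤ) : Prop where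
  poly : IsPolygon F
  tube : InTube L M F
  type : SameType E F
  ground : Grounded E → Grounded F
  card : F.card ≤ E.card + 6 * hgt L M
  low : ∀ j ≤ k, cross F j = cross E j
  high : ∀ j, k + 2 * hgt L M ≤ j → cross F j = cross E (j - 2 * hgt L M)
  mid : ∀ j, k ≤ j → j ≤ k + 2 * hgt L M → (IsV0 F j ↔ j = k + hgt L M)

theorem ins_facts (hS : StretchStatement) (hL : 1 ≤ L) {k : ℤ} (hE : IsPolygon E)
    (hT : InTube L M E) (h2 : IsTwo E k) (h0 : ¬ IsV0 E k) : InsFacts L M E (ins L M E k) k := by
  obtain ⟨hd, hr⟩ := dst_spec (M := M) hL h2 (box_cross hT)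
  set d := dst L M (cross E k) with hdef
  obtain ⟨e, he⟩ : ∃ e : ℕ, hgt L M - d = e := ⟨_, rfl⟩
  have hde : d + e = hgt L M := by omega
  have hins : ins L M E k = run L M d (stretch E k (2 * e)) (k + (e : ℕ)) := by
    unfold ins
    rw [← hdef, he]
  have hcm : cross (stretch E k (2 * e)) (k + e) = cross E k :=
    cross_stretch_mid (by omega) (by push_cast; omega)
  have hR := run_facts (L := L) (M := M) hS d (stretch E k (2 * e)) (k + e)
    (hS E k (2 * e) hE).1 (inTube_stretch hT) (by rw [hcm]; exact h2) (by rw [hcm]; exact hr)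
  rw [hins]
  have hH : (hgt L M : ℤ) = d + e := by rw [← hde]; push_cast; ring
  refine ⟨hR.poly, hR.tube, (hS E k (2 * e) hE).2.trans hR.type, ?_, ?_, ?_, ?_, ?_⟩
  · intro hG
    exact hR.ground (grounded_stretch hE.adj hG (by
      rw [← Set.ncard_pos (cross_finite E k)]
      have : (cross E k).ncard = 2 := h2
      omega))
  · have h3 := hR.card
    have h4 := card_stretch_le E k (2 * e)
    have h5 : (cross E k).ncard = 2 := h2
    rw [h5] at h4
    omega
  · intro j hj
    rw [hR.low j (by omega), cross_stretch_low hj]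
  · intro j hj
    rw [hR.high j (by omega), cross_stretch_high (by push_cast; omega)]
    congr 1
    push_cast
    omega
  · intro j hj1 hj2
    by_cases h3 : k + e ≤ j
    · by_cases h4 : j ≤ k + e + 2 * d
      · rw [hR.mid j h3 h4]
        constructor <;> intro h6 <;> omega
      · constructor
        · intro h6
          exfalso
          apply h0
          have h7 : cross (run L M d (stretch E k (2 * e)) (k + e)) j = cross E k := by
            rw [hR.high j (by omega)]
            exact cross_stretch_mid (by omega) (by push_cast; omega)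
          exact h7.symm.trans h6
        · intro h6; omega
    · constructor
      · intro h6
        exfalso
        apply h0
        have h7 : cross (run L M d (stretch E k (2 * e)) (k + e)) j = cross E k := by
          rw [hR.low j (by omega)]
          exact cross_stretch_mid (by omega) (by push_cast; omega)
        exact h7.symm.trans h6
      · intro h6
        omega

theorem hgt_pos (L M : ℕ) : 0 < hgt L M := by unfold hgt; omega

theorem ins_inj (hS : StretchStatement) (hL : 1 ≤ L) {k : ℤ} (hE : IsPolygon E)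
    (hT : InTube L M E) (h2 : IsTwo E k) (h0 : ¬ IsV0 E k) (hF : IsPolygon F)
    (hT' : InTube L M F) (h2' : IsTwo F k) (h0' : ¬ IsV0 F k)
    (heq : ins L M E k = ins L M F k) : E = F := by
  have hc : cross E k = cross F k := by
    rw [← (ins_facts hS hL hE hT h2 h0).low k le_rfl,
      ← (ins_facts hS hL hF hT' h2' h0').low k le_rfl, heq]
  obtain ⟨hd, hr⟩ := dst_spec (M := M) hL h2 (box_cross hT)
  unfold ins at heq
  rw [← hc] at heq
  set d := dst L M (cross E k) with hdef
  obtain ⟨e, he⟩ : ∃ e : ℕ, hgt L M - d = e := ⟨_, rfl⟩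
  rw [he] at heq
  have hcm : cross (stretch E k (2 * e)) (k + e) = cross E k :=
    cross_stretch_mid (by omega) (by push_cast; omega)
  have hcm' : cross (stretch F k (2 * e)) (k + e) = cross F k :=
    cross_stretch_mid (by omega) (by push_cast; omega)
  have := run_inj (L := L) (M := M) hS d (stretch E k (2 * e)) (stretch F k (2 * e)) (k + e)
    (hS E k (2 * e) hE).1 (inTube_stretch hT) (by rw [hcm]; exact h2) (by rw [hcm]; exact hr)
    (hS F k (2 * e) hF).1 (inTube_stretch hT') (by rw [hcm']; exact h2')
    (by rw [hcm', ← hc]; exact hr) heq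
  exact stretch_injective hE.adj hF.adj this

end Pool.Agent.KTube
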