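import Pool.Agent.KTube.Few
import Pool.Agent.MP_aea6d5_co.B1

/-! The radius of convergence and the pieces. -/

set_option autoImplicit false

open scoped ENNReal
open Filter Topology

namespace Pool.Agent.KTube

open Pool.Agent.LK

variable {E A B : Finset (Sym2 P3)} {k i j : ℤ} {L M : ℕ} {y : ℝ}

/-! ### The pieces are good -/

theorem freeSet_good : FreeSet L M ⊆ GoodSet L M := fun _ h =>
  ⟨h.1.1, h.1.2.1, h.1.2.2, fun j hj => absurd hj (h.2 j)⟩

theorem botSet_good : BotSet L M ⊆ GoodSet L M := by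
  rintro E ⟨hG, -, k, hk, hA, hu⟩
  refine ⟨hG.1, hG.2.1, hG.2.2, fun j hj => Or.inr fun i hi => ?_⟩
  have h0 := ground_nonneg hG.2.2 hj.nonempty
  have h1 := hu j (by omega) hj
  subst h1
  exact hA.cross_empty hi

theorem midSet_good : MidSet L M ⊆ GoodSet L M := by
  rintro E ⟨hG, -, k, hk, hA, hu⟩
  refine ⟨hG.1, hG.2.1, hG.2.2, fun j hj => ?_⟩
  have h0 := ground_nonneg hG.2.2 hj.nonempty
  rcases eq_or_lt_of_le h0 with h | h
  · exact Or.inl h.symm
  · have h1 := hu j h hj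
    subst h1
    exact Or.inr fun i hi => hA.cross_empty hi

theorem topSet_good : TopSet L M ⊆ GoodSet L M := by
  intro E h
  have hG := gr_of_uppSet h.1
  refine ⟨hG.1, hG.2.1, hG.2.2, fun j hj => ?_⟩
  have h0 := ground_nonneg hG.2.2 hj.nonempty
  rcases eq_or_lt_of_le h0 with h1 | h1
  · exact Or.inl h1.symm
  · exact absurd hj (h.2 j h1)

/-- The generating function of a set of upper parts. -/
noncomputable def gB (y : ℝ) (S : Set (Finset (Sym2 P3))) (x : ℝ) : ℝ≥0∞ :=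
  gset S lB (wB (ENNReal.ofReal y)) (ENNReal.ofReal x)

theorem gB_eq (S : Set (Finset (Sym2 P3))) (x : ℝ) (hS : ∀ E ∈ S, 4 ≤ E.card ∧ 1 ≤ span E) :
    ENNReal.ofReal y * ENNReal.ofReal x ^ 2 * gB y S x = gx y S x := by
  unfold gB gx gset gf
  rw [← ENNReal.tsum_mul_left]
  refine tsum_congr fun E => ?_
  obtain ⟨h1, h2⟩ := hS E.1 E.2
  unfold wB wE lB lE
  beta_reduce
  have e1 : span E.1 = (span E.1 - 1) + 1 := by omega
  have e2 : E.1.card / 2 = (E.1.card / 2 - 2) + 2 := by omega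
  conv_rhs => rw [e1, e2, pow_succ, pow_add]
  ring

theorem uppSet_bounds (h : E ∈ UppSet L M) : 4 ≤ E.card ∧ 1 ≤ span E :=
  ⟨four_le_card h.1.1 h.1.2.1 h.1.2.2.1, span_pos h.1.2.1.nonempty⟩

theorem midSet_upp : MidSet L M ⊆ UppSet L M := fun _ h => ⟨h.2.1, h.1.2.1⟩

theorem gB_lt_top {S : Set (Finset (Sym2 P3))} {x : ℝ} (hS : ∀ E ∈ S, 4 ≤ E.card ∧ 1 ≤ span E)
    (hy : 0 < y) (hx : 0 < x) (h : gx y S x < ∞) : gB y S x < ∞ := by
  rw [← gB_eq S x hS] at h
  refine ENNReal.lt_top_of_mul_ne_top_right h.ne ?_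
  refine mul_ne_zero ?_ (pow_ne_zero _ ?_)
  · simpa using hy
  · simpa using hx

/-! ### The unit square and the rectangle -/

/-- The unit square over the reference columns. -/
def sq : Finset (Sym2 P3) := hang 0 0 1

theorem sq_eq : sq = {cap 1, leg1 0, cap 0, leg0 0} := by
  have h1 : s(((0 + 1, 0, 1) : P3), (0 + 1, 0, 1 - 1)) = leg1 0 := by
    unfold leg1
    rw [Sym2.eq_swap]
    rfl
  have h2 : s(((0 + 1, 0, 1 - 1) : P3), (0, 0, 1 - 1)) = cap 0 := by
    unfold cap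
    rw [Sym2.eq_swap]
    rfl
  unfold sq hang
  rw [h1, h2]
  rfl

theorem isPolygon_sq : IsPolygon sq := isPolygon_hang 0 0 1

theorem unknotted_sq : Unknotted sq := unknotted_hang 0 0 1

theorem isV0_sq : IsV0 sq k ↔ k = 0 := by
  constructor
  · intro h
    have h1 := h.leg0_mem
    rw [sq_eq] at h1
    simp only [Finset.mem_insert, Finset.mem_singleton] at h1
    rcases h1 with h1 | h1 | h1 | h1
    · exact absurd h1.symm (cap_ne_leg0 _ _)
    · exact absurd h1 (leg0_ne_leg1' _ _)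
    · exact absurd h1.symm (cap_ne_leg0 _ _)
    · exact leg0_injective h1
  · rintro rfl
    rw [isV0_iff]
    intro a b
    rw [sq_eq]
    simp only [Finset.mem_insert, Finset.mem_singleton, cap, leg0, leg1, Sym2.eq_iff,
      Prod.mk.injEq]
    constructor
    · intro h
      omega
    · rintro (⟨rfl, rfl⟩ | ⟨rfl, rfl⟩)
      · simp
      · simp

theorem verts_sq {u : P3} (hu : u ∈ verts sq) :
    (u.1 = 0 ∨ u.1 = 1) ∧ u.2.1 = 0 ∧ (u.2.2 = 1 ∨ u.2.2 = 0) := by
  obtain ⟨v, hv⟩ := hu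
  have := mem_hang hv
  simpa using this

theorem isUpp_sq : IsUpp sq 0 := by
  refine ⟨isPolygon_sq, isV0_sq.2 rfl, ?_, fun u hu => ?_⟩
  · rw [sq_eq]; simp
  · have := verts_sq hu
    omega

theorem isLow_sq : IsLow sq 0 := by
  refine ⟨isPolygon_sq, isV0_sq.2 rfl, ?_, fun u hu => ?_⟩
  · rw [sq_eq]; simp
  · have := verts_sq hu
    omega

theorem inTube_sq (hL : 1 ≤ L) : InTube L M sq := by
  intro u hu
  have := verts_sq hu
  omega

theorem sq_mem_bot (hL : 1 ≤ L) : sq ∈ BotSet L M ∩ US :=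
  ⟨⟨⟨isPolygon_sq, inTube_sq hL, isUpp_sq.grounded⟩, trivial, 0, by norm_num, isLow_sq,
    fun _ _ h => isV0_sq.1 h⟩, unknotted_sq⟩

theorem sq_mem_top (hL : 1 ≤ L) : sq ∈ TopSet L M ∩ US :=
  ⟨⟨⟨isUpp_sq, inTube_sq hL⟩, fun _ hk h => hk.ne' (isV0_sq.1 h)⟩, unknotted_sq⟩

/-- The rectangle of height two. -/
noncomputable def rect : Finset (Sym2 P3) := stretch sq 0 1

theorem card_sq : sq.card ≤ 4 := by
  unfold sq hang
  exact Finset.card_le_four

theorem isV0_rect : IsV0 rect k ↔ k = 0 ∨ k = 1 := by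
  unfold rect
  rcases le_or_gt k 0 with h | h
  · have h1 : IsV0 (stretch sq 0 1) k ↔ IsV0 sq k := by
      unfold IsV0
      rw [cross_stretch_low h]
    rw [h1, isV0_sq]
    omega
  · have h1 : IsV0 (stretch sq 0 1) k ↔ IsV0 sq (k - 1) := by
      unfold IsV0
      rw [cross_stretch_high (by push_cast; omega)]
      rfl
    rw [h1, isV0_sq]
    omega

theorem rect_mem_mid (hT1 : StretchStatement) (hL : 1 ≤ L) : rect ∈ MidSet L M ∩ US := by
  obtain ⟨h1, h2⟩ := hT1 sq 0 1 isPolygon_sq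
  have hT : InTube L M rect := inTube_stretch (inTube_sq hL)
  have hv : ∀ u ∈ verts rect, 0 ≤ u.2.2 ∧ u.2.2 ≤ 2 := by
    intro u hu
    rcases verts_stretch hu with ⟨h3, h4⟩ | ⟨h3, h4⟩ | ⟨-, h3, h4⟩
    · have := verts_sq h3
      omega
    · have := verts_sq h3
      simp only [Prod.snd_sub] at this
      push_cast at *
      omega
    · push_cast at *
      omega
  have hc0 : cap 0 ∈ rect := by
    unfold cap rect
    rw [mem_stretch]
    refine Or.inl ⟨?_, le_rfl, le_rfl⟩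
    have : cap 0 ∈ sq := by rw [sq_eq]; simp
    exact this
  have hc2 : cap 2 ∈ rect := by
    unfold cap rect
    rw [mem_stretch]
    refine Or.inr (Or.inl ⟨?_, by norm_num, by norm_num⟩)
    have : cap 1 ∈ sq := by rw [sq_eq]; simp
    unfold cap at this
    convert this using 2
    · simp
    · simp
  have hU : IsUpp rect 0 := ⟨h1, isV0_rect.2 (Or.inl rfl), hc0, fun u hu => (hv u hu).1⟩
  have hLo : IsLow rect 1 := ⟨h1, isV0_rect.2 (Or.inr rfl), hc2, fun u hu => (hv u hu).2⟩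
  refine ⟨⟨⟨h1, hT, hU.grounded⟩, hU, 1, one_pos, hLo, fun i hi h => ?_⟩,
    h2.symm.unknotted unknotted_sq⟩
  have := isV0_rect.1 h
  omega

theorem lB_rect (hT1 : StretchStatement) : lB rect = 1 := by
  have h0 := rect_mem_mid (L := 1) (M := 1) hT1 le_rfl
  have h1 := one_le_lB_of_mid h0.1
  have h2 : rect.card ≤ 6 := by
    have h3 := card_stretch_le sq 0 1
    have h4 : (cross sq 0).ncard = 2 := by
      have h5 : cross sq 0 = V0 := isV0_sq.2 rfl
      rw [h5]
      unfold V0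
      rw [Set.ncard_pair (by simp)]
    rw [h4] at h3
    have := card_sq
    unfold rect
    omega
  unfold lB at *
  omega

/-! ### The number of sections with two edges -/

theorem ncard_two_le_card (E : Finset (Sym2 P3)) : {k : ℤ | IsTwo E k}.ncard ≤ E.card := by
  classical
  rw [← Set.ncard_coe_finset E]
  refine Set.ncard_le_ncard_of_injOn (fun k => if h : (cross E k).Nonempty then
    s(((h.some.1, h.some.2, k) : P3), (h.some.1, h.some.2, k + 1)) else s(0, 0)) ?_ ?_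
    E.finite_toSet
  · intro k hk
    have h1 : (cross E k).Nonempty := two_nonempty hk
    simp only [dif_pos h1]
    exact h1.some_mem
  · intro k hk j hj h
    have h1 : (cross E k).Nonempty := two_nonempty hk
    have h2 : (cross E j).Nonempty := two_nonempty hj
    simp only [dif_pos h1, dif_pos h2, Sym2.eq_iff, Prod.mk.injEq] at h
    omega

/-- All polygons at a small point. -/
theorem gx_small (hy : 0 < y) {z η : ℝ} (hz : 0 < z) (hη : 0 < η) (hη1 : η ≤ 1)
    (hs : Summable (fun E : {E : Finset (Sym2 P3) // IsPolygon E ∧ InTube L M E ∧ Grounded E} =>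
      z ^ E.1.card * y ^ span E.1 * η ^ {k : ℤ | IsTwo E.1 k}.ncard)) :
    gx y (PSet L M) ((z * η) ^ 2) < ∞ := by
  unfold gx gset gf
  refine lt_of_le_of_lt (ENNReal.tsum_le_tsum (g := fun E : PSet L M => ENNReal.ofReal
    (z ^ E.1.card * y ^ span E.1 * η ^ {k : ℤ | IsTwo E.1 k}.ncard)) fun E => ?_)
    hs.tsum_ofReal_lt_top
  obtain ⟨E, hE⟩ := E
  obtain ⟨c, hc⟩ := even_card hE.1
  have hl : lE E = c := by unfold lE; omega
  unfold wE
  beta_reduce
  rw [← ENNReal.ofReal_pow hy.le, ← ENNReal.ofReal_pow (by positivity),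
    ← ENNReal.ofReal_mul (by positivity)]
  refine ENNReal.ofReal_le_ofReal ?_
  have h1 : ((z * η) ^ 2) ^ lE E = z ^ E.card * η ^ E.card := by
    rw [← pow_mul, hl, hc, two_mul, mul_pow]
  rw [h1]
  have h2 : η ^ E.card ≤ η ^ {k : ℤ | IsTwo E k}.ncard :=
    pow_le_pow_of_le_one hη.le hη1 (ncard_two_le_card E)
  calc y ^ span E * (z ^ E.card * η ^ E.card)
      ≤ y ^ span E * (z ^ E.card * η ^ {k : ℤ | IsTwo E k}.ncard) := by gcongr
    _ = _ := by ring

theorem summable_of_gx (hy : 0 < y) {z : ℝ} (hz : 0 < z)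
    (h : gx y (PSet L M ∩ US) (z ^ 2) < ∞) :
    Summable (fun E : {E : Finset (Sym2 P3) // (IsPolygon E ∧ Unknotted E) ∧ InTube L M E ∧
      Grounded E} => z ^ E.1.card * y ^ span E.1) := by
  let f : {E : Finset (Sym2 P3) // (IsPolygon E ∧ Unknotted E) ∧ InTube L M E ∧ Grounded E} →
      (PSet L M ∩ US : Set (Finset (Sym2 P3))) :=
    fun E => ⟨E.1, ⟨E.2.1.1, E.2.2.1, E.2.2.2⟩, E.2.1.2⟩
  have hf : Function.Injective f := fun a b hab => Subtype.ext (congrArg
    (fun E : (PSet L M ∩ US : Set (Finset (Sym2 P3))) => E.1) hab)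
  unfold gx gset gf at h
  have h1 := (ENNReal.summable_toReal h.ne).comp_injective hf
  refine h1.congr fun E => ?_
  obtain ⟨c, hc⟩ := even_card E.2.1.1
  have hl : lE E.1 = c := by unfold lE; omega
  simp only [Function.comp_apply, f, wE]
  rw [← ENNReal.ofReal_pow hy.le, ← ENNReal.ofReal_pow (by positivity),
    ← ENNReal.ofReal_mul (by positivity), ENNReal.toReal_ofReal (by positivity), ← pow_mul, hl,
    hc, two_mul, mul_comm]

theorem exists_radius {g : ℝ → ℝ≥0∞} (hg : Monotone g) {x0 x1 : ℝ} (h0 : g x0 < ∞)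
    (h1 : g x1 = ∞) : ∃ ρ, x0 ≤ ρ ∧ ρ ≤ x1 ∧ (∀ x, x < ρ → g x < ∞) ∧ ∀ x, ρ < x → g x = ∞ := by
  have hne : {x | g x < ∞}.Nonempty := ⟨x0, h0⟩
  have hub : ∀ x ∈ {x | g x < ∞}, x ≤ x1 := by
    intro x hx
    by_contra hlt
    rw [not_le] at hlt
    have := hg hlt.le
    rw [h1, top_le_iff] at this
    exact (ne_of_lt hx) this
  have hbdd : BddAbove {x | g x < ∞} := ⟨x1, hub⟩
  refine ⟨sSup {x | g x < ∞}, le_csSup hbdd h0, csSup_le hne hub, ?_, ?_⟩
  · intro x hx
    obtain ⟨x', hx', hlt⟩ := exists_lt_of_lt_csSup hne hx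
    exact (hg hlt.le).trans_lt hx'
  · intro x hx
    by_contra h2
    have h3 : x ∈ {x | g x < ∞} := lt_top_iff_ne_top.2 h2
    exact absurd (le_csSup hbdd h3) (not_le.2 hx)

theorem gset_ne_zero {α : Type*} {S : Set α} {l : α → ℕ} {w : α → ℝ≥0∞} {x : ℝ≥0∞} {a : α}
    (ha : a ∈ S) (hw : w a ≠ 0) (hx : x ≠ 0) : gset S l w x ≠ 0 := by
  have h1 : w a * x ^ l a ≤ gset S l w x :=
    ENNReal.le_tsum (f := fun b : S => w b * x ^ l b) ⟨a, ha⟩
  intro h
  rw [h] at h1
  exact mul_ne_zero hw (pow_ne_zero _ hx) (nonpos_iff_eq_zero.1 h1)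

/-- What is known about the radius of convergence. -/
structure BootData (L M : ℕ) (y ρ : ℝ) : Prop where
  pos : 0 < ρ
  conv : ∀ x, 0 < x → x < ρ → evs (uS L M (ENNReal.ofReal y)) (ENNReal.ofReal x) < ∞
  div : ∀ x, ρ < x → evs (uS L M (ENNReal.ofReal y)) (ENNReal.ofReal x) = ∞
  pieceU : ∃ r, ρ < r ∧ gx y (GoodSet L M ∩ US) r < ∞
  pieceK : ∀ K, PrimeKnot K → ∃ r, ρ < r ∧ gx y (GoodSet L M ∩ KS K) r < ∞

theorem evs_decomp_US (hT1 : StretchStatement) (hT2 : CutStatement) (x : ℝ) :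
    gx y (PSet L M ∩ US) x = gx y (FreeSet L M ∩ US) x + gx y (BotSet L M ∩ US) x *
      evs (uS L M (ENNReal.ofReal y)) (ENNReal.ofReal x) * gB y (TopSet L M ∩ US) x := by
  unfold gx gB
  rw [← evs_sset, decomp_US hT1 hT2, evs_add, evs_mul, evs_mul, evs_sset, evs_sset, evs_sset]

theorem evs_decomp_KS (hT1 : StretchStatement) (hT2 : CutStatement) {K : Finset (Sym2 P3)}
    (hK : PrimeKnot K) (x : ℝ) :
    gx y (PSet L M ∩ KS K) x = gx y (FreeSet L M ∩ KS K) x +
      gx y (BotSet L M ∩ KS K) x * evs (uS L M (ENNReal.ofReal y)) (ENNReal.ofReal x) *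
        gB y (TopSet L M ∩ US) x +
      gx y (BotSet L M ∩ US) x * evs (uS L M (ENNReal.ofReal y)) (ENNReal.ofReal x) *
        gB y (TopSet L M ∩ KS K) x +
      gx y (BotSet L M ∩ US) x * evs (uS L M (ENNReal.ofReal y)) (ENNReal.ofReal x) *
        gB y (MidSet L M ∩ KS K) x * evs (uS L M (ENNReal.ofReal y)) (ENNReal.ofReal x) *
        gB y (TopSet L M ∩ US) x := by
  unfold gx gB
  rw [← evs_sset, decomp_KS hT1 hT2 hK]
  simp only [evs_add, evs_mul, evs_sset]

theorem u_one (hT1 : StretchStatement) (hL : 1 ≤ L) (hy : 1 ≤ y) :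
    evs (uS L M (ENNReal.ofReal y)) (ENNReal.ofReal 1) = ∞ := by
  set Y := ENNReal.ofReal y with hY
  have hY1 : 1 ≤ Y := by
    rw [hY, ← ENNReal.ofReal_one]
    exact ENNReal.ofReal_le_ofReal hy
  have h1 : 1 ≤ evs (sset (MidSet L M ∩ US) lB (wB Y)) (ENNReal.ofReal 1) := by
    rw [evs_sset, ENNReal.ofReal_one]
    refine le_trans ?_ (ENNReal.le_tsum (f := fun b : (MidSet L M ∩ US : Set (Finset (Sym2 P3))) =>
      wB Y b.1 * 1 ^ lB b.1) ⟨rect, rect_mem_mid hT1 hL⟩)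
    rw [one_pow, mul_one]
    exact one_le_pow₀ hY1
  have h2 : evs (uS L M Y) (ENNReal.ofReal 1) = 1 +
      evs (sset (MidSet L M ∩ US) lB (wB Y)) (ENNReal.ofReal 1) *
        evs (uS L M Y) (ENNReal.ofReal 1) := by
    conv_lhs => rw [uS_eq L M Y, evs_add, evs_mul, evs_one]
  by_contra h3
  have h4 : 1 + evs (uS L M Y) (ENNReal.ofReal 1) ≤ 0 + evs (uS L M Y) (ENNReal.ofReal 1) := by
    rw [zero_add]
    calc 1 + evs (uS L M Y) (ENNReal.ofReal 1)
        ≤ 1 + evs (sset (MidSet L M ∩ US) lB (wB Y)) (ENNReal.ofReal 1) *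
          evs (uS L M Y) (ENNReal.ofReal 1) := by
          refine add_le_add le_rfl ?_
          exact le_mul_of_one_le_left zero_le h1
      _ = evs (uS L M Y) (ENNReal.ofReal 1) := h2.symm
  rw [ENNReal.add_le_add_iff_right h3] at h4
  exact absurd h4 (by simp)

theorem boot (hT1 : StretchStatement) (hT2 : CutStatement) (hL : 1 ≤ L) (hy : 1 ≤ y)
    (hgap : Gap L M y) : ∃ ρ, BootData L M y ρ := by
  obtain ⟨z', z, η0, hz', hz, hη0, hs0, hns⟩ := hgap
  have hy0 : 0 < y := one_pos.trans_le hy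
  have hz0 : 0 < z := hz'.trans hz
  set η := min η0 1 with hηdef
  have hη : 0 < η := lt_min hη0 one_pos
  have hη1 : η ≤ 1 := min_le_right _ _
  have hs : Summable (fun E : {E : Finset (Sym2 P3) // IsPolygon E ∧ InTube L M E ∧ Grounded E} =>
      z ^ E.1.card * y ^ span E.1 * η ^ {k : ℤ | IsTwo E.1 k}.ncard) := by
    refine Summable.of_nonneg_of_le (fun E => by positivity) (fun E => ?_) hs0
    have : η ^ {k : ℤ | IsTwo E.1 k}.ncard ≤ η0 ^ {k : ℤ | IsTwo E.1 k}.ncard :=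
      pow_le_pow_left₀ hη.le (min_le_left _ _) _
    gcongr
  set g : Set (Finset (Sym2 P3)) → ℝ → ℝ≥0∞ := fun C x => gx y (PSet L M ∩ C) x with hg
  have hgm : ∀ C, Monotone (g C) := fun C a b hab => gx_mono _ hab
  have hsm : ∀ C, g C ((z * η) ^ 2) < ∞ := fun C =>
    (gx_subset Set.inter_subset_left _).trans_lt (gx_small hy0 hz0 hη hη1 hs)
  have hx0 : 0 < (z * η) ^ 2 := by positivity
  have hbig : g US (z' ^ 2) = ∞ := by
    by_contra h
    exact hns (summable_of_gx hy0 hz' (lt_top_iff_ne_top.2 h))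
  obtain ⟨ρ, hρ0, hρ1, hρc, hρd⟩ := exists_radius (hgm US) (hsm US) hbig
  have hρ : 0 < ρ := hx0.trans_le hρ0
  -- the pieces that are not zero
  have hY : ENNReal.ofReal y ≠ 0 := by simpa using hy0
  have hb0 : ∀ x, 0 < x → gx y (BotSet L M ∩ US) x ≠ 0 := fun x hx =>
    gset_ne_zero (sq_mem_bot hL) (pow_ne_zero _ hY) (by simpa using hx)
  have ht0 : ∀ x, 0 < x → gB y (TopSet L M ∩ US) x ≠ 0 := fun x hx =>
    gset_ne_zero (sq_mem_top hL) (pow_ne_zero _ hY) (by simpa using hx)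
  have hfinu : ∀ x, 0 < x → g US x < ∞ →
      evs (uS L M (ENNReal.ofReal y)) (ENNReal.ofReal x) < ∞ := by
    intro x hx h
    by_contra h1
    rw [not_lt, top_le_iff] at h1
    simp only [hg] at h
    rw [evs_decomp_US hT1 hT2, h1, ENNReal.mul_top (hb0 x hx), ENNReal.top_mul (ht0 x hx),
      add_top] at h
    exact lt_irrefl _ h
  have hρ1' : ρ ≤ 1 := by
    by_contra h
    rw [not_le] at h
    have h1 := hfinu 1 one_pos (hρc 1 h)
    rw [u_one hT1 hL hy] at h1
    exact lt_irrefl _ h1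
  have tC : ∀ C : Set (Finset (Sym2 P3)), ∀ x, 0 < x → gx y (GoodSet L M ∩ C) x < ∞ →
      gx y (FreeSet L M ∩ C) x < ∞ ∧ gx y (BotSet L M ∩ C) x < ∞ ∧
      gB y (TopSet L M ∩ C) x < ∞ ∧ gB y (MidSet L M ∩ C) x < ∞ := by
    intro C x hx h
    refine ⟨?_, ?_, ?_, ?_⟩
    · exact (gx_subset (Set.inter_subset_inter_left _ freeSet_good) x).trans_lt h
    · exact (gx_subset (Set.inter_subset_inter_left _ botSet_good) x).trans_lt h
    · refine gB_lt_top (fun E hE => uppSet_bounds hE.1.1) hy0 hx ?_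
      exact (gx_subset (Set.inter_subset_inter_left _ topSet_good) x).trans_lt h
    · refine gB_lt_top (fun E hE => uppSet_bounds (midSet_upp hE.1)) hy0 hx ?_
      exact (gx_subset (Set.inter_subset_inter_left _ midSet_good) x).trans_lt h
  have hpU : ∃ r, ρ < r ∧ gx y (GoodSet L M ∩ US) r < ∞ :=
    pieces hT1 hL hy US (fun E F h hE => h.symm.unknotted hE) hρ hρ1' hρ1 hz' hz hη hη1 hs
      fun x _ hx => hρc x hx
  obtain ⟨rU, hrU, hrU'⟩ := hpU
  have hconv : ∀ x, 0 < x → x < ρ →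
      evs (uS L M (ENNReal.ofReal y)) (ENNReal.ofReal x) < ∞ :=
    fun x hx hlt => hfinu x hx (hρc x hlt)
  refine ⟨ρ, hρ, hconv, ?_, ⟨rU, hrU, hrU'⟩, ?_⟩
  · intro x hx
    have h1 : ρ < min x rU := lt_min hx hrU
    have h2 := tC US (min x rU) (hρ.trans h1) ((gx_mono _ (min_le_right _ _)).trans_lt hrU')
    have h3 := hρd _ h1
    simp only [hg] at h3
    rw [evs_decomp_US hT1 hT2] at h3
    rw [← top_le_iff]
    refine le_trans ?_ (evs_mono _ (ENNReal.ofReal_le_ofReal (min_le_left x rU)))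
    rw [top_le_iff]
    by_contra h4
    refine (ENNReal.add_lt_top.2 ⟨h2.1, ENNReal.mul_lt_top (ENNReal.mul_lt_top h2.2.1 ?_)
      h2.2.2.1⟩).ne h3
    exact lt_top_iff_ne_top.2 h4
  · intro K hK
    have hKC : ∀ E F, SameType E F → E ∈ KS K → F ∈ KS K := fun E F h hE =>
      (show SameType K E from hE).trans h
    have hall : ∀ x, 0 < x → x < ρ → g (KS K) x < ∞ := by
      intro x1 hx1 hx1ρ
      by_contra h1
      rw [not_lt, top_le_iff] at h1
      obtain ⟨ρK, a0, a1, ac, ad⟩ := exists_radius (hgm (KS K)) (hsm (KS K)) h1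
      have hρK : 0 < ρK := hx0.trans_le a0
      have hρKρ : ρK < ρ := a1.trans_lt hx1ρ
      obtain ⟨rK, hrK, hrK'⟩ := pieces hT1 hL hy (KS K) hKC hρK (hρKρ.le.trans hρ1')
        (hρKρ.le.trans hρ1) hz' hz hη hη1 hs fun x _ hx => ac x hx
      obtain ⟨x2, hx2, hx2'⟩ := exists_between (lt_min hrK hρKρ)
      have hx20 : 0 < x2 := hρK.trans hx2
      have b1 := tC (KS K) x2 hx20 ((gx_mono _ (hx2'.le.trans (min_le_left _ _))).trans_lt hrK')
      have hx2ρ : x2 < ρ := hx2'.trans_le (min_le_right _ _)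
      have b2 := tC US x2 hx20 ((gx_mono _ (hx2ρ.le.trans hrU.le)).trans_lt hrU')
      have b3 := hconv x2 hx20 hx2ρ
      have b4 := ad x2 hx2
      simp only [hg] at b4
      rw [evs_decomp_KS hT1 hT2 hK] at b4
      obtain ⟨c1, c2, c3, c4⟩ := b1
      obtain ⟨d1, d2, d3, d4⟩ := b2
      refine (ENNReal.add_lt_top.2 ⟨ENNReal.add_lt_top.2 ⟨ENNReal.add_lt_top.2 ⟨c1, ?_⟩, ?_⟩,
        ?_⟩).ne b4
      · exact ENNReal.mul_lt_top (ENNReal.mul_lt_top c2 b3) d3
      · exact ENNReal.mul_lt_top (ENNReal.mul_lt_top d2 b3) c3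
      · exact ENNReal.mul_lt_top (ENNReal.mul_lt_top (ENNReal.mul_lt_top
          (ENNReal.mul_lt_top d2 b3) c4) b3) d3
    exact pieces hT1 hL hy (KS K) hKC hρ hρ1' hρ1 hz' hz hη hη1 hs hall

end Pool.Agent.KTube
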