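import Pool.Agent.KTube.Len

/-! The pieces of the polygons of a class with a bounded number of knotted parts converge beyond
the radius of convergence of the unknotted polygons. -/

set_option autoImplicit false

open scoped ENNReal
open Filter Topology

namespace Pool.Agent.KTube

open Pool.Agent.LK

variable {E A B X : Finset (Sym2 P3)} {k i j : ℤ} {L M : ℕ} {C : Set (Finset (Sym2 P3))} {y : ℝ}

/-- The class is preserved by detours in good pieces. -/
def PhiClosed (L M : ℕ) (C : Set (Finset (Sym2 P3))) : Prop :=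
  ∀ (E : Finset (Sym2 P3)) (A : Finset ℤ), Good L M E → E ∈ C →
    (∀ k ∈ A, IsTwo E k ∧ ¬ IsV0 E k) → phi L M E A ∈ C

/-- The pieces with many sections of two edges. -/
theorem many' (hT1 : StretchStatement) (hL : 1 ≤ L) (hy : 1 ≤ y)
    (hC : PhiClosed L M C) {ρ : ℝ} (hρ : 0 < ρ) (hρ1 : ρ ≤ 1)
    (hfin : ∀ x : ℝ, 0 < x → x < ρ → gx y (PSet L M ∩ C) x < ∞) {ε : ℝ} (hε : 0 < ε) :
    ∃ r : ℝ, ρ < r ∧ gx y {E | E ∈ GoodSet L M ∩ C ∧ ε * lE E ≤ (pl E).card} r < ∞ := by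
  set S : Set (Finset (Sym2 P3)) := {E | E ∈ GoodSet L M ∩ C ∧ ε * lE E ≤ (pl E).card} with hS
  let e : (E : S) → Fin (pl E.1).card ≃ (pl E.1 : Finset ℤ) := fun E => (pl E.1).equivFin.symm
  let em : (E : S) → Fin (pl E.1).card ↪ ℤ := fun E =>
    ⟨fun i => (e E i : ℤ), fun a b hab => (e E).injective (Subtype.ext hab)⟩
  have hem : ∀ (E : S) (A : Finset (Fin (pl E.1).card)), ∀ k ∈ A.map (em E),
      IsTwo E.1 k ∧ ¬ IsV0 E.1 k := by
    intro E A k hk
    rw [Finset.mem_map] at hk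
    obtain ⟨i, -, rfl⟩ := hk
    exact mem_pl.1 (e E i).2
  have h1 : ∀ (E : S) (A : Finset (Fin (pl E.1).card)), _ := fun E A =>
    phi_facts hT1 hL E.2.1.1.poly E.2.1.1.tube (hem E A)
  have hΦ : ∀ (E : S) (A : Finset (Fin (pl E.1).card)),
      phi L M E.1 (A.map (em E)) ∈ PSet L M ∩ C := fun E A =>
    ⟨⟨(h1 E A).1, (h1 E A).2.1, (h1 E A).2.2.1 E.2.1.1.ground⟩,
      hC E.1 _ E.2.1.1 E.2.1.2 (hem E A)⟩
  refine taboo (X := S) (Y := (PSet L M ∩ C : Set (Finset (Sym2 P3)))) (fun E => lE E.1)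
    (fun E => (pl E.1).card) (fun E => wE (ENNReal.ofReal y) E.1) (fun E => lE E.1)
    (fun E => wE (ENNReal.ofReal y) E.1) (fun E A => ⟨phi L M E.1 (A.map (em E)), hΦ E A⟩) ?_
    (6 * hgt L M) 1 one_pos ?_ ?_ ρ hρ hρ1 hfin ε hε fun E => E.2.2
  · rintro ⟨E, A⟩ ⟨E', A'⟩ h
    simp only [Subtype.mk.injEq] at h
    obtain ⟨h3, h4⟩ := phi_inj hT1 hL E.2.1.1 (hem E A) E'.2.1.1 (hem E' A') h
    have h5 : E = E' := Subtype.ext h3
    subst h5
    rw [Finset.map_inj] at h4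
    rw [h4]
  · intro E A
    obtain ⟨-, -, -, -, h3, -⟩ := h1 E A
    rw [Finset.card_map] at h3
    simp only [lE]
    have h4 : 6 * hgt L M * A.card / 2 ≤ 6 * hgt L M * A.card := Nat.div_le_self _ _
    omega
  · intro E A
    obtain ⟨-, -, -, -, -, h3⟩ := h1 E A
    rw [ENNReal.ofReal_one, one_pow, mul_one]
    unfold wE
    refine pow_le_pow_right' ?_ h3
    rw [← ENNReal.ofReal_one]
    exact ENNReal.ofReal_le_ofReal hy

/-- All pieces of a class converge beyond the radius of convergence of the class. -/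
theorem pieces' (hT1 : StretchStatement) (hL : 1 ≤ L) (hy : 1 ≤ y)
    (hC : PhiClosed L M C) {ρ z' z η : ℝ} (hρ : 0 < ρ) (hρ1 : ρ ≤ 1)
    (hρz : ρ ≤ z' ^ 2) (hz' : 0 < z') (hz : z' < z) (hη : 0 < η) (hη1 : η ≤ 1)
    (hs : Summable (fun E : {E : Finset (Sym2 P3) // IsPolygon E ∧ InTube L M E ∧ Grounded E} =>
      z ^ E.1.card * y ^ span E.1 * η ^ {k : ℤ | IsTwo E.1 k}.ncard))
    (hfin : ∀ x : ℝ, 0 < x → x < ρ → gx y (PSet L M ∩ C) x < ∞) :
    ∃ r : ℝ, ρ < r ∧ gx y (GoodSet L M ∩ C) r < ∞ := by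
  have hz0 : 0 < z := hz'.trans hz
  have hlim : Tendsto (fun ε : ℝ => z ^ 2 * η ^ ε) (𝓝 0) (𝓝 (z ^ 2 * η ^ (0 : ℝ))) := by
    refine Tendsto.const_mul _ ?_
    exact (Real.continuousAt_const_rpow hη.ne').tendsto
  rw [Real.rpow_zero, mul_one] at hlim
  have hgt : z' ^ 2 < z ^ 2 := pow_lt_pow_left₀ hz hz'.le two_ne_zero
  have hev := hlim.eventually_const_lt hgt
  obtain ⟨ε, hε1, hε⟩ := ((eventually_nhdsWithin_of_eventually_nhds (s := Set.Ioi 0) hev).and
    self_mem_nhdsWithin).exists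
  have hε0 : (0 : ℝ) < ε := hε
  obtain ⟨r1, hr1, hr1'⟩ := many' hT1 hL hy hC hρ hρ1 hfin hε0
  have hfew := few (lt_of_lt_of_le one_pos hy) hz0 hη hη1 hs (ε := ε)
    (S := {E | E ∈ GoodSet L M ∩ C ∧ ((pl E).card : ℝ) ≤ ε * lE E}) (fun E hE => hE.1.1)
    fun E hE => hE.2
  refine ⟨min r1 (z ^ 2 * η ^ ε), lt_min hr1 (hρz.trans_lt hε1), ?_⟩
  have hsub : GoodSet L M ∩ C ⊆ {E | E ∈ GoodSet L M ∩ C ∧ ε * lE E ≤ (pl E).card} ∪
      {E | E ∈ GoodSet L M ∩ C ∧ ((pl E).card : ℝ) ≤ ε * lE E} := by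
    intro E hE
    rcases le_total (ε * lE E) ((pl E).card : ℝ) with h | h
    · exact Or.inl ⟨hE, h⟩
    · exact Or.inr ⟨hE, h⟩
  refine lt_of_le_of_lt (gx_union_le hsub _) (ENNReal.add_lt_top.2 ⟨?_, ?_⟩)
  · exact lt_of_le_of_lt (gx_mono _ (min_le_left _ _)) hr1'
  · exact lt_of_le_of_lt (gx_mono _ (min_le_right _ _)) hfew

theorem phiClosed_one (hT1 : StretchStatement) (hL : 1 ≤ L)
    (hC : ∀ E F, SameType E F → E ∈ C → F ∈ C) : PhiClosed L M (C ∪ SubL L M C) := by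
  intro E A hE h hA
  rcases h with h | h
  · exact Or.inl (phi_class hC hT1 hL hE.poly hE.tube hA h)
  · exact Or.inr (phi_subL hC hT1 hL hE.tube hA h)

theorem phiClosed_two (hT1 : StretchStatement) (hL : 1 ≤ L)
    (hC : ∀ E F, SameType E F → E ∈ C → F ∈ C) : PhiClosed L M (SubU L M C ∪ SubM L M C) := by
  intro E A hE h hA
  rcases h with h | h
  · exact Or.inl (phi_subU hC hT1 hL hE.tube hA h)
  · exact Or.inr (phi_subM hC hT1 hL hE.tube hA h)

theorem gB_mono (S : Set (Finset (Sym2 P3))) {x x' : ℝ} (h : x ≤ x') : gB y S x ≤ gB y S x' :=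
  gset_mono _ _ _ (ENNReal.ofReal_le_ofReal h)

theorem gB_subset {S T : Set (Finset (Sym2 P3))} (h : S ⊆ T) (x : ℝ) : gB y S x ≤ gB y T x :=
  gset_subset h _ _ _

/-- **The pieces of a class with a bounded number of knotted parts.** -/
theorem bootG (hT1 : StretchStatement) (hT2 : CutStatement) (hL : 1 ≤ L) (hy : 1 ≤ y)
    (hgap : Gap L M y) {ρ : ℝ} (hB : BootData L M y ρ)
    (hC : ∀ E F, SameType E F → E ∈ C → F ∈ C) {N : ℕ} (hN : FinLen C N) :
    ∃ r, ρ < r ∧ gx y (GoodSet L M ∩ (C ∪ SubL L M C)) r < ∞ ∧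
      gx y (GoodSet L M ∩ (SubU L M C ∪ SubM L M C)) r < ∞ := by
  obtain ⟨z', z, η0, hz', hz, hη0, hs0, hns⟩ := hgap
  have hy0 : 0 < y := one_pos.trans_le hy
  have hz0 : 0 < z := hz'.trans hz
  set η := min η0 1 with hηdef
  have hη : 0 < η := lt_min hη0 one_pos
  have hη1 : η ≤ 1 := min_le_right _ _
  have hs : Summable (fun E : {E : Finset (Sym2 P3) // IsPolygon E ∧ InTube L M E ∧ Grounded E} =>
      z ^ E.1.card * y ^ span E.1 * η ^ {k : ℤ | IsTwo E.1 k}.ncard) := by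
    refine Summable.of_nonneg_of_le (fun E => by positivity) (fun E => ?_) hs0
    have : η ^ {k : ℤ | IsTwo E.1 k}.ncard ≤ η0 ^ {k : ℤ | IsTwo E.1 k}.ncard :=
      pow_le_pow_left₀ hη.le (min_le_left _ _) _
    gcongr
  obtain ⟨hρ, hconv, hdiv, ⟨rU, hrU, hrU'⟩, -⟩ := hB
  -- the radius is at most one and at most `z' ^ 2`
  have hρ1 : ρ ≤ 1 := by
    by_contra h
    rw [not_le] at h
    have h1 := hconv 1 one_pos h
    rw [u_one hT1 hL hy] at h1
    exact lt_irrefl _ h1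
  have hρz : ρ ≤ z' ^ 2 := by
    by_contra h
    rw [not_le] at h
    apply hns
    refine summable_of_gx hy0 hz' ?_
    have hz2 : 0 < z' ^ 2 := by positivity
    have hlt : z' ^ 2 ≤ rU := (h.trans hrU).le
    have h0 := (gx_mono (y := y) (GoodSet L M ∩ US) hlt).trans_lt hrU'
    rw [evs_decomp_US hT1 hT2]
    refine ENNReal.add_lt_top.2 ⟨?_, ENNReal.mul_lt_top (ENNReal.mul_lt_top ?_
      (hconv _ hz2 h)) ?_⟩
    · exact (gx_subset (Set.inter_subset_inter_left _ freeSet_good) _).trans_lt h0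
    · exact (gx_subset (Set.inter_subset_inter_left _ botSet_good) _).trans_lt h0
    · refine gB_lt_top (fun E hE => uppSet_bounds hE.1.1) hy0 hz2 ?_
      exact (gx_subset (Set.inter_subset_inter_left _ topSet_good) _).trans_lt h0
  set P1 : Set (Finset (Sym2 P3)) := C ∪ SubL L M C with hP1
  set P2 : Set (Finset (Sym2 P3)) := SubU L M C ∪ SubM L M C with hP2
  have hc1 : PhiClosed L M P1 := phiClosed_one hT1 hL hC
  have hc2 : PhiClosed L M P2 := phiClosed_two hT1 hL hC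
  set g : ℝ → ℝ≥0∞ := fun x => gx y (PSet L M ∩ P1) x + gx y (PSet L M ∩ P2) x with hg
  have hgm : Monotone g := fun a b hab => add_le_add (gx_mono _ hab) (gx_mono _ hab)
  have hx0 : 0 < (z * η) ^ 2 := by positivity
  have hsm : g ((z * η) ^ 2) < ∞ := by
    have h1 := gx_small (L := L) (M := M) hy0 hz0 hη hη1 hs
    exact ENNReal.add_lt_top.2 ⟨(gx_subset Set.inter_subset_left _).trans_lt h1,
      (gx_subset Set.inter_subset_left _).trans_lt h1⟩
  have hP2upp : PSet L M ∩ P2 ⊆ UppSet L M ∩ P2 := by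
    rintro E ⟨h1, h2⟩
    refine ⟨⟨?_, h1.2.1⟩, h2⟩
    rcases h2 with ⟨A, -, -, h3, -⟩ | ⟨A, R, k, -, -, -, -, h3, -, -, -⟩
    · exact h3
    · exact h3
  -- finiteness from the pieces
  have key : ∀ x, 0 < x → gx y (GoodSet L M ∩ P1) x < ∞ → gx y (GoodSet L M ∩ P2) x < ∞ →
      evs (uS L M (ENNReal.ofReal y)) (ENNReal.ofReal x) < ∞ → g x < ∞ := by
    intro x hx h1 h2 h3
    have ht : evs (sset (TpSet L M C) lB (wB (ENNReal.ofReal y))) (ENNReal.ofReal x) < ∞ := by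
      rw [evs_sset]
      refine gB_lt_top (fun E hE => uppSet_bounds hE.1.1) hy0 hx ?_
      refine (gx_subset ?_ x).trans_lt h2
      exact fun E hE => ⟨topSet_good hE.1, hE.2⟩
    have hk : evs (sset (KnSet L M C) lB (wB (ENNReal.ofReal y))) (ENNReal.ofReal x) < ∞ := by
      rw [evs_sset]
      refine gB_lt_top (fun E hE => uppSet_bounds (midSet_upp hE.1)) hy0 hx ?_
      refine (gx_subset ?_ x).trans_lt h2
      exact fun E hE => ⟨midSet_good hE.1, Or.inr hE.2.1⟩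
    have hw := wSet_lt_top hT1 hT2 hC (ENNReal.ofReal x) h3 ht hk N
    have hU : gB y (UppSet L M ∩ P2) x < ∞ := by
      rw [evs_sset] at hw
      exact (gB_subset (subset_wSet hT1 hN) x).trans_lt hw
    refine ENNReal.add_lt_top.2 ⟨?_, ?_⟩
    · have h4 := (pSet_le (L := L) (M := M) (Y := ENNReal.ofReal y) hT2 hC).evs (ENNReal.ofReal x)
      rw [evs_sset, evs_add, evs_mul, evs_sset, evs_sset, evs_sset] at h4
      refine lt_of_le_of_lt h4 (ENNReal.add_lt_top.2 ⟨?_, ENNReal.mul_lt_top ?_ hU⟩)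
      · exact (gx_subset (Set.inter_subset_inter_left _ freeSet_good) x).trans_lt h1
      · refine (gx_subset ?_ x).trans_lt h1
        exact fun E hE => ⟨botSet_good hE.1, Or.inr hE.2⟩
    · refine (gx_subset hP2upp x).trans_lt ?_
      rw [← gB_eq _ x fun E hE => uppSet_bounds hE.1]
      exact ENNReal.mul_lt_top (ENNReal.mul_lt_top ENNReal.ofReal_lt_top
        (ENNReal.pow_lt_top ENNReal.ofReal_lt_top)) hU
  have hall : ∀ x, 0 < x → x < ρ → g x < ∞ := by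
    intro x1 hx1 hx1ρ
    by_contra h1
    rw [not_lt, top_le_iff] at h1
    obtain ⟨ρ', a0, a1, ac, ad⟩ := exists_radius hgm hsm h1
    have hρ' : 0 < ρ' := hx0.trans_le a0
    have hρρ : ρ' < ρ := a1.trans_lt hx1ρ
    obtain ⟨r1, hr1, hr1'⟩ := pieces' hT1 hL hy hc1 hρ' (hρρ.le.trans hρ1) (hρρ.le.trans hρz)
      hz' hz hη hη1 hs fun x _ hx => (le_self_add).trans_lt (ac x hx)
    obtain ⟨r2, hr2, hr2'⟩ := pieces' hT1 hL hy hc2 hρ' (hρρ.le.trans hρ1) (hρρ.le.trans hρz)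
      hz' hz hη hη1 hs fun x _ hx => (le_add_self).trans_lt (ac x hx)
    obtain ⟨x2, hx2, hx2'⟩ := exists_between (lt_min (lt_min hr1 hr2) hρρ)
    have hx20 : 0 < x2 := hρ'.trans hx2
    have hx2a : x2 < min r1 r2 := hx2'.trans_le (min_le_left _ _)
    have hx2b : x2 < ρ := hx2'.trans_le (min_le_right _ _)
    have h5 := key x2 hx20
      ((gx_mono _ (hx2a.le.trans (min_le_left _ _))).trans_lt hr1')
      ((gx_mono _ (hx2a.le.trans (min_le_right _ _))).trans_lt hr2') (hconv x2 hx20 hx2b)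
    rw [ad x2 hx2] at h5
    exact lt_irrefl _ h5
  obtain ⟨r1, hr1, hr1'⟩ := pieces' hT1 hL hy hc1 hρ hρ1 hρz hz' hz hη hη1 hs
    fun x h0 hx => (le_self_add).trans_lt (hall x h0 hx)
  obtain ⟨r2, hr2, hr2'⟩ := pieces' hT1 hL hy hc2 hρ hρ1 hρz hz' hz hη hη1 hs
    fun x h0 hx => (le_add_self).trans_lt (hall x h0 hx)
  exact ⟨min r1 r2, lt_min hr1 hr2, (gx_mono _ (min_le_left _ _)).trans_lt hr1',
    (gx_mono _ (min_le_right _ _)).trans_lt hr2'⟩

end Pool.Agent.KTube
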