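import Pool.Agent.KTube.Multi
import Pool.Agent.MP_aea6d5_co.TopSym

/-! Every polygon of the tube has the type of a polygon of the tube whose lowest and highest levels
are single edges over the reference columns. -/

set_option autoImplicit false

namespace Pool.Agent.KTube

open Pool.Agent.LK

variable {E F : Finset (Sym2 P3)} {L M : ℕ}

/-- `E` and `F` have the same edges above the plane `z = k + 1/2`. -/
def AboveEq (E F : Finset (Sym2 P3)) (k : ℤ) : Prop :=
  ∀ u v : P3, k + 1 ≤ u.2.2 → k + 1 ≤ v.2.2 → (s(u, v) ∈ E ↔ s(u, v) ∈ F)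

theorem stretch_above {k : ℤ} {h : ℕ} (hEF : AboveEq E F k) (hc : cross E k = cross F k) :
    AboveEq (stretch E k h) (stretch F k h) k := by
  have key : ∀ {E F : Finset (Sym2 P3)}, AboveEq E F k → cross E k = cross F k →
      ∀ u v : P3, k + 1 ≤ u.2.2 → k + 1 ≤ v.2.2 → s(u, v) ∈ stretch E k h →
      s(u, v) ∈ stretch F k h := by
    intro E F hEF hc u v hu hv huv
    rw [mem_stretch] at huv ⊢
    rcases huv with ⟨-, h1, -⟩ | ⟨h1, h2, h3⟩ | ⟨a, b, i, hi, h2, h3⟩
    · omega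
    · refine Or.inr (Or.inl ⟨(hEF _ _ ?_ ?_).1 h1, h2, h3⟩)
      · simp only [Prod.snd_sub]; omega
      · simp only [Prod.snd_sub]; omega
    · refine Or.inr (Or.inr ⟨a, b, i, hi, ?_, h3⟩)
      have : ((a, b) : ℤ × ℤ) ∈ cross E k := h2
      rw [hc] at this
      exact this
  intro u v hu hv
  exact ⟨key hEF hc u v hu hv, key (fun u v h1 h2 => (hEF u v h1 h2).symm) hc.symm u v hu hv⟩

theorem step_above {k : ℤ} {a a' : ℤ × ℤ} (hEF : AboveEq E F k) (hc : cross E k = cross F k) :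
    AboveEq (step E k a a') (step F k a a') (k + 1) := by
  intro u v hu hv
  rw [mem_step, mem_step, stretch_above hEF hc u v (by omega) (by omega)]

theorem step_below {k : ℤ} {a a' : ℤ × ℤ} {u v : P3} (hu : u.2.2 ≤ k) (hv : v.2.2 ≤ k) :
    s(u, v) ∈ step E k a a' ↔ s(u, v) ∈ E := by
  rw [mem_step, mem_stretch]
  constructor
  · rintro (⟨⟨h1, -, -⟩ | ⟨-, h1, -⟩ | ⟨b, c, i, hi, -, h1⟩, -⟩ | h1 | h1 | h1)
    · exact h1
    · omega
    all_goals
      rw [Sym2.eq_iff] at h1
      rcases h1 with ⟨rfl, rfl⟩ | ⟨rfl, rfl⟩ <;> simp only at hu hv <;> omega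
  · intro h1
    refine Or.inl ⟨Or.inl ⟨h1, hu, hv⟩, ?_⟩
    intro h2
    rw [Sym2.eq_iff] at h2
    rcases h2 with ⟨rfl, rfl⟩ | ⟨rfl, rfl⟩ <;> simp only at hu hv <;> omega

theorem run_below : ∀ (d : ℕ) (E : Finset (Sym2 P3)) (k : ℤ) {u v : P3}, u.2.2 ≤ k → v.2.2 ≤ k →
    (s(u, v) ∈ run L M d E k ↔ s(u, v) ∈ E)
  | 0, _, _, _, _, _, _ => Iff.rfl
  | d + 1, E, k, u, v, hu, hv => by
    have h : run L M (d + 1) E k =
      run L M d (step E k (nxt L M d (cross E k)).1 (nxt L M d (cross E k)).2) (k + 1) := rfl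
    rw [h, run_below d _ (k + 1) (by omega) (by omega), step_below hu hv]

theorem run_above (hS : StretchStatement) : ∀ (d : ℕ) (E F : Finset (Sym2 P3)) (k : ℤ),
    IsPolygon E → InTube L M E → (cross E k).ncard = 2 → Reach L M d (cross E k) →
    IsPolygon F → InTube L M F → AboveEq E F k → cross E k = cross F k →
    AboveEq (run L M d E k) (run L M d F k) (k + d) := by
  intro d
  induction d with
  | zero => intro E F k _ _ _ _ _ _ h _; simpa [run] using h
  | succ d ih =>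
    intro E F k hE hT h2 hr hF hT' hEF hc
    obtain ⟨h3, h4, h5⟩ := nxt_spec hr
    have hE' : run L M (d + 1) E k =
      run L M d (step E k (nxt L M d (cross E k)).1 (nxt L M d (cross E k)).2) (k + 1) := rfl
    have hF' : run L M (d + 1) F k =
      run L M d (step F k (nxt L M d (cross F k)).1 (nxt L M d (cross F k)).2) (k + 1) := rfl
    rw [← hc] at hF'
    rw [hE', hF']
    set a := (nxt L M d (cross E k)).1 with ha
    set a' := (nxt L M d (cross E k)).2 with ha'
    have hok : StepOk L M E k a a' := ⟨hE, hT, h4⟩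
    have hok' : StepOk L M F k a a' := ⟨hF, hT', by rw [← hc]; exact h4⟩
    have hcm := hok.cross_mid
    have hcm' := hok'.cross_mid
    have := ih _ _ (k + 1) (hok.isPolygon hS) hok.inTube
      (by rw [hcm]; exact ncard_moved h4 h2) (by rw [hcm]; exact h5) (hok'.isPolygon hS)
      hok'.inTube (step_above hEF hc) (by rw [hcm, hcm', hc])
    have e : k + 1 + (d : ℤ) = k + ((d + 1 : ℕ) : ℤ) := by push_cast; ring
    rwa [e] at this

theorem ins_above (hS : StretchStatement) (hL : 1 ≤ L) {k : ℤ} (hE : IsPolygon E)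
    (hT : InTube L M E) (h2 : IsTwo E k) (hF : IsPolygon F)
    (hT' : InTube L M F) (hEF : AboveEq E F k) (hc : cross E k = cross F k) :
    AboveEq (ins L M E k) (ins L M F k) (k + hgt L M) := by
  obtain ⟨hd, hr⟩ := dst_spec (M := M) hL h2 (box_cross hT)
  unfold ins
  rw [← hc]
  set d := dst L M (cross E k) with hdef
  obtain ⟨e, he⟩ : ∃ e : ℕ, hgt L M - d = e := ⟨_, rfl⟩
  rw [he]
  have hcm : cross (stretch E k (2 * e)) (k + e) = cross E k :=
    cross_stretch_mid (by omega) (by push_cast; omega)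
  have hcm' : cross (stretch F k (2 * e)) (k + e) = cross F k :=
    cross_stretch_mid (by omega) (by push_cast; omega)
  have hab : AboveEq (stretch E k (2 * e)) (stretch F k (2 * e)) (k + e) := by
    intro u v hu hv
    exact stretch_above hEF hc u v (by omega) (by omega)
  have := run_above (L := L) (M := M) hS d (stretch E k (2 * e)) (stretch F k (2 * e)) (k + e)
    (hS E k (2 * e) hE).1 (inTube_stretch hT) (by rw [hcm]; exact h2) (by rw [hcm]; exact hr)
    (hS F k (2 * e) hF).1 (inTube_stretch hT') hab (by rw [hcm, hcm', hc])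
  have e1 : k + (e : ℤ) + d = k + hgt L M := by omega
  rwa [e1] at this

theorem ins_below {k : ℤ} {u v : P3} (hu : u.2.2 ≤ k) (hv : v.2.2 ≤ k) :
    s(u, v) ∈ ins L M E k ↔ s(u, v) ∈ E := by
  unfold ins
  rw [run_below _ _ _ (by omega) (by omega), mem_stretch]
  constructor
  · rintro (⟨h1, -, -⟩ | ⟨-, h1, -⟩ | ⟨b, c, i, hi, -, h1⟩)
    · exact h1
    · omega
    · rw [Sym2.eq_iff] at h1
      rcases h1 with ⟨rfl, rfl⟩ | ⟨rfl, rfl⟩ <;> simp only at hu hv <;> omega
  · intro h1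
    exact Or.inl ⟨h1, hu, hv⟩

/-! ### Lower and upper parts -/

theorem mem_upp_iff {k : ℤ} {u v : P3} : s(u, v) ∈ upp E k ↔ s(u, v) = cap k ∨
    (s(u, v) ∈ E ∧ (k + 1 ≤ u.2.2 ∨ k + 1 ≤ v.2.2)) := by
  classical
  unfold upp
  rw [Finset.mem_insert, Finset.mem_filter]
  simp

theorem mem_low_iff {k : ℤ} {u v : P3} : s(u, v) ∈ low E k ↔ s(u, v) = cap (k + 1) ∨
    (s(u, v) ∈ E ∧ (u.2.2 ≤ k ∨ v.2.2 ≤ k)) := by
  classical
  unfold low
  rw [Finset.mem_insert, Finset.mem_filter]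
  simp

theorem upp_eq {k : ℤ} (hE : ∀ u v, s(u, v) ∈ E → Adj u v) (hF : ∀ u v, s(u, v) ∈ F → Adj u v)
    (hEF : AboveEq E F k) (hc : cross E k = cross F k) : upp E k = upp F k := by
  have key : ∀ {E F : Finset (Sym2 P3)}, (∀ u v, s(u, v) ∈ E → Adj u v) → AboveEq E F k →
      cross E k = cross F k → ∀ u v, s(u, v) ∈ upp E k → s(u, v) ∈ upp F k := by
    intro E F hE hEF hc u v huv
    rw [mem_upp_iff] at huv ⊢
    rcases huv with h1 | ⟨h1, h2⟩
    · exact Or.inl h1
    · refine Or.inr ⟨?_, h2⟩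
      rcases adj_cases k (hE u v h1) with ⟨h3, h4⟩ | ⟨h3, h4⟩ | ⟨a, b, h3⟩
      · omega
      · exact (hEF u v h3 h4).1 h1
      · rw [h3] at h1 ⊢
        have : ((a, b) : ℤ × ℤ) ∈ cross E k := h1
        rw [hc] at this
        exact this
  exact edge_ext fun u v => ⟨key hE hEF hc u v,
    key hF (fun u v h1 h2 => (hEF u v h1 h2).symm) hc.symm u v⟩

theorem inTube_low {k : ℤ} (hL : 1 ≤ L) (hT : InTube L M E) : InTube L M (low E k) := by
  have hL' : (1 : ℤ) ≤ L := by exact_mod_cast hL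
  rintro u ⟨v, hv⟩
  rw [mem_low_iff] at hv
  rcases hv with h1 | ⟨h1, -⟩
  · unfold cap at h1
    rw [Sym2.eq_iff] at h1
    rcases h1 with ⟨rfl, -⟩ | ⟨rfl, -⟩ <;> simp <;> omega
  · exact hT u (left_mem_verts h1)

/-! ### The vertical unit square -/

theorem isPolygon_unit {p q : ℤ × ℤ} (hpq : Adj2 p q) (t : ℤ) :
    ∃ S : Finset (Sym2 P3), IsPolygon S ∧ Unknotted S ∧
      (∀ u ∈ verts S, (u.1, u.2.1) = p ∨ (u.1, u.2.1) = q) ∧ cross S t = {p, q} ∧
      ∀ u v : P3, t + 1 ≤ u.2.2 → t + 1 ≤ v.2.2 →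
        (s(u, v) ∈ S ↔ s(u, v) = s((p.1, p.2, t + 1), (q.1, q.2, t + 1))) := by
  set a : P3 := (q.1 - p.1, q.2 - p.2, 0) with ha
  set b : P3 := (-(q.2 - p.2), q.1 - p.1, 0) with hb
  have hsq : (q.1 - p.1) * (q.1 - p.1) + (q.2 - p.2) * (q.2 - p.2) = 1 := by
    unfold Adj2 at hpq
    have h1 := abs_nonneg (p.1 - q.1)
    have h2 := abs_nonneg (p.2 - q.2)
    have e1 : (q.1 - p.1) * (q.1 - p.1) = |p.1 - q.1| * |p.1 - q.1| := by
      rw [abs_mul_abs_self]; ring
    have e2 : (q.2 - p.2) * (q.2 - p.2) = |p.2 - q.2| * |p.2 - q.2| := by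
      rw [abs_mul_abs_self]; ring
    rw [e1, e2]
    rcases (by omega : |p.1 - q.1| = 1 ∧ |p.2 - q.2| = 0 ∨ |p.1 - q.1| = 0 ∧ |p.2 - q.2| = 1) with
      ⟨h3, h4⟩ | ⟨h3, h4⟩ <;> rw [h3, h4] <;> norm_num
  have hF : Frame a (0, 0, 1) b := by
    refine ⟨?_, ?_, ?_, ?_, ?_, ?_⟩ <;> simp only [dot3, ha, hb] <;> nlinarith [hsq]
  set x : P3 := (p.1, p.2, t) with hx
  refine ⟨mapE (latIso x a (0, 0, 1) b) square, isPolygon_latIso hF _ isPolygon_square,
    (unknotted_latIso hF _ _).2 unknotted_square, ?_⟩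
  have hS : ∀ u v : P3, s(u, v) ∈ mapE (latIso x a (0, 0, 1) b) square ↔
      s(u, v) = s((p.1, p.2, t), (q.1, q.2, t)) ∨ s(u, v) = s((q.1, q.2, t), (q.1, q.2, t + 1)) ∨
      s(u, v) = s((q.1, q.2, t + 1), (p.1, p.2, t + 1)) ∨
      s(u, v) = s((p.1, p.2, t + 1), (p.1, p.2, t)) := by
    intro u v
    have e : mapE (latIso x a (0, 0, 1) b) square = {s((p.1, p.2, t), (q.1, q.2, t)),
        s((q.1, q.2, t), (q.1, q.2, t + 1)), s((q.1, q.2, t + 1), (p.1, p.2, t + 1)),
        s((p.1, p.2, t + 1), (p.1, p.2, t))} := by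
      simp [mapE, square, Finset.image_insert, latIso, hx, ha]
    rw [e]
    simp only [Finset.mem_insert, Finset.mem_singleton]
  refine ⟨?_, ?_, ?_⟩
  · rintro u ⟨v, hv⟩
    rw [hS] at hv
    rcases hv with h | h | h | h <;> rw [Sym2.eq_iff] at h <;>
      rcases h with ⟨rfl, -⟩ | ⟨rfl, -⟩ <;> simp
  · have hne : p ≠ q := by
      rintro rfl
      simp [Adj2] at hpq
    ext ⟨c1, c2⟩
    rw [mem_cross, hS]
    simp only [Set.mem_insert_iff, Set.mem_singleton_iff]
    constructor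
    · rintro (h | h | h | h) <;> rw [Sym2.eq_iff] at h <;> simp only [Prod.mk.injEq] at h
      · omega
      · rcases h with ⟨⟨rfl, rfl, -⟩, -⟩ | ⟨⟨-, -, h⟩, -⟩
        · exact Or.inr rfl
        · omega
      · omega
      · rcases h with ⟨⟨-, -, h⟩, -⟩ | ⟨⟨rfl, rfl, -⟩, -⟩
        · omega
        · exact Or.inl rfl
    · rintro (h | h)
      · refine Or.inr (Or.inr (Or.inr ?_))
        rw [← h, Sym2.eq_swap]
      · refine Or.inr (Or.inl ?_)
        rw [← h]
  · intro u v hu hv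
    rw [hS]
    constructor
    · rintro (h | h | h | h)
      · rw [Sym2.eq_iff] at h
        rcases h with ⟨rfl, rfl⟩ | ⟨rfl, rfl⟩ <;> simp only at hu hv <;> omega
      · rw [Sym2.eq_iff] at h
        rcases h with ⟨rfl, rfl⟩ | ⟨rfl, rfl⟩ <;> simp only at hu hv <;> omega
      · rw [h, Sym2.eq_swap]
      · rw [Sym2.eq_iff] at h
        rcases h with ⟨rfl, rfl⟩ | ⟨rfl, rfl⟩ <;> simp only at hu hv <;> omega
    · intro h
      refine Or.inr (Or.inr (Or.inl ?_))
      rw [h, Sym2.eq_swap]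

/-! ### The top edge -/

theorem exists_top (hE : IsPolygon E) : ∃ (p q : ℤ × ℤ) (t : ℤ), Adj2 p q ∧
    s((p.1, p.2, t), (q.1, q.2, t)) ∈ E ∧ ∀ u ∈ verts E, u.2.2 ≤ t := by
  obtain ⟨u, hu, hmax⟩ := Set.exists_max_image (verts E) (fun u => u.2.2) (verts_finite E)
    hE.verts_nonempty
  obtain ⟨u1, u2, t⟩ := u
  simp only at hmax
  obtain ⟨w, w', hne, hw⟩ := Set.ncard_eq_two.1 (hE.deg _ hu)
  have hwm : s(((u1, u2, t) : P3), w) ∈ E := by
    have : w ∈ {w | s(((u1, u2, t) : P3), w) ∈ E} := by rw [hw]; simp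
    exact this
  have hwm' : s(((u1, u2, t) : P3), w') ∈ E := by
    have : w' ∈ {w | s(((u1, u2, t) : P3), w) ∈ E} := by rw [hw]; simp
    exact this
  have key : ∀ w : P3, s(((u1, u2, t) : P3), w) ∈ E → w ≠ (u1, u2, t - 1) →
      w.2.2 = t ∧ |u1 - w.1| + |u2 - w.2.1| = 1 := by
    rintro ⟨w1, w2, w3⟩ hw hne
    have h1 := hE.adj _ _ hw
    have h2 := hmax _ (right_mem_verts hw)
    unfold Adj at h1
    simp only at h1 h2 ⊢
    have e1 := abs_nonneg (u1 - w1)
    have e2 := abs_nonneg (u2 - w2)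
    have e3 := abs_nonneg (t - w3)
    by_cases h3 : w3 = t
    · subst h3
      refine ⟨rfl, ?_⟩
      simpa using h1
    · exfalso
      have e4 := le_abs_self (t - w3)
      have a1 := abs_eq_zero.1 (show |u1 - w1| = 0 by omega)
      have a2 := abs_eq_zero.1 (show |u2 - w2| = 0 by omega)
      refine hne ?_
      simp only [Prod.mk.injEq]
      omega
  have hex : ∃ w : P3, s(((u1, u2, t) : P3), w) ∈ E ∧ w ≠ (u1, u2, t - 1) := by
    by_cases h : w = (u1, u2, t - 1)
    · exact ⟨w', hwm', fun h' => hne (h.trans h'.symm)⟩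
    · exact ⟨w, hwm, h⟩
  obtain ⟨⟨w1, w2, w3⟩, h1, h2⟩ := hex
  obtain ⟨h3, h4⟩ := key _ h1 h2
  simp only at h3 h4
  subst h3
  exact ⟨(u1, u2), (w1, w2), w3, h4, h1, hmax⟩

/-- The data at the top: a polygon of the same type with a reference cap on top. -/
structure TopCap (L M : ℕ) (E A : Finset (Sym2 P3)) (m t : ℤ) : Prop where
  low : IsLow A m
  tube : InTube L M A
  type : SameType E A
  top : ∀ u ∈ verts E, u.2.2 ≤ t
  le : t ≤ m
  below : ∀ u v : P3, u.2.2 ≤ t → v.2.2 ≤ t → (u.2.2 < t ∨ v.2.2 < t) →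
    (s(u, v) ∈ A ↔ s(u, v) ∈ E)
  ground : (∀ u ∈ verts E, 0 ≤ u.2.2) → 0 < t → ∀ u ∈ verts A, 0 ≤ u.2.2

theorem exists_topCap (hS : StretchStatement) (hC : CutStatement) (hTy : TypeStatement)
    (hL : 1 ≤ L) (hE : IsPolygon E) (hT : InTube L M E) :
    ∃ (A : Finset (Sym2 P3)) (m t : ℤ), TopCap L M E A m t := by
  obtain ⟨p, q, t, hpq, he, hmax⟩ := exists_top hE
  have hp : InBox L M p := hT (p.1, p.2, t) (left_mem_verts he)
  have hq : InBox L M q := hT (q.1, q.2, t) (right_mem_verts he)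
  have hne : p ≠ q := by
    rintro rfl
    simp [Adj2] at hpq
  have hu : IsUnit3 ((0, 0, 1) : P3) := by simp [IsUnit3, Adj]
  have e1 : ∀ c : ℤ × ℤ, ((c.1, c.2, t) : P3) + (0, 0, 1) = (c.1, c.2, t + 1) := by
    intro c
    refine Prod.ext ?_ (Prod.ext ?_ ?_) <;> simp
  have hf : ∀ c : ℤ × ℤ, ((c.1, c.2, t) : P3) + (0, 0, 1) ∉ verts E := by
    intro c hc
    have := hmax _ hc
    rw [e1] at this
    simp only at this
    omega
  set E1 := bump E (p.1, p.2, t) (q.1, q.2, t) (0, 0, 1) with hE1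
  have hP1 : IsPolygon E1 := isPolygon_bump hE he hu (hf p) (hf q)
  have hT1 : SameType E E1 := moveFacts.bump _ _ _ _ hE he hu (hf p) (hf q)
  have hm1 : ∀ f : Sym2 P3, f ∈ E1 ↔ (f ∈ E ∧ f ≠ s((p.1, p.2, t), (q.1, q.2, t))) ∨
      f = s((p.1, p.2, t), (p.1, p.2, t + 1)) ∨ f = s((p.1, p.2, t + 1), (q.1, q.2, t + 1)) ∨
      f = s((q.1, q.2, t + 1), (q.1, q.2, t)) := by
    intro f
    rw [hE1, mem_bump, e1, e1]
  have hv1 : ∀ u ∈ verts E1, u ∈ verts E ∨ u = (p.1, p.2, t + 1) ∨ u = (q.1, q.2, t + 1) := by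
    intro u hu
    have := verts_bump he hu
    rwa [e1, e1] at this
  have hTube1 : InTube L M E1 := by
    intro u hu
    rcases hv1 u hu with h | rfl | rfl
    · exact hT u h
    · exact hp
    · exact hq
  have hcross : cross E1 t = {p, q} := by
    ext ⟨c1, c2⟩
    rw [mem_cross, hm1]
    simp only [Set.mem_insert_iff, Set.mem_singleton_iff]
    constructor
    · rintro (⟨h, -⟩ | h | h | h)
      · have := hmax _ (right_mem_verts h)
        simp only at this
        omega
      all_goals rw [Sym2.eq_iff] at h; simp only [Prod.mk.injEq] at h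
      · rcases h with ⟨⟨rfl, rfl, -⟩, -⟩ | ⟨⟨-, -, h⟩, -⟩
        · exact Or.inl rfl
        · omega
      · omega
      · rcases h with ⟨⟨-, -, h⟩, -⟩ | ⟨⟨rfl, rfl, -⟩, -⟩
        · omega
        · exact Or.inr rfl
    · rintro (h | h)
      · refine Or.inr (Or.inl ?_)
        rw [← h]
      · refine Or.inr (Or.inr (Or.inr ?_))
        rw [← h, Sym2.eq_swap]
  have htop1 : ∀ u ∈ verts E1, u.2.2 ≤ t + 1 := by
    intro u hu
    rcases hv1 u hu with h | rfl | rfl
    · have := hmax u h; omega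
    · exact le_rfl
    · exact le_rfl
  have hbel1 : ∀ u v : P3, u.2.2 ≤ t → v.2.2 ≤ t → (u.2.2 < t ∨ v.2.2 < t) →
      (s(u, v) ∈ E1 ↔ s(u, v) ∈ E) := by
    intro u v h1 h2 h3
    rw [hm1]
    constructor
    · rintro (⟨h, -⟩ | h | h | h)
      · exact h
      all_goals
        rw [Sym2.eq_iff] at h
        rcases h with ⟨rfl, rfl⟩ | ⟨rfl, rfl⟩ <;> simp only at h1 h2 h3 <;> omega
    · intro h
      refine Or.inl ⟨h, ?_⟩
      intro h4
      rw [Sym2.eq_iff] at h4
      rcases h4 with ⟨rfl, rfl⟩ | ⟨rfl, rfl⟩ <;> simp only at h1 h2 h3 <;> omega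
  have hgr1 : (∀ u ∈ verts E, 0 ≤ u.2.2) → ∀ u ∈ verts E1, 0 ≤ u.2.2 := by
    intro h0 u hu
    rcases hv1 u hu with h | rfl | rfl
    · exact h0 u h
    · have := h0 _ (left_mem_verts he)
      simp only at this ⊢
      omega
    · have := h0 _ (left_mem_verts he)
      simp only at this ⊢
      omega
  have h2 : IsTwo E1 t := by
    unfold IsTwo
    rw [hcross]
    exact Set.ncard_pair hne
  by_cases hV : IsV0 E1 t
  · refine ⟨E1, t, t, ⟨hP1, hV, ?_, htop1⟩, hTube1, hT1, hmax, le_rfl, hbel1,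
      fun h0 _ => hgr1 h0⟩
    have hV' : ({p, q} : Set (ℤ × ℤ)) = V0 := hcross.symm.trans hV
    rw [hm1]
    refine Or.inr (Or.inr (Or.inl ?_))
    have hp' : p ∈ V0 := by rw [← hV']; simp
    have hq' : q ∈ V0 := by rw [← hV']; simp
    unfold cap
    rcases hp' with rfl | hp'
    · rcases hq' with rfl | hq'
      · exact absurd rfl hne
      · rw [Set.mem_singleton_iff] at hq'
        subst hq'
        rfl
    · rw [Set.mem_singleton_iff] at hp'
      subst hp'
      rcases hq' with rfl | hq'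
      · rw [Sym2.eq_swap]
      · rw [Set.mem_singleton_iff] at hq'
        subst hq'
        exact absurd rfl hne
  · -- insert a detour and cut
    have hI := ins_facts hS hL hP1 hTube1 h2 hV
    set F := ins L M E1 t with hF
    set m : ℤ := t + hgt L M with hm
    have hVF : IsV0 F m := (hI.mid m (by omega) (by omega)).2 rfl
    obtain ⟨hlow, hupp, hgl⟩ := hC F m hI.poly hVF
    -- the unit square
    obtain ⟨S, hSP, hSU, hSv, hSc, hSa⟩ := isPolygon_unit hpq t
    have hST : InTube L M S := by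
      intro u hu
      rcases hSv u hu with h | h
      · have h' := hp
        rw [← h] at h'
        exact h'
      · have h' := hq
        rw [← h] at h'
        exact h'
    have h2S : IsTwo S t := by
      unfold IsTwo
      rw [hSc]
      exact Set.ncard_pair hne
    have hVS : ¬ IsV0 S t := by
      intro h
      exact hV (hcross.trans (hSc.symm.trans h))
    have hIS := ins_facts hS hL hSP hST h2S hVS
    have hVFS : IsV0 (ins L M S t) m := (hIS.mid m (by omega) (by omega)).2 rfl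
    have hab : AboveEq E1 S t := by
      intro u v hu hv
      rw [hSa u v hu hv, hm1]
      constructor
      · rintro (⟨h, -⟩ | h | h | h)
        · have := hmax _ (left_mem_verts h)
          omega
        · rw [Sym2.eq_iff] at h
          rcases h with ⟨rfl, rfl⟩ | ⟨rfl, rfl⟩ <;> simp only at hu hv <;> omega
        · exact h
        · rw [Sym2.eq_iff] at h
          rcases h with ⟨rfl, rfl⟩ | ⟨rfl, rfl⟩ <;> simp only at hu hv <;> omega
      · intro h
        exact Or.inr (Or.inr (Or.inl h))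
    have hab' := ins_above hS hL hP1 hTube1 h2 hSP hST hab (hcross.trans hSc.symm)
    have hup : upp F m = upp (ins L M S t) m :=
      upp_eq hI.poly.adj hIS.poly.adj hab' (hVF.trans hVFS.symm)
    obtain ⟨hlow', hupp', hgl'⟩ := hC (ins L M S t) m hIS.poly hVFS
    have hUS : Unknotted (ins L M S t) := hIS.type.symm.unknotted hSU
    have hUu : Unknotted (upp F m) := by
      rw [hup]
      rw [← hgl'] at hUS
      exact ((hTy _ _ m hlow' hupp').1.1 hUS).2
    have hty : SameType (low F m) F := by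
      have := (hTy _ _ m hlow hupp).2.2.1 hUu
      rwa [hgl] at this
    have hH := hgt_pos L M
    refine ⟨low F m, m, t, hlow, inTube_low hL hI.tube, (hT1.trans hI.type).trans hty.symm, hmax,
      by omega, ?_, ?_⟩
    · intro u v h3 h4 h5
      rw [← hbel1 u v h3 h4 h5, ← ins_below (L := L) (M := M) (E := E1) h3 h4, mem_low_iff, ← hF]
      constructor
      · rintro (h | ⟨h, -⟩)
        · unfold cap at h
          rw [Sym2.eq_iff] at h
          rcases h with ⟨rfl, rfl⟩ | ⟨rfl, rfl⟩ <;> simp only at h3 h4 <;> omega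
        · exact h
      · intro h
        exact Or.inr ⟨h, by omega⟩
    · intro h0 ht u hu
      obtain ⟨v, hv⟩ := hu
      rw [mem_low_iff] at hv
      rcases hv with h | ⟨h, -⟩
      · unfold cap at h
        rw [Sym2.eq_iff] at h
        rcases h with ⟨rfl, rfl⟩ | ⟨rfl, rfl⟩ <;> simp only <;> omega
      · by_cases h6 : 0 ≤ u.2.2
        · exact h6
        · exfalso
          have h7 : ∃ w : P3, s(u, w) ∈ F := ⟨v, h⟩
          -- a vertex of `F` below level `0` would be a vertex of `E1`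
          have h8 := hI.poly.adj u v h
          have h9 : v.2.2 ≤ t := by
            unfold Adj at h8
            have := neg_abs_le (u.2.2 - v.2.2)
            have := abs_nonneg (u.1 - v.1)
            have := abs_nonneg (u.2.1 - v.2.1)
            omega
          have h10 : s(u, v) ∈ E1 := (ins_below (L := L) (M := M) (by omega) h9).1 h
          exact h6 (hgr1 h0 u (left_mem_verts h10))

/-! ### Reflection -/

theorem frame_negZ : Frame (1, 0, 0) (0, 1, 0) (0, 0, -1) :=
  ⟨by simp [dot3], by simp [dot3], by simp [dot3], by simp [dot3], by simp [dot3], by simp [dot3]⟩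

/-- Reflection of the third coordinate. -/
def flipZ (c : ℤ) (u : P3) : P3 := (u.1, u.2.1, c - u.2.2)

theorem flipZ_eq (c : ℤ) : flipZ c = latIso (0, 0, c) (1, 0, 0) (0, 1, 0) (0, 0, -1) := by
  funext u
  refine Prod.ext ?_ (Prod.ext ?_ ?_) <;> simp [latIso, flipZ, sub_eq_add_neg]

theorem flipZ_flipZ (c : ℤ) (u : P3) : flipZ c (flipZ c u) = u := by
  refine Prod.ext rfl (Prod.ext rfl ?_)
  simp [flipZ]

theorem flipZ_inj (c : ℤ) : Function.Injective (flipZ c) := fun u v h => by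
  have := congrArg (flipZ c) h
  rwa [flipZ_flipZ, flipZ_flipZ] at this

theorem mem_flipZ {c : ℤ} {u v : P3} :
    s(u, v) ∈ mapE (flipZ c) E ↔ s(flipZ c u, flipZ c v) ∈ E := by
  have := mem_mapE (flipZ_inj c) (E := E) (u := flipZ c u) (v := flipZ c v)
  rwa [flipZ_flipZ, flipZ_flipZ] at this

theorem isPolygon_flipZ (c : ℤ) (hE : IsPolygon E) : IsPolygon (mapE (flipZ c) E) := by
  rw [flipZ_eq]
  exact isPolygon_latIso frame_negZ _ hE

theorem sameType_flipZ (c : ℤ) (E : Finset (Sym2 P3)) : SameType E (mapE (flipZ c) E) := by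
  rw [flipZ_eq]
  obtain ⟨G, -, hG, hseg⟩ := exists_latHomeo frame_negZ (0, 0, c)
  exact ⟨G, (body_mapE G _ hG hseg E).symm⟩

/-- (C) Every polygon of the tube has the type of a polygon of the tube with reference caps. -/
def CapStatement : Prop := ∀ (L M : ℕ) (E : Finset (Sym2 P3)), 1 ≤ L → IsPolygon E →
  InTube L M E → ∃ (A : Finset (Sym2 P3)) (m : ℤ), 0 < m ∧ IsUpp A 0 ∧ IsLow A m ∧
    InTube L M A ∧ SameType E A

theorem capStatement (hS : StretchStatement) (hC : CutStatement) (hTy : TypeStatement) :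
    CapStatement := by
  intro L M E hL hE hT
  obtain ⟨A, m, t, hA⟩ := exists_topCap hS hC hTy hL hE hT
  set A2 := mapE (flipZ (m + 1)) A with hA2
  have hP2 : IsPolygon A2 := isPolygon_flipZ _ hA.low.1
  have hu2 : IsUpp A2 0 := by
    refine ⟨hP2, ?_, ?_, ?_⟩
    · have h1 := hA.low.2.1
      unfold IsV0 at h1 ⊢
      rw [← h1]
      ext ⟨c1, c2⟩
      rw [mem_cross, mem_cross, hA2, mem_flipZ]
      have e1 : flipZ (m + 1) (c1, c2, 0) = (c1, c2, m + 1) := by simp [flipZ]
      have e2 : flipZ (m + 1) (c1, c2, 0 + 1) = (c1, c2, m) := by simp [flipZ]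
      rw [e1, e2, Sym2.eq_swap]
    · have h1 := hA.low.2.2.1
      unfold cap at h1 ⊢
      rw [hA2, mem_flipZ]
      have e1 : flipZ (m + 1) (0, 0, 0) = (0, 0, m + 1) := by simp [flipZ]
      have e2 : flipZ (m + 1) (1, 0, 0) = (1, 0, m + 1) := by simp [flipZ]
      rw [e1, e2]
      exact h1
    · rintro u ⟨v, hv⟩
      rw [hA2, mem_flipZ] at hv
      have := hA.low.2.2.2 _ (left_mem_verts hv)
      simp only [flipZ] at this
      omega
  have hT2 : InTube L M A2 := by
    rintro u ⟨v, hv⟩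
    rw [hA2, mem_flipZ] at hv
    exact hA.tube (flipZ (m + 1) u) (left_mem_verts hv)
  obtain ⟨A3, m3, t3, hA3⟩ := exists_topCap hS hC hTy hL hP2 hT2
  have hV : ((0, 0) : ℤ × ℤ) ∈ cross A2 0 := by
    rw [show cross A2 0 = V0 from hu2.2.1]
    simp [V0]
  have ht3 : 1 ≤ t3 := by
    have := hA3.top _ (right_mem_verts (mem_cross.1 hV))
    simpa using this
  refine ⟨A3, m3, by have := hA3.le; omega, ⟨hA3.low.1, ?_, ?_, ?_⟩, hA3.low, hA3.tube,
    (hA.type.trans (sameType_flipZ _ _)).trans hA3.type⟩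
  · have h1 := hu2.2.1
    unfold IsV0 at h1 ⊢
    rw [← h1]
    ext ⟨c1, c2⟩
    rw [mem_cross, mem_cross]
    exact hA3.below _ _ (by simp only; omega) (by simp only; omega) (by simp only; omega)
  · have h1 := hu2.2.2.1
    unfold cap at h1 ⊢
    exact (hA3.below _ _ (by simp only; omega) (by simp only; omega) (by simp only; omega)).2 h1
  · exact hA3.ground hu2.2.2.2 (by omega)

end Pool.Agent.KTube
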