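import Mathlib

/-!
# Coefficients and generating functions of weighted classes

A class is a type `X` with a length `l : X → ℕ` and a weight `w : X → ℝ≥0∞`.
-/

set_option autoImplicit false

open scoped ENNReal
open Finset

namespace Pool.Agent.KTube

/-- The power series whose coefficients are the total weights of the objects of length `n`. -/
noncomputable def ser {X : Type*} (l : X → ℕ) (w : X → ℝ≥0∞) : PowerSeries ℝ≥0∞ :=
  PowerSeries.mk fun n => ∑' x, if l x = n then w x else 0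

/-- The generating function. -/
noncomputable def gf {X : Type*} (l : X → ℕ) (w : X → ℝ≥0∞) (z : ℝ≥0∞) : ℝ≥0∞ :=
  ∑' x, w x * z ^ l x

theorem coeff_ser {X : Type*} (l : X → ℕ) (w : X → ℝ≥0∞) (n : ℕ) :
    PowerSeries.coeff n (ser l w) = ∑' x, if l x = n then w x else 0 := PowerSeries.coeff_mk _ _

theorem gf_eq_tsum_ser {X : Type*} (l : X → ℕ) (w : X → ℝ≥0∞) (z : ℝ≥0∞) :
    gf l w z = ∑' n, PowerSeries.coeff n (ser l w) * z ^ n := by
  simp_rw [coeff_ser]
  unfold gf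
  have h1 : ∀ n, (∑' x, if l x = n then w x else 0) * z ^ n =
      ∑' x, if l x = n then w x * z ^ l x else 0 := fun n => by
    rw [← ENNReal.tsum_mul_right]
    refine tsum_congr fun x => ?_
    split_ifs with h
    · rw [h]
    · rw [zero_mul]
  simp_rw [h1]
  rw [ENNReal.tsum_comm]
  refine tsum_congr fun x => ?_
  rw [tsum_eq_single (l x)]
  · rw [if_pos rfl]
  · intro n hn
    rw [if_neg hn.symm]

theorem ser_equiv {X Y : Type*} (e : X ≃ Y) {lX : X → ℕ} {wX : X → ℝ≥0∞} {lY : Y → ℕ}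
    {wY : Y → ℝ≥0∞} (hl : ∀ x, lY (e x) = lX x) (hw : ∀ x, wY (e x) = wX x) :
    ser lX wX = ser lY wY := by
  ext n
  rw [coeff_ser, coeff_ser, ← Equiv.tsum_eq e]
  exact tsum_congr fun x => by rw [hl, hw]

theorem gf_equiv {X Y : Type*} (e : X ≃ Y) {lX : X → ℕ} {wX : X → ℝ≥0∞} {lY : Y → ℕ}
    {wY : Y → ℝ≥0∞} (hl : ∀ x, lY (e x) = lX x) (hw : ∀ x, wY (e x) = wX x) (z : ℝ≥0∞) :
    gf lX wX z = gf lY wY z := by
  unfold gf
  rw [← Equiv.tsum_eq e]
  exact tsum_congr fun x => by rw [hl, hw]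

theorem gf_le_of_injective {X Y : Type*} {e : X → Y} (he : Function.Injective e) {lX : X → ℕ}
    {wX : X → ℝ≥0∞} {lY : Y → ℕ} {wY : Y → ℝ≥0∞} (hl : ∀ x, lY (e x) = lX x)
    (hw : ∀ x, wX x ≤ wY (e x)) (z : ℝ≥0∞) : gf lX wX z ≤ gf lY wY z := by
  unfold gf
  refine le_trans (ENNReal.tsum_le_tsum fun x => ?_)
    (ENNReal.tsum_comp_le_tsum_of_injective he fun y => wY y * z ^ lY y)
  simp only [hl]
  exact mul_le_mul' (hw x) le_rfl

theorem gf_mono {X : Type*} (l : X → ℕ) (w : X → ℝ≥0∞) {z z' : ℝ≥0∞} (h : z ≤ z') :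
    gf l w z ≤ gf l w z' :=
  ENNReal.tsum_le_tsum fun _ => mul_le_mul' le_rfl (pow_le_pow_left' h _)

theorem ser_sum {X Y : Type*} (lX : X → ℕ) (wX : X → ℝ≥0∞) (lY : Y → ℕ) (wY : Y → ℝ≥0∞) :
    ser (Sum.elim lX lY) (Sum.elim wX wY) = ser lX wX + ser lY wY := by
  ext n
  rw [map_add, coeff_ser, coeff_ser, coeff_ser,
    Summable.tsum_sum ENNReal.summable ENNReal.summable]
  rfl

theorem gf_sum {X Y : Type*} (lX : X → ℕ) (wX : X → ℝ≥0∞) (lY : Y → ℕ) (wY : Y → ℝ≥0∞)
    (z : ℝ≥0∞) : gf (Sum.elim lX lY) (Sum.elim wX wY) z = gf lX wX z + gf lY wY z := by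
  unfold gf
  rw [Summable.tsum_sum ENNReal.summable ENNReal.summable]
  rfl

theorem ser_prod {X Y : Type*} (lX : X → ℕ) (wX : X → ℝ≥0∞) (lY : Y → ℕ) (wY : Y → ℝ≥0∞) :
    ser (fun p : X × Y => lX p.1 + lY p.2) (fun p => wX p.1 * wY p.2) = ser lX wX * ser lY wY := by
  ext n
  rw [PowerSeries.coeff_mul]
  simp_rw [coeff_ser]
  have h1 : ∀ p ∈ antidiagonal n, (∑' x, if lX x = p.1 then wX x else 0) *
      (∑' y, if lY y = p.2 then wY y else 0) =
      ∑' q : X × Y, if (lX q.1, lY q.2) = p then wX q.1 * wY q.2 else 0 := fun p _ => by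
    rw [ENNReal.tsum_prod (f := fun x y => if (lX x, lY y) = p then wX x * wY y else 0),
      ← ENNReal.tsum_mul_right]
    refine tsum_congr fun x => ?_
    rw [← ENNReal.tsum_mul_left]
    refine tsum_congr fun y => ?_
    by_cases h1 : lX x = p.1
    · by_cases h2 : lY y = p.2
      · rw [if_pos h1, if_pos h2, if_pos (Prod.ext h1 h2)]
      · rw [if_neg h2, mul_zero, if_neg fun h => h2 (congrArg Prod.snd h)]
    · rw [if_neg h1, zero_mul, if_neg fun h => h1 (congrArg Prod.fst h)]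
  rw [sum_congr rfl h1, ← Summable.tsum_finsetSum fun _ _ => ENNReal.summable]
  refine tsum_congr fun q => ?_
  rw [sum_ite_eq]
  simp only [HasAntidiagonal.mem_antidiagonal]

theorem gf_prod {X Y : Type*} (lX : X → ℕ) (wX : X → ℝ≥0∞) (lY : Y → ℕ) (wY : Y → ℝ≥0∞)
    (z : ℝ≥0∞) : gf (fun p : X × Y => lX p.1 + lY p.2) (fun p => wX p.1 * wY p.2) z =
      gf lX wX z * gf lY wY z := by
  unfold gf
  rw [ENNReal.tsum_prod (f := fun x y => wX x * wY y * z ^ (lX x + lY y)),
    ← ENNReal.tsum_mul_right]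
  refine tsum_congr fun x => ?_
  rw [← ENNReal.tsum_mul_left]
  refine tsum_congr fun y => ?_
  rw [pow_add]
  ring

/-- The class with one object, of length zero and weight one. -/
theorem ser_unit : ser (fun _ : Unit => 0) (fun _ => 1) = 1 := by
  ext n
  rw [coeff_ser, PowerSeries.coeff_one, tsum_eq_single ()]
  · simp [eq_comm]
  · intro b hb
    exact absurd rfl hb

theorem gf_unit (z : ℝ≥0∞) : gf (fun _ : Unit => 0) (fun _ => 1) z = 1 := by
  unfold gf
  rw [tsum_eq_single ()]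
  · simp
  · intro b hb
    exact absurd rfl hb

/-- Classes fibred over a countable or uncountable index set. -/
theorem ser_sigma {I : Type*} {X : I → Type*} (l : ∀ i, X i → ℕ) (w : ∀ i, X i → ℝ≥0∞) (n : ℕ) :
    PowerSeries.coeff n (ser (fun p : (i : I) × X i => l p.1 p.2) (fun p => w p.1 p.2)) =
      ∑' i, PowerSeries.coeff n (ser (l i) (w i)) := by
  simp_rw [coeff_ser]
  exact ENNReal.tsum_sigma fun i x => if l i x = n then w i x else 0

theorem gf_sigma {I : Type*} {X : I → Type*} (l : ∀ i, X i → ℕ) (w : ∀ i, X i → ℝ≥0∞)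
    (z : ℝ≥0∞) : gf (fun p : (i : I) × X i => l p.1 p.2) (fun p => w p.1 p.2) z =
      ∑' i, gf (l i) (w i) z :=
  ENNReal.tsum_sigma fun i x => w i x * z ^ l i x

/-- Generating functions and products of power series. -/
theorem tsum_coeff_mul (a b : PowerSeries ℝ≥0∞) (z : ℝ≥0∞) :
    ∑' n, PowerSeries.coeff n (a * b) * z ^ n =
      (∑' n, PowerSeries.coeff n a * z ^ n) * ∑' n, PowerSeries.coeff n b * z ^ n := by
  have h1 : ∀ n, PowerSeries.coeff n (a * b) * z ^ n = ∑' q : ℕ × ℕ, if q.1 + q.2 = n then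
      (PowerSeries.coeff q.1 a * z ^ q.1) * (PowerSeries.coeff q.2 b * z ^ q.2) else 0 := fun n => by
    rw [PowerSeries.coeff_mul, sum_mul]
    rw [tsum_eq_sum (s := antidiagonal n)]
    · refine sum_congr rfl fun p hp => ?_
      rw [HasAntidiagonal.mem_antidiagonal] at hp
      rw [if_pos hp, ← hp, pow_add]
      ring
    · intro p hp
      rw [HasAntidiagonal.mem_antidiagonal] at hp
      rw [if_neg hp]
  simp_rw [h1]
  rw [ENNReal.tsum_comm]
  have h2 : ∀ q : ℕ × ℕ, (∑' n, if q.1 + q.2 = n then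
      (PowerSeries.coeff q.1 a * z ^ q.1) * (PowerSeries.coeff q.2 b * z ^ q.2) else 0) =
      (PowerSeries.coeff q.1 a * z ^ q.1) * (PowerSeries.coeff q.2 b * z ^ q.2) := fun q => by
    rw [tsum_eq_single (q.1 + q.2)]
    · rw [if_pos rfl]
    · intro n hn
      rw [if_neg hn.symm]
  simp_rw [h2]
  rw [ENNReal.tsum_prod (f := fun i j => (PowerSeries.coeff i a * z ^ i) *
    (PowerSeries.coeff j b * z ^ j)), ← ENNReal.tsum_mul_right]
  refine tsum_congr fun i => ?_
  rw [ENNReal.tsum_mul_left]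

end Pool.Agent.KTube
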