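import Pool.Agent.KTube.Len

/-! Contexts: the upper parts that complete a given lower part to a polygon of the class. -/

set_option autoImplicit false

open scoped ENNReal
open Finset

namespace Pool.Agent.KTube

open Pool.Agent.LK

/-! ### Sums of families of power series -/

/-- The sum of a family of series. -/
noncomputable def tS {α : Type*} (S : Set α) (f : α → PowerSeries ℝ≥0∞) : PowerSeries ℝ≥0∞ :=
  PowerSeries.mk fun n => ∑' x : S, PowerSeries.coeff n (f x)

section tS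

variable {α β : Type*} {S T : Set α} {f g : α → PowerSeries ℝ≥0∞}

theorem coeff_tS (n : ℕ) : PowerSeries.coeff n (tS S f) = ∑' x : S, PowerSeries.coeff n (f x) :=
  PowerSeries.coeff_mk _ _

theorem tS_congr (h : ∀ x ∈ S, f x = g x) : tS S f = tS S g := by
  ext n
  rw [coeff_tS, coeff_tS]
  exact tsum_congr fun x => by rw [h x x.2]

theorem tS_add : tS S (fun x => f x + g x) = tS S f + tS S g := by
  ext n
  rw [map_add, coeff_tS, coeff_tS, coeff_tS, ← ENNReal.tsum_add]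
  exact tsum_congr fun x => map_add _ _ _

theorem tS_mul_right (c : PowerSeries ℝ≥0∞) : tS S (fun x => f x * c) = tS S f * c := by
  ext n
  rw [coeff_tS, PowerSeries.coeff_mul]
  simp_rw [coeff_tS, ← ENNReal.tsum_mul_right, PowerSeries.coeff_mul]
  rw [← Summable.tsum_finsetSum fun _ _ => ENNReal.summable]

theorem tS_union (h : Disjoint S T) : tS (S ∪ T) f = tS S f + tS T f := by
  ext n
  rw [map_add, coeff_tS, coeff_tS, coeff_tS]
  exact ENNReal.summable.tsum_union_disjoint (f := fun x => PowerSeries.coeff n (f x)) h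
    ENNReal.summable

theorem tS_eq_zero (h : ∀ x ∈ S, f x = 0) : tS S f = 0 := by
  ext n
  rw [coeff_tS, map_zero, ENNReal.tsum_eq_zero]
  intro x
  rw [h x x.2, map_zero]

theorem tS_subset (hT : T ⊆ S) (h : ∀ x ∈ S, x ∉ T → f x = 0) : tS S f = tS T f := by
  have h1 : S = T ∪ (S \ T) := (Set.union_sdiff_cancel hT).symm
  rw [h1, tS_union Set.disjoint_sdiff_right, tS_eq_zero (S := S \ T) fun x hx => h x hx.1 hx.2,
    add_zero]

theorem tS_sum {ι : Type*} (I : Finset ι) (F : ι → α → PowerSeries ℝ≥0∞) :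
    tS S (fun x => ∑ i ∈ I, F i x) = ∑ i ∈ I, tS S (F i) := by
  classical
  induction I using Finset.induction_on with
  | empty => simpa using tS_eq_zero (S := S) (f := fun _ => 0) fun _ _ => rfl
  | insert i I hi ih =>
    rw [sum_insert hi, ← ih, ← tS_add]
    exact tS_congr fun x _ => by rw [sum_insert hi]

theorem tS_le (h : ∀ x ∈ S, LeS (f x) (g x)) : LeS (tS S f) (tS S g) := by
  intro n
  rw [coeff_tS, coeff_tS]
  exact ENNReal.tsum_le_tsum fun x => h x x.2 n

/-- A monomial. -/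
noncomputable def mon (l : ℕ) (w : ℝ≥0∞) : PowerSeries ℝ≥0∞ :=
  ser (fun _ : Unit => l) fun _ => w

theorem sset_fib (S : Set α) (T : α → Set β) (l : α → ℕ) (w : α → ℝ≥0∞) (l' : β → ℕ)
    (w' : β → ℝ≥0∞) : sset {p : α × β | p.1 ∈ S ∧ p.2 ∈ T p.1} (fun p => l p.1 + l' p.2)
      (fun p => w p.1 * w' p.2) = tS S fun x => mon (l x) (w x) * sset (T x) l' w' := by
  let e : {p : α × β | p.1 ∈ S ∧ p.2 ∈ T p.1} ≃ (x : S) × (Unit × T x.1) :=
    { toFun := fun p => ⟨⟨p.1.1, p.2.1⟩, (), ⟨p.1.2, p.2.2⟩⟩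
      invFun := fun q => ⟨(q.1.1, q.2.2.1), q.1.2, q.2.2.2⟩
      left_inv := fun p => rfl
      right_inv := fun q => rfl }
  ext n
  rw [coeff_tS]
  have h1 : sset {p : α × β | p.1 ∈ S ∧ p.2 ∈ T p.1} (fun p => l p.1 + l' p.2)
      (fun p => w p.1 * w' p.2) = ser (fun q : (x : S) × (Unit × T x.1) => l q.1.1 + l' q.2.2.1)
      fun q => w q.1.1 * w' q.2.2.1 := by
    unfold sset
    exact ser_equiv e (fun x => rfl) fun x => rfl
  rw [h1, ser_sigma (I := S) (X := fun x => Unit × T x.1) (fun x q => l x.1 + l' q.2.1)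
    fun x q => w x.1 * w' q.2.1]
  refine tsum_congr fun x => ?_
  unfold mon sset
  rw [← ser_prod]

theorem sset_eq_tS (S : Set α) (l : α → ℕ) (w : α → ℝ≥0∞) :
    sset S l w = tS S fun x => mon (l x) (w x) := by
  let e : S ≃ (x : S) × Unit :=
    { toFun := fun p => ⟨p, ()⟩
      invFun := fun q => q.1
      left_inv := fun p => rfl
      right_inv := fun q => rfl }
  ext n
  rw [coeff_tS]
  have h1 : sset S l w = ser (fun q : (x : S) × Unit => l q.1.1) fun q => w q.1.1 := by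
    unfold sset
    exact ser_equiv e (fun x => rfl) fun x => rfl
  rw [h1]
  exact ser_sigma (I := S) (X := fun _ => Unit) (fun x _ => l x.1) (fun x _ => w x.1) n

end tS

/-! ### Two coupled linear equations -/

theorem solve2_unique {P Q s t W V W' V' : PowerSeries ℝ≥0∞} (hs : PowerSeries.coeff 0 s = 0)
    (ht : PowerSeries.coeff 0 t = 0) (h1 : W = P + (s * W + t * V)) (h2 : V = Q + (s * V + t * W))
    (h1' : W' = P + (s * W' + t * V')) (h2' : V' = Q + (s * V' + t * W')) :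
    W = W' ∧ V = V' := by
  have key : ∀ n, PowerSeries.coeff n W = PowerSeries.coeff n W' ∧
      PowerSeries.coeff n V = PowerSeries.coeff n V' := by
    intro n
    induction n using Nat.strong_induction_on with
    | _ n ih =>
      have aux : ∀ {a F F' : PowerSeries ℝ≥0∞}, PowerSeries.coeff 0 a = 0 →
          (∀ m, m < n → PowerSeries.coeff m F = PowerSeries.coeff m F') →
          PowerSeries.coeff n (a * F) = PowerSeries.coeff n (a * F') := by
        intro a F F' ha hF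
        rw [PowerSeries.coeff_mul, PowerSeries.coeff_mul]
        refine sum_congr rfl fun p hp => ?_
        rw [HasAntidiagonal.mem_antidiagonal] at hp
        by_cases h0 : p.1 = 0
        · rw [h0, ha, zero_mul, zero_mul]
        · rw [hF p.2 (by omega)]
      constructor
      · rw [h1, h1', map_add, map_add, map_add, map_add, aux hs fun m hm => (ih m hm).1,
          aux ht fun m hm => (ih m hm).2]
      · rw [h2, h2', map_add, map_add, map_add, map_add, aux hs fun m hm => (ih m hm).2,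
          aux ht fun m hm => (ih m hm).1]
  exact ⟨PowerSeries.ext fun n => (key n).1, PowerSeries.ext fun n => (key n).2⟩

theorem solve2 {P Q s t W V u v : PowerSeries ℝ≥0∞} (hs : PowerSeries.coeff 0 s = 0)
    (ht : PowerSeries.coeff 0 t = 0) (h1 : W = P + (s * W + t * V)) (h2 : V = Q + (s * V + t * W))
    (hu : u = 1 + (s * u + t * v)) (hv : v = s * v + t * u) : W = u * P + v * Q := by
  refine (solve2_unique (W' := u * P + v * Q) (V' := u * Q + v * P) hs ht h1 h2 ?_ ?_).1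
  · calc u * P + v * Q = (1 + (s * u + t * v)) * P + (s * v + t * u) * Q := by rw [← hu, ← hv]
      _ = P + (s * (u * P + v * Q) + t * (u * Q + v * P)) := by ring
  · calc u * Q + v * P = (1 + (s * u + t * v)) * Q + (s * v + t * u) * P := by rw [← hu, ← hv]
      _ = Q + (s * (u * Q + v * P) + t * (u * P + v * Q)) := by ring

/-- The even and the odd renewal series. -/
theorem exists_even_odd {s t : PowerSeries ℝ≥0∞} (hs : PowerSeries.coeff 0 s = 0)
    (ht : PowerSeries.coeff 0 t = 0) :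
    geo (s + t * geo s * t) = 1 + (s * geo (s + t * geo s * t) +
        t * (t * geo s * geo (s + t * geo s * t))) ∧
      t * geo s * geo (s + t * geo s * t) = s * (t * geo s * geo (s + t * geo s * t)) +
        t * geo (s + t * geo s * t) := by
  have h0 : PowerSeries.coeff 0 (s + t * geo s * t) = 0 := by
    rw [map_add, hs, mul_assoc, PowerSeries.coeff_mul, Finset.Nat.antidiagonal_zero,
      sum_singleton, ht, zero_mul, add_zero]
  set U := geo (s + t * geo s * t) with hU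
  have h1 : U = 1 + (s + t * geo s * t) * U := geo_eq h0
  have h2 : geo s = 1 + s * geo s := geo_eq hs
  constructor
  · calc U = 1 + (s + t * geo s * t) * U := h1
      _ = _ := by ring
  · calc t * geo s * U = t * (1 + s * geo s) * U := by rw [← h2]
      _ = _ := by ring

variable {A B S E : Finset (Sym2 P3)} {k i j : ℤ} {L M : ℕ} {C : Set (Finset (Sym2 P3))}
  {Y : ℝ≥0∞}

/-! ### Contexts -/

/-- A context: a lower part at the plane `1/2` in the tube. -/
def IsCtx (L M : ℕ) (A : Finset (Sym2 P3)) : Prop := IsLow A 0 ∧ InTube L M A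

/-- The completions of a context to a member of the class. -/
def cl (C : Set (Finset (Sym2 P3))) (A : Finset (Sym2 P3)) : Set (Finset (Sym2 P3)) :=
  {B | glue A B 0 ∈ C}

/-- The context with one more piece. -/
noncomputable def nextC (A S : Finset (Sym2 P3)) : Finset (Sym2 P3) :=
  shift (0, 0, -(lev S)) (glue A S 0)

theorem nextC_eq (hS : IsLow S k) : nextC A S = shift (0, 0, -k) (glue A S 0) := by
  unfold nextC
  rw [hS.lev_eq]

theorem isCtx_nextC (hA : IsCtx L M A) (hS : S ∈ MidSet L M) : IsCtx L M (nextC A S) := by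
  obtain ⟨⟨hP, hT, hG⟩, hU, k, hk, hSl, hu⟩ := hS
  rw [nextC_eq hSl]
  refine ⟨?_, ?_⟩
  · have := isLow_shift_add (t := -k) (isLow_glue_of_le hA.1 hU hSl hk.le)
    rwa [add_neg_cancel] at this
  · rw [inTube_shift, inTube_glue hA.1 hU]
    exact ⟨hA.2, hT⟩

theorem class_shift_iff (hC : ∀ E F, SameType E F → E ∈ C → F ∈ C) (t : P3) :
    shift t E ∈ C ↔ E ∈ C :=
  ⟨hC _ _ (sameType_shift _ _).symm, hC _ _ (sameType_shift _ _)⟩

theorem comp_mem_cl (hC : ∀ E F, SameType E F → E ∈ C → F ∈ C) (hA : IsLow A 0)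
    (hS : S ∈ MidSet L M) (hB : IsUpp B 0) : comp (S, B) ∈ cl C A ↔ B ∈ cl C (nextC A S) := by
  obtain ⟨⟨hP, hT, hG⟩, hU, k, hk, hSl, hu⟩ := hS
  have hB' := isUpp_shift_self hB k
  have h1 : glue A (comp (S, B)) 0 = glue (glue A S 0) (shift (0, 0, k) B) k := by
    rw [comp_eq hSl, glue_assoc hA hU hSl hB' hk.le]
  have h2 : glue (nextC A S) B 0 = shift (0, 0, -k) (glue (glue A S 0) (shift (0, 0, k) B) k) := by
    rw [nextC_eq hSl, shift_glue (-k) (glue A S 0), shift_shift]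
    have e1 : (((0, 0, -k) : P3) + (0, 0, k)) = 0 := by simp
    rw [e1, shift_zero, add_neg_cancel]
  unfold cl
  rw [Set.mem_ofPred_eq, Set.mem_ofPred_eq, h1, h2, class_shift_iff hC]

/-! ### The number of knotted middle pieces -/

/-- `MK i B`: the upper part `B` has exactly `i` knotted middle pieces. -/
inductive MK (L M : ℕ) : ℕ → Finset (Sym2 P3) → Prop
  | top (B : Finset (Sym2 P3)) : B ∈ TopSet L M → MK L M 0 B
  | un (i : ℕ) (S B : Finset (Sym2 P3)) : S ∈ MidSet L M → Unknotted S → MK L M i B →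
      MK L M i (comp (S, B))
  | kn (i : ℕ) (S B : Finset (Sym2 P3)) : S ∈ MidSet L M → ¬ Unknotted S → MK L M i B →
      MK L M (i + 1) (comp (S, B))

theorem comp_mem_upp (hT2 : CutStatement) (hS : S ∈ MidSet L M) (hB : B ∈ UppSet L M) :
    comp (S, B) ∈ UppSet L M ∧ comp (S, B) ∉ TopSet L M := by
  have h1 := (bij_mid hT2).mapsTo (Set.mk_mem_prod hS hB)
  refine ⟨?_, ?_⟩
  · rw [uppSet_eq]
    exact Or.inr h1
  · intro h2
    obtain ⟨-, -, k, hk, hV⟩ := h1
    exact h2.2 k hk hV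

theorem MK.upp (hT2 : CutStatement) {i : ℕ} (h : MK L M i B) : B ∈ UppSet L M := by
  induction h with
  | top B h => exact h.1
  | un i S B hS _ _ ih => exact (comp_mem_upp hT2 hS ih).1
  | kn i S B hS _ _ ih => exact (comp_mem_upp hT2 hS ih).1

theorem exists_MK (hT2 : CutStatement) : ∀ (n : ℕ) (B : Finset (Sym2 P3)), lB B ≤ n →
    B ∈ UppSet L M → ∃ i, MK L M i B := by
  intro n
  induction n using Nat.strong_induction_on with
  | _ n ih =>
    intro B hn hB
    have h1 := hB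
    rw [uppSet_eq] at h1
    rcases h1 with h1 | h1
    · exact ⟨0, MK.top B h1⟩
    · obtain ⟨⟨S, B'⟩, ⟨hS, hB'⟩, rfl⟩ := (bij_mid hT2).surjOn h1
      obtain ⟨k, -, hk⟩ := exists_low_of_mid hS
      have h2 : lB (comp (S, B')) = lB S + lB B' := lB_comp hk hB'.1
      have h3 : 1 ≤ lB S := one_le_lB_of_mid hS
      obtain ⟨i, hi⟩ := ih (lB B') (by omega) B' le_rfl hB'
      by_cases hU : Unknotted S
      · exact ⟨i, MK.un i S B' hS hU hi⟩
      · exact ⟨i + 1, MK.kn i S B' hS hU hi⟩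

theorem MK.cases_comp (hT2 : CutStatement) {n : ℕ} (hS : S ∈ MidSet L M) (hB : B ∈ UppSet L M)
    (h : MK L M n (comp (S, B))) :
    (Unknotted S ∧ MK L M n B) ∨ (¬ Unknotted S ∧ ∃ m, n = m + 1 ∧ MK L M m B) := by
  generalize hE : comp (S, B) = E at h
  have hinj := (bij_mid (L := L) (M := M) hT2).injOn
  cases h with
  | top B' h =>
    rw [← hE] at h
    exact absurd h (comp_mem_upp hT2 hS hB).2
  | un i S' B' hS' hU h =>
    have h1 := hinj (Set.mk_mem_prod hS hB) (Set.mk_mem_prod hS' (h.upp hT2)) hE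
    rw [Prod.mk.injEq] at h1
    rw [h1.1, h1.2]
    exact Or.inl ⟨hU, h⟩
  | kn i S' B' hS' hU h =>
    have h1 := hinj (Set.mk_mem_prod hS hB) (Set.mk_mem_prod hS' (h.upp hT2)) hE
    rw [Prod.mk.injEq] at h1
    rw [h1.1, h1.2]
    exact Or.inr ⟨hU, i, rfl, h⟩

theorem MK.unique (hT2 : CutStatement) {n m : ℕ} (h : MK L M n B) (h' : MK L M m B) : n = m := by
  induction h generalizing m with
  | top B h =>
    cases h' with
    | top => rfl
    | un i S' B' hS' hU h2 => exact absurd h (comp_mem_upp hT2 hS' (h2.upp hT2)).2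
    | kn i S' B' hS' hU h2 => exact absurd h (comp_mem_upp hT2 hS' (h2.upp hT2)).2
  | un i S B hS hU h ih =>
    rcases h'.cases_comp hT2 hS (h.upp hT2) with ⟨-, h2⟩ | ⟨h1, -⟩
    · exact ih h2
    · exact absurd hU h1
  | kn i S B hS hU h ih =>
    rcases h'.cases_comp hT2 hS (h.upp hT2) with ⟨h1, -⟩ | ⟨-, l, rfl, h2⟩
    · exact absurd h1 hU
    · rw [ih h2]

theorem MK.klen (hT1 : StretchStatement) (hT2 : CutStatement) {n : ℕ} (h : MK L M n B) :
    KLen n B := by
  induction h with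
  | top B h => exact KLen.zero _
  | un i S B hS hU h ih =>
    obtain ⟨k, -, hk⟩ := exists_low_of_mid hS
    exact klen_comp_upp hT1 hk (h.upp hT2).1 (ih.shift k)
  | kn i S B hS hU h ih =>
    obtain ⟨k, -, hk⟩ := exists_low_of_mid hS
    cases i with
    | zero =>
      refine KLen.one _ fun h1 => hU ?_
      exact ((comp_mem_US hT1 hk (h.upp hT2).1).1 h1).1
    | succ i =>
      rw [comp_eq hk]
      exact KLen.succ i _ _ _ hk (isUpp_shift_self (h.upp hT2).1 k) hU (ih.shift k)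

/-- The completions with exactly `n` knotted middle pieces. -/
def UK (L M : ℕ) (C : Set (Finset (Sym2 P3))) (n : ℕ) (A : Finset (Sym2 P3)) :
    Set (Finset (Sym2 P3)) := {B | B ∈ cl C A ∧ MK L M n B}

/-- Their generating function. -/
noncomputable def FF (L M : ℕ) (C : Set (Finset (Sym2 P3))) (Y : ℝ≥0∞) (n : ℕ)
    (A : Finset (Sym2 P3)) : PowerSeries ℝ≥0∞ := sset (UK L M C n A) lB (wB Y)

theorem sset_comp_fib (hT2 : CutStatement) {P : Set (Finset (Sym2 P3))}
    {T : Finset (Sym2 P3) → Set (Finset (Sym2 P3))} (hP : P ⊆ MidSet L M)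
    (hT : ∀ S ∈ P, T S ⊆ UppSet L M) :
    sset (comp '' {p | p.1 ∈ P ∧ p.2 ∈ T p.1}) lB (wB Y) =
      tS P fun S => mon (lB S) (wB Y S) * sset (T S) lB (wB Y) := by
  rw [sset_comp_image hT2 (L := L) (M := M) fun p hp => ⟨hP hp.1, hT p.1 hp.1 hp.2⟩]
  exact sset_fib P T lB (wB Y) lB (wB Y)

theorem UK_zero (hT2 : CutStatement) (hC : ∀ E F, SameType E F → E ∈ C → F ∈ C)
    (hA : IsLow A 0) : UK L M C 0 A = (TopSet L M ∩ cl C A) ∪
      comp '' {p | p.1 ∈ MidSet L M ∩ US ∧ p.2 ∈ UK L M C 0 (nextC A p.1)} := by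
  ext E
  constructor
  · rintro ⟨h1, h2⟩
    generalize hn : 0 = n at h2
    cases h2 with
    | top B h => exact Or.inl ⟨h, h1⟩
    | un i S B hS hU h =>
      exact Or.inr ⟨(S, B), ⟨⟨hS, hU⟩, (comp_mem_cl hC hA hS (h.upp hT2).1).1 h1, hn ▸ h⟩, rfl⟩
    | kn i S B hS hU h => omega
  · rintro (⟨h1, h2⟩ | ⟨⟨S, B⟩, ⟨⟨hS, hU⟩, h1, h2⟩, rfl⟩)
    · exact ⟨h2, MK.top _ h1⟩
    · exact ⟨(comp_mem_cl hC hA hS (h2.upp hT2).1).2 h1, MK.un _ _ _ hS hU h2⟩

theorem UK_succ (hT2 : CutStatement) (hC : ∀ E F, SameType E F → E ∈ C → F ∈ C)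
    (hA : IsLow A 0) (n : ℕ) : UK L M C (n + 1) A =
      comp '' {p | p.1 ∈ MidSet L M \ US ∧ p.2 ∈ UK L M C n (nextC A p.1)} ∪
      comp '' {p | p.1 ∈ MidSet L M ∩ US ∧ p.2 ∈ UK L M C (n + 1) (nextC A p.1)} := by
  ext E
  constructor
  · rintro ⟨h1, h2⟩
    generalize hn : n + 1 = m at h2
    cases h2 with
    | top B h => omega
    | un i S B hS hU h =>
      exact Or.inr ⟨(S, B), ⟨⟨hS, hU⟩, (comp_mem_cl hC hA hS (h.upp hT2).1).1 h1, hn ▸ h⟩, rfl⟩
    | kn i S B hS hU h =>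
      have hi : n = i := by omega
      subst hi
      exact Or.inl ⟨(S, B), ⟨⟨hS, hU⟩, (comp_mem_cl hC hA hS (h.upp hT2).1).1 h1, h⟩, rfl⟩
  · rintro (⟨⟨S, B⟩, ⟨⟨hS, hU⟩, h1, h2⟩, rfl⟩ | ⟨⟨S, B⟩, ⟨⟨hS, hU⟩, h1, h2⟩, rfl⟩)
    · exact ⟨(comp_mem_cl hC hA hS (h2.upp hT2).1).2 h1, MK.kn _ _ _ hS hU h2⟩
    · exact ⟨(comp_mem_cl hC hA hS (h2.upp hT2).1).2 h1, MK.un _ _ _ hS hU h2⟩

/-- The members of the family with the knotted pieces that occur. -/
noncomputable def QQ (L M : ℕ) (C : Set (Finset (Sym2 P3))) (Y : ℝ≥0∞)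
    (f : Finset (Sym2 P3) → PowerSeries ℝ≥0∞) (A : Finset (Sym2 P3)) : PowerSeries ℝ≥0∞ :=
  tS (KnSet L M C) fun S => mon (lB S) (wB Y S) * f (nextC A S)

theorem subM_of_cl (hA : IsCtx L M A) (hS : S ∈ MidSet L M) (hB : B ∈ UppSet L M)
    (h : comp (S, B) ∈ cl C A) : S ∈ SubM L M C := by
  obtain ⟨⟨hP, hT, hG⟩, hU, k, hk, hSl, hu⟩ := hS
  have hB' := isUpp_shift_self hB.1 k
  unfold cl at h
  rw [comp_eq hSl] at h
  exact ⟨A, _, k, hk.le, hA.2, (inTube_shift _).2 hB.2, hA.1, hU, hSl, hB', h⟩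

theorem UK_empty (hT2 : CutStatement) (hC : ∀ E F, SameType E F → E ∈ C → F ∈ C)
    (hA : IsCtx L M A) (hS : S ∈ MidSet L M) (hS' : S ∉ SubM L M C) (n : ℕ) :
    UK L M C n (nextC A S) = ∅ := by
  rw [Set.eq_empty_iff_forall_notMem]
  rintro B ⟨h1, h2⟩
  have hB := h2.upp hT2
  exact hS' (subM_of_cl hA hS hB ((comp_mem_cl hC hA.1 hS hB.1).2 h1))

theorem sset_empty {α : Type*} (l : α → ℕ) (w : α → ℝ≥0∞) : sset (∅ : Set α) l w = 0 := by
  ext n
  unfold sset
  rw [coeff_ser, map_zero, ENNReal.tsum_eq_zero]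
  intro x
  exact absurd x.2 (Set.notMem_empty _)

theorem FF_zero (hT2 : CutStatement) (hC : ∀ E F, SameType E F → E ∈ C → F ∈ C)
    (hA : IsLow A 0) : FF L M C Y 0 A = sset (TopSet L M ∩ cl C A) lB (wB Y) +
      tS (MidSet L M ∩ US) fun S => mon (lB S) (wB Y S) * FF L M C Y 0 (nextC A S) := by
  unfold FF
  rw [UK_zero hT2 hC hA, sset_union]
  · congr 1
    exact sset_comp_fib hT2 (T := fun S => UK L M C 0 (nextC A S)) (L := L) (M := M)
      Set.inter_subset_left fun S hS B hB => hB.2.upp hT2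
  · rw [Set.disjoint_left]
    rintro E ⟨h1, -⟩ ⟨⟨S, B⟩, ⟨⟨hS, -⟩, h2⟩, rfl⟩
    exact (comp_mem_upp hT2 hS (h2.2.upp hT2)).2 h1

theorem FF_succ (hT2 : CutStatement) (hC : ∀ E F, SameType E F → E ∈ C → F ∈ C)
    (hA : IsCtx L M A) (n : ℕ) : FF L M C Y (n + 1) A = QQ L M C Y (FF L M C Y n) A +
      tS (MidSet L M ∩ US) fun S => mon (lB S) (wB Y S) * FF L M C Y (n + 1) (nextC A S) := by
  have h0 : FF L M C Y (n + 1) A =
      sset (comp '' {p | p.1 ∈ MidSet L M \ US ∧ p.2 ∈ UK L M C n (nextC A p.1)}) lB (wB Y) +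
      sset (comp '' {p | p.1 ∈ MidSet L M ∩ US ∧ p.2 ∈ UK L M C (n + 1) (nextC A p.1)})
        lB (wB Y) := by
    unfold FF
    rw [UK_succ hT2 hC hA.1, sset_union]
    rw [Set.disjoint_left]
    rintro E ⟨⟨S, B⟩, ⟨⟨hS, hU⟩, h1⟩, rfl⟩ ⟨⟨S', B'⟩, ⟨⟨hS', hU'⟩, h1'⟩, heq⟩
    have h2 := (bij_mid (L := L) (M := M) hT2).injOn (Set.mk_mem_prod hS' (h1'.2.upp hT2))
      (Set.mk_mem_prod hS (h1.2.upp hT2)) heq
    rw [Prod.mk.injEq] at h2
    exact hU (h2.1 ▸ hU')
  rw [h0, sset_comp_fib hT2 (T := fun S => UK L M C n (nextC A S)) (L := L) (M := M)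
      Set.sdiff_subset fun S hS B hB => hB.2.upp hT2,
    sset_comp_fib hT2 (T := fun S => UK L M C (n + 1) (nextC A S)) (L := L) (M := M)
      Set.inter_subset_left fun S hS B hB => hB.2.upp hT2]
  congr 1
  unfold QQ FF
  refine tS_subset ?_ ?_
  · rintro S ⟨h1, h2, h3⟩
    exact ⟨h1, h3⟩
  · rintro S ⟨h1, h2⟩ h3
    have h4 : S ∉ SubM L M C := fun h4 => h3 ⟨h1, h4, h2⟩
    rw [UK_empty hT2 hC hA h1 h4, sset_empty, mul_zero]

end Pool.Agent.KTube
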