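import Pool.Agent.KTube.Coef

/-!
# Power series of weighted sets, and linear equations
-/

set_option autoImplicit false

open scoped ENNReal
open Finset

namespace Pool.Agent.KTube

/-- The series of a set. -/
noncomputable def sset {α : Type*} (S : Set α) (l : α → ℕ) (w : α → ℝ≥0∞) : PowerSeries ℝ≥0∞ :=
  ser (fun x : S => l x) fun x : S => w x

/-- The generating function of a set. -/
noncomputable def gset {α : Type*} (S : Set α) (l : α → ℕ) (w : α → ℝ≥0∞) (z : ℝ≥0∞) : ℝ≥0∞ :=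
  gf (fun x : S => l x) (fun x : S => w x) z

theorem gset_eq_tsum {α : Type*} (S : Set α) (l : α → ℕ) (w : α → ℝ≥0∞) (z : ℝ≥0∞) :
    gset S l w z = ∑' n, PowerSeries.coeff n (sset S l w) * z ^ n := gf_eq_tsum_ser _ _ _

theorem sset_bij {α β : Type*} {S : Set α} {T : Set β} {f : α → β} (hf : Set.BijOn f S T)
    {l : α → ℕ} {w : α → ℝ≥0∞} {l' : β → ℕ} {w' : β → ℝ≥0∞} (hl : ∀ x ∈ S, l' (f x) = l x)
    (hw : ∀ x ∈ S, w' (f x) = w x) : sset S l w = sset T l' w' :=
  ser_equiv (hf.equiv f) (fun x => hl x x.2) fun x => hw x x.2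

theorem sset_union {α : Type*} {S T : Set α} (h : Disjoint S T) (l : α → ℕ) (w : α → ℝ≥0∞) :
    sset (S ∪ T) l w = sset S l w + sset T l w := by
  ext n
  unfold sset
  rw [map_add, coeff_ser, coeff_ser, coeff_ser]
  exact ENNReal.summable.tsum_union_disjoint (f := fun x => if l x = n then w x else 0) h
    ENNReal.summable

theorem sset_prod {α β : Type*} (S : Set α) (T : Set β) (l : α → ℕ) (w : α → ℝ≥0∞) (l' : β → ℕ)
    (w' : β → ℝ≥0∞) : sset (S ×ˢ T) (fun p => l p.1 + l' p.2) (fun p => w p.1 * w' p.2) =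
      sset S l w * sset T l' w' := by
  unfold sset
  rw [← ser_prod]
  exact ser_equiv (Equiv.Set.prod S T) (fun x => rfl) fun x => rfl

theorem gset_mono {α : Type*} (S : Set α) (l : α → ℕ) (w : α → ℝ≥0∞) {z z' : ℝ≥0∞} (h : z ≤ z') :
    gset S l w z ≤ gset S l w z' := gf_mono _ _ h

theorem gset_subset {α : Type*} {S T : Set α} (h : S ⊆ T) (l : α → ℕ) (w : α → ℝ≥0∞) (z : ℝ≥0∞) :
    gset S l w z ≤ gset T l w z :=
  gf_le_of_injective (Set.inclusion_injective h) (fun _ => rfl) (fun _ => le_rfl) z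

/-! ### Evaluation of power series -/

/-- The value of a power series at `z`. -/
noncomputable def evs (a : PowerSeries ℝ≥0∞) (z : ℝ≥0∞) : ℝ≥0∞ :=
  ∑' n, PowerSeries.coeff n a * z ^ n

theorem evs_sset {α : Type*} (S : Set α) (l : α → ℕ) (w : α → ℝ≥0∞) (z : ℝ≥0∞) :
    evs (sset S l w) z = gset S l w z := (gset_eq_tsum S l w z).symm

theorem evs_add (a b : PowerSeries ℝ≥0∞) (z : ℝ≥0∞) : evs (a + b) z = evs a z + evs b z := by
  unfold evs
  rw [← ENNReal.tsum_add]
  exact tsum_congr fun n => by rw [map_add, add_mul]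

theorem evs_mul (a b : PowerSeries ℝ≥0∞) (z : ℝ≥0∞) : evs (a * b) z = evs a z * evs b z :=
  tsum_coeff_mul a b z

theorem evs_one (z : ℝ≥0∞) : evs 1 z = 1 := by
  unfold evs
  rw [tsum_eq_single 0]
  · simp
  · intro n hn
    rw [PowerSeries.coeff_one, if_neg hn, zero_mul]

theorem evs_mono (a : PowerSeries ℝ≥0∞) {z z' : ℝ≥0∞} (h : z ≤ z') : evs a z ≤ evs a z' :=
  ENNReal.tsum_le_tsum fun _ => mul_le_mul' le_rfl (pow_le_pow_left' h _)

theorem coeff_le_evs (a : PowerSeries ℝ≥0∞) (z : ℝ≥0∞) (n : ℕ) :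
    PowerSeries.coeff n a * z ^ n ≤ evs a z := ENNReal.le_tsum n

/-! ### Linear equations -/

/-- Uniqueness of the solution of `W = A + S * W`. -/
theorem solve_unique {A S W W' : PowerSeries ℝ≥0∞} (hS : PowerSeries.coeff 0 S = 0)
    (h : W = A + S * W) (h' : W' = A + S * W') : W = W' := by
  ext n
  induction n using Nat.strong_induction_on with
  | _ n ih =>
    rw [h, h', map_add, map_add, PowerSeries.coeff_mul, PowerSeries.coeff_mul]
    congr 1
    refine sum_congr rfl fun p hp => ?_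
    rw [HasAntidiagonal.mem_antidiagonal] at hp
    by_cases h0 : p.1 = 0
    · rw [h0, hS, zero_mul, zero_mul]
    · rw [ih p.2 (by omega)]

theorem solve {A S W U : PowerSeries ℝ≥0∞} (hS : PowerSeries.coeff 0 S = 0) (h : W = A + S * W)
    (hU : U = 1 + S * U) : W = U * A := by
  refine solve_unique hS h ?_
  conv_lhs => rw [hU]
  ring

/-- The series `1 + S + S² + …`. -/
noncomputable def geo (S : PowerSeries ℝ≥0∞) : PowerSeries ℝ≥0∞ :=
  PowerSeries.mk fun n => ∑ k ∈ range (n + 1), PowerSeries.coeff n (S ^ k)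

theorem coeff_pow_zero {S : PowerSeries ℝ≥0∞} (hS : PowerSeries.coeff 0 S = 0) :
    ∀ k n, n < k → PowerSeries.coeff n (S ^ k) = 0 := by
  intro k
  induction k with
  | zero => intro n hn; omega
  | succ k ih =>
    intro n hn
    rw [pow_succ', PowerSeries.coeff_mul]
    refine sum_eq_zero fun p hp => ?_
    rw [HasAntidiagonal.mem_antidiagonal] at hp
    by_cases h0 : p.1 = 0
    · rw [h0, hS, zero_mul]
    · rw [ih p.2 (by omega), mul_zero]

theorem coeff_geo {S : PowerSeries ℝ≥0∞} (hS : PowerSeries.coeff 0 S = 0) {n m : ℕ} (h : n ≤ m) :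
    PowerSeries.coeff n (geo S) = ∑ k ∈ range (m + 1), PowerSeries.coeff n (S ^ k) := by
  unfold geo
  rw [PowerSeries.coeff_mk]
  refine sum_subset (fun k hk => ?_) fun k _ hk => ?_
  · rw [mem_range] at *
    omega
  · rw [mem_range] at hk
    exact coeff_pow_zero hS k n (by omega)

theorem geo_eq {S : PowerSeries ℝ≥0∞} (hS : PowerSeries.coeff 0 S = 0) :
    geo S = 1 + S * geo S := by
  ext n
  rw [map_add, PowerSeries.coeff_mul]
  have h1 : ∀ p ∈ antidiagonal n, PowerSeries.coeff p.1 S * PowerSeries.coeff p.2 (geo S) =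
      ∑ k ∈ range (n + 1), PowerSeries.coeff p.1 S * PowerSeries.coeff p.2 (S ^ k) := fun p hp => by
    rw [HasAntidiagonal.mem_antidiagonal] at hp
    rw [coeff_geo hS (m := n) (by omega), mul_sum]
  rw [sum_congr rfl h1, sum_comm]
  have h2 : ∀ k ∈ range (n + 1), ∑ p ∈ antidiagonal n, PowerSeries.coeff p.1 S *
      PowerSeries.coeff p.2 (S ^ k) = PowerSeries.coeff n (S ^ (k + 1)) := fun k _ => by
    rw [pow_succ', PowerSeries.coeff_mul]
  rw [sum_congr rfl h2, coeff_geo hS (m := n + 1) (by omega), sum_range_succ']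
  rw [pow_zero, add_comm]

end Pool.Agent.KTube
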