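import Pool.Agent.KTube.Words
import Pool.Agent.KTube.Types
import Pool.Agent.KTube.Series

/-! The decomposition of the generating functions into closed pieces. -/

set_option autoImplicit false

open scoped ENNReal

namespace Pool.Agent.KTube

open Pool.Agent.LK

/-! ### Abstract product formulas -/

theorem bijOn_restrict {α γ : Type*} {X : Set α} {R C : Set γ} {f : α → γ}
    (hf : Set.BijOn f X R) : Set.BijOn f {x | x ∈ X ∧ f x ∈ C} (R ∩ C) := by
  refine ⟨fun x hx => ⟨hf.mapsTo hx.1, hx.2⟩, hf.injOn.mono fun x hx => hx.1, ?_⟩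
  rintro y ⟨hy, hyC⟩
  obtain ⟨x, hx, rfl⟩ := hf.surjOn hy
  exact ⟨x, ⟨hx, hyC⟩, rfl⟩

theorem sset_of_bij {α β γ : Type*} {S : Set α} {T : Set β} {R : Set γ} {f : α × β → γ}
    (hf : Set.BijOn f (S ×ˢ T) R) {l : α → ℕ} {w : α → ℝ≥0∞} {l' : β → ℕ} {w' : β → ℝ≥0∞}
    {l'' : γ → ℕ} {w'' : γ → ℝ≥0∞} (hl : ∀ a ∈ S, ∀ b ∈ T, l'' (f (a, b)) = l a + l' b)
    (hw : ∀ a ∈ S, ∀ b ∈ T, w'' (f (a, b)) = w a * w' b) :
    sset R l'' w'' = sset S l w * sset T l' w' := by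
  rw [← sset_prod]
  exact (sset_bij hf (fun x hx => hl _ hx.1 _ hx.2) fun x hx => hw _ hx.1 _ hx.2).symm

theorem sset_one {α : Type*} {S T R U : Set α} {f : α × α → α}
    (hf : Set.BijOn f (S ×ˢ T) R) {l : α → ℕ} {w : α → ℝ≥0∞} {l' : α → ℕ} {w' : α → ℝ≥0∞}
    {l'' : α → ℕ} {w'' : α → ℝ≥0∞} (hl : ∀ a ∈ S, ∀ b ∈ T, l'' (f (a, b)) = l a + l' b)
    (hw : ∀ a ∈ S, ∀ b ∈ T, w'' (f (a, b)) = w a * w' b)
    (hU : ∀ a ∈ S, ∀ b ∈ T, f (a, b) ∈ U ↔ a ∈ U ∧ b ∈ U) :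
    sset (R ∩ U) l'' w'' = sset (S ∩ U) l w * sset (T ∩ U) l' w' := by
  have h1 : {x | x ∈ S ×ˢ T ∧ f x ∈ U} = (S ∩ U) ×ˢ (T ∩ U) := by
    ext ⟨a, b⟩
    simp only [Set.mem_ofPred_eq, Set.mem_prod, Set.mem_inter_iff]
    constructor
    · rintro ⟨⟨ha, hb⟩, h⟩
      have := (hU a ha b hb).1 h
      exact ⟨⟨ha, this.1⟩, hb, this.2⟩
    · rintro ⟨⟨ha, hau⟩, hb, hbu⟩
      exact ⟨⟨ha, hb⟩, (hU a ha b hb).2 ⟨hau, hbu⟩⟩
  have h2 := bijOn_restrict (C := U) hf
  rw [h1] at h2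
  exact sset_of_bij h2 (fun a ha b hb => hl a ha.1 b hb.1) fun a ha b hb => hw a ha.1 b hb.1

theorem sset_two {α : Type*} {S T R U K : Set α} {f : α × α → α}
    (hf : Set.BijOn f (S ×ˢ T) R) {l : α → ℕ} {w : α → ℝ≥0∞} {l' : α → ℕ} {w' : α → ℝ≥0∞}
    {l'' : α → ℕ} {w'' : α → ℝ≥0∞} (hl : ∀ a ∈ S, ∀ b ∈ T, l'' (f (a, b)) = l a + l' b)
    (hw : ∀ a ∈ S, ∀ b ∈ T, w'' (f (a, b)) = w a * w' b)
    (hK : ∀ a ∈ S, ∀ b ∈ T, f (a, b) ∈ K ↔ (a ∈ U ∧ b ∈ K) ∨ (a ∈ K ∧ b ∈ U))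
    (hdis : ∀ a, a ∈ U → a ∈ K → False) :
    sset (R ∩ K) l'' w'' = sset (S ∩ U) l w * sset (T ∩ K) l' w' +
      sset (S ∩ K) l w * sset (T ∩ U) l' w' := by
  have h1 : {x | x ∈ S ×ˢ T ∧ f x ∈ K} = (S ∩ U) ×ˢ (T ∩ K) ∪ (S ∩ K) ×ˢ (T ∩ U) := by
    ext ⟨a, b⟩
    simp only [Set.mem_ofPred_eq, Set.mem_prod, Set.mem_inter_iff, Set.mem_union]
    constructor
    · rintro ⟨⟨ha, hb⟩, h⟩
      rcases (hK a ha b hb).1 h with h | h
      · exact Or.inl ⟨⟨ha, h.1⟩, hb, h.2⟩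
      · exact Or.inr ⟨⟨ha, h.1⟩, hb, h.2⟩
    · rintro (⟨⟨ha, hau⟩, hb, hbu⟩ | ⟨⟨ha, hau⟩, hb, hbu⟩)
      · exact ⟨⟨ha, hb⟩, (hK a ha b hb).2 (Or.inl ⟨hau, hbu⟩)⟩
      · exact ⟨⟨ha, hb⟩, (hK a ha b hb).2 (Or.inr ⟨hau, hbu⟩)⟩
  have h2 := bijOn_restrict (C := K) hf
  rw [h1] at h2
  have h3 : sset (R ∩ K) l'' w'' = sset ((S ∩ U) ×ˢ (T ∩ K) ∪ (S ∩ K) ×ˢ (T ∩ U))
      (fun p => l p.1 + l' p.2) (fun p => w p.1 * w' p.2) := by
    refine (sset_bij h2 ?_ ?_).symm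
    · rintro ⟨a, b⟩ (hx | hx)
      · exact hl a hx.1.1 b hx.2.1
      · exact hl a hx.1.1 b hx.2.1
    · rintro ⟨a, b⟩ (hx | hx)
      · exact hw a hx.1.1 b hx.2.1
      · exact hw a hx.1.1 b hx.2.1
  rw [h3, sset_union, sset_prod, sset_prod]
  rw [Set.disjoint_left]
  rintro ⟨a, b⟩ h4 h5
  exact hdis a h4.1.2 h5.1.2

/-! ### Lengths and weights -/

/-- Half the number of edges. -/
def lE (E : Finset (Sym2 P3)) : ℕ := E.card / 2

/-- The number of pairs of edges that an upper part adds. -/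
def lB (B : Finset (Sym2 P3)) : ℕ := B.card / 2 - 2

/-- The weight of a polygon. -/
noncomputable def wE (Y : ℝ≥0∞) (E : Finset (Sym2 P3)) : ℝ≥0∞ := Y ^ span E

/-- The weight that an upper part adds. -/
noncomputable def wB (Y : ℝ≥0∞) (B : Finset (Sym2 P3)) : ℝ≥0∞ := Y ^ (span B - 1)

variable {E A B : Finset (Sym2 P3)} {k i j : ℤ} {L M : ℕ} {Y : ℝ≥0∞}

theorem four_le_card (hE : IsPolygon E) (h : IsV0 E k) (hc : cap j ∈ E) : 4 ≤ E.card := by
  have h1 : ({leg0 k, leg1 k, cap j} : Finset (Sym2 P3)) ⊆ E := by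
    intro e he
    simp only [Finset.mem_insert, Finset.mem_singleton] at he
    rcases he with rfl | rfl | rfl
    · exact h.leg0_mem
    · exact h.leg1_mem
    · exact hc
  have h2 : ({leg0 k, leg1 k, cap j} : Finset (Sym2 P3)).card = 3 := by
    rw [Finset.card_eq_three]
    exact ⟨_, _, _, leg0_ne_leg1 k, (cap_ne_leg0 _ _).symm, (cap_ne_leg1 _ _).symm, rfl⟩
  have h3 := Finset.card_le_card h1
  obtain ⟨m, hm⟩ := even_card hE
  omega

theorem leg0_injective : Function.Injective leg0 := by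
  intro a b h
  unfold leg0 at h
  rw [Sym2.eq_iff] at h
  simp only [Prod.mk.injEq, true_and] at h
  omega

theorem leg1_injective : Function.Injective leg1 := by
  intro a b h
  unfold leg1 at h
  rw [Sym2.eq_iff] at h
  simp only [Prod.mk.injEq, true_and] at h
  omega

theorem cap_injective : Function.Injective cap := by
  intro a b h
  unfold cap at h
  rw [Sym2.eq_iff] at h
  simp only [Prod.mk.injEq, true_and] at h
  omega

theorem leg0_ne_leg1' (i j : ℤ) : leg0 i ≠ leg1 j := by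
  simp [leg0, leg1]

theorem six_le_card (hij : i < j) (h : IsV0 E i) (h' : IsV0 E j) (hc : cap i ∈ E)
    (hc' : cap (j + 1) ∈ E) : 6 ≤ E.card := by
  have h1 : ({leg0 i, leg0 j, leg1 i, leg1 j, cap i, cap (j + 1)} : Finset (Sym2 P3)) ⊆ E := by
    intro e he
    simp only [Finset.mem_insert, Finset.mem_singleton] at he
    rcases he with rfl | rfl | rfl | rfl | rfl | rfl
    · exact h.leg0_mem
    · exact h'.leg0_mem
    · exact h.leg1_mem
    · exact h'.leg1_mem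
    · exact hc
    · exact hc'
  have h2 : ({leg0 i, leg0 j, leg1 i, leg1 j, cap i, cap (j + 1)} : Finset (Sym2 P3)).card = 6 := by
    have n1 : leg0 i ≠ leg0 j := fun h => hij.ne (leg0_injective h)
    have n2 : leg1 i ≠ leg1 j := fun h => hij.ne (leg1_injective h)
    have n3 : cap i ≠ cap (j + 1) := fun h => by
      have := cap_injective h
      omega
    rw [Finset.card_insert_of_notMem, Finset.card_insert_of_notMem, Finset.card_insert_of_notMem,
      Finset.card_insert_of_notMem, Finset.card_insert_of_notMem, Finset.card_singleton]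
    · simpa using n3
    · simp only [Finset.mem_insert, Finset.mem_singleton, not_or]
      exact ⟨(cap_ne_leg1 _ _).symm, (cap_ne_leg1 _ _).symm⟩
    · simp only [Finset.mem_insert, Finset.mem_singleton, not_or]
      exact ⟨n2, (cap_ne_leg1 _ _).symm, (cap_ne_leg1 _ _).symm⟩
    · simp only [Finset.mem_insert, Finset.mem_singleton, not_or]
      exact ⟨leg0_ne_leg1' _ _, leg0_ne_leg1' _ _, (cap_ne_leg0 _ _).symm, (cap_ne_leg0 _ _).symm⟩
    · simp only [Finset.mem_insert, Finset.mem_singleton, not_or]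
      exact ⟨n1, leg0_ne_leg1' _ _, leg0_ne_leg1' _ _, (cap_ne_leg0 _ _).symm,
        (cap_ne_leg0 _ _).symm⟩
  have h3 := Finset.card_le_card h1
  omega

theorem card_comp (hA : IsLow A k) (hB : IsUpp B 0) : (comp (A, B)).card + 4 = A.card + B.card := by
  rw [comp_eq hA, card_glue hA (isUpp_shift_self hB k), card_shift]

theorem span_comp (hA : IsLow A k) (hB : IsUpp B 0) : span (comp (A, B)) + 1 = span A + span B := by
  rw [comp_eq hA, span_glue hA (isUpp_shift_self hB k), span_shift]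

theorem lE_comp (hA : IsLow A k) (hB : IsUpp B 0) : lE (comp (A, B)) = lE A + lB B := by
  have h1 := card_comp hA hB
  obtain ⟨a, ha⟩ := even_card hA.1
  obtain ⟨b, hb⟩ := even_card hB.1
  have h2 := four_le_card hB.1 hB.2.1 hB.2.2.1
  unfold lE lB
  omega

theorem lB_comp (hA : IsLow A k) (hB : IsUpp B 0) : lB (comp (A, B)) = lB A + lB B := by
  have h1 := card_comp hA hB
  obtain ⟨a, ha⟩ := even_card hA.1
  obtain ⟨b, hb⟩ := even_card hB.1
  have h2 := four_le_card hB.1 hB.2.1 hB.2.2.1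
  have h3 := four_le_card hA.1 hA.2.1 hA.2.2.1
  unfold lB
  omega

theorem wE_comp (hA : IsLow A k) (hB : IsUpp B 0) : wE Y (comp (A, B)) = wE Y A * wB Y B := by
  have h1 := span_comp hA hB
  have h2 := span_pos hB.2.1.nonempty
  unfold wE wB
  rw [← pow_add]
  congr 1
  omega

theorem wB_comp (hA : IsLow A k) (hB : IsUpp B 0) : wB Y (comp (A, B)) = wB Y A * wB Y B := by
  have h1 := span_comp hA hB
  have h2 := span_pos hB.2.1.nonempty
  have h3 := span_pos hA.2.1.nonempty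
  unfold wB
  rw [← pow_add]
  congr 1
  omega

/-! ### Types -/

/-- The unknotted edge sets. -/
def US : Set (Finset (Sym2 P3)) := {E | Unknotted E}

/-- The edge sets of the type of `K`. -/
def KS (K : Finset (Sym2 P3)) : Set (Finset (Sym2 P3)) := {E | SameType K E}

theorem sameType_shift (t : P3) (B : Finset (Sym2 P3)) : SameType B (shift t B) :=
  moveFacts.trans t B

theorem comp_mem_US (hT1 : StretchStatement) (hA : IsLow A k) (hB : IsUpp B 0) :
    comp (A, B) ∈ US ↔ A ∈ US ∧ B ∈ US := by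
  have h1 := (typeStatement hT1 A _ k hA (isUpp_shift_self hB k)).1
  rw [comp_eq hA]
  refine h1.trans (and_congr_right fun _ => ?_)
  exact ⟨fun h => (sameType_shift _ _).unknotted h, fun h => (sameType_shift _ _).symm.unknotted h⟩

theorem comp_mem_KS (hT1 : StretchStatement) {K : Finset (Sym2 P3)} (hK : PrimeKnot K)
    (hA : IsLow A k) (hB : IsUpp B 0) :
    comp (A, B) ∈ KS K ↔ (A ∈ US ∧ B ∈ KS K) ∨ (A ∈ KS K ∧ B ∈ US) := by
  obtain ⟨-, h2, h3, h4⟩ := typeStatement hT1 A _ k hA (isUpp_shift_self hB k)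
  rw [comp_eq hA]
  have hs := sameType_shift (0, 0, k) B
  constructor
  · intro h
    rcases h4 K hK h with ⟨h5, h6⟩ | ⟨h5, h6⟩
    · exact Or.inl ⟨h5, h6.trans hs.symm⟩
    · exact Or.inr ⟨h6, hs.unknotted h5⟩
  · rintro (⟨h5, h6⟩ | ⟨h5, h6⟩)
    · exact (show SameType K B from h6).trans (hs.trans (h2 h5))
    · exact (show SameType K A from h5).trans (h3 (hs.symm.unknotted h6))

theorem US_KS_disjoint {K : Finset (Sym2 P3)} (hK : PrimeKnot K) (E : Finset (Sym2 P3))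
    (h1 : E ∈ US) (h2 : E ∈ KS K) : False := hK.2.1 ((show SameType K E from h2).unknotted h1)

/-! ### The pieces -/

/-- The polygons of the tube. -/
def PSet (L M : ℕ) : Set (Finset (Sym2 P3)) := {E | Gr L M E}

/-- The polygons without reference section. -/
def FreeSet (L M : ℕ) : Set (Finset (Sym2 P3)) := {E | Gr L M E ∧ ∀ k, ¬ IsV0 E k}

/-- The bottom pieces. -/
def BotSet (L M : ℕ) : Set (Finset (Sym2 P3)) := LowSet L M (-1) fun _ => True

/-- The middle pieces. -/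
def MidSet (L M : ℕ) : Set (Finset (Sym2 P3)) := LowSet L M 0 fun E => IsUpp E 0

/-- The top pieces. -/
def TopSet (L M : ℕ) : Set (Finset (Sym2 P3)) := {B | B ∈ UppSet L M ∧ ∀ k, 0 < k → ¬ IsV0 B k}

theorem gr_of_uppSet (h : E ∈ UppSet L M) : Gr L M E := ⟨h.1.1, h.2, h.1.grounded⟩

theorem pSet_eq (L M : ℕ) : PSet L M = FreeSet L M ∪ CutSet L M (-1) fun _ => True := by
  ext E
  simp only [PSet, FreeSet, CutSet, Set.mem_ofPred_eq, Set.mem_union, true_and]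
  constructor
  · intro h
    by_cases h1 : ∃ k, IsV0 E k
    · obtain ⟨k, hk⟩ := h1
      have := ground_nonneg h.2.2 hk.nonempty
      exact Or.inr ⟨h, k, by omega, hk⟩
    · rw [not_exists] at h1
      exact Or.inl ⟨h, h1⟩
  · rintro (h | h)
    · exact h.1
    · exact h.1

theorem uppSet_eq (L M : ℕ) : UppSet L M = TopSet L M ∪ CutSet L M 0 fun E => IsUpp E 0 := by
  ext E
  constructor
  · intro h
    by_cases h1 : ∃ k, 0 < k ∧ IsV0 E k
    · exact Or.inr ⟨gr_of_uppSet h, h.1, h1⟩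
    · rw [not_exists] at h1
      exact Or.inl ⟨h, fun k hk hV => h1 k ⟨hk, hV⟩⟩
  · rintro (h | h)
    · exact h.1
    · exact ⟨h.2.1, h.1.2.1⟩

theorem sset_pSet (C : Set (Finset (Sym2 P3))) (l : Finset (Sym2 P3) → ℕ)
    (w : Finset (Sym2 P3) → ℝ≥0∞) : sset (PSet L M ∩ C) l w =
      sset (FreeSet L M ∩ C) l w + sset (CutSet L M (-1) (fun _ => True) ∩ C) l w := by
  rw [pSet_eq, Set.union_inter_distrib_right, sset_union]
  rw [Set.disjoint_left]
  rintro E ⟨h1, -⟩ ⟨⟨-, -, k, -, h3⟩, -⟩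
  exact h1.2 k h3

theorem sset_uppSet (C : Set (Finset (Sym2 P3))) (l : Finset (Sym2 P3) → ℕ)
    (w : Finset (Sym2 P3) → ℝ≥0∞) : sset (UppSet L M ∩ C) l w =
      sset (TopSet L M ∩ C) l w + sset (CutSet L M 0 (fun E => IsUpp E 0) ∩ C) l w := by
  rw [uppSet_eq, Set.union_inter_distrib_right, sset_union]
  rw [Set.disjoint_left]
  rintro E ⟨h1, -⟩ ⟨⟨-, -, k, h4, h3⟩, -⟩
  exact h1.2 k h4 h3

theorem bij_bot (hT2 : CutStatement) :
    Set.BijOn comp (BotSet L M ×ˢ UppSet L M) (CutSet L M (-1) fun _ => True) :=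
  comp_bijOn hT2 _ _ fun _ _ _ _ _ _ => Iff.rfl

theorem bij_mid (hT2 : CutStatement) :
    Set.BijOn comp (MidSet L M ×ˢ UppSet L M) (CutSet L M 0 fun E => IsUpp E 0) :=
  comp_bijOn hT2 _ _ fun _ _ _ hk hA hB => isUpp_glue hA hB hk

theorem exists_low_of_bot (h : A ∈ BotSet L M) : ∃ k, IsLow A k :=
  ⟨_, h.2.2.choose_spec.2.1⟩

theorem exists_low_of_mid (h : A ∈ MidSet L M) : ∃ k, 0 < k ∧ IsLow A k :=
  ⟨_, h.2.2.choose_spec.1, h.2.2.choose_spec.2.1⟩

theorem one_le_lB_of_mid (h : A ∈ MidSet L M) : 1 ≤ lB A := by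
  obtain ⟨k, hk, hA⟩ := exists_low_of_mid h
  have h1 : IsUpp A 0 := h.2.1
  have := six_le_card hk h1.2.1 hA.2.1 h1.2.2.1 hA.2.2.1
  unfold lB
  omega

theorem coeff_zero_mid (C : Set (Finset (Sym2 P3))) (w : Finset (Sym2 P3) → ℝ≥0∞) :
    PowerSeries.coeff 0 (sset (MidSet L M ∩ C) lB w) = 0 := by
  unfold sset
  rw [coeff_ser, ENNReal.tsum_eq_zero]
  intro x
  rw [if_neg]
  have := one_le_lB_of_mid x.2.1
  omega

/-! ### The equations -/

theorem cut_bot_US (hT1 : StretchStatement) (hT2 : CutStatement) :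
    sset (CutSet L M (-1) (fun _ => True) ∩ US) lE (wE Y) =
      sset (BotSet L M ∩ US) lE (wE Y) * sset (UppSet L M ∩ US) lB (wB Y) := by
  refine sset_one (bij_bot hT2) ?_ ?_ ?_
  · intro A hA B hB
    obtain ⟨k, hk⟩ := exists_low_of_bot hA
    exact lE_comp hk hB.1
  · intro A hA B hB
    obtain ⟨k, hk⟩ := exists_low_of_bot hA
    exact wE_comp hk hB.1
  · intro A hA B hB
    obtain ⟨k, hk⟩ := exists_low_of_bot hA
    exact comp_mem_US hT1 hk hB.1

theorem cut_mid_US (hT1 : StretchStatement) (hT2 : CutStatement) :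
    sset (CutSet L M 0 (fun E => IsUpp E 0) ∩ US) lB (wB Y) =
      sset (MidSet L M ∩ US) lB (wB Y) * sset (UppSet L M ∩ US) lB (wB Y) := by
  refine sset_one (bij_mid hT2) ?_ ?_ ?_
  · intro A hA B hB
    obtain ⟨k, -, hk⟩ := exists_low_of_mid hA
    exact lB_comp hk hB.1
  · intro A hA B hB
    obtain ⟨k, -, hk⟩ := exists_low_of_mid hA
    exact wB_comp hk hB.1
  · intro A hA B hB
    obtain ⟨k, -, hk⟩ := exists_low_of_mid hA
    exact comp_mem_US hT1 hk hB.1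

theorem cut_bot_KS (hT1 : StretchStatement) (hT2 : CutStatement) {K : Finset (Sym2 P3)}
    (hK : PrimeKnot K) :
    sset (CutSet L M (-1) (fun _ => True) ∩ KS K) lE (wE Y) =
      sset (BotSet L M ∩ US) lE (wE Y) * sset (UppSet L M ∩ KS K) lB (wB Y) +
      sset (BotSet L M ∩ KS K) lE (wE Y) * sset (UppSet L M ∩ US) lB (wB Y) := by
  refine sset_two (bij_bot hT2) ?_ ?_ ?_ (US_KS_disjoint hK)
  · intro A hA B hB
    obtain ⟨k, hk⟩ := exists_low_of_bot hA
    exact lE_comp hk hB.1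
  · intro A hA B hB
    obtain ⟨k, hk⟩ := exists_low_of_bot hA
    exact wE_comp hk hB.1
  · intro A hA B hB
    obtain ⟨k, hk⟩ := exists_low_of_bot hA
    exact comp_mem_KS hT1 hK hk hB.1

theorem cut_mid_KS (hT1 : StretchStatement) (hT2 : CutStatement) {K : Finset (Sym2 P3)}
    (hK : PrimeKnot K) :
    sset (CutSet L M 0 (fun E => IsUpp E 0) ∩ KS K) lB (wB Y) =
      sset (MidSet L M ∩ US) lB (wB Y) * sset (UppSet L M ∩ KS K) lB (wB Y) +
      sset (MidSet L M ∩ KS K) lB (wB Y) * sset (UppSet L M ∩ US) lB (wB Y) := by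
  refine sset_two (bij_mid hT2) ?_ ?_ ?_ (US_KS_disjoint hK)
  · intro A hA B hB
    obtain ⟨k, -, hk⟩ := exists_low_of_mid hA
    exact lB_comp hk hB.1
  · intro A hA B hB
    obtain ⟨k, -, hk⟩ := exists_low_of_mid hA
    exact wB_comp hk hB.1
  · intro A hA B hB
    obtain ⟨k, -, hk⟩ := exists_low_of_mid hA
    exact comp_mem_KS hT1 hK hk hB.1

/-- The renewal series. -/
noncomputable def uS (L M : ℕ) (Y : ℝ≥0∞) : PowerSeries ℝ≥0∞ :=
  geo (sset (MidSet L M ∩ US) lB (wB Y))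

theorem uS_eq (L M : ℕ) (Y : ℝ≥0∞) :
    uS L M Y = 1 + sset (MidSet L M ∩ US) lB (wB Y) * uS L M Y :=
  geo_eq (coeff_zero_mid _ _)

theorem upp_US (hT1 : StretchStatement) (hT2 : CutStatement) :
    sset (UppSet L M ∩ US) lB (wB Y) = uS L M Y * sset (TopSet L M ∩ US) lB (wB Y) := by
  refine solve (coeff_zero_mid _ _) ?_ (uS_eq L M Y)
  rw [← cut_mid_US hT1 hT2]
  exact sset_uppSet _ _ _

theorem upp_KS (hT1 : StretchStatement) (hT2 : CutStatement) {K : Finset (Sym2 P3)}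
    (hK : PrimeKnot K) :
    sset (UppSet L M ∩ KS K) lB (wB Y) = uS L M Y * (sset (TopSet L M ∩ KS K) lB (wB Y) +
      sset (MidSet L M ∩ KS K) lB (wB Y) *
        (uS L M Y * sset (TopSet L M ∩ US) lB (wB Y))) := by
  refine solve (coeff_zero_mid _ _) ?_ (uS_eq L M Y)
  rw [← upp_US hT1 hT2]
  conv_lhs => rw [sset_uppSet, cut_mid_KS hT1 hT2 hK]
  ring

/-- **The decomposition of the unknotted polygons.** -/
theorem decomp_US (hT1 : StretchStatement) (hT2 : CutStatement) :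
    sset (PSet L M ∩ US) lE (wE Y) = sset (FreeSet L M ∩ US) lE (wE Y) +
      sset (BotSet L M ∩ US) lE (wE Y) * uS L M Y * sset (TopSet L M ∩ US) lB (wB Y) := by
  rw [sset_pSet, cut_bot_US hT1 hT2, upp_US hT1 hT2]
  ring

/-- **The decomposition of the polygons of a prime type.** -/
theorem decomp_KS (hT1 : StretchStatement) (hT2 : CutStatement) {K : Finset (Sym2 P3)}
    (hK : PrimeKnot K) :
    sset (PSet L M ∩ KS K) lE (wE Y) = sset (FreeSet L M ∩ KS K) lE (wE Y) +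
      sset (BotSet L M ∩ KS K) lE (wE Y) * uS L M Y * sset (TopSet L M ∩ US) lB (wB Y) +
      sset (BotSet L M ∩ US) lE (wE Y) * uS L M Y * sset (TopSet L M ∩ KS K) lB (wB Y) +
      sset (BotSet L M ∩ US) lE (wE Y) * uS L M Y * sset (MidSet L M ∩ KS K) lB (wB Y) *
        uS L M Y * sset (TopSet L M ∩ US) lB (wB Y) := by
  rw [sset_pSet, cut_bot_KS hT1 hT2 hK, upp_US hT1 hT2, upp_KS hT1 hT2 hK]
  ring

end Pool.Agent.KTube
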