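import Pool.Agent.MP_aea6d5_co.KDefs

/-! Lattice polygons in tubes: partition function, sections, cutting at a section, prime knots. -/

set_option autoImplicit false

open Filter Topology

namespace Pool.Agent.KTube

open Pool.Agent.LK

/-- `E` lies in the tube `[0, L] × [0, M] × ℤ`. -/
def InTube (L M : ℕ) (E : Finset (Sym2 P3)) : Prop :=
  ∀ u ∈ verts E, 0 ≤ u.1 ∧ u.1 ≤ L ∧ 0 ≤ u.2.1 ∧ u.2.1 ≤ M

/-- The lowest level of `E` is the level `0`. -/
def Grounded (E : Finset (Sym2 P3)) : Prop :=
  (∀ u ∈ verts E, 0 ≤ u.2.2) ∧ ∃ u ∈ verts E, u.2.2 = 0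

/-- The columns over which `E` crosses the plane `z = k + 1/2`. -/
def cross (E : Finset (Sym2 P3)) (k : ℤ) : Set (ℤ × ℤ) :=
  {c | s((c.1, c.2, k), (c.1, c.2, k + 1)) ∈ E}

/-- The span of `E` in the direction of the tube: the number of the planes `z = k + 1/2` that
meet `E`. -/
noncomputable def span (E : Finset (Sym2 P3)) : ℕ := {k : ℤ | (cross E k).Nonempty}.ncard

/-- The polygons of the class `C` in the tube that have `n` edges and lowest level `0`: one
representative for each class of polygons modulo vertical translations. -/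
def TubeSet (L M : ℕ) (C : Finset (Sym2 P3) → Prop) (n : ℕ) : Set (Finset (Sym2 P3)) :=
  {E | IsPolygon E ∧ C E ∧ InTube L M E ∧ Grounded E ∧ E.card = n}

/-- The partition function of the polygons of the class `C` with `n` edges in the tube: each
polygon has the weight `y ^ span`. For `y = 1` this is their number. -/
noncomputable def Z (L M : ℕ) (y : ℝ) (C : Finset (Sym2 P3) → Prop) (n : ℕ) : ℝ :=
  ∑ᶠ E ∈ TubeSet L M C n, y ^ span E

/-- `K` is a prime knot: it is not unknotted, and whenever a stacked join of two lattice polygons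
has the type of `K`, one of the two is unknotted. -/
def PrimeKnot (K : Finset (Sym2 P3)) : Prop :=
  IsPolygon K ∧ ¬ Unknotted K ∧ ∀ E F x y h, IsPolygon E → IsPolygon F → Below E F →
    s((x, y, h), (x + 1, y, h)) ∈ E → s((x, y, h + 1), (x + 1, y, h + 1)) ∈ F →
    SameType K (joinZ E F x y h) → Unknotted E ∨ Unknotted F

/-! ### Sections, lower and upper parts -/

/-- The two columns of the reference section. -/
def V0 : Set (ℤ × ℤ) := {(0, 0), (1, 0)}

/-- The plane `z = k + 1/2` meets `E` exactly over the two reference columns. -/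
def IsV0 (E : Finset (Sym2 P3)) (k : ℤ) : Prop := cross E k = V0

/-- The plane `z = k + 1/2` meets `E` in exactly two points. -/
def IsTwo (E : Finset (Sym2 P3)) (k : ℤ) : Prop := (cross E k).ncard = 2

/-- The horizontal edge between the reference columns at level `k`. -/
def cap (k : ℤ) : Sym2 P3 := s((0, 0, k), (1, 0, k))

open Classical in
/-- The part of `E` below the plane `z = k + 1/2` with the two crossing edges, closed by the
horizontal edge at level `k + 1`. -/
noncomputable def low (E : Finset (Sym2 P3)) (k : ℤ) : Finset (Sym2 P3) :=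
  insert (cap (k + 1)) (E.filter fun e => ∃ u ∈ e, u.2.2 ≤ k)

open Classical in
/-- The part of `E` above the plane `z = k + 1/2` with the two crossing edges, closed by the
horizontal edge at level `k`. -/
noncomputable def upp (E : Finset (Sym2 P3)) (k : ℤ) : Finset (Sym2 P3) :=
  insert (cap k) (E.filter fun e => ∃ u ∈ e, k + 1 ≤ u.2.2)

/-- The composition of a lower part and an upper part at the plane `z = k + 1/2`. -/
def glue (A B : Finset (Sym2 P3)) (k : ℤ) : Finset (Sym2 P3) := (A \ {cap (k + 1)}) ∪ (B \ {cap k})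

/-- `A` is a closed lower part for the plane `z = k + 1/2`. -/
def IsLow (A : Finset (Sym2 P3)) (k : ℤ) : Prop :=
  IsPolygon A ∧ IsV0 A k ∧ cap (k + 1) ∈ A ∧ ∀ u ∈ verts A, u.2.2 ≤ k + 1

/-- `B` is a closed upper part for the plane `z = k + 1/2`. -/
def IsUpp (B : Finset (Sym2 P3)) (k : ℤ) : Prop :=
  IsPolygon B ∧ IsV0 B k ∧ cap k ∈ B ∧ ∀ u ∈ verts B, k ≤ u.2.2

open Classical in
/-- `E` with `h` straight levels inserted at the plane `z = k + 1/2`: the edges above the plane move
up by `h`, each edge that crosses the plane is replaced by a column of `h + 1` edges. -/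
noncomputable def stretch (E : Finset (Sym2 P3)) (k : ℤ) (h : ℕ) : Finset (Sym2 P3) :=
  (E.filter fun e => ∀ u ∈ e, u.2.2 ≤ k) ∪
    ((E.filter fun e => ∀ u ∈ e, k + 1 ≤ u.2.2).image (Sym2.map fun u => u + (0, 0, (h : ℤ)))) ∪
    (E.filter fun e => ∃ a b : ℤ, e = s((a, b, k), (a, b, k + 1))).biUnion fun e =>
      (Finset.range (h + 1)).image fun i : ℕ =>
        Sym2.map (fun u => (u.1, u.2.1, u.2.2 + (i : ℤ))) e

/-! ### The statements to be proved -/

/-- (T1) Stretching does not change the type. -/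
def StretchStatement : Prop := ∀ (E : Finset (Sym2 P3)) (k : ℤ) (h : ℕ), IsPolygon E →
  IsPolygon (stretch E k h) ∧ SameType E (stretch E k h)

/-- (T2) Cutting at a `V0` section. -/
def CutStatement : Prop := ∀ (E : Finset (Sym2 P3)) (k : ℤ), IsPolygon E → IsV0 E k →
  IsLow (low E k) k ∧ IsUpp (upp E k) k ∧ glue (low E k) (upp E k) k = E

/-- (T3) Gluing at a `V0` section. -/
def GlueStatement : Prop := ∀ (A B : Finset (Sym2 P3)) (k : ℤ), IsLow A k → IsUpp B k →
  IsPolygon (glue A B k) ∧ IsV0 (glue A B k) k ∧ low (glue A B k) k = A ∧ upp (glue A B k) k = B ∧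
    (glue A B k).card + 4 = A.card + B.card

/-- (T4) Types and gluing. -/
def TypeStatement : Prop := ∀ (A B : Finset (Sym2 P3)) (k : ℤ), IsLow A k → IsUpp B k →
  (Unknotted (glue A B k) ↔ Unknotted A ∧ Unknotted B) ∧
  (Unknotted A → SameType B (glue A B k)) ∧ (Unknotted B → SameType A (glue A B k)) ∧
  ∀ K, PrimeKnot K → SameType K (glue A B k) → (Unknotted A ∧ SameType K B) ∨
    (Unknotted B ∧ SameType K A)

/-- The main theorem for a tube and a force. -/
def TubeStatement (L M : ℕ) (y : ℝ) : Prop :=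
  ∃ μ : ℝ, 0 < μ ∧
    (∃ A : ℝ, 0 < A ∧ Tendsto (fun k : ℕ => Z L M y UClass (2 * k) / μ ^ (2 * k)) atTop (𝓝 A)) ∧
    ∀ K : Finset (Sym2 P3), PrimeKnot K → (∃ E, KClass K E ∧ InTube L M E) →
      ∃ A : ℝ, 0 < A ∧ Tendsto (fun k : ℕ => Z L M y (KClass K) (2 * k) /
        ((2 * k : ℕ) * μ ^ (2 * k))) atTop (𝓝 A)

end Pool.Agent.KTube
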