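import Pool.Agent.KTube.Ctx
import Pool.Agent.KTube.Caps

/-! Capping the ends of a composition: a polygon with `N` knotted parts has the type of a polygon
with `N` knotted middle pieces. -/

set_option autoImplicit false

namespace Pool.Agent.KTube

open Pool.Agent.LK

variable {A B E : Finset (Sym2 P3)} {k i j : ℤ} {L M : ℕ}

/-! ### Capping the top of an upper part -/

theorem isUpp_of_bump {B' : Finset (Sym2 P3)} {x y d : P3} (hB : IsUpp B k) (hP : IsPolygon B')
    (hm : ∀ f : Sym2 P3, f ∈ B' ↔ (f ∈ B ∧ f ≠ s(x, y)) ∨ f = s(x, x + d) ∨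
      f = s(x + d, y + d) ∨ f = s(y + d, y)) (hx : k + 1 ≤ x.2.2) (hy : k + 1 ≤ y.2.2)
    (hxd : k + 1 ≤ (x + d).2.2) (hyd : k + 1 ≤ (y + d).2.2) : IsUpp B' k := by
  have key : ∀ u v : P3, u.2.2 ≤ k → (s(u, v) ∈ B' ↔ s(u, v) ∈ B) := by
    intro u v hu
    rw [hm]
    constructor
    · rintro (⟨h, -⟩ | h | h | h)
      · exact h
      all_goals
        rw [Sym2.eq_iff] at h
        rcases h with ⟨rfl, -⟩ | ⟨rfl, -⟩ <;> omega
    · intro h
      refine Or.inl ⟨h, fun h2 => ?_⟩
      rw [Sym2.eq_iff] at h2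
      rcases h2 with ⟨rfl, -⟩ | ⟨rfl, -⟩ <;> omega
  refine ⟨hP, ?_, ?_, ?_⟩
  · have h1 := hB.2.1
    unfold IsV0 at h1 ⊢
    rw [← h1]
    ext ⟨a, b⟩
    rw [mem_cross, mem_cross]
    exact key _ _ le_rfl
  · exact (key _ _ le_rfl).2 hB.2.2.1
  · rintro u ⟨v, hv⟩
    by_contra hlt
    rw [not_le] at hlt
    have := hB.2.2.2 u ⟨v, (key u v hlt.le).1 hv⟩
    omega

/-- Capping the top of an upper part does not change the type of any composition. -/
theorem exists_topCap_glue (hS : StretchStatement) (hC : CutStatement) (hL : 1 ≤ L)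
    (hB : IsUpp B k) (hT : InTube L M B) :
    ∃ (B' : Finset (Sym2 P3)) (m : ℤ), k < m ∧ IsUpp B' k ∧ IsLow B' m ∧ InTube L M B' ∧
      SameType B B' ∧ ∀ A, IsLow A k → InTube L M A → SameType (glue A B k) (glue A B' k) := by
  have hTy : TypeStatement := typeStatement hS
  have hE : IsPolygon B := hB.1
  obtain ⟨p, q, t, hpq, he, hmax⟩ := exists_top hE
  have hp : InBox L M p := hT (p.1, p.2, t) (left_mem_verts he)
  have hq : InBox L M q := hT (q.1, q.2, t) (right_mem_verts he)
  have hkt : k + 1 ≤ t := by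
    have := hmax _ (mem_verts_right hB.2.1.leg0_mem)
    simpa using this
  have hne : p ≠ q := by
    rintro rfl
    simp [Adj2] at hpq
  have hu : IsUnit3 ((0, 0, 1) : P3) := by simp [IsUnit3, Adj]
  have e1 : ∀ c : ℤ × ℤ, ((c.1, c.2, t) : P3) + (0, 0, 1) = (c.1, c.2, t + 1) := by
    intro c
    refine Prod.ext ?_ (Prod.ext ?_ ?_) <;> simp
  have hf : ∀ c : ℤ × ℤ, ((c.1, c.2, t) : P3) + (0, 0, 1) ∉ verts B := by
    intro c hc
    have := hmax _ hc
    rw [e1] at this
    simp only at this
    omega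
  set E1 := bump B (p.1, p.2, t) (q.1, q.2, t) (0, 0, 1) with hE1
  have hP1 : IsPolygon E1 := isPolygon_bump hE he hu (hf p) (hf q)
  have hT1 : SameType B E1 := moveFacts.bump _ _ _ _ hE he hu (hf p) (hf q)
  have hm1' : ∀ f : Sym2 P3, f ∈ E1 ↔ (f ∈ B ∧ f ≠ s((p.1, p.2, t), (q.1, q.2, t))) ∨
      f = s((p.1, p.2, t), (p.1, p.2, t) + (0, 0, 1)) ∨
      f = s((p.1, p.2, t) + (0, 0, 1), (q.1, q.2, t) + (0, 0, 1)) ∨
      f = s((q.1, q.2, t) + (0, 0, 1), (q.1, q.2, t)) := by
    intro f
    rw [hE1, mem_bump]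
  have hm1 : ∀ f : Sym2 P3, f ∈ E1 ↔ (f ∈ B ∧ f ≠ s((p.1, p.2, t), (q.1, q.2, t))) ∨
      f = s((p.1, p.2, t), (p.1, p.2, t + 1)) ∨ f = s((p.1, p.2, t + 1), (q.1, q.2, t + 1)) ∨
      f = s((q.1, q.2, t + 1), (q.1, q.2, t)) := by
    intro f
    rw [hm1', e1, e1]
  have hU1 : IsUpp E1 k := by
    refine isUpp_of_bump hB hP1 hm1' hkt hkt ?_ ?_
    · rw [e1]
      simp only
      omega
    · rw [e1]
      simp only
      omega
  have hv1 : ∀ u ∈ verts E1, u ∈ verts B ∨ u = (p.1, p.2, t + 1) ∨ u = (q.1, q.2, t + 1) := by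
    intro u hu
    have := verts_bump he hu
    rwa [e1, e1] at this
  have hTube1 : InTube L M E1 := by
    intro u hu
    rcases hv1 u hu with h | rfl | rfl
    · exact hT u h
    · exact hp
    · exact hq
  have hcross : cross E1 t = {p, q} := by
    ext ⟨c1, c2⟩
    rw [mem_cross, hm1]
    simp only [Set.mem_insert_iff, Set.mem_singleton_iff]
    constructor
    · rintro (⟨h, -⟩ | h | h | h)
      · have := hmax _ (right_mem_verts h)
        simp only at this
        omega
      all_goals rw [Sym2.eq_iff] at h; simp only [Prod.mk.injEq] at h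
      · rcases h with ⟨⟨rfl, rfl, -⟩, -⟩ | ⟨⟨-, -, h⟩, -⟩
        · exact Or.inl rfl
        · omega
      · omega
      · rcases h with ⟨⟨-, -, h⟩, -⟩ | ⟨⟨rfl, rfl, -⟩, -⟩
        · omega
        · exact Or.inr rfl
    · rintro (h | h)
      · refine Or.inr (Or.inl ?_)
        rw [← h]
      · refine Or.inr (Or.inr (Or.inr ?_))
        rw [← h, Sym2.eq_swap]
  have htop1 : ∀ u ∈ verts E1, u.2.2 ≤ t + 1 := by
    intro u hu
    rcases hv1 u hu with h | rfl | rfl
    · have := hmax u h; omega
    · exact le_rfl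
    · exact le_rfl
  have h2 : IsTwo E1 t := by
    unfold IsTwo
    rw [hcross]
    exact Set.ncard_pair hne
  -- the bump in a composition
  have hgl1 : ∀ A, IsLow A k → SameType (glue A B k) (glue A E1 k) := by
    intro A hA
    have he' : s(((p.1, p.2, t) : P3), ((q.1, q.2, t) : P3)) ∈ glue A B k :=
      (mem_glue_upp hA hB (by simpa using hkt)).2 he
    have hf' : ∀ c : ℤ × ℤ, ((c.1, c.2, t) : P3) + (0, 0, 1) ∉ verts (glue A B k) := by
      intro c hc
      rw [e1, mem_verts_glue_upp hA hB (by simp only; omega), ← e1] at hc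
      exact hf c hc
    have h3 : bump (glue A B k) (p.1, p.2, t) (q.1, q.2, t) (0, 0, 1) = glue A E1 k := by
      ext f
      rw [mem_bump, mem_glue', mem_glue', hm1']
      have hcap : ∀ u v : P3, u.2.2 = t + 1 → s(u, v) ≠ cap k := fun u v h =>
        ne_cap_of_level (by omega)
      constructor
      · rintro (⟨h | ⟨h, h'⟩, h4⟩ | h | h | h)
        · exact Or.inl h
        · exact Or.inr ⟨Or.inl ⟨h, h4⟩, h'⟩
        · refine Or.inr ⟨Or.inr (Or.inl h), ?_⟩
          rw [h, Sym2.eq_swap]
          exact hcap _ _ (by rw [e1])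
        · refine Or.inr ⟨Or.inr (Or.inr (Or.inl h)), ?_⟩
          rw [h]
          exact hcap _ _ (by rw [e1])
        · refine Or.inr ⟨Or.inr (Or.inr (Or.inr h)), ?_⟩
          rw [h]
          exact hcap _ _ (by rw [e1])
      · rintro (⟨h, h'⟩ | ⟨⟨h, h4⟩ | h, h'⟩)
        · refine Or.inl ⟨Or.inl ⟨h, h'⟩, ?_⟩
          rintro rfl
          have h5 := hA.2.2.2 _ (left_mem_verts h)
          simp only at h5
          have h6 : t = k + 1 := by omega
          subst h6
          -- an edge of `A` at the level `k + 1` is the cap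
          have h7 := hA.top (left_mem_verts h) (by simp only; omega)
          have h8 := hA.top (right_mem_verts h) (by simp only; omega)
          apply h'
          unfold cap
          rcases h7 with h7 | h7 <;> rcases h8 with h8 | h8
          · rw [Prod.mk.injEq, Prod.mk.injEq] at h7 h8
            exact absurd (Prod.ext (h7.1.trans h8.1.symm) (h7.2.1.trans h8.2.1.symm)) hne
          · rw [h7, h8]
          · rw [h7, h8, Sym2.eq_swap]
          · rw [Prod.mk.injEq, Prod.mk.injEq] at h7 h8
            exact absurd (Prod.ext (h7.1.trans h8.1.symm) (h7.2.1.trans h8.2.1.symm)) hne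
        · exact Or.inl ⟨Or.inr ⟨h, h'⟩, h4⟩
        · exact Or.inr h
    rw [← h3]
    exact moveFacts.bump _ _ _ _ (isPolygon_glue hA hB) he' hu (hf' p) (hf' q)
  by_cases hV : IsV0 E1 t
  · refine ⟨E1, t, by omega, hU1, ⟨hP1, hV, ?_, htop1⟩, hTube1, hT1, fun A hA _ => hgl1 A hA⟩
    have hV' : ({p, q} : Set (ℤ × ℤ)) = V0 := hcross.symm.trans hV
    rw [hm1]
    refine Or.inr (Or.inr (Or.inl ?_))
    have hp' : p ∈ V0 := by rw [← hV']; simp
    have hq' : q ∈ V0 := by rw [← hV']; simp
    unfold cap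
    rcases hp' with rfl | hp'
    · rcases hq' with rfl | hq'
      · exact absurd rfl hne
      · rw [Set.mem_singleton_iff] at hq'
        subst hq'
        rfl
    · rw [Set.mem_singleton_iff] at hp'
      subst hp'
      rcases hq' with rfl | hq'
      · rw [Sym2.eq_swap]
      · rw [Set.mem_singleton_iff] at hq'
        subst hq'
        exact absurd rfl hne
  · -- insert a detour and cut
    have hI := ins_facts hS hL hP1 hTube1 h2 hV
    have hH := hgt_pos L M
    set F := ins L M E1 t with hF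
    set m : ℤ := t + hgt L M with hm
    have hkm : k < m := by omega
    have hVF : IsV0 F m := (hI.mid m (by omega) (by omega)).2 rfl
    obtain ⟨hlow, hupp, hgl⟩ := hC F m hI.poly hVF
    -- the unit square
    obtain ⟨S, hSP, hSU, hSv, hSc, hSa⟩ := isPolygon_unit hpq t
    have hST : InTube L M S := by
      intro u hu
      rcases hSv u hu with h | h
      · have h' := hp
        rw [← h] at h'
        exact h'
      · have h' := hq
        rw [← h] at h'
        exact h'
    have h2S : IsTwo S t := by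
      unfold IsTwo
      rw [hSc]
      exact Set.ncard_pair hne
    have hVS : ¬ IsV0 S t := by
      intro h
      exact hV (hcross.trans (hSc.symm.trans h))
    have hIS := ins_facts hS hL hSP hST h2S hVS
    have hVFS : IsV0 (ins L M S t) m := (hIS.mid m (by omega) (by omega)).2 rfl
    have hab : AboveEq E1 S t := by
      intro u v hu hv
      rw [hSa u v hu hv, hm1]
      constructor
      · rintro (⟨h, -⟩ | h | h | h)
        · have := hmax _ (left_mem_verts h)
          omega
        · rw [Sym2.eq_iff] at h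
          rcases h with ⟨rfl, rfl⟩ | ⟨rfl, rfl⟩ <;> simp only at hu hv <;> omega
        · exact h
        · rw [Sym2.eq_iff] at h
          rcases h with ⟨rfl, rfl⟩ | ⟨rfl, rfl⟩ <;> simp only at hu hv <;> omega
      · intro h
        exact Or.inr (Or.inr (Or.inl h))
    have hab' := ins_above hS hL hP1 hTube1 h2 hSP hST hab (hcross.trans hSc.symm)
    have hup : upp F m = upp (ins L M S t) m :=
      upp_eq hI.poly.adj hIS.poly.adj hab' (hVF.trans hVFS.symm)
    obtain ⟨hlow', hupp', hgl'⟩ := hC (ins L M S t) m hIS.poly hVFS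
    have hUS : Unknotted (ins L M S t) := hIS.type.symm.unknotted hSU
    have hUu : Unknotted (upp F m) := by
      rw [hup]
      rw [← hgl'] at hUS
      exact ((hTy _ _ m hlow' hupp').1.1 hUS).2
    have hty : SameType (low F m) F := by
      have := (hTy _ _ m hlow hupp).2.2.1 hUu
      rwa [hgl] at this
    -- any lower part will do for `IsUpp F k`
    have hFk : IsUpp F k := (ins_glue_upp hS hL (A := shift (0, 0, k) sq)
      (by have := isLow_shift_add (t := k) isLow_sq; rwa [zero_add] at this) hU1 (by omega)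
      hTube1 h2).2
    have hlk : IsUpp (low F m) k := by
      rw [← hgl] at hFk
      exact (isUpp_glue hlow hupp hkm).1 hFk
    refine ⟨low F m, m, hkm, hlk, hlow, inTube_low hL hI.tube, (hT1.trans hI.type).trans hty.symm,
      fun A hA hTA => ?_⟩
    have h4 : ins L M (glue A E1 k) t = glue A F k := (ins_glue_upp hS hL hA hU1 (by omega)
      hTube1 h2).1
    have hG1 : IsPolygon (glue A E1 k) := isPolygon_glue hA hU1
    have hGT : InTube L M (glue A E1 k) := (inTube_glue hA hU1).2 ⟨hTA, hTube1⟩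
    have hc1 : cross (glue A E1 k) t = cross E1 t := cross_glue_upp hA hU1 (by omega)
    have h5 := ins_facts hS hL hG1 hGT (k := t) (by unfold IsTwo; rw [hc1]; exact h2)
      (by unfold IsV0; rw [hc1]; exact hV)
    have h6 : SameType (glue A E1 k) (glue A F k) := by
      rw [← h4]
      exact h5.type
    have hGl : IsLow (glue A (low F m) k) m := (isLow_glue hA hlk hkm).2 hlow
    have h7 : glue A F k = glue (glue A (low F m) k) (upp F m) m := by
      rw [← glue_assoc hA hlk hlow hupp hkm.le, hgl]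
    have h8 := (hTy _ _ m hGl hupp).2.2.1 hUu
    rw [← h7] at h8
    exact ((hgl1 A hA).trans h6).trans h8.symm

/-! ### Reflection at the plane of a composition -/

/-- Reflection at the plane `z = k + 1/2`. -/
noncomputable def fl (k : ℤ) (E : Finset (Sym2 P3)) : Finset (Sym2 P3) :=
  mapE (flipZ (2 * k + 1)) E

theorem mem_fl {u v : P3} : s(u, v) ∈ fl k E ↔ s(flipZ (2 * k + 1) u, flipZ (2 * k + 1) v) ∈ E :=
  mem_flipZ

theorem fl_fl (k : ℤ) (E : Finset (Sym2 P3)) : fl k (fl k E) = E := by
  refine edge_ext fun u v => ?_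
  rw [mem_fl, mem_fl, flipZ_flipZ, flipZ_flipZ]

theorem isPolygon_fl (h : IsPolygon E) : IsPolygon (fl k E) := isPolygon_flipZ _ h

theorem sameType_fl (k : ℤ) (E : Finset (Sym2 P3)) : SameType E (fl k E) := sameType_flipZ _ _

theorem mem_verts_fl {u : P3} : u ∈ verts (fl k E) ↔ flipZ (2 * k + 1) u ∈ verts E := by
  constructor
  · rintro ⟨v, hv⟩
    exact ⟨_, mem_fl.1 hv⟩
  · rintro ⟨v, hv⟩
    refine ⟨flipZ (2 * k + 1) v, mem_fl.2 ?_⟩
    rw [flipZ_flipZ]
    exact hv

theorem inTube_fl (h : InTube L M E) : InTube L M (fl k E) := fun u hu =>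
  h (flipZ (2 * k + 1) u) (mem_verts_fl.1 hu)

theorem cross_fl (i : ℤ) : cross (fl k E) i = cross E (2 * k - i) := by
  ext ⟨a, b⟩
  rw [mem_cross, mem_cross, mem_fl, Sym2.eq_swap]
  unfold flipZ
  simp only
  rw [show 2 * k + 1 - (i + 1) = 2 * k - i by ring, show 2 * k + 1 - i = 2 * k - i + 1 by ring]

theorem cap_mem_fl (i : ℤ) : cap i ∈ fl k E ↔ cap (2 * k + 1 - i) ∈ E := by
  unfold cap
  rw [mem_fl]
  rfl

theorem isLow_fl (h : IsUpp E i) : IsLow (fl k E) (2 * k - i) := by
  refine ⟨isPolygon_fl h.1, ?_, ?_, fun u hu => ?_⟩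
  · unfold IsV0
    rw [cross_fl, show 2 * k - (2 * k - i) = i by ring]
    exact h.2.1
  · rw [cap_mem_fl, show 2 * k + 1 - (2 * k - i + 1) = i by ring]
    exact h.2.2.1
  · have := h.2.2.2 _ (mem_verts_fl.1 hu)
    unfold flipZ at this
    simp only at this
    omega

theorem isUpp_fl (h : IsLow E i) : IsUpp (fl k E) (2 * k - i) := by
  refine ⟨isPolygon_fl h.1, ?_, ?_, fun u hu => ?_⟩
  · unfold IsV0
    rw [cross_fl, show 2 * k - (2 * k - i) = i by ring]
    exact h.2.1
  · rw [cap_mem_fl, show 2 * k + 1 - (2 * k - i) = i + 1 by ring]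
    exact h.2.2.1
  · have := h.2.2.2 _ (mem_verts_fl.1 hu)
    unfold flipZ at this
    simp only at this
    omega

theorem isLow_fl_self (h : IsUpp E k) : IsLow (fl k E) k := by
  have := isLow_fl (k := k) h
  rwa [show 2 * k - k = k by ring] at this

theorem isUpp_fl_self (h : IsLow E k) : IsUpp (fl k E) k := by
  have := isUpp_fl (k := k) h
  rwa [show 2 * k - k = k by ring] at this

theorem fl_glue (k : ℤ) (A B : Finset (Sym2 P3)) :
    fl k (glue A B k) = glue (fl k B) (fl k A) k := by
  have hcap : ∀ (i : ℤ) (u v : P3), s(flipZ (2 * k + 1) u, flipZ (2 * k + 1) v) = cap i ↔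
      s(u, v) = cap (2 * k + 1 - i) := by
    intro i u v
    unfold cap
    constructor
    · intro h
      have h1 := congrArg (Sym2.map (flipZ (2 * k + 1))) h
      rw [Sym2.map_mk, Sym2.map_mk, flipZ_flipZ, flipZ_flipZ] at h1
      exact h1
    · intro h
      have h1 := congrArg (Sym2.map (flipZ (2 * k + 1))) h
      rw [Sym2.map_mk, Sym2.map_mk] at h1
      rw [h1]
      unfold flipZ
      simp only
      rw [show 2 * k + 1 - (2 * k + 1 - i) = i by ring]
  refine edge_ext fun u v => ?_
  rw [mem_fl, mem_glue', mem_glue', mem_fl, mem_fl]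
  simp only [ne_eq, hcap]
  rw [show 2 * k + 1 - (k + 1) = k by ring, show 2 * k + 1 - k = k + 1 by ring]
  exact or_comm

/-- Capping the bottom of a lower part does not change the type of any composition. -/
theorem exists_botCap_glue (hS : StretchStatement) (hC : CutStatement) (hL : 1 ≤ L)
    (hA : IsLow A k) (hT : InTube L M A) :
    ∃ (A' : Finset (Sym2 P3)) (i : ℤ), i < k ∧ IsLow A' k ∧ IsUpp A' i ∧ InTube L M A' ∧
      SameType A A' ∧ ∀ B, IsUpp B k → InTube L M B → SameType (glue A B k) (glue A' B k) := by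
  obtain ⟨B', m, hkm, h1, h2, h3, h4, h5⟩ := exists_topCap_glue hS hC hL
    (isUpp_fl_self hA) (inTube_fl (k := k) hT)
  refine ⟨fl k B', 2 * k - m, by omega, isLow_fl_self h1, isUpp_fl h2, inTube_fl h3,
    ((sameType_fl k A).trans h4).trans (sameType_fl k B'), fun B hB hTB => ?_⟩
  have h6 := h5 (fl k B) (isLow_fl_self hB) (inTube_fl hTB)
  have h7 : glue (fl k B) (fl k A) k = fl k (glue A B k) := (fl_glue k A B).symm
  have h8 : fl k (glue (fl k B) B' k) = glue (fl k B') B k := by
    rw [fl_glue, fl_fl]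
  rw [h7] at h6
  have h9 := (sameType_fl k (glue A B k)).trans h6
  have h10 := h9.trans (sameType_fl k _)
  rwa [h8] at h10

/-! ### Both ends -/

theorem unknotted_of_low_glue (hA : IsLow A j) (hB : IsUpp B j) (h : IsUpp (glue A B j) j) :
    Unknotted A := by
  refine unknotted_of_low_upp hA ⟨hA.1, hA.2.1, ?_, fun u hu => ?_⟩
  · have h1 := h.2.2.1
    unfold cap at h1 ⊢
    exact (mem_glue_low hA hB le_rfl).1 h1
  · exact h.2.2.2 u (verts_glue_of_low hA hB hu)

/-- Planes of reference of a composition lie above a cap. -/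
theorem plane_ge (hA : IsLow A j) (hB : IsUpp B j) (h : IsUpp (glue A B j) k) : k ≤ j := by
  by_contra hlt
  rw [not_le] at hlt
  have h1 := (isV0_glue hA hB).nonempty
  rw [h.cross_empty hlt] at h1
  exact Set.not_nonempty_empty h1

theorem exists_capped_upper (hS : StretchStatement) (hC : CutStatement) (hL : 1 ≤ L) :
    ∀ (n : ℕ) (B : Finset (Sym2 P3)) (k : ℤ), IsUpp B k → InTube L M B → KLen (n + 1) B →
    ∃ (B' : Finset (Sym2 P3)) (m : ℤ), k < m ∧ IsUpp B' k ∧ IsLow B' m ∧ InTube L M B' ∧
      SameType B B' ∧ KLen (n + 1) B' ∧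
      ∀ A, IsLow A k → InTube L M A → SameType (glue A B k) (glue A B' k) := by
  intro n
  induction n with
  | zero =>
    intro B k hB hT h
    obtain ⟨B', m, h1, h2, h3, h4, h5, h6⟩ := exists_topCap_glue hS hC hL hB hT
    refine ⟨B', m, h1, h2, h3, h4, h5, KLen.one _ fun h7 => ?_, h6⟩
    exact h.knotted hS (h5.unknotted h7)
  | succ n ih =>
    intro B k hB hT h
    generalize hn : n + 1 + 1 = N at h
    cases h with
    | zero => omega
    | one _ _ => omega
    | succ n' A2 B2 j hA2 hB2 hkn h =>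
      obtain rfl : n' = n := by omega
      obtain ⟨hT1, hT2⟩ := (inTube_glue hA2 hB2).1 hT
      have hkj : k < j := by
        rcases (plane_ge hA2 hB2 hB).lt_or_eq with h1 | h1
        · exact h1
        · subst h1
          exact absurd (unknotted_of_low_glue hA2 hB2 hB) hkn
      have hA2k : IsUpp A2 k := (isUpp_glue hA2 hB2 hkj).1 hB
      obtain ⟨B2', m, h1, h2, h3, h4, h5, h6, h7⟩ := ih B2 j hB2 hT2 h
      refine ⟨glue A2 B2' j, m, by omega, (isUpp_glue hA2 h2 hkj).2 hA2k,
        (isLow_glue hA2 h2 h1).2 h3, (inTube_glue hA2 h2).2 ⟨hT1, h4⟩, h7 A2 hA2 hT1,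
        KLen.succ n' A2 B2' j hA2 h2 hkn h6, fun A hA hTA => ?_⟩
      rw [glue_assoc hA hA2k hA2 hB2 hkj.le, glue_assoc hA hA2k hA2 h2 hkj.le]
      exact h7 _ ((isLow_glue hA hA2k hkj).2 hA2) ((inTube_glue hA hA2k).2 ⟨hTA, hT1⟩)

/-- Both ends capped. -/
theorem exists_capped (hS : StretchStatement) (hC : CutStatement) (hL : 1 ≤ L) {n : ℕ}
    (hE : IsPolygon E) (hT : InTube L M E) (h : KLen (n + 1) E) :
    ∃ (E' : Finset (Sym2 P3)) (m : ℤ), 0 < m ∧ IsUpp E' 0 ∧ IsLow E' m ∧ InTube L M E' ∧
      SameType E E' ∧ KLen (n + 1) E' := by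
  generalize hn : n + 1 = N at h
  cases h with
  | zero => omega
  | one _ h =>
    obtain ⟨A, m, h1, h2, h3, h4, h5⟩ := capStatement hS hC (typeStatement hS) L M E hL hE hT
    exact ⟨A, m, h1, h2, h3, h4, h5, KLen.one _ fun h6 => h (h5.unknotted h6)⟩
  | succ n' A B k hA hB hkn h =>
    obtain ⟨hT1, hT2⟩ := (inTube_glue hA hB).1 hT
    obtain ⟨B', m, h1, h2, h3, h4, h5, h6, h7⟩ := exists_capped_upper hS hC hL n' B k hB hT2 h
    obtain ⟨A', i, a1, a2, a3, a4, a5, a6⟩ := exists_botCap_glue hS hC hL hA hT1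
    have hkn' : ¬ Unknotted A' := fun h8 => hkn (a5.unknotted h8)
    have hU : IsUpp (glue A' B' k) i := (isUpp_glue a2 h2 a1).2 a3
    have hLw : IsLow (glue A' B' k) m := (isLow_glue a2 h2 h1).2 h3
    refine ⟨shift (0, 0, -i) (glue A' B' k), m - i, by omega, ?_, ?_, ?_, ?_, ?_⟩
    · have := isUpp_shift_add (t := -i) hU
      rwa [add_neg_cancel] at this
    · exact isLow_shift_add (t := -i) hLw
    · exact (inTube_shift _).2 ((inTube_glue a2 h2).2 ⟨a4, h4⟩)
    · exact ((h7 A hA hT1).trans (a6 B' h2 h4)).trans (sameType_shift _ _)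
    · exact (KLen.succ n' A' B' k a2 h2 hkn' h6).shift _

/-! ### Counting the knotted middle pieces -/

theorem klen_rest (hS : StretchStatement) (hC : CutStatement) {S : Finset (Sym2 P3)}
    (hSU : IsUpp S 0) (hSL : IsLow S k) (hk : 0 < k) (hmin : ∀ i, 0 < i → IsV0 S i → i = k)
    (hB : IsUpp B k) {N : ℕ} (h : KLen N (glue S B k)) :
    (Unknotted S → KLen N B) ∧ KLen (N - 1) B := by
  have hTy : TypeStatement := typeStatement hS
  generalize hG : glue S B k = G at h
  cases h with
  | zero => exact ⟨fun _ => KLen.zero _, KLen.zero _⟩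
  | one _ h =>
    refine ⟨fun hU => KLen.one _ fun hUB => h ?_, KLen.zero _⟩
    rw [← hG]
    exact (hTy _ _ k hSL hB).1.2 ⟨hU, hUB⟩
  | succ n A' B' j hA' hB' hkn h =>
    have hG0 : IsUpp (glue A' B' j) 0 := by
      rw [← hG]
      exact (isUpp_glue hSL hB hk).2 hSU
    have hj0 : 0 < j := by
      rcases (plane_ge hA' hB' hG0).lt_or_eq with h1 | h1
      · exact h1
      · subst h1
        exact absurd (unknotted_of_low_glue hA' hB' hG0) hkn
    have hVj : IsV0 (glue S B k) j := by
      rw [hG]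
      exact isV0_glue hA' hB'
    rcases lt_trichotomy j k with hjk | hjk | hjk
    · have h1 : IsV0 S j := by
        unfold IsV0 at hVj ⊢
        rwa [cross_glue_low hSL hB hjk.le] at hVj
      have := hmin j hj0 h1
      omega
    · subst hjk
      have h1 := congrArg (fun E => low E j) hG
      have h2 := congrArg (fun E => upp E j) hG
      beta_reduce at h1 h2
      rw [low_glue hSL hB, low_glue hA' hB'] at h1
      rw [upp_glue hSL hB, upp_glue hA' hB'] at h2
      subst h1 h2
      exact ⟨fun hU => absurd hU hkn, h⟩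
    · have hVB : IsV0 B j := by
        unfold IsV0 at hVj ⊢
        rwa [cross_glue_upp hSL hB hjk.le] at hVj
      obtain ⟨hlow, hupp, hgl⟩ := hC B j hB.1 hVB
      set A'' := low B j with hA''
      set B'' := upp B j with hB''
      have hU'' : IsUpp A'' k := by
        rw [← hgl] at hB
        exact (isUpp_glue hlow hupp hjk).1 hB
      have hLL : IsLow (glue S A'' k) j := (isLow_glue hSL hU'' hjk).2 hlow
      have h1 : glue (glue S A'' k) B'' j = glue A' B' j := by
        rw [← glue_assoc hSL hU'' hlow hupp hjk.le, hgl, hG]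
      have h2 := congrArg (fun E => low E j) h1
      have h3 := congrArg (fun E => upp E j) h1
      beta_reduce at h2 h3
      rw [low_glue hLL hupp, low_glue hA' hB'] at h2
      rw [upp_glue hLL hupp, upp_glue hA' hB'] at h3
      rw [← h2] at hkn
      rw [← h3] at h
      refine ⟨fun hU => ?_, ?_⟩
      · have h4 : ¬ Unknotted A'' := fun h5 => hkn ((hTy _ _ k hSL hU'').1.2 ⟨hU, h5⟩)
        have h5 := KLen.succ n A'' B'' j hlow hupp h4 h
        rwa [hgl] at h5
      · have h5 := h.glue_upp hS hlow hupp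
        rw [hgl] at h5
        simpa using h5

theorem klen_of_shift {n : ℕ} (t : ℤ) (h : KLen n (shift (0, 0, t) E)) : KLen n E := by
  have h1 := h.shift (-t)
  rw [shift_shift] at h1
  have e : (((0, 0, -t) : P3) + (0, 0, t)) = 0 := by simp
  rwa [e, shift_zero] at h1

theorem MK.le_of_klen (hS : StretchStatement) (hC : CutStatement) {n : ℕ} (h : MK L M n B) :
    ∀ (N : ℕ) (m : ℤ), 0 ≤ m → IsLow B m → KLen N B → N ≤ n := by
  induction h with
  | top B h =>
    intro N m hm hL hK
    rcases hm.lt_or_eq with h1 | h1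
    · exact absurd hL.2.1 (h.2 m h1)
    · subst h1
      have hU : Unknotted B := unknotted_of_low_upp hL h.1.1
      rcases N with _ | N
      · exact le_rfl
      · exact absurd hU (hK.knotted hS)
  | un i S B hSm hU hB ih =>
    intro N m hm hL hK
    obtain ⟨⟨hP, hT, hG⟩, hSU, k, hk, hSl, hu⟩ := hSm
    have hBu := (hB.upp hC).1
    have hB' := isUpp_shift_self hBu k
    rw [comp_eq hSl] at hL hK
    have h1 := (klen_rest hS hC hSU hSl hk hu hB' hK).1 hU
    have hkm : k < m ∨ k = m := by
      by_contra hcon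
      have h2 : m < k := by omega
      have h3 := hL.cross_empty h2
      have h4 := (isV0_glue hSl hB').nonempty
      rw [h3] at h4
      exact Set.not_nonempty_empty h4
    have hLB : IsLow B (m - k) := by
      rcases hkm with h2 | h2
      · have h3 := (isLow_glue hSl hB' h2).1 hL
        rwa [isLow_shift] at h3
      · subst h2
        rw [sub_self]
        have h3 : IsLow (shift (0, 0, k) B) k := by
          refine ⟨hB'.1, hB'.2.1, ?_, fun u hu => hL.2.2.2 u (verts_glue_of_upp hSl hB' hu)⟩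
          have h4 := hL.2.2.1
          unfold cap at h4 ⊢
          exact (mem_glue_upp hSl hB' le_rfl).1 h4
        rwa [isLow_shift, sub_self] at h3
    exact ih N (m - k) (by omega) hLB (klen_of_shift k h1)
  | kn i S B hSm hU hB ih =>
    intro N m hm hL hK
    obtain ⟨⟨hP, hT, hG⟩, hSU, k, hk, hSl, hu⟩ := hSm
    have hBu := (hB.upp hC).1
    have hB' := isUpp_shift_self hBu k
    rw [comp_eq hSl] at hL hK
    have h1 := (klen_rest hS hC hSU hSl hk hu hB' hK).2
    have hkm : k < m ∨ k = m := by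
      by_contra hcon
      have h2 : m < k := by omega
      have h3 := hL.cross_empty h2
      have h4 := (isV0_glue hSl hB').nonempty
      rw [h3] at h4
      exact Set.not_nonempty_empty h4
    have hLB : IsLow B (m - k) := by
      rcases hkm with h2 | h2
      · have h3 := (isLow_glue hSl hB' h2).1 hL
        rwa [isLow_shift] at h3
      · subst h2
        rw [sub_self]
        have h3 : IsLow (shift (0, 0, k) B) k := by
          refine ⟨hB'.1, hB'.2.1, ?_, fun u hu => hL.2.2.2 u (verts_glue_of_upp hSl hB' hu)⟩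
          have h4 := hL.2.2.1
          unfold cap at h4 ⊢
          exact (mem_glue_upp hSl hB' le_rfl).1 h4
        rwa [isLow_shift, sub_self] at h3
    have h2 := ih (N - 1) (m - k) (by omega) hLB (klen_of_shift k h1)
    omega

/-- A polygon with `N` knotted parts has the type of a composition with at least `N` knotted
middle pieces. -/
theorem exists_MK_of_KLen (hS : StretchStatement) (hC : CutStatement) (hL : 1 ≤ L) {N : ℕ}
    (hE : IsPolygon E) (hT : InTube L M E) (h : KLen N E) (hN : 1 ≤ N) :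
    ∃ (n : ℕ) (A B : Finset (Sym2 P3)), N ≤ n ∧ A ∈ BotSet L M ∧ MK L M n B ∧
      SameType E (comp (A, B)) := by
  obtain ⟨N', rfl⟩ : ∃ N', N = N' + 1 := ⟨N - 1, by omega⟩
  obtain ⟨E', m, h1, h2, h3, h4, h5, h6⟩ := exists_capped hS hC hL hE hT h
  obtain ⟨n, hn⟩ := exists_MK (L := L) (M := M) hC (lB E') E' le_rfl ⟨h2, h4⟩
  have hle := hn.le_of_klen hS hC _ m h1.le h3 h6
  refine ⟨n, sq, E', hle, ?_, hn, ?_⟩
  · refine ⟨⟨isPolygon_sq, inTube_sq hL, isUpp_sq.grounded⟩, trivial, 0, by omega, isLow_sq, ?_⟩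
    intro i _ hi
    exact isV0_sq.1 hi
  · rw [comp_eq isLow_sq]
    have e1 : shift (0, 0, 0) E' = E' := shift_zero E'
    have e2 : shift (0, 0, 0) sq = sq := shift_zero sq
    have h7 := sq_glue h2
    rw [e2] at h7
    rw [e1, h7]
    exact h5

end Pool.Agent.KTube
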