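import Pool.Agent.KTube.Kendall

/-! Convolutions of sequences which are polynomials up to exponentially small errors. -/

set_option autoImplicit false

open Filter Topology Finset

namespace Pool.Agent.KTube

open Pool.Agent.LatticeTube

theorem ExpSmall.add {a b : ℕ → ℝ} (ha : ExpSmall a) (hb : ExpSmall b) :
    ExpSmall fun n => a n + b n := by
  obtain ⟨C, θ, hC, h0, h1, hab⟩ := ha
  obtain ⟨C', θ', hC', h0', h1', hab'⟩ := hb
  refine ⟨C + C', max θ θ', by positivity, lt_max_of_lt_left h0, max_lt h1 h1', ?_⟩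
  intro n
  calc |a n + b n| ≤ |a n| + |b n| := abs_add_le _ _
    _ ≤ C * θ ^ n + C' * θ' ^ n := add_le_add (hab n) (hab' n)
    _ ≤ C * (max θ θ') ^ n + C' * (max θ θ') ^ n := by
        refine add_le_add (mul_le_mul_of_nonneg_left (pow_le_pow_left₀ h0.le (le_max_left _ _) n) hC)
          (mul_le_mul_of_nonneg_left (pow_le_pow_left₀ h0'.le (le_max_right _ _) n) hC')
    _ = (C + C') * (max θ θ') ^ n := by ring

theorem ExpSmall.smul {a : ℕ → ℝ} (c : ℝ) (ha : ExpSmall a) : ExpSmall fun n => c * a n := by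
  obtain ⟨C, θ, hC, h0, h1, hab⟩ := ha
  refine ⟨|c| * C, θ, by positivity, h0, h1, ?_⟩
  intro n
  rw [abs_mul, mul_assoc]
  exact mul_le_mul_of_nonneg_left (hab n) (abs_nonneg c)

theorem ExpSmall.congr {a b : ℕ → ℝ} (ha : ExpSmall a) (h : ∀ n, b n = a n) : ExpSmall b := by
  have : b = a := funext h
  rw [this]; exact ha

theorem ExpSmall.conv {a b : ℕ → ℝ} (ha : ExpSmall a) (hb : ExpSmall b) :
    ExpSmall (conv a b) := by
  obtain ⟨C, θ, hC, h0, h1, hab⟩ := ha
  obtain ⟨C', θ', hC', h0', h1', hab'⟩ := hb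
  obtain ⟨q, hq1, hq2⟩ : ∃ q, max θ θ' < q ∧ q < 1 := exists_between (max_lt h1 h1')
  have hq0 : 0 < q := (lt_max_of_lt_left h0).trans hq1
  obtain ⟨t, ht1, ht2⟩ : ∃ t, q < t ∧ t < 1 := exists_between hq2
  have ht0 : 0 < t := hq0.trans ht1
  -- (n + 1) q^n ≤ K t^n
  have hK : ∃ K : ℝ, 0 ≤ K ∧ ∀ n : ℕ, ((n : ℝ) + 1) * q ^ n ≤ K * t ^ n := by
    refine ⟨1 / (1 - q / t), ?_, ?_⟩
    · have : q / t < 1 := by rw [div_lt_one ht0]; exact ht1
      exact div_nonneg zero_le_one (by linarith)
    · intro n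
      have hx0 : 0 ≤ q / t := by positivity
      have hx1 : q / t < 1 := by rw [div_lt_one ht0]; exact ht1
      have h1 : ((n : ℝ) + 1) * (q / t) ^ n ≤ 1 / (1 - q / t) := by
        have h2 : ((n : ℝ) + 1) * (q / t) ^ n ≤ ∑ k ∈ range (n + 1), (q / t) ^ k := by
          have : ((n : ℝ) + 1) * (q / t) ^ n = ∑ k ∈ range (n + 1), (q / t) ^ n := by
            rw [sum_const, card_range, nsmul_eq_mul]; push_cast; ring
          rw [this]
          refine sum_le_sum fun k hk => ?_
          rw [mem_range] at hk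
          exact pow_le_pow_of_le_one hx0 hx1.le (by omega)
        refine h2.trans ?_
        have h3 := (summable_geometric_of_lt_one hx0 hx1).sum_le_tsum (range (n + 1))
          (fun k _ => pow_nonneg hx0 k)
        rw [tsum_geometric_of_lt_one hx0 hx1] at h3
        rwa [one_div]
      calc ((n : ℝ) + 1) * q ^ n = ((n : ℝ) + 1) * (q / t) ^ n * t ^ n := by
            rw [div_pow]; field_simp
        _ ≤ 1 / (1 - q / t) * t ^ n := mul_le_mul_of_nonneg_right h1 (pow_pos ht0 n).le
  obtain ⟨K, hK0, hK⟩ := hK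
  refine ⟨C * C' * K, t, by positivity, ht0, ht2, ?_⟩
  intro n
  unfold LatticeTube.conv
  calc |∑ p ∈ antidiagonal n, a p.1 * b p.2| ≤ ∑ p ∈ antidiagonal n, |a p.1 * b p.2| :=
        abs_sum_le_sum_abs _ _
    _ ≤ ∑ p ∈ antidiagonal n, C * C' * q ^ n := by
        refine sum_le_sum fun p hp => ?_
        rw [abs_mul]
        have h2 : |a p.1| ≤ C * q ^ p.1 := (hab _).trans (mul_le_mul_of_nonneg_left
          (pow_le_pow_left₀ h0.le ((le_max_left _ _).trans hq1.le) _) hC)
        have h3 : |b p.2| ≤ C' * q ^ p.2 := (hab' _).trans (mul_le_mul_of_nonneg_left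
          (pow_le_pow_left₀ h0'.le ((le_max_right _ _).trans hq1.le) _) hC')
        calc |a p.1| * |b p.2| ≤ (C * q ^ p.1) * (C' * q ^ p.2) :=
              mul_le_mul h2 h3 (abs_nonneg _) (by positivity)
          _ = C * C' * q ^ n := by
              rw [← HasAntidiagonal.mem_antidiagonal.mp hp, pow_add]; ring
    _ = C * C' * (((n : ℝ) + 1) * q ^ n) := by
        rw [sum_const, Finset.Nat.card_antidiagonal, nsmul_eq_mul]; push_cast; ring
    _ ≤ C * C' * (K * t ^ n) := mul_le_mul_of_nonneg_left (hK n) (by positivity)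
    _ = C * C' * K * t ^ n := by ring

theorem conv_add_left (a b c : ℕ → ℝ) (n : ℕ) :
    conv (fun k => a k + b k) c n = conv a c n + conv b c n := by
  unfold conv
  rw [← sum_add_distrib]
  exact sum_congr rfl fun p _ => by ring

theorem conv_add_right (a b c : ℕ → ℝ) (n : ℕ) :
    conv a (fun k => b k + c k) n = conv a b n + conv a c n := by
  unfold conv
  rw [← sum_add_distrib]
  exact sum_congr rfl fun p _ => by ring

theorem conv_eq_coeff (a b : ℕ → ℝ) (n : ℕ) :
    conv a b n = PowerSeries.coeff n (PowerSeries.mk a * PowerSeries.mk b) := by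
  rw [PowerSeries.coeff_mul]
  simp only [PowerSeries.coeff_mk]
  rfl

theorem mk_conv (a b : ℕ → ℝ) :
    PowerSeries.mk (conv a b) = PowerSeries.mk a * PowerSeries.mk b := by
  ext n
  rw [PowerSeries.coeff_mk, conv_eq_coeff]

theorem conv_assoc (a b c : ℕ → ℝ) : conv (conv a b) c = conv a (conv b c) := by
  funext n
  rw [conv_eq_coeff, conv_eq_coeff, mk_conv, mk_conv, mul_assoc]

theorem conv_const_left (c : ℝ) (a : ℕ → ℝ) (n : ℕ) :
    conv (fun _ => c) a n = c * ∑ k ∈ range (n + 1), a k := by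
  unfold conv
  rw [← mul_sum]
  congr 1
  rw [Finset.Nat.sum_antidiagonal_eq_sum_range_succ (fun _ j => a j) n]
  rw [← sum_range_reflect]
  refine sum_congr rfl fun k hk => ?_
  rw [mem_range] at hk
  congr 1
  omega

/-- Convergence to a constant, exponentially fast. -/
def Cst (x : ℕ → ℝ) (c : ℝ) : Prop := ExpSmall fun n => x n - c

/-- Asymptotically linear, with exponentially small error. -/
def Lin (x : ℕ → ℝ) (A B : ℝ) : Prop := ExpSmall fun n => x n - (A * n + B)

theorem const_conv_small {e : ℕ → ℝ} (c : ℝ) (he : ExpSmall e) :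
    Cst (conv (fun _ => c) e) (c * ∑' k, e k) := by
  refine (he.tail.smul (-c)).congr fun n => ?_
  rw [conv_const_left, ← he.summable.sum_add_tsum_nat_add (n + 1)]
  ring

theorem Cst.add {x y : ℕ → ℝ} {c d : ℝ} (hx : Cst x c) (hy : Cst y d) :
    Cst (fun n => x n + y n) (c + d) :=
  (ExpSmall.add hx hy).congr fun n => by ring

theorem ExpSmall.cst {e : ℕ → ℝ} (h : ExpSmall e) : Cst e 0 := h.congr fun n => by ring

theorem Cst.congr {x y : ℕ → ℝ} {c : ℝ} (hx : Cst x c) (h : ∀ n, y n = x n) : Cst y c := by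
  have : y = x := funext h
  rw [this]; exact hx

theorem Cst.conv_small {x e : ℕ → ℝ} {c : ℝ} (hx : Cst x c) (he : ExpSmall e) :
    Cst (conv x e) (c * ∑' k, e k) := by
  have h1 := const_conv_small c he
  have h2 : Cst (conv (fun n => x n - c) e) 0 := (ExpSmall.conv hx he).cst
  refine ((h1.add h2).congr fun n => ?_ : Cst (conv x e) _)
    |> fun h => by simpa using h
  rw [← conv_add_left]
  congr 1
  funext k; ring

theorem Cst.conv_small' {x e : ℕ → ℝ} {c : ℝ} (hx : Cst x c) (he : ExpSmall e) :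
    Cst (conv e x) (c * ∑' k, e k) :=
  (hx.conv_small he).congr fun n => conv_comm e x n

theorem Cst.conv {x y : ℕ → ℝ} {c d : ℝ} (hx : Cst x c) (hy : Cst y d) :
    ∃ B, Lin (conv x y) (c * d) B := by
  have h1 : Cst (LatticeTube.conv (fun _ => c) fun n => y n - d) _ := const_conv_small c hy
  have h2 : Cst (LatticeTube.conv (fun n => x n - c) fun _ => d) _ :=
    (const_conv_small d hx).congr fun n => conv_comm _ _ n
  have h3 : Cst (LatticeTube.conv (fun n => x n - c) fun n => y n - d) 0 :=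
    (ExpSmall.conv hx hy).cst
  refine ⟨c * d + (c * ∑' k, (y k - d) + d * ∑' k, (x k - c) + 0),
    (ExpSmall.congr ((h1.add h2).add h3) fun n => ?_)⟩
  · have e1 : LatticeTube.conv x y n = LatticeTube.conv (fun _ => c) (fun _ => d) n +
        LatticeTube.conv (fun _ => c) (fun n => y n - d) n +
        LatticeTube.conv (fun n => x n - c) (fun _ => d) n +
        LatticeTube.conv (fun n => x n - c) (fun n => y n - d) n := by
      have e2 := conv_add_right (fun _ => c) (fun _ => d) (fun n => y n - d) n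
      have e3 := conv_add_right (fun n => x n - c) (fun _ => d) (fun n => y n - d) n
      have e4 := conv_add_left (fun _ => c) (fun n => x n - c)
        (fun k => d + (y k - d)) n
      have e5 : (fun k : ℕ => d + (y k - d)) = y := by funext k; ring
      have e6 : (fun k : ℕ => c + (x k - c)) = x := by funext k; ring
      rw [e5] at e2 e3 e4
      rw [e6] at e4
      linarith
    have e7 : LatticeTube.conv (fun _ => c) (fun _ => d) n = c * d * n + c * d := by
      rw [conv_const_left, sum_const, card_range, nsmul_eq_mul]; push_cast; ring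
    rw [e1, e7]
    ring

theorem Lin.add_cst {x y : ℕ → ℝ} {A B c : ℝ} (hx : Lin x A B) (hy : Cst y c) :
    Lin (fun n => x n + y n) A (B + c) :=
  (ExpSmall.add hx hy).congr fun n => by ring

theorem Lin.congr {x y : ℕ → ℝ} {A B : ℝ} (hx : Lin x A B) (h : ∀ n, y n = x n) : Lin y A B := by
  have : y = x := funext h
  rw [this]; exact hx

theorem small_of_summable {a : ℕ → ℝ} {ρ r : ℝ} (hρ : 0 < ρ) (hr : ρ < r)
    (h : Summable fun n => a n * r ^ n) : ExpSmall fun n => a n * ρ ^ n := by
  have hr0 : 0 < r := hρ.trans hr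
  obtain ⟨M, hM⟩ := (h.tendsto_atTop_zero.norm.bddAbove_range)
  have hM' : ∀ n, |a n * r ^ n| ≤ M := fun n => hM ⟨n, rfl⟩
  have hM0 : 0 ≤ M := (abs_nonneg _).trans (hM' 0)
  refine ⟨M, ρ / r, hM0, by positivity, by rw [div_lt_one hr0]; exact hr, ?_⟩
  intro n
  have e : a n * ρ ^ n = a n * r ^ n * (ρ / r) ^ n := by
    rw [div_pow]; field_simp
  show |a n * ρ ^ n| ≤ M * (ρ / r) ^ n
  rw [e, abs_mul, abs_of_pos (show 0 < (ρ / r) ^ n by positivity)]
  exact mul_le_mul_of_nonneg_right (hM' n) (by positivity)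

theorem conv_mul_pow (a b : ℕ → ℝ) (x : ℝ) (n : ℕ) :
    conv a b n * x ^ n = conv (fun k => a k * x ^ k) (fun k => b k * x ^ k) n := by
  unfold conv
  rw [sum_mul]
  refine sum_congr rfl fun q hq => ?_
  rw [← HasAntidiagonal.mem_antidiagonal.mp hq, pow_add]; ring

/-- The renewal sequence, with an exponentially small error. -/
theorem renewal_exp {s u : ℕ → ℝ} {ρ r : ℝ} (h : IsRenewal s u) (hρ : 0 < ρ) (hr : ρ < r)
    (hs : Summable fun n => s n * r ^ n)
    (hconv : ∀ x, 0 ≤ x → x < ρ → Summable fun n => u n * x ^ n)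
    (hdiv : ∀ x, ρ < x → ¬ Summable fun n => u n * x ^ n) :
    ∃ γ : ℝ, 0 < γ ∧ Cst (fun n => u n * ρ ^ n) γ := by
  have h1 := sum_eq_one h hρ hr hs hconv hdiv
  have hR : IsRenewal (fun n => s n * ρ ^ n) fun n => u n * ρ ^ n := by
    refine ⟨fun n => mul_nonneg (h.nonneg n) (by positivity), ?_, ?_, ?_, ?_⟩
    · rw [h.zero, zero_mul]
    · exact mul_pos h.one (by positivity)
    · rw [h.init, pow_zero, mul_one]
    · intro n hn
      rw [h.step n hn, sum_mul]
      refine sum_congr rfl fun m hm => ?_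
      rw [mem_range] at hm
      have e : ρ ^ n = ρ ^ (m + 1) * ρ ^ (n - (m + 1)) := by
        rw [← pow_add]; congr 1; omega
      rw [e]; ring
  exact kendall_norm hR h1 (small_of_summable hρ hr hs)

/-- **The final analysis.** All sequences are indexed by half the number of edges. -/
theorem quasi {s u b t T bK tK sK TK : ℕ → ℝ} {ρ r : ℝ} (h : IsRenewal s u) (hρ : 0 < ρ)
    (hr : ρ < r) (hs : Summable fun n => s n * r ^ n)
    (hconv : ∀ x, 0 ≤ x → x < ρ → Summable fun n => u n * x ^ n)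
    (hdiv : ∀ x, ρ < x → ¬ Summable fun n => u n * x ^ n)
    (hb : Summable fun n => b n * r ^ n) (ht : Summable fun n => t n * r ^ n)
    (hT : Summable fun n => T n * r ^ n) (hbK : Summable fun n => bK n * r ^ n)
    (htK : Summable fun n => tK n * r ^ n) (hsK : Summable fun n => sK n * r ^ n)
    (hTK : Summable fun n => TK n * r ^ n)
    (hb0 : ∀ n, 0 ≤ b n) (ht0 : ∀ n, 0 ≤ t n) (hsK0 : ∀ n, 0 ≤ sK n)
    (hb1 : ∃ n, 0 < b n) (ht1 : ∃ n, 0 < t n) (hsK1 : ∃ n, 0 < sK n) :
    (∃ A : ℝ, 0 < A ∧ ExpSmall fun n => (T n + conv (conv b u) t n) * ρ ^ n - A) ∧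
    ∃ A B : ℝ, 0 < A ∧ ExpSmall fun n =>
      (TK n + conv (conv bK u) t n + conv (conv b u) tK n +
        conv (conv (conv (conv b u) sK) u) t n) * ρ ^ n - (A * n + B) := by
  obtain ⟨γ, hγ, hu⟩ := renewal_exp h hρ hr hs hconv hdiv
  have pb := small_of_summable hρ hr hb
  have pt := small_of_summable hρ hr ht
  have pT := small_of_summable hρ hr hT
  have pbK := small_of_summable hρ hr hbK
  have ptK := small_of_summable hρ hr htK
  have psK := small_of_summable hρ hr hsK
  have pTK := small_of_summable hρ hr hTK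
  have pos : ∀ {a : ℕ → ℝ}, (ExpSmall fun n => a n * ρ ^ n) → (∀ n, 0 ≤ a n) → (∃ n, 0 < a n) →
      0 < ∑' n, a n * ρ ^ n := by
    intro a ha h0 h1
    obtain ⟨m, hm⟩ := h1
    exact ha.summable.tsum_pos (fun n => mul_nonneg (h0 n) (by positivity)) m
      (mul_pos hm (by positivity))
  have sb := pos pb hb0 hb1
  have st := pos pt ht0 ht1
  have ssK := pos psK hsK0 hsK1
  -- smallness of a convolution of two small sequences times a constant sequence
  have two : ∀ {a c : ℕ → ℝ}, (ExpSmall fun n => a n * ρ ^ n) → (ExpSmall fun n => c n * ρ ^ n) →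
      Cst (fun n => conv (conv a u) c n * ρ ^ n)
        (γ * (∑' n, a n * ρ ^ n) * ∑' n, c n * ρ ^ n) := by
    intro a c ha hc
    have h1 : Cst (conv (fun n => a n * ρ ^ n) fun n => u n * ρ ^ n) (γ * ∑' n, a n * ρ ^ n) :=
      hu.conv_small' ha
    refine (h1.conv_small hc).congr fun n => ?_
    rw [conv_mul_pow]
    congr 1
    funext k
    exact conv_mul_pow a u ρ k
  refine ⟨⟨γ * (∑' n, b n * ρ ^ n) * ∑' n, t n * ρ ^ n, by positivity, ?_⟩, ?_⟩
  · have h1 := (two pb pt).add pT.cst
    refine ExpSmall.congr (a := fun n => conv (conv b u) t n * ρ ^ n + T n * ρ ^ n -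
      (γ * (∑' n, b n * ρ ^ n) * (∑' n, t n * ρ ^ n) + 0)) h1 fun n => ?_
    ring
  · -- the main term
    have h1 : Cst (conv (fun n => b n * ρ ^ n) fun n => u n * ρ ^ n) (γ * ∑' n, b n * ρ ^ n) :=
      hu.conv_small' pb
    have h2 := h1.conv_small psK
    have h3 : Cst (conv (fun n => u n * ρ ^ n) fun n => t n * ρ ^ n) (γ * ∑' n, t n * ρ ^ n) :=
      hu.conv_small pt
    obtain ⟨B, h4⟩ := Cst.conv h2 h3
    have h5 := ((two pbK pt).add (two pb ptK)).add pTK.cst
    have h6 := h4.add_cst h5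
    refine ⟨_, _, ?_, h6.congr fun n => ?_⟩
    · positivity
    · have e1 : conv (conv (conv (conv b u) sK) u) t n * ρ ^ n =
          conv (conv (conv (fun n => b n * ρ ^ n) fun n => u n * ρ ^ n) fun n => sK n * ρ ^ n)
            (conv (fun n => u n * ρ ^ n) fun n => t n * ρ ^ n) n := by
        rw [conv_assoc (conv (conv b u) sK) u t, conv_mul_pow]
        congr 1
        · funext k
          rw [conv_mul_pow]
          congr 1
          funext j
          exact conv_mul_pow b u ρ j
        · funext k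
          exact conv_mul_pow u t ρ k
      rw [add_mul, add_mul, add_mul, e1]
      ring

end Pool.Agent.KTube
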