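import Pool.Agent.KTube.Defs
import Pool.Agent.LatticeTube.SmallGap

/-! The gap property in terms of the definitions of the tube theorem. -/

set_option autoImplicit false

open Set

namespace Pool.Agent.KTube

open Pool.Agent.LK

/-- GAP PROPERTY of the tube `[0, L] × [0, M] × ℤ` with tension `y`: at some fugacity `z` beyond
the critical one of the unknots, polygons with few two-sections have a finite generating
function. -/
def Gap (L M : ℕ) (y : ℝ) : Prop := ∃ z' z η : ℝ, 0 < z' ∧ z' < z ∧ 0 < η ∧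
  Summable (fun E : {E : Finset (Sym2 P3) // IsPolygon E ∧ InTube L M E ∧ Grounded E} =>
    z ^ E.1.card * y ^ span E.1 * η ^ {k : ℤ | IsTwo E.1 k}.ncard) ∧
  ¬ Summable (fun E : {E : Finset (Sym2 P3) // (IsPolygon E ∧ Unknotted E) ∧ InTube L M E ∧
    Grounded E} => z' ^ E.1.card * y ^ span E.1)

theorem mem_rectB {L M : ℕ} {c : ℤ × ℤ} : c ∈ LatticeTube.rectB (L + 1) (M + 1) ↔
    0 ≤ c.1 ∧ c.1 ≤ L ∧ 0 ≤ c.2 ∧ c.2 ≤ M := by
  simp only [LatticeTube.rectB, Finset.mem_image, Finset.mem_product, Finset.mem_range]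
  constructor
  · rintro ⟨⟨i, j⟩, ⟨hi, hj⟩, rfl⟩
    simp only at hi hj ⊢
    omega
  · rintro ⟨h1, h2, h3, h4⟩
    refine ⟨(c.1.toNat, c.2.toNat), ⟨by omega, by omega⟩, ?_⟩
    ext <;> simp only <;> omega

theorem inTube_iff {L M : ℕ} {E : Finset (Sym2 P3)} :
    LatticeTube.InTube (LatticeTube.rectB (L + 1) (M + 1)) E ↔ InTube L M E := by
  simp only [LatticeTube.InTube, InTube, mem_rectB]

/-- The conversion. -/
theorem gap_of {L M : ℕ} {y : ℝ} (h : LatticeTube.Gap (LatticeTube.rectB (L + 1) (M + 1)) y) :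
    Gap L M y := by
  obtain ⟨z', z, η, h1, h2, h3, h4, h5⟩ := h
  refine ⟨z', z, η, h1, h2, h3, ?_, ?_⟩
  · let f : {E : Finset (Sym2 P3) // IsPolygon E ∧ InTube L M E ∧ Grounded E} →
        LatticeTube.Poly (LatticeTube.rectB (L + 1) (M + 1)) :=
      fun E => ⟨E.1, E.2.1, inTube_iff.2 E.2.2.1, E.2.2.2⟩
    have hf : Function.Injective f := by
      intro E F hEF
      apply Subtype.ext
      exact congrArg (fun G : LatticeTube.Poly (LatticeTube.rectB (L + 1) (M + 1)) => G.1) hEF
    exact (h4.comp_injective hf).congr fun E => rfl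
  · intro hs
    apply h5
    let f : LatticeTube.UPoly (LatticeTube.rectB (L + 1) (M + 1)) →
        {E : Finset (Sym2 P3) // (IsPolygon E ∧ Unknotted E) ∧ InTube L M E ∧ Grounded E} :=
      fun E => ⟨E.1, ⟨E.2.1, E.2.2.1⟩, inTube_iff.1 E.2.2.2.1, E.2.2.2.2⟩
    have hf : Function.Injective f := by
      intro E F hEF
      have h6 : E.1 = F.1 := congrArg
        (fun G : {E : Finset (Sym2 P3) // (IsPolygon E ∧ Unknotted E) ∧ InTube L M E ∧
          Grounded E} => G.1) hEF
      exact Subtype.ext h6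
    exact (hs.comp_injective hf).congr fun E => rfl

/-- The gap under tension. -/
theorem gap_tension {L M : ℕ} (hL : 1 ≤ L) {y : ℝ} (hy : 58 ≤ y) : Gap L M y := by
  refine gap_of (LatticeTube.tension _ 0 0 ?_ ?_ y hy)
  · rw [mem_rectB]; simp only; omega
  · rw [mem_rectB]; simp only; omega

/-- The gap without tension for the three small tubes, from the certificates. -/
theorem gap_small (h : LatticeTube.SmallStatement) : Gap 2 1 1 ∧ Gap 3 1 1 ∧ Gap 2 2 1 :=
  ⟨gap_of h.1, gap_of h.2.1, gap_of h.2.2⟩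

end Pool.Agent.KTube
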