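import Mathlib

/-!
# Inserting detours: the abstract counting lemma

`X` is a class of objects with length `lX x`, weight `wX x` and `m x` places at which a detour may be
inserted; `Φ x A` is the object of the class `Y` obtained by inserting detours at the places in `A`.
If the generating function of `Y` converges below `ρ`, and the places are linearly many, then the
generating function of `X` converges at some point beyond `ρ`.
-/

set_option autoImplicit false

open scoped ENNReal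

namespace Pool.Agent.KTube

theorem taboo_sum {X Y : Type*} (lX m : X → ℕ) (wX : X → ℝ≥0∞) (lY : Y → ℕ) (wY : Y → ℝ≥0∞)
    (Φ : (x : X) → Finset (Fin (m x)) → Y)
    (hinj : Function.Injective fun p : (x : X) × Finset (Fin (m x)) => Φ p.1 p.2)
    (c : ℕ) (b : ℝ≥0∞) (hl : ∀ x A, lY (Φ x A) ≤ lX x + c * A.card)
    (hw : ∀ x A, wX x * b ^ A.card ≤ wY (Φ x A)) (z : ℝ≥0∞) (hz : z ≤ 1) :
    ∑' x, wX x * z ^ lX x * (b * z ^ c + 1) ^ m x ≤ ∑' y, wY y * z ^ lY y := by
  calc ∑' x, wX x * z ^ lX x * (b * z ^ c + 1) ^ m x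
      = ∑' x, ∑' A : Finset (Fin (m x)), wX x * z ^ lX x * (b * z ^ c) ^ A.card := by
        refine tsum_congr fun x => ?_
        rw [ENNReal.tsum_mul_left, tsum_fintype]
        congr 1
        have h := Fintype.sum_pow_mul_eq_add_pow (Fin (m x)) (b * z ^ c) 1
        rw [Fintype.card_fin] at h
        rw [← h]
        exact Finset.sum_congr rfl fun A _ => by rw [one_pow, mul_one]
    _ = ∑' p : (x : X) × Finset (Fin (m x)), wX p.1 * z ^ lX p.1 * (b * z ^ c) ^ p.2.card :=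
        (ENNReal.tsum_sigma fun x (A : Finset (Fin (m x))) =>
          wX x * z ^ lX x * (b * z ^ c) ^ A.card).symm
    _ ≤ ∑' p : (x : X) × Finset (Fin (m x)), wY (Φ p.1 p.2) * z ^ lY (Φ p.1 p.2) := by
        refine ENNReal.tsum_le_tsum fun p => ?_
        calc wX p.1 * z ^ lX p.1 * (b * z ^ c) ^ p.2.card
            = (wX p.1 * b ^ p.2.card) * z ^ (lX p.1 + c * p.2.card) := by
              rw [mul_pow, pow_add, pow_mul]; ring
          _ ≤ wY (Φ p.1 p.2) * z ^ lY (Φ p.1 p.2) :=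
              mul_le_mul' (hw _ _) (pow_le_pow_right_of_le_one' hz (hl _ _))
    _ ≤ ∑' y, wY y * z ^ lY y :=
        ENNReal.tsum_comp_le_tsum_of_injective hinj fun y => wY y * z ^ lY y

/-- **Taboo lemma.** -/
theorem taboo {X Y : Type*} (lX m : X → ℕ) (wX : X → ℝ≥0∞) (lY : Y → ℕ) (wY : Y → ℝ≥0∞)
    (Φ : (x : X) → Finset (Fin (m x)) → Y)
    (hinj : Function.Injective fun p : (x : X) × Finset (Fin (m x)) => Φ p.1 p.2)
    (c : ℕ) (b : ℝ) (hb : 0 < b) (hl : ∀ x A, lY (Φ x A) ≤ lX x + c * A.card)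
    (hw : ∀ x A, wX x * ENNReal.ofReal b ^ A.card ≤ wY (Φ x A)) (ρ : ℝ) (hρ : 0 < ρ)
    (hρ1 : ρ ≤ 1)
    (hfin : ∀ z : ℝ, 0 < z → z < ρ → ∑' y, wY y * ENNReal.ofReal z ^ lY y < ∞)
    (ε : ℝ) (hε : 0 < ε) (hm : ∀ x, ε * lX x ≤ m x) :
    ∃ r : ℝ, ρ < r ∧ ∑' x, wX x * ENNReal.ofReal r ^ lX x < ∞ := by
  set θ : ℝ := b * (ρ / 2) ^ c with hθ
  have hθ0 : 0 < θ := by positivity
  set q : ℝ := (θ + 1) ^ ε with hq
  have hq1 : 1 < q := Real.one_lt_rpow (by linarith) hε
  obtain ⟨z, hz1, hz2⟩ : ∃ z, max (ρ / 2) (ρ / q) < z ∧ z < ρ :=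
    exists_between (max_lt (by linarith) (div_lt_self hρ hq1))
  have hzρ2 : ρ / 2 < z := (le_max_left _ _).trans_lt hz1
  have hzq : ρ / q < z := (le_max_right _ _).trans_lt hz1
  have hz0 : 0 < z := by linarith
  have hq0 : 0 < q := by linarith
  refine ⟨z * q, (div_lt_iff₀ hq0).1 hzq, ?_⟩
  have hsum := taboo_sum lX m wX lY wY Φ hinj c (ENNReal.ofReal b) hl hw (ENNReal.ofReal z)
    (by rw [ENNReal.ofReal_le_one]; linarith)
  refine lt_of_le_of_lt (le_trans (ENNReal.tsum_le_tsum fun x => ?_) hsum) (hfin z hz0 hz2)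
  rw [ENNReal.ofReal_mul hz0.le, mul_pow, ← mul_assoc]
  refine mul_le_mul' le_rfl ?_
  have h1 : q ^ lX x ≤ (θ + 1) ^ m x := by
    rw [hq, ← Real.rpow_natCast, ← Real.rpow_mul (by linarith), ← Real.rpow_natCast]
    exact Real.rpow_le_rpow_of_exponent_le (by linarith) (hm x)
  have h2 : θ ≤ b * z ^ c := by
    rw [hθ]
    exact mul_le_mul_of_nonneg_left (pow_le_pow_left₀ (by positivity) hzρ2.le c) hb.le
  have h3 : q ^ lX x ≤ (b * z ^ c + 1) ^ m x :=
    h1.trans (pow_le_pow_left₀ (by positivity) (by linarith) _)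
  calc ENNReal.ofReal q ^ lX x = ENNReal.ofReal (q ^ lX x) := (ENNReal.ofReal_pow hq0.le _).symm
    _ ≤ ENNReal.ofReal ((b * z ^ c + 1) ^ m x) := ENNReal.ofReal_le_ofReal h3
    _ = (ENNReal.ofReal b * ENNReal.ofReal z ^ c + 1) ^ m x := by
        rw [ENNReal.ofReal_pow (by positivity), ENNReal.ofReal_add (by positivity) (by norm_num),
          ENNReal.ofReal_mul hb.le, ENNReal.ofReal_pow hz0.le, ENNReal.ofReal_one]

end Pool.Agent.KTube
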