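import Pool.Agent.KTube.Decomp
import Pool.Agent.KTube.Taboo
import Pool.Agent.KTube.Gap

/-! The closed pieces converge beyond the radius of convergence. -/

set_option autoImplicit false

open scoped ENNReal
open Filter Topology

namespace Pool.Agent.KTube

open Pool.Agent.LK

variable {E A B : Finset (Sym2 P3)} {k i j : ℤ} {L M : ℕ} {y : ℝ}

/-- The pieces. -/
def GoodSet (L M : ℕ) : Set (Finset (Sym2 P3)) := {E | Good L M E}

/-- The generating function of a set of polygons. -/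
noncomputable def gx (y : ℝ) (S : Set (Finset (Sym2 P3))) (x : ℝ) : ℝ≥0∞ :=
  gset S lE (wE (ENNReal.ofReal y)) (ENNReal.ofReal x)

theorem twoSec_finite (E : Finset (Sym2 P3)) : {k : ℤ | IsTwo E k ∧ ¬ IsV0 E k}.Finite :=
  (planes_finite E).subset fun _ hk => two_nonempty hk.1

/-- The sections with two edges different from the reference section. -/
noncomputable def pl (E : Finset (Sym2 P3)) : Finset ℤ := (twoSec_finite E).toFinset

theorem mem_pl : k ∈ pl E ↔ IsTwo E k ∧ ¬ IsV0 E k := by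
  unfold pl
  rw [Set.Finite.mem_toFinset]
  rfl

theorem ncard_two_le (hE : Good L M E) : {k : ℤ | IsTwo E k}.ncard ≤ (pl E).card + 2 := by
  have h1 : {k : ℤ | IsTwo E k} ⊆ (pl E : Set ℤ) ∪ ({0} ∪ {j | IsV0 E j ∧ ∀ i, j < i →
      cross E i = ∅}) := by
    intro k hk
    by_cases hV : IsV0 E k
    · rcases hE.ext k hV with h | h
      · exact Or.inr (Or.inl h)
      · exact Or.inr (Or.inr ⟨hV, h⟩)
    · exact Or.inl (by rw [Finset.mem_coe, mem_pl]; exact ⟨hk, hV⟩)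
  have h2 : {j | IsV0 E j ∧ ∀ i, j < i → cross E i = ∅}.Subsingleton := by
    rintro a ⟨ha, ha'⟩ b ⟨hb, hb'⟩
    rcases lt_trichotomy a b with h | h | h
    · have h3 := hb.nonempty
      rw [ha' b h] at h3
      exact absurd h3 Set.not_nonempty_empty
    · exact h
    · have h3 := ha.nonempty
      rw [hb' a h] at h3
      exact absurd h3 Set.not_nonempty_empty
  have h3 : ({j | IsV0 E j ∧ ∀ i, j < i → cross E i = ∅} : Set ℤ).ncard ≤ 1 :=
    (Set.ncard_le_one h2.finite).2 fun a ha b hb => h2 ha hb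
  have hfin : ((pl E : Set ℤ) ∪ ({0} ∪ {j | IsV0 E j ∧ ∀ i, j < i → cross E i = ∅})).Finite :=
    (Finset.finite_toSet _).union ((Set.finite_singleton _).union h2.finite)
  calc {k : ℤ | IsTwo E k}.ncard ≤ _ := Set.ncard_le_ncard h1 hfin
    _ ≤ (pl E : Set ℤ).ncard + ({0} ∪ {j | IsV0 E j ∧ ∀ i, j < i → cross E i = ∅} : Set ℤ).ncard :=
        Set.ncard_union_le _ _
    _ ≤ (pl E : Set ℤ).ncard + (({0} : Set ℤ).ncard +
          ({j | IsV0 E j ∧ ∀ i, j < i → cross E i = ∅} : Set ℤ).ncard) :=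
        add_le_add le_rfl (Set.ncard_union_le _ _)
    _ ≤ (pl E).card + 2 := by
        rw [Set.ncard_coe_finset, Set.ncard_singleton]
        omega

/-- The pieces with few sections of two edges. -/
theorem few (hy : 0 < y) {z η ε : ℝ} (hz : 0 < z) (hη : 0 < η) (hη1 : η ≤ 1)
    (hs : Summable (fun E : {E : Finset (Sym2 P3) // IsPolygon E ∧ InTube L M E ∧ Grounded E} =>
      z ^ E.1.card * y ^ span E.1 * η ^ {k : ℤ | IsTwo E.1 k}.ncard))
    {S : Set (Finset (Sym2 P3))} (hS : S ⊆ GoodSet L M)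
    (hm : ∀ E ∈ S, ((pl E).card : ℝ) ≤ ε * lE E) : gx y S (z ^ 2 * η ^ ε) < ∞ := by
  set F : {E : Finset (Sym2 P3) // IsPolygon E ∧ InTube L M E ∧ Grounded E} → ℝ := fun E =>
      z ^ E.1.card * y ^ span E.1 * η ^ {k : ℤ | IsTwo E.1 k}.ncard with hF
  let f : S → {E : Finset (Sym2 P3) // IsPolygon E ∧ InTube L M E ∧ Grounded E} :=
    fun E => ⟨E.1, (hS E.2).poly, (hS E.2).tube, (hS E.2).ground⟩
  have hf : Function.Injective f := fun a b hab => Subtype.ext (congrArg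
    (fun E : {E : Finset (Sym2 P3) // IsPolygon E ∧ InTube L M E ∧ Grounded E} => E.1) hab)
  have key : ∀ E : S, wE (ENNReal.ofReal y) E.1 * ENNReal.ofReal (z ^ 2 * η ^ ε) ^ lE E.1 ≤
      ENNReal.ofReal ((η ^ 2)⁻¹) * ENNReal.ofReal (F (f E)) := by
    rintro ⟨E, hE⟩
    have hG := hS hE
    obtain ⟨c, hc⟩ := even_card hG.poly
    have hl : lE E = c := by unfold lE; omega
    have h1 := ncard_two_le hG
    have h2 := hm E hE
    unfold wE
    rw [← ENNReal.ofReal_pow hy.le, ← ENNReal.ofReal_pow (by positivity),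
      ← ENNReal.ofReal_mul (by positivity), ← ENNReal.ofReal_mul (by positivity)]
    refine ENNReal.ofReal_le_ofReal ?_
    simp only [hF, f]
    rw [mul_pow, ← pow_mul, hl, hc]
    have h3 : (η ^ ε) ^ c ≤ (η ^ 2)⁻¹ * η ^ {k : ℤ | IsTwo E k}.ncard := by
      rw [← Real.rpow_natCast (η ^ ε) c, ← Real.rpow_mul hη.le]
      calc η ^ (ε * (c : ℝ)) ≤ η ^ (((pl E).card : ℝ)) := by
            refine Real.rpow_le_rpow_of_exponent_ge hη hη1 ?_
            rw [← hl]; exact h2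
        _ = η ^ (pl E).card := Real.rpow_natCast _ _
        _ = (η ^ 2)⁻¹ * η ^ ((pl E).card + 2) := by
            rw [pow_add]
            field_simp
        _ ≤ (η ^ 2)⁻¹ * η ^ {k : ℤ | IsTwo E k}.ncard := by
            refine mul_le_mul_of_nonneg_left (pow_le_pow_of_le_one hη.le hη1 h1) (by positivity)
    calc y ^ span E * (z ^ (2 * c) * (η ^ ε) ^ c)
        ≤ y ^ span E * (z ^ (2 * c) * ((η ^ 2)⁻¹ * η ^ {k : ℤ | IsTwo E k}.ncard)) := by
          gcongr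
      _ = (η ^ 2)⁻¹ * (z ^ (c + c) * y ^ span E * η ^ {k : ℤ | IsTwo E k}.ncard) := by
          rw [two_mul]; ring
  unfold gx gset gf
  refine lt_of_le_of_lt (ENNReal.tsum_le_tsum key) ?_
  rw [ENNReal.tsum_mul_left]
  refine ENNReal.mul_lt_top ENNReal.ofReal_lt_top ?_
  refine lt_of_le_of_lt (ENNReal.tsum_comp_le_tsum_of_injective hf fun E => ENNReal.ofReal (F E)) ?_
  exact hs.tsum_ofReal_lt_top

/-- The pieces with many sections of two edges. -/
theorem many (hT1 : StretchStatement) (hL : 1 ≤ L) (hy : 1 ≤ y) (C : Set (Finset (Sym2 P3)))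
    (hC : ∀ E F, SameType E F → E ∈ C → F ∈ C) {ρ : ℝ} (hρ : 0 < ρ) (hρ1 : ρ ≤ 1)
    (hfin : ∀ x : ℝ, 0 < x → x < ρ → gx y (PSet L M ∩ C) x < ∞) {ε : ℝ} (hε : 0 < ε) :
    ∃ r : ℝ, ρ < r ∧ gx y {E | E ∈ GoodSet L M ∩ C ∧ ε * lE E ≤ (pl E).card} r < ∞ := by
  obtain ⟨c, Φ, h1, h2⟩ := detours (M := M) hT1 hL
  set S : Set (Finset (Sym2 P3)) := {E | E ∈ GoodSet L M ∩ C ∧ ε * lE E ≤ (pl E).card} with hS
  -- the planes
  let e : (E : S) → Fin (pl E.1).card ≃ (pl E.1 : Finset ℤ) := fun E => (pl E.1).equivFin.symm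
  let em : (E : S) → Fin (pl E.1).card ↪ ℤ := fun E =>
    ⟨fun i => (e E i : ℤ), fun a b hab => (e E).injective (Subtype.ext hab)⟩
  have hem : ∀ (E : S) (A : Finset (Fin (pl E.1).card)), ∀ k ∈ A.map (em E),
      IsTwo E.1 k ∧ ¬ IsV0 E.1 k := by
    intro E A k hk
    rw [Finset.mem_map] at hk
    obtain ⟨i, -, rfl⟩ := hk
    exact mem_pl.1 (e E i).2
  have hΦ : ∀ (E : S) (A : Finset (Fin (pl E.1).card)), Φ E.1 (A.map (em E)) ∈ PSet L M ∩ C := by
    intro E A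
    obtain ⟨a1, a2, a3, a4, -, -⟩ := h1 E.1 (A.map (em E)) E.2.1.1 (hem E A)
    exact ⟨⟨a1, a2, a3⟩, hC _ _ a4 E.2.1.2⟩
  refine taboo (X := S) (Y := (PSet L M ∩ C : Set (Finset (Sym2 P3)))) (fun E => lE E.1)
    (fun E => (pl E.1).card) (fun E => wE (ENNReal.ofReal y) E.1) (fun E => lE E.1)
    (fun E => wE (ENNReal.ofReal y) E.1) (fun E A => ⟨Φ E.1 (A.map (em E)), hΦ E A⟩) ?_ c 1
    one_pos ?_ ?_ ρ hρ hρ1 hfin ε hε fun E => E.2.2
  · rintro ⟨E, A⟩ ⟨E', A'⟩ h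
    simp only [Subtype.mk.injEq] at h
    obtain ⟨h3, h4⟩ := h2 _ _ _ _ E.2.1.1 (hem E A) E'.2.1.1 (hem E' A') h
    have h5 : E = E' := Subtype.ext h3
    subst h5
    rw [Finset.map_inj] at h4
    rw [h4]
  · intro E A
    obtain ⟨-, -, -, -, h3, -⟩ := h1 E.1 (A.map (em E)) E.2.1.1 (hem E A)
    rw [Finset.card_map] at h3
    simp only [lE]
    have h4 : c * A.card / 2 ≤ c * A.card := Nat.div_le_self _ _
    omega
  · intro E A
    obtain ⟨-, -, -, -, -, h3⟩ := h1 E.1 (A.map (em E)) E.2.1.1 (hem E A)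
    rw [ENNReal.ofReal_one, one_pow, mul_one]
    unfold wE
    refine pow_le_pow_right' ?_ h3
    rw [← ENNReal.ofReal_one]
    exact ENNReal.ofReal_le_ofReal hy

theorem gx_mono (S : Set (Finset (Sym2 P3))) {x x' : ℝ} (h : x ≤ x') : gx y S x ≤ gx y S x' :=
  gset_mono _ _ _ (ENNReal.ofReal_le_ofReal h)

theorem gx_subset {S T : Set (Finset (Sym2 P3))} (h : S ⊆ T) (x : ℝ) : gx y S x ≤ gx y T x :=
  gset_subset h _ _ _

theorem gx_union_le {S T U : Set (Finset (Sym2 P3))} (h : U ⊆ S ∪ T) (x : ℝ) :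
    gx y U x ≤ gx y S x + gx y T x := by
  have h1 : U ⊆ S ∪ (T \ S) := by
    rw [Set.union_sdiff_self]
    exact h
  refine (gx_subset h1 x).trans ?_
  unfold gx
  rw [← evs_sset, sset_union Set.disjoint_sdiff_right, evs_add, evs_sset, evs_sset]
  exact add_le_add le_rfl (gset_subset Set.sdiff_subset _ _ _)

/-- All pieces of a type converge beyond the radius of convergence of the polygons of the type. -/
theorem pieces (hT1 : StretchStatement) (hL : 1 ≤ L) (hy : 1 ≤ y) (C : Set (Finset (Sym2 P3)))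
    (hC : ∀ E F, SameType E F → E ∈ C → F ∈ C) {ρ z' z η : ℝ} (hρ : 0 < ρ) (hρ1 : ρ ≤ 1)
    (hρz : ρ ≤ z' ^ 2) (hz' : 0 < z') (hz : z' < z) (hη : 0 < η) (hη1 : η ≤ 1)
    (hs : Summable (fun E : {E : Finset (Sym2 P3) // IsPolygon E ∧ InTube L M E ∧ Grounded E} =>
      z ^ E.1.card * y ^ span E.1 * η ^ {k : ℤ | IsTwo E.1 k}.ncard))
    (hfin : ∀ x : ℝ, 0 < x → x < ρ → gx y (PSet L M ∩ C) x < ∞) :
    ∃ r : ℝ, ρ < r ∧ gx y (GoodSet L M ∩ C) r < ∞ := by
  have hz0 : 0 < z := hz'.trans hz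
  have hlim : Tendsto (fun ε : ℝ => z ^ 2 * η ^ ε) (𝓝 0) (𝓝 (z ^ 2 * η ^ (0 : ℝ))) := by
    refine Tendsto.const_mul _ ?_
    exact (Real.continuousAt_const_rpow hη.ne').tendsto
  rw [Real.rpow_zero, mul_one] at hlim
  have hgt : z' ^ 2 < z ^ 2 := by
    exact pow_lt_pow_left₀ hz hz'.le two_ne_zero
  have hev := hlim.eventually_const_lt hgt
  obtain ⟨ε, hε1, hε⟩ := ((eventually_nhdsWithin_of_eventually_nhds (s := Set.Ioi 0) hev).and
    self_mem_nhdsWithin).exists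
  have hε0 : (0 : ℝ) < ε := hε
  obtain ⟨r1, hr1, hr1'⟩ := many hT1 hL hy C hC hρ hρ1 hfin hε0
  have hfew := few (lt_of_lt_of_le one_pos hy) hz0 hη hη1 hs (ε := ε)
    (S := {E | E ∈ GoodSet L M ∩ C ∧ ((pl E).card : ℝ) ≤ ε * lE E}) (fun E hE => hE.1.1)
    fun E hE => hE.2
  refine ⟨min r1 (z ^ 2 * η ^ ε), lt_min hr1 (hρz.trans_lt hε1), ?_⟩
  have hsub : GoodSet L M ∩ C ⊆ {E | E ∈ GoodSet L M ∩ C ∧ ε * lE E ≤ (pl E).card} ∪
      {E | E ∈ GoodSet L M ∩ C ∧ ((pl E).card : ℝ) ≤ ε * lE E} := by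
    intro E hE
    rcases le_total (ε * lE E) ((pl E).card : ℝ) with h | h
    · exact Or.inl ⟨hE, h⟩
    · exact Or.inr ⟨hE, h⟩
  refine lt_of_le_of_lt (gx_union_le hsub _) (ENNReal.add_lt_top.2 ⟨?_, ?_⟩)
  · exact lt_of_le_of_lt (gx_mono _ (min_le_left _ _)) hr1'
  · exact lt_of_le_of_lt (gx_mono _ (min_le_right _ _)) hfew

end Pool.Agent.KTube
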