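import Pool.Agent.KTube.Boot
import Pool.Agent.KTube.ExpConv
import Pool.Agent.KTube.Caps
import Pool.Agent.KTube.GType

/-! The main theorem for tubes. -/

set_option autoImplicit false

open scoped ENNReal
open Filter Topology Finset

namespace Pool.Agent.KTube

open Pool.Agent.LK Pool.Agent.LatticeTube

/-! ### From extended nonnegative series to real sequences -/

/-- The real coefficients. -/
noncomputable def rc (a : PowerSeries ℝ≥0∞) (n : ℕ) : ℝ := (PowerSeries.coeff n a).toReal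

theorem rc_nonneg (a : PowerSeries ℝ≥0∞) (n : ℕ) : 0 ≤ rc a n := ENNReal.toReal_nonneg

theorem coeff_ne_top {a : PowerSeries ℝ≥0∞} {r : ℝ} (hr : 0 < r)
    (h : evs a (ENNReal.ofReal r) < ∞) (n : ℕ) : PowerSeries.coeff n a ≠ ∞ := by
  have h1 := (coeff_le_evs a (ENNReal.ofReal r) n).trans_lt h
  refine (ENNReal.lt_top_of_mul_ne_top_left h1.ne ?_).ne
  exact pow_ne_zero _ (by simpa using hr)

theorem summable_rc {a : PowerSeries ℝ≥0∞} {r : ℝ} (hr : 0 ≤ r)
    (h : evs a (ENNReal.ofReal r) < ∞) : Summable fun n => rc a n * r ^ n := by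
  have h1 := ENNReal.summable_toReal (f := fun n => PowerSeries.coeff n a *
    ENNReal.ofReal r ^ n) h.ne
  refine h1.congr fun n => ?_
  rw [ENNReal.toReal_mul, ENNReal.toReal_pow, ENNReal.toReal_ofReal hr]
  rfl

theorem rc_mul {a b : PowerSeries ℝ≥0∞} (ha : ∀ n, PowerSeries.coeff n a ≠ ∞)
    (hb : ∀ n, PowerSeries.coeff n b ≠ ∞) (n : ℕ) : rc (a * b) n = conv (rc a) (rc b) n := by
  unfold rc conv
  rw [PowerSeries.coeff_mul, ENNReal.toReal_sum fun p _ => ENNReal.mul_ne_top (ha _) (hb _)]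
  exact sum_congr rfl fun p _ => ENNReal.toReal_mul

theorem mul_ne_top' {a b : PowerSeries ℝ≥0∞} (ha : ∀ n, PowerSeries.coeff n a ≠ ∞)
    (hb : ∀ n, PowerSeries.coeff n b ≠ ∞) (n : ℕ) : PowerSeries.coeff n (a * b) ≠ ∞ := by
  rw [PowerSeries.coeff_mul]
  exact (ENNReal.sum_lt_top.2 fun p _ => ENNReal.mul_lt_top (ha _).lt_top (hb _).lt_top).ne

theorem rc_add {a b : PowerSeries ℝ≥0∞} (ha : ∀ n, PowerSeries.coeff n a ≠ ∞)
    (hb : ∀ n, PowerSeries.coeff n b ≠ ∞) (n : ℕ) : rc (a + b) n = rc a n + rc b n := by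
  unfold rc
  rw [map_add, ENNReal.toReal_add (ha n) (hb n)]

theorem add_ne_top' {a b : PowerSeries ℝ≥0∞} (ha : ∀ n, PowerSeries.coeff n a ≠ ∞)
    (hb : ∀ n, PowerSeries.coeff n b ≠ ∞) (n : ℕ) : PowerSeries.coeff n (a + b) ≠ ∞ := by
  rw [map_add]
  exact ENNReal.add_ne_top.2 ⟨ha n, hb n⟩

variable {L M : ℕ} {y : ℝ}

/-! ### The partition functions are coefficients -/

theorem z_eq_rc (hy : 0 < y) {C : Finset (Sym2 P3) → Prop} {D : Set (Finset (Sym2 P3))}
    (hCD : ∀ E, IsPolygon E → (C E ↔ E ∈ D)) (n : ℕ) :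
    Z L M y C (2 * n) = rc (sset (PSet L M ∩ D) lE (wE (ENNReal.ofReal y))) n := by
  have hfin := tubeSet_finite L M C (2 * n)
  have hmem : ∀ E, E ∈ TubeSet L M C (2 * n) ↔ E ∈ PSet L M ∩ D ∧ lE E = n := by
    intro E
    simp only [TubeSet, PSet, Gr, Set.mem_ofPred_eq, Set.mem_inter_iff]
    constructor
    · rintro ⟨h1, h2, h3, h4, h5⟩
      refine ⟨⟨⟨h1, h3, h4⟩, (hCD E h1).1 h2⟩, ?_⟩
      unfold lE
      omega
    · rintro ⟨⟨⟨h1, h3, h4⟩, h2⟩, h5⟩
      refine ⟨h1, (hCD E h1).2 h2, h3, h4, ?_⟩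
      obtain ⟨c, hc⟩ := even_card h1
      unfold lE at h5
      omega
  unfold Z rc sset
  rw [finsum_mem_eq_finite_toFinset_sum _ hfin, coeff_ser]
  have h1 : (∑' x : (PSet L M ∩ D : Set (Finset (Sym2 P3))),
      if lE x.1 = n then wE (ENNReal.ofReal y) x.1 else 0) =
      ∑ E ∈ hfin.toFinset, wE (ENNReal.ofReal y) E := by
    rw [tsum_subtype (PSet L M ∩ D) fun E => if lE E = n then wE (ENNReal.ofReal y) E else 0]
    rw [tsum_eq_sum (s := hfin.toFinset)]
    · refine sum_congr rfl fun E hE => ?_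
      rw [Set.Finite.mem_toFinset, hmem] at hE
      rw [Set.indicator_of_mem hE.1, if_pos hE.2]
    · intro E hE
      rw [Set.Finite.mem_toFinset, hmem, not_and] at hE
      by_cases h : E ∈ PSet L M ∩ D
      · rw [Set.indicator_of_mem h, if_neg (hE h)]
      · rw [Set.indicator_of_notMem h]
  rw [h1, ENNReal.toReal_sum]
  · refine sum_congr rfl fun E _ => ?_
    unfold wE
    rw [ENNReal.toReal_pow, ENNReal.toReal_ofReal hy.le]
  · intro E _
    exact ENNReal.pow_ne_top ENNReal.ofReal_ne_top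

/-! ### A middle piece of the type -/

theorem exists_mid (hT1 : StretchStatement) (hT2 : CutStatement) {K : Finset (Sym2 P3)}
    (hK : PrimeKnot K) : ∀ (n : ℕ) (A : Finset (Sym2 P3)) (m : ℤ), m.toNat ≤ n → 0 < m →
      IsUpp A 0 → IsLow A m → InTube L M A → SameType K A → ∃ S, S ∈ MidSet L M ∩ KS K := by
  intro n
  induction n with
  | zero => intro A m h1 h2; omega
  | succ n ih =>
    intro A m hmn hm hU hLo hT hKA
    by_cases hex : ∀ i, 0 < i → IsV0 A i → i = m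
    · exact ⟨A, ⟨⟨hU.1, hT, hU.grounded⟩, hU, m, hm, hLo, hex⟩, hKA⟩
    · push Not at hex
      obtain ⟨i, hi, hV, him⟩ := hex
      have hlt : i < m := by
        rcases lt_trichotomy i m with h | h | h
        · exact h
        · exact absurd h him
        · have h1 := hV.nonempty
          rw [hLo.cross_empty h] at h1
          exact absurd h1 Set.not_nonempty_empty
      obtain ⟨hA, hB, hg⟩ := hT2 A i hU.1 hV
      rw [← hg] at hU hLo hT hKA
      have hU1 := (isUpp_glue hA hB hi).1 hU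
      have hL2 := (isLow_glue hA hB hlt).1 hLo
      have hT12 := (inTube_glue hA hB).1 hT
      rcases (typeStatement hT1 _ _ i hA hB).2.2.2 K hK hKA with ⟨-, h⟩ | ⟨-, h⟩
      · refine ih (shift (0, 0, -i) (upp A i)) (m - i) (by omega) (by omega) ?_ ?_ ?_ ?_
        · rw [isUpp_shift]
          simpa using hB
        · rw [isLow_shift]
          have : m - i - -i = m := by ring
          rw [this]
          exact hL2
        · rw [inTube_shift]
          exact hT12.2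
        · exact h.trans (sameType_shift _ _)
      · exact ih (low A i) i (by omega) hi hU1 hA hT12.1 h

/-! ### The renewal sequence -/

theorem isRenewal_u (hT1 : StretchStatement) (hL : 1 ≤ L) (hy : 0 < y)
    (hs : ∀ n, PowerSeries.coeff n (sset (MidSet L M ∩ US) lB (wB (ENNReal.ofReal y))) ≠ ∞)
    (hu : ∀ n, PowerSeries.coeff n (uS L M (ENNReal.ofReal y)) ≠ ∞) :
    IsRenewal (rc (sset (MidSet L M ∩ US) lB (wB (ENNReal.ofReal y))))
      (rc (uS L M (ENNReal.ofReal y))) := by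
  set Y := ENNReal.ofReal y with hY
  have hY0 : Y ≠ 0 := by simpa [hY] using hy
  have h0 : PowerSeries.coeff 0 (sset (MidSet L M ∩ US) lB (wB Y)) = 0 := coeff_zero_mid _ _
  refine ⟨rc_nonneg _, ?_, ?_, ?_, ?_⟩
  · unfold rc
    rw [h0, ENNReal.toReal_zero]
  · unfold rc
    refine ENNReal.toReal_pos ?_ (hs 1)
    have h1 : wB Y rect ≤ PowerSeries.coeff 1 (sset (MidSet L M ∩ US) lB (wB Y)) := by
      unfold sset
      rw [coeff_ser]
      refine le_trans ?_ (ENNReal.le_tsum (f := fun b : (MidSet L M ∩ US :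
        Set (Finset (Sym2 P3))) => if lB b.1 = 1 then wB Y b.1 else 0)
        ⟨rect, rect_mem_mid hT1 hL⟩)
      rw [if_pos (lB_rect hT1)]
    intro h
    rw [h] at h1
    exact pow_ne_zero _ hY0 (nonpos_iff_eq_zero.1 h1)
  · unfold rc
    rw [uS_eq, map_add, PowerSeries.coeff_mul, Finset.Nat.antidiagonal_zero, sum_singleton, h0, zero_mul,
      add_zero, PowerSeries.coeff_one, if_pos rfl, ENNReal.toReal_one]
  · intro n hn
    have h1 : rc (uS L M Y) n = rc (sset (MidSet L M ∩ US) lB (wB Y) * uS L M Y) n := by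
      unfold rc
      conv_lhs => rw [uS_eq, map_add, PowerSeries.coeff_one, if_neg (by omega), zero_add]
    rw [h1, rc_mul hs hu]
    unfold conv
    rw [Finset.Nat.sum_antidiagonal_eq_sum_range_succ
      (fun i j => rc (sset (MidSet L M ∩ US) lB (wB Y)) i * rc (uS L M Y) j), sum_range_succ']
    have h2 : rc (sset (MidSet L M ∩ US) lB (wB Y)) 0 = 0 := by
      unfold rc
      rw [h0, ENNReal.toReal_zero]
    rw [h2, zero_mul, add_zero]

theorem radius_conv {a : PowerSeries ℝ≥0∞} {ρ : ℝ}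
    (h : ∀ x, 0 < x → x < ρ → evs a (ENNReal.ofReal x) < ∞) :
    ∀ x, 0 ≤ x → x < ρ → Summable fun n => rc a n * x ^ n := by
  intro x hx hlt
  obtain ⟨x', h1, h2⟩ := exists_between hlt
  have hx' : 0 < x' := hx.trans_lt h1
  refine Summable.of_nonneg_of_le (fun n => mul_nonneg (rc_nonneg _ _) (by positivity))
    (fun n => ?_) (summable_rc hx'.le (h x' hx' h2))
  exact mul_le_mul_of_nonneg_left (pow_le_pow_left₀ hx h1.le n) (rc_nonneg _ _)

theorem radius_div {a : PowerSeries ℝ≥0∞} {ρ : ℝ} (hρ : 0 < ρ)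
    (ha : ∀ n, PowerSeries.coeff n a ≠ ∞)
    (h : ∀ x, ρ < x → evs a (ENNReal.ofReal x) = ∞) :
    ∀ x, ρ < x → ¬ Summable fun n => rc a n * x ^ n := by
  intro x hx hs
  have hx0 : 0 < x := hρ.trans hx
  have h1 := hs.tsum_ofReal_lt_top
  have h2 : evs a (ENNReal.ofReal x) = ∑' n, ENNReal.ofReal (rc a n * x ^ n) := by
    unfold evs
    refine tsum_congr fun n => ?_
    rw [ENNReal.ofReal_mul (rc_nonneg _ _), ENNReal.ofReal_pow hx0.le]
    unfold rc
    rw [ENNReal.ofReal_toReal (ha n)]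
  rw [← h2, h x hx] at h1
  exact lt_irrefl _ h1

/-! ### The main theorem -/

theorem exists_pos_coeff {S : Set (Finset (Sym2 P3))} {l : Finset (Sym2 P3) → ℕ}
    {w : Finset (Sym2 P3) → ℝ≥0∞} {E : Finset (Sym2 P3)} (hE : E ∈ S) (hw : w E ≠ 0)
    (hs : ∀ n, PowerSeries.coeff n (sset S l w) ≠ ∞) : ∃ n, 0 < rc (sset S l w) n := by
  refine ⟨l E, ENNReal.toReal_pos ?_ (hs _)⟩
  have h1 : w E ≤ PowerSeries.coeff (l E) (sset S l w) := by
    unfold sset
    rw [coeff_ser]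
    refine le_trans ?_ (ENNReal.le_tsum (f := fun b : S => if l b.1 = l E then w b.1 else 0)
      ⟨E, hE⟩)
    rw [if_pos rfl]
  intro h
  rw [h] at h1
  exact hw (nonpos_iff_eq_zero.1 h1)

theorem expSmall_zero : ExpSmall fun _ => 0 :=
  ⟨0, 1 / 2, le_rfl, by norm_num, by norm_num, fun n => by simp⟩

/-- **The main theorem for a tube.** -/
theorem tube_exp (hT1 : StretchStatement) (hT2 : CutStatement) (hL : 1 ≤ L) (hy : 1 ≤ y)
    (hgap : Gap L M y) :
    ∃ μ : ℝ, 0 < μ ∧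
      (∃ A : ℝ, 0 < A ∧ ExpSmall fun k => Z L M y UClass (2 * k) / μ ^ (2 * k) - A) ∧
      ∀ K : Finset (Sym2 P3), PrimeKnot K → (∃ E, KClass K E ∧ InTube L M E) →
        ∃ A B : ℝ, 0 < A ∧
          ExpSmall fun k => Z L M y (KClass K) (2 * k) / μ ^ (2 * k) - (A * (2 * k : ℕ) + B) := by
  obtain ⟨ρ, hρ, hconv, hdiv, ⟨rU, hrU, hrU'⟩, hpK⟩ := boot (M := M) hT1 hT2 hL hy hgap
  have hy0 : 0 < y := one_pos.trans_le hy
  set Y := ENNReal.ofReal y with hY
  have hY0 : Y ≠ 0 := by simpa [hY] using hy0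
  -- finiteness of the pieces
  have tC : ∀ C : Set (Finset (Sym2 P3)), ∀ x, 0 < x → gx y (GoodSet L M ∩ C) x < ∞ →
      evs (sset (FreeSet L M ∩ C) lE (wE Y)) (ENNReal.ofReal x) < ∞ ∧
      evs (sset (BotSet L M ∩ C) lE (wE Y)) (ENNReal.ofReal x) < ∞ ∧
      evs (sset (TopSet L M ∩ C) lB (wB Y)) (ENNReal.ofReal x) < ∞ ∧
      evs (sset (MidSet L M ∩ C) lB (wB Y)) (ENNReal.ofReal x) < ∞ := by
    intro C x hx h
    simp only [evs_sset]
    refine ⟨?_, ?_, ?_, ?_⟩
    · exact (gx_subset (Set.inter_subset_inter_left _ freeSet_good) x).trans_lt h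
    · exact (gx_subset (Set.inter_subset_inter_left _ botSet_good) x).trans_lt h
    · refine gB_lt_top (fun E hE => uppSet_bounds hE.1.1) hy0 hx ?_
      exact (gx_subset (Set.inter_subset_inter_left _ topSet_good) x).trans_lt h
    · refine gB_lt_top (fun E hE => uppSet_bounds (midSet_upp hE.1)) hy0 hx ?_
      exact (gx_subset (Set.inter_subset_inter_left _ midSet_good) x).trans_lt h
  have huf : ∀ n, PowerSeries.coeff n (uS L M Y) ≠ ∞ :=
    coeff_ne_top (half_pos hρ) (hconv _ (half_pos hρ) (half_lt_self hρ))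
  -- the two assertions for given pieces
  have main : ∀ C : Set (Finset (Sym2 P3)), (∃ r, ρ < r ∧ gx y (GoodSet L M ∩ C) r < ∞) →
      (∃ S, S ∈ MidSet L M ∩ C) →
      (∃ A : ℝ, 0 < A ∧ ExpSmall fun n =>
        (rc (sset (FreeSet L M ∩ US) lE (wE Y)) n +
          conv (conv (rc (sset (BotSet L M ∩ US) lE (wE Y))) (rc (uS L M Y)))
            (rc (sset (TopSet L M ∩ US) lB (wB Y))) n) * ρ ^ n - A) ∧
      ∃ A B : ℝ, 0 < A ∧ ExpSmall fun n =>
        (rc (sset (FreeSet L M ∩ C) lE (wE Y)) n +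
          conv (conv (rc (sset (BotSet L M ∩ C) lE (wE Y))) (rc (uS L M Y)))
            (rc (sset (TopSet L M ∩ US) lB (wB Y))) n +
          conv (conv (rc (sset (BotSet L M ∩ US) lE (wE Y))) (rc (uS L M Y)))
            (rc (sset (TopSet L M ∩ C) lB (wB Y))) n +
          conv (conv (conv (conv (rc (sset (BotSet L M ∩ US) lE (wE Y))) (rc (uS L M Y)))
            (rc (sset (MidSet L M ∩ C) lB (wB Y)))) (rc (uS L M Y)))
            (rc (sset (TopSet L M ∩ US) lB (wB Y))) n) * ρ ^ n - (A * n + B) := by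
    rintro C ⟨rC, hrC, hrC'⟩ ⟨S, hS⟩
    have hr : ρ < min rU rC := lt_min hrU hrC
    have hr0 : 0 < min rU rC := hρ.trans hr
    obtain ⟨a1, a2, a3, a4⟩ := tC US _ hr0 ((gx_mono _ (min_le_left _ _)).trans_lt hrU')
    obtain ⟨b1, b2, b3, b4⟩ := tC C _ hr0 ((gx_mono _ (min_le_right _ _)).trans_lt hrC')
    exact quasi (isRenewal_u hT1 hL hy0 (coeff_ne_top hr0 a4) huf) hρ hr
      (summable_rc hr0.le a4) (radius_conv hconv) (radius_div hρ huf hdiv)
      (summable_rc hr0.le a2) (summable_rc hr0.le a3) (summable_rc hr0.le a1)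
      (summable_rc hr0.le b2) (summable_rc hr0.le b3) (summable_rc hr0.le b4)
      (summable_rc hr0.le b1) (rc_nonneg _) (rc_nonneg _) (rc_nonneg _)
      (exists_pos_coeff (sq_mem_bot hL) (pow_ne_zero _ hY0) (coeff_ne_top hr0 a2))
      (exists_pos_coeff (sq_mem_top hL) (pow_ne_zero _ hY0) (coeff_ne_top hr0 a3))
      (exists_pos_coeff hS (pow_ne_zero _ hY0) (coeff_ne_top hr0 b4))
  have hrU0 : 0 < rU := hρ.trans hrU
  obtain ⟨a1, a2, a3, a4⟩ := tC US _ hrU0 hrU'
  have f1 := coeff_ne_top hrU0 a1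
  have f2 := coeff_ne_top hrU0 a2
  have f3 := coeff_ne_top hrU0 a3
  have f4 := coeff_ne_top hrU0 a4
  -- the growth rate
  set μ : ℝ := (Real.sqrt ρ)⁻¹ with hμ
  have hμ0 : 0 < μ := by positivity
  have hμk : ∀ (x : ℝ) (k : ℕ), x / μ ^ (2 * k) = x * ρ ^ k := by
    intro x k
    rw [hμ, pow_mul, inv_pow, Real.sq_sqrt hρ.le, inv_pow, div_inv_eq_mul]
  refine ⟨μ, hμ0, ?_, ?_⟩
  · obtain ⟨⟨A, hA, hE⟩, -⟩ := main US ⟨rU, hrU, hrU'⟩ ⟨rect, rect_mem_mid hT1 hL⟩
    refine ⟨A, hA, hE.congr fun n => ?_⟩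
    rw [hμk, z_eq_rc hy0 (D := US) (fun E hE => ⟨fun h => h.2, fun h => ⟨hE, h⟩⟩) n,
      decomp_US hT1 hT2, rc_add f1 (mul_ne_top' (mul_ne_top' f2 huf) f3),
      rc_mul (mul_ne_top' f2 huf) f3]
    have h1 : rc (sset (BotSet L M ∩ US) lE (wE Y) * uS L M Y) =
        conv (rc (sset (BotSet L M ∩ US) lE (wE Y))) (rc (uS L M Y)) :=
      funext fun n => rc_mul f2 huf n
    rw [h1]
  · intro K hK ⟨E, hE, hET⟩
    have hT4 := typeStatement hT1
    obtain ⟨A0, m, hm, hU, hLo, hT, hST⟩ := capStatement hT1 hT2 hT4 L M E hL hE.1 hET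
    have hmid := exists_mid (M := M) (L := L) hT1 hT2 hK m.toNat A0 m le_rfl hm hU hLo hT
      (hE.2.trans hST)
    obtain ⟨rK, hrK, hrK'⟩ := hpK K hK
    obtain ⟨-, A, B, hA, hEx⟩ := main (KS K) ⟨rK, hrK, hrK'⟩ hmid
    have hrK0 : 0 < rK := hρ.trans hrK
    obtain ⟨b1, b2, b3, b4⟩ := tC (KS K) _ hrK0 hrK'
    have g1 := coeff_ne_top hrK0 b1
    have g2 := coeff_ne_top hrK0 b2
    have g3 := coeff_ne_top hrK0 b3
    have g4 := coeff_ne_top hrK0 b4
    refine ⟨A / 2, B, by positivity, hEx.congr fun n => ?_⟩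
    have m1 := mul_ne_top' (mul_ne_top' g2 huf) f3
    have m2 := mul_ne_top' (mul_ne_top' f2 huf) g3
    have m3' := mul_ne_top' (mul_ne_top' f2 huf) g4
    have m3 := mul_ne_top' (mul_ne_top' m3' huf) f3
    have h1 : rc (sset (BotSet L M ∩ US) lE (wE Y) * uS L M Y) =
        conv (rc (sset (BotSet L M ∩ US) lE (wE Y))) (rc (uS L M Y)) :=
      funext fun n => rc_mul f2 huf n
    have h2 : rc (sset (BotSet L M ∩ KS K) lE (wE Y) * uS L M Y) =
        conv (rc (sset (BotSet L M ∩ KS K) lE (wE Y))) (rc (uS L M Y)) :=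
      funext fun n => rc_mul g2 huf n
    have h3 : rc (sset (BotSet L M ∩ US) lE (wE Y) * uS L M Y *
        sset (MidSet L M ∩ KS K) lB (wB Y)) =
        conv (conv (rc (sset (BotSet L M ∩ US) lE (wE Y))) (rc (uS L M Y)))
          (rc (sset (MidSet L M ∩ KS K) lB (wB Y))) := by
      funext n
      rw [rc_mul (mul_ne_top' f2 huf) g4, h1]
    have h4 : rc (sset (BotSet L M ∩ US) lE (wE Y) * uS L M Y *
        sset (MidSet L M ∩ KS K) lB (wB Y) * uS L M Y) =
        conv (conv (conv (rc (sset (BotSet L M ∩ US) lE (wE Y))) (rc (uS L M Y)))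
          (rc (sset (MidSet L M ∩ KS K) lB (wB Y)))) (rc (uS L M Y)) := by
      funext n
      rw [rc_mul m3' huf, h3]
    rw [hμk, z_eq_rc hy0 (D := KS K) (fun E hE => ⟨fun h => h.2, fun h => ⟨hE, h⟩⟩) n,
      decomp_KS hT1 hT2 hK, rc_add (add_ne_top' (add_ne_top' g1 m1) m2) m3,
      rc_add (add_ne_top' g1 m1) m2, rc_add g1 m1,
      rc_mul (mul_ne_top' g2 huf) f3, rc_mul (mul_ne_top' f2 huf) g3,
      rc_mul (mul_ne_top' m3' huf) f3, h1, h2, h4]
    push_cast
    ring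

end Pool.Agent.KTube
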