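import Pool.Agent.KTube.Renew
import Pool.Agent.KTube.BootG

/-! The main theorem for tubes and general types. -/

set_option autoImplicit false

open scoped ENNReal
open Finset Pool.Agent.LatticeTube

namespace Pool.Agent.KTube

open Pool.Agent.LK

variable {A B S E : Finset (Sym2 P3)} {k i j : ℤ} {L M : ℕ} {C : Set (Finset (Sym2 P3))}
  {Y : ℝ≥0∞} {y ρ : ℝ}

/-! ### The bottom piece as a context -/

/-- The bottom piece, moved to the plane `1/2`. -/
noncomputable def nrm (A : Finset (Sym2 P3)) : Finset (Sym2 P3) := shift (0, 0, -(lev A)) A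

theorem isCtx_nrm (hA : A ∈ BotSet L M) : IsCtx L M (nrm A) := by
  obtain ⟨⟨hP, hT, hG⟩, -, k, hk, hA, hu⟩ := hA
  unfold nrm
  rw [hA.lev_eq]
  refine ⟨?_, (inTube_shift _).2 hT⟩
  have := isLow_shift_add (t := -k) hA
  rwa [add_neg_cancel] at this

theorem comp_mem_bot (hC : ∀ E F, SameType E F → E ∈ C → F ∈ C) (hA : A ∈ BotSet L M) :
    comp (A, B) ∈ C ↔ B ∈ cl C (nrm A) := by
  obtain ⟨⟨hP, hT, hG⟩, -, k, hk, hA, hu⟩ := hA
  have h1 : glue (nrm A) B 0 = shift (0, 0, -k) (glue A (shift (0, 0, k) B) k) := by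
    unfold nrm
    rw [hA.lev_eq, shift_glue (-k) A, shift_shift]
    have e1 : (((0, 0, -k) : P3) + (0, 0, k)) = 0 := by simp
    rw [e1, shift_zero, add_neg_cancel]
  unfold cl
  rw [Set.mem_ofPred_eq, h1, comp_eq hA, class_shift_iff hC]

theorem UK_disj (hT2 : CutStatement) {m n : ℕ} (h : m ≠ n) :
    Disjoint (UK L M C m A) (UK L M C n A) := by
  rw [Set.disjoint_left]
  rintro B ⟨-, h1⟩ ⟨-, h2⟩
  exact h (h1.unique hT2 h2)

theorem sset_UK (hT2 : CutStatement) : ∀ N : ℕ,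
    sset {B | ∃ n, n < N ∧ B ∈ UK L M C n A} lB (wB Y) = ∑ n ∈ range N, FF L M C Y n A := by
  intro N
  induction N with
  | zero =>
    have h : {B | ∃ n, n < 0 ∧ B ∈ UK L M C n A} = (∅ : Set (Finset (Sym2 P3))) := by
      rw [Set.eq_empty_iff_forall_notMem]
      rintro B ⟨n, hn, -⟩
      omega
    rw [h, sset_empty, range_zero, sum_empty]
  | succ N ih =>
    have h : {B | ∃ n, n < N + 1 ∧ B ∈ UK L M C n A} =
        {B | ∃ n, n < N ∧ B ∈ UK L M C n A} ∪ UK L M C N A := by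
      ext B
      constructor
      · rintro ⟨n, hn, hB⟩
        rcases Nat.lt_succ_iff_lt_or_eq.1 hn with h1 | rfl
        · exact Or.inl ⟨n, h1, hB⟩
        · exact Or.inr hB
      · rintro (⟨n, hn, hB⟩ | hB)
        · exact ⟨n, by omega, hB⟩
        · exact ⟨N, by omega, hB⟩
    rw [h, sset_union, ih, sum_range_succ]
    · rfl
    · rw [Set.disjoint_left]
      rintro B ⟨n, hn, hB⟩ hB'
      exact (Set.disjoint_left.1 (UK_disj hT2 (show n ≠ N by omega)) hB) hB'

theorem klen_le (hT1 : StretchStatement) {n : ℕ} (h : KLen (n + 1) E) : KLen n E := by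
  induction n generalizing E with
  | zero => exact KLen.zero _
  | succ n ih =>
    generalize hm : n + 1 + 1 = m at h
    cases h with
    | zero => omega
    | one E h1 => omega
    | succ m' A B k hA hB h1 h2 =>
      have hmn : m' = n := by omega
      subst hmn
      cases m' with
      | zero =>
        refine KLen.one _ fun hU => h1 (((typeStatement hT1 A B k hA hB).1.1 hU).1)
      | succ m' =>
        exact KLen.succ m' A B k hA hB h1 (ih h2)

theorem klen_mono (hT1 : StretchStatement) {n m : ℕ} (hmn : m ≤ n) (h : KLen n E) : KLen m E := by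
  induction n, hmn using Nat.le_induction with
  | base => exact h
  | succ n _ ih => exact ih (klen_le hT1 h)

theorem mK_le (hT1 : StretchStatement) (hT2 : CutStatement) {N n : ℕ} (hN : FinLen C N)
    (hA : IsCtx L M A) (hB : MK L M n B) (h : B ∈ cl C A) : n ≤ N := by
  by_contra hlt
  rw [not_le] at hlt
  have hBu := hB.upp hT2
  exact hN _ (isPolygon_glue hA.1 hBu.1) h
    (klen_mono hT1 hlt ((hB.klen hT1 hT2).glue_upp hT1 hA.1 hBu.1))

theorem sset_cl (hT1 : StretchStatement) (hT2 : CutStatement) {N : ℕ} (hN : FinLen C N)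
    (hA : IsCtx L M A) : sset (UppSet L M ∩ cl C A) lB (wB Y) =
      ∑ n ∈ range (N + 1), FF L M C Y n A := by
  rw [← sset_UK hT2]
  congr 1
  ext B
  constructor
  · rintro ⟨h1, h2⟩
    obtain ⟨n, hn⟩ := exists_MK hT2 _ B le_rfl h1
    exact ⟨n, Nat.lt_succ_of_le (mK_le hT1 hT2 hN hA hn h2), h2, hn⟩
  · rintro ⟨n, -, h1, h2⟩
    exact ⟨h2.upp hT2, h1⟩

/-- The part with exactly `n` knotted middle pieces. -/
noncomputable def WW (L M : ℕ) (C : Set (Finset (Sym2 P3))) (Y : ℝ≥0∞) (n : ℕ) :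
    PowerSeries ℝ≥0∞ :=
  tS (BotSet L M) fun A => mon (lE A) (wE Y A) * FF L M C Y n (nrm A)

theorem decomp_C (hT1 : StretchStatement) (hT2 : CutStatement)
    (hC : ∀ E F, SameType E F → E ∈ C → F ∈ C) {N : ℕ} (hN : FinLen C N) :
    sset (PSet L M ∩ C) lE (wE Y) = sset (FreeSet L M ∩ C) lE (wE Y) +
      ∑ n ∈ range (N + 1), WW L M C Y n := by
  have h1 : PSet L M ∩ C = (FreeSet L M ∩ C) ∪
      comp '' {p | p.1 ∈ BotSet L M ∧ p.2 ∈ UppSet L M ∩ cl C (nrm p.1)} := by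
    ext E
    constructor
    · rintro ⟨h2, h3⟩
      rw [pSet_eq] at h2
      rcases h2 with h2 | h2
      · exact Or.inl ⟨h2, h3⟩
      · obtain ⟨⟨A, B⟩, ⟨hA, hB⟩, rfl⟩ := (bij_bot hT2).surjOn h2
        exact Or.inr ⟨(A, B), ⟨hA, hB, (comp_mem_bot hC hA).1 h3⟩, rfl⟩
    · rintro (⟨h2, h3⟩ | ⟨⟨A, B⟩, ⟨hA, hB, hcl⟩, rfl⟩)
      · refine ⟨?_, h3⟩
        rw [pSet_eq]
        exact Or.inl h2
      · refine ⟨?_, (comp_mem_bot hC hA).2 hcl⟩
        rw [pSet_eq]
        exact Or.inr ((bij_bot hT2).mapsTo (Set.mk_mem_prod hA hB))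
  rw [h1, sset_union]
  · congr 1
    have h2 : sset (comp '' {p | p.1 ∈ BotSet L M ∧ p.2 ∈ UppSet L M ∩ cl C (nrm p.1)}) lE (wE Y) =
        sset {p : Finset (Sym2 P3) × Finset (Sym2 P3) | p.1 ∈ BotSet L M ∧
          p.2 ∈ UppSet L M ∩ cl C (nrm p.1)}
          (fun p => lE p.1 + lB p.2) fun p => wE Y p.1 * wB Y p.2 := by
      have hsub : {p : Finset (Sym2 P3) × Finset (Sym2 P3) | p.1 ∈ BotSet L M ∧
          p.2 ∈ UppSet L M ∩ cl C (nrm p.1)} ⊆
          BotSet L M ×ˢ UppSet L M := fun p hp => ⟨hp.1, hp.2.1⟩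
      refine (sset_bij (((bij_bot hT2).injOn.mono hsub).bijOn_image) ?_ ?_).symm
      · rintro ⟨A, B⟩ h
        obtain ⟨k, hk⟩ := exists_low_of_bot h.1
        exact lE_comp hk h.2.1.1
      · rintro ⟨A, B⟩ h
        obtain ⟨k, hk⟩ := exists_low_of_bot h.1
        exact wE_comp hk h.2.1.1
    rw [h2, sset_fib (BotSet L M) (fun A => UppSet L M ∩ cl C (nrm A)) lE (wE Y) lB (wB Y)]
    unfold WW
    rw [← tS_sum]
    refine tS_congr fun A hA => ?_
    rw [sset_cl hT1 hT2 hN (isCtx_nrm hA), mul_sum]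
  · rw [Set.disjoint_left]
    rintro E ⟨h2, -⟩ ⟨⟨A, B⟩, ⟨hA, hB, hcl⟩, rfl⟩
    obtain ⟨-, -, k, hk, hV⟩ := (bij_bot hT2).mapsTo (Set.mk_mem_prod hA hB)
    exact h2.2 k hV

/-- The coefficients of the expansion, summed over the bottom pieces. -/
noncomputable def SS (L M : ℕ) (C : Set (Finset (Sym2 P3))) (Y : ℝ≥0∞) (n a : ℕ) :
    PowerSeries ℝ≥0∞ :=
  tS (BotSet L M ∩ SubL L M C) fun A => mon (lE A) (wE Y A) * cf L M C Y n a (nrm A)

theorem wW_eq (hT1 : StretchStatement) (hT2 : CutStatement) (hMid : MiddleStatement)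
    (hC : ∀ E F, SameType E F → E ∈ C → F ∈ C) (n : ℕ) : WW L M C Y n =
      ∑ a ∈ range (n + 2), SS L M C Y n a * (uE L M Y ^ a * uO L M Y ^ (n + 1 - a)) := by
  have h1 : WW L M C Y n = tS (BotSet L M ∩ SubL L M C) fun A =>
      mon (lE A) (wE Y A) * FF L M C Y n (nrm A) := by
    refine tS_subset Set.inter_subset_left ?_
    intro A hA hA'
    have h2 : UK L M C n (nrm A) = ∅ := by
      rw [Set.eq_empty_iff_forall_notMem]
      rintro B ⟨h3, h4⟩
      have hB := h4.upp hT2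
      refine hA' ⟨hA, ?_⟩
      have h5 := (comp_mem_bot hC hA).2 h3
      obtain ⟨⟨hP, hT, hG⟩, -, k, hk, hAl, hu⟩ := hA
      rw [comp_eq hAl] at h5
      exact ⟨shift (0, 0, k) B, k, (inTube_shift _).2 hB.2, hAl, isUpp_shift_self hB.1 k, h5⟩
    unfold FF
    rw [h2, sset_empty, mul_zero]
  rw [h1]
  have h2 : ∀ A ∈ BotSet L M ∩ SubL L M C, mon (lE A) (wE Y A) * FF L M C Y n (nrm A) =
      ∑ a ∈ range (n + 2), mon (lE A) (wE Y A) * cf L M C Y n a (nrm A) *
        (uE L M Y ^ a * uO L M Y ^ (n + 1 - a)) := fun A hA => by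
    rw [ff_expand hT1 hT2 hMid hC n _ (isCtx_nrm hA.1), mul_sum]
    exact sum_congr rfl fun a _ => (mul_assoc _ _ _).symm
  rw [tS_congr h2, tS_sum (range (n + 2)) fun a A => mon (lE A) (wE Y A) *
    cf L M C Y n a (nrm A) * (uE L M Y ^ a * uO L M Y ^ (n + 1 - a))]
  exact sum_congr rfl fun a _ => tS_mul_right _

theorem leS_SS (n a : ℕ) : LeS (SS L M C Y n a)
    (sset (BotSet L M ∩ SubL L M C) lE (wE Y) * KK L M C Y n) := by
  rw [sset_eq_tS, ← tS_mul_right]
  exact tS_le fun A hA => LeS.mul (LeS.refl _) (leS_cf n a _ (isCtx_nrm hA.1))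

theorem pLk_finset {d : ℕ} (I : Finset ℕ) (f : ℕ → PowerSeries ℝ) (B : ℕ → ℝ)
    (h : ∀ i ∈ I, PLk d (B i) (f i)) : PLk d (∑ i ∈ I, B i) (∑ i ∈ I, f i) := by
  classical
  induction I using Finset.induction_on with
  | empty =>
    rw [sum_empty, sum_empty]
    exact isSm_zero.pLk d
  | insert i I hi ih =>
    rw [sum_insert hi, sum_insert hi]
    exact (h i (mem_insert_self _ _)).add (ih fun j hj => h j (mem_insert_of_mem hj))

/-- **The main theorem for a tube and a general class.** -/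
theorem tube_gen (hT1 : StretchStatement) (hT2 : CutStatement) (hMid : MiddleStatement)
    (hL : 1 ≤ L) (hy : 1 ≤ y) (hgap : Gap L M y) (hB : BootData L M y ρ)
    (hC : ∀ E F, SameType E F → E ∈ C → F ∈ C) {N : ℕ} (hN : FinLen C N) {d : ℕ}
    (hd : ∃ A B, A ∈ BotSet L M ∧ MK L M d B ∧ comp (A, B) ∈ C)
    (hmax : ∀ A B n, A ∈ BotSet L M → MK L M n B → comp (A, B) ∈ C → n ≤ d) :
    ∃ p : Polynomial ℝ, p.natDegree = d ∧ 0 < p.leadingCoeff ∧ ExpSmall fun n =>
      rc (sset (PSet L M ∩ C) lE (wE (ENNReal.ofReal y))) n * ρ ^ n - p.eval (n : ℝ) := by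
  have hy0 : 0 < y := one_pos.trans_le hy
  obtain ⟨fE, fO, κ, κ', hκ, hκ', hκO, cE, cO⟩ := renew hT1 hL hy0 hB
  obtain ⟨r, hr, hr1, hr2⟩ := bootG hT1 hT2 hL hy hgap hB hC hN
  have hρ := hB.pos
  have hr0 : 0 < r := hρ.trans hr
  set Y := ENNReal.ofReal y with hY
  have hY0 : Y ≠ 0 := by simpa [hY] using hy0
  -- finiteness of the pieces
  have eF : evs (sset (FreeSet L M ∩ C) lE (wE Y)) (ENNReal.ofReal r) < ∞ := by
    rw [evs_sset]
    exact (gx_subset (Set.inter_subset_inter freeSet_good Set.subset_union_left) r).trans_lt hr1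
  have eB : evs (sset (BotSet L M ∩ SubL L M C) lE (wE Y)) (ENNReal.ofReal r) < ∞ := by
    rw [evs_sset]
    exact (gx_subset (Set.inter_subset_inter botSet_good Set.subset_union_right) r).trans_lt hr1
  have eT : evs (sset (TpSet L M C) lB (wB Y)) (ENNReal.ofReal r) < ∞ := by
    rw [evs_sset]
    refine gB_lt_top (fun E hE => uppSet_bounds hE.1.1) hy0 hr0 ?_
    refine (gx_subset ?_ r).trans_lt hr2
    exact fun E hE => ⟨topSet_good hE.1, hE.2⟩
  have eK : evs (sset (KnSet L M C) lB (wB Y)) (ENNReal.ofReal r) < ∞ := by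
    rw [evs_sset]
    refine gB_lt_top (fun E hE => uppSet_bounds (midSet_upp hE.1)) hy0 hr0 ?_
    refine (gx_subset ?_ r).trans_lt hr2
    exact fun E hE => ⟨midSet_good hE.1, Or.inr hE.2.1⟩
  have eS : ∀ n a, evs (SS L M C Y n a) (ENNReal.ofReal r) < ∞ := fun n a => by
    refine ((leS_SS n a).evs _).trans_lt ?_
    rw [evs_mul]
    exact ENNReal.mul_lt_top eB (kK_lt_top eT eK n)
  have fF : Fin' (sset (FreeSet L M ∩ C) lE (wE Y)) := coeff_ne_top hr0 eF
  have fS : ∀ n a, Fin' (SS L M C Y n a) := fun n a => coeff_ne_top hr0 (eS n a)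
  have fterm : ∀ n a, Fin' (SS L M C Y n a * (uE L M Y ^ a * uO L M Y ^ (n + 1 - a))) :=
    fun n a => (fS n a).mul ((fE.pow _).mul (fO.pow _))
  have fW : ∀ n, Fin' (WW L M C Y n) := fun n => by
    rw [wW_eq hT1 hT2 hMid hC]
    exact fin'_sum _ _ fun a _ => fterm n a
  -- the parts
  have hW : ∀ n, PLk n (∑ a ∈ range (n + 2), tot (nr ρ (SS L M C Y n a)) * κ ^ a *
      κ' ^ (n + 1 - a)) (nr ρ (WW L M C Y n)) := by
    intro n
    rw [wW_eq hT1 hT2 hMid hC, nr_sum _ _ fun a _ => fterm n a]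
    refine pLk_finset _ _ _ fun a ha => ?_
    rw [mem_range] at ha
    rw [nr_mul (fS n a) ((fE.pow _).mul (fO.pow _)), nr_mul (fE.pow _) (fO.pow _), nr_pow fE,
      nr_pow fO]
    have h1 := pLk_prod (isSm_nr hρ hr (eS n a)) cE cO a (n + 1 - a) (by omega)
    have h2 : a + (n + 1 - a) - 1 = n := by omega
    rw [h2] at h1
    exact h1.congr rfl (mul_assoc _ _ _)
  -- the parts beyond `d` vanish
  have hWz : ∀ n, d < n → WW L M C Y n = 0 := by
    intro n hn
    refine tS_eq_zero fun A hA => ?_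
    have h2 : UK L M C n (nrm A) = ∅ := by
      rw [Set.eq_empty_iff_forall_notMem]
      rintro B ⟨h3, h4⟩
      have := hmax A B n hA h4 ((comp_mem_bot hC hA).2 h3)
      omega
    unfold FF
    rw [h2, sset_empty, mul_zero]
  have hdN : d ≤ N := by
    obtain ⟨A, B, hA, hM, hc⟩ := hd
    exact mK_le hT1 hT2 hN (isCtx_nrm hA) hM ((comp_mem_bot hC hA).1 hc)
  have hsum : ∑ n ∈ range (N + 1), WW L M C Y n = ∑ n ∈ range (d + 1), WW L M C Y n := by
    symm
    refine sum_subset (fun n hn => ?_) fun n _ hn => ?_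
    · rw [mem_range] at *
      omega
    · rw [mem_range] at hn
      exact hWz n (by omega)
  -- the leading coefficient
  have hWd : WW L M C Y d ≠ 0 := by
    obtain ⟨A, B, hA, hM, hc⟩ := hd
    intro h
    have h1 := congrArg (PowerSeries.coeff (lE A + lB B)) h
    unfold WW at h1
    rw [coeff_tS, map_zero, ENNReal.tsum_eq_zero] at h1
    have h2 := h1 ⟨A, hA⟩
    rw [PowerSeries.coeff_mul, sum_eq_zero_iff] at h2
    have h3 := h2 (lE A, lB B) (by rw [HasAntidiagonal.mem_antidiagonal])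
    rw [mul_eq_zero] at h3
    rcases h3 with h3 | h3
    · unfold mon at h3
      rw [coeff_ser, ENNReal.tsum_eq_zero] at h3
      have := h3 ()
      rw [if_pos rfl] at this
      exact pow_ne_zero _ hY0 this
    · unfold FF sset at h3
      rw [coeff_ser, ENNReal.tsum_eq_zero] at h3
      have := h3 ⟨B, (comp_mem_bot hC hA).1 hc, hM⟩
      rw [if_pos rfl] at this
      exact pow_ne_zero _ hY0 this
  have hpos : 0 < ∑ a ∈ range (d + 2), tot (nr ρ (SS L M C Y d a)) * κ ^ a *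
      κ' ^ (d + 1 - a) := by
    rw [wW_eq hT1 hT2 hMid hC] at hWd
    obtain ⟨a, ha, hne⟩ := exists_ne_zero_of_sum_ne_zero hWd
    have h1 : SS L M C Y d a ≠ 0 := left_ne_zero_of_mul hne
    have h2 : uO L M Y ^ (d + 1 - a) ≠ 0 := right_ne_zero_of_mul (right_ne_zero_of_mul hne)
    refine sum_pos' (fun b _ => ?_) ⟨a, ha, ?_⟩
    · exact mul_nonneg (mul_nonneg (tot_nr_nonneg hρ) (by positivity)) (by positivity)
    · refine mul_pos (mul_pos (tot_nr_pos hρ hr (eS d a) h1) (by positivity)) ?_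
      rcases Nat.eq_zero_or_pos (d + 1 - a) with h3 | h3
      · rw [h3, pow_zero]
        exact one_pos
      · refine pow_pos (hκO fun h4 => h2 ?_) _
        rw [h4, zero_pow h3.ne']
  -- the total
  have htot : PLk d (∑ a ∈ range (d + 2), tot (nr ρ (SS L M C Y d a)) * κ ^ a *
      κ' ^ (d + 1 - a)) (nr ρ (sset (PSet L M ∩ C) lE (wE Y))) := by
    rw [decomp_C hT1 hT2 hC hN, hsum, nr_add fF (fin'_sum _ _ fun n _ => fW n),
      nr_sum _ _ fun n _ => fW n]
    have h1 := ((isSm_nr hρ hr eF).pLk d).add (pLk_sum d (fun n => nr ρ (WW L M C Y n)) _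
      fun n _ => hW n)
    rwa [zero_add] at h1
  obtain ⟨p, hp1, hp2, hp3⟩ := htot.exists_poly
  have hp4 : 0 < p.coeff d := by
    rw [hp2]
    exact div_pos hpos (by exact_mod_cast Nat.factorial_pos d)
  have hp5 : p.natDegree = d := le_antisymm hp1 (Polynomial.le_natDegree_of_ne_zero hp4.ne')
  refine ⟨p, hp5, ?_, ?_⟩
  · rw [Polynomial.leadingCoeff, hp5]
    exact hp4
  · exact ExpSmall.congr hp3 fun n => by rw [coeff_nr]

end Pool.Agent.KTube
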