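import Pool.Agent.KTube.GapSmall
import Pool.Agent.LatticeTube.WGrid32
import Pool.Agent.LatticeTube.WGrid33

/-! The gap property under moderate tension. Nontrivial knots need `2 ≤ L, 1 ≤ M` (or the
reflected tube). -/

set_option autoImplicit false

namespace Pool.Agent.KTube

/-- The tubes and the forces covered. -/
def Covered (L M : ℕ) (y : ℝ) : Prop :=
  (58 ≤ y ∧ 1 ≤ L) ∨ (29 ≤ y ∧ 2 ≤ L ∧ 1 ≤ M) ∨ (23 ≤ y ∧ 2 ≤ L ∧ 2 ≤ M) ∨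
    (1 ≤ y ∧ ((L = 2 ∧ M = 1) ∨ (L = 3 ∧ M = 1) ∨ (L = 2 ∧ M = 2)))

theorem Covered.one_le {L M : ℕ} {y : ℝ} (h : Covered L M y) : 1 ≤ L ∧ 1 ≤ y := by
  rcases h with ⟨h, h'⟩ | ⟨h, h', _⟩ | ⟨h, h', _⟩ | ⟨h, ⟨h', _⟩ | ⟨h', _⟩ | ⟨h', _⟩⟩
  · exact ⟨h', by linarith⟩
  · exact ⟨by omega, by linarith⟩
  · exact ⟨by omega, by linarith⟩
  · exact ⟨by omega, h⟩
  · exact ⟨by omega, h⟩
  · exact ⟨by omega, h⟩

theorem Covered.gap {L M : ℕ} {y : ℝ} (h : Covered L M y) : Gap L M y := by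
  have h1 := h.one_le
  rcases h with ⟨h, h'⟩ | ⟨h, h', h''⟩ | ⟨h, h', h''⟩ | ⟨h, h'⟩
  · exact gap_tension h' h
  · refine gap_of (LatticeTube.G6.gapW32 ?_ h)
    intro c hc
    rw [mem_rectB (L := 2) (M := 1)] at hc
    rw [mem_rectB]
    omega
  · refine gap_of (LatticeTube.G6.gapW33 ?_ h)
    intro c hc
    rw [mem_rectB (L := 2) (M := 2)] at hc
    rw [mem_rectB]
    omega
  · exact gap_all h1.1 (Or.inr ⟨h, h'⟩)

end Pool.Agent.KTube
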