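import Pool.Agent.KTube.Gap
import Pool.Agent.LatticeTube.Grid32
import Pool.Agent.LatticeTube.Grid42
import Pool.Agent.LatticeTube.Grid33

/-! The gap property: all tubes under a large tension, three small tubes under every tension. -/

set_option autoImplicit false

namespace Pool.Agent.KTube

/-- The tubes and the forces covered: every tube for `y ≥ 58`, and the tubes with `3 × 2`, `4 × 2`
and `3 × 3` columns for every `y ≥ 1`. -/
theorem gap_all {L M : ℕ} {y : ℝ} (hL : 1 ≤ L)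
    (h : 58 ≤ y ∨ (1 ≤ y ∧ ((L = 2 ∧ M = 1) ∨ (L = 3 ∧ M = 1) ∨ (L = 2 ∧ M = 2)))) :
    Gap L M y := by
  rcases h with h | ⟨h, ⟨rfl, rfl⟩ | ⟨rfl, rfl⟩ | ⟨rfl, rfl⟩⟩
  · exact gap_tension hL h
  · exact gap_of (LatticeTube.G6.gap32 h)
  · exact gap_of (LatticeTube.G6.gap42 h)
  · exact gap_of (LatticeTube.G6.gap33 h)

end Pool.Agent.KTube
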