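import Pool.Agent.KTube.Elem
import Pool.Agent.KTube.SlideDefs
import Pool.Agent.MP_aea6d5_co.Charts

/-! A lower part can be shrunk into a small box at the middle of the cap. -/

set_option autoImplicit false

open Set

namespace Pool.Agent.KTube

open Pool.Agent.LK

/-- The two legs. -/
def legS : Set R3 := {p | |p.1| = 1 / 2 ∧ p.2.1 = 0 ∧ 0 ≤ p.2.2 ∧ p.2.2 ≤ 1}

/-- The cap. -/
def capS : Set R3 := {p | |p.1| ≤ 1 / 2 ∧ p.2.1 = 0 ∧ p.2.2 = 0}

/-- The small box. -/
def boxS : Set R3 := {p | |p.1| ≤ 1 / 32 ∧ |p.2.1| ≤ 1 / 32 ∧ |p.2.2| ≤ 1 / 32}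

/-- Scaling factor. -/
noncomputable def sS (ε w : ℝ) : ℝ := ε + (1 - ε) * max 0 (min 1 (2 * w))

theorem sS_pos {ε : ℝ} (h0 : 0 < ε) (h1 : ε ≤ 1) (w : ℝ) : 0 < sS ε w := by
  unfold sS
  have : 0 ≤ (1 - ε) * max 0 (min 1 (2 * w)) := mul_nonneg (by linarith) (le_max_left _ _)
  linarith

theorem sS_low {ε w : ℝ} (hw : w ≤ 0) : sS ε w = ε := by
  unfold sS
  rw [min_eq_right (by linarith), max_eq_left (by linarith)]
  ring

theorem sS_mid {ε w : ℝ} (hw : 0 ≤ w) (hw' : w ≤ 1 / 2) : sS ε w = ε + (1 - ε) * (2 * w) := by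
  unfold sS
  rw [min_eq_right (by linarith), max_eq_right (by linarith)]

theorem sS_high {ε w : ℝ} (hw : 1 / 2 ≤ w) : sS ε w = 1 := by
  unfold sS
  rw [min_eq_left (by linarith), max_eq_right (by linarith)]
  ring

/-- Shrinking the levels. -/
noncomputable def levH {ε : ℝ} (h0 : 0 < ε) (h1 : ε ≤ 1) : R3 ≃ₜ R3 where
  toFun p := (sS ε p.2.2 * p.1, sS ε p.2.2 * p.2.1, p.2.2)
  invFun p := ((sS ε p.2.2)⁻¹ * p.1, (sS ε p.2.2)⁻¹ * p.2.1, p.2.2)
  left_inv p := by
    have := (sS_pos h0 h1 p.2.2).ne'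
    refine Prod.ext ?_ (Prod.ext ?_ rfl)
    · simp only
      field_simp
    · simp only
      field_simp
  right_inv p := by
    have := (sS_pos h0 h1 p.2.2).ne'
    refine Prod.ext ?_ (Prod.ext ?_ rfl)
    · simp only
      field_simp
    · simp only
      field_simp
  continuous_toFun := by
    unfold sS
    fun_prop
  continuous_invFun := by
    have h : Continuous fun p : R3 => (sS ε p.2.2)⁻¹ := by
      refine Continuous.inv₀ ?_ (fun p => (sS_pos h0 h1 p.2.2).ne')
      unfold sS
      fun_prop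
    fun_prop

theorem strictMono_zeta {ε : ℝ} (h0 : 0 < ε) : StrictMono fun w : ℝ => max (ε * w) w := by
  intro a b hab
  exact max_lt_max (by nlinarith) hab

theorem surjective_zeta {ε : ℝ} (h0 : 0 < ε) (h1 : ε ≤ 1) :
    Function.Surjective fun w : ℝ => max (ε * w) w := by
  intro y
  rcases le_or_gt 0 y with h | h
  · exact ⟨y, max_eq_right (by nlinarith)⟩
  · refine ⟨y / ε, ?_⟩
    have h2 : ε * (y / ε) = y := by field_simp
    simp only
    rw [h2]
    apply max_eq_left
    rw [div_le_iff₀ h0]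
    nlinarith

/-- The depth of the fold. -/
noncomputable def betaS (ε x : ℝ) : ℝ := max 0 (min (1 / 2) ((2 * |x| - ε) / (2 * (1 - ε))))

theorem betaS_nonneg (ε x : ℝ) : 0 ≤ betaS ε x := le_max_left _ _

theorem betaS_le (ε x : ℝ) : betaS ε x ≤ 1 / 2 := max_le (by norm_num) (min_le_left _ _)

/-- The cut-off function of the fold. -/
noncomputable def wS (w : ℝ) : ℝ := max 0 (min 1 (2 - 2 * w))

theorem wS_anti : Antitone wS := fun a b hab =>
  max_le_max le_rfl (min_le_min le_rfl (by linarith))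

theorem wS_nonneg (w : ℝ) : 0 ≤ wS w := le_max_left _ _

theorem wS_le (w : ℝ) : wS w ≤ 1 := max_le (by norm_num) (min_le_left _ _)

theorem wS_low {w : ℝ} (hw : w ≤ 1 / 2) : wS w = 1 := by
  unfold wS
  rw [min_eq_left (by linarith), max_eq_right (by linarith)]

theorem wS_mid {w : ℝ} (hw : 1 / 2 ≤ w) (hw' : w ≤ 1) : wS w = 2 - 2 * w := by
  unfold wS
  rw [min_eq_right (by linarith), max_eq_right (by linarith)]

theorem wS_high {w : ℝ} (hw : 1 ≤ w) : wS w = 0 := by
  unfold wS
  rw [max_eq_left]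
  exact (min_le_right _ _).trans (by linarith)

theorem exists_fold (ε : ℝ) : ∃ φ : R3 ≃ₜ R3, ∀ p, φ p =
    (p.1, p.2.1, p.2.2 + -betaS ε p.1 * wS p.2.2) := by
  obtain ⟨φ, hφ⟩ := exists_elemZ (fun q => -betaS ε q.1) (by
      unfold betaS
      fun_prop) wS (by unfold wS; fun_prop) (fun q => by
      intro a b hab
      have h1 := wS_anti hab.le
      have h2 := betaS_nonneg ε q.1
      simp only
      nlinarith) 1 (fun q x => by
      rw [abs_mul, abs_neg, abs_of_nonneg (betaS_nonneg _ _), abs_of_nonneg (wS_nonneg _)]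
      have h1 := betaS_le ε q.1
      have h2 := wS_le x
      have h3 := betaS_nonneg ε q.1
      have h4 := wS_nonneg x
      nlinarith)
  exact ⟨φ, hφ⟩

/-- The shrinking in standard position. -/
theorem hang_std {A' : Set R3} {N : ℝ} (hN : 1 ≤ N)
    (hA : ∀ p ∈ A', |p.1| ≤ N ∧ |p.2.1| ≤ N ∧ -N ≤ p.2.2 ∧ p.2.2 ≤ 0) :
    ∃ h : R3 ≃ₜ R3, (∀ p : R3, 1 ≤ p.2.2 → h p = p) ∧
      ∃ D : Set R3, D ⊆ boxS ∧ h '' (A' ∪ legS) = ((legS ∪ capS) \ boxS) ∪ D := by
  set ε : ℝ := 1 / (100 * N) with hε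
  have h0 : 0 < ε := by positivity
  have hεN : ε * N = 1 / 100 := by rw [hε]; field_simp
  have h1' : ε ≤ 1 / 100 := by nlinarith
  have h1 : ε ≤ 1 := by linarith
  obtain ⟨φ, hφ⟩ := exists_fold ε
  set ζ : ℝ ≃ₜ ℝ := homeoOf _ (strictMono_zeta h0) (surjective_zeta h0 h1) with hζ
  have hζa : ∀ w, ζ w = max (ε * w) w := fun w => rfl
  set V : R3 ≃ₜ R3 := (Homeomorph.refl ℝ).prodCongr ((Homeomorph.refl ℝ).prodCongr ζ) with hV
  set h : R3 ≃ₜ R3 := ((levH h0 h1).trans V).trans φ with hh
  have hha : ∀ p : R3, h p = (sS ε p.2.2 * p.1, sS ε p.2.2 * p.2.1,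
      max (ε * p.2.2) p.2.2 + -betaS ε (sS ε p.2.2 * p.1) * wS (max (ε * p.2.2) p.2.2)) := by
    intro p
    change φ (sS ε p.2.2 * p.1, sS ε p.2.2 * p.2.1, max (ε * p.2.2) p.2.2) = _
    rw [hφ]
  have hleg1 : ∀ x w : ℝ, |x| = 1 / 2 → 0 ≤ w → w ≤ 1 / 2 →
      h (x, 0, w) = (sS ε w * x, 0, 0) := by
    intro x w hx hw hw'
    have e1 : max (ε * w) w = w := max_eq_right (by nlinarith)
    have e2 : betaS ε (sS ε w * x) = w := by
      unfold betaS
      rw [abs_mul, hx, abs_of_pos (sS_pos h0 h1 w), sS_mid hw hw']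
      have e3 : (2 * ((ε + (1 - ε) * (2 * w)) * (1 / 2)) - ε) / (2 * (1 - ε)) = w := by
        have : (1 : ℝ) - ε ≠ 0 := by linarith
        field_simp
        ring
      rw [e3, min_eq_right hw', max_eq_right hw]
    rw [hha]
    simp only
    rw [e1, e2, wS_low hw']
    refine Prod.ext rfl (Prod.ext ?_ ?_)
    · simp
    · simp
  have hleg2 : ∀ x w : ℝ, |x| = 1 / 2 → 1 / 2 ≤ w → w ≤ 1 →
      h (x, 0, w) = (x, 0, 2 * w - 1) := by
    intro x w hx hw hw'
    have e1 : max (ε * w) w = w := max_eq_right (by nlinarith)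
    have e2 : betaS ε (sS ε w * x) = 1 / 2 := by
      unfold betaS
      rw [abs_mul, hx, sS_high hw]
      have e3 : (2 * (|(1 : ℝ)| * (1 / 2)) - ε) / (2 * (1 - ε)) = 1 / 2 := by
        have : (1 : ℝ) - ε ≠ 0 := by linarith
        rw [abs_one]
        field_simp
      rw [e3, min_self, max_eq_right (by norm_num)]
    rw [hha]
    simp only
    rw [e1, e2, wS_mid hw hw', sS_high hw]
    refine Prod.ext ?_ (Prod.ext ?_ ?_)
    · simp
    · simp
    · simp only
      ring
  have hlow : ∀ p ∈ A', h p ∈ boxS := by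
    intro p hp
    obtain ⟨a1, a2, a3, a4⟩ := hA p hp
    rw [hha, sS_low a4]
    have e1 : max (ε * p.2.2) p.2.2 = ε * p.2.2 := max_eq_left (by nlinarith)
    rw [e1, wS_low (by nlinarith)]
    have b1 : |ε * p.1| ≤ 1 / 100 := by
      rw [abs_mul, abs_of_pos h0, ← hεN]
      exact mul_le_mul_of_nonneg_left a1 h0.le
    have b2 : |ε * p.2.1| ≤ 1 / 100 := by
      rw [abs_mul, abs_of_pos h0, ← hεN]
      exact mul_le_mul_of_nonneg_left a2 h0.le
    have b3 : -(1 / 100) ≤ ε * p.2.2 := by
      rw [← hεN]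
      nlinarith
    have b4 : ε * p.2.2 ≤ 0 := by nlinarith
    have b5 : betaS ε (ε * p.1) ≤ 1 / 60 := by
      unfold betaS
      refine max_le (by norm_num) ((min_le_right _ _).trans ?_)
      rw [div_le_iff₀ (by linarith)]
      nlinarith
    have b6 := betaS_nonneg ε (ε * p.1)
    refine ⟨by simp only; linarith, by simp only; linarith, ?_⟩
    simp only
    rw [abs_le]
    constructor <;> nlinarith
  refine ⟨h, ?_, h '' (A' ∪ legS) ∩ boxS, inter_subset_right, ?_⟩
  · intro p hp
    rw [hha, sS_high (by linarith)]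
    have e1 : max (ε * p.2.2) p.2.2 = p.2.2 := max_eq_right (by nlinarith)
    rw [e1, wS_high hp]
    simp
  · ext q
    constructor
    · intro hq
      by_cases hb : q ∈ boxS
      · exact Or.inr ⟨hq, hb⟩
      · left
        obtain ⟨p, hp | hp, rfl⟩ := hq
        · exact absurd (hlow p hp) hb
        · refine ⟨?_, hb⟩
          obtain ⟨x, y, w⟩ := p
          obtain ⟨c1, c2, c3, c4⟩ := hp
          simp only at c1 c2 c3 c4
          subst c2
          rcases le_or_gt w (1 / 2) with hw | hw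
          · right
            rw [hleg1 x w c1 c3 hw]
            refine ⟨?_, rfl, rfl⟩
            simp only
            rw [abs_mul, c1, abs_of_pos (sS_pos h0 h1 w), sS_mid c3 hw]
            nlinarith
          · left
            rw [hleg2 x w c1 hw.le c4]
            exact ⟨c1, rfl, by simp only; linarith, by simp only; linarith⟩
    · rintro (⟨hq, hb⟩ | ⟨hq, -⟩)
      · obtain ⟨x, y, w⟩ := q
        rcases hq with ⟨c1, c2, c3, c4⟩ | ⟨c1, c2, c3⟩
        · simp only at c1 c2 c3 c4
          subst c2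
          refine ⟨(x, 0, (w + 1) / 2), Or.inr ⟨c1, rfl, by simp only; linarith,
            by simp only; linarith⟩, ?_⟩
          rw [hleg2 x _ c1 (by linarith) (by linarith)]
          refine Prod.ext rfl (Prod.ext rfl ?_)
          simp only
          ring
        · simp only at c1 c2 c3
          subst c2 c3
          have hx : 1 / 32 < |x| := by
            by_contra hcon
            push Not at hcon
            apply hb
            refine ⟨hcon, ?_, ?_⟩ <;> simp
          have hpos : (0 : ℝ) < 1 - ε := by linarith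
          set w0 : ℝ := (2 * |x| - ε) / (2 * (1 - ε)) with hw0
          have d1 : 0 ≤ w0 := div_nonneg (by linarith) (by linarith)
          have d2 : w0 ≤ 1 / 2 := by
            rw [hw0, div_le_iff₀ (by linarith)]
            linarith
          have d3 : sS ε w0 = 2 * |x| := by
            rw [sS_mid d1 d2, hw0]
            field_simp
            ring
          have hx0 : |x| ≠ 0 := by linarith
          refine ⟨(x / (2 * |x|), 0, w0), Or.inr ⟨?_, rfl, d1, by simp only; linarith⟩, ?_⟩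
          · simp only
            rw [abs_div, abs_mul, abs_abs, abs_of_pos (by norm_num : (0 : ℝ) < 2)]
            field_simp
          · have e0 : |x / (2 * |x|)| = 1 / 2 := by
              rw [abs_div, abs_mul, abs_abs, abs_of_pos (by norm_num : (0 : ℝ) < 2)]
              field_simp
            rw [hleg1 _ w0 e0 d1 d2, d3]
            refine Prod.ext ?_ rfl
            simp only
            field_simp
      · exact hq

end Pool.Agent.KTube
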