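import Pool.Agent.KTube.Detour

/-! Detours at many sections. -/

set_option autoImplicit false

namespace Pool.Agent.KTube

open Pool.Agent.LK

variable {E E' F : Finset (Sym2 P3)} {L M : ℕ}

theorem planes_finite (E : Finset (Sym2 P3)) : {k : ℤ | (cross E k).Nonempty}.Finite := by
  refine Set.Finite.subset ((verts_finite E).image fun u => u.2.2) ?_
  rintro k ⟨c, hc⟩
  exact ⟨_, left_mem_verts (mem_cross.1 hc), rfl⟩

theorem ground_nonneg (hG : Grounded E) {k : ℤ} (hk : (cross E k).Nonempty) : 0 ≤ k := by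
  obtain ⟨c, hc⟩ := hk
  exact hG.1 _ (left_mem_verts (mem_cross.1 hc))

theorem two_nonempty {k : ℤ} (h : IsTwo E k) : (cross E k).Nonempty := by
  rw [← Set.ncard_pos (cross_finite E k)]
  have : (cross E k).ncard = 2 := h
  omega

theorem InsFacts.span_le {k : ℤ} (h : InsFacts L M E F k) : span E ≤ span F := by
  unfold span
  refine Set.ncard_le_ncard_of_injOn (fun j => if j ≤ k then j else j + 2 * hgt L M) ?_ ?_
    (planes_finite F)
  · intro j hj
    simp only [Set.mem_ofPred_eq] at hj ⊢
    split_ifs with hjk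
    · rw [h.low j hjk]; exact hj
    · rw [h.high _ (by omega)]
      simpa using hj
  · intro i _ j _ hij
    simp only at hij
    have := hgt_pos L M
    split_ifs at hij <;> omega

/-- `E` with detours inserted at the planes in the list. -/
noncomputable def multi (L M : ℕ) (E : Finset (Sym2 P3)) (l : List ℤ) : Finset (Sym2 P3) :=
  l.foldr (fun k F => ins L M F k) E

/-- A polygon of the tube in which reference sections occur only as first or last section. -/
structure Good (L M : ℕ) (E : Finset (Sym2 P3)) : Prop where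
  poly : IsPolygon E
  tube : InTube L M E
  ground : Grounded E
  ext : ∀ j, IsV0 E j → j = 0 ∨ ∀ i, j < i → cross E i = ∅

/-- The properties of multiple insertion. -/
structure MultiFacts (L M : ℕ) (E F : Finset (Sym2 P3)) (l : List ℤ) : Prop where
  poly : IsPolygon F
  tube : InTube L M F
  type : SameType E F
  ground : Grounded E → Grounded F
  card : F.card ≤ E.card + 6 * hgt L M * l.length
  span : span E ≤ span F
  low : ∀ j, (∀ k ∈ l, j ≤ k) → cross F j = cross E j

theorem multi_facts (hS : StretchStatement) (hL : 1 ≤ L) (hE : IsPolygon E)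
    (hT : InTube L M E) : ∀ l : List ℤ, l.Pairwise (· < ·) →
    (∀ k ∈ l, IsTwo E k ∧ ¬ IsV0 E k) → MultiFacts L M E (multi L M E l) l
  | [], _, _ => ⟨hE, hT, SameType.refl E, id, by simp [multi], le_rfl, fun _ _ => rfl⟩
  | k :: l, hl, hk => by
    rw [List.pairwise_cons] at hl
    have ih := multi_facts hS hL hE hT l hl.2 fun i hi => hk i (List.mem_cons_of_mem _ hi)
    have hc : cross (multi L M E l) k = cross E k := ih.low k fun i hi => (hl.1 i hi).le
    obtain ⟨h2, h0⟩ := hk k (by simp)
    have h2' : IsTwo (multi L M E l) k := by unfold IsTwo; rw [hc]; exact h2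
    have h0' : ¬ IsV0 (multi L M E l) k := by unfold IsV0; rw [hc]; exact h0
    have hI := ins_facts hS hL ih.poly ih.tube h2' h0'
    have hm : multi L M E (k :: l) = ins L M (multi L M E l) k := rfl
    rw [hm]
    refine ⟨hI.poly, hI.tube, ih.type.trans hI.type, fun hG => hI.ground (ih.ground hG), ?_,
      ih.span.trans hI.span_le, ?_⟩
    · have := ih.card
      have := hI.card
      rw [List.length_cons, mul_add]
      omega
    · intro j hj
      rw [hI.low j (hj k (by simp)), ih.low j fun i hi => hj i (List.mem_cons_of_mem _ hi)]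

theorem multi_cons (hS : StretchStatement) (hL : 1 ≤ L) (hE : IsPolygon E)
    (hT : InTube L M E) {k : ℤ} {l : List ℤ} (hl : (k :: l).Pairwise (· < ·))
    (hk : ∀ i ∈ k :: l, IsTwo E i ∧ ¬ IsV0 E i) :
    IsPolygon (multi L M E l) ∧ InTube L M (multi L M E l) ∧
      (∀ j ≤ k, cross (multi L M E l) j = cross E j) ∧ IsTwo (multi L M E l) k ∧
      ¬ IsV0 (multi L M E l) k ∧ InsFacts L M (multi L M E l) (multi L M E (k :: l)) k := by
  rw [List.pairwise_cons] at hl
  have ih := multi_facts hS hL hE hT l hl.2 fun i hi => hk i (List.mem_cons_of_mem _ hi)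
  have hlow : ∀ j ≤ k, cross (multi L M E l) j = cross E j :=
    fun j hj => ih.low j fun i hi => hj.trans (hl.1 i hi).le
  have hc := hlow k le_rfl
  obtain ⟨h2, h0⟩ := hk k (by simp)
  have h2' : IsTwo (multi L M E l) k := by unfold IsTwo; rw [hc]; exact h2
  have h0' : ¬ IsV0 (multi L M E l) k := by unfold IsV0; rw [hc]; exact h0
  exact ⟨ih.poly, ih.tube, hlow, h2', h0', ins_facts hS hL ih.poly ih.tube h2' h0'⟩

/-- The first inserted detour creates a reference section which is neither the first nor the last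
section. -/
theorem multi_not_good (hS : StretchStatement) (hL : 1 ≤ L) (hE : Good L M E) {k : ℤ}
    {l : List ℤ} (hl : (k :: l).Pairwise (· < ·)) (hk : ∀ i ∈ k :: l, IsTwo E i ∧ ¬ IsV0 E i)
    (hF : ∀ j, IsV0 (multi L M E (k :: l)) j → j = 0 ∨
      ∀ i, j < i → cross (multi L M E (k :: l)) i = ∅) : False := by
  obtain ⟨-, -, hlow, h2', -, hI⟩ := multi_cons hS hL hE.poly hE.tube hl hk
  have hk0 : 0 ≤ k := ground_nonneg hE.ground (two_nonempty (hk k (by simp)).1)
  have hH := hgt_pos L M
  have hV : IsV0 (multi L M E (k :: l)) (k + hgt L M) :=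
    (hI.mid _ (by omega) (by omega)).2 rfl
  rcases hF _ hV with h1 | h1
  · omega
  · have h3 := h1 (k + 2 * hgt L M) (by omega)
    rw [hI.high _ le_rfl] at h3
    have h4 : k + 2 * (hgt L M : ℤ) - 2 * hgt L M = k := by ring
    rw [h4] at h3
    have := two_nonempty h2'
    rw [h3] at this
    exact Set.not_nonempty_empty this

theorem multi_not_lt (hS : StretchStatement) (hL : 1 ≤ L) (hE : Good L M E) (hE' : Good L M E')
    {k k' : ℤ} {l l' : List ℤ} (hl : (k :: l).Pairwise (· < ·)) (hl' : (k' :: l').Pairwise (· < ·))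
    (hk : ∀ i ∈ k :: l, IsTwo E i ∧ ¬ IsV0 E i) (hk' : ∀ i ∈ k' :: l', IsTwo E' i ∧ ¬ IsV0 E' i)
    (heq : multi L M E (k :: l) = multi L M E' (k' :: l')) : ¬ k < k' := by
  intro hlt
  obtain ⟨-, -, hlow, h2, h0, hI⟩ := multi_cons hS hL hE.poly hE.tube hl hk
  obtain ⟨-, -, hlow', h2', h0', hI'⟩ := multi_cons hS hL hE'.poly hE'.tube hl' hk'
  have hk0 : 0 ≤ k := ground_nonneg hE.ground (two_nonempty (hk k (by simp)).1)
  have hH := hgt_pos L M
  have hV : IsV0 (multi L M E' (k' :: l')) (k + hgt L M) := by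
    rw [← heq]
    exact (hI.mid _ (by omega) (by omega)).2 rfl
  by_cases hj : k + hgt L M ≤ k'
  · have hc : cross (multi L M E' (k' :: l')) (k + hgt L M) = cross E' (k + hgt L M) := by
      rw [hI'.low _ hj, hlow' _ hj]
    have hV' : IsV0 E' (k + hgt L M) := hc.symm.trans hV
    rcases eq_or_lt_of_le hj with h3 | h3
    · rw [h3] at hV'
      exact (hk' k' (by simp)).2 hV'
    · rcases hE'.ext _ hV' with h4 | h4
      · omega
      · have := two_nonempty (hk' k' (by simp)).1
        rw [h4 k' h3] at this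
        exact Set.not_nonempty_empty this
  · have := (hI'.mid (k + hgt L M) (by omega) (by omega)).1 hV
    omega

theorem multi_inj (hS : StretchStatement) (hL : 1 ≤ L) : ∀ (l l' : List ℤ)
    (E E' : Finset (Sym2 P3)), Good L M E → Good L M E' → l.Pairwise (· < ·) →
    l'.Pairwise (· < ·) → (∀ k ∈ l, IsTwo E k ∧ ¬ IsV0 E k) →
    (∀ k ∈ l', IsTwo E' k ∧ ¬ IsV0 E' k) → multi L M E l = multi L M E' l' → E = E' ∧ l = l' := by
  intro l
  induction l with
  | nil =>
    intro l' E E' hE hE' hl hl' hk hk' heq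
    cases l' with
    | nil => exact ⟨heq, rfl⟩
    | cons k' l' =>
      exfalso
      refine multi_not_good hS hL hE' hl' hk' ?_
      rw [← heq]
      exact hE.ext
  | cons k l ih =>
    intro l' E E' hE hE' hl hl' hk hk' heq
    cases l' with
    | nil =>
      exfalso
      refine multi_not_good hS hL hE hl hk ?_
      rw [heq]
      exact hE'.ext
    | cons k' l' =>
      have h1 := multi_not_lt hS hL hE hE' hl hl' hk hk' heq
      have h2 := multi_not_lt hS hL hE' hE hl' hl hk' hk heq.symm
      have h3 : k = k' := by omega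
      subst h3
      obtain ⟨p1, p2, -, p3, p4, -⟩ := multi_cons hS hL hE.poly hE.tube hl hk
      obtain ⟨q1, q2, -, q3, q4, -⟩ := multi_cons hS hL hE'.poly hE'.tube hl' hk'
      have h4 : multi L M E l = multi L M E' l' :=
        ins_inj hS hL p1 p2 p3 p4 q1 q2 q3 q4 heq
      obtain ⟨h5, h6⟩ := ih l' E E' hE hE' (List.pairwise_cons.1 hl).2
        (List.pairwise_cons.1 hl').2 (fun i hi => hk i (List.mem_cons_of_mem _ hi))
        (fun i hi => hk' i (List.mem_cons_of_mem _ hi)) h4
      exact ⟨h5, by rw [h6]⟩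

/-- **Detours.** There are a constant `c` and a map `Φ` which inserts detours at any set `A` of
sections with two edges different from the reference section: the type, the tube and the lowest
level are preserved, the number of edges grows by at most `c` per detour, the span does not
decrease, and `(E, A)` can be read off. -/
theorem detours (hS : StretchStatement) (hL : 1 ≤ L) :
    ∃ (c : ℕ) (Φ : Finset (Sym2 P3) → Finset ℤ → Finset (Sym2 P3)),
      (∀ E A, Good L M E → (∀ k ∈ A, IsTwo E k ∧ ¬ IsV0 E k) →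
        IsPolygon (Φ E A) ∧ InTube L M (Φ E A) ∧ Grounded (Φ E A) ∧ SameType E (Φ E A) ∧
          (Φ E A).card ≤ E.card + c * A.card ∧ span E ≤ span (Φ E A)) ∧
      ∀ E A E' A', Good L M E → (∀ k ∈ A, IsTwo E k ∧ ¬ IsV0 E k) →
        Good L M E' → (∀ k ∈ A', IsTwo E' k ∧ ¬ IsV0 E' k) → Φ E A = Φ E' A' →
        E = E' ∧ A = A' := by
  have hs : ∀ A : Finset ℤ, (A.sort (· ≤ ·)).Pairwise (· < ·) := fun A => A.sortedLT_sort.pairwise
  refine ⟨6 * hgt L M, fun E A => multi L M E (A.sort (· ≤ ·)), ?_, ?_⟩
  · intro E A hE hA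
    have h := multi_facts hS hL hE.poly hE.tube (A.sort (· ≤ ·)) (hs A)
      fun k hk => hA k ((Finset.mem_sort _).1 hk)
    refine ⟨h.poly, h.tube, h.ground hE.ground, h.type, ?_, h.span⟩
    have := h.card
    rwa [Finset.length_sort] at this
  · intro E A E' A' hE hA hE' hA' heq
    obtain ⟨h1, h2⟩ := multi_inj hS hL _ _ E E' hE hE' (hs A) (hs A')
      (fun k hk => hA k ((Finset.mem_sort _).1 hk)) (fun k hk => hA' k ((Finset.mem_sort _).1 hk))
      heq
    refine ⟨h1, ?_⟩
    have h3 := congrArg List.toFinset h2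
    rwa [Finset.sort_toFinset, Finset.sort_toFinset] at h3

end Pool.Agent.KTube
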