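import Pool.Agent.KTube.Glue
import Pool.Agent.KTube.Multi
import Pool.Agent.MP_aea6d5_co.Pair
import Pool.Agent.MP_aea6d5_co.KMono

/-! Cutting at the first reference section above a given level. -/

set_option autoImplicit false

namespace Pool.Agent.KTube

open Pool.Agent.LK

variable {E A B : Finset (Sym2 P3)} {k i j : ℤ} {L M : ℕ}

/-! ### Sections of parts and compositions -/

theorem cross_glue_low (hA : IsLow A k) (hB : IsUpp B k) (hi : i ≤ k) :
    cross (glue A B k) i = cross A i := by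
  ext ⟨a, b⟩
  rw [mem_cross, mem_cross]
  exact mem_glue_low hA hB hi

theorem cross_glue_upp (hA : IsLow A k) (hB : IsUpp B k) (hi : k ≤ i) :
    cross (glue A B k) i = cross B i := by
  ext ⟨a, b⟩
  rw [mem_cross, mem_cross, Sym2.eq_swap]
  exact mem_glue_upp hA hB (by simp only; omega)

theorem IsLow.cross_empty (h : IsLow A k) (hi : k < i) : cross A i = ∅ := by
  rw [Set.eq_empty_iff_forall_notMem]
  rintro ⟨a, b⟩ hc
  rw [mem_cross] at hc
  have := h.2.2.2 _ (mem_verts_right hc)
  simp only at this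
  omega

theorem IsUpp.cross_empty (h : IsUpp B k) (hi : i < k) : cross B i = ∅ := by
  rw [Set.eq_empty_iff_forall_notMem]
  rintro ⟨a, b⟩ hc
  rw [mem_cross] at hc
  have := h.2.2.2 _ (mem_verts_left hc)
  simp only at this
  omega

theorem V0_nonempty : V0.Nonempty := ⟨(0, 0), by simp [V0]⟩

theorem IsV0.nonempty (h : IsV0 E k) : (cross E k).Nonempty := by
  unfold IsV0 at h
  rw [h]
  exact V0_nonempty

theorem cross_shift (t : ℤ) : cross (shift (0, 0, t) B) i = cross B (i - t) := by
  ext ⟨a, b⟩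
  rw [mem_cross, mem_cross, mem_shift]
  simp only [Prod.mk_sub_mk, sub_zero]
  rw [show i + 1 - t = i - t + 1 by ring]

theorem isV0_shift (t : ℤ) : IsV0 (shift (0, 0, t) B) i ↔ IsV0 B (i - t) := by
  unfold IsV0
  rw [cross_shift]

theorem cap_mem_shift (t : ℤ) : cap i ∈ shift (0, 0, t) B ↔ cap (i - t) ∈ B := by
  unfold cap
  rw [mem_shift]
  simp

theorem isPolygon_shift_iff (t : P3) : IsPolygon (shift t B) ↔ IsPolygon B := by
  refine ⟨fun h => ?_, fun h => isPolygon_shift h t⟩
  have h1 := isPolygon_shift h (-t)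
  rwa [shift_shift, neg_add_cancel, shift_zero] at h1

theorem isUpp_shift (t : ℤ) : IsUpp (shift (0, 0, t) B) k ↔ IsUpp B (k - t) := by
  unfold IsUpp
  rw [isPolygon_shift_iff, isV0_shift, cap_mem_shift]
  refine and_congr_right fun _ => and_congr_right fun _ => and_congr_right fun _ => ?_
  constructor
  · intro h u hu
    have := h (u + (0, 0, t)) (mem_verts_shift.2 (by simpa using hu))
    simp only [Prod.snd_add] at this
    omega
  · intro h u hu
    have := h _ (mem_verts_shift.1 hu)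
    simp only [Prod.snd_sub] at this
    omega

theorem isLow_shift (t : ℤ) : IsLow (shift (0, 0, t) B) k ↔ IsLow B (k - t) := by
  unfold IsLow
  rw [isPolygon_shift_iff, isV0_shift, cap_mem_shift, show k + 1 - t = k - t + 1 by ring]
  refine and_congr_right fun _ => and_congr_right fun _ => and_congr_right fun _ => ?_
  constructor
  · intro h u hu
    have := h (u + (0, 0, t)) (mem_verts_shift.2 (by simpa using hu))
    simp only [Prod.snd_add] at this
    omega
  · intro h u hu
    have := h _ (mem_verts_shift.1 hu)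
    simp only [Prod.snd_sub] at this
    omega

theorem inTube_shift (t : ℤ) : InTube L M (shift (0, 0, t) B) ↔ InTube L M B := by
  constructor
  · intro h u hu
    have := h (u + (0, 0, t)) (mem_verts_shift.2 (by simpa using hu))
    simpa using this
  · intro h u hu
    have := h _ (mem_verts_shift.1 hu)
    simpa using this

theorem mem_verts_glue_low (hA : IsLow A k) (hB : IsUpp B k) {u : P3} (hu : u.2.2 ≤ k) :
    u ∈ verts (glue A B k) ↔ u ∈ verts A := by
  constructor
  · rintro ⟨v, hv⟩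
    exact ⟨v, (mem_glue_low hA hB hu).1 hv⟩
  · rintro ⟨v, hv⟩
    exact ⟨v, (mem_glue_low hA hB hu).2 hv⟩

theorem mem_verts_glue_upp (hA : IsLow A k) (hB : IsUpp B k) {u : P3} (hu : k + 1 ≤ u.2.2) :
    u ∈ verts (glue A B k) ↔ u ∈ verts B := by
  constructor
  · rintro ⟨v, hv⟩
    exact ⟨v, (mem_glue_upp hA hB hu).1 hv⟩
  · rintro ⟨v, hv⟩
    exact ⟨v, (mem_glue_upp hA hB hu).2 hv⟩

theorem verts_glue_of_low (hA : IsLow A k) (hB : IsUpp B k) {u : P3} (hu : u ∈ verts A) :
    u ∈ verts (glue A B k) := by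
  rcases le_or_gt u.2.2 k with h | h
  · exact (mem_verts_glue_low hA hB h).2 hu
  · rw [mem_verts_glue_upp hA hB h]
    have h0 := hB.2.1.leg0_mem
    have h1 := hB.2.1.leg1_mem
    rcases hA.top hu h with rfl | rfl
    · exact mem_verts_right h0
    · exact mem_verts_right h1

theorem verts_glue_of_upp (hA : IsLow A k) (hB : IsUpp B k) {u : P3} (hu : u ∈ verts B) :
    u ∈ verts (glue A B k) := by
  rcases le_or_gt u.2.2 k with h | h
  · rw [mem_verts_glue_low hA hB h]
    have h0 := hA.2.1.leg0_mem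
    have h1 := hA.2.1.leg1_mem
    rcases hB.bot hu h with rfl | rfl
    · exact mem_verts_left h0
    · exact mem_verts_left h1
  · exact (mem_verts_glue_upp hA hB h).2 hu

theorem mem_verts_glue (hA : IsLow A k) (hB : IsUpp B k) {u : P3} :
    u ∈ verts (glue A B k) ↔ u ∈ verts A ∨ u ∈ verts B := by
  refine ⟨fun h => ?_, fun h => h.elim (verts_glue_of_low hA hB) (verts_glue_of_upp hA hB)⟩
  rcases le_or_gt u.2.2 k with h1 | h1
  · exact Or.inl ((mem_verts_glue_low hA hB h1).1 h)
  · exact Or.inr ((mem_verts_glue_upp hA hB h1).1 h)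

theorem inTube_glue (hA : IsLow A k) (hB : IsUpp B k) :
    InTube L M (glue A B k) ↔ InTube L M A ∧ InTube L M B := by
  constructor
  · intro h
    exact ⟨fun u hu => h u (verts_glue_of_low hA hB hu), fun u hu => h u (verts_glue_of_upp hA hB hu)⟩
  · rintro ⟨h1, h2⟩ u hu
    rcases (mem_verts_glue hA hB).1 hu with h | h
    · exact h1 u h
    · exact h2 u h

theorem grounded_glue (hA : IsLow A k) (hB : IsUpp B k) :
    Grounded (glue A B k) ↔ Grounded A := by
  have hk : ((0, 0, k) : P3) ∈ verts A := ⟨_, hA.2.1.leg0_mem⟩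
  constructor
  · rintro ⟨h1, u, hu, hu0⟩
    have hk0 : 0 ≤ k := h1 _ (verts_glue_of_low hA hB hk)
    refine ⟨fun v hv => h1 v (verts_glue_of_low hA hB hv), u, ?_, hu0⟩
    exact (mem_verts_glue_low hA hB (by omega)).1 hu
  · rintro ⟨h1, u, hu, hu0⟩
    have hk0 : 0 ≤ k := h1 _ hk
    refine ⟨fun v hv => ?_, u, verts_glue_of_low hA hB hu, hu0⟩
    rcases (mem_verts_glue hA hB).1 hv with h | h
    · exact h1 v h
    · exact hk0.trans (hB.2.2.2 v h)

theorem isUpp_glue (hA : IsLow A k) (hB : IsUpp B k) (hi : i < k) :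
    IsUpp (glue A B k) i ↔ IsUpp A i := by
  have h1 : IsV0 (glue A B k) i ↔ IsV0 A i := by
    unfold IsV0
    rw [cross_glue_low hA hB hi.le]
  have h2 : cap i ∈ glue A B k ↔ cap i ∈ A := mem_glue_low hA hB hi.le
  unfold IsUpp
  rw [h1, h2]
  constructor
  · rintro ⟨-, h3, h4, h5⟩
    exact ⟨hA.1, h3, h4, fun u hu => h5 u (verts_glue_of_low hA hB hu)⟩
  · rintro ⟨-, h3, h4, h5⟩
    refine ⟨isPolygon_glue hA hB, h3, h4, fun u hu => ?_⟩
    rcases (mem_verts_glue hA hB).1 hu with h | h
    · exact h5 u h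
    · exact hi.le.trans (hB.2.2.2 u h)

theorem isLow_glue (hA : IsLow A k) (hB : IsUpp B k) (hi : k < i) :
    IsLow (glue A B k) i ↔ IsLow B i := by
  have h1 : IsV0 (glue A B k) i ↔ IsV0 B i := by
    unfold IsV0
    rw [cross_glue_upp hA hB hi.le]
  have h2 : cap (i + 1) ∈ glue A B k ↔ cap (i + 1) ∈ B :=
    mem_glue_upp hA hB (by simp only; omega)
  unfold IsLow
  rw [h1, h2]
  constructor
  · rintro ⟨-, h3, h4, h5⟩
    exact ⟨hB.1, h3, h4, fun u hu => h5 u (verts_glue_of_upp hA hB hu)⟩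
  · rintro ⟨-, h3, h4, h5⟩
    refine ⟨isPolygon_glue hA hB, h3, h4, fun u hu => ?_⟩
    rcases (mem_verts_glue hA hB).1 hu with h | h
    · exact (hA.2.2.2 u h).trans (by omega)
    · exact h5 u h

theorem IsUpp.grounded (h : IsUpp B 0) : Grounded B :=
  ⟨h.2.2.2, (0, 0, 0), mem_verts_left h.2.2.1, rfl⟩

theorem IsLow.unique (h : IsLow A k) (h' : IsLow A j) : k = j := by
  have h1 := h.2.2.2 _ (mem_verts_left h'.2.2.1)
  have h2 := h'.2.2.2 _ (mem_verts_left h.2.2.1)
  simp only at h1 h2
  omega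

theorem span_glue (hA : IsLow A k) (hB : IsUpp B k) :
    span (glue A B k) + 1 = span A + span B := by
  have h1 : {i : ℤ | (cross (glue A B k) i).Nonempty} =
      {i : ℤ | (cross A i).Nonempty} ∪ {i : ℤ | (cross B i).Nonempty} := by
    ext i
    simp only [Set.mem_ofPred_eq, Set.mem_union]
    rcases lt_trichotomy i k with h | h | h
    · rw [cross_glue_low hA hB h.le, hB.cross_empty h]
      simp
    · subst h
      rw [cross_glue_low hA hB le_rfl]
      have h2 := hA.2.1
      have h3 := hB.2.1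
      unfold IsV0 at h2 h3
      rw [h2, h3, or_self]
    · rw [cross_glue_upp hA hB h.le, hA.cross_empty h]
      simp
  have h2 : {i : ℤ | (cross A i).Nonempty} ∩ {i : ℤ | (cross B i).Nonempty} = {k} := by
    ext i
    simp only [Set.mem_ofPred_eq, Set.mem_inter_iff, Set.mem_singleton_iff]
    constructor
    · rintro ⟨h3, h4⟩
      rcases lt_trichotomy i k with h | h | h
      · rw [hB.cross_empty h] at h4
        exact absurd h4 Set.not_nonempty_empty
      · exact h
      · rw [hA.cross_empty h] at h3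
        exact absurd h3 Set.not_nonempty_empty
    · rintro rfl
      exact ⟨hA.2.1.nonempty, hB.2.1.nonempty⟩
  unfold span
  rw [h1, ← Set.ncard_union_add_ncard_inter _ _ (planes_finite A) (planes_finite B), h2,
    Set.ncard_singleton]

theorem span_shift (t : ℤ) : span (shift (0, 0, t) B) = span B := by
  unfold span
  simp_rw [cross_shift]
  have : {k : ℤ | (cross B (k - t)).Nonempty} = (fun k => k + t) '' {k : ℤ | (cross B k).Nonempty} := by
    ext k
    simp only [Set.mem_ofPred_eq, Set.mem_image]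
    constructor
    · intro h
      exact ⟨k - t, h, by ring⟩
    · rintro ⟨j, hj, rfl⟩
      simpa using hj
  rw [this, Set.ncard_image_of_injective _ (add_left_injective t)]

theorem span_pos (h : (cross E k).Nonempty) : 1 ≤ span E := by
  unfold span
  rw [Nat.succ_le_iff, Set.ncard_pos (planes_finite E)]
  exact ⟨k, h⟩

/-! ### The three kinds of sets -/

/-- The grounded polygons of the tube. -/
def Gr (L M : ℕ) (E : Finset (Sym2 P3)) : Prop := IsPolygon E ∧ InTube L M E ∧ Grounded E

open Classical in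
/-- The plane of a closed lower part. -/
noncomputable def lev (A : Finset (Sym2 P3)) : ℤ := if h : ∃ k, IsLow A k then h.choose else 0

theorem IsLow.lev_eq (h : IsLow A k) : lev A = k := by
  classical
  have h1 : ∃ k, IsLow A k := ⟨k, h⟩
  unfold lev
  rw [dif_pos h1]
  exact h1.choose_spec.unique h

/-- The lower parts whose only reference section above `j0` is the last one. -/
def LowSet (L M : ℕ) (j0 : ℤ) (Q : Finset (Sym2 P3) → Prop) : Set (Finset (Sym2 P3)) :=
  {A | Gr L M A ∧ Q A ∧ ∃ k, j0 < k ∧ IsLow A k ∧ ∀ i, j0 < i → IsV0 A i → i = k}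

/-- The upper parts. -/
def UppSet (L M : ℕ) : Set (Finset (Sym2 P3)) := {B | IsUpp B 0 ∧ InTube L M B}

/-- The polygons with a reference section above `j0`. -/
def CutSet (L M : ℕ) (j0 : ℤ) (Q : Finset (Sym2 P3) → Prop) : Set (Finset (Sym2 P3)) :=
  {E | Gr L M E ∧ Q E ∧ ∃ k, j0 < k ∧ IsV0 E k}

/-- The composition of a lower part with an upper part. -/
noncomputable def comp (p : Finset (Sym2 P3) × Finset (Sym2 P3)) : Finset (Sym2 P3) :=
  glue p.1 (shift (0, 0, lev p.1) p.2) (lev p.1)

theorem comp_eq (hA : IsLow A k) (B : Finset (Sym2 P3)) :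
    comp (A, B) = glue A (shift (0, 0, k) B) k := by
  unfold comp
  simp only
  rw [hA.lev_eq]

theorem isUpp_shift_self (hB : IsUpp B 0) (k : ℤ) : IsUpp (shift (0, 0, k) B) k := by
  rw [isUpp_shift, sub_self]
  exact hB

theorem comp_bijOn (hT2 : CutStatement) (j0 : ℤ) (Q : Finset (Sym2 P3) → Prop)
    (hQ : ∀ A B k, j0 < k → IsLow A k → IsUpp B k → (Q (glue A B k) ↔ Q A)) :
    Set.BijOn comp (LowSet L M j0 Q ×ˢ UppSet L M) (CutSet L M j0 Q) := by
  have key : ∀ {A B : Finset (Sym2 P3)} {k : ℤ}, j0 < k → IsLow A k →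
      (∀ i, j0 < i → IsV0 A i → i = k) → IsUpp B 0 → ∀ i, j0 < i →
      IsV0 (glue A (shift (0, 0, k) B) k) i → k ≤ i := by
    intro A B k hk hA h hB i hi hV
    by_contra hlt
    rw [not_le] at hlt
    have hB' := isUpp_shift_self hB k
    unfold IsV0 at hV
    rw [cross_glue_low hA hB' hlt.le] at hV
    exact hlt.ne (h i hi hV)
  refine ⟨?_, ?_, ?_⟩
  · rintro ⟨A, B⟩ ⟨⟨⟨hP, hT, hG⟩, hQA, k, hk, hA, hu⟩, hB, hTB⟩
    rw [comp_eq hA]
    have hB' := isUpp_shift_self hB k
    refine ⟨⟨isPolygon_glue hA hB', ?_, ?_⟩, ?_, k, hk, isV0_glue hA hB'⟩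
    · rw [inTube_glue hA hB', inTube_shift]
      exact ⟨hT, hTB⟩
    · rw [grounded_glue hA hB']
      exact hG
    · rw [hQ _ _ _ hk hA hB']
      exact hQA
  · rintro ⟨A, B⟩ ⟨⟨-, -, k, hk, hA, hu⟩, hB, -⟩ ⟨A', B'⟩ ⟨⟨-, -, k', hk', hA', hu'⟩, hB', -⟩ heq
    rw [comp_eq hA, comp_eq hA'] at heq
    have hB1 := isUpp_shift_self hB k
    have hB1' := isUpp_shift_self hB' k'
    have h1 : k = k' := by
      refine le_antisymm ?_ ?_
      · refine key hk hA hu hB k' hk' ?_
        rw [heq]
        exact isV0_glue hA' hB1'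
      · refine key hk' hA' hu' hB' k hk ?_
        rw [← heq]
        exact isV0_glue hA hB1
    subst h1
    have h2 := congrArg (fun E => low E k) heq
    have h3 := congrArg (fun E => upp E k) heq
    simp only at h2 h3
    rw [low_glue hA hB1, low_glue hA' hB1'] at h2
    rw [upp_glue hA hB1, upp_glue hA' hB1'] at h3
    rw [Prod.mk.injEq]
    exact ⟨h2, shift_injective _ h3⟩
  · rintro E ⟨⟨hP, hT, hG⟩, hQE, k0, hk0, hV0⟩
    obtain ⟨k, ⟨hk, hV⟩, hmin⟩ := Int.exists_least_of_bdd
      (P := fun k => j0 < k ∧ IsV0 E k) ⟨j0, fun z hz => hz.1.le⟩ ⟨k0, hk0, hV0⟩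
    obtain ⟨hA, hB, hg⟩ := hT2 E k hP hV
    set A := low E k with hAdef
    set B' := upp E k with hB'def
    have hB0 : IsUpp (shift (0, 0, -k) B') 0 := by
      rw [isUpp_shift]
      simpa using hB
    have hsh : shift (0, 0, k) (shift (0, 0, -k) B') = B' := by
      rw [shift_shift]
      have : ((0, 0, k) : P3) + (0, 0, -k) = 0 := by simp
      rw [this, shift_zero]
    refine ⟨(A, shift (0, 0, -k) B'), ⟨⟨⟨hA.1, ?_, ?_⟩, ?_, k, hk, hA, ?_⟩, hB0, ?_⟩, ?_⟩
    · rw [← hg, inTube_glue hA hB] at hT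
      exact hT.1
    · rw [← hg, grounded_glue hA hB] at hG
      exact hG
    · rw [← hg, hQ _ _ _ hk hA hB] at hQE
      exact hQE
    · intro i hi hVi
      rcases lt_trichotomy i k with h | h | h
      · have h1 : IsV0 E i := by
          unfold IsV0 at hVi ⊢
          rw [← hg, cross_glue_low hA hB h.le, hVi]
        have := hmin i ⟨hi, h1⟩
        omega
      · exact h
      · have h1 := hVi.nonempty
        rw [hA.cross_empty h] at h1
        exact absurd h1 Set.not_nonempty_empty
    · rw [inTube_shift]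
      rw [← hg, inTube_glue hA hB] at hT
      exact hT.2
    · rw [comp_eq hA, hsh, hg]

end Pool.Agent.KTube
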