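import Pool.Agent.KTube.Hang
import Pool.Agent.KTube.Words
import Pool.Agent.MP_aea6d5_co.CDefs

/-! The bodies of parts and compositions; a lower part as a pattern in a small box. -/

set_option autoImplicit false

open Set

namespace Pool.Agent.KTube

open Pool.Agent.LK

variable {A B : Finset (Sym2 P3)} {k : ℤ}

/-- The part of the body below the level `k`. -/
def lowR (A : Finset (Sym2 P3)) (k : ℤ) : Set R3 := {p | p ∈ body A ∧ p.2.2 ≤ k}

/-- The part of the body above the level `k + 1`. -/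
def uppR (B : Finset (Sym2 P3)) (k : ℤ) : Set R3 := {p | p ∈ body B ∧ (k : ℝ) + 1 ≤ p.2.2}

/-- The two legs between the levels `k` and `k + 1`. -/
def legR (k : ℤ) : Set R3 :=
  {p | (p.1 = 0 ∨ p.1 = 1) ∧ p.2.1 = 0 ∧ (k : ℝ) ≤ p.2.2 ∧ p.2.2 ≤ k + 1}

/-- The cap at the level `k`. -/
def capR (k : ℤ) : Set R3 := {p | 0 ≤ p.1 ∧ p.1 ≤ 1 ∧ p.2.1 = 0 ∧ p.2.2 = k}

theorem mem_capR {x : R3} : x ∈ segment ℝ (toR (0, 0, k)) (toR (1, 0, k)) ↔ x ∈ capR k := by
  rw [segment_eq_image']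
  constructor
  · rintro ⟨t, ⟨h0, h1⟩, rfl⟩
    simp [toR, capR, h0, h1]
  · rintro ⟨h1, h2, h3, h4⟩
    refine ⟨x.1, ⟨h1, h2⟩, ?_⟩
    obtain ⟨x1, x2, x3⟩ := x
    simp only at h3 h4
    subst h3 h4
    simp [toR]

theorem mem_legR {x : R3} : x ∈ legR k ↔ x ∈ segment ℝ (toR (0, 0, k)) (toR (0, 0, k + 1)) ∨
    x ∈ segment ℝ (toR (1, 0, k)) (toR (1, 0, k + 1)) := by
  rw [mem_vseg, mem_vseg]
  simp only [legR, mem_ofPred_eq, Int.cast_zero, Int.cast_one]
  tauto

theorem seg_of_eq {u v a b : P3} {x : R3} (h : s(u, v) = s(a, b))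
    (hx : x ∈ segment ℝ (toR u) (toR v)) : x ∈ segment ℝ (toR a) (toR b) := by
  rw [Sym2.eq_iff] at h
  rcases h with ⟨rfl, rfl⟩ | ⟨rfl, rfl⟩
  · exact hx
  · rwa [segment_symm]

theorem body_glue (hA : IsLow A k) (hB : IsUpp B k) :
    body (glue A B k) = lowR A k ∪ legR k ∪ uppR B k := by
  ext x
  constructor
  · rintro ⟨u, v, huv, hx⟩
    rw [mem_glue hA hB] at huv
    rcases huv with ⟨h1, h2, h3⟩ | ⟨h1, h2, h3⟩ | h1 | h1
    · exact Or.inl (Or.inl ⟨⟨u, v, h1, hx⟩, seg_bounds hx (by exact_mod_cast h2)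
        (by exact_mod_cast h3)⟩)
    · exact Or.inr ⟨⟨u, v, h1, hx⟩, seg_bounds' hx (by exact_mod_cast h2)
        (by exact_mod_cast h3)⟩
    · exact Or.inl (Or.inr (mem_legR.2 (Or.inl (seg_of_eq h1 hx))))
    · exact Or.inl (Or.inr (mem_legR.2 (Or.inr (seg_of_eq h1 hx))))
  · rintro ((⟨⟨u, v, huv, hx⟩, hk⟩ | hx) | ⟨⟨u, v, huv, hx⟩, hk⟩)
    · rcases hA.cases huv with ⟨h1, h2⟩ | h1 | h1 | h1
      · exact ⟨u, v, (mem_glue hA hB).2 (Or.inl ⟨huv, h1, h2⟩), hx⟩
      · exact ⟨u, v, (mem_glue hA hB).2 (Or.inr (Or.inr (Or.inl h1))), hx⟩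
      · exact ⟨u, v, (mem_glue hA hB).2 (Or.inr (Or.inr (Or.inr h1))), hx⟩
      · have h2 := mem_capR.1 (seg_of_eq h1 hx)
        have h3 := h2.2.2.2
        push_cast at h3
        linarith
    · rcases mem_legR.1 hx with h | h
      · exact ⟨_, _, (mem_glue hA hB).2 (Or.inr (Or.inr (Or.inl rfl))), h⟩
      · exact ⟨_, _, (mem_glue hA hB).2 (Or.inr (Or.inr (Or.inr rfl))), h⟩
    · rcases hB.cases huv with ⟨h1, h2⟩ | h1 | h1 | h1
      · exact ⟨u, v, (mem_glue hA hB).2 (Or.inr (Or.inl ⟨huv, h1, h2⟩)), hx⟩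
      · exact ⟨u, v, (mem_glue hA hB).2 (Or.inr (Or.inr (Or.inl h1))), hx⟩
      · exact ⟨u, v, (mem_glue hA hB).2 (Or.inr (Or.inr (Or.inr h1))), hx⟩
      · have h2 := mem_capR.1 (seg_of_eq h1 hx)
        have h3 := h2.2.2.2
        linarith

theorem body_upp (hB : IsUpp B k) : body B = capR k ∪ legR k ∪ uppR B k := by
  ext x
  constructor
  · rintro ⟨u, v, huv, hx⟩
    rcases hB.cases huv with ⟨h1, h2⟩ | h1 | h1 | h1
    · exact Or.inr ⟨⟨u, v, huv, hx⟩, seg_bounds' hx (by exact_mod_cast h1)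
        (by exact_mod_cast h2)⟩
    · exact Or.inl (Or.inr (mem_legR.2 (Or.inl (seg_of_eq h1 hx))))
    · exact Or.inl (Or.inr (mem_legR.2 (Or.inr (seg_of_eq h1 hx))))
    · exact Or.inl (Or.inl (mem_capR.1 (seg_of_eq h1 hx)))
  · rintro ((hx | hx) | hx)
    · exact ⟨_, _, hB.2.2.1, mem_capR.2 hx⟩
    · rcases mem_legR.1 hx with h | h
      · exact ⟨_, _, hB.2.1.leg0_mem, h⟩
      · exact ⟨_, _, hB.2.1.leg1_mem, h⟩
    · exact hx.1

theorem body_low (hA : IsLow A k) : body A = lowR A k ∪ legR k ∪ capR (k + 1) := by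
  ext x
  constructor
  · rintro ⟨u, v, huv, hx⟩
    rcases hA.cases huv with ⟨h1, h2⟩ | h1 | h1 | h1
    · exact Or.inl (Or.inl ⟨⟨u, v, huv, hx⟩, seg_bounds hx (by exact_mod_cast h1)
        (by exact_mod_cast h2)⟩)
    · exact Or.inl (Or.inr (mem_legR.2 (Or.inl (seg_of_eq h1 hx))))
    · exact Or.inl (Or.inr (mem_legR.2 (Or.inr (seg_of_eq h1 hx))))
    · exact Or.inr (mem_capR.1 (seg_of_eq h1 hx))
  · rintro ((hx | hx) | hx)
    · exact hx.1
    · rcases mem_legR.1 hx with h | h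
      · exact ⟨_, _, hA.2.1.leg0_mem, h⟩
      · exact ⟨_, _, hA.2.1.leg1_mem, h⟩
    · exact ⟨_, _, hA.2.2.1, mem_capR.2 hx⟩

/-- The standard coordinates at the plane `k`. -/
noncomputable def tauR (k : ℤ) : R3 ≃ₜ R3 := Homeomorph.addRight ((-(1 / 2), 0, -(k : ℝ)) : R3)

theorem tauR_apply (p : R3) : tauR k p = (p.1 - 1 / 2, p.2.1, p.2.2 - k) := by
  change p + ((-(1 / 2), 0, -(k : ℝ)) : R3) = _
  obtain ⟨x, y, z⟩ := p
  simp only [Prod.mk_add_mk, add_zero, Prod.mk.injEq, true_and]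
  constructor <;> ring

theorem mem_tauR_image {S : Set R3} {p : R3} :
    p ∈ tauR k '' S ↔ ((p.1 + 1 / 2, p.2.1, p.2.2 + k) : R3) ∈ S := by
  constructor
  · rintro ⟨q, hq, rfl⟩
    rw [tauR_apply]
    simpa using hq
  · intro h
    refine ⟨_, h, ?_⟩
    rw [tauR_apply]
    simp

theorem tauR_legR : tauR k '' legR k = legS := by
  ext p
  rw [mem_tauR_image]
  simp only [legR, legS, mem_ofPred_eq]
  constructor
  · rintro ⟨h1, h2, h3, h4⟩
    refine ⟨?_, h2, by linarith, by linarith⟩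
    rcases h1 with h1 | h1
    · have : p.1 = -(1 / 2) := by linarith
      rw [this]
      norm_num
    · have : p.1 = 1 / 2 := by linarith
      rw [this]
      norm_num
  · rintro ⟨h1, h2, h3, h4⟩
    refine ⟨?_, h2, by linarith, by linarith⟩
    rcases eq_or_eq_neg_of_abs_eq h1 with h | h
    · right; linarith
    · left; linarith

theorem tauR_capR : tauR k '' capR k = capS := by
  ext p
  rw [mem_tauR_image]
  simp only [capR, capS, mem_ofPred_eq, abs_le]
  constructor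
  · rintro ⟨h1, h2, h3, h4⟩
    exact ⟨⟨by linarith, by linarith⟩, h3, by linarith⟩
  · rintro ⟨⟨h1, h2⟩, h3, h4⟩
    exact ⟨by linarith, by linarith, h3, by linarith⟩

theorem mem_body_shift {t : ℤ} {p : R3} :
    p ∈ body (shift (0, 0, t) A) ↔ ((p.1, p.2.1, p.2.2 - t) : R3) ∈ body A := by
  rw [body_shift]
  constructor
  · rintro ⟨q, hq, rfl⟩
    change _ ∈ body A
    have : (((Homeomorph.addRight (toR (0, 0, t))) q).1,
        ((Homeomorph.addRight (toR (0, 0, t))) q).2.1,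
        ((Homeomorph.addRight (toR (0, 0, t))) q).2.2 - (t : ℝ)) = q := by
      obtain ⟨x, y, z⟩ := q
      simp [toR]
    rw [this]
    exact hq
  · intro h
    refine ⟨_, h, ?_⟩
    obtain ⟨x, y, z⟩ := p
    simp [toR]

theorem tauR_lowR_shift (j : ℤ) :
    tauR (k + j) '' lowR (shift (0, 0, j) A) (k + j) = tauR k '' lowR A k := by
  ext p
  rw [mem_tauR_image, mem_tauR_image]
  simp only [lowR, mem_ofPred_eq]
  rw [mem_body_shift]
  simp only
  push_cast
  have e : p.2.2 + (k + j) - j = p.2.2 + (k : ℝ) := by ring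
  rw [e]
  constructor
  · rintro ⟨h1, h2⟩
    exact ⟨h1, by linarith⟩
  · rintro ⟨h1, h2⟩
    exact ⟨h1, by linarith⟩

theorem cht_cap (p : R3) : cht (0, 0, k) (1, 0, 0) (0, 1, 0) p =
    (1 / 2 + p.1 / 32, p.2.1 / 32, k + p.2.2 / 32) := by
  simp [cht, crs]

theorem tauR_cht (p : R3) : tauR k (cht (0, 0, k) (1, 0, 0) (0, 1, 0) p) =
    (p.1 / 32, p.2.1 / 32, p.2.2 / 32) := by
  rw [cht_cap, tauR_apply]
  simp

theorem tauR_cht_image {J : Set R3} : tauR k '' (cht (0, 0, k) (1, 0, 0) (0, 1, 0) '' J) =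
    {p | ((32 * p.1, 32 * p.2.1, 32 * p.2.2) : R3) ∈ J} := by
  ext p
  rw [image_image]
  constructor
  · rintro ⟨q, hq, rfl⟩
    change ((32 * (tauR k (cht (0, 0, k) (1, 0, 0) (0, 1, 0) q)).1,
      32 * (tauR k (cht (0, 0, k) (1, 0, 0) (0, 1, 0) q)).2.1,
      32 * (tauR k (cht (0, 0, k) (1, 0, 0) (0, 1, 0) q)).2.2) : R3) ∈ J
    rw [tauR_cht]
    have : ((32 * (q.1 / 32), 32 * (q.2.1 / 32), 32 * (q.2.2 / 32)) : R3) = q := by
      refine Prod.ext ?_ (Prod.ext ?_ ?_) <;> simp only <;> ring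
    simp only
    rw [this]
    exact hq
  · intro h
    refine ⟨_, h, ?_⟩
    change tauR k (cht (0, 0, k) (1, 0, 0) (0, 1, 0) (32 * p.1, 32 * p.2.1, 32 * p.2.2)) = p
    rw [tauR_cht]
    refine Prod.ext ?_ (Prod.ext ?_ ?_) <;> simp only <;> ring

theorem tauR_Bx : tauR k '' (cht (0, 0, k) (1, 0, 0) (0, 1, 0) '' Bx) = boxS := by
  rw [tauR_cht_image]
  ext p
  simp only [Bx, boxS, mem_ofPred_eq, abs_le]
  constructor
  · rintro ⟨⟨h1, h2⟩, ⟨h3, h4⟩, h5, h6⟩
    exact ⟨⟨by linarith, by linarith⟩, ⟨by linarith, by linarith⟩, by linarith, by linarith⟩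
  · rintro ⟨⟨h1, h2⟩, ⟨h3, h4⟩, h5, h6⟩
    exact ⟨⟨by linarith, by linarith⟩, ⟨by linarith, by linarith⟩, by linarith, by linarith⟩

/-- **A lower part is a pattern in a small box at the middle of the cap.** -/
theorem hang (A : Finset (Sym2 P3)) (k : ℤ) : ∃ J : Set R3, J ⊆ Bx ∧
    ∀ (j : ℤ) (B : Finset (Sym2 P3)), IsLow (shift (0, 0, j) A) (k + j) → IsUpp B (k + j) →
      Eqv (body (glue (shift (0, 0, j) A) B (k + j)))
        (insr (body B) (cht (0, 0, k + j) (1, 0, 0) (0, 1, 0)) J) := by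
  set A' : Set R3 := tauR k '' lowR A k with hA'
  have hbd : ∃ N : ℝ, 1 ≤ N ∧ ∀ p ∈ A', |p.1| ≤ N ∧ |p.2.1| ≤ N ∧ -N ≤ p.2.2 ∧ p.2.2 ≤ 0 := by
    have h1 : IsCompact (tauR k '' body A) := (isCompact_body A).image (tauR k).continuous
    obtain ⟨N, hN⟩ := h1.isBounded.exists_norm_le
    refine ⟨max N 1, le_max_right _ _, ?_⟩
    rintro p ⟨q, hq, rfl⟩
    have h2 := hN _ (mem_image_of_mem _ hq.1)
    have h3 : ‖tauR k q‖ ≤ max N 1 := h2.trans (le_max_left _ _)
    refine ⟨?_, ?_, ?_, ?_⟩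
    · have := (norm_fst_le (tauR k q)).trans h3
      rwa [Real.norm_eq_abs] at this
    · have := ((norm_fst_le (tauR k q).2).trans (norm_snd_le (tauR k q))).trans h3
      rwa [Real.norm_eq_abs] at this
    · have := ((norm_snd_le (tauR k q).2).trans (norm_snd_le (tauR k q))).trans h3
      rw [Real.norm_eq_abs] at this
      exact (abs_le.1 this).1
    · rw [tauR_apply]
      simp only
      linarith [hq.2]
  obtain ⟨N, hN, hbd⟩ := hbd
  obtain ⟨h, hid, D, hD, himg⟩ := hang_std hN hbd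
  refine ⟨{p | ((p.1 / 32, p.2.1 / 32, p.2.2 / 32) : R3) ∈ D}, ?_, ?_⟩
  · intro p hp
    have := hD hp
    simp only [boxS, mem_ofPred_eq, abs_le] at this
    obtain ⟨⟨h1, h2⟩, ⟨h3, h4⟩, h5, h6⟩ := this
    simp only [Bx, mem_ofPred_eq, abs_le]
    exact ⟨⟨by linarith, by linarith⟩, ⟨by linarith, by linarith⟩, by linarith, by linarith⟩
  · intro j B hA hB
    set m := k + j with hm
    set U : Set R3 := tauR m '' uppR B m with hU
    have hU1 : ∀ p ∈ U, (1 : ℝ) ≤ p.2.2 := by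
      rintro p ⟨q, hq, rfl⟩
      rw [tauR_apply]
      simp only
      linarith [hq.2]
    have e1 : tauR m '' body (glue (shift (0, 0, j) A) B m) = A' ∪ legS ∪ U := by
      rw [body_glue hA hB, image_union, image_union, tauR_legR, hm, tauR_lowR_shift]
    have e2 : tauR m '' insr (body B) (cht (0, 0, m) (1, 0, 0) (0, 1, 0))
        {p | ((p.1 / 32, p.2.1 / 32, p.2.2 / 32) : R3) ∈ D} = ((legS ∪ capS) \ boxS) ∪ D ∪ U := by
      unfold insr
      rw [image_union, image_sdiff (tauR m).injective, tauR_Bx, tauR_cht_image, body_upp hB,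
        image_union, image_union, tauR_legR, tauR_capR]
      have e3 : {p : R3 | ((32 * p.1, 32 * p.2.1, 32 * p.2.2) : R3) ∈
          {p : R3 | ((p.1 / 32, p.2.1 / 32, p.2.2 / 32) : R3) ∈ D}} = D := by
        ext p
        simp only [mem_ofPred_eq]
        have : ((32 * p.1 / 32, 32 * p.2.1 / 32, 32 * p.2.2 / 32) : R3) = p := by
          refine Prod.ext ?_ (Prod.ext ?_ ?_) <;> simp only <;> ring
        rw [this]
      rw [e3]
      have e4 : U \ boxS = U := by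
        rw [sdiff_eq_left, Set.disjoint_left]
        intro p hp hb
        have h1 := hU1 p hp
        have h2 := (abs_le.1 hb.2.2).2
        linarith
      rw [union_sdiff_distrib, e4, union_comm capS legS]
      ext p
      simp only [mem_union]
      tauto
    refine ⟨((tauR m).trans h).trans (tauR m).symm, ?_⟩
    have e5 : h '' (A' ∪ legS ∪ U) = ((legS ∪ capS) \ boxS) ∪ D ∪ U := by
      rw [image_union, himg]
      congr 1
      ext p
      constructor
      · rintro ⟨q, hq, rfl⟩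
        rw [hid q (hU1 q hq)]
        exact hq
      · intro hp
        exact ⟨p, hp, hid p (hU1 p hp)⟩
    have e6 : (((tauR m).trans h).trans (tauR m).symm) '' body (glue (shift (0, 0, j) A) B m) =
        (tauR m).symm '' (h '' (tauR m '' body (glue (shift (0, 0, j) A) B m))) := by
      rw [image_image, image_image]
      rfl
    rw [e6, e1, e5, ← e2]
    exact (tauR m).symm_image_image _

end Pool.Agent.KTube
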