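import Mathlib
import Pool.Agent.LatticeTube.RenDefs

/-! The renewal theorem with exponentially small error (Kendall). -/

set_option autoImplicit false

open Filter Topology Finset

namespace Pool.Agent.KTube

open Pool.Agent.LatticeTube

/-- Exponentially small sequences. -/
def ExpSmall (e : ℕ → ℝ) : Prop :=
  ∃ C θ : ℝ, 0 ≤ C ∧ 0 < θ ∧ θ < 1 ∧ ∀ n, |e n| ≤ C * θ ^ n

theorem ExpSmall.summable {e : ℕ → ℝ} (h : ExpSmall e) : Summable e := by
  obtain ⟨C, θ, hC, h0, h1, hb⟩ := h
  refine Summable.of_norm_bounded (g := fun n => C * θ ^ n)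
    ((summable_geometric_of_lt_one h0.le h1).mul_left C) ?_
  intro n; rw [Real.norm_eq_abs]; exact hb n

private theorem ser_diff {t : ℕ → ℝ} {C θ R : ℝ} (h0 : 0 < θ) (hb : ∀ n, |t n| ≤ C * θ ^ n)
    (hR : R * θ < 1) (hR0 : 0 < R) :
    DifferentiableOn ℂ (fun z : ℂ => ∑' n, (t n : ℂ) * z ^ n) (Metric.ball 0 R) := by
  have h1 : (ENNReal.ofReal R) ≤
      (FormalMultilinearSeries.ofScalars ℂ (fun n => (t n : ℂ))).radius := by
    have := (FormalMultilinearSeries.ofScalars ℂ (fun n => (t n : ℂ))).le_radius_of_bound C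
      (r := ⟨R, hR0.le⟩) (by
        intro n
        rw [FormalMultilinearSeries.ofScalars_norm, Complex.norm_real, Real.norm_eq_abs]
        change |t n| * R ^ n ≤ C
        have hC : 0 ≤ C := by
          have := hb 0; rw [pow_zero, mul_one] at this; exact (abs_nonneg _).trans this
        calc |t n| * R ^ n ≤ C * θ ^ n * R ^ n := by gcongr; exact hb n
          _ = C * (R * θ) ^ n := by rw [mul_pow]; ring
          _ ≤ C * 1 := by
            gcongr
            exact pow_le_one₀ (by positivity) hR.le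
          _ = C := mul_one C)
    refine le_trans (le_of_eq ?_) this
    rw [ENNReal.ofReal]
    congr 1
    exact Real.toNNReal_of_nonneg hR0.le
  have hpos : 0 < (FormalMultilinearSeries.ofScalars ℂ (fun n => (t n : ℂ))).radius :=
    lt_of_lt_of_le (ENNReal.ofReal_pos.mpr hR0) h1
  have h2 := ((FormalMultilinearSeries.ofScalars ℂ (fun n => (t n : ℂ))).hasFPowerSeriesOnBall
    hpos).differentiableOn
  have h3 : (FormalMultilinearSeries.ofScalars ℂ (fun n => (t n : ℂ))).sum =
      fun z : ℂ => ∑' n, (t n : ℂ) * z ^ n := by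
    have := FormalMultilinearSeries.ofScalarsSum_eq_tsum (E := ℂ) (fun n => (t n : ℂ))
    unfold FormalMultilinearSeries.ofScalarsSum at this
    rw [this]
    funext z
    simp only [smul_eq_mul]
  rw [h3] at h2
  refine h2.mono ?_
  intro z hz
  rw [Metric.mem_eball]
  refine lt_of_lt_of_le ?_ h1
  rw [edist_dist]
  exact (ENNReal.ofReal_lt_ofReal_iff hR0).mpr (Metric.mem_ball.mp hz)

private theorem ser_sum {D : ℕ → ℝ} {B : ℝ} (hB : ∀ n, |D n| ≤ B) :
    HasFPowerSeriesAt (fun z : ℂ => ∑' n, (D n : ℂ) * z ^ n)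
      (FormalMultilinearSeries.ofScalars ℂ (fun n => (D n : ℂ))) 0 := by
  have h1 : (1 : ENNReal) ≤
      (FormalMultilinearSeries.ofScalars ℂ (fun n => (D n : ℂ))).radius := by
    have := (FormalMultilinearSeries.ofScalars ℂ (fun n => (D n : ℂ))).le_radius_of_bound B
      (r := 1) (by
        intro n
        rw [FormalMultilinearSeries.ofScalars_norm, Complex.norm_real, Real.norm_eq_abs]
        simpa using hB n)
    simpa using this
  have h2 := ((FormalMultilinearSeries.ofScalars ℂ (fun n => (D n : ℂ))).hasFPowerSeriesOnBall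
    (lt_of_lt_of_le one_pos h1)).hasFPowerSeriesAt
  have h3 : (FormalMultilinearSeries.ofScalars ℂ (fun n => (D n : ℂ))).sum =
      fun z : ℂ => ∑' n, (D n : ℂ) * z ^ n := by
    have := FormalMultilinearSeries.ofScalarsSum_eq_tsum (E := ℂ) (fun n => (D n : ℂ))
    unfold FormalMultilinearSeries.ofScalarsSum at this
    rw [this]
    funext z
    simp only [smul_eq_mul]
  rwa [h3] at h2

/-- If `t` is exponentially small, its generating function has no zero in the closed unit disc and
`D` is a bounded convolution inverse of `t` then `D` is exponentially small. -/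
private theorem inv_series {t D : ℕ → ℝ} {B : ℝ} (ht : ExpSmall t) (hD : ∀ n, |D n| ≤ B)
    (hconv : ∀ n, conv D t n = if n = 0 then 1 else 0)
    (hz : ∀ z : ℂ, ‖z‖ ≤ 1 → ∑' n, (t n : ℂ) * z ^ n ≠ 0) : ExpSmall D := by
  obtain ⟨C, θ, hC, h0, h1, hb⟩ := ht
  set T : ℂ → ℂ := fun z => ∑' n, (t n : ℂ) * z ^ n with hT
  obtain ⟨R1, hR1, hR1'⟩ : ∃ R1, 1 < R1 ∧ R1 * θ < 1 := by
    refine ⟨(1 + 1 / θ) / 2, ?_, ?_⟩
    · have : 1 < 1 / θ := by rw [lt_div_iff₀ h0]; linarith
      linarith
    · field_simp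
      linarith
  have hdiff := ser_diff h0 hb hR1' (by linarith : 0 < R1)
  -- a larger disc without zeros
  obtain ⟨R, hR, hRR1, hRz⟩ : ∃ R, 1 < R ∧ R < R1 ∧ ∀ z : ℂ, ‖z‖ ≤ R → T z ≠ 0 := by
    set R2 := (1 + R1) / 2 with hR2
    have hc : ContinuousOn T (Metric.closedBall 0 R2) :=
      hdiff.continuousOn.mono (Metric.closedBall_subset_ball (by linarith))
    set Z : Set ℂ := {z | z ∈ Metric.closedBall (0 : ℂ) R2 ∧ T z = 0} with hZ
    have hZc : IsCompact Z := by
      have h1 : IsClosed Z := by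
        have := hc.preimage_isClosed_of_isClosed Metric.isClosed_closedBall (isClosed_singleton
          (x := (0 : ℂ)))
        convert this using 1
        rfl
      exact (isCompact_closedBall (0 : ℂ) R2).of_isClosed_subset h1 (fun z hz => hz.1)
    by_cases hne : Z.Nonempty
    · obtain ⟨z0, hz0, hmin⟩ := hZc.exists_isMinOn hne continuous_norm.continuousOn
      have h3 : 1 < ‖z0‖ := by
        by_contra h
        exact hz z0 (not_lt.mp h) hz0.2
      refine ⟨min ((1 + ‖z0‖) / 2) R2, ?_, ?_, ?_⟩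
      · rw [lt_min_iff]; constructor <;> linarith
      · exact lt_of_le_of_lt (min_le_right _ _) (by linarith)
      · intro z hzn h
        have h4 : z ∈ Z := ⟨by
          rw [mem_closedBall_zero_iff]; exact hzn.trans (min_le_right _ _), h⟩
        have h5 := hmin h4
        simp only [Set.mem_ofPred_eq] at h5
        have h6 : ‖z‖ ≤ (1 + ‖z0‖) / 2 := hzn.trans (min_le_left _ _)
        linarith
    · refine ⟨R2, by linarith, by linarith, ?_⟩
      intro z hzn h
      exact hne ⟨z, by rw [mem_closedBall_zero_iff]; exact hzn, h⟩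
  have hR0 : 0 < R := by linarith
  obtain ⟨R', hR'⟩ : ∃ R' : NNReal, (R' : ℝ) = R := ⟨⟨R, hR0.le⟩, rfl⟩
  have hR'0 : 0 < R' := by
    have : (0 : ℝ) < (R' : ℝ) := by rw [hR']; exact hR0
    exact_mod_cast this
  -- the inverse is analytic
  have hdi : DifferentiableOn ℂ (fun z => (T z)⁻¹) (Metric.closedBall 0 (R' : ℝ)) := by
    rw [hR']
    refine DifferentiableOn.inv (hdiff.mono (Metric.closedBall_subset_ball hRR1)) ?_
    intro z hz
    exact hRz z (by rw [mem_closedBall_zero_iff] at hz; exact hz)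
  have hps := (hdi.hasFPowerSeriesOnBall hR'0).hasFPowerSeriesAt
  -- the series of `D` is the inverse
  have hg : (fun z : ℂ => ∑' n, (D n : ℂ) * z ^ n) =ᶠ[𝓝 0] fun z => (T z)⁻¹ := by
    filter_upwards [Metric.ball_mem_nhds (0 : ℂ) one_pos] with z hz1
    rw [mem_ball_zero_iff] at hz1
    have s1 : Summable fun n => ‖(D n : ℂ) * z ^ n‖ := by
      refine Summable.of_nonneg_of_le (fun n => norm_nonneg _) (fun n => ?_)
        ((summable_geometric_of_lt_one (norm_nonneg z) hz1).mul_left B)
      rw [norm_mul, norm_pow, Complex.norm_real, Real.norm_eq_abs]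
      gcongr
      exact hD n
    have s2 : Summable fun n => ‖(t n : ℂ) * z ^ n‖ := by
      refine Summable.of_nonneg_of_le (fun n => norm_nonneg _) (fun n => ?_)
        ((summable_geometric_of_lt_one (norm_nonneg z) hz1).mul_left C)
      rw [norm_mul, norm_pow, Complex.norm_real, Real.norm_eq_abs]
      gcongr
      calc |t n| ≤ C * θ ^ n := hb n
        _ ≤ C * 1 := by gcongr; exact pow_le_one₀ h0.le h1.le
        _ = C := mul_one C
    have h3 := tsum_mul_tsum_eq_tsum_sum_antidiagonal_of_summable_norm s1 s2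
    have h4 : (∑' n, ∑ kl ∈ antidiagonal n, (D kl.1 : ℂ) * z ^ kl.1 * ((t kl.2 : ℂ) * z ^ kl.2)) = 1 := by
      rw [tsum_eq_single 0]
      · have := hconv 0
        unfold conv at this
        simp only [Finset.Nat.antidiagonal_zero, sum_singleton, if_true] at this ⊢
        rw [pow_zero, mul_one, mul_one]
        exact_mod_cast this
      · intro n hn
        have h5 := hconv n
        rw [if_neg hn] at h5
        unfold conv at h5
        have : ∀ kl ∈ antidiagonal n, (D kl.1 : ℂ) * z ^ kl.1 * ((t kl.2 : ℂ) * z ^ kl.2) =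
            ((D kl.1 * t kl.2 : ℝ) : ℂ) * z ^ n := by
          intro kl hkl
          rw [← mem_antidiagonal.mp hkl, pow_add]
          push_cast; ring
        rw [sum_congr rfl this, ← sum_mul, ← Complex.ofReal_sum, h5]
        simp
    rw [h4] at h3
    exact eq_inv_of_mul_eq_one_left h3
  have heq := (((ser_sum hD).congr hg)).eq_formalMultilinearSeries hps
  refine ⟨(2 * Real.pi)⁻¹ * ∫ θ : ℝ in 0..2 * Real.pi,
      ‖(fun z => (T z)⁻¹) (circleMap 0 (R' : ℝ) θ)‖, R⁻¹, ?_,
    inv_pos.mpr hR0, inv_lt_one_of_one_lt₀ hR, ?_⟩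
  · refine mul_nonneg (by positivity) ?_
    exact intervalIntegral.integral_nonneg (by positivity) (fun _ _ => norm_nonneg _)
  · intro n
    have h5 := norm_cauchyPowerSeries_le (fun z => (T z)⁻¹) 0 (R' : ℝ) n
    rw [← heq, FormalMultilinearSeries.ofScalars_norm, Complex.norm_real, Real.norm_eq_abs] at h5
    have h6 : |(R' : ℝ)| = R := by rw [hR', abs_of_pos hR0]
    rw [h6] at h5
    exact h5

theorem ExpSmall.tail {e : ℕ → ℝ} (h : ExpSmall e) : ExpSmall fun n => ∑' k, e (k + (n + 1)) := by
  obtain ⟨C, θ, hC, h0, h1, hb⟩ := h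
  refine ⟨C / (1 - θ), θ, div_nonneg hC (by linarith), h0, h1, ?_⟩
  intro n
  have hg := (summable_geometric_of_lt_one h0.le h1).mul_left (C * θ ^ (n + 1))
  have h2 : ∀ k, ‖e (k + (n + 1))‖ ≤ C * θ ^ (n + 1) * θ ^ k := by
    intro k
    rw [Real.norm_eq_abs]
    refine (hb _).trans (le_of_eq ?_)
    rw [pow_add]; ring
  have h3 := tsum_of_norm_bounded hg.hasSum h2
  rw [Real.norm_eq_abs, tsum_mul_left, tsum_geometric_of_lt_one h0.le h1] at h3
  refine h3.trans ?_
  have h4 : 0 ≤ C / (1 - θ) * θ ^ n :=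
    mul_nonneg (div_nonneg hC (by linarith)) (pow_pos h0 n).le
  calc C * θ ^ (n + 1) * (1 - θ)⁻¹ = C / (1 - θ) * θ ^ n * θ := by
        rw [pow_succ, div_eq_mul_inv]; ring
    _ ≤ C / (1 - θ) * θ ^ n * 1 := mul_le_mul_of_nonneg_left h1.le h4
    _ = C / (1 - θ) * θ ^ n := mul_one _

theorem conv_comm (a b : ℕ → ℝ) (n : ℕ) : conv a b n = conv b a n := by
  unfold conv
  rw [← Finset.Nat.sum_antidiagonal_swap]
  refine sum_congr rfl fun p _ => ?_
  simp only [Prod.fst_swap, Prod.snd_swap]
  ring

theorem ren_nonneg {p v : ℕ → ℝ} (h : IsRenewal p v) (n : ℕ) : 0 ≤ v n := by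
  induction n using Nat.strong_induction_on with
  | _ n ih =>
    rcases Nat.eq_zero_or_pos n with h0 | h0
    · rw [h0, h.init]; exact zero_le_one
    · rw [h.step n h0]
      refine sum_nonneg fun m hm => mul_nonneg (h.nonneg _) (ih _ ?_)
      rw [mem_range] at hm; omega

/-- The tails. -/
private noncomputable def tl (p : ℕ → ℝ) (n : ℕ) : ℝ := ∑' k, p (k + (n + 1))

private theorem tl_succ {p : ℕ → ℝ} (hp : Summable p) (n : ℕ) :
    tl p n = p (n + 1) + tl p (n + 1) := by
  unfold tl
  rw [((summable_nat_add_iff (n + 1)).mpr hp).tsum_eq_zero_add]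
  rw [zero_add]
  congr 1
  refine tsum_congr fun k => ?_
  congr 1; ring

private theorem conv_tl {p v : ℕ → ℝ} (h : IsRenewal p v) (hs : ∑' n, p n = 1)
    (hp : Summable p) (n : ℕ) : conv (tl p) v n = 1 := by
  have ht0 : tl p 0 = 1 := by
    unfold tl
    rw [hp.tsum_eq_zero_add, h.zero, zero_add] at hs
    exact hs
  induction n with
  | zero =>
    unfold conv
    rw [Finset.Nat.antidiagonal_zero, sum_singleton, ht0, h.init, mul_one]
  | succ n ih =>
    unfold conv at ih ⊢
    rw [Finset.Nat.sum_antidiagonal_succ]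
    simp only [ht0, one_mul]
    have h1 : v (n + 1) = ∑ q ∈ antidiagonal n, p (q.1 + 1) * v q.2 := by
      rw [h.step (n + 1) (by omega), Finset.Nat.sum_antidiagonal_eq_sum_range_succ_mk]
      refine sum_congr rfl fun m hm => ?_
      rw [mem_range] at hm
      congr 2
      omega
    rw [h1, ← sum_add_distrib, ← ih]
    refine sum_congr rfl fun q _ => ?_
    rw [tl_succ hp q.1]; ring

/-- **Kendall's renewal theorem**, normalised. -/
theorem kendall_norm {p v : ℕ → ℝ} (h : IsRenewal p v) (hs : ∑' n, p n = 1) (hp : ExpSmall p) :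
    ∃ c : ℝ, 0 < c ∧ ExpSmall (fun n => v n - c) := by
  have hps := hp.summable
  have ht : ExpSmall (tl p) := hp.tail
  have htn : ∀ n, 0 ≤ tl p n := fun n => tsum_nonneg fun k => h.nonneg _
  have ht0 : tl p 0 = 1 := by
    have := hs
    unfold tl
    rw [hps.tsum_eq_zero_add, h.zero, zero_add] at this
    exact this
  have hv := ren_nonneg h
  have hv1 : ∀ n, v n ≤ 1 := by
    intro n
    have h1 := conv_tl h hs hps n
    unfold conv at h1
    have h2 : tl p 0 * v n ≤ ∑ q ∈ antidiagonal n, tl p q.1 * v q.2 :=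
      single_le_sum (f := fun q : ℕ × ℕ => tl p q.1 * v q.2)
        (fun q _ => mul_nonneg (htn _) (hv _)) (a := (0, n)) (by simp)
    rw [ht0, one_mul, h1] at h2
    exact h2
  set D : ℕ → ℝ := fun n => if n = 0 then 1 else v n - v (n - 1) with hD
  have hD0 : D 0 = 1 := by simp [hD]
  have hDs : ∀ n, D (n + 1) = v (n + 1) - v n := by intro n; simp [hD]
  have hDb : ∀ n, |D n| ≤ 1 := by
    intro n
    rcases n with _ | n
    · rw [hD0, abs_one]
    · rw [hDs, abs_le]
      constructor <;> linarith [hv n, hv (n + 1), hv1 n, hv1 (n + 1)]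
  have hconv : ∀ n, conv D (tl p) n = if n = 0 then 1 else 0 := by
    intro n
    rw [conv_comm]
    rcases n with _ | n
    · unfold conv
      rw [Finset.Nat.antidiagonal_zero, sum_singleton, ht0, hD0]
      simp
    · have h1 := conv_tl h hs hps (n + 1)
      have h2 := conv_tl h hs hps n
      unfold conv at h1 h2 ⊢
      rw [Finset.Nat.sum_antidiagonal_succ'] at h1 ⊢
      simp only [h.init, hD0, hDs] at h1 ⊢
      rw [if_neg (by omega)]
      simp only [mul_sub]
      rw [sum_sub_distrib]
      linarith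
  have hz : ∀ z : ℂ, ‖z‖ ≤ 1 → ∑' n, (tl p n : ℂ) * z ^ n ≠ 0 := by
    intro z hz1 hT
    have s0 : Summable fun n => (tl p n : ℂ) * z ^ n := by
      refine Summable.of_norm_bounded (g := fun n => tl p n) ht.summable ?_
      intro n
      rw [norm_mul, norm_pow, Complex.norm_real, Real.norm_eq_abs, abs_of_nonneg (htn n)]
      exact mul_le_of_le_one_right (htn n) (pow_le_one₀ (norm_nonneg z) hz1)
    have sp : Summable fun n => (p n : ℂ) * z ^ n := by
      refine Summable.of_norm_bounded (g := fun n => p n) hps ?_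
      intro n
      rw [norm_mul, norm_pow, Complex.norm_real, Real.norm_eq_abs, abs_of_nonneg (h.nonneg n)]
      exact mul_le_of_le_one_right (h.nonneg n) (pow_le_one₀ (norm_nonneg z) hz1)
    have hP : ∑' n, (p n : ℂ) * z ^ n = 1 := by
      have e1 : ∑' n, ((tl p (n + 1) : ℂ) * z ^ (n + 1)) = -1 := by
        have := s0.tsum_eq_zero_add
        rw [hT, ht0] at this
        simp only [Complex.ofReal_one, pow_zero, mul_one] at this
        linear_combination (-1) * this
      have e2 : ∑' n, ((tl p n : ℂ) * z ^ (n + 1)) = 0 := by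
        have : (fun n => (tl p n : ℂ) * z ^ (n + 1)) = fun n => (tl p n : ℂ) * z ^ n * z := by
          funext n; rw [pow_succ]; ring
        rw [this, tsum_mul_right, hT, zero_mul]
      have s1 : Summable fun n => (tl p (n + 1) : ℂ) * z ^ (n + 1) :=
        (summable_nat_add_iff 1).mpr s0
      have s2 : Summable fun n => (tl p n : ℂ) * z ^ (n + 1) := by
        have : (fun n => (tl p n : ℂ) * z ^ (n + 1)) = fun n => (tl p n : ℂ) * z ^ n * z := by
          funext n; rw [pow_succ]; ring
        rw [this]; exact s0.mul_right z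
      rw [sp.tsum_eq_zero_add, h.zero]
      have e3 : ∑' n, ((p (n + 1) : ℂ) * z ^ (n + 1)) = 1 := by
        have : (fun n => (p (n + 1) : ℂ) * z ^ (n + 1)) =
            fun n => (tl p n : ℂ) * z ^ (n + 1) - (tl p (n + 1) : ℂ) * z ^ (n + 1) := by
          funext n
          rw [tl_succ hps n]; push_cast; ring
        rw [this, s2.tsum_sub s1, e1, e2]; ring
      rw [e3]; simp
    -- real parts
    have hre : ∑' n, p n * (1 - (z ^ n).re) = 0 := by
      have h1 : (∑' n, (p n : ℂ) * z ^ n).re = 1 := by rw [hP]; simp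
      rw [Complex.re_tsum sp] at h1
      have s3 : Summable fun n => p n * (z ^ n).re := by
        have := Complex.hasSum_re sp.hasSum
        simpa using this.summable
      have h2 : ∑' n, p n * (z ^ n).re = 1 := by
        rw [← h1]
        refine tsum_congr fun n => ?_
        rw [Complex.re_ofReal_mul]
      have : (fun n => p n * (1 - (z ^ n).re)) = fun n => p n - p n * (z ^ n).re := by
        funext n; ring
      rw [this, hps.tsum_sub s3, hs, h2, sub_self]
    have hnn : ∀ n, 0 ≤ p n * (1 - (z ^ n).re) := by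
      intro n
      refine mul_nonneg (h.nonneg n) ?_
      have h1 : (z ^ n).re ≤ ‖z ^ n‖ := Complex.re_le_norm _
      rw [norm_pow] at h1
      have h2 : ‖z‖ ^ n ≤ 1 := pow_le_one₀ (norm_nonneg z) hz1
      linarith
    have s4 : Summable fun n => p n * (1 - (z ^ n).re) := by
      refine Summable.of_nonneg_of_le hnn (fun n => ?_) (hps.mul_right 2)
      refine mul_le_mul_of_nonneg_left ?_ (h.nonneg n)
      have h1 : |(z ^ n).re| ≤ ‖z ^ n‖ := Complex.abs_re_le_norm _
      rw [norm_pow] at h1
      have h2 : ‖z‖ ^ n ≤ 1 := pow_le_one₀ (norm_nonneg z) hz1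
      have h3 := neg_abs_le (z ^ n).re
      linarith
    have h5 : p 1 * (1 - (z ^ 1).re) = 0 := by
      have h6 := s4.le_tsum 1 (fun n _ => hnn n)
      rw [hre] at h6
      exact le_antisymm h6 (hnn 1)
    rw [pow_one] at h5
    have h7 : z.re = 1 := by
      rcases mul_eq_zero.mp h5 with h8 | h8
      · exact absurd h8 h.one.ne'
      · linarith
    have h8 : z = 1 := by
      have h9 : ‖z‖ ^ 2 ≤ 1 := pow_le_one₀ (norm_nonneg z) hz1
      rw [← Complex.normSq_eq_norm_sq, Complex.normSq_apply, h7] at h9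
      have h10 : z.im = 0 := by nlinarith [sq_nonneg z.im]
      exact Complex.ext (by simp [h7]) (by simp [h10])
    rw [h8] at hT
    simp only [one_pow, mul_one] at hT
    rw [← Complex.ofReal_tsum] at hT
    have h9 : ∑' n, tl p n = 0 := by exact_mod_cast hT
    have h10 := ht.summable.le_tsum 0 (fun n _ => htn n)
    rw [h9, ht0] at h10
    linarith
  have hDe := inv_series ht hDb hconv hz
  have hDsum := hDe.summable
  refine ⟨∑' n, D n, ?_, ?_⟩
  · have h1 : (∑' n, D n) * ∑' n, tl p n = 1 := by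
      have h2 := tsum_mul_tsum_eq_tsum_sum_antidiagonal_of_summable_norm hDsum.norm
        ht.summable.norm
      rw [h2, tsum_eq_single 0]
      · have := hconv 0
        unfold conv at this
        rw [this]; simp
      · intro n hn
        have := hconv n
        unfold conv at this
        rw [this, if_neg hn]
    have h3 : 0 ≤ ∑' n, tl p n := tsum_nonneg htn
    by_contra h4
    have h5 : (∑' n, D n) * ∑' n, tl p n ≤ 0 :=
      mul_nonpos_of_nonpos_of_nonneg (not_lt.mp h4) h3
    linarith
  · have hvD : ∀ n, v n = ∑ k ∈ range (n + 1), D k := by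
      intro n
      induction n with
      | zero => rw [sum_range_one, hD0, h.init]
      | succ n ih => rw [sum_range_succ, ← ih, hDs]; ring
    obtain ⟨C, θ, hC, h0, h1, hb⟩ := hDe.tail
    refine ⟨C, θ, hC, h0, h1, ?_⟩
    intro n
    have h2 := hDsum.sum_add_tsum_nat_add (n + 1)
    show |v n - ∑' k, D k| ≤ C * θ ^ n
    rw [hvD n, ← h2]
    have h3 := hb n
    rw [show (∑ k ∈ range (n + 1), D k - (∑ k ∈ range (n + 1), D k + ∑' k, D (k + (n + 1)))) =
      -∑' k, D (k + (n + 1)) by ring, abs_neg]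
    exact h3

/-! ### From the radius of convergence -/

private theorem mul_pow_conv (a b : ℕ → ℝ) (x : ℝ) (n : ℕ) :
    conv a b n * x ^ n = conv (fun k => a k * x ^ k) (fun k => b k * x ^ k) n := by
  unfold conv
  rw [sum_mul]
  refine sum_congr rfl fun q hq => ?_
  rw [← mem_antidiagonal.mp hq, pow_add]; ring

private theorem ren_conv {f u : ℕ → ℝ} (h : IsRenewal f u) (n : ℕ) :
    u n = (if n = 0 then 1 else 0) + conv f u n := by
  rcases n with _ | n
  · unfold conv
    rw [Finset.Nat.antidiagonal_zero, sum_singleton, h.zero, h.init]; simp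
  · unfold conv
    rw [Finset.Nat.sum_antidiagonal_succ]
    simp only [h.zero, zero_mul, zero_add]
    rw [if_neg (by omega), zero_add, h.step (n + 1) (by omega),
      Finset.Nat.sum_antidiagonal_eq_sum_range_succ_mk]
    refine sum_congr rfl fun m hm => ?_
    rw [mem_range] at hm
    congr 2
    omega

/-- The sum of the first-return sequence at the radius of convergence is one. -/
theorem sum_eq_one {f u : ℕ → ℝ} {ρ r : ℝ} (h : IsRenewal f u) (hρ : 0 < ρ) (hr : ρ < r)
    (hf : Summable fun n => f n * r ^ n)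
    (hconv : ∀ x, 0 ≤ x → x < ρ → Summable fun n => u n * x ^ n)
    (hdiv : ∀ x, ρ < x → ¬ Summable fun n => u n * x ^ n) : ∑' n, f n * ρ ^ n = 1 := by
  have hu := ren_nonneg h
  have hfx : ∀ x, 0 ≤ x → x ≤ r → Summable fun n => f n * x ^ n := by
    intro x hx0 hxr
    refine Summable.of_nonneg_of_le (fun n => mul_nonneg (h.nonneg n) (pow_nonneg hx0 n))
      (fun n => ?_) hf
    exact mul_le_mul_of_nonneg_left (pow_le_pow_left₀ hx0 hxr n) (h.nonneg n)
  refine le_antisymm ?_ ?_
  · -- at most one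
    have hlt : ∀ x, 0 ≤ x → x < ρ → ∑' n, f n * x ^ n < 1 := by
      intro x hx0 hx
      have hU := hconv x hx0 hx
      have hF := hfx x hx0 (by linarith)
      have h1 : ∑' n, u n * x ^ n = 1 + (∑' n, f n * x ^ n) * ∑' n, u n * x ^ n := by
        rw [tsum_mul_tsum_eq_tsum_sum_antidiagonal_of_summable_norm hF.norm hU.norm]
        have h2 : ∀ n, u n * x ^ n = (if n = 0 then 1 else 0) +
            ∑ kl ∈ antidiagonal n, f kl.1 * x ^ kl.1 * (u kl.2 * x ^ kl.2) := by
          intro n
          have h3 := mul_pow_conv f u x n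
          unfold conv at h3
          rw [← h3]
          conv_lhs => rw [ren_conv h n, add_mul]
          unfold conv
          congr 1
          split_ifs with h4
          · rw [h4]; simp
          · simp
        have h4 : Summable fun n : ℕ => (if n = 0 then (1 : ℝ) else 0) :=
          summable_of_ne_finset_zero (s := {0}) (by intro n hn; simp at hn; simp [hn])
        have h5 := (summable_norm_sum_mul_antidiagonal_of_summable_norm hF.norm hU.norm).of_norm
        calc ∑' n, u n * x ^ n = ∑' n, ((if n = 0 then (1 : ℝ) else 0) +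
            ∑ kl ∈ antidiagonal n, f kl.1 * x ^ kl.1 * (u kl.2 * x ^ kl.2)) := tsum_congr h2
          _ = _ := by
            rw [h4.tsum_add h5, tsum_ite_eq]
      have h2 : 1 ≤ ∑' n, u n * x ^ n := by
        have := hU.le_tsum 0 (fun n _ => mul_nonneg (hu n) (pow_nonneg hx0 n))
        simpa [h.init] using this
      by_contra h3
      have h4 : ∑' n, u n * x ^ n ≤ (∑' n, f n * x ^ n) * ∑' n, u n * x ^ n :=
        le_mul_of_one_le_left (by linarith) (not_lt.mp h3)
      linarith
    refine (hfx ρ hρ.le hr.le).tsum_le_of_sum_range_le fun N => ?_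
    have h1 : Tendsto (fun x : ℝ => ∑ n ∈ range N, f n * x ^ n) (𝓝[<] ρ)
        (𝓝 (∑ n ∈ range N, f n * ρ ^ n)) := by
      have : Continuous fun x : ℝ => ∑ n ∈ range N, f n * x ^ n := by fun_prop
      exact (this.tendsto ρ).mono_left nhdsWithin_le_nhds
    refine le_of_tendsto h1 ?_
    have h2 : ∀ᶠ x in 𝓝[<] ρ, 0 < x := by
      have : ∀ᶠ x in 𝓝 ρ, 0 < x := lt_mem_nhds hρ
      exact this.filter_mono nhdsWithin_le_nhds
    filter_upwards [self_mem_nhdsWithin, h2] with x hx hx0
    exact ((hfx x hx0.le ((le_of_lt hx).trans hr.le)).sum_le_tsum _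
      (fun n _ => mul_nonneg (h.nonneg n) (pow_nonneg hx0.le n))).trans (hlt x hx0.le hx).le
  · -- at least one
    by_contra hlt
    rw [not_le] at hlt
    have hcont : ContinuousOn (fun x : ℝ => ∑' n, f n * x ^ n) (Set.Icc 0 r) := by
      refine continuousOn_tsum (u := fun n => f n * r ^ n) (fun n => by fun_prop) hf ?_
      intro n x hx
      rw [Real.norm_eq_abs, abs_of_nonneg (mul_nonneg (h.nonneg n) (pow_nonneg hx.1 n))]
      exact mul_le_mul_of_nonneg_left (pow_le_pow_left₀ hx.1 hx.2 n) (h.nonneg n)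
    obtain ⟨x, hx1, hx2, hx3⟩ : ∃ x, ρ < x ∧ x ≤ r ∧ ∑' n, f n * x ^ n < 1 := by
      have h1 : ContinuousWithinAt (fun x : ℝ => ∑' n, f n * x ^ n) (Set.Icc 0 r) ρ :=
        hcont ρ ⟨hρ.le, hr.le⟩
      have h2 : ContinuousWithinAt (fun x : ℝ => ∑' n, f n * x ^ n) (Set.Ioc ρ r) ρ :=
        h1.mono fun y hy => ⟨hρ.le.trans hy.1.le, hy.2⟩
      have h3 : ∀ᶠ x in 𝓝[Set.Ioc ρ r] ρ, ∑' n, f n * x ^ n < 1 :=
        h2.eventually (gt_mem_nhds hlt)
      have h4 : (𝓝[Set.Ioc ρ r] ρ).NeBot := by
        rw [nhdsWithin_Ioc_eq_nhdsGT hr]; infer_instance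
      obtain ⟨x, hx⟩ := (h3.and self_mem_nhdsWithin).exists
      exact ⟨x, hx.2.1, hx.2.2, hx.1⟩
    refine hdiv x hx1 ?_
    have hx0 : 0 ≤ x := by linarith
    have hF := hfx x hx0 hx2
    refine summable_of_sum_range_le (c := 1 / (1 - ∑' n, f n * x ^ n))
      (fun n => mul_nonneg (hu n) (pow_nonneg hx0 n)) (fun N => ?_)
    rw [le_div_iff₀ (by linarith)]
    have h6 : ∑ n ∈ range N, u n * x ^ n ≤
        1 + (∑' n, f n * x ^ n) * ∑ n ∈ range N, u n * x ^ n := by
      have h7 : ∀ n, u n * x ^ n = (if n = 0 then 1 else 0) +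
          ∑ kl ∈ antidiagonal n, (f kl.1 * x ^ kl.1) * (u kl.2 * x ^ kl.2) := by
        intro n
        have h3 := mul_pow_conv f u x n
        unfold conv at h3
        rw [← h3]
        conv_lhs => rw [ren_conv h n, add_mul]
        unfold conv
        congr 1
        split_ifs with h4
        · rw [h4]; simp
        · simp
      have h8 : ∑ n ∈ range N, u n * x ^ n = ∑ n ∈ range N, (if n = 0 then (1 : ℝ) else 0) +
          ∑ n ∈ range N, ∑ kl ∈ antidiagonal n, (f kl.1 * x ^ kl.1) * (u kl.2 * x ^ kl.2) := by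
        rw [← sum_add_distrib]
        exact sum_congr rfl fun n _ => h7 n
      have h9 : ∑ n ∈ range N, (if n = 0 then (1 : ℝ) else 0) ≤ 1 := by
        rcases Nat.eq_zero_or_pos N with h0 | h0
        · rw [h0]; simp
        · rw [sum_ite_eq']; split_ifs <;> norm_num
      have h10 : ∑ n ∈ range N, ∑ kl ∈ antidiagonal n, (f kl.1 * x ^ kl.1) * (u kl.2 * x ^ kl.2) ≤
          (∑ n ∈ range N, f n * x ^ n) * ∑ n ∈ range N, u n * x ^ n := by
        rw [sum_mul_sum, ← sum_product', ← sum_biUnion]
        · refine sum_le_sum_of_subset_of_nonneg ?_ ?_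
          · intro q hq
            rw [mem_biUnion] at hq
            obtain ⟨n, hn, hq⟩ := hq
            rw [HasAntidiagonal.mem_antidiagonal] at hq
            rw [mem_range] at hn
            rw [mem_product, mem_range, mem_range]
            constructor <;> omega
          · intro q _ _
            exact mul_nonneg (mul_nonneg (h.nonneg _) (pow_nonneg hx0 _))
              (mul_nonneg (hu _) (pow_nonneg hx0 _))
        · intro m _ n _ hmn
          rw [Function.onFun, disjoint_left]
          intro q hq hq'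
          rw [HasAntidiagonal.mem_antidiagonal] at hq hq'
          exact hmn (hq.symm.trans hq')
      have h11 : ∑ n ∈ range N, f n * x ^ n ≤ ∑' n, f n * x ^ n :=
        hF.sum_le_tsum _ (fun n _ => mul_nonneg (h.nonneg n) (pow_nonneg hx0 n))
      have h12 : 0 ≤ ∑ n ∈ range N, u n * x ^ n :=
        sum_nonneg fun n _ => mul_nonneg (hu n) (pow_nonneg hx0 n)
      rw [h8] at *
      nlinarith [mul_le_mul_of_nonneg_right h11 h12]
    nlinarith

end Pool.Agent.KTube
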