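import Pool.Agent.KTube.Sub

/-! The number of knotted parts. -/

set_option autoImplicit false

open scoped ENNReal
open Finset

namespace Pool.Agent.KTube

open Pool.Agent.LK

variable {E A B X : Finset (Sym2 P3)} {k i j : ℤ} {L M : ℕ} {C : Set (Finset (Sym2 P3))}

/-- `KLen n E`: `E` is a composition of at least `n` knotted parts. -/
inductive KLen : ℕ → Finset (Sym2 P3) → Prop
  | zero (E : Finset (Sym2 P3)) : KLen 0 E
  | one (E : Finset (Sym2 P3)) : ¬ Unknotted E → KLen 1 E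
  | succ (n : ℕ) (A B : Finset (Sym2 P3)) (k : ℤ) : IsLow A k → IsUpp B k → ¬ Unknotted A →
      KLen (n + 1) B → KLen (n + 2) (glue A B k)

theorem KLen.knotted (hT1 : StretchStatement) {n : ℕ} (h : KLen (n + 1) E) : ¬ Unknotted E := by
  generalize hm : n + 1 = m at h
  cases h with
  | zero => omega
  | one E h1 => exact h1
  | succ n A B k hA hB h1 h2 => exact fun hU => h1 (((typeStatement hT1 A B k hA hB).1.1 hU).1)

theorem KLen.glue_upp (hT1 : StretchStatement) {n : ℕ} (hA : IsLow A k) (hB : IsUpp B k)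
    (h : KLen n B) : KLen n (glue A B k) := by
  cases h with
  | zero => exact KLen.zero _
  | one E h1 => exact KLen.one _ fun hU => h1 (((typeStatement hT1 A B k hA hB).1.1 hU).2)
  | succ n A' B' k' hA' hB' h1 h2 =>
    have hkk : k ≤ k' := by
      by_contra hlt
      rw [not_le] at hlt
      have h3 := (isV0_glue hA' hB').nonempty
      rw [hB.cross_empty hlt] at h3
      exact Set.not_nonempty_empty h3
    rcases eq_or_lt_of_le hkk with h0 | h0
    · subst h0
      exfalso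
      apply h1
      refine unknotted_of_low_upp hA' ⟨hA'.1, hA'.2.1, ?_, ?_⟩
      · exact (mem_glue_low hA' hB' le_rfl).1 hB.2.2.1
      · exact fun u hu => hB.2.2.2 u (verts_glue_of_low hA' hB' hu)
    · have hA'u : IsUpp A' k := (isUpp_glue hA' hB' h0).1 hB
      rw [glue_assoc hA hA'u hA' hB' hkk]
      refine KLen.succ n _ _ _ (isLow_glue_of_le hA hA'u hA' hkk) hB' ?_ h2
      exact fun hU => h1 (((typeStatement hT1 A A' k hA hA'u).1.1 hU).2)

theorem KLen.glue_low (hT1 : StretchStatement) : ∀ (n : ℕ) (A B : Finset (Sym2 P3)) (k : ℤ),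
    IsLow A k → IsUpp B k → KLen n A → KLen n (glue A B k) := by
  intro n
  induction n using Nat.strong_induction_on with
  | _ n ih =>
    intro A B k hA hB h
    cases h with
    | zero => exact KLen.zero _
    | one E h1 => exact KLen.one _ fun hU => h1 (((typeStatement hT1 A B k hA hB).1.1 hU).1)
    | succ n A' B' k' hA' hB' h1 h2 =>
      have hkk : k' ≤ k := by
        by_contra hlt
        rw [not_le] at hlt
        have h3 := (isV0_glue hA' hB').nonempty
        rw [hA.cross_empty hlt] at h3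
        exact Set.not_nonempty_empty h3
      rcases eq_or_lt_of_le hkk with h0 | h0
      · subst h0
        exfalso
        refine h2.knotted hT1 (unknotted_of_low_upp ⟨hB'.1, hB'.2.1, ?_, ?_⟩ hB')
        · exact (mem_glue_upp hA' hB' (by simp only; omega)).1 hA.2.2.1
        · exact fun u hu => hA.2.2.2 u (verts_glue_of_upp hA' hB' hu)
      · have hB'l : IsLow B' k := (isLow_glue hA' hB' h0).1 hA
        rw [← glue_assoc hA' hB' hB'l hB hkk]
        exact KLen.succ n _ _ _ hA' (isUpp_glue_of_le hB' hB'l hB hkk) h1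
          (ih (n + 1) (by omega) _ _ _ hB'l hB h2)

/-- A class with at most `N` knotted parts. -/
def FinLen (C : Set (Finset (Sym2 P3))) (N : ℕ) : Prop :=
  ∀ E, IsPolygon E → E ∈ C → ¬ KLen (N + 1) E

theorem finLen_unknot (hT1 : StretchStatement) : FinLen US 0 := fun _ _ hE h =>
  h.knotted hT1 hE

theorem finLen_prime (hT1 : StretchStatement) {K : Finset (Sym2 P3)} (hK : PrimeKnot K) :
    FinLen (KS K) 1 := by
  intro E _ hE h
  generalize hm : 1 + 1 = m at h
  cases h with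
  | zero => omega
  | one E h1 => omega
  | succ n A B k hA hB h1 h2 =>
    rcases (typeStatement hT1 A B k hA hB).2.2.2 K hK hE with ⟨h3, -⟩ | ⟨h3, -⟩
    · exact h1 h3
    · exact h2.knotted hT1 h3

/-! ### Cutting the parts of a polygon of the class -/

theorem cut_P1 (hC : ∀ E F, SameType E F → E ∈ C → F ∈ C) (hA : A ∈ BotSet L M)
    (hB : B ∈ UppSet L M) (h : comp (A, B) ∈ C ∪ SubL L M C) :
    A ∈ SubL L M C ∧ B ∈ SubU L M C ∪ SubM L M C := by
  obtain ⟨⟨hP, hT, hG⟩, -, k, hk, hA, hu⟩ := hA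
  obtain ⟨hB, hTB⟩ := hB
  have hB' := isUpp_shift_self hB k
  have hTB' : InTube L M (shift (0, 0, k) B) := (inTube_shift _).2 hTB
  rw [comp_eq hA] at h
  rcases h with h | h
  · exact ⟨low_subL_of_C hA hB' hTB' h, Or.inl (upp_subU_of_C hA hB' hT h hC)⟩
  · exact ⟨low_subL_of_subL hA hB' hTB' h, Or.inr (upp_subM_of_subL hA hB' hT h hC)⟩

theorem cut_P2 (hC : ∀ E F, SameType E F → E ∈ C → F ∈ C) (hA : A ∈ MidSet L M)
    (hB : B ∈ UppSet L M) (h : comp (A, B) ∈ SubU L M C ∪ SubM L M C) :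
    A ∈ SubM L M C ∧ B ∈ SubU L M C ∪ SubM L M C := by
  obtain ⟨⟨hP, hT, hG⟩, hU, k, hk, hA, hu⟩ := hA
  obtain ⟨hB, hTB⟩ := hB
  have hB' := isUpp_shift_self hB k
  have hTB' : InTube L M (shift (0, 0, k) B) := (inTube_shift _).2 hTB
  rw [comp_eq hA] at h
  rcases h with ⟨A0, hTA0, hA0, hX, hg⟩ | ⟨A0, R, j, hj, hTA0, hR, hA0, hX, hX', hR', hg⟩
  · refine ⟨⟨A0, _, k, hk.le, hTA0, hTB', hA0, hU, hA, hB', hg⟩, Or.inl ?_⟩
    rw [glue_assoc hA0 hU hA hB' hk.le] at hg
    exact upp_subU_of_C (isLow_glue_of_le hA0 hU hA hk.le) hB'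
      ((inTube_glue hA0 hU).2 ⟨hTA0, hT⟩) hg hC
  · have hkj : k ≤ j := by
      by_contra hlt
      rw [not_le] at hlt
      have h1 := (isV0_glue hA hB').nonempty
      rw [hX'.cross_empty hlt] at h1
      exact Set.not_nonempty_empty h1
    have hBj : IsLow (shift (0, 0, k) B) j := by
      rcases eq_or_lt_of_le hkj with h0 | h0
      · subst h0
        refine ⟨hB'.1, hB'.2.1, (mem_glue_upp hA hB' (by simp only; omega)).1 hX'.2.2.1, ?_⟩
        exact fun u hu => hX'.2.2.2 u (verts_glue_of_upp hA hB' hu)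
      · exact (isLow_glue hA hB' h0).1 hX'
    have hTXR : InTube L M (glue (shift (0, 0, k) B) R j) := (inTube_glue hBj hR').2 ⟨hTB', hR⟩
    have hBR : IsUpp (glue (shift (0, 0, k) B) R j) k := isUpp_glue_of_le hB' hBj hR' hkj
    have hg2 := hg
    rw [← glue_assoc hA hB' hBj hR' hkj] at hg2
    refine ⟨⟨A0, _, k, hk.le, hTA0, hTXR, hA0, hU, hA, hBR, hg2⟩, Or.inr ?_⟩
    rw [glue_assoc hA0 hU hA hBR hk.le] at hg2
    have hAS : IsLow (glue A0 A 0) k := isLow_glue_of_le hA0 hU hA hk.le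
    have hTAS : InTube L M (glue A0 A 0) := (inTube_glue hA0 hU).2 ⟨hTA0, hT⟩
    have hBj0 : IsLow B (j - k) := by rwa [isLow_shift] at hBj
    refine ⟨shift (0, 0, -k) (glue A0 A 0), shift (0, 0, -k) R, j - k, by omega,
      (inTube_shift _).2 hTAS, (inTube_shift _).2 hR, ?_, hB, hBj0, ?_, ?_⟩
    · have := isLow_shift_add (t := -k) hAS
      rwa [add_neg_cancel] at this
    · exact isUpp_shift_add (t := -k) hR'
    · have h1 := hC _ _ (sameType_shift (0, 0, -k) _) hg2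
      rw [shift_glue (-k) (glue A0 A 0), shift_glue (-k) (shift (0, 0, k) B), shift_shift] at h1
      have e1 : (((0, 0, -k) : P3) + (0, 0, k)) = 0 := by simp
      rw [e1, shift_zero, add_neg_cancel] at h1
      exact h1

/-! ### Coefficientwise inequalities -/

/-- Coefficientwise comparison. -/
def LeS (a b : PowerSeries ℝ≥0∞) : Prop := ∀ n, PowerSeries.coeff n a ≤ PowerSeries.coeff n b

theorem LeS.refl (a : PowerSeries ℝ≥0∞) : LeS a a := fun _ => le_rfl

theorem LeS.trans {a b c : PowerSeries ℝ≥0∞} (h : LeS a b) (h' : LeS b c) : LeS a c :=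
  fun n => (h n).trans (h' n)

theorem LeS.add {a b c d : PowerSeries ℝ≥0∞} (h : LeS a b) (h' : LeS c d) :
    LeS (a + c) (b + d) := fun n => by
  rw [map_add, map_add]
  exact add_le_add (h n) (h' n)

theorem LeS.mul {a b c d : PowerSeries ℝ≥0∞} (h : LeS a b) (h' : LeS c d) :
    LeS (a * c) (b * d) := fun n => by
  rw [PowerSeries.coeff_mul, PowerSeries.coeff_mul]
  exact sum_le_sum fun p _ => mul_le_mul' (h _) (h' _)

theorem LeS.evs {a b : PowerSeries ℝ≥0∞} (h : LeS a b) (z : ℝ≥0∞) : evs a z ≤ evs b z :=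
  ENNReal.tsum_le_tsum fun n => mul_le_mul' (h n) le_rfl

theorem leS_subset {α : Type*} {S T : Set α} (h : S ⊆ T) (l : α → ℕ) (w : α → ℝ≥0∞) :
    LeS (sset S l w) (sset T l w) := by
  intro n
  unfold sset
  rw [coeff_ser, coeff_ser]
  exact ENNReal.tsum_comp_le_tsum_of_injective (Set.inclusion_injective h)
    fun x : T => if l x = n then w x else 0

theorem leS_union {α : Type*} (S T : Set α) (l : α → ℕ) (w : α → ℝ≥0∞) :
    LeS (sset (S ∪ T) l w) (sset S l w + sset T l w) := by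
  have h1 : S ∪ T = S ∪ (T \ S) := Set.union_sdiff_self.symm
  rw [h1, sset_union Set.disjoint_sdiff_right]
  exact LeS.add (LeS.refl _) (leS_subset Set.sdiff_subset l w)

theorem solve_le {A S W U : PowerSeries ℝ≥0∞} (hS : PowerSeries.coeff 0 S = 0)
    (h : LeS W (A + S * W)) (hU : U = 1 + S * U) : LeS W (U * A) := by
  have hUA : U * A = A + S * (U * A) := by
    conv_lhs => rw [hU]
    ring
  intro n
  induction n using Nat.strong_induction_on with
  | _ n ih =>
    refine (h n).trans ?_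
    rw [hUA, map_add, map_add, PowerSeries.coeff_mul, PowerSeries.coeff_mul]
    refine add_le_add le_rfl (sum_le_sum fun p hp => ?_)
    rw [HasAntidiagonal.mem_antidiagonal] at hp
    by_cases h0 : p.1 = 0
    · rw [h0, hS, zero_mul, zero_mul]
    · exact mul_le_mul' le_rfl (ih p.2 (by omega))

/-! ### Upper parts with a bounded number of knotted parts -/

variable {Y : ℝ≥0∞}

/-- The upper parts of the class with at most `n` knotted parts. -/
def WSet (L M : ℕ) (C : Set (Finset (Sym2 P3))) (n : ℕ) : Set (Finset (Sym2 P3)) :=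
  {B | B ∈ UppSet L M ∧ B ∈ SubU L M C ∪ SubM L M C ∧ ¬ KLen (n + 1) B}

/-- The knotted middle pieces. -/
def KnSet (L M : ℕ) (C : Set (Finset (Sym2 P3))) : Set (Finset (Sym2 P3)) :=
  {S | S ∈ MidSet L M ∧ S ∈ SubM L M C ∧ ¬ Unknotted S}

/-- The top pieces of the class. -/
def TpSet (L M : ℕ) (C : Set (Finset (Sym2 P3))) : Set (Finset (Sym2 P3)) :=
  {B | B ∈ TopSet L M ∧ B ∈ SubU L M C ∪ SubM L M C}

theorem sset_comp_image {D : Set (Finset (Sym2 P3) × Finset (Sym2 P3))} (hT2 : CutStatement)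
    (hD : D ⊆ MidSet L M ×ˢ UppSet L M) :
    sset (comp '' D) lB (wB Y) = sset D (fun p => lB p.1 + lB p.2) fun p => wB Y p.1 * wB Y p.2 := by
  refine (sset_bij (((bij_mid hT2).injOn.mono hD).bijOn_image) ?_ ?_).symm
  · rintro ⟨S, B⟩ h
    obtain ⟨k, -, hk⟩ := exists_low_of_mid (hD h).1
    exact lB_comp hk (hD h).2.1
  · rintro ⟨S, B⟩ h
    obtain ⟨k, -, hk⟩ := exists_low_of_mid (hD h).1
    exact wB_comp hk (hD h).2.1

theorem klen_comp_upp (hT1 : StretchStatement) {n : ℕ} (hA : IsLow A k) (hB : IsUpp B 0)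
    (h : KLen n (shift (0, 0, k) B)) : KLen n (comp (A, B)) := by
  rw [comp_eq hA]
  exact h.glue_upp hT1 hA (isUpp_shift_self hB k)

/-- The number of knotted parts is invariant under translations. -/
theorem KLen.shift {n : ℕ} (h : KLen n E) (t : ℤ) : KLen n (LK.shift (0, 0, t) E) := by
  induction h with
  | zero => exact KLen.zero _
  | one E h => exact KLen.one _ fun hU => h ((sameType_shift _ _).unknotted hU)
  | succ n A B k hA hB h1 _ ih =>
    rw [shift_glue]
    exact KLen.succ n _ _ _ (isLow_shift_add hA) (isUpp_shift_add hB)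
      (fun hU => h1 ((sameType_shift _ _).unknotted hU)) ih

theorem wSet_zero (hT1 : StretchStatement) (hT2 : CutStatement)
    (hC : ∀ E F, SameType E F → E ∈ C → F ∈ C) :
    LeS (sset (WSet L M C 0) lB (wB Y)) (sset (TpSet L M C) lB (wB Y) +
      sset (MidSet L M ∩ US) lB (wB Y) * sset (WSet L M C 0) lB (wB Y)) := by
  have hsub : WSet L M C 0 ⊆ TpSet L M C ∪ comp '' ((MidSet L M ∩ US) ×ˢ WSet L M C 0) := by
    intro E hE
    obtain ⟨h1, h2, h3⟩ := hE
    have h4 := h1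
    rw [uppSet_eq] at h4
    rcases h4 with h4 | h4
    · exact Or.inl ⟨h4, h2⟩
    · obtain ⟨⟨S, B⟩, ⟨hS, hB⟩, rfl⟩ := (bij_mid hT2).surjOn h4
      obtain ⟨h5, h6⟩ := cut_P2 hC hS hB h2
      obtain ⟨k, -, hk⟩ := exists_low_of_mid hS
      have hun : Unknotted (comp (S, B)) := by
        by_contra hU
        exact h3 (KLen.one _ hU)
      have h7 := (comp_mem_US hT1 hk hB.1).1 hun
      refine Or.inr ⟨(S, B), ⟨⟨hS, h7.1⟩, hB, h6, fun h8 => h8.knotted hT1 h7.2⟩, rfl⟩
  refine (leS_subset hsub _ _).trans ((leS_union _ _ _ _).trans (LeS.add (LeS.refl _) ?_))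
  rw [sset_comp_image hT2 fun p hp => ⟨hp.1.1, hp.2.1⟩, sset_prod]
  exact LeS.refl _

theorem wSet_succ (hT1 : StretchStatement) (hT2 : CutStatement)
    (hC : ∀ E F, SameType E F → E ∈ C → F ∈ C) (n : ℕ) :
    LeS (sset (WSet L M C (n + 1)) lB (wB Y)) ((sset (TpSet L M C) lB (wB Y) +
      sset (KnSet L M C) lB (wB Y) * sset (WSet L M C n) lB (wB Y)) +
      sset (MidSet L M ∩ US) lB (wB Y) * sset (WSet L M C (n + 1)) lB (wB Y)) := by
  have hsub : WSet L M C (n + 1) ⊆ (TpSet L M C ∪ comp '' (KnSet L M C ×ˢ WSet L M C n)) ∪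
      comp '' ((MidSet L M ∩ US) ×ˢ WSet L M C (n + 1)) := by
    intro E hE
    obtain ⟨h1, h2, h3⟩ := hE
    have h4 := h1
    rw [uppSet_eq] at h4
    rcases h4 with h4 | h4
    · exact Or.inl (Or.inl ⟨h4, h2⟩)
    · obtain ⟨⟨S, B⟩, ⟨hS, hB⟩, rfl⟩ := (bij_mid hT2).surjOn h4
      obtain ⟨h5, h6⟩ := cut_P2 hC hS hB h2
      obtain ⟨k, -, hk⟩ := exists_low_of_mid hS
      by_cases hU : Unknotted S
      · refine Or.inr ⟨(S, B), ⟨⟨hS, hU⟩, hB, h6, fun h8 => h3 ?_⟩, rfl⟩
        exact klen_comp_upp hT1 hk hB.1 (h8.shift k)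
      · refine Or.inl (Or.inr ⟨(S, B), ⟨⟨hS, h5, hU⟩, hB, h6, fun h8 => h3 ?_⟩, rfl⟩)
        rw [comp_eq hk]
        exact KLen.succ n _ _ _ hk (isUpp_shift_self hB.1 k) hU (h8.shift k)
  refine (leS_subset hsub _ _).trans ((leS_union _ _ _ _).trans (LeS.add
    ((leS_union _ _ _ _).trans (LeS.add (LeS.refl _) ?_)) ?_))
  · rw [sset_comp_image hT2 fun p hp => ⟨hp.1.1, hp.2.1⟩, sset_prod]
    exact LeS.refl _
  · rw [sset_comp_image hT2 fun p hp => ⟨hp.1.1, hp.2.1⟩, sset_prod]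
    exact LeS.refl _

/-- The generating function of the upper parts converges where the pieces and the renewal series
converge. -/
theorem wSet_lt_top (hT1 : StretchStatement) (hT2 : CutStatement)
    (hC : ∀ E F, SameType E F → E ∈ C → F ∈ C) (z : ℝ≥0∞) (hu : evs (uS L M Y) z < ∞)
    (ht : evs (sset (TpSet L M C) lB (wB Y)) z < ∞)
    (hk : evs (sset (KnSet L M C) lB (wB Y)) z < ∞) :
    ∀ n, evs (sset (WSet L M C n) lB (wB Y)) z < ∞ := by
  intro n
  induction n with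
  | zero =>
    have h1 := (solve_le (coeff_zero_mid _ _) (wSet_zero hT1 hT2 hC) (uS_eq L M Y)).evs z
    refine h1.trans_lt ?_
    rw [evs_mul]
    exact ENNReal.mul_lt_top hu ht
  | succ n ih =>
    have h1 := (solve_le (coeff_zero_mid _ _) (wSet_succ hT1 hT2 hC n) (uS_eq L M Y)).evs z
    refine h1.trans_lt ?_
    rw [evs_mul, evs_add, evs_mul]
    exact ENNReal.mul_lt_top hu (ENNReal.add_lt_top.2 ⟨ht, ENNReal.mul_lt_top hk ih⟩)

theorem subset_wSet (hT1 : StretchStatement) {N : ℕ} (hN : FinLen C N) :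
    UppSet L M ∩ (SubU L M C ∪ SubM L M C) ⊆ WSet L M C N := by
  rintro B ⟨hB, h⟩
  refine ⟨hB, h, fun hK => ?_⟩
  rcases h with ⟨A, hTA, hA, hX, hg⟩ | ⟨A, R, k, hk, hTA, hR, hA, hX, hX', hU, hg⟩
  · exact hN _ (isPolygon_glue hA hX) hg (hK.glue_upp hT1 hA hX)
  · have hXR := isUpp_glue_of_le hX hX' hU hk
    exact hN _ (isPolygon_glue hA hXR) hg ((KLen.glue_low hT1 _ _ _ _ hX' hU hK).glue_upp hT1 hA hXR)

/-- The polygons of the class and their lower parts. -/
theorem pSet_le (hT2 : CutStatement) (hC : ∀ E F, SameType E F → E ∈ C → F ∈ C) :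
    LeS (sset (PSet L M ∩ (C ∪ SubL L M C)) lE (wE Y))
      (sset (FreeSet L M ∩ (C ∪ SubL L M C)) lE (wE Y) +
        sset (BotSet L M ∩ SubL L M C) lE (wE Y) *
          sset (UppSet L M ∩ (SubU L M C ∪ SubM L M C)) lB (wB Y)) := by
  have hsub : PSet L M ∩ (C ∪ SubL L M C) ⊆ (FreeSet L M ∩ (C ∪ SubL L M C)) ∪
      comp '' ((BotSet L M ∩ SubL L M C) ×ˢ (UppSet L M ∩ (SubU L M C ∪ SubM L M C))) := by
    rintro E ⟨h1, h2⟩
    rw [pSet_eq] at h1
    rcases h1 with h1 | h1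
    · exact Or.inl ⟨h1, h2⟩
    · obtain ⟨⟨S, B⟩, ⟨hS, hB⟩, rfl⟩ := (bij_bot hT2).surjOn h1
      obtain ⟨h5, h6⟩ := cut_P1 hC hS hB h2
      exact Or.inr ⟨(S, B), ⟨⟨hS, h5⟩, hB, h6⟩, rfl⟩
  refine (leS_subset hsub _ _).trans ((leS_union _ _ _ _).trans (LeS.add (LeS.refl _) ?_))
  have h1 : sset (comp '' ((BotSet L M ∩ SubL L M C) ×ˢ (UppSet L M ∩ (SubU L M C ∪ SubM L M C))))
      lE (wE Y) = sset ((BotSet L M ∩ SubL L M C) ×ˢ (UppSet L M ∩ (SubU L M C ∪ SubM L M C)))
      (fun p => lE p.1 + lB p.2) fun p => wE Y p.1 * wB Y p.2 := by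
    have hD : (BotSet L M ∩ SubL L M C) ×ˢ (UppSet L M ∩ (SubU L M C ∪ SubM L M C)) ⊆
        BotSet L M ×ˢ UppSet L M := fun p h => ⟨h.1.1, h.2.1⟩
    refine (sset_bij (((bij_bot hT2).injOn.mono hD).bijOn_image) ?_ ?_).symm
    · rintro ⟨S, B⟩ h
      obtain ⟨k, hk⟩ := exists_low_of_bot h.1.1
      exact lE_comp hk h.2.1.1
    · rintro ⟨S, B⟩ h
      obtain ⟨k, hk⟩ := exists_low_of_bot h.1.1
      exact wE_comp hk h.2.1.1
  rw [h1, sset_prod]
  exact LeS.refl _

end Pool.Agent.KTube
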