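import Pool.Agent.KTube.Words

/-! Locality: inserting levels and detours in one part of a composition. -/

set_option autoImplicit false

namespace Pool.Agent.KTube

open Pool.Agent.LK

variable {E A B : Finset (Sym2 P3)} {k i j : ℤ} {L M : ℕ} {h : ℕ}

/-! ### Associativity and translations -/

theorem glue_assoc {S : Finset (Sym2 P3)} (hA : IsLow A k) (hS : IsUpp S k) (hS' : IsLow S j)
    (hB : IsUpp B j) (hkj : k ≤ j) :
    glue A (glue S B j) k = glue (glue A S k) B j := by
  ext e
  simp only [mem_glue']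
  constructor
  · rintro (h1 | ⟨h1 | h1, h2⟩)
    · refine Or.inl ⟨Or.inl h1, ?_⟩
      rintro rfl
      have h3 := hA.2.2.2 _ (mem_verts_left h1.1)
      simp only at h3
      have h4 : j = k := by omega
      subst h4
      exact h1.2 rfl
    · exact Or.inl ⟨Or.inr ⟨h1.1, h2⟩, h1.2⟩
    · exact Or.inr h1
  · rintro (⟨h1 | h1, h2⟩ | h1)
    · exact Or.inl h1
    · exact Or.inr ⟨Or.inl ⟨h1.1, h2⟩, h1.2⟩
    · refine Or.inr ⟨Or.inr h1, ?_⟩
      rintro rfl
      have h3 := hB.2.2.2 _ (mem_verts_left h1.1)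
      simp only at h3
      have h4 : j = k := by omega
      subst h4
      exact h1.2 rfl

theorem mem_shift_edge {t : P3} {e : Sym2 P3} :
    e ∈ shift t B ↔ Sym2.map (fun u => u - t) e ∈ B := by
  induction e using Sym2.ind with
  | _ u v => rw [mem_shift, Sym2.map_mk]

theorem map_sub_cap (t : ℤ) (e : Sym2 P3) :
    Sym2.map (fun u : P3 => u - (0, 0, t)) e = cap k ↔ e = cap (k + t) := by
  induction e using Sym2.ind with
  | _ u v =>
    rw [Sym2.map_mk]
    unfold cap
    rw [Sym2.eq_iff, Sym2.eq_iff]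
    simp only [sub_eq_iff_eq_add, Prod.mk_add_mk, add_zero]

theorem shift_glue (t : ℤ) (A B : Finset (Sym2 P3)) (k : ℤ) :
    shift (0, 0, t) (glue A B k) = glue (shift (0, 0, t) A) (shift (0, 0, t) B) (k + t) := by
  ext e
  rw [mem_shift_edge, mem_glue', mem_glue', mem_shift_edge, mem_shift_edge]
  simp only [ne_eq, map_sub_cap]
  rw [show k + t + 1 = k + 1 + t by ring]

/-! ### Stretching one part -/

theorem notMem_low (hA : IsLow A k) {u v : P3} (hu : k + 2 ≤ u.2.2) : s(u, v) ∉ A := fun h => by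
  have := hA.2.2.2 u ⟨v, h⟩
  omega

theorem notMem_upp (hB : IsUpp B k) {u v : P3} (hu : u.2.2 ≤ k - 1) : s(u, v) ∉ B := fun h => by
  have := hB.2.2.2 u ⟨v, h⟩
  omega

theorem ne_cap_of_level {u v : P3} (h : u.2.2 ≠ k) : s(u, v) ≠ cap k := fun he => by
  rcases cap_levels he with ⟨rfl, -⟩ | ⟨rfl, -⟩ <;> exact h rfl

theorem stretch_glue_upp (hA : IsLow A k) (hj : k < j) :
    stretch (glue A B k) j h = glue A (stretch B j h) k := by
  refine edge_ext fun u v => ?_
  rw [mem_stretch, mem_glue' (A := A) (B := stretch B j h), mem_stretch (E := B)]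
  constructor
  · rintro (⟨h1, h2, h3⟩ | ⟨h1, h2, h3⟩ | ⟨a, b, i, hi, h1, h2⟩)
    · rcases mem_glue'.1 h1 with h4 | h4
      · exact Or.inl h4
      · exact Or.inr ⟨Or.inl ⟨h4.1, h2, h3⟩, h4.2⟩
    · rcases mem_glue'.1 h1 with h4 | h4
      · exact absurd h4.1 (notMem_low hA (by simp only [Prod.snd_sub]; omega))
      · exact Or.inr ⟨Or.inr (Or.inl ⟨h4.1, h2, h3⟩), ne_cap_of_level (by omega)⟩
    · rcases mem_glue'.1 h1 with h4 | h4
      · rw [Sym2.eq_swap] at h4
        exact absurd h4.1 (notMem_low hA (by simp only; omega))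
      · refine Or.inr ⟨Or.inr (Or.inr ⟨a, b, i, hi, h4.1, h2⟩), ?_⟩
        rw [h2]
        exact ne_cap_of_level (by simp only; omega)
  · rintro (⟨h1, h2⟩ | ⟨⟨h1, h3, h4⟩ | ⟨h1, h3, h4⟩ | ⟨a, b, i, hi, h1, h3⟩, h2⟩)
    · refine Or.inl ⟨mem_glue'.2 (Or.inl ⟨h1, h2⟩), ?_, ?_⟩
      · have := hA.2.2.2 u ⟨v, h1⟩
        omega
      · have := hA.2.2.2 v (mem_verts_right h1)
        omega
    · exact Or.inl ⟨mem_glue'.2 (Or.inr ⟨h1, h2⟩), h3, h4⟩
    · refine Or.inr (Or.inl ⟨mem_glue'.2 (Or.inr ⟨h1, ?_⟩), h3, h4⟩)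
      exact ne_cap_of_level (by simp only [Prod.snd_sub]; omega)
    · refine Or.inr (Or.inr ⟨a, b, i, hi, mem_glue'.2 (Or.inr ⟨h1, ?_⟩), h3⟩)
      exact ne_cap_of_level (by simp only; omega)

theorem stretch_glue_low (hB : IsUpp B k) (hj : j < k) :
    stretch (glue A B k) j h = glue (stretch A j h) (shift (0, 0, (h : ℤ)) B) (k + h) := by
  refine edge_ext fun u v => ?_
  rw [mem_stretch, mem_glue' (A := stretch A j h) (B := shift (0, 0, (h : ℤ)) B),
    mem_stretch (E := A), mem_shift]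
  constructor
  · rintro (⟨h1, h2, h3⟩ | ⟨h1, h2, h3⟩ | ⟨a, b, i, hi, h1, h2⟩)
    · rcases mem_glue'.1 h1 with h4 | h4
      · exact Or.inl ⟨Or.inl ⟨h4.1, h2, h3⟩, ne_cap_of_level (by omega)⟩
      · exact absurd h4.1 (notMem_upp hB (by omega))
    · rcases mem_glue'.1 h1 with h4 | h4
      · refine Or.inl ⟨Or.inr (Or.inl ⟨h4.1, h2, h3⟩), fun h5 => h4.2 ?_⟩
        have h6 := (map_sub_cap (k := k + 1) (h : ℤ) s(u, v)).2 (by
          rw [h5]
          congr 1
          ring)
        rwa [Sym2.map_mk] at h6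
      · refine Or.inr ⟨h4.1, fun h5 => h4.2 ?_⟩
        have h6 := (map_sub_cap (k := k) (h : ℤ) s(u, v)).2 h5
        rwa [Sym2.map_mk] at h6
    · rcases mem_glue'.1 h1 with h4 | h4
      · refine Or.inl ⟨Or.inr (Or.inr ⟨a, b, i, hi, h4.1, h2⟩), ?_⟩
        rw [h2]
        exact ne_cap_of_level (by simp only; omega)
      · exact absurd h4.1 (notMem_upp hB (by simp only; omega))
  · rintro (⟨⟨h1, h3, h4⟩ | ⟨h1, h3, h4⟩ | ⟨a, b, i, hi, h1, h3⟩, h2⟩ | ⟨h1, h2⟩)
    · refine Or.inl ⟨mem_glue'.2 (Or.inl ⟨h1, ?_⟩), h3, h4⟩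
      exact ne_cap_of_level (by omega)
    · refine Or.inr (Or.inl ⟨mem_glue'.2 (Or.inl ⟨h1, fun h5 => h2 ?_⟩), h3, h4⟩)
      have h6 := (map_sub_cap (k := k + 1) (h : ℤ) s(u, v)).1 (by rwa [Sym2.map_mk])
      rw [h6]
      congr 1
      ring
    · refine Or.inr (Or.inr ⟨a, b, i, hi, mem_glue'.2 (Or.inl ⟨h1, ?_⟩), h3⟩)
      exact ne_cap_of_level (by simp only; omega)
    · refine Or.inr (Or.inl ⟨mem_glue'.2 (Or.inr ⟨h1, fun h5 => h2 ?_⟩), ?_, ?_⟩)
      · have h6 := (map_sub_cap (k := k) (h : ℤ) s(u, v)).1 (by rwa [Sym2.map_mk])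
        exact h6
      · have := hB.2.2.2 _ ⟨_, h1⟩
        simp only [Prod.snd_sub] at this
        omega
      · have := hB.2.2.2 _ (mem_verts_right h1)
        simp only [Prod.snd_sub] at this
        omega

/-! ### One step -/

variable {a a' : ℤ × ℤ}

theorem step_glue_upp (hA : IsLow A k) (hj : k < j) :
    step (glue A B k) j a a' = glue A (step B j a a') k := by
  ext f
  rw [mem_step, stretch_glue_upp hA hj, mem_glue', mem_glue', mem_step]
  constructor
  · rintro (⟨h1 | h1, h2⟩ | h1 | h1 | h1)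
    · exact Or.inl h1
    · exact Or.inr ⟨Or.inl ⟨h1.1, h2⟩, h1.2⟩
    · refine Or.inr ⟨Or.inr (Or.inl h1), ?_⟩
      rw [h1]
      exact ne_cap_of_level (by simp only; omega)
    · refine Or.inr ⟨Or.inr (Or.inr (Or.inl h1)), ?_⟩
      rw [h1]
      exact ne_cap_of_level (by simp only; omega)
    · refine Or.inr ⟨Or.inr (Or.inr (Or.inr h1)), ?_⟩
      rw [h1]
      exact ne_cap_of_level (by simp only; omega)
  · rintro (⟨h1, h2⟩ | ⟨⟨h1, h3⟩ | h1, h2⟩)
    · refine Or.inl ⟨Or.inl ⟨h1, h2⟩, ?_⟩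
      rintro rfl
      rw [Sym2.eq_swap] at h1
      exact notMem_low hA (u := (a.1, a.2, j + 1 + 1)) (by simp only; omega) h1
    · exact Or.inl ⟨Or.inr ⟨h1, h2⟩, h3⟩
    · exact Or.inr h1

theorem step_glue_low (hB : IsUpp B k) (hj : j < k) :
    step (glue A B k) j a a' = glue (step A j a a') (shift (0, 0, 2) B) (k + 2) := by
  ext f
  have h0 := stretch_glue_low (A := A) (h := 2) hB hj
  push_cast at h0
  rw [mem_step, h0, mem_glue', mem_glue', mem_step]
  have hB2 : IsUpp (shift (0, 0, 2) B) (k + 2) := by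
    rw [isUpp_shift]
    simpa using hB
  constructor
  · rintro (⟨h1 | h1, h2⟩ | h1 | h1 | h1)
    · exact Or.inl ⟨Or.inl ⟨h1.1, h2⟩, h1.2⟩
    · exact Or.inr h1
    · refine Or.inl ⟨Or.inr (Or.inl h1), ?_⟩
      rw [h1]
      exact ne_cap_of_level (by simp only; omega)
    · refine Or.inl ⟨Or.inr (Or.inr (Or.inl h1)), ?_⟩
      rw [h1]
      exact ne_cap_of_level (by simp only; omega)
    · refine Or.inl ⟨Or.inr (Or.inr (Or.inr h1)), ?_⟩
      rw [h1]
      exact ne_cap_of_level (by simp only; omega)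
  · rintro (⟨⟨h1, h3⟩ | h1, h2⟩ | ⟨h1, h2⟩)
    · exact Or.inl ⟨Or.inl ⟨h1, h2⟩, h3⟩
    · exact Or.inr h1
    · refine Or.inl ⟨Or.inr ⟨h1, h2⟩, ?_⟩
      rintro rfl
      exact notMem_upp hB2 (u := (a.1, a.2, j + 1)) (by simp only; omega) h1

/-! ### The step of a part is a part -/

theorem isUpp_stretch_lt (hS : StretchStatement) (hB : IsUpp B k) (hj : k < j) :
    IsUpp (stretch B j h) k := by
  refine ⟨(hS B j h hB.1).1, ?_, ?_, ?_⟩
  · unfold IsV0
    rw [cross_stretch_low hj.le]
    exact hB.2.1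
  · unfold cap
    rw [mem_stretch]
    exact Or.inl ⟨hB.2.2.1, hj.le, hj.le⟩
  · intro u hu
    rcases verts_stretch hu with ⟨h1, -⟩ | ⟨h1, h2⟩ | ⟨-, h1, -⟩
    · exact hB.2.2.2 u h1
    · omega
    · omega

theorem isLow_stretch_lt (hS : StretchStatement) (hA : IsLow A k) (hj : j < k) :
    IsLow (stretch A j h) (k + h) := by
  refine ⟨(hS A j h hA.1).1, ?_, ?_, ?_⟩
  · unfold IsV0
    rw [cross_stretch_high (by omega), add_sub_cancel_right]
    exact hA.2.1
  · unfold cap
    rw [mem_stretch]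
    refine Or.inr (Or.inl ⟨?_, by simp only; omega, by simp only; omega⟩)
    have h1 := hA.2.2.1
    unfold cap at h1
    convert h1 using 2
    · simp only [Prod.mk_sub_mk, sub_zero, Prod.mk.injEq, true_and]; ring
    · simp only [Prod.mk_sub_mk, sub_zero, Prod.mk.injEq, true_and]; ring
  · intro u hu
    rcases verts_stretch hu with ⟨h1, h2⟩ | ⟨h1, -⟩ | ⟨-, -, h1⟩
    · omega
    · have := hA.2.2.2 _ h1
      simp only [Prod.snd_sub] at this
      omega
    · omega

theorem isUpp_step (hS : StretchStatement) (hB : IsUpp B k) (hj : k < j)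
    (hok : StepOk L M B j a a') : IsUpp (step B j a a') k := by
  have h1 := isUpp_stretch_lt (h := 2) hS hB hj
  refine ⟨hok.isPolygon hS, ?_, ?_, ?_⟩
  · unfold IsV0
    rw [hok.cross_low hj.le]
    exact hB.2.1
  · rw [mem_step]
    refine Or.inl ⟨h1.2.2.1, fun h2 => ?_⟩
    exact ne_cap_of_level (k := k) (by simp only; omega) h2.symm
  · intro u hu
    rcases hok.verts_step hu with h2 | rfl | rfl
    · exact h1.2.2.2 u h2
    · simp only; omega
    · simp only; omega

theorem isLow_step (hS : StretchStatement) (hA : IsLow A k) (hj : j < k)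
    (hok : StepOk L M A j a a') : IsLow (step A j a a') (k + 2) := by
  have h1 := isLow_stretch_lt (h := 2) hS hA hj
  push_cast at h1
  refine ⟨hok.isPolygon hS, ?_, ?_, ?_⟩
  · unfold IsV0
    rw [hok.cross_high (by omega), add_sub_cancel_right]
    exact hA.2.1
  · rw [mem_step]
    refine Or.inl ⟨h1.2.2.1, fun h2 => ?_⟩
    exact ne_cap_of_level (k := k + 2 + 1) (by simp only; omega) h2.symm
  · intro u hu
    rcases hok.verts_step hu with h2 | rfl | rfl
    · exact h1.2.2.2 u h2
    · simp only; omega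
    · simp only; omega

/-! ### Walks -/

theorem run_glue_upp (hS : StretchStatement) (hA : IsLow A k) : ∀ (d : ℕ) (B : Finset (Sym2 P3))
    (j : ℤ), IsUpp B k → k < j → InTube L M B → (cross B j).ncard = 2 → Reach L M d (cross B j) →
    run L M d (glue A B k) j = glue A (run L M d B j) k ∧ IsUpp (run L M d B j) k := by
  intro d
  induction d with
  | zero => intro B j hB hj hT h2 hr; exact ⟨rfl, hB⟩
  | succ d ih =>
    intro B j hB hj hT h2 hr
    obtain ⟨h3, h4, h5⟩ := nxt_spec hr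
    have hc : cross (glue A B k) j = cross B j := cross_glue_upp hA hB hj.le
    have hok : StepOk L M B j (nxt L M d (cross B j)).1 (nxt L M d (cross B j)).2 :=
      ⟨hB.1, hT, h4⟩
    have hcm := hok.cross_mid
    have h6 := ih (step B j (nxt L M d (cross B j)).1 (nxt L M d (cross B j)).2) (j + 1)
      (isUpp_step hS hB hj hok) (by omega) hok.inTube (by rw [hcm]; exact ncard_moved h4 h2)
      (by rw [hcm]; exact h5)
    have e1 : run L M (d + 1) (glue A B k) j =
        run L M d (step (glue A B k) j (nxt L M d (cross (glue A B k) j)).1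
          (nxt L M d (cross (glue A B k) j)).2) (j + 1) := rfl
    have e2 : run L M (d + 1) B j =
        run L M d (step B j (nxt L M d (cross B j)).1 (nxt L M d (cross B j)).2) (j + 1) := rfl
    rw [e1, e2, hc, step_glue_upp hA hj]
    exact h6

theorem run_glue_low (hS : StretchStatement) : ∀ (d : ℕ) (A B : Finset (Sym2 P3))
    (j k : ℤ), IsLow A k → IsUpp B k → j < k → InTube L M A → (cross A j).ncard = 2 →
    Reach L M d (cross A j) →
    run L M d (glue A B k) j = glue (run L M d A j) (shift (0, 0, 2 * (d : ℤ)) B) (k + 2 * d) ∧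
      IsLow (run L M d A j) (k + 2 * d) := by
  intro d
  induction d with
  | zero =>
    intro A B j k hA hB hj hT h2 hr
    have e0 : (0 : P3) = (0, 0, 2 * ((0 : ℕ) : ℤ)) := by
      simp only [Nat.cast_zero, mul_zero]
      rfl
    refine ⟨?_, by simpa [run] using hA⟩
    rw [← e0, shift_zero]
    simp [run]
  | succ d ih =>
    intro A B j k hA hB hj hT h2 hr
    obtain ⟨h3, h4, h5⟩ := nxt_spec hr
    have hc : cross (glue A B k) j = cross A j := cross_glue_low hA hB hj.le
    have hok : StepOk L M A j (nxt L M d (cross A j)).1 (nxt L M d (cross A j)).2 :=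
      ⟨hA.1, hT, h4⟩
    have hcm := hok.cross_mid
    have h6 := ih (step A j (nxt L M d (cross A j)).1 (nxt L M d (cross A j)).2)
      (shift (0, 0, 2) B) (j + 1) (k + 2)
      (isLow_step hS hA hj hok) (by rw [isUpp_shift]; simpa using hB) (by omega) hok.inTube
      (by rw [hcm]; exact ncard_moved h4 h2) (by rw [hcm]; exact h5)
    have e1 : run L M (d + 1) (glue A B k) j =
        run L M d (step (glue A B k) j (nxt L M d (cross (glue A B k) j)).1
          (nxt L M d (cross (glue A B k) j)).2) (j + 1) := rfl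
    have e2 : run L M (d + 1) A j =
        run L M d (step A j (nxt L M d (cross A j)).1 (nxt L M d (cross A j)).2) (j + 1) := rfl
    have e3 : (((0, 0, 2 * (d : ℤ)) : P3) + (0, 0, 2)) = (0, 0, 2 * ((d + 1 : ℕ) : ℤ)) := by
      simp only [Prod.mk_add_mk, add_zero, Prod.mk.injEq, true_and]
      push_cast
      ring
    have e4 : k + 2 + 2 * (d : ℤ) = k + 2 * ((d + 1 : ℕ) : ℤ) := by push_cast; ring
    rw [e1, e2, hc, step_glue_low hB hj]
    rw [shift_shift, e3, e4] at h6
    exact h6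

/-! ### Detours -/

theorem ins_glue_upp (hS : StretchStatement) (hL : 1 ≤ L) (hA : IsLow A k) (hB : IsUpp B k)
    (hj : k < j) (hT : InTube L M B) (h2 : IsTwo B j) :
    ins L M (glue A B k) j = glue A (ins L M B j) k ∧ IsUpp (ins L M B j) k := by
  obtain ⟨hd, hr⟩ := dst_spec (M := M) hL h2 (box_cross hT)
  have hc : cross (glue A B k) j = cross B j := cross_glue_upp hA hB hj.le
  unfold ins
  rw [hc]
  set d := dst L M (cross B j) with hdef
  obtain ⟨e, he⟩ : ∃ e : ℕ, hgt L M - d = e := ⟨_, rfl⟩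
  rw [he, stretch_glue_upp hA hj]
  have hcm : cross (stretch B j (2 * e)) (j + e) = cross B j :=
    cross_stretch_mid (by omega) (by push_cast; omega)
  exact run_glue_upp hS hA d (stretch B j (2 * e)) (j + e) (isUpp_stretch_lt hS hB hj) (by omega)
    (inTube_stretch hT) (by rw [hcm]; exact h2) (by rw [hcm]; exact hr)

theorem ins_glue_low (hS : StretchStatement) (hL : 1 ≤ L) (hA : IsLow A k) (hB : IsUpp B k)
    (hj : j < k) (hT : InTube L M A) (h2 : IsTwo A j) :
    ins L M (glue A B k) j =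
      glue (ins L M A j) (shift (0, 0, 2 * (hgt L M : ℤ)) B) (k + 2 * hgt L M) ∧
      IsLow (ins L M A j) (k + 2 * hgt L M) := by
  obtain ⟨hd, hr⟩ := dst_spec (M := M) hL h2 (box_cross hT)
  have hc : cross (glue A B k) j = cross A j := cross_glue_low hA hB hj.le
  unfold ins
  rw [hc]
  set d := dst L M (cross A j) with hdef
  obtain ⟨e, he⟩ : ∃ e : ℕ, hgt L M - d = e := ⟨_, rfl⟩
  rw [he, stretch_glue_low hB hj]
  have hcm : cross (stretch A j (2 * e)) (j + e) = cross A j :=
    cross_stretch_mid (by omega) (by push_cast; omega)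
  have hlow := isLow_stretch_lt (h := 2 * e) hS hA hj
  have hupp : IsUpp (shift (0, 0, ((2 * e : ℕ) : ℤ)) B) (k + (2 * e : ℕ)) := by
    rw [isUpp_shift]
    simpa using hB
  have h3 := run_glue_low (L := L) (M := M) hS d (stretch A j (2 * e)) _ (j + e) _ hlow hupp
    (by push_cast; omega) (inTube_stretch hT) (by rw [hcm]; exact h2) (by rw [hcm]; exact hr)
  rw [shift_shift] at h3
  have e1 : (((0, 0, 2 * (d : ℤ)) : P3) + (0, 0, ((2 * e : ℕ) : ℤ))) =
      (0, 0, 2 * (hgt L M : ℤ)) := by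
    simp only [Prod.mk_add_mk, add_zero, Prod.mk.injEq, true_and]
    push_cast
    omega
  have e2 : k + ((2 * e : ℕ) : ℤ) + 2 * (d : ℤ) = k + 2 * hgt L M := by
    push_cast
    omega
  rw [e1, e2] at h3
  exact h3

/-- Detours in the upper part. -/
theorem multi_glue_upp (hS : StretchStatement) (hL : 1 ≤ L) (hA : IsLow A k) (hB : IsUpp B k)
    (hT : InTube L M B) : ∀ l : List ℤ, l.Pairwise (· < ·) → (∀ i ∈ l, k < i) →
    (∀ i ∈ l, IsTwo B i ∧ ¬ IsV0 B i) →
    multi L M (glue A B k) l = glue A (multi L M B l) k ∧ IsUpp (multi L M B l) k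
  | [], _, _, _ => ⟨rfl, hB⟩
  | j :: l, hl, hk, h2 => by
    rw [List.pairwise_cons] at hl
    obtain ⟨h3, h4⟩ := multi_glue_upp hS hL hA hB hT l hl.2
      (fun i hi => hk i (List.mem_cons_of_mem _ hi)) fun i hi => h2 i (List.mem_cons_of_mem _ hi)
    have hF := multi_facts hS hL hB.1 hT l hl.2 fun i hi => h2 i (List.mem_cons_of_mem _ hi)
    have hc : cross (multi L M B l) j = cross B j := hF.low j fun i hi => (hl.1 i hi).le
    have h5 : IsTwo (multi L M B l) j := by
      unfold IsTwo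
      rw [hc]
      exact (h2 j (by simp)).1
    have e1 : multi L M (glue A B k) (j :: l) = ins L M (multi L M (glue A B k) l) j := rfl
    have e2 : multi L M B (j :: l) = ins L M (multi L M B l) j := rfl
    rw [e1, e2, h3]
    exact ins_glue_upp hS hL hA h4 (hk j (by simp)) hF.tube h5

/-- Detours in the lower part. -/
theorem multi_glue_low (hS : StretchStatement) (hL : 1 ≤ L) (hA : IsLow A k) (hB : IsUpp B k)
    (hT : InTube L M A) : ∀ l : List ℤ, l.Pairwise (· < ·) → (∀ i ∈ l, i < k) →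
    (∀ i ∈ l, IsTwo A i ∧ ¬ IsV0 A i) →
    multi L M (glue A B k) l = glue (multi L M A l)
      (shift (0, 0, l.length * (2 * (hgt L M : ℤ))) B) (k + l.length * (2 * hgt L M)) ∧
      IsLow (multi L M A l) (k + l.length * (2 * hgt L M))
  | [], _, _, _ => by
    have e0 : (0 : P3) = (0, 0, (([] : List ℤ).length : ℤ) * (2 * (hgt L M : ℤ))) := by
      simp only [List.length_nil, Nat.cast_zero, zero_mul]
      rfl
    refine ⟨?_, by simpa [multi] using hA⟩
    rw [← e0, shift_zero]
    simp [multi]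
  | j :: l, hl, hk, h2 => by
    rw [List.pairwise_cons] at hl
    obtain ⟨h3, h4⟩ := multi_glue_low hS hL hA hB hT l hl.2
      (fun i hi => hk i (List.mem_cons_of_mem _ hi)) fun i hi => h2 i (List.mem_cons_of_mem _ hi)
    have hF := multi_facts hS hL hA.1 hT l hl.2 fun i hi => h2 i (List.mem_cons_of_mem _ hi)
    have hc : cross (multi L M A l) j = cross A j := hF.low j fun i hi => (hl.1 i hi).le
    have h5 : IsTwo (multi L M A l) j := by
      unfold IsTwo
      rw [hc]
      exact (h2 j (by simp)).1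
    have hBs : IsUpp (shift (0, 0, l.length * (2 * (hgt L M : ℤ))) B)
        (k + l.length * (2 * hgt L M)) := by
      rw [isUpp_shift]
      simpa using hB
    have e1 : multi L M (glue A B k) (j :: l) = ins L M (multi L M (glue A B k) l) j := rfl
    have e2 : multi L M A (j :: l) = ins L M (multi L M A l) j := rfl
    have hjk : j < k + l.length * (2 * hgt L M) := by
      have := hk j (by simp)
      have h6 : (0 : ℤ) ≤ l.length * (2 * hgt L M) := by positivity
      omega
    have h7 := ins_glue_low hS hL h4 hBs hjk hF.tube h5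
    rw [shift_shift] at h7
    have e3 : (((0, 0, 2 * (hgt L M : ℤ)) : P3) + (0, 0, l.length * (2 * (hgt L M : ℤ)))) =
        (0, 0, ((j :: l).length : ℤ) * (2 * (hgt L M : ℤ))) := by
      simp only [Prod.mk_add_mk, add_zero, Prod.mk.injEq, true_and, List.length_cons]
      push_cast
      ring
    have e4 : k + l.length * (2 * (hgt L M : ℤ)) + 2 * hgt L M =
        k + ((j :: l).length : ℤ) * (2 * hgt L M) := by
      rw [List.length_cons]
      push_cast
      ring
    rw [e3, e4] at h7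
    rw [e1, e2, h3]
    exact h7

end Pool.Agent.KTube
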