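import Pool.Agent.KTube.ExpConv

/-! Power series whose coefficients are polynomials up to exponentially small errors. -/

set_option autoImplicit false

open Finset Pool.Agent.LatticeTube

namespace Pool.Agent.KTube

/-- The coefficients are exponentially small. -/
def IsSm (F : PowerSeries ℝ) : Prop := ExpSmall fun n => PowerSeries.coeff n F

theorem isSm_zero : IsSm 0 :=
  ⟨0, 1 / 2, le_rfl, by norm_num, by norm_num, fun n => by simp⟩

theorem IsSm.add {F G : PowerSeries ℝ} (hF : IsSm F) (hG : IsSm G) : IsSm (F + G) :=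
  (ExpSmall.add hF hG).congr fun n => map_add _ _ _

theorem IsSm.mul {F G : PowerSeries ℝ} (hF : IsSm F) (hG : IsSm G) : IsSm (F * G) :=
  (ExpSmall.conv hF hG).congr fun n => by
    rw [PowerSeries.coeff_mul]
    rfl

theorem IsSm.C_mul {F : PowerSeries ℝ} (c : ℝ) (hF : IsSm F) : IsSm (PowerSeries.C c * F) :=
  (ExpSmall.smul c hF).congr fun n => by rw [PowerSeries.coeff_C_mul]

/-- The series `1 + X + X² + …`. -/
noncomputable def gg : PowerSeries ℝ := PowerSeries.mk 1

/-- The sum of the coefficients. -/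
noncomputable def tot (F : PowerSeries ℝ) : ℝ := ∑' n, PowerSeries.coeff n F

theorem sm_mul_gg {F : PowerSeries ℝ} (h : IsSm F) :
    IsSm (F * gg - PowerSeries.C (tot F) * gg) := by
  have h1 := const_conv_small 1 h
  refine ExpSmall.congr (a := fun n => conv (fun _ => (1 : ℝ)) (fun n => PowerSeries.coeff n F) n -
    1 * ∑' k, PowerSeries.coeff k F) h1 fun n => ?_
  rw [map_sub, PowerSeries.coeff_C_mul, conv_comm]
  unfold gg conv tot
  rw [PowerSeries.coeff_mul, PowerSeries.coeff_mk]
  simp only [PowerSeries.coeff_mk, Pi.one_apply]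
  ring

/-- The coefficients are a polynomial of degree at most `d`, up to an exponentially small error;
`A` is the leading coefficient with respect to the powers of `gg`. -/
def PLk (d : ℕ) (A : ℝ) (F : PowerSeries ℝ) : Prop :=
  ∃ a : ℕ → ℝ, a d = A ∧ IsSm (F - ∑ j ∈ range (d + 1), PowerSeries.C (a j) * gg ^ (j + 1))

variable {d : ℕ} {A B c : ℝ} {E F G X : PowerSeries ℝ}

theorem PLk.add (hF : PLk d A F) (hG : PLk d B G) : PLk d (A + B) (F + G) := by
  obtain ⟨a, ha, h1⟩ := hF
  obtain ⟨b, hb, h2⟩ := hG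
  refine ⟨fun j => a j + b j, by simp only [ha, hb], ?_⟩
  have h3 := h1.add h2
  have h4 : F + G - ∑ j ∈ range (d + 1), PowerSeries.C (a j + b j) * gg ^ (j + 1) =
      F - ∑ j ∈ range (d + 1), PowerSeries.C (a j) * gg ^ (j + 1) +
      (G - ∑ j ∈ range (d + 1), PowerSeries.C (b j) * gg ^ (j + 1)) := by
    have h5 : ∀ j ∈ range (d + 1), PowerSeries.C (a j + b j) * gg ^ (j + 1) =
        PowerSeries.C (a j) * gg ^ (j + 1) + PowerSeries.C (b j) * gg ^ (j + 1) := fun j _ => by
      rw [map_add, add_mul]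
    rw [sum_congr rfl h5, sum_add_distrib]
    ring
  rw [h4]
  exact h3

theorem PLk.up (hF : PLk d A F) : PLk (d + 1) 0 F := by
  obtain ⟨a, ha, h1⟩ := hF
  refine ⟨fun j => if j < d + 1 then a j else 0, by simp, ?_⟩
  rw [sum_range_succ]
  beta_reduce
  rw [if_neg (lt_irrefl _), map_zero, zero_mul, add_zero]
  have h5 : ∀ j ∈ range (d + 1), PowerSeries.C (if j < d + 1 then a j else 0) * gg ^ (j + 1) =
      PowerSeries.C (a j) * gg ^ (j + 1) := fun j hj => by
    rw [mem_range] at hj
    rw [if_pos hj]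
  rw [sum_congr rfl h5]
  exact h1

theorem IsSm.pLk (h : IsSm F) (d : ℕ) : PLk d 0 F := by
  refine ⟨fun _ => 0, rfl, ?_⟩
  simpa using h

theorem PLk.lift {e : ℕ} (hF : PLk d A F) (h : d < e) : PLk e 0 F := by
  induction e, h using Nat.le_induction with
  | base => exact hF.up
  | succ e _ ih => exact ih.up

theorem PLk.congr (hF : PLk d A F) (h : A = B) (h' : F = G) : PLk d B G := by
  subst h h'
  exact hF

theorem pLk_single (d : ℕ) (c : ℝ) : PLk d c (PowerSeries.C c * gg ^ (d + 1)) := by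
  refine ⟨fun j => if j = d then c else 0, by simp, ?_⟩
  rw [sum_range_succ]
  beta_reduce
  rw [if_pos rfl]
  have h5 : ∀ j ∈ range d, PowerSeries.C (if j = d then c else 0) * gg ^ (j + 1) = 0 :=
    fun j hj => by
      rw [mem_range] at hj
      rw [if_neg hj.ne, map_zero, zero_mul]
  rw [sum_eq_zero h5, zero_add, sub_self]
  exact isSm_zero

theorem sm_mul_pow : ∀ (j : ℕ) (F : PowerSeries ℝ), IsSm F → PLk j (tot F) (F * gg ^ (j + 1)) := by
  intro j
  induction j with
  | zero =>
    intro F hF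
    have h1 := (sm_mul_gg hF).pLk 0
    have h2 := (pLk_single 0 (tot F)).add h1
    refine h2.congr (by ring) (by ring)
  | succ j ih =>
    intro F hF
    have h1 := (ih _ (sm_mul_gg hF)).up
    have h2 := (pLk_single (j + 1) (tot F)).add h1
    refine h2.congr (by ring) (by ring)

theorem PLk.C_mul (c : ℝ) (hF : PLk d A F) : PLk d (c * A) (PowerSeries.C c * F) := by
  obtain ⟨a, ha, h1⟩ := hF
  refine ⟨fun j => c * a j, by simp only [ha], ?_⟩
  have h2 := h1.C_mul c
  rw [mul_sub, mul_sum] at h2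
  have h5 : ∀ j ∈ range (d + 1), PowerSeries.C (c * a j) * gg ^ (j + 1) =
      PowerSeries.C c * (PowerSeries.C (a j) * gg ^ (j + 1)) := fun j _ => by
    rw [map_mul, mul_assoc]
  rw [sum_congr rfl h5]
  exact h2

theorem pLk_sum : ∀ (d : ℕ) (f : ℕ → PowerSeries ℝ) (B : ℕ → ℝ),
    (∀ j ≤ d, PLk j (B j) (f j)) → PLk d (B d) (∑ j ∈ range (d + 1), f j) := by
  intro d
  induction d with
  | zero =>
    intro f B h
    simpa using h 0 le_rfl
  | succ d ih =>
    intro f B h
    rw [sum_range_succ]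
    have h1 := (ih f B fun j hj => h j (by omega)).up
    have h2 := h1.add (h (d + 1) le_rfl)
    rwa [zero_add] at h2

theorem PLk.small_mul (hE : IsSm E) (hF : PLk d A F) : PLk d (A * tot E) (E * F) := by
  obtain ⟨a, ha, h1⟩ := hF
  have h2 : PLk d (a d * tot E) (∑ j ∈ range (d + 1), PowerSeries.C (a j) * (E * gg ^ (j + 1))) :=
    pLk_sum d _ (fun j => a j * tot E) fun j _ => (sm_mul_pow j E hE).C_mul (a j)
  have h3 := h2.add ((hE.mul h1).pLk d)
  refine h3.congr (by rw [ha, add_zero]) ?_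
  rw [mul_sub, mul_sum, add_sub_left_comm, ← sum_sub_distrib]
  rw [sum_eq_zero fun j _ => ?_, add_zero]
  ring

theorem gg_mul (hF : PLk d A F) : PLk (d + 1) A (gg * F) := by
  obtain ⟨a, ha, h1⟩ := hF
  have h2 : PLk (d + 1) A (∑ j ∈ range (d + 1), PowerSeries.C (a j) * gg ^ (j + 2)) := by
    refine ⟨fun j => if j = 0 then 0 else a (j - 1), by simpa using ha, ?_⟩
    rw [sum_range_succ' (fun j => PowerSeries.C (if j = 0 then 0 else a (j - 1)) * gg ^ (j + 1))]
    simp only [if_true, map_zero, zero_mul, add_zero, Nat.add_eq_zero_iff, one_ne_zero, and_false,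
      if_false, add_tsub_cancel_right, sub_self]
    exact isSm_zero
  have h3 : PLk (d + 1) 0 (gg * (F - ∑ j ∈ range (d + 1), PowerSeries.C (a j) * gg ^ (j + 1))) := by
    have h4 := (sm_mul_pow 0 _ h1).lift (Nat.succ_pos d)
    refine h4.congr rfl ?_
    rw [pow_one, mul_comm]
  refine (h2.add h3).congr (add_zero _) ?_
  rw [mul_sub, mul_sum, add_sub_left_comm, ← sum_sub_distrib, sum_eq_zero fun j _ => ?_, add_zero]
  ring

/-- Convergence of the coefficients, exponentially fast. -/
def IsCst (c : ℝ) (X : PowerSeries ℝ) : Prop := IsSm (X - PowerSeries.C c * gg)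

theorem PLk.cst_mul (hX : IsCst c X) (hF : PLk d A F) : PLk (d + 1) (c * A) (X * F) := by
  have h1 := (gg_mul hF).C_mul c
  have h2 := (PLk.small_mul hX hF).up
  refine (h1.add h2).congr (add_zero _) (by ring)

theorem IsCst.pLk (hX : IsCst c X) : PLk 0 c X := by
  refine ⟨fun _ => c, rfl, ?_⟩
  rw [zero_add, sum_range_one, zero_add, pow_one]
  exact hX

/-- Products of several series with convergent coefficients. -/
theorem pLk_prod {κ κ' : ℝ} {U V : PowerSeries ℝ} (hE : IsSm E) (hU : IsCst κ U)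
    (hV : IsCst κ' V) : ∀ a b : ℕ, 0 < a + b →
    PLk (a + b - 1) (tot E * κ ^ a * κ' ^ b) (E * U ^ a * V ^ b) := by
  intro a b
  induction b with
  | zero =>
    intro hab
    obtain ⟨a, rfl⟩ : ∃ a', a = a' + 1 := ⟨a - 1, by omega⟩
    clear hab
    induction a with
    | zero =>
      refine (PLk.small_mul hE hU.pLk).congr (by ring) (by ring)
    | succ a ih =>
      refine (PLk.cst_mul hU ih).congr (by ring) (by ring)
  | succ b ih =>
    intro _
    rcases Nat.eq_zero_or_pos (a + b) with h0 | h0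
    · have ha : a = 0 := by omega
      have hb : b = 0 := by omega
      subst ha hb
      refine (PLk.small_mul hE hV.pLk).congr (by ring) (by ring)
    · obtain ⟨m, hm⟩ : ∃ m, a + b - 1 = m := ⟨_, rfl⟩
      have h1 := ih h0
      rw [hm] at h1
      have h2 : a + (b + 1) - 1 = m + 1 := by omega
      rw [h2]
      refine (PLk.cst_mul hV h1).congr (by ring) (by ring)

theorem coeff_gg_pow (j n : ℕ) :
    PowerSeries.coeff n (gg ^ (j + 1)) = (Polynomial.preHilbertPoly ℝ j 0).eval (n : ℝ) := by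
  unfold gg
  rw [PowerSeries.mk_one_pow_eq_mk_choose_add, PowerSeries.coeff_mk,
    Polynomial.preHilbertPoly_eq_choose_sub_add ℝ j (Nat.zero_le n), Nat.sub_zero, add_comm]

/-- The polynomial. -/
theorem PLk.exists_poly (hF : PLk d A F) : ∃ p : Polynomial ℝ, p.natDegree ≤ d ∧
    p.coeff d = A / d.factorial ∧ ExpSmall fun n => PowerSeries.coeff n F - p.eval (n : ℝ) := by
  obtain ⟨a, ha, h1⟩ := hF
  refine ⟨∑ j ∈ range (d + 1), Polynomial.C (a j) * Polynomial.preHilbertPoly ℝ j 0, ?_, ?_, ?_⟩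
  · refine Polynomial.natDegree_sum_le_of_forall_le _ _ fun j hj => ?_
    rw [mem_range] at hj
    refine (Polynomial.natDegree_C_mul_le _ _).trans ?_
    rw [Polynomial.natDegree_preHilbertPoly]
    omega
  · rw [Polynomial.finsetSum_coeff, sum_range_succ, Polynomial.coeff_C_mul,
      Polynomial.coeff_preHilbertPoly_self, ha]
    have h5 : ∀ j ∈ range d,
        (Polynomial.C (a j) * Polynomial.preHilbertPoly ℝ j 0).coeff d = 0 := fun j hj => by
      rw [mem_range] at hj
      rw [Polynomial.coeff_C_mul, Polynomial.coeff_eq_zero_of_natDegree_lt, mul_zero]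
      rw [Polynomial.natDegree_preHilbertPoly]
      exact hj
    rw [sum_eq_zero h5, zero_add, div_eq_mul_inv]
  · refine ExpSmall.congr h1 fun n => ?_
    rw [map_sub, map_sum, Polynomial.eval_finsetSum]
    congr 1
    refine sum_congr rfl fun j _ => ?_
    rw [PowerSeries.coeff_C_mul, coeff_gg_pow, Polynomial.eval_mul, Polynomial.eval_C]

end Pool.Agent.KTube
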