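import Pool.Agent.KTube.Middle

/-! The parity of a block: exactly one of the two cases, additivity. -/

set_option autoImplicit false

open Set

namespace Pool.Agent.KTube

open Pool.Agent.LK

variable {A B M N : Finset (Sym2 P3)} {k l m : ℤ}

/-- The edges of the block without the two caps. -/
def InB (M : Finset (Sym2 P3)) (k m : ℤ) (a b : P3) : Prop :=
  s(a, b) ∈ M ∧ s(a, b) ≠ cap k ∧ s(a, b) ≠ cap (m + 1)

/-- The strand of the block from the column `c` at the bottom to the column `d` at the top. -/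
def Str (M : Finset (Sym2 P3)) (k m c d : ℤ) : Prop :=
  Relation.ReflTransGen (InB M k m) (c, 0, k) (d, 0, m + 1)

theorem str_one {c : ℤ} : Str M k m 1 c ↔ Rch M k m c := Iff.rfl

theorem InB.symm {a b : P3} (h : InB M k m a b) : InB M k m b a := by
  unfold InB at *
  rw [Sym2.eq_swap]
  exact h

theorem rtg_inB_symm {a b : P3} (h : Relation.ReflTransGen (InB M k m) a b) :
    Relation.ReflTransGen (InB M k m) b a := by
  induction h with
  | refl => exact Relation.ReflTransGen.refl
  | tail _ h2 ih => exact Relation.ReflTransGen.head h2.symm ih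

/-- The two strands of a block: a column `c` such that the strands are `1 → c`, `0 → 1 - c`, and
nothing else is connected. -/
theorem exists_strands (hM : IsBlock M k m) : ∃ c : ℤ, (c = 0 ∨ c = 1) ∧ Str M k m 1 c ∧
    Str M k m 0 (1 - c) ∧ ¬ Str M k m 1 (1 - c) ∧ ¬ Str M k m 0 c := by
  obtain ⟨hkm, hMu, hMl⟩ := hM
  obtain ⟨n, g, hc, hg0, hg1⟩ := exists_cyc hMu.1 hMu.2.2.1
  have h3 := hc.three
  obtain ⟨j, hj, hje⟩ := (hc.edge _ _).1 hMl.2.2.1
  have hj0 : j ≠ 0 := by
    rintro rfl
    rw [hg0] at hje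
    have hje' : s(((0, 0, m + 1) : P3), (1, 0, m + 1)) = s((0, 0, k), (1, 0, k)) := by
      rw [hje, zero_add, hg1]
    have := (cap_mem_level (k := k) hje').1
    simp only at this
    omega
  have hne_cap : ∀ i < n, i ≠ 0 → s(g i, g (i + 1)) ≠ cap k := by
    intro i hi h0 h
    have h2 : s(g i, g (i + 1)) = s(g 0, g (0 + 1)) := by
      rw [h, hg0, zero_add, hg1]
      rfl
    exact h0 (hc.edge_inj hi (by omega) h2)
  have hne_cap' : ∀ i < n, i ≠ j → s(g i, g (i + 1)) ≠ cap (m + 1) := by
    intro i hi h0 h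
    have h2 : s(g i, g (i + 1)) = s(g j, g (j + 1)) := by
      rw [h, ← hje]
      rfl
    exact h0 (hc.edge_inj hi hj h2)
  have hj1 : j + 1 < n := by
    rcases Nat.lt_or_ge (j + 1) n with h | h
    · exact h
    · exfalso
      have h1 : j + 1 = n := by omega
      have h2 : g (j + 1) = (0, 0, k) := by rw [h1, hc.per, hg0]
      rw [h2] at hje
      have h4 := (cap_mem_level (k := m + 1) (u := g j) (v := (0, 0, k)) (by
        rw [← hje]; rfl)).2
      simp only at h4
      omega
  -- the first strand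
  have hreach : ∀ i, i + 1 ≤ j → Relation.ReflTransGen (InB M k m) (1, 0, k) (g (i + 1)) := by
    intro i
    induction i with
    | zero =>
      intro _
      rw [zero_add, hg1]
    | succ i ih =>
      intro hi
      exact (ih (by omega)).tail ⟨hc.mem_edge (by omega), hne_cap _ (by omega) (by omega),
        hne_cap' _ (by omega) (by omega)⟩
  -- the second strand
  have hreach2 : ∀ i, j + 1 + i ≤ n →
      Relation.ReflTransGen (InB M k m) (g (j + 1)) (g (j + 1 + i)) := by
    intro i
    induction i with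
    | zero => intro _; exact Relation.ReflTransGen.refl
    | succ i ih =>
      intro hi
      exact (ih (by omega)).tail ⟨hc.mem_edge (by omega), hne_cap _ (by omega) (by omega),
        hne_cap' _ (by omega) (by omega)⟩
  have hr2 : Relation.ReflTransGen (InB M k m) (g (j + 1)) (0, 0, k) := by
    have h := hreach2 (n - (j + 1)) (by omega)
    have e : j + 1 + (n - (j + 1)) = n := by omega
    rw [e, hc.per, hg0] at h
    exact h
  -- the components
  have hcomp : ∀ x, Relation.ReflTransGen (InB M k m) (1, 0, k) x →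
      ∃ i, 1 ≤ i ∧ i ≤ j ∧ g i = x := by
    intro x hx
    induction hx with
    | refl => exact ⟨1, le_rfl, by omega, hg1⟩
    | @tail y z _ hyz ih =>
      obtain ⟨i, hi1, hij, rfl⟩ := ih
      obtain ⟨i', hi', he⟩ := (hc.edge _ _).1 hyz.1
      have hi'0 : i' ≠ 0 := by
        rintro rfl
        apply hyz.2.1
        rw [he, hg0, zero_add, hg1]
        rfl
      have hi'j : i' ≠ j := by
        rintro rfl
        apply hyz.2.2
        rw [he, ← hje]
        rfl
      rw [Sym2.eq_iff] at he
      rcases he with ⟨h1, h2⟩ | ⟨h1, h2⟩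
      · have := hc.inj i (by omega) i' hi' h1
        subst this
        exact ⟨i + 1, by omega, by omega, h2.symm⟩
      · rcases Nat.lt_or_ge (i' + 1) n with h5 | h5
        · have := hc.inj i (by omega) (i' + 1) h5 h1
          exact ⟨i', by omega, by omega, h2.symm⟩
        · have h6 : i' + 1 = n := by omega
          rw [h6, hc.per] at h1
          have := hc.inj i (by omega) 0 (by omega) h1
          omega
  have hjr := hreach (j - 1) (by omega)
  have ej : j - 1 + 1 = j := by omega
  rw [ej] at hjr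
  have hno : ¬ Relation.ReflTransGen (InB M k m) (1, 0, k) (g (j + 1)) := by
    intro h
    obtain ⟨i, hi1, hij, he⟩ := hcomp _ h
    have := hc.inj i (by omega) (j + 1) hj1 he
    omega
  have hno2 : ¬ Relation.ReflTransGen (InB M k m) (0, 0, k) (g j) := by
    intro h
    have h1 := hjr.trans (rtg_inB_symm h)
    obtain ⟨i, hi1, hij, he⟩ := hcomp _ h1
    have := hc.inj i (by omega) 0 (by omega) (by rw [he, hg0])
    omega
  rw [Sym2.eq_iff] at hje
  rcases hje with ⟨h1, h2⟩ | ⟨h1, h2⟩
  · refine ⟨0, Or.inl rfl, ?_, ?_, ?_, ?_⟩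
    · unfold Str
      rw [h1]
      exact hjr
    · unfold Str
      have e : ((1 - 0 : ℤ), (0 : ℤ), m + 1) = ((1, 0, m + 1) : P3) := by simp
      rw [e, h2]
      exact rtg_inB_symm hr2
    · unfold Str
      have e : ((1 - 0 : ℤ), (0 : ℤ), m + 1) = ((1, 0, m + 1) : P3) := by simp
      rw [e, h2]
      exact hno
    · unfold Str
      rw [h1]
      exact hno2
  · refine ⟨1, Or.inr rfl, ?_, ?_, ?_, ?_⟩
    · unfold Str
      rw [h2]
      exact hjr
    · unfold Str
      have e : ((1 - 1 : ℤ), (0 : ℤ), m + 1) = ((0, 0, m + 1) : P3) := by simp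
      rw [e, h1]
      exact rtg_inB_symm hr2
    · unfold Str
      have e : ((1 - 1 : ℤ), (0 : ℤ), m + 1) = ((0, 0, m + 1) : P3) := by simp
      rw [e, h1]
      exact hno
    · unfold Str
      rw [h2]
      exact hno2

theorem even_iff_str : Even M k m ↔ Str M k m 1 1 := Iff.rfl

theorem even_iff_str_zero (hM : IsBlock M k m) : Even M k m ↔ Str M k m 0 0 := by
  obtain ⟨c, hc, h1, h2, h3, h4⟩ := exists_strands hM
  rcases hc with rfl | rfl
  · have h3' : ¬ Str M k m 1 1 := by simpa using h3
    exact ⟨fun h => absurd h h3', fun h => absurd h h4⟩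
  · exact ⟨fun _ => by simpa using h2, fun _ => h1⟩

theorem not_even_iff (hM : IsBlock M k m) : ¬ Even M k m ↔ Str M k m 1 0 := by
  obtain ⟨c, hc, h1, h2, h3, h4⟩ := exists_strands hM
  rcases hc with rfl | rfl
  · have h3' : ¬ Str M k m 1 1 := by simpa using h3
    exact ⟨fun _ => h1, fun _ h => absurd h h3'⟩
  · exact ⟨fun h => absurd h1 h, fun h => absurd h (by simpa using h3)⟩

theorem not_even_iff_zero (hM : IsBlock M k m) : ¬ Even M k m ↔ Str M k m 0 1 := by
  obtain ⟨c, hc, h1, h2, h3, h4⟩ := exists_strands hM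
  rcases hc with rfl | rfl
  · have h3' : ¬ Str M k m 1 1 := by simpa using h3
    exact ⟨fun _ => by simpa using h2, fun _ h => absurd h h3'⟩
  · exact ⟨fun h => absurd h1 h, fun h => absurd h h4⟩

/-- Strands of consecutive blocks compose. -/
theorem str_glue (hM : IsBlock M k l) (hN : IsBlock N l m) {c d e : ℤ}
    (h1 : Str M k l c d) (h2 : Str N l m d e) (hd : d = 0 ∨ d = 1) :
    Str (glue M N l) k m c e := by
  obtain ⟨hkl, hMu, hMl⟩ := hM
  obtain ⟨hlm, hNu, hNl⟩ := hN
  have e1 : Relation.ReflTransGen (InB (glue M N l) k m) (c, 0, k) (d, 0, l + 1) := by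
    unfold Str at h1
    refine Relation.ReflTransGen.mono ?_ _ _ h1
    rintro a b ⟨h3, h4, h5⟩
    refine ⟨mem_glue'.2 (Or.inl ⟨h3, h5⟩), h4, ?_⟩
    intro h6
    have h7 := (cap_mem_level h6).1
    have h8 := hMl.2.2.2 a ⟨b, h3⟩
    omega
  have e2 : Relation.ReflTransGen (InB (glue M N l) k m) (d, 0, l) (e, 0, m + 1) := by
    unfold Str at h2
    refine Relation.ReflTransGen.mono ?_ _ _ h2
    rintro a b ⟨h3, h4, h5⟩
    refine ⟨mem_glue'.2 (Or.inr ⟨h3, h4⟩), ?_, h5⟩
    intro h6
    have h7 := (cap_mem_level h6).1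
    have h8 := hNu.2.2.2 a ⟨b, h3⟩
    omega
  have e3 : InB (glue M N l) k m (d, 0, l + 1) (d, 0, l) := by
    rcases hd with rfl | rfl
    · refine ⟨?_, ?_, ?_⟩
      · rw [Sym2.eq_swap]
        exact (mem_glue hMl hNu).2 (Or.inr (Or.inr (Or.inl rfl)))
      · rw [Sym2.eq_swap]
        exact (cap_ne_leg0 _ _).symm
      · rw [Sym2.eq_swap]
        exact (cap_ne_leg0 _ _).symm
    · refine ⟨?_, ?_, ?_⟩
      · rw [Sym2.eq_swap]
        exact (mem_glue hMl hNu).2 (Or.inr (Or.inr (Or.inr rfl)))
      · rw [Sym2.eq_swap]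
        exact (cap_ne_leg1 _ _).symm
      · rw [Sym2.eq_swap]
        exact (cap_ne_leg1 _ _).symm
  exact (e1.tail e3).trans e2

theorem isBlock_glue (hM : IsBlock M k l) (hN : IsBlock N l m) : IsBlock (glue M N l) k m :=
  ⟨hM.1.trans hN.1, (isUpp_glue hM.2.2 hN.2.1 hM.1).2 hM.2.1,
    (isLow_glue hM.2.2 hN.2.1 hN.1).2 hN.2.2⟩

/-- **The parity is additive.** -/
theorem even_glue (hM : IsBlock M k l) (hN : IsBlock N l m) :
    Even (glue M N l) k m ↔ (Even M k l ↔ Even N l m) := by
  have hG := isBlock_glue hM hN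
  by_cases h1 : Even M k l <;> by_cases h2 : Even N l m
  · have := str_glue hM hN (even_iff_str.1 h1) (even_iff_str.1 h2) (Or.inr rfl)
    simp only [h1, h2, even_iff_str.2 this]
  · have := str_glue hM hN (even_iff_str.1 h1) ((not_even_iff hN).1 h2) (Or.inr rfl)
    simp only [h1, h2, (not_even_iff hG).2 this, iff_false, not_true_eq_false]
  · have := str_glue hM hN ((not_even_iff hM).1 h1) ((even_iff_str_zero hN).1 h2) (Or.inl rfl)
    simp only [h1, h2, (not_even_iff hG).2 this, false_iff, not_true_eq_false]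
  · have := str_glue hM hN ((not_even_iff hM).1 h1) ((not_even_iff_zero hN).1 h2) (Or.inl rfl)
    simp only [h1, h2, even_iff_str.2 this]

/-- The parity does not change under vertical translations. -/
theorem even_shift (t : ℤ) : Even (shift (0, 0, t) M) (k + t) (m + t) ↔ Even M k m := by
  have key : ∀ (M : Finset (Sym2 P3)) (k m t : ℤ), Even M k m →
      Even (shift (0, 0, t) M) (k + t) (m + t) := by
    intro M k m t h
    unfold Even at *
    have e : ∀ a b : P3, (s(a, b) ∈ M ∧ s(a, b) ≠ cap k ∧ s(a, b) ≠ cap (m + 1)) →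
        (s(a + (0, 0, t), b + (0, 0, t)) ∈ shift (0, 0, t) M ∧
          s(a + (0, 0, t), b + (0, 0, t)) ≠ cap (k + t) ∧
          s(a + (0, 0, t), b + (0, 0, t)) ≠ cap (m + t + 1)) := by
      rintro a b ⟨h1, h2, h3⟩
      have hcap : ∀ j : ℤ, s(a + (0, 0, t), b + (0, 0, t)) = cap (j + t) → s(a, b) = cap j := by
        intro j hj
        rcases cap_levels hj with ⟨h4, h5⟩ | ⟨h4, h5⟩
        · have h6 : a = (0, 0, j) := by
            obtain ⟨x, y, z⟩ := a
            simp only [Prod.mk_add_mk, add_zero, Prod.mk.injEq] at h4 ⊢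
            omega
          have h7 : b = (1, 0, j) := by
            obtain ⟨x, y, z⟩ := b
            simp only [Prod.mk_add_mk, add_zero, Prod.mk.injEq] at h5 ⊢
            omega
          rw [h6, h7]
          rfl
        · have h6 : a = (1, 0, j) := by
            obtain ⟨x, y, z⟩ := a
            simp only [Prod.mk_add_mk, add_zero, Prod.mk.injEq] at h4 ⊢
            omega
          have h7 : b = (0, 0, j) := by
            obtain ⟨x, y, z⟩ := b
            simp only [Prod.mk_add_mk, add_zero, Prod.mk.injEq] at h5 ⊢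
            omega
          rw [h6, h7, Sym2.eq_swap]
          rfl
      refine ⟨?_, fun h4 => h2 (hcap _ h4), fun h4 => h3 (hcap _ ?_)⟩
      · rw [mem_shift]
        simpa using h1
      · rw [h4]
        congr 1
        ring
    have h2 := Relation.ReflTransGen.lift (p := fun a b : P3 => s(a, b) ∈ shift (0, 0, t) M ∧
      s(a, b) ≠ cap (k + t) ∧ s(a, b) ≠ cap (m + t + 1)) (fun a : P3 => a + (0, 0, t)) e _ _ h
    have e1 : ((1, 0, k) : P3) + (0, 0, t) = (1, 0, k + t) := by simp
    have e2 : ((1, 0, m + 1) : P3) + (0, 0, t) = (1, 0, m + t + 1) := by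
      simp only [Prod.mk_add_mk, add_zero, Prod.mk.injEq, true_and]
      omega
    change Relation.ReflTransGen _ (((1, 0, k) : P3) + (0, 0, t))
      (((1, 0, m + 1) : P3) + (0, 0, t)) at h2
    rw [e1, e2] at h2
    exact h2
  refine ⟨fun h => ?_, key M k m t⟩
  have h2 := key _ _ _ (-t) h
  rw [shift_shift] at h2
  have e1 : ((0, 0, -t) : P3) + (0, 0, t) = 0 := by simp
  have e2 : k + t + -t = k := by ring
  have e3 : m + t + -t = m := by ring
  rw [e1, e2, e3, shift_zero] at h2
  exact h2

end Pool.Agent.KTube
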