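import Pool.Agent.KTube.Ctx
import Pool.Agent.KTube.Parity

/-! Even and odd unknotted middle pieces: only the parity matters for the completions. -/

set_option autoImplicit false

open scoped ENNReal
open Finset

namespace Pool.Agent.KTube

open Pool.Agent.LK

variable {A B S S' E : Finset (Sym2 P3)} {k k' i j : ℤ} {L M : ℕ} {C : Set (Finset (Sym2 P3))}
  {Y : ℝ≥0∞}

/-! ### A straight level -/

theorem rect_facts (hT1 : StretchStatement) : IsUpp rect 0 ∧ IsLow rect 1 ∧ Unknotted rect := by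
  have h0 := rect_mem_mid (L := 1) (M := 1) hT1 le_rfl
  have h1 := isV0_rect (k := 1)
  obtain ⟨⟨⟨-, -, -⟩, hU, k, hk, hLo, hu⟩, hUn⟩ := h0
  have h2 := hu 1 one_pos (h1.2 (Or.inr rfl))
  exact ⟨hU, h2 ▸ hLo, hUn⟩

theorem rect_one {u v : P3} (h : s(u, v) ∈ rect) (hu : u.2.2 = 1) (hv : v.2.2 = 1) : False := by
  unfold rect at h
  rw [mem_stretch] at h
  rcases h with ⟨-, h1, -⟩ | ⟨-, h1, -⟩ | ⟨a, b, i, -, -, h1⟩
  · omega
  · push_cast at h1
    omega
  · rw [Sym2.eq_iff] at h1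
    rcases h1 with ⟨rfl, rfl⟩ | ⟨rfl, rfl⟩ <;> simp only at hu hv <;> omega

theorem stretch_glue_self (hT1 : StretchStatement) (hA : IsLow A 0) (hB : IsUpp B 0) :
    stretch (glue A B 0) 0 1 = glue (glue A rect 0) (shift (0, 0, 1) B) 1 := by
  obtain ⟨hU, hR, -⟩ := rect_facts hT1
  have hA' : IsLow (glue A rect 0) 1 := isLow_glue_of_le hA hU hR (by norm_num)
  have hB' : IsUpp (shift (0, 0, 1) B) 1 := isUpp_shift_self hB 1
  have hV := isV0_glue hA hB
  refine edge_ext fun u v => ?_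
  rw [mem_stretch, mem_glue hA' hB', mem_shift]
  have z1 : ∀ w : P3, (w - (0, 0, 1)).2.2 = w.2.2 - 1 := fun w => rfl
  constructor
  · rintro (⟨h1, h2, h3⟩ | ⟨h1, h2, h3⟩ | ⟨a, b, i, hi, h1, h2⟩)
    · refine Or.inl ⟨?_, by omega, by omega⟩
      rw [mem_glue_low hA hU h2]
      exact (mem_glue_low hA hB h2).1 h1
    · push_cast at h1 h2 h3
      refine Or.inr (Or.inl ⟨?_, by omega, by omega⟩)
      exact (mem_glue_upp hA hB (by rw [z1]; omega)).1 h1
    · have h3 := (isV0_iff.1 hV a b).1 h1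
      have h4 : i = 0 ∨ i = 1 := by omega
      rcases h3 with ⟨rfl, rfl⟩ | ⟨rfl, rfl⟩ <;> rcases h4 with rfl | rfl
      · refine Or.inl ⟨?_, ?_, ?_⟩
        · rw [h2]
          exact (isV0_glue hA hU).leg0_mem
        · rw [Sym2.eq_iff] at h2
          rcases h2 with ⟨rfl, rfl⟩ | ⟨rfl, rfl⟩ <;> simp
        · rw [Sym2.eq_iff] at h2
          rcases h2 with ⟨rfl, rfl⟩ | ⟨rfl, rfl⟩ <;> simp
      · exact Or.inr (Or.inr (Or.inl h2))
      · refine Or.inl ⟨?_, ?_, ?_⟩
        · rw [h2]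
          exact (isV0_glue hA hU).leg1_mem
        · rw [Sym2.eq_iff] at h2
          rcases h2 with ⟨rfl, rfl⟩ | ⟨rfl, rfl⟩ <;> simp
        · rw [Sym2.eq_iff] at h2
          rcases h2 with ⟨rfl, rfl⟩ | ⟨rfl, rfl⟩ <;> simp
      · exact Or.inr (Or.inr (Or.inr h2))
  · rintro (⟨h1, h2, h3⟩ | ⟨h1, h2, h3⟩ | h1 | h1)
    · rw [mem_glue hA hU] at h1
      rcases h1 with ⟨h4, h5, h6⟩ | ⟨h4, h5, h6⟩ | h4 | h4
      · exact Or.inl ⟨(mem_glue_low hA hB h5).2 h4, h5, h6⟩
      · exact absurd (rect_one h4 (by omega) (by omega)) id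
      · refine Or.inr (Or.inr ⟨0, 0, 0, by omega, hV.leg0_mem, ?_⟩)
        rw [h4]
        rfl
      · refine Or.inr (Or.inr ⟨1, 0, 0, by omega, hV.leg1_mem, ?_⟩)
        rw [h4]
        rfl
    · refine Or.inr (Or.inl ⟨?_, by push_cast; omega, by push_cast; omega⟩)
      push_cast
      exact (mem_glue_upp hA hB (by rw [z1]; omega)).2 h1
    · refine Or.inr (Or.inr ⟨0, 0, 1, le_rfl, hV.leg0_mem, ?_⟩)
      rw [h1]
      rfl
    · refine Or.inr (Or.inr ⟨1, 0, 1, le_rfl, hV.leg1_mem, ?_⟩)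
      rw [h1]
      rfl

/-! ### Equivalent contexts -/

/-- The two contexts have the same completions. -/
def CEq (C : Set (Finset (Sym2 P3))) (A A' : Finset (Sym2 P3)) : Prop :=
  ∀ B, IsUpp B 0 → (B ∈ cl C A ↔ B ∈ cl C A')

theorem CEq.symm {A' : Finset (Sym2 P3)} (h : CEq C A A') : CEq C A' A :=
  fun B hB => (h B hB).symm

theorem CEq.trans {A' A'' : Finset (Sym2 P3)} (h : CEq C A A') (h' : CEq C A' A'') :
    CEq C A A'' := fun B hB => (h B hB).trans (h' B hB)

theorem glue_nextC (hA : IsLow A 0) (hS : IsBlock S 0 k) (hB : IsUpp B 0) :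
    glue (nextC A S) B 0 = glue (shift (0, 0, -k) A) (glue (shift (0, 0, -k) S) B 0) (-k) := by
  obtain ⟨hk, hU, hSl⟩ := hS
  have hA' : IsLow (shift (0, 0, -k) A) (-k) := by
    have := isLow_shift_add (t := -k) hA
    rwa [zero_add] at this
  have hU' : IsUpp (shift (0, 0, -k) S) (-k) := by
    have := isUpp_shift_add (t := -k) hU
    rwa [zero_add] at this
  have hS' : IsLow (shift (0, 0, -k) S) 0 := by
    have := isLow_shift_add (t := -k) hSl
    rwa [add_neg_cancel] at this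
  rw [nextC_eq hSl, shift_glue (-k) A S 0, zero_add, glue_assoc hA' hU' hS' hB (by omega)]

theorem isBlock_shift (hS : IsBlock S k j) (t : ℤ) : IsBlock (shift (0, 0, t) S) (k + t) (j + t) :=
  ⟨by have := hS.1; omega, isUpp_shift_add hS.2.1, isLow_shift_add hS.2.2⟩

/-- **Only the parity of an unknotted block matters.** -/
theorem cEq_block (hMid : MiddleStatement) (hC : ∀ E F, SameType E F → E ∈ C → F ∈ C)
    (hA : IsLow A 0) (hS : IsBlock S 0 k) (hS' : IsBlock S' 0 k') (hU : Unknotted S)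
    (hU' : Unknotted S') (hpar : Even S 0 k ↔ Even S' 0 k') :
    CEq C (nextC A S) (nextC A S') := by
  intro B hB
  have h1 : IsLow (shift (0, 0, -k) A) (-k) := by
    have := isLow_shift_add (t := -k) hA
    rwa [zero_add] at this
  have h2 : IsBlock (shift (0, 0, -k) S) (-k) 0 := by
    have := isBlock_shift hS (-k)
    rwa [zero_add, add_neg_cancel] at this
  have h3 : IsBlock (shift (0, 0, -k') S') (-k') 0 := by
    have := isBlock_shift hS' (-k')
    rwa [zero_add, add_neg_cancel] at this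
  have h4 : Even (shift (0, 0, -k) S) (-k) 0 ↔ Even S 0 k := by
    have := even_shift (M := S) (k := 0) (m := k) (-k)
    rwa [zero_add, add_neg_cancel] at this
  have h5 : Even (shift (0, 0, -k') S') (-k') 0 ↔ Even S' 0 k' := by
    have := even_shift (M := S') (k := 0) (m := k') (-k')
    rwa [zero_add, add_neg_cancel] at this
  have h6 := hMid (shift (0, 0, -k) A) B (shift (0, 0, -k) S) (shift (0, 0, -k') S') (-k) (-k') 0
    h1 h2 h3 hB ((sameType_shift _ _).symm.unknotted hU) ((sameType_shift _ _).symm.unknotted hU')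
    (h4.trans (hpar.trans h5.symm))
  rw [shift_shift] at h6
  have e1 : ((0, 0, -k' - -k) : P3) + (0, 0, -k) = (0, 0, -k') := by simp
  rw [e1, ← glue_nextC hA hS hB, ← glue_nextC hA hS' hB] at h6
  exact ⟨fun h => hC _ _ h6 h, fun h => hC _ _ h6.symm h⟩

theorem isBlock_rect (hT1 : StretchStatement) : IsBlock rect 0 1 :=
  ⟨one_pos, (rect_facts hT1).1, (rect_facts hT1).2.1⟩

theorem even_rect (hT1 : StretchStatement) : Even rect 0 1 := by
  obtain ⟨hU, hLo, -⟩ := rect_facts hT1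
  have h1 : s(((1, 0, 0) : P3), (1, 0, 0 + 1)) ∈ rect ∧
      s(((1, 0, 0) : P3), (1, 0, 0 + 1)) ≠ cap 0 ∧ s(((1, 0, 0) : P3), (1, 0, 0 + 1)) ≠ cap (1 + 1) :=
    ⟨hU.2.1.leg1_mem, (cap_ne_leg1 0 0).symm, (cap_ne_leg1 0 (1 + 1)).symm⟩
  have h2 : s(((1, 0, 0 + 1) : P3), (1, 0, 1 + 1)) ∈ rect ∧
      s(((1, 0, 0 + 1) : P3), (1, 0, 1 + 1)) ≠ cap 0 ∧
      s(((1, 0, 0 + 1) : P3), (1, 0, 1 + 1)) ≠ cap (1 + 1) :=
    ⟨hLo.2.1.leg1_mem, (cap_ne_leg1 1 0).symm, (cap_ne_leg1 1 (1 + 1)).symm⟩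
  exact (Relation.ReflTransGen.single (r := fun a b : P3 => s(a, b) ∈ rect ∧ s(a, b) ≠ cap 0 ∧
    s(a, b) ≠ cap (1 + 1)) h1).tail h2

/-- A straight level changes nothing. -/
theorem cEq_rect (hT1 : StretchStatement) (hC : ∀ E F, SameType E F → E ∈ C → F ∈ C)
    (hA : IsLow A 0) : CEq C (nextC A rect) A := by
  intro B hB
  obtain ⟨hU, hLo, -⟩ := rect_facts hT1
  have h1 := stretch_glue_self hT1 hA hB
  have h2 : glue (nextC A rect) B 0 = shift (0, 0, -1) (stretch (glue A B 0) 0 1) := by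
    rw [h1, nextC_eq hLo, shift_glue (-1) (glue A rect 0), shift_shift]
    have e1 : (((0, 0, -1) : P3) + (0, 0, 1)) = 0 := by simp
    rw [e1, shift_zero, add_neg_cancel]
  have h3 : SameType (glue A B 0) (glue (nextC A rect) B 0) := by
    rw [h2]
    exact (hT1 _ 0 1 (isPolygon_glue hA hB)).2.trans (sameType_shift _ _)
  exact ⟨fun h => hC _ _ h3.symm h, fun h => hC _ _ h3 h⟩

/-- Even unknotted blocks change nothing. -/
theorem cEq_even (hT1 : StretchStatement) (hMid : MiddleStatement)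
    (hC : ∀ E F, SameType E F → E ∈ C → F ∈ C) (hA : IsLow A 0) (hS : IsBlock S 0 k)
    (hU : Unknotted S) (he : Even S 0 k) : CEq C (nextC A S) A :=
  (cEq_block hMid hC hA hS (isBlock_rect hT1) hU (rect_facts hT1).2.2
    (iff_of_true he (even_rect hT1))).trans (cEq_rect hT1 hC hA)

theorem isLow_nextC (hA : IsLow A 0) (hS : IsBlock S 0 k) : IsLow (nextC A S) 0 := by
  rw [nextC_eq hS.2.2]
  have := isLow_shift_add (t := -k) (isLow_glue_of_le hA hS.2.1 hS.2.2 hS.1.le)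
  rwa [add_neg_cancel] at this

/-- The next context of equivalent contexts. -/
theorem cEq_nextC {A' : Finset (Sym2 P3)} (hC : ∀ E F, SameType E F → E ∈ C → F ∈ C)
    (h : CEq C A A') (hA : IsLow A 0) (hA' : IsLow A' 0) (hS : IsBlock S 0 k) :
    CEq C (nextC A S) (nextC A' S) := by
  have key : ∀ X : Finset (Sym2 P3), IsLow X 0 → ∀ B, IsUpp B 0 →
      (B ∈ cl C (nextC X S) ↔ glue S (shift (0, 0, k) B) k ∈ cl C X) := by
    intro X hX B hB
    have hB' := isUpp_shift_self hB k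
    unfold cl
    rw [Set.mem_ofPred_eq, Set.mem_ofPred_eq, nextC_eq hS.2.2,
      glue_assoc hX hS.2.1 hS.2.2 hB' hS.1.le]
    have h2 : glue (shift (0, 0, -k) (glue X S 0)) B 0 =
        shift (0, 0, -k) (glue (glue X S 0) (shift (0, 0, k) B) k) := by
      rw [shift_glue (-k) (glue X S 0), shift_shift]
      have e1 : (((0, 0, -k) : P3) + (0, 0, k)) = 0 := by simp
      rw [e1, shift_zero, add_neg_cancel]
    rw [h2, class_shift_iff hC]
  intro B hB
  rw [key A hA B hB, key A' hA' B hB]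
  exact h _ (isUpp_glue_of_le hS.2.1 hS.2.2 (isUpp_shift_self hB k) hS.1.le)

/-- Two blocks in succession. -/
theorem nextC_nextC (hA : IsLow A 0) (hS : IsBlock S 0 k) (hS' : IsBlock S' 0 k') :
    nextC (nextC A S) S' = nextC A (comp (S, S')) ∧ IsBlock (comp (S, S')) 0 (k + k') := by
  have h1 : IsBlock (shift (0, 0, k) S') k (k + k') := by
    have := isBlock_shift hS' k
    rwa [zero_add, add_comm k' k] at this
  have h2 : IsBlock (comp (S, S')) 0 (k + k') := by
    rw [comp_eq hS.2.2]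
    exact isBlock_glue hS h1
  refine ⟨?_, h2⟩
  have h3 := isLow_nextC hA hS
  rw [nextC_eq hS'.2.2, nextC_eq h2.2.2, nextC_eq hS.2.2, comp_eq hS.2.2,
    glue_assoc hA hS.2.1 hS.2.2 h1.2.1 hS.1.le]
  have e1 : glue (shift (0, 0, -k) (glue A S 0)) S' 0 =
      shift (0, 0, -k) (glue (glue A S 0) (shift (0, 0, k) S') k) := by
    rw [shift_glue (-k) (glue A S 0), shift_shift]
    have e2 : (((0, 0, -k) : P3) + (0, 0, k)) = 0 := by simp
    rw [e2, shift_zero, add_neg_cancel]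
  rw [e1, shift_shift]
  congr 1
  simp only [Prod.mk_add_mk, add_zero, Prod.mk.injEq, true_and]
  ring

theorem even_comp (hS : IsBlock S 0 k) (hS' : IsBlock S' 0 k') :
    Even (comp (S, S')) 0 (k + k') ↔ (Even S 0 k ↔ Even S' 0 k') := by
  have h1 : IsBlock (shift (0, 0, k) S') k (k + k') := by
    have := isBlock_shift hS' k
    rwa [zero_add, add_comm k' k] at this
  have h2 : Even (shift (0, 0, k) S') k (k + k') ↔ Even S' 0 k' := by
    have := even_shift (M := S') (k := 0) (m := k') k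
    rwa [zero_add, add_comm k' k] at this
  rw [comp_eq hS.2.2, even_glue hS h1, h2]

/-- Twice the same unknotted block changes nothing. -/
theorem cEq_twice (hT1 : StretchStatement) (hMid : MiddleStatement)
    (hC : ∀ E F, SameType E F → E ∈ C → F ∈ C) (hA : IsLow A 0) (hS : IsBlock S 0 k)
    (hU : Unknotted S) : CEq C (nextC (nextC A S) S) A := by
  obtain ⟨h1, h2⟩ := nextC_nextC hA hS hS
  rw [h1]
  refine cEq_even hT1 hMid hC hA h2 ?_ ((even_comp hS hS).2 Iff.rfl)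
  exact (comp_mem_US hT1 hS.2.2 hS.2.1).2 ⟨hU, hU⟩

end Pool.Agent.KTube
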