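import Pool.Agent.KTube.HangB
import Pool.Agent.MP_aea6d5_co.SumInv

/-! An unknotted lower part can be removed, whatever lies above. -/

set_option autoImplicit false

open Set Topology

namespace Pool.Agent.KTube

open Pool.Agent.LK

/-- A homeomorphism of the sphere carries `X` to `Y`. -/
def EqvS (X Y : Set R3) : Prop := ∃ Φ : S3 ≃ₜ S3, Φ '' up X = up Y

theorem EqvS.symm {X Y : Set R3} (h : EqvS X Y) : EqvS Y X := by
  obtain ⟨Φ, hΦ⟩ := h
  refine ⟨Φ.symm, ?_⟩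
  rw [← hΦ]
  exact Φ.symm_image_image _

theorem EqvS.trans {X Y Z : Set R3} (h : EqvS X Y) (h' : EqvS Y Z) : EqvS X Z := by
  obtain ⟨Φ, hΦ⟩ := h
  obtain ⟨Ψ, hΨ⟩ := h'
  refine ⟨Φ.trans Ψ, ?_⟩
  rw [← hΨ, ← hΦ, image_image]
  rfl

theorem Eqv.toS {X Y : Set R3} (h : Eqv X Y) : EqvS X Y := by
  obtain ⟨φ, rfl⟩ := h
  exact ⟨ext3 φ, ext3_image_up φ X⟩

/-- **Removing an unknotted lower part.** -/
theorem remove {A B : Set R3} {m : ℝ} (hAb : ∃ N : ℝ, ∀ p ∈ A, ‖p‖ ≤ N)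
    (hA : ∀ p ∈ A, p.2.2 ≤ m) (hB : ∀ p ∈ B, m + 1 ≤ p.2.2) (hU : Unk (A ∪ tent 0 0 m)) :
    EqvS (A ∪ B ∪ strands 0 0 m) (refl3 '' B ∪ tent 0 0 (-(m + 1))) := by
  obtain ⟨N₀, hN₀⟩ := hAb
  set g : ℝ × ℝ → ℝ := fun _ => m + 1 / 2 with hgdef
  have hg : Continuous g := continuous_const
  set N : ℝ := max N₀ 0 + |m| + 1 with hN
  have hN0' : 0 ≤ max N₀ 0 := le_max_right _ _
  have hN0 : 0 ≤ N := by positivity
  have hbd : ∀ p ∈ A, |p.1 - 0 - 1 / 2| ≤ N ∧ |p.2.1 - 0| ≤ N ∧ |p.2.2 - g (p.1, p.2.1)| ≤ N := by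
    intro p hp
    have h1 : ‖p‖ ≤ max N₀ 0 := (hN₀ p hp).trans (le_max_left _ _)
    have h2 : |p.1| ≤ max N₀ 0 := by
      have := (norm_fst_le p).trans h1
      rwa [Real.norm_eq_abs] at this
    have h3 : |p.2.1| ≤ max N₀ 0 := by
      have := ((norm_fst_le p.2).trans (norm_snd_le p)).trans h1
      rwa [Real.norm_eq_abs] at this
    have h4 : |p.2.2| ≤ max N₀ 0 := by
      have := ((norm_snd_le p.2).trans (norm_snd_le p)).trans h1
      rwa [Real.norm_eq_abs] at this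
    have h5 := abs_nonneg m
    have h6 := abs_le.1 h2
    have h7 := abs_le.1 h4
    have h8 := neg_abs_le m
    have h9 := le_abs_self m
    refine ⟨?_, ?_, ?_⟩
    · rw [abs_le]
      constructor <;> linarith
    · rw [sub_zero]
      linarith
    · rw [abs_le]
      simp only [hgdef]
      constructor <;> linarith
  set T : ℝ := N + 1 with hTN
  have hT : 0 ≤ T := by linarith
  have hA' : ∀ p ∈ A, p.2.2 + 1 / 2 ≤ g (p.1, p.2.1) := by
    intro p hp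
    have := hA p hp
    simp only [hgdef]
    linarith
  have hB' : ∀ p ∈ B, g (p.1, p.2.1) ≤ p.2.2 - 1 / 2 := by
    intro p hp
    have := hB p hp
    simp only [hgdef]
    linarith
  obtain ⟨Θ₁, hΘ₁⟩ := join_homeo (x := 0) (y := 0) (h := m) hg hT hA' hB' (fun _ _ _ => rfl)
  obtain ⟨Θ₂, hΘ₂⟩ := side_homeo (x := 0) (y := 0) (h := m) hg hT hA' (fun _ _ _ => rfl)
  obtain ⟨Θ₃, hΘ₃⟩ := side_homeo (A := refl3 '' B) (g := fun v => -g v) (x := 0) (y := 0)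
    (h := -(m + 1)) (by fun_prop) hT (by
      intro p hp
      rw [mem_refl3_image] at hp
      have := hB' _ hp
      rw [refl3_apply] at this
      simp only [hgdef] at this ⊢
      linarith) (by
      intro s _ _
      simp only [hgdef]
      ring)
  have h3 : fA (fun v => -g v) 0 0 T '' (refl3 '' B) = refl3 '' (fB g 0 0 T '' B) := by
    rw [image_image, image_image]
    apply image_congr
    intro p _
    refine Prod.ext rfl (Prod.ext rfl ?_)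
    change -p.2.2 - -g (p.1, p.2.1) - T = -(p.2.2 - g (p.1, p.2.1) + T)
    ring
  rw [h3] at hΘ₃
  have hUA : Unk (refl3 '' (fA g 0 0 T '' A) ∪ refl3 '' Te T) := by
    rw [← image_union, unk_homeo_iff, ← hΘ₂, unk_homeo_iff]
    exact hU
  obtain ⟨Φ, hΦ⟩ := b1_side (A := refl3 '' (fB g 0 0 T '' B)) (B := refl3 '' (fA g 0 0 T '' A))
    hN0 (by linarith : N < T) (by
      rintro _ ⟨_, ⟨p, hp, rfl⟩, rfl⟩
      have := hB' p hp
      change -(p.2.2 - g (p.1, p.2.1) + T) ≤ -(T + 1 / 2)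
      linarith) (by
      rintro _ ⟨_, ⟨p, hp, rfl⟩, rfl⟩
      obtain ⟨h5, h6, h7⟩ := hbd p hp
      have h8 := hA' p hp
      have h9 := abs_le.mp h7
      refine ⟨h5, h6, ?_, ?_⟩
      · change T + 1 / 2 ≤ -(p.2.2 - g (p.1, p.2.1) - T)
        linarith
      · change -(p.2.2 - g (p.1, p.2.1) - T) ≤ T + N
        linarith) hUA
  rw [← refl3_join] at hΦ
  have e1 : EqvS (A ∪ B ∪ strands 0 0 m) (fA g 0 0 T '' A ∪ fB g 0 0 T '' B ∪ St T) :=
    Eqv.toS ⟨Θ₁, hΘ₁⟩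
  have e2 : EqvS (fA g 0 0 T '' A ∪ fB g 0 0 T '' B ∪ St T)
      (refl3 '' (fA g 0 0 T '' A ∪ fB g 0 0 T '' B ∪ St T)) := Eqv.toS ⟨refl3, rfl⟩
  have e3 : EqvS (refl3 '' (fB g 0 0 T '' B) ∪ Te T)
      (refl3 '' (fA g 0 0 T '' A ∪ fB g 0 0 T '' B ∪ St T)) := ⟨Φ, hΦ⟩
  have e4 : EqvS (refl3 '' B ∪ tent 0 0 (-(m + 1))) (refl3 '' (fB g 0 0 T '' B) ∪ Te T) :=
    Eqv.toS ⟨Θ₃, hΘ₃⟩
  exact ((e1.trans e2).trans e3.symm).trans e4.symm

end Pool.Agent.KTube
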