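import Pool.Agent.KTube.Rep
import Pool.Agent.KTube.PLike
import Pool.Agent.KTube.Final

/-! Asymptotics of the even and the odd renewal series. -/

set_option autoImplicit false

open scoped ENNReal
open Finset Pool.Agent.LatticeTube

namespace Pool.Agent.KTube

open Pool.Agent.LK

/-! ### Normalised real series -/

/-- The real series with the coefficients `F n * ρ ^ n`. -/
noncomputable def nr (ρ : ℝ) (F : PowerSeries ℝ≥0∞) : PowerSeries ℝ :=
  PowerSeries.mk fun n => rc F n * ρ ^ n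

/-- All coefficients are finite. -/
def Fin' (F : PowerSeries ℝ≥0∞) : Prop := ∀ n, PowerSeries.coeff n F ≠ ∞

variable {ρ r : ℝ} {F G : PowerSeries ℝ≥0∞}

theorem coeff_nr (n : ℕ) : PowerSeries.coeff n (nr ρ F) = rc F n * ρ ^ n :=
  PowerSeries.coeff_mk _ _

theorem Fin'.mul (hF : Fin' F) (hG : Fin' G) : Fin' (F * G) := mul_ne_top' hF hG

theorem Fin'.add (hF : Fin' F) (hG : Fin' G) : Fin' (F + G) := add_ne_top' hF hG

theorem fin'_zero : Fin' 0 := fun n => by simp

theorem fin'_one : Fin' 1 := fun n => by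
  rw [PowerSeries.coeff_one]
  split_ifs <;> simp

theorem Fin'.pow (hF : Fin' F) (k : ℕ) : Fin' (F ^ k) := by
  induction k with
  | zero => rw [pow_zero]; exact fin'_one
  | succ k ih => rw [pow_succ]; exact ih.mul hF

theorem fin'_sum {ι : Type*} (I : Finset ι) (f : ι → PowerSeries ℝ≥0∞)
    (h : ∀ i ∈ I, Fin' (f i)) : Fin' (∑ i ∈ I, f i) := by
  classical
  induction I using Finset.induction_on with
  | empty => rw [sum_empty]; exact fin'_zero
  | insert i I hi ih =>
    rw [sum_insert hi]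
    exact (h i (mem_insert_self _ _)).add (ih fun j hj => h j (mem_insert_of_mem hj))

theorem nr_add (hF : Fin' F) (hG : Fin' G) : nr ρ (F + G) = nr ρ F + nr ρ G := by
  ext n
  rw [map_add, coeff_nr, coeff_nr, coeff_nr, rc_add hF hG, add_mul]

theorem nr_zero : nr ρ 0 = 0 := by
  ext n
  rw [coeff_nr, map_zero]
  simp [rc]

theorem nr_one : nr ρ 1 = 1 := by
  ext n
  rw [coeff_nr, PowerSeries.coeff_one]
  unfold rc
  rw [PowerSeries.coeff_one]
  split_ifs with h
  · rw [h]; simp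
  · simp

theorem nr_mul (hF : Fin' F) (hG : Fin' G) : nr ρ (F * G) = nr ρ F * nr ρ G := by
  ext n
  rw [coeff_nr, rc_mul hF hG, conv_mul_pow]
  unfold conv
  rw [PowerSeries.coeff_mul]
  exact sum_congr rfl fun p _ => by rw [coeff_nr, coeff_nr]

theorem nr_pow (hF : Fin' F) (k : ℕ) : nr ρ (F ^ k) = nr ρ F ^ k := by
  induction k with
  | zero => rw [pow_zero, pow_zero, nr_one]
  | succ k ih => rw [pow_succ, pow_succ, nr_mul (hF.pow k) hF, ih]

theorem nr_sum {ι : Type*} (I : Finset ι) (f : ι → PowerSeries ℝ≥0∞)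
    (h : ∀ i ∈ I, Fin' (f i)) : nr ρ (∑ i ∈ I, f i) = ∑ i ∈ I, nr ρ (f i) := by
  classical
  induction I using Finset.induction_on with
  | empty => rw [sum_empty, sum_empty, nr_zero]
  | insert i I hi ih =>
    rw [sum_insert hi, sum_insert hi, nr_add (h i (mem_insert_self _ _))
      (fin'_sum I f fun j hj => h j (mem_insert_of_mem hj)),
      ih fun j hj => h j (mem_insert_of_mem hj)]

theorem isSm_nr (hρ : 0 < ρ) (hr : ρ < r) (h : evs F (ENNReal.ofReal r) < ∞) :
    IsSm (nr ρ F) := by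
  refine (small_of_summable hρ hr (summable_rc (hρ.trans hr).le h)).congr fun n => ?_
  exact coeff_nr n

theorem tot_nr_nonneg (hρ : 0 < ρ) : 0 ≤ tot (nr ρ F) :=
  tsum_nonneg fun n => by
    rw [coeff_nr]
    exact mul_nonneg (rc_nonneg _ _) (by positivity)

theorem tot_nr_pos (hρ : 0 < ρ) (hr : ρ < r) (h : evs F (ENNReal.ofReal r) < ∞) (h0 : F ≠ 0) :
    0 < tot (nr ρ F) := by
  have h1 := isSm_nr hρ hr h
  have h2 : ∃ n, PowerSeries.coeff n F ≠ 0 := by
    by_contra h3
    push Not at h3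
    exact h0 (PowerSeries.ext fun n => by rw [h3 n, map_zero])
  obtain ⟨m, hm⟩ := h2
  refine ExpSmall.summable h1 |>.tsum_pos (fun n => ?_) m ?_
  · rw [coeff_nr]
    exact mul_nonneg (rc_nonneg _ _) (by positivity)
  · rw [coeff_nr]
    exact mul_pos (ENNReal.toReal_pos hm (coeff_ne_top (hρ.trans hr) h m)) (by positivity)

theorem PLk.isCst {c : ℝ} {X : PowerSeries ℝ} (h : PLk 0 c X) : IsCst c X := by
  obtain ⟨a, ha, h1⟩ := h
  rw [zero_add, sum_range_one, zero_add, pow_one, ha] at h1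
  exact h1

theorem IsCst.small_mul {c : ℝ} {X E : PowerSeries ℝ} (hX : IsCst c X) (hE : IsSm E) :
    IsCst (c * tot E) (E * X) := (PLk.small_mul hE hX.pLk).isCst

/-! ### The geometric series -/

theorem evs_pow (F : PowerSeries ℝ≥0∞) (z : ℝ≥0∞) (k : ℕ) : evs (F ^ k) z = evs F z ^ k := by
  induction k with
  | zero => rw [pow_zero, pow_zero, evs_one]
  | succ k ih => rw [pow_succ, pow_succ, evs_mul, ih]

theorem evs_geo_lt {z : ℝ≥0∞} (h : evs F z < 1) : evs (geo F) z < ∞ := by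
  have h1 : evs (geo F) z ≤ ∑' k, evs F z ^ k := by
    unfold evs geo
    simp_rw [PowerSeries.coeff_mk]
    calc ∑' n, (∑ k ∈ range (n + 1), PowerSeries.coeff n (F ^ k)) * z ^ n
        ≤ ∑' n, ∑' k, PowerSeries.coeff n (F ^ k) * z ^ n := by
          refine ENNReal.tsum_le_tsum fun n => ?_
          rw [ENNReal.tsum_mul_right]
          exact mul_le_mul' (ENNReal.sum_le_tsum _) le_rfl
      _ = ∑' k, ∑' n, PowerSeries.coeff n (F ^ k) * z ^ n := ENNReal.tsum_comm
      _ = ∑' k, (∑' n, PowerSeries.coeff n F * z ^ n) ^ k :=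
          tsum_congr fun k => evs_pow F z k
  refine h1.trans_lt ?_
  rw [ENNReal.tsum_geometric]
  refine ENNReal.inv_lt_top.2 (tsub_pos_of_lt h)

/-- A series that is smaller than one at `ρ` is smaller than one a little further. -/
theorem exists_beyond (hρ : 0 < ρ) (hr : ρ < r) (h : evs F (ENNReal.ofReal r) < ∞)
    (h1 : evs F (ENNReal.ofReal ρ) < 1) : ∃ x, ρ < x ∧ x ≤ r ∧ evs F (ENNReal.ofReal x) < 1 := by
  set a := evs F (ENNReal.ofReal ρ) with ha
  set b := evs F (ENNReal.ofReal r) with hb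
  -- the interpolation
  have key : ∀ t : ℝ, 0 ≤ t → t ≤ 1 →
      evs F (ENNReal.ofReal ((1 - t) * ρ + t * r)) ≤ a + ENNReal.ofReal t * b := by
    intro t h0 h2
    have hr0 : 0 < r := hρ.trans hr
    have hpow : ∀ n : ℕ, ((1 - t) * ρ + t * r) ^ n ≤ (1 - t) * ρ ^ n + t * r ^ n := by
      intro n
      have hc : ConvexOn ℝ (Set.Ici (0 : ℝ)) fun x : ℝ => x ^ n := convexOn_pow n
      have := hc.2 (Set.mem_Ici.2 hρ.le) (Set.mem_Ici.2 hr0.le) (by linarith : 0 ≤ 1 - t) h0
        (by ring)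
      simpa [smul_eq_mul] using this
    have e1 : ∀ n : ℕ, PowerSeries.coeff n F * ENNReal.ofReal ((1 - t) * ρ + t * r) ^ n ≤
        PowerSeries.coeff n F * ENNReal.ofReal ρ ^ n +
          ENNReal.ofReal t * (PowerSeries.coeff n F * ENNReal.ofReal r ^ n) := by
      intro n
      have h3 : ENNReal.ofReal ((1 - t) * ρ + t * r) ^ n ≤
          ENNReal.ofReal ρ ^ n + ENNReal.ofReal t * ENNReal.ofReal r ^ n := by
        rw [← ENNReal.ofReal_pow (by nlinarith), ← ENNReal.ofReal_pow hρ.le,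
          ← ENNReal.ofReal_pow hr0.le, ← ENNReal.ofReal_mul h0,
          ← ENNReal.ofReal_add (by positivity) (by positivity)]
        refine ENNReal.ofReal_le_ofReal ((hpow n).trans ?_)
        have : (1 - t) * ρ ^ n ≤ ρ ^ n := by
          have : 0 ≤ ρ ^ n := by positivity
          nlinarith
        linarith
      calc PowerSeries.coeff n F * ENNReal.ofReal ((1 - t) * ρ + t * r) ^ n
          ≤ PowerSeries.coeff n F * (ENNReal.ofReal ρ ^ n + ENNReal.ofReal t *
            ENNReal.ofReal r ^ n) := mul_le_mul' le_rfl h3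
        _ = _ := by ring
    calc evs F (ENNReal.ofReal ((1 - t) * ρ + t * r))
        ≤ ∑' n, (PowerSeries.coeff n F * ENNReal.ofReal ρ ^ n +
          ENNReal.ofReal t * (PowerSeries.coeff n F * ENNReal.ofReal r ^ n)) :=
          ENNReal.tsum_le_tsum e1
      _ = a + ENNReal.ofReal t * b := by
          rw [ENNReal.tsum_add, ENNReal.tsum_mul_left]
          rfl
  have hb0 : b ≠ ∞ := h.ne
  have ha0 : a ≠ ∞ := (h1.trans ENNReal.one_lt_top).ne
  have ha1 : a.toReal < 1 := by
    rw [← ENNReal.toReal_one]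
    exact (ENNReal.toReal_lt_toReal ha0 ENNReal.one_ne_top).2 h1
  set t : ℝ := min 1 ((1 - a.toReal) / (2 * (b.toReal + 1))) with ht
  have hb1 : 0 ≤ b.toReal := ENNReal.toReal_nonneg
  have ht0 : 0 < t := lt_min one_pos (div_pos (by linarith) (by positivity))
  have ht1 : t ≤ 1 := min_le_left _ _
  refine ⟨(1 - t) * ρ + t * r, by nlinarith, by nlinarith, (key t ht0.le ht1).trans_lt ?_⟩
  rw [← ENNReal.ofReal_toReal ha0, ← ENNReal.ofReal_toReal hb0, ← ENNReal.ofReal_mul ht0.le,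
    ← ENNReal.ofReal_add ENNReal.toReal_nonneg (by positivity), ← ENNReal.ofReal_one]
  refine (ENNReal.ofReal_lt_ofReal_iff one_pos).2 ?_
  have h5 : t * b.toReal ≤ (1 - a.toReal) / 2 := by
    calc t * b.toReal ≤ (1 - a.toReal) / (2 * (b.toReal + 1)) * (b.toReal + 1) := by
          refine mul_le_mul (min_le_right _ _) (by linarith) hb1 ?_
          exact (div_pos (by linarith) (by positivity)).le
      _ = (1 - a.toReal) / 2 := by
          field_simp
  linarith

/-! ### The renewal series -/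

variable {L M : ℕ} {y : ℝ}

/-- A renewal equation gives a renewal sequence. -/
theorem isRenewal_of {S U : PowerSeries ℝ≥0∞} (h0 : PowerSeries.coeff 0 S = 0)
    (h1 : PowerSeries.coeff 1 S ≠ 0) (hS : Fin' S) (hU : Fin' U) (h : U = 1 + S * U) :
    IsRenewal (rc S) (rc U) := by
  refine ⟨rc_nonneg _, ?_, ENNReal.toReal_pos h1 (hS 1), ?_, ?_⟩
  · unfold rc
    rw [h0, ENNReal.toReal_zero]
  · unfold rc
    rw [h, map_add, PowerSeries.coeff_mul, Finset.Nat.antidiagonal_zero, sum_singleton, h0,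
      zero_mul, add_zero, PowerSeries.coeff_one, if_pos rfl, ENNReal.toReal_one]
  · intro n hn
    have h2 : rc U n = rc (S * U) n := by
      unfold rc
      conv_lhs => rw [h, map_add, PowerSeries.coeff_one, if_neg (by omega), zero_add]
    rw [h2, rc_mul hS hU]
    unfold conv
    rw [Finset.Nat.sum_antidiagonal_eq_sum_range_succ (fun i j => rc S i * rc U j),
      sum_range_succ']
    have h3 : rc S 0 = 0 := by
      unfold rc
      rw [h0, ENNReal.toReal_zero]
    rw [h3, zero_mul, add_zero]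

theorem uS_eq_sum (Y : ℝ≥0∞) : uS L M Y = uE L M Y + uO L M Y := by
  obtain ⟨h1, h2⟩ := coeff_zero_sE_sO (L := L) (M := M) (Y := Y)
  obtain ⟨h3, h4⟩ := exists_even_odd h1 h2
  have h5 : PowerSeries.coeff 0 (sset (MidSet L M ∩ US) lB (wB Y)) = 0 := coeff_zero_mid _ _
  refine solve_unique h5 (uS_eq L M Y) ?_
  rw [sE_add_sO]
  change uE L M Y = 1 + (sE L M Y * uE L M Y + sO L M Y * uO L M Y) at h3
  change uO L M Y = sE L M Y * uO L M Y + sO L M Y * uE L M Y at h4
  calc uE L M Y + uO L M Y = 1 + (sE L M Y * uE L M Y + sO L M Y * uO L M Y) +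
        (sE L M Y * uO L M Y + sO L M Y * uE L M Y) := by
        rw [← h3, ← h4]
    _ = _ := by ring

theorem coeff_one_sE (hT1 : StretchStatement) (hL : 1 ≤ L) {Y : ℝ≥0∞} (hY : Y ≠ 0) :
    PowerSeries.coeff 1 (sE L M Y) ≠ 0 := by
  have hr : rect ∈ UE L M := by
    refine ⟨rect_mem_mid hT1 hL, ?_⟩
    rw [(rect_facts hT1).2.1.lev_eq]
    exact even_rect hT1
  have h1 : wB Y rect ≤ PowerSeries.coeff 1 (sE L M Y) := by
    unfold sE sset
    rw [coeff_ser]
    refine le_trans ?_ (ENNReal.le_tsum (f := fun b : (UE L M) =>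
      if lB b.1 = 1 then wB Y b.1 else 0) ⟨rect, hr⟩)
    rw [if_pos (lB_rect hT1)]
  intro h
  rw [h] at h1
  exact pow_ne_zero _ hY (nonpos_iff_eq_zero.1 h1)

theorem geo_zero : geo (0 : PowerSeries ℝ≥0∞) = 1 := by
  have := geo_eq (S := (0 : PowerSeries ℝ≥0∞)) (by simp)
  rw [zero_mul, add_zero] at this
  exact this

/-- **Asymptotics of the even and the odd renewal series.** -/
theorem renew (hT1 : StretchStatement) (hL : 1 ≤ L) (hy : 0 < y) (hB : BootData L M y ρ) :
    Fin' (uE L M (ENNReal.ofReal y)) ∧ Fin' (uO L M (ENNReal.ofReal y)) ∧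
    ∃ κ κ' : ℝ, 0 < κ ∧ 0 ≤ κ' ∧ (uO L M (ENNReal.ofReal y) ≠ 0 → 0 < κ') ∧
      IsCst κ (nr ρ (uE L M (ENNReal.ofReal y))) ∧
      IsCst κ' (nr ρ (uO L M (ENNReal.ofReal y))) := by
  obtain ⟨hρ, hconv, hdiv, ⟨r, hr, hr'⟩, -⟩ := hB
  set Y := ENNReal.ofReal y with hY
  have hY0 : Y ≠ 0 := by simpa [hY] using hy
  have hr0 : 0 < r := hρ.trans hr
  obtain ⟨c1, c2⟩ := coeff_zero_sE_sO (L := L) (M := M) (Y := Y)
  -- the pieces are finite at `r`
  have hs : evs (sset (MidSet L M ∩ US) lB (wB Y)) (ENNReal.ofReal r) < ∞ := by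
    rw [evs_sset]
    refine gB_lt_top (fun E hE => uppSet_bounds (midSet_upp hE.1)) hy hr0 ?_
    exact (gx_subset (Set.inter_subset_inter_left _ midSet_good) r).trans_lt hr'
  have hs' := hs
  rw [sE_add_sO, evs_add, ENNReal.add_lt_top] at hs'
  obtain ⟨hsE, hsO⟩ := hs'
  -- the renewal series are finite below `ρ`
  have hu : ∀ x, 0 < x → x < ρ → evs (uE L M Y) (ENNReal.ofReal x) < ∞ ∧
      evs (uO L M Y) (ENNReal.ofReal x) < ∞ := by
    intro x hx hlt
    have h1 := hconv x hx hlt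
    rw [uS_eq_sum, evs_add, ENNReal.add_lt_top] at h1
    exact h1
  have hρ2 := hu _ (half_pos hρ) (half_lt_self hρ)
  have fE : Fin' (uE L M Y) := coeff_ne_top (half_pos hρ) hρ2.1
  have fO : Fin' (uO L M Y) := coeff_ne_top (half_pos hρ) hρ2.2
  have fS : Fin' (sset (MidSet L M ∩ US) lB (wB Y)) := coeff_ne_top hr0 hs
  have fU : Fin' (uS L M Y) := coeff_ne_top (half_pos hρ) (hconv _ (half_pos hρ) (half_lt_self hρ))
  -- beyond `ρ`
  have hbey : ∃ x, ρ < x ∧ x ≤ r ∧ evs (sO L M Y * geo (sE L M Y)) (ENNReal.ofReal x) < ∞ := by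
    by_cases h0 : sO L M Y = 0
    · refine ⟨r, hr, le_rfl, ?_⟩
      rw [h0, zero_mul]
      unfold evs
      simp
    · have h1 := sum_eq_one (isRenewal_u hT1 hL hy fS fU) hρ hr (summable_rc hr0.le hs)
        (radius_conv hconv) (radius_div hρ fU hdiv)
      have h2 : evs (sset (MidSet L M ∩ US) lB (wB Y)) (ENNReal.ofReal ρ) = 1 := by
        have h3 : evs (sset (MidSet L M ∩ US) lB (wB Y)) (ENNReal.ofReal ρ) =
            ∑' n, ENNReal.ofReal (rc (sset (MidSet L M ∩ US) lB (wB Y)) n * ρ ^ n) := by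
          unfold evs
          refine tsum_congr fun n => ?_
          rw [ENNReal.ofReal_mul (rc_nonneg _ _), ENNReal.ofReal_pow hρ.le]
          unfold rc
          rw [ENNReal.ofReal_toReal (fS n)]
        rw [h3, ← ENNReal.ofReal_tsum_of_nonneg (fun n => mul_nonneg (rc_nonneg _ _)
          (by positivity)) ?_, h1, ENNReal.ofReal_one]
        exact (small_of_summable hρ hr (summable_rc hr0.le hs)).summable
      have h4 : evs (sE L M Y) (ENNReal.ofReal ρ) < 1 := by
        rw [sE_add_sO, evs_add] at h2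
        have h5 : evs (sO L M Y) (ENNReal.ofReal ρ) ≠ 0 := by
          intro h6
          apply h0
          ext n
          have h7 := coeff_le_evs (sO L M Y) (ENNReal.ofReal ρ) n
          rw [h6, nonpos_iff_eq_zero, mul_eq_zero] at h7
          rcases h7 with h7 | h7
          · rw [h7, map_zero]
          · exact absurd h7 (pow_ne_zero _ (by simpa using hρ))
        have h6 : evs (sE L M Y) (ENNReal.ofReal ρ) ≠ ∞ := by
          intro h7
          rw [h7, top_add] at h2
          exact ENNReal.top_ne_one h2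
        calc evs (sE L M Y) (ENNReal.ofReal ρ)
            < evs (sE L M Y) (ENNReal.ofReal ρ) + evs (sO L M Y) (ENNReal.ofReal ρ) :=
              ENNReal.lt_add_right h6 h5
          _ = 1 := h2
      obtain ⟨x, hx1, hx2, hx3⟩ := exists_beyond hρ hr hsE h4
      refine ⟨x, hx1, hx2, ?_⟩
      rw [evs_mul]
      refine ENNReal.mul_lt_top ?_ (evs_geo_lt hx3)
      exact (evs_mono _ (ENNReal.ofReal_le_ofReal hx2)).trans_lt hsO
  obtain ⟨x, hx1, hx2, hx3⟩ := hbey
  have hx0 : 0 < x := hρ.trans hx1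
  set p := sE L M Y + sO L M Y * geo (sE L M Y) * sO L M Y with hp
  have hpx : evs p (ENNReal.ofReal x) < ∞ := by
    rw [hp, evs_add, evs_mul (sO L M Y * geo (sE L M Y))]
    exact ENNReal.add_lt_top.2 ⟨(evs_mono _ (ENNReal.ofReal_le_ofReal hx2)).trans_lt hsE,
      ENNReal.mul_lt_top hx3 ((evs_mono _ (ENNReal.ofReal_le_ofReal hx2)).trans_lt hsO)⟩
  have fp : Fin' p := coeff_ne_top hx0 hpx
  have p0 : PowerSeries.coeff 0 p = 0 := by
    rw [hp, map_add, c1, mul_assoc, PowerSeries.coeff_mul, Finset.Nat.antidiagonal_zero,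
      sum_singleton, c2, zero_mul, add_zero]
  have p1 : PowerSeries.coeff 1 p ≠ 0 := by
    rw [hp, map_add]
    intro h
    exact coeff_one_sE hT1 hL hY0 (add_eq_zero.1 h).1
  have hren : IsRenewal (rc p) (rc (uE L M Y)) := isRenewal_of p0 p1 fp fE (geo_eq p0)
  have hdivE : ∀ x', ρ < x' → evs (uE L M Y) (ENNReal.ofReal x') = ∞ := by
    intro x' hx'
    by_contra h
    have h1 : evs (uE L M Y) (ENNReal.ofReal (min x x')) < ∞ :=
      (evs_mono _ (ENNReal.ofReal_le_ofReal (min_le_right _ _))).trans_lt (lt_top_iff_ne_top.2 h)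
    have h2 : evs (uO L M Y) (ENNReal.ofReal (min x x')) < ∞ := by
      unfold uO
      rw [evs_mul]
      exact ENNReal.mul_lt_top ((evs_mono _ (ENNReal.ofReal_le_ofReal
        (min_le_left _ _))).trans_lt hx3) h1
    have h3 := hdiv (min x x') (lt_min hx1 hx')
    rw [uS_eq_sum, evs_add] at h3
    exact (ENNReal.add_lt_top.2 ⟨h1, h2⟩).ne h3
  obtain ⟨κ, hκ, hκ'⟩ := renewal_exp hren hρ hx1 (summable_rc hx0.le hpx)
    (radius_conv fun x hx hlt => (hu x hx hlt).1) (radius_div hρ fE hdivE)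
  have cE : IsCst κ (nr ρ (uE L M Y)) := by
    refine ExpSmall.congr hκ' fun n => ?_
    rw [map_sub, coeff_nr, PowerSeries.coeff_C_mul]
    unfold gg
    rw [PowerSeries.coeff_mk]
    simp
  have fq : Fin' (sO L M Y * geo (sE L M Y)) := coeff_ne_top hx0 hx3
  have smq := isSm_nr hρ hx1 hx3
  refine ⟨fE, fO, κ, κ * tot (nr ρ (sO L M Y * geo (sE L M Y))), hκ,
    mul_nonneg hκ.le (tot_nr_nonneg hρ), ?_, cE, ?_⟩
  · intro h
    refine mul_pos hκ (tot_nr_pos hρ hx1 hx3 ?_)
    intro h1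
    apply h
    unfold uO
    rw [h1, zero_mul]
  · unfold uO
    rw [nr_mul fq fE]
    exact cE.small_mul smq

end Pool.Agent.KTube
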