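import Pool.Agent.KTube.Par

/-! The generating functions of the completions in terms of the even and the odd renewal series. -/

set_option autoImplicit false

open scoped ENNReal
open Finset

namespace Pool.Agent.KTube

open Pool.Agent.LK

variable {A A' B S S' E : Finset (Sym2 P3)} {k k' i j : ℤ} {L M : ℕ}
  {C : Set (Finset (Sym2 P3))} {Y : ℝ≥0∞}

/-- The even unknotted middle pieces. -/
def UE (L M : ℕ) : Set (Finset (Sym2 P3)) := {S | S ∈ MidSet L M ∩ US ∧ Even S 0 (lev S)}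

/-- The odd unknotted middle pieces. -/
def UO (L M : ℕ) : Set (Finset (Sym2 P3)) := {S | S ∈ MidSet L M ∩ US ∧ ¬ Even S 0 (lev S)}

theorem block_of_mid (hS : S ∈ MidSet L M) : IsBlock S 0 (lev S) := by
  obtain ⟨⟨hP, hT, hG⟩, hU, k, hk, hSl, hu⟩ := hS
  rw [hSl.lev_eq]
  exact ⟨hk, hU, hSl⟩

theorem uE_union_uO : MidSet L M ∩ US = UE L M ∪ UO L M := by
  ext S
  constructor
  · intro h
    by_cases h1 : Even S 0 (lev S)
    · exact Or.inl ⟨h, h1⟩
    · exact Or.inr ⟨h, h1⟩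
  · rintro (h | h)
    · exact h.1
    · exact h.1

theorem uE_disj : Disjoint (UE L M) (UO L M) := by
  rw [Set.disjoint_left]
  rintro S h h'
  exact h'.2 h.2

open Classical in
/-- The context with an additional odd piece, if there are odd pieces. -/
noncomputable def tw (L M : ℕ) (A : Finset (Sym2 P3)) : Finset (Sym2 P3) :=
  if h : (UO L M).Nonempty then nextC A h.choose else A

theorem isCtx_tw (hA : IsCtx L M A) : IsCtx L M (tw L M A) := by
  unfold tw
  split_ifs with h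
  · exact isCtx_nextC hA h.choose_spec.1.1
  · exact hA

theorem cEq_odd (hMid : MiddleStatement) (hC : ∀ E F, SameType E F → E ∈ C → F ∈ C)
    (hA : IsLow A 0) (hS : S ∈ UO L M) : CEq C (nextC A S) (tw L M A) := by
  have h : (UO L M).Nonempty := ⟨S, hS⟩
  unfold tw
  rw [dif_pos h]
  have h1 := h.choose_spec
  exact cEq_block hMid hC hA (block_of_mid hS.1.1) (block_of_mid h1.1.1) hS.1.2 h1.1.2
    (iff_of_false hS.2 h1.2)

theorem cEq_tw_tw (hT1 : StretchStatement) (hMid : MiddleStatement)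
    (hC : ∀ E F, SameType E F → E ∈ C → F ∈ C) (hA : IsLow A 0) :
    CEq C (tw L M (tw L M A)) A := by
  unfold tw
  by_cases h : (UO L M).Nonempty
  · rw [dif_pos h, dif_pos h]
    have h1 := h.choose_spec
    exact cEq_twice hT1 hMid hC hA (block_of_mid h1.1.1) h1.1.2
  · rw [dif_neg h, dif_neg h]
    exact fun B _ => Iff.rfl

theorem ff_congr (hT2 : CutStatement) (h : CEq C A A') (n : ℕ) :
    FF L M C Y n A = FF L M C Y n A' := by
  have h1 : UK L M C n A = UK L M C n A' := by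
    ext B
    constructor
    · rintro ⟨h2, h3⟩
      exact ⟨(h B (h3.upp hT2).1).1 h2, h3⟩
    · rintro ⟨h2, h3⟩
      exact ⟨(h B (h3.upp hT2).1).2 h2, h3⟩
  unfold FF
  rw [h1]

/-- The top pieces that complete the context. -/
noncomputable def TT (L M : ℕ) (C : Set (Finset (Sym2 P3))) (Y : ℝ≥0∞) (A : Finset (Sym2 P3)) :
    PowerSeries ℝ≥0∞ := sset (TopSet L M ∩ cl C A) lB (wB Y)

/-- The even pieces. -/
noncomputable def sE (L M : ℕ) (Y : ℝ≥0∞) : PowerSeries ℝ≥0∞ := sset (UE L M) lB (wB Y)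

/-- The odd pieces. -/
noncomputable def sO (L M : ℕ) (Y : ℝ≥0∞) : PowerSeries ℝ≥0∞ := sset (UO L M) lB (wB Y)

/-- The even renewal series. -/
noncomputable def uE (L M : ℕ) (Y : ℝ≥0∞) : PowerSeries ℝ≥0∞ :=
  geo (sE L M Y + sO L M Y * geo (sE L M Y) * sO L M Y)

/-- The odd renewal series. -/
noncomputable def uO (L M : ℕ) (Y : ℝ≥0∞) : PowerSeries ℝ≥0∞ :=
  sO L M Y * geo (sE L M Y) * uE L M Y

theorem sE_add_sO : sset (MidSet L M ∩ US) lB (wB Y) = sE L M Y + sO L M Y := by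
  rw [uE_union_uO, sset_union uE_disj]
  rfl

theorem coeff_zero_sE_sO : PowerSeries.coeff 0 (sE L M Y) = 0 ∧
    PowerSeries.coeff 0 (sO L M Y) = 0 := by
  have h1 := coeff_zero_mid (L := L) (M := M) US (wB Y)
  rw [sE_add_sO, map_add, add_eq_zero] at h1
  exact h1

theorem mid_sum (hT1 : StretchStatement) (hT2 : CutStatement) (hMid : MiddleStatement)
    (hC : ∀ E F, SameType E F → E ∈ C → F ∈ C) (hA : IsCtx L M A) (n : ℕ) :
    tS (MidSet L M ∩ US) (fun S => mon (lB S) (wB Y S) * FF L M C Y n (nextC A S)) =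
      sE L M Y * FF L M C Y n A + sO L M Y * FF L M C Y n (tw L M A) := by
  rw [uE_union_uO, tS_union uE_disj]
  congr 1
  · rw [tS_congr (g := fun S => mon (lB S) (wB Y S) * FF L M C Y n A), tS_mul_right, ← sset_eq_tS]
    · rfl
    · intro S hS
      rw [ff_congr hT2 (cEq_even hT1 hMid hC hA.1 (block_of_mid hS.1.1) hS.1.2 hS.2)]
  · rw [tS_congr (g := fun S => mon (lB S) (wB Y S) * FF L M C Y n (tw L M A)), tS_mul_right,
      ← sset_eq_tS]
    · rfl
    · intro S hS
      rw [ff_congr hT2 (cEq_odd hMid hC hA.1 hS)]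

theorem ff_zero_eq (hT1 : StretchStatement) (hT2 : CutStatement) (hMid : MiddleStatement)
    (hC : ∀ E F, SameType E F → E ∈ C → F ∈ C) (hA : IsCtx L M A) :
    FF L M C Y 0 A = uE L M Y * TT L M C Y A + uO L M Y * TT L M C Y (tw L M A) := by
  obtain ⟨h1, h2⟩ := coeff_zero_sE_sO (L := L) (M := M) (Y := Y)
  obtain ⟨h3, h4⟩ := exists_even_odd h1 h2
  refine solve2 (V := FF L M C Y 0 (tw L M A)) h1 h2 ?_ ?_ h3 h4
  · have e := FF_zero (L := L) (M := M) (Y := Y) hT2 hC hA.1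
    rw [mid_sum hT1 hT2 hMid hC hA] at e
    exact e
  · have e := FF_zero (L := L) (M := M) (Y := Y) hT2 hC (isCtx_tw hA).1
    rw [mid_sum hT1 hT2 hMid hC (isCtx_tw hA), ff_congr hT2 (cEq_tw_tw hT1 hMid hC hA.1)] at e
    exact e

theorem ff_succ_eq (hT1 : StretchStatement) (hT2 : CutStatement) (hMid : MiddleStatement)
    (hC : ∀ E F, SameType E F → E ∈ C → F ∈ C) (hA : IsCtx L M A) (n : ℕ) :
    FF L M C Y (n + 1) A = uE L M Y * QQ L M C Y (FF L M C Y n) A +
      uO L M Y * QQ L M C Y (FF L M C Y n) (tw L M A) := by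
  obtain ⟨h1, h2⟩ := coeff_zero_sE_sO (L := L) (M := M) (Y := Y)
  obtain ⟨h3, h4⟩ := exists_even_odd h1 h2
  refine solve2 (V := FF L M C Y (n + 1) (tw L M A)) h1 h2 ?_ ?_ h3 h4
  · have e := FF_succ (Y := Y) hT2 hC hA n
    rw [mid_sum hT1 hT2 hMid hC hA] at e
    exact e
  · have e := FF_succ (Y := Y) hT2 hC (isCtx_tw hA) n
    rw [mid_sum hT1 hT2 hMid hC (isCtx_tw hA), ff_congr hT2 (cEq_tw_tw hT1 hMid hC hA.1)] at e
    exact e

/-! ### The coefficients -/

/-- The coefficients of the expansion. -/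
noncomputable def cf (L M : ℕ) (C : Set (Finset (Sym2 P3))) (Y : ℝ≥0∞) :
    ℕ → ℕ → Finset (Sym2 P3) → PowerSeries ℝ≥0∞
  | 0, a, A => if a = 0 then TT L M C Y (tw L M A) else if a = 1 then TT L M C Y A else 0
  | i + 1, a, A => (if a = 0 then 0 else QQ L M C Y (cf L M C Y i (a - 1)) A) +
      QQ L M C Y (cf L M C Y i a) (tw L M A)

theorem cf_zero' (a : ℕ) : cf L M C Y 0 a A =
    if a = 0 then TT L M C Y (tw L M A) else if a = 1 then TT L M C Y A else 0 := rfl

theorem cf_succ' (n a : ℕ) : cf L M C Y (n + 1) a A =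
    (if a = 0 then 0 else QQ L M C Y (cf L M C Y n (a - 1)) A) +
      QQ L M C Y (cf L M C Y n a) (tw L M A) := rfl

theorem qQ_congr {f g : Finset (Sym2 P3) → PowerSeries ℝ≥0∞} (hA : IsCtx L M A)
    (h : ∀ A', IsCtx L M A' → f A' = g A') : QQ L M C Y f A = QQ L M C Y g A :=
  tS_congr fun S hS => by rw [h _ (isCtx_nextC hA hS.1)]

theorem qQ_zero (A : Finset (Sym2 P3)) : QQ L M C Y (fun _ => 0) A = 0 :=
  tS_eq_zero fun S _ => mul_zero _

theorem qQ_sum (I : Finset ℕ) (f : ℕ → Finset (Sym2 P3) → PowerSeries ℝ≥0∞)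
    (c : ℕ → PowerSeries ℝ≥0∞) : QQ L M C Y (fun A => ∑ a ∈ I, f a A * c a) A =
      ∑ a ∈ I, QQ L M C Y (f a) A * c a := by
  unfold QQ
  have h1 : ∀ S ∈ KnSet L M C, mon (lB S) (wB Y S) * (∑ a ∈ I, f a (nextC A S) * c a) =
      ∑ a ∈ I, mon (lB S) (wB Y S) * f a (nextC A S) * c a := fun S _ => by
    rw [mul_sum]
    exact sum_congr rfl fun a _ => (mul_assoc _ _ _).symm
  rw [tS_congr h1, tS_sum I fun a S => mon (lB S) (wB Y S) * f a (nextC A S) * c a]
  exact sum_congr rfl fun a _ => tS_mul_right _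

theorem cf_eq_zero : ∀ (n a : ℕ) (A : Finset (Sym2 P3)), n + 1 < a → cf L M C Y n a A = 0 := by
  intro n
  induction n with
  | zero =>
    intro a A h
    rw [cf_zero', if_neg (by omega), if_neg (by omega)]
  | succ n ih =>
    intro a A h
    have h1 : cf L M C Y n (a - 1) = fun _ => 0 := funext fun A => ih _ _ (by omega)
    have h2 : cf L M C Y n a = fun _ => 0 := funext fun A => ih _ _ (by omega)
    rw [cf_succ', h1, h2, if_neg (by omega), qQ_zero, qQ_zero, add_zero]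

/-- **The expansion.** -/
theorem ff_expand (hT1 : StretchStatement) (hT2 : CutStatement) (hMid : MiddleStatement)
    (hC : ∀ E F, SameType E F → E ∈ C → F ∈ C) : ∀ (n : ℕ) (A : Finset (Sym2 P3)),
      IsCtx L M A → FF L M C Y n A =
        ∑ a ∈ range (n + 2), cf L M C Y n a A * (uE L M Y ^ a * uO L M Y ^ (n + 1 - a)) := by
  intro n
  induction n with
  | zero =>
    intro A hA
    rw [ff_zero_eq hT1 hT2 hMid hC hA, sum_range_succ, sum_range_one]
    simp only [cf_zero', if_true, if_false, one_ne_zero, pow_zero, pow_one, zero_add, tsub_zero,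
      tsub_self, one_mul, mul_one]
    ring
  | succ n ih =>
    intro A hA
    rw [ff_succ_eq hT1 hT2 hMid hC hA, qQ_congr hA ih, qQ_congr (isCtx_tw hA) ih, qQ_sum, qQ_sum]
    have h1 : ∑ a ∈ range (n + 1 + 2), cf L M C Y (n + 1) a A *
        (uE L M Y ^ a * uO L M Y ^ (n + 1 + 1 - a)) =
        (∑ a ∈ range (n + 1 + 2), (if a = 0 then 0 else QQ L M C Y (cf L M C Y n (a - 1)) A) *
          (uE L M Y ^ a * uO L M Y ^ (n + 1 + 1 - a))) +
        ∑ a ∈ range (n + 1 + 2), QQ L M C Y (cf L M C Y n a) (tw L M A) *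
          (uE L M Y ^ a * uO L M Y ^ (n + 1 + 1 - a)) := by
      rw [← sum_add_distrib]
      exact sum_congr rfl fun a _ => by rw [cf_succ', add_mul]
    rw [h1, sum_range_succ' (fun a => (if a = 0 then 0 else
      QQ L M C Y (cf L M C Y n (a - 1)) A) * (uE L M Y ^ a * uO L M Y ^ (n + 1 + 1 - a))),
      sum_range_succ (fun a => QQ L M C Y (cf L M C Y n a) (tw L M A) *
          (uE L M Y ^ a * uO L M Y ^ (n + 1 + 1 - a)))]
    have h2 : cf L M C Y n (n + 1 + 1) = fun _ => 0 := funext fun A => cf_eq_zero _ _ _ (by omega)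
    rw [h2, qQ_zero, zero_mul, add_zero]
    simp only [if_true, zero_mul, add_zero, Nat.add_eq_zero_iff, one_ne_zero, and_false, if_false,
      add_tsub_cancel_right]
    rw [mul_sum, mul_sum]
    congr 1
    · refine sum_congr rfl fun a ha => ?_
      have h3 : n + 1 + 1 - (a + 1) = n + 1 - a := by omega
      rw [h3]
      ring
    · refine sum_congr rfl fun a ha => ?_
      rw [mem_range] at ha
      obtain ⟨b, hb⟩ : ∃ b, n + 1 - a = b := ⟨_, rfl⟩
      have h3 : n + 1 + 1 - a = b + 1 := by omega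
      rw [h3, hb]
      ring

/-- The bound for the coefficients. -/
noncomputable def KK (L M : ℕ) (C : Set (Finset (Sym2 P3))) (Y : ℝ≥0∞) : ℕ → PowerSeries ℝ≥0∞
  | 0 => sset (TpSet L M C) lB (wB Y)
  | n + 1 => sset (KnSet L M C) lB (wB Y) * KK L M C Y n +
      sset (KnSet L M C) lB (wB Y) * KK L M C Y n

theorem leS_zero (a : PowerSeries ℝ≥0∞) : LeS 0 a := fun n => by
  rw [map_zero]
  exact zero_le

theorem leS_TT (hA : IsCtx L M A) : LeS (TT L M C Y A) (sset (TpSet L M C) lB (wB Y)) := by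
  refine leS_subset ?_ _ _
  rintro B ⟨h1, h2⟩
  exact ⟨h1, Or.inl ⟨A, hA.2, hA.1, h1.1.1, h2⟩⟩

theorem leS_QQ {f : Finset (Sym2 P3) → PowerSeries ℝ≥0∞} {K : PowerSeries ℝ≥0∞}
    (hA : IsCtx L M A) (h : ∀ A', IsCtx L M A' → LeS (f A') K) :
    LeS (QQ L M C Y f A) (sset (KnSet L M C) lB (wB Y) * K) := by
  rw [sset_eq_tS, ← tS_mul_right]
  exact tS_le fun S hS => LeS.mul (LeS.refl _) (h _ (isCtx_nextC hA hS.1))

theorem leS_cf : ∀ (n a : ℕ) (A : Finset (Sym2 P3)), IsCtx L M A →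
    LeS (cf L M C Y n a A) (KK L M C Y n) := by
  intro n
  induction n with
  | zero =>
    intro a A hA
    rw [cf_zero']
    split_ifs
    · exact leS_TT (isCtx_tw hA)
    · exact leS_TT hA
    · exact leS_zero _
  | succ n ih =>
    intro a A hA
    rw [cf_succ']
    refine LeS.add ?_ (leS_QQ (isCtx_tw hA) (ih a))
    split_ifs
    · exact leS_zero _
    · exact leS_QQ hA (ih (a - 1))

theorem kK_lt_top {z : ℝ≥0∞} (ht : evs (sset (TpSet L M C) lB (wB Y)) z < ∞)
    (hk : evs (sset (KnSet L M C) lB (wB Y)) z < ∞) : ∀ n, evs (KK L M C Y n) z < ∞ := by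
  intro n
  induction n with
  | zero => exact ht
  | succ n ih =>
    change evs (sset (KnSet L M C) lB (wB Y) * KK L M C Y n +
      sset (KnSet L M C) lB (wB Y) * KK L M C Y n) z < ∞
    rw [evs_add, evs_mul]
    exact ENNReal.add_lt_top.2 ⟨ENNReal.mul_lt_top hk ih, ENNReal.mul_lt_top hk ih⟩

end Pool.Agent.KTube
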