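import Pool.Agent.KTube.Defs
import Pool.Agent.MP_aea6d5_co.Geo

/-! Combinatorics of `stretch`: membership, sections, number of edges, injectivity. -/

set_option autoImplicit false

namespace Pool.Agent.KTube

open Pool.Agent.LK

variable {E F : Finset (Sym2 P3)} {k j : ℤ} {h : ℕ}

theorem mem_cross {c : ℤ × ℤ} : c ∈ cross E k ↔ s((c.1, c.2, k), (c.1, c.2, k + 1)) ∈ E := Iff.rfl

theorem mem_stretch {u v : P3} : s(u, v) ∈ stretch E k h ↔
    (s(u, v) ∈ E ∧ u.2.2 ≤ k ∧ v.2.2 ≤ k) ∨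
    (s(u - (0, 0, (h : ℤ)), v - (0, 0, (h : ℤ))) ∈ E ∧ k + 1 + h ≤ u.2.2 ∧ k + 1 + h ≤ v.2.2) ∨
    ∃ a b : ℤ, ∃ i : ℕ, i ≤ h ∧ s((a, b, k), (a, b, k + 1)) ∈ E ∧
      s(u, v) = s((a, b, k + i), (a, b, k + i + 1)) := by
  classical
  unfold stretch
  rw [Finset.mem_union, Finset.mem_union, or_assoc]
  refine or_congr ?_ (or_congr ?_ ?_)
  · rw [Finset.mem_filter]
    simp
  · rw [Finset.mem_image]
    constructor
    · rintro ⟨e, he, h2⟩
      induction e using Sym2.ind with
      | _ x y =>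
        rw [Finset.mem_filter] at he
        obtain ⟨he1, he2⟩ := he
        have hx := he2 x (by simp)
        have hy := he2 y (by simp)
        rw [Sym2.map_mk, Sym2.eq_iff] at h2
        rcases h2 with ⟨rfl, rfl⟩ | ⟨rfl, rfl⟩
        · refine ⟨by simpa using he1, ?_, ?_⟩
          · simp only [Prod.snd_add]; omega
          · simp only [Prod.snd_add]; omega
        · refine ⟨?_, ?_, ?_⟩
          · rw [add_sub_cancel_right, add_sub_cancel_right, Sym2.eq_swap]; exact he1
          · simp only [Prod.snd_add]; omega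
          · simp only [Prod.snd_add]; omega
    · rintro ⟨h1, h2, h3⟩
      refine ⟨_, Finset.mem_filter.2 ⟨h1, ?_⟩, by simp⟩
      intro w hw
      rw [Sym2.mem_iff] at hw
      rcases hw with rfl | rfl
      · simp only [Prod.snd_sub]; omega
      · simp only [Prod.snd_sub]; omega
  · simp only [Finset.mem_biUnion, Finset.mem_filter, Finset.mem_image, Finset.mem_range]
    constructor
    · rintro ⟨e, ⟨he, a, b, rfl⟩, i, hi, h2⟩
      refine ⟨a, b, i, by omega, he, ?_⟩
      rw [← h2, Sym2.map_mk]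
      congr 1
      simp only [Prod.mk.injEq, true_and]
      ring_nf
    · rintro ⟨a, b, i, hi, he, h2⟩
      refine ⟨_, ⟨he, a, b, rfl⟩, i, by omega, ?_⟩
      rw [h2, Sym2.map_mk]
      congr 1
      simp only [Prod.mk.injEq, true_and]
      ring_nf

/-- An edge is below the plane, above the plane, or crosses the plane. -/
theorem adj_cases (k : ℤ) {u v : P3} (huv : Adj u v) :
    (u.2.2 ≤ k ∧ v.2.2 ≤ k) ∨ (k + 1 ≤ u.2.2 ∧ k + 1 ≤ v.2.2) ∨
    ∃ a b : ℤ, s(u, v) = s((a, b, k), (a, b, k + 1)) := by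
  obtain ⟨u1, u2, u3⟩ := u
  obtain ⟨v1, v2, v3⟩ := v
  unfold Adj at huv
  simp only at huv ⊢
  have e1 := abs_nonneg (u1 - v1)
  have e2 := abs_nonneg (u2 - v2)
  have e3 := abs_nonneg (u3 - v3)
  rcases le_or_gt u3 k with h1 | h1
  · rcases le_or_gt v3 k with h2 | h2
    · exact Or.inl ⟨h1, h2⟩
    · have e4 := neg_abs_le (u3 - v3)
      have a1 := abs_eq_zero.1 (show |u1 - v1| = 0 by omega)
      have a2 := abs_eq_zero.1 (show |u2 - v2| = 0 by omega)
      refine Or.inr (Or.inr ⟨u1, u2, ?_⟩)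
      have : v1 = u1 := by omega
      have : v2 = u2 := by omega
      have : u3 = k := by omega
      have : v3 = k + 1 := by omega
      subst_vars
      rfl
  · rcases le_or_gt v3 k with h2 | h2
    · have e4 := le_abs_self (u3 - v3)
      have a1 := abs_eq_zero.1 (show |u1 - v1| = 0 by omega)
      have a2 := abs_eq_zero.1 (show |u2 - v2| = 0 by omega)
      refine Or.inr (Or.inr ⟨u1, u2, ?_⟩)
      have : v1 = u1 := by omega
      have : v2 = u2 := by omega
      have : v3 = k := by omega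
      have : u3 = k + 1 := by omega
      subst_vars
      rw [Sym2.eq_swap]
    · exact Or.inr (Or.inl ⟨h1, h2⟩)

theorem cross_stretch_low (hj : j ≤ k) : cross (stretch E k h) j = cross E j := by
  ext ⟨a, b⟩
  simp only [mem_cross]
  rw [mem_stretch]
  constructor
  · rintro (⟨h1, -, -⟩ | ⟨-, h2, -⟩ | ⟨a', b', i, hi, h2, h3⟩)
    · exact h1
    · simp only at h2; omega
    · rw [Sym2.eq_iff] at h3
      simp only [Prod.mk.injEq] at h3
      rcases h3 with ⟨⟨rfl, rfl, h4⟩, -⟩ | ⟨⟨rfl, rfl, h4⟩, -, -, h5⟩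
      · have : j = k := by omega
        rw [this]; exact h2
      · omega
  · intro h1
    rcases eq_or_lt_of_le hj with rfl | hj
    · exact Or.inr (Or.inr ⟨a, b, 0, by omega, h1, by simp⟩)
    · exact Or.inl ⟨h1, by simp only; omega, by simp only; omega⟩

theorem cross_stretch_mid (hj : k ≤ j) (hj' : j ≤ k + h) :
    cross (stretch E k h) j = cross E k := by
  ext ⟨a, b⟩
  simp only [mem_cross]
  rw [mem_stretch]
  constructor
  · rintro (⟨h1, h2, h3⟩ | ⟨-, h2, -⟩ | ⟨a', b', i, hi, h2, h3⟩)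
    · simp only at h3; omega
    · simp only at h2; omega
    · rw [Sym2.eq_iff] at h3
      simp only [Prod.mk.injEq] at h3
      rcases h3 with ⟨⟨rfl, rfl, h4⟩, -⟩ | ⟨⟨rfl, rfl, h4⟩, -, -, h5⟩
      · exact h2
      · omega
  · intro h1
    refine Or.inr (Or.inr ⟨a, b, (j - k).toNat, by omega, h1, ?_⟩)
    have : k + ((j - k).toNat : ℤ) = j := by omega
    rw [this]

theorem cross_stretch_high (hj : k + h ≤ j) :
    cross (stretch E k h) j = cross E (j - h) := by
  ext ⟨a, b⟩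
  simp only [mem_cross]
  rw [mem_stretch]
  have e1 : (((a, b, j) : P3) - (0, 0, (h : ℤ))) = (a, b, j - h) := by simp
  have e2 : (((a, b, j + 1) : P3) - (0, 0, (h : ℤ))) = (a, b, j - h + 1) := by
    simp only [Prod.mk_sub_mk, sub_zero, Prod.mk.injEq, true_and]; omega
  rw [e1, e2]
  constructor
  · rintro (⟨h1, h2, h3⟩ | ⟨h1, -, -⟩ | ⟨a', b', i, hi, h2, h3⟩)
    · simp only at h3; omega
    · exact h1
    · rw [Sym2.eq_iff] at h3
      simp only [Prod.mk.injEq] at h3
      rcases h3 with ⟨⟨rfl, rfl, h4⟩, -⟩ | ⟨⟨rfl, rfl, h4⟩, -, -, h5⟩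
      · have : j - h = k := by omega
        rw [this]; exact h2
      · omega
  · intro h1
    rcases eq_or_lt_of_le hj with hj1 | hj1
    · refine Or.inr (Or.inr ⟨a, b, h, le_rfl, ?_, ?_⟩)
      · have : j - h = k := by omega
        rwa [this] at h1
      · rw [hj1]
    · exact Or.inr (Or.inl ⟨h1, by simp only; omega, by simp only; omega⟩)

theorem verts_stretch {u : P3} (hu : u ∈ verts (stretch E k h)) :
    (u ∈ verts E ∧ u.2.2 ≤ k) ∨ (u - (0, 0, (h : ℤ)) ∈ verts E ∧ k + 1 + h ≤ u.2.2) ∨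
    ((u.1, u.2.1) ∈ cross E k ∧ k ≤ u.2.2 ∧ u.2.2 ≤ k + 1 + h) := by
  obtain ⟨v, hv⟩ := hu
  rw [mem_stretch] at hv
  rcases hv with ⟨h1, h2, h3⟩ | ⟨h1, h2, h3⟩ | ⟨a, b, i, hi, h2, h3⟩
  · exact Or.inl ⟨⟨v, h1⟩, h2⟩
  · exact Or.inr (Or.inl ⟨⟨_, h1⟩, h2⟩)
  · rw [Sym2.eq_iff] at h3
    rcases h3 with ⟨rfl, rfl⟩ | ⟨rfl, rfl⟩
    · exact Or.inr (Or.inr ⟨h2, by simp only; omega, by simp only; omega⟩)
    · exact Or.inr (Or.inr ⟨h2, by simp only; omega, by simp only; omega⟩)

theorem inTube_stretch {L M : ℕ} (hT : InTube L M E) :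
    InTube L M (stretch E k h) := by
  intro u hu
  rcases verts_stretch hu with ⟨h1, -⟩ | ⟨h1, -⟩ | ⟨h1, -, -⟩
  · exact hT u h1
  · have := hT _ h1
    simpa using this
  · exact hT (u.1, u.2.1, k) (left_mem_verts (mem_cross.1 h1))

theorem grounded_stretch (hE : ∀ u v, s(u, v) ∈ E → Adj u v) (hG : Grounded E)
    (hk : (cross E k).Nonempty) : Grounded (stretch E k h) := by
  obtain ⟨⟨a, b⟩, hab⟩ := hk
  have hk0 : 0 ≤ k := hG.1 _ (left_mem_verts hab)
  refine ⟨?_, ?_⟩
  · intro u hu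
    rcases verts_stretch hu with ⟨h1, -⟩ | ⟨h1, h2⟩ | ⟨h1, h2, -⟩
    · exact hG.1 u h1
    · omega
    · omega
  · obtain ⟨u, ⟨v, huv⟩, hu0⟩ := hG.2
    rcases adj_cases k (hE u v huv) with ⟨h1, h2⟩ | ⟨h1, -⟩ | ⟨a', b', h1⟩
    · exact ⟨u, ⟨v, mem_stretch.2 (Or.inl ⟨huv, h1, h2⟩)⟩, hu0⟩
    · omega
    · rw [h1] at huv
      have h2 : s((a', b', k), (a', b', k + 1)) ∈ stretch E k h :=
        mem_stretch.2 (Or.inr (Or.inr ⟨a', b', 0, by omega, huv, by simp⟩))
      rw [Sym2.eq_iff] at h1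
      rcases h1 with ⟨rfl, rfl⟩ | ⟨rfl, rfl⟩
      · exact ⟨_, left_mem_verts h2, hu0⟩
      · simp only at hu0; omega

theorem stretch_injective (hE : ∀ u v, s(u, v) ∈ E → Adj u v)
    (hF : ∀ u v, s(u, v) ∈ F → Adj u v) (heq : stretch E k h = stretch F k h) : E = F := by
  have key : ∀ {E F : Finset (Sym2 P3)}, (∀ u v, s(u, v) ∈ E → Adj u v) →
      stretch E k h = stretch F k h → ∀ u v, s(u, v) ∈ E → s(u, v) ∈ F := by
    intro E F hE heq u v huv
    rcases adj_cases k (hE u v huv) with ⟨h1, h2⟩ | ⟨h1, h2⟩ | ⟨a', b', h1⟩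
    · have h3 : s(u, v) ∈ stretch F k h := by
        rw [← heq]; exact mem_stretch.2 (Or.inl ⟨huv, h1, h2⟩)
      rcases mem_stretch.1 h3 with ⟨h4, -, -⟩ | ⟨-, h4, -⟩ | ⟨a, b, i, hi, -, h4⟩
      · exact h4
      · omega
      · rw [Sym2.eq_iff] at h4
        rcases h4 with ⟨rfl, rfl⟩ | ⟨rfl, rfl⟩ <;> simp only at h1 h2 <;> omega
    · have h3 : s(u + (0, 0, (h : ℤ)), v + (0, 0, (h : ℤ))) ∈ stretch F k h := by
        rw [← heq]
        refine mem_stretch.2 (Or.inr (Or.inl ⟨by simpa using huv, ?_, ?_⟩))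
        · simp only [Prod.snd_add]; omega
        · simp only [Prod.snd_add]; omega
      rcases mem_stretch.1 h3 with ⟨-, h4, -⟩ | ⟨h4, -, -⟩ | ⟨a, b, i, hi, -, h4⟩
      · simp only [Prod.snd_add] at h4; omega
      · simpa using h4
      · rw [Sym2.eq_iff] at h4
        rcases h4 with ⟨h5, h6⟩ | ⟨h5, h6⟩
        · have := congrArg (fun p : P3 => p.2.2) h5
          simp only [Prod.snd_add] at this; omega
        · have := congrArg (fun p : P3 => p.2.2) h6
          simp only [Prod.snd_add] at this; omega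
    · rw [h1] at huv ⊢
      have h3 : s((a', b', k), (a', b', k + 1)) ∈ stretch F k h := by
        rw [← heq]
        exact mem_stretch.2 (Or.inr (Or.inr ⟨a', b', 0, by omega, huv, by simp⟩))
      rcases mem_stretch.1 h3 with ⟨-, -, h4⟩ | ⟨-, h4, -⟩ | ⟨a, b, i, hi, h5, h4⟩
      · simp only at h4; omega
      · simp only at h4; omega
      · rw [Sym2.eq_iff] at h4
        simp only [Prod.mk.injEq] at h4
        rcases h4 with ⟨⟨rfl, rfl, h6⟩, -⟩ | ⟨⟨rfl, rfl, h6⟩, -, -, h7⟩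
        · exact h5
        · omega
  exact edge_ext fun u v => ⟨key hE heq u v, key hF heq.symm u v⟩

theorem cross_finite (E : Finset (Sym2 P3)) (k : ℤ) : (cross E k).Finite := by
  refine Set.Finite.of_injOn (f := fun c : ℤ × ℤ => s(((c.1, c.2, k) : P3), (c.1, c.2, k + 1)))
    (t := (E : Set (Sym2 P3))) (fun c hc => hc) ?_ E.finite_toSet
  rintro ⟨a, b⟩ - ⟨a', b'⟩ - h
  simp only [Sym2.eq_iff, Prod.mk.injEq] at h
  rcases h with ⟨⟨rfl, rfl, -⟩, -⟩ | ⟨⟨rfl, rfl, h6⟩, -, -, h7⟩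
  · rfl
  · omega

theorem card_stretch_le (E : Finset (Sym2 P3)) (k : ℤ) (h : ℕ) :
    (stretch E k h).card ≤ E.card + h * (cross E k).ncard := by
  classical
  set B := E.filter fun e => ∀ u ∈ e, u.2.2 ≤ k with hB
  set A := E.filter fun e => ∀ u ∈ e, k + 1 ≤ u.2.2 with hA
  set X := E.filter fun e => ∃ a b : ℤ, e = s((a, b, k), (a, b, k + 1)) with hX
  have hXc : X.card = (cross E k).ncard := by
    rw [← Set.ncard_coe_finset X]
    refine (Set.ncard_congr (fun c _ => s(((c.1, c.2, k) : P3), (c.1, c.2, k + 1))) ?_ ?_ ?_).symm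
    · rintro ⟨a, b⟩ hc
      rw [Finset.mem_coe, hX, Finset.mem_filter]
      exact ⟨hc, a, b, rfl⟩
    · rintro ⟨a, b⟩ ⟨a', b'⟩ - - h
      simp only [Sym2.eq_iff, Prod.mk.injEq] at h
      rcases h with ⟨⟨rfl, rfl, -⟩, -⟩ | ⟨⟨rfl, rfl, h6⟩, -, -, h7⟩
      · rfl
      · omega
    · intro e he
      rw [Finset.mem_coe, hX, Finset.mem_filter] at he
      obtain ⟨he, a, b, rfl⟩ := he
      exact ⟨(a, b), he, rfl⟩
  have hdis : B.card + A.card + X.card ≤ E.card := by
    have d1 : Disjoint B A := by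
      rw [Finset.disjoint_left]
      intro e h1 h2
      rw [hB, Finset.mem_filter] at h1
      rw [hA, Finset.mem_filter] at h2
      induction e using Sym2.ind with
      | _ x y =>
        have a1 := h1.2 x (by simp)
        have a2 := h2.2 x (by simp)
        omega
    have d2 : Disjoint (B ∪ A) X := by
      rw [Finset.disjoint_left]
      intro e h1 h2
      rw [hX, Finset.mem_filter] at h2
      obtain ⟨-, a, b, rfl⟩ := h2
      rw [Finset.mem_union, hB, hA, Finset.mem_filter, Finset.mem_filter] at h1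
      rcases h1 with ⟨-, h1⟩ | ⟨-, h1⟩
      · have := h1 (a, b, k + 1) (by simp)
        simp only at this; omega
      · have := h1 (a, b, k) (by simp)
        simp only at this; omega
    rw [← Finset.card_union_of_disjoint d1, ← Finset.card_union_of_disjoint d2]
    refine Finset.card_le_card ?_
    intro e he
    rw [Finset.mem_union, Finset.mem_union, hB, hA, hX, Finset.mem_filter, Finset.mem_filter,
      Finset.mem_filter] at he
    tauto
  have hle : (stretch E k h).card ≤ B.card + A.card + X.card * (h + 1) := by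
    unfold stretch
    refine (Finset.card_union_le _ _).trans (add_le_add ((Finset.card_union_le _ _).trans
      (add_le_add le_rfl Finset.card_image_le)) ?_)
    refine Finset.card_biUnion_le_card_mul _ _ _ fun e _ => ?_
    refine Finset.card_image_le.trans ?_
    rw [Finset.card_range]
  rw [← hXc]
  nlinarith

end Pool.Agent.KTube
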