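import Pool.Agent.KTube.Local
import Pool.Agent.KTube.Boot

/-! Parts of polygons of a class, and the number of knotted parts. -/

set_option autoImplicit false

open scoped ENNReal

namespace Pool.Agent.KTube

open Pool.Agent.LK

variable {E A B X : Finset (Sym2 P3)} {k i j : ℤ} {L M : ℕ} {C : Set (Finset (Sym2 P3))}

/-! ### Parts -/

/-- The lower parts of the polygons of the class. -/
def SubL (L M : ℕ) (C : Set (Finset (Sym2 P3))) : Set (Finset (Sym2 P3)) :=
  {X | ∃ (R : Finset (Sym2 P3)) (k : ℤ), InTube L M R ∧ IsLow X k ∧ IsUpp R k ∧ glue X R k ∈ C}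

/-- The upper parts of the polygons of the class. -/
def SubU (L M : ℕ) (C : Set (Finset (Sym2 P3))) : Set (Finset (Sym2 P3)) :=
  {X | ∃ A : Finset (Sym2 P3), InTube L M A ∧ IsLow A 0 ∧ IsUpp X 0 ∧ glue A X 0 ∈ C}

/-- The middle parts of the polygons of the class. -/
def SubM (L M : ℕ) (C : Set (Finset (Sym2 P3))) : Set (Finset (Sym2 P3)) :=
  {X | ∃ (A R : Finset (Sym2 P3)) (k : ℤ), 0 ≤ k ∧ InTube L M A ∧ InTube L M R ∧ IsLow A 0 ∧
    IsUpp X 0 ∧ IsLow X k ∧ IsUpp R k ∧ glue A (glue X R k) 0 ∈ C}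

/-! ### Detours in parts -/

/-- Detours at the planes of a finite set. -/
noncomputable def phi (L M : ℕ) (E : Finset (Sym2 P3)) (A : Finset ℤ) : Finset (Sym2 P3) :=
  multi L M E (A.sort (· ≤ ·))

theorem sort_pairwise (A : Finset ℤ) : (A.sort (· ≤ ·)).Pairwise (· < ·) :=
  A.sortedLT_sort.pairwise

theorem phi_facts (hS : StretchStatement) (hL : 1 ≤ L) (hE : IsPolygon E) (hT : InTube L M E)
    {A : Finset ℤ} (hA : ∀ k ∈ A, IsTwo E k ∧ ¬ IsV0 E k) :
    IsPolygon (phi L M E A) ∧ InTube L M (phi L M E A) ∧ (Grounded E → Grounded (phi L M E A)) ∧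
      SameType E (phi L M E A) ∧ (phi L M E A).card ≤ E.card + 6 * hgt L M * A.card ∧
      span E ≤ span (phi L M E A) := by
  have h := multi_facts hS hL hE hT _ (sort_pairwise A) fun k hk => hA k ((Finset.mem_sort _).1 hk)
  refine ⟨h.poly, h.tube, h.ground, h.type, ?_, h.span⟩
  have := h.card
  rwa [Finset.length_sort] at this

theorem phi_inj (hS : StretchStatement) (hL : 1 ≤ L) {E' : Finset (Sym2 P3)}
    {A A' : Finset ℤ} (hE : Good L M E) (hA : ∀ k ∈ A, IsTwo E k ∧ ¬ IsV0 E k)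
    (hE' : Good L M E') (hA' : ∀ k ∈ A', IsTwo E' k ∧ ¬ IsV0 E' k)
    (heq : phi L M E A = phi L M E' A') : E = E' ∧ A = A' := by
  obtain ⟨h1, h2⟩ := multi_inj hS hL _ _ E E' hE hE' (sort_pairwise A) (sort_pairwise A')
    (fun k hk => hA k ((Finset.mem_sort _).1 hk)) (fun k hk => hA' k ((Finset.mem_sort _).1 hk))
    heq
  refine ⟨h1, ?_⟩
  have h3 := congrArg List.toFinset h2
  rwa [Finset.sort_toFinset, Finset.sort_toFinset] at h3

theorem phi_class (hC : ∀ E F, SameType E F → E ∈ C → F ∈ C) (hS : StretchStatement)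
    (hL : 1 ≤ L) (hE : IsPolygon E) (hT : InTube L M E) {A : Finset ℤ}
    (hA : ∀ k ∈ A, IsTwo E k ∧ ¬ IsV0 E k) (h : E ∈ C) : phi L M E A ∈ C :=
  hC _ _ (phi_facts hS hL hE hT hA).2.2.2.1 h

theorem lt_of_two_low (hX : IsLow X k) (hi : IsTwo X i ∧ ¬ IsV0 X i) : i < k := by
  rcases lt_trichotomy i k with h | h | h
  · exact h
  · subst h
    exact absurd hX.2.1 hi.2
  · have := two_nonempty hi.1
    rw [hX.cross_empty h] at this
    exact absurd this Set.not_nonempty_empty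

theorem gt_of_two_upp (hX : IsUpp X k) (hi : IsTwo X i ∧ ¬ IsV0 X i) : k < i := by
  rcases lt_trichotomy i k with h | h | h
  · have := two_nonempty hi.1
    rw [hX.cross_empty h] at this
    exact absurd this Set.not_nonempty_empty
  · subst h
    exact absurd hX.2.1 hi.2
  · exact h

theorem isUpp_shift_add {t : ℤ} (h : IsUpp B k) : IsUpp (shift (0, 0, t) B) (k + t) := by
  rw [isUpp_shift, add_sub_cancel_right]
  exact h

theorem isLow_shift_add {t : ℤ} (h : IsLow B k) : IsLow (shift (0, 0, t) B) (k + t) := by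
  rw [isLow_shift, add_sub_cancel_right]
  exact h

theorem phi_subL (hC : ∀ E F, SameType E F → E ∈ C → F ∈ C) (hS : StretchStatement)
    (hL : 1 ≤ L) (hT : InTube L M X) {P : Finset ℤ}
    (hP : ∀ k ∈ P, IsTwo X k ∧ ¬ IsV0 X k) (h : X ∈ SubL L M C) : phi L M X P ∈ SubL L M C := by
  obtain ⟨R, k, hR, hX, hU, hg⟩ := h
  have hP' : ∀ i ∈ P.sort (· ≤ ·), IsTwo X i ∧ ¬ IsV0 X i :=
    fun i hi => hP i ((Finset.mem_sort _).1 hi)
  have hlt : ∀ i ∈ P.sort (· ≤ ·), i < k := fun i hi => lt_of_two_low hX (hP' i hi)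
  obtain ⟨h1, h2⟩ := multi_glue_low hS hL hX hU hT _ (sort_pairwise P) hlt hP'
  have hg2 : ∀ i ∈ P.sort (· ≤ ·), IsTwo (glue X R k) i ∧ ¬ IsV0 (glue X R k) i := by
    intro i hi
    unfold IsTwo IsV0
    rw [cross_glue_low hX hU (hlt i hi).le]
    exact hP' i hi
  have h3 := multi_facts hS hL (isPolygon_glue hX hU) ((inTube_glue hX hU).2 ⟨hT, hR⟩) _
    (sort_pairwise P) hg2
  refine ⟨_, _, (inTube_shift _).2 hR, h2, isUpp_shift_add hU, ?_⟩
  have h7 : phi L M X P = multi L M X (P.sort (· ≤ ·)) := rfl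
  rw [h7, ← h1]
  exact hC _ _ h3.type hg

theorem phi_subU (hC : ∀ E F, SameType E F → E ∈ C → F ∈ C) (hS : StretchStatement)
    (hL : 1 ≤ L) (hT : InTube L M X) {P : Finset ℤ}
    (hP : ∀ k ∈ P, IsTwo X k ∧ ¬ IsV0 X k) (h : X ∈ SubU L M C) : phi L M X P ∈ SubU L M C := by
  obtain ⟨A, hTA, hA, hX, hg⟩ := h
  have hP' : ∀ i ∈ P.sort (· ≤ ·), IsTwo X i ∧ ¬ IsV0 X i :=
    fun i hi => hP i ((Finset.mem_sort _).1 hi)
  have hlt : ∀ i ∈ P.sort (· ≤ ·), 0 < i := fun i hi => gt_of_two_upp hX (hP' i hi)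
  obtain ⟨h1, h2⟩ := multi_glue_upp hS hL hA hX hT _ (sort_pairwise P) hlt hP'
  have hg2 : ∀ i ∈ P.sort (· ≤ ·), IsTwo (glue A X 0) i ∧ ¬ IsV0 (glue A X 0) i := by
    intro i hi
    unfold IsTwo IsV0
    rw [cross_glue_upp hA hX (hlt i hi).le]
    exact hP' i hi
  have h3 := multi_facts hS hL (isPolygon_glue hA hX) ((inTube_glue hA hX).2 ⟨hTA, hT⟩) _
    (sort_pairwise P) hg2
  refine ⟨A, hTA, hA, h2, ?_⟩
  have h4 : glue A (phi L M X P) 0 = multi L M (glue A X 0) (P.sort (· ≤ ·)) := h1.symm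
  rw [h4]
  exact hC _ _ h3.type hg

theorem phi_subM (hC : ∀ E F, SameType E F → E ∈ C → F ∈ C) (hS : StretchStatement)
    (hL : 1 ≤ L) (hT : InTube L M X) {P : Finset ℤ}
    (hP : ∀ k ∈ P, IsTwo X k ∧ ¬ IsV0 X k) (h : X ∈ SubM L M C) : phi L M X P ∈ SubM L M C := by
  obtain ⟨A, R, k, hk, hTA, hR, hA, hX, hX', hU, hg⟩ := h
  have hP' : ∀ i ∈ P.sort (· ≤ ·), IsTwo X i ∧ ¬ IsV0 X i :=
    fun i hi => hP i ((Finset.mem_sort _).1 hi)
  have hlt : ∀ i ∈ P.sort (· ≤ ·), i < k := fun i hi => lt_of_two_low hX' (hP' i hi)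
  have hgt' : ∀ i ∈ P.sort (· ≤ ·), 0 < i := fun i hi => gt_of_two_upp hX (hP' i hi)
  obtain ⟨h1, h2⟩ := multi_glue_low hS hL hX' hU hT _ (sort_pairwise P) hlt hP'
  have hg2 : ∀ i ∈ P.sort (· ≤ ·), IsTwo (glue X R k) i ∧ ¬ IsV0 (glue X R k) i := by
    intro i hi
    unfold IsTwo IsV0
    rw [cross_glue_low hX' hU (hlt i hi).le]
    exact hP' i hi
  have hXR : IsUpp (glue X R k) 0 := by
    rcases eq_or_lt_of_le hk with h0 | h0
    · subst h0
      refine ⟨isPolygon_glue hX' hU, isV0_glue hX' hU, (mem_glue_low hX' hU le_rfl).2 hX.2.2.1, ?_⟩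
      intro u hu
      rcases (mem_verts_glue hX' hU).1 hu with h | h
      · exact hX.2.2.2 u h
      · exact hU.2.2.2 u h
    · exact (isUpp_glue hX' hU h0).2 hX
  have hTXR : InTube L M (glue X R k) := (inTube_glue hX' hU).2 ⟨hT, hR⟩
  obtain ⟨h3, h4⟩ := multi_glue_upp hS hL hA hXR hTXR _ (sort_pairwise P) hgt' hg2
  have hg3 : ∀ i ∈ P.sort (· ≤ ·), IsTwo (glue A (glue X R k) 0) i ∧
      ¬ IsV0 (glue A (glue X R k) 0) i := by
    intro i hi
    unfold IsTwo IsV0
    rw [cross_glue_upp hA hXR (hgt' i hi).le]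
    exact hg2 i hi
  have h5 := multi_facts hS hL (isPolygon_glue hA hXR) ((inTube_glue hA hXR).2 ⟨hTA, hTXR⟩) _
    (sort_pairwise P) hg3
  have hXp : IsUpp (phi L M X P) 0 :=
    (multi_glue_upp (k := 0) hS hL isLow_sq hX hT _ (sort_pairwise P) hgt' hP').2
  refine ⟨A, _, _, ?_, hTA, (inTube_shift _).2 hR, hA, hXp, h2, isUpp_shift_add hU, ?_⟩
  · have : (0 : ℤ) ≤ (P.sort (· ≤ ·)).length * (2 * hgt L M) := by positivity
    omega
  · have h7 : phi L M X P = multi L M X (P.sort (· ≤ ·)) := rfl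
    rw [h7, ← h1, ← h3]
    exact hC _ _ h5.type hg

/-! ### Cutting parts -/

theorem isUpp_glue_of_le {R : Finset (Sym2 P3)} (hX : IsUpp X i) (hX' : IsLow X k)
    (hR : IsUpp R k) (hik : i ≤ k) : IsUpp (glue X R k) i := by
  rcases eq_or_lt_of_le hik with h0 | h0
  · subst h0
    refine ⟨isPolygon_glue hX' hR, isV0_glue hX' hR, (mem_glue_low hX' hR le_rfl).2 hX.2.2.1, ?_⟩
    intro u hu
    rcases (mem_verts_glue hX' hR).1 hu with h | h
    · exact hX.2.2.2 u h
    · exact hR.2.2.2 u h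
  · exact (isUpp_glue hX' hR h0).2 hX

theorem isLow_glue_of_le {S : Finset (Sym2 P3)} (hA : IsLow A i) (hS : IsUpp S i)
    (hS' : IsLow S k) (hik : i ≤ k) : IsLow (glue A S i) k := by
  rcases eq_or_lt_of_le hik with h0 | h0
  · subst h0
    refine ⟨isPolygon_glue hA hS, isV0_glue hA hS, ?_, ?_⟩
    · exact (mem_glue_upp hA hS (by simp only; omega)).2 hS'.2.2.1
    · intro u hu
      rcases (mem_verts_glue hA hS).1 hu with h | h
      · exact hA.2.2.2 u h
      · exact hS'.2.2.2 u h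
  · exact (isLow_glue hA hS h0).2 hS'

/-- The unit square over the reference columns at the level `k`. -/
theorem eq_sq_of_low_upp (h : IsLow X k) (h' : IsUpp X k) :
    X = {cap (k + 1), leg1 k, cap k, leg0 k} := by
  refine edge_ext fun u v => ?_
  simp only [Finset.mem_insert, Finset.mem_singleton]
  constructor
  · intro huv
    rcases h.cases huv with ⟨h1, h2⟩ | h1 | h1 | h1
    · rcases h'.cases huv with h3 | h3 | h3 | h3
      · omega
      · tauto
      · tauto
      · tauto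
    · tauto
    · tauto
    · tauto
  · rintro (h1 | h1 | h1 | h1) <;> rw [h1]
    · exact h.2.2.1
    · exact h.2.1.leg1_mem
    · exact h'.2.2.1
    · exact h.2.1.leg0_mem

theorem unknotted_of_low_upp (h : IsLow X k) (h' : IsUpp X k) : Unknotted X := by
  have h1 := isLow_shift_add (t := k) isLow_sq
  have h2 := isUpp_shift_add (t := k) isUpp_sq
  rw [zero_add] at h1 h2
  have h3 : X = shift (0, 0, k) sq := by
    rw [eq_sq_of_low_upp h h', eq_sq_of_low_upp h1 h2]
  rw [h3]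
  exact (sameType_shift _ _).symm.unknotted unknotted_sq

/-- The composition with the unit square. -/
theorem glue_sq (h : IsLow A k) : glue A (shift (0, 0, k) sq) k = A := by
  have h1 := isLow_shift_add (t := k) isLow_sq
  have h2 := isUpp_shift_add (t := k) isUpp_sq
  rw [zero_add] at h1 h2
  rw [eq_sq_of_low_upp h1 h2]
  ext e
  rw [mem_glue']
  simp only [Finset.mem_insert, Finset.mem_singleton]
  constructor
  · rintro (h3 | ⟨h3 | h3 | h3 | h3, h4⟩)
    · exact h3.1
    · rw [h3]; exact h.2.2.1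
    · rw [h3]; exact h.2.1.leg1_mem
    · exact absurd h3 h4
    · rw [h3]; exact h.2.1.leg0_mem
  · intro h3
    by_cases h4 : e = cap (k + 1)
    · refine Or.inr ⟨Or.inl h4, ?_⟩
      rw [h4]
      intro h5
      have := cap_injective h5
      omega
    · exact Or.inl ⟨h3, h4⟩

theorem sq_glue (h : IsUpp B k) : glue (shift (0, 0, k) sq) B k = B := by
  have h1 := isLow_shift_add (t := k) isLow_sq
  have h2 := isUpp_shift_add (t := k) isUpp_sq
  rw [zero_add] at h1 h2
  rw [eq_sq_of_low_upp h1 h2]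
  ext e
  rw [mem_glue']
  simp only [Finset.mem_insert, Finset.mem_singleton]
  constructor
  · rintro (⟨h3 | h3 | h3 | h3, h4⟩ | h3)
    · exact absurd h3 h4
    · rw [h3]; exact h.2.1.leg1_mem
    · rw [h3]; exact h.2.2.1
    · rw [h3]; exact h.2.1.leg0_mem
    · exact h3.1
  · intro h3
    by_cases h4 : e = cap k
    · refine Or.inl ⟨Or.inr (Or.inr (Or.inl h4)), ?_⟩
      rw [h4]
      intro h5
      have := cap_injective h5
      omega
    · exact Or.inr ⟨h3, h4⟩

/-- The parts of a part: below. -/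
theorem low_subL_of_C (hX : IsLow X k) (hB : IsUpp B k) (hT : InTube L M B)
    (h : glue X B k ∈ C) : X ∈ SubL L M C := ⟨B, k, hT, hX, hB, h⟩

theorem low_subL_of_subL (hX : IsLow X k) (hB : IsUpp B k) (hT : InTube L M B)
    (h : glue X B k ∈ SubL L M C) : X ∈ SubL L M C := by
  obtain ⟨R, j, hR, hlow, hupp, hg⟩ := h
  have hkj : k ≤ j := by
    by_contra hlt
    rw [not_le] at hlt
    have h1 := (isV0_glue hX hB).nonempty
    rw [hlow.cross_empty hlt] at h1
    exact Set.not_nonempty_empty h1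
  have hBj : IsLow B j := by
    rcases eq_or_lt_of_le hkj with h0 | h0
    · subst h0
      refine ⟨hB.1, hB.2.1, (mem_glue_upp hX hB (by simp only; omega)).1 hlow.2.2.1, ?_⟩
      exact fun u hu => hlow.2.2.2 u (verts_glue_of_upp hX hB hu)
    · exact (isLow_glue hX hB h0).1 hlow
  refine ⟨glue B R j, k, (inTube_glue hBj hupp).2 ⟨hT, hR⟩, hX,
    isUpp_glue_of_le hB hBj hupp hkj, ?_⟩
  rw [glue_assoc hX hB hBj hupp hkj]
  exact hg

/-- The upper part of a polygon of the class. -/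
theorem upp_subU_of_C (hX : IsLow X k) (hB : IsUpp (shift (0, 0, k) B) k) (hT : InTube L M X)
    (h : glue X (shift (0, 0, k) B) k ∈ C)
    (hC : ∀ E F, SameType E F → E ∈ C → F ∈ C) : B ∈ SubU L M C := by
  have hB0 : IsUpp B 0 := by
    rw [isUpp_shift, sub_self] at hB
    exact hB
  refine ⟨shift (0, 0, -k) X, (inTube_shift _).2 hT, ?_, hB0, ?_⟩
  · have := isLow_shift_add (t := -k) hX
    rwa [add_neg_cancel] at this
  · refine hC _ _ (sameType_shift (0, 0, -k) _) h |> fun h1 => ?_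
    rw [shift_glue, shift_shift] at h1
    have e1 : (((0, 0, -k) : P3) + (0, 0, k)) = 0 := by simp
    rw [e1, shift_zero, add_neg_cancel] at h1
    exact h1

/-- The upper part of a lower part. -/
theorem upp_subM_of_subL (hX : IsLow X k) (hB : IsUpp (shift (0, 0, k) B) k) (hT : InTube L M X)
    (h : glue X (shift (0, 0, k) B) k ∈ SubL L M C)
    (hC : ∀ E F, SameType E F → E ∈ C → F ∈ C) : B ∈ SubM L M C := by
  obtain ⟨R, j, hR, hlow, hupp, hg⟩ := h
  have hkj : k ≤ j := by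
    by_contra hlt
    rw [not_le] at hlt
    have h1 := (isV0_glue hX hB).nonempty
    rw [hlow.cross_empty hlt] at h1
    exact Set.not_nonempty_empty h1
  have hBj : IsLow (shift (0, 0, k) B) j := by
    rcases eq_or_lt_of_le hkj with h0 | h0
    · subst h0
      refine ⟨hB.1, hB.2.1, (mem_glue_upp hX hB (by simp only; omega)).1 hlow.2.2.1, ?_⟩
      exact fun u hu => hlow.2.2.2 u (verts_glue_of_upp hX hB hu)
    · exact (isLow_glue hX hB h0).1 hlow
  have hB0 : IsUpp B 0 := by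
    rw [isUpp_shift, sub_self] at hB
    exact hB
  have hBj0 : IsLow B (j - k) := by
    rwa [isLow_shift] at hBj
  refine ⟨shift (0, 0, -k) X, shift (0, 0, -k) R, j - k, by omega, (inTube_shift _).2 hT,
    (inTube_shift _).2 hR, ?_, hB0, hBj0, ?_, ?_⟩
  · have := isLow_shift_add (t := -k) hX
    rwa [add_neg_cancel] at this
  · exact isUpp_shift_add (t := -k) hupp
  · have h1 := hC _ _ (sameType_shift (0, 0, -k) _) hg
    rw [← glue_assoc hX hB hBj hupp hkj, shift_glue, shift_glue, shift_shift] at h1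
    have e1 : (((0, 0, -k) : P3) + (0, 0, k)) = 0 := by simp
    rw [e1, shift_zero, add_neg_cancel] at h1
    exact h1

end Pool.Agent.KTube
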