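import Pool.Agent.KTube.FinalG
import Pool.Agent.KTube.EndCaps
import Pool.Agent.KTube.Middle
import Pool.Agent.KTube.Slide
import Pool.Agent.KTube.GapMod
import Pool.Agent.KTube.GType
import Pool.Agent.KTube.CutV0
import Pool.Agent.KTube.Stretch

/-! The asymptotic form in tubes for every knot type. -/

set_option autoImplicit false

open scoped ENNReal

namespace Pool.Agent.KTube

open Pool.Agent.LK Polynomial

variable {L M : ℕ} {y : ℝ}

/-- The numbers of knotted parts of the polygons of the type of `K` in the tube. -/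
def partNums (L M : ℕ) (K : Finset (Sym2 P3)) : Set ℕ :=
  {n | ∃ E, KClass K E ∧ InTube L M E ∧ KLen n E}

theorem middleStatement' : MiddleStatement := middleStatement slideStatement turnStatement

theorem comp_bot_upp {A B : Finset (Sym2 P3)} (hA : A ∈ BotSet L M) (hB : B ∈ UppSet L M) :
    IsPolygon (comp (A, B)) ∧ InTube L M (comp (A, B)) := by
  obtain ⟨⟨-, hT, -⟩, -, k, -, hk, -⟩ := hA
  have hB' := isUpp_shift_self hB.1 k
  rw [comp_eq hk]
  exact ⟨isPolygon_glue hk hB', (inTube_glue hk hB').2 ⟨hT, (inTube_shift _).2 hB.2⟩⟩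

theorem klen_comp_bot {A B : Finset (Sym2 P3)} {n : ℕ} (hA : A ∈ BotSet L M)
    (h : MK L M n B) : KLen n (comp (A, B)) := by
  obtain ⟨-, -, k, -, hk, -⟩ := hA
  exact klen_comp_upp stretchStatement hk (h.upp cutStatement).1
    ((h.klen stretchStatement cutStatement).shift k)

theorem sq_bot (hL : 1 ≤ L) : sq ∈ BotSet L M := by
  refine ⟨⟨isPolygon_sq, inTube_sq hL, isUpp_sq.grounded⟩, trivial, 0, by omega, isLow_sq, ?_⟩
  intro i _ hi
  exact isV0_sq.1 hi

/-- A type in the tube with `N` knotted parts is the type of a composition with at least `N`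
knotted middle pieces. -/
theorem exists_mk (hL : 1 ≤ L) {K E : Finset (Sym2 P3)} {N : ℕ} (hK : KClass K E)
    (hT : InTube L M E) (h : KLen N E) : ∃ (n : ℕ) (A B : Finset (Sym2 P3)), N ≤ n ∧
      A ∈ BotSet L M ∧ MK L M n B ∧ comp (A, B) ∈ KS K := by
  rcases Nat.eq_zero_or_pos N with h0 | h0
  · subst h0
    obtain ⟨A, m, h1, h2, h3, h4, h5⟩ := capStatement stretchStatement cutStatement
      (typeStatement stretchStatement) L M E hL hK.1 hT
    obtain ⟨n, hn⟩ := exists_MK (L := L) (M := M) cutStatement (lB A) A le_rfl ⟨h2, h4⟩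
    refine ⟨n, sq, A, Nat.zero_le _, sq_bot hL, hn, ?_⟩
    rw [comp_eq isLow_sq]
    have e1 : shift (0, 0, 0) A = A := shift_zero A
    have e2 : shift (0, 0, 0) sq = sq := shift_zero sq
    have h7 := sq_glue h2
    rw [e2] at h7
    rw [e1, h7]
    exact SameType.trans hK.2 h5
  · obtain ⟨n, A, B, h1, h2, h3, h4⟩ := exists_MK_of_KLen stretchStatement cutStatement hL hK.1 hT
      h h0
    exact ⟨n, A, B, h1, h2, h3, SameType.trans hK.2 h4⟩

theorem tube_all (h : Covered L M y) : ∃ μ : ℝ, 0 < μ ∧ ∀ K : Finset (Sym2 P3),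
    (∃ E, KClass K E ∧ InTube L M E) → (∃ N, ∀ E, KClass K E → ¬ KLen N E) →
    ∃ (N : ℕ) (P : ℝ[X]), IsGreatest (partNums L M K) N ∧ P.natDegree = N ∧
      0 < P.leadingCoeff ∧
      ExpSmall fun k => Z L M y (KClass K) (2 * k) / μ ^ (2 * k) - P.eval ((2 * k : ℕ) : ℝ) := by
  obtain ⟨hL, hy⟩ := h.one_le
  have hgap := h.gap
  have hy0 : 0 < y := one_pos.trans_le hy
  obtain ⟨ρ, hB⟩ := boot (M := M) stretchStatement cutStatement hL hy hgap
  have hρ : 0 < ρ := hB.pos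
  set μ : ℝ := (Real.sqrt ρ)⁻¹ with hμ
  have hμ0 : 0 < μ := by positivity
  have hμk : ∀ (x : ℝ) (k : ℕ), x / μ ^ (2 * k) = x * ρ ^ k := by
    intro x k
    rw [hμ, pow_mul, inv_pow, Real.sq_sqrt hρ.le, inv_pow, div_inv_eq_mul]
  refine ⟨μ, hμ0, ?_⟩
  rintro K ⟨E0, hE0, hT0⟩ ⟨N0, hN0⟩
  have hC : ∀ E F, SameType E F → E ∈ KS K → F ∈ KS K := fun E F h1 h2 => SameType.trans h2 h1
  have hN : FinLen (KS K) N0 := fun E hE h1 h2 =>
    hN0 E ⟨hE, h1⟩ (klen_mono stretchStatement (Nat.le_succ _) h2)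
  -- the greatest number of knotted parts
  have hbdd : ∀ n ∈ partNums L M K, n ≤ N0 := by
    rintro n ⟨E, h1, -, h2⟩
    by_contra hcon
    exact hN0 E h1 (klen_mono stretchStatement (by omega) h2)
  have hne : (partNums L M K).Nonempty := ⟨0, E0, hE0, hT0, KLen.zero _⟩
  obtain ⟨N, hNg⟩ : ∃ N, IsGreatest (partNums L M K) N :=
    ⟨sSup (partNums L M K), Nat.sSup_mem hne ⟨N0, hbdd⟩, fun n hn => le_csSup ⟨N0, hbdd⟩ hn⟩
  have hmax : ∀ (A B : Finset (Sym2 P3)) (n : ℕ), A ∈ BotSet L M → MK L M n B →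
      comp (A, B) ∈ KS K → n ≤ N := by
    intro A B n hA hn hc
    obtain ⟨h1, h2⟩ := comp_bot_upp hA (hn.upp cutStatement)
    exact hNg.2 ⟨comp (A, B), ⟨h1, hc⟩, h2, klen_comp_bot hA hn⟩
  obtain ⟨E, hE, hET, hEN⟩ := hNg.1
  obtain ⟨n, A, B, hNn, hA, hMK, hAB⟩ := exists_mk hL hE hET hEN
  have hnN : n = N := le_antisymm (hmax A B n hA hMK hAB) hNn
  subst hnN
  obtain ⟨p, hp1, hp2, hp3⟩ := tube_gen stretchStatement cutStatement middleStatement' hL hy hgap hB
    hC hN ⟨A, B, hA, hMK, hAB⟩ hmax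
  have hc : (C (1 / 2 : ℝ) * X : ℝ[X]).natDegree = 1 := by
    rw [natDegree_C_mul (by norm_num), natDegree_X]
  refine ⟨n, p.comp (C (1 / 2 : ℝ) * X), hNg, ?_, ?_, hp3.congr fun k => ?_⟩
  · rw [natDegree_comp, hc, mul_one, hp1]
  · rw [leadingCoeff_comp (by rw [hc]; exact one_ne_zero), leadingCoeff_mul, leadingCoeff_C,
      leadingCoeff_X]
    positivity
  · rw [hμk, z_eq_rc hy0 (D := KS K) (fun E hE => ⟨fun h => h.2, fun h => ⟨hE, h⟩⟩) k, eval_comp]
    congr 2
    rw [eval_mul, eval_C, eval_X]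
    push_cast
    ring

theorem tube_all_group (G : Subgroup (R3 ≃ₜ R3)) (hG : ∀ t : R3, Homeomorph.addRight t ∈ G)
    (hG' : ∀ φ : R3 ≃ₜ R3, φ ∈ G ∨ φ * negY ∈ G) (h : Covered L M y) :
    ∃ μ : ℝ, 0 < μ ∧ ∀ K : Finset (Sym2 P3),
    (∃ E, KClass K E ∧ InTube L M E) → (∃ N, ∀ E, KClass K E → ¬ KLen N E) →
    ∃ (N : ℕ) (P : ℝ[X]), IsGreatest (partNums L M K) N ∧ P.natDegree = N ∧
      0 < P.leadingCoeff ∧
      ExpSmall fun k => Z L M y (GClass G K) (2 * k) / μ ^ (2 * k) -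
        P.eval ((2 * k : ℕ) : ℝ) := by
  obtain ⟨μ, hμ, hK⟩ := tube_all h
  refine ⟨μ, hμ, fun K h1 h2 => ?_⟩
  obtain ⟨N, P, a1, a2, a3, a4⟩ := hK K h1 h2
  rcases Z_gclass hG hG' K with h3 | h3
  · refine ⟨N, P, a1, a2, a3, ?_⟩
    simp only [h3]
    exact a4
  · refine ⟨N, C (1 / 2 : ℝ) * P, a1, ?_, ?_, ?_⟩
    · rw [natDegree_C_mul (by norm_num), a2]
    · rw [leadingCoeff_mul, leadingCoeff_C]
      positivity
    · obtain ⟨c, θ, h4, h5, h6, h7⟩ := a4
      refine ⟨c / 2, θ, by positivity, h5, h6, fun k => ?_⟩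
      have h8 := h7 k
      beta_reduce at h8 ⊢
      have e : Z L M y (GClass G K) (2 * k) / μ ^ (2 * k) -
          (C (1 / 2 : ℝ) * P).eval ((2 * k : ℕ) : ℝ) =
          (Z L M y (KClass K) (2 * k) / μ ^ (2 * k) - P.eval ((2 * k : ℕ) : ℝ)) / 2 := by
        rw [eval_mul, eval_C, ← h3 L M y (2 * k)]
        ring
      rw [e, abs_div, abs_two]
      linarith

/-! ### The number of knotted parts of unknotted, prime and knotted polygons -/

theorem bounded_unknot {K : Finset (Sym2 P3)} (hK : Unknotted K) :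
    ∀ E, KClass K E → ¬ KLen 1 E := fun _ hE h =>
  h.knotted stretchStatement (SameType.unknotted (SameType.symm hE.2) hK)

theorem bounded_prime {K : Finset (Sym2 P3)} (hK : PrimeKnot K) :
    ∀ E, KClass K E → ¬ KLen 2 E := fun E hE =>
  finLen_prime stretchStatement hK E hE.1 hE.2

theorem partNums_unknot {K : Finset (Sym2 P3)} {N : ℕ} (hK : Unknotted K)
    (h : IsGreatest (partNums L M K) N) : N = 0 := by
  obtain ⟨E, h1, -, h2⟩ := h.1
  by_contra hN
  exact bounded_unknot hK E h1 (klen_mono stretchStatement (by omega) h2)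

theorem partNums_knot {K : Finset (Sym2 P3)} {N : ℕ} (hK : ¬ Unknotted K)
    (h : IsGreatest (partNums L M K) N) : 1 ≤ N := by
  obtain ⟨E, h1, h2, -⟩ := h.1
  exact h.2 ⟨E, h1, h2, KLen.one _ fun h3 => hK (SameType.unknotted h1.2 h3)⟩

theorem partNums_prime {K : Finset (Sym2 P3)} {N : ℕ} (hK : PrimeKnot K)
    (h : IsGreatest (partNums L M K) N) : N = 1 := by
  refine le_antisymm ?_ (partNums_knot hK.2.1 h)
  obtain ⟨E, h1, -, h2⟩ := h.1
  by_contra hN
  exact bounded_prime hK E h1 (klen_mono stretchStatement (by omega) h2)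

end Pool.Agent.KTube
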