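import Pool.Agent.KTube.Final
import Pool.Agent.KTube.GapMod
import Pool.Agent.KTube.GType
import Pool.Agent.KTube.Stretch
import Pool.Agent.KTube.CutV0

/-! The asymptotic form in tubes for the unknot and for prime knots, types with respect to a group
of homeomorphisms. -/

set_option autoImplicit false

namespace Pool.Agent.KTube

open Pool.Agent.LK

theorem ExpSmall.half {e : ℕ → ℝ} {f : ℕ → ℝ} (h : ExpSmall e) (hf : ∀ n, f n = e n / 2) :
    ExpSmall f := by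
  obtain ⟨C, θ, hC, h0, h1, hb⟩ := h
  refine ⟨C / 2, θ, by positivity, h0, h1, fun n => ?_⟩
  rw [hf, abs_div, abs_two]
  have := hb n
  linarith

theorem tube_group (G : Subgroup (R3 ≃ₜ R3)) (hG : ∀ t : R3, Homeomorph.addRight t ∈ G)
    (hG' : ∀ φ : R3 ≃ₜ R3, φ ∈ G ∨ φ * negY ∈ G) {L M : ℕ} {y : ℝ} (h : Covered L M y) :
    ∃ μ : ℝ, 0 < μ ∧
      (∃ A : ℝ, 0 < A ∧ ExpSmall fun k => Z L M y UClass (2 * k) / μ ^ (2 * k) - A) ∧
      ∀ K : Finset (Sym2 P3), PrimeKnot K → (∃ E, GClass G K E ∧ InTube L M E) →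
        ∃ A B : ℝ, 0 < A ∧ ExpSmall fun k =>
          Z L M y (GClass G K) (2 * k) / μ ^ (2 * k) - (A * (2 * k : ℕ) + B) := by
  obtain ⟨μ, hμ, hU, hK⟩ := tube_exp stretchStatement cutStatement h.one_le.1 h.one_le.2 h.gap
  refine ⟨μ, hμ, hU, ?_⟩
  intro K hP hE
  obtain ⟨E, ⟨hE1, φ, -, hφ⟩, hE2⟩ := hE
  obtain ⟨A, B, hA, hb⟩ := hK K hP ⟨E, ⟨hE1, φ, hφ⟩, hE2⟩
  rcases Z_gclass hG hG' K with h1 | h1
  · refine ⟨A, B, hA, ?_⟩
    simp only [h1]
    exact hb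
  · refine ⟨A / 2, B / 2, by positivity, hb.half fun n => ?_⟩
    rw [← h1 L M y (2 * n)]
    ring

end Pool.Agent.KTube
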